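import Pool.Agent.SYS.Lib.HidA

/-!
# SYS-Lib-HidC: hidden components when a face is revealed

Revealing a new face does not change the hidden components; revealing the face behind the boundary
dart `x` removes `x` and the dart glued to it.
-/

namespace SYS
namespace Part

open Classical SST

variable {D : Type} [Finite D]

private theorem nx_mem_hw (S : Part D) {d : D} (hd : d ∈ S.B) : S.nx d ∈ S.hw d := by
  rw [S.mem_hw hd]
  refine ⟨(S.nx_mem).mpr hd, ?_⟩
  obtain ⟨j, h1, _⟩ := ret_spec S.s hd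
  have h2 : S.nx d = (S.s ^ (j + 1)) d := h1
  exact ⟨((j + 1 : ℕ) : ℤ), by rw [zpow_natCast, h2]⟩

omit [Finite D] in
private theorem fix_of {S : Part D} {d : D} (hd : d ∉ S.R) : S.f d = d ∧ S.a d = d := by
  have h : S.f d = d := by
    by_contra hne
    exact hd hne
  exact ⟨h, S.af d h⟩

section
variable (S : Part D) {t0 t1 t2 : D} (h0 : t0 ∉ S.R) (h1 : t1 ∉ S.R) (h2 : t2 ∉ S.R)
    (h01 : t0 ≠ t1) (h12 : t1 ≠ t2) (h20 : t2 ≠ t0)

omit [Finite D] in
private theorem nT_s_R {d : D} (hd : d ∈ S.R) :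
    (S.newTri t0 t1 t2 h0 h1 h2 h01 h12 h20).s d = S.s d := by
  have ha : S.a d ∈ S.R := (S.mem_R_a d).mpr hd
  show S.f (cyc3 t0 t1 t2 (S.a d)) = S.f (S.a d)
  have e0 : S.a d ≠ t0 := fun h => h0 (h ▸ ha)
  have e1 : S.a d ≠ t1 := fun h => h1 (h ▸ ha)
  have e2 : S.a d ≠ t2 := fun h => h2 (h ▸ ha)
  unfold cyc3
  rw [Equiv.Perm.mul_apply, Equiv.swap_apply_of_ne_of_ne e1 e2,
    Equiv.swap_apply_of_ne_of_ne e0 e1]

omit [Finite D] in
private theorem nT_s_t0 : (S.newTri t0 t1 t2 h0 h1 h2 h01 h12 h20).s t0 = t1 := by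
  show S.f (cyc3 t0 t1 t2 (S.a t0)) = t1
  rw [(fix_of h0).2]
  unfold cyc3
  rw [Equiv.Perm.mul_apply, Equiv.swap_apply_of_ne_of_ne h01 (Ne.symm h20),
    Equiv.swap_apply_left, (fix_of h1).1]

omit [Finite D] in
private theorem nT_s_t1 : (S.newTri t0 t1 t2 h0 h1 h2 h01 h12 h20).s t1 = t2 := by
  show S.f (cyc3 t0 t1 t2 (S.a t1)) = t2
  rw [(fix_of h1).2]
  unfold cyc3
  rw [Equiv.Perm.mul_apply, Equiv.swap_apply_left,
    Equiv.swap_apply_of_ne_of_ne h20 (Ne.symm h12), (fix_of h2).1]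

omit [Finite D] in
private theorem nT_s_t2 : (S.newTri t0 t1 t2 h0 h1 h2 h01 h12 h20).s t2 = t0 := by
  show S.f (cyc3 t0 t1 t2 (S.a t2)) = t0
  rw [(fix_of h2).2]
  unfold cyc3
  rw [Equiv.Perm.mul_apply, Equiv.swap_apply_right, Equiv.swap_apply_right, (fix_of h0).1]

private theorem nT_nx_t0 : (S.newTri t0 t1 t2 h0 h1 h2 h01 h12 h20).nx t0 = t1 := by
  have hs := nT_s_t0 S h0 h1 h2 h01 h12 h20
  rw [nx_step _ (by rw [newTri_B]; exact Or.inr (Or.inl rfl))
    (by rw [hs, newTri_B]; exact Or.inr (Or.inr (Or.inl rfl))), hs]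

private theorem nT_nx_t1 : (S.newTri t0 t1 t2 h0 h1 h2 h01 h12 h20).nx t1 = t2 := by
  have hs := nT_s_t1 S h0 h1 h2 h01 h12 h20
  rw [nx_step _ (by rw [newTri_B]; exact Or.inr (Or.inr (Or.inl rfl)))
    (by rw [hs, newTri_B]; exact Or.inr (Or.inr (Or.inr rfl))), hs]

private theorem nT_nx_t2 : (S.newTri t0 t1 t2 h0 h1 h2 h01 h12 h20).nx t2 = t0 := by
  have hs := nT_s_t2 S h0 h1 h2 h01 h12 h20
  rw [nx_step _ (by rw [newTri_B]; exact Or.inr (Or.inr (Or.inr rfl)))
    (by rw [hs, newTri_B]; exact Or.inr (Or.inl rfl)), hs]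

omit [Finite D] in
private theorem nT_mem {d : D} : d ∈ (S.newTri t0 t1 t2 h0 h1 h2 h01 h12 h20).B ↔
    d ∈ S.B ∨ d = t0 ∨ d = t1 ∨ d = t2 := by
  rw [newTri_B]
  rfl

omit [Finite D] in
private theorem nT_memR {d : D} : d ∈ (S.newTri t0 t1 t2 h0 h1 h2 h01 h12 h20).R ↔
    d ∈ S.R ∨ d = t0 ∨ d = t1 ∨ d = t2 := by
  rw [newTri_R]
  rfl

private theorem nT_nx {d : D} (hd : d ∈ S.B) :
    (S.newTri t0 t1 t2 h0 h1 h2 h01 h12 h20).nx d = S.nx d := by
  obtain ⟨j, e1, e2, e3⟩ := ret_spec S.s hd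
  have key : ∀ n : ℕ, ((S.newTri t0 t1 t2 h0 h1 h2 h01 h12 h20).s ^ n) d = (S.s ^ n) d ∧
      (S.s ^ n) d ∈ S.R := by
    intro n
    induction n with
    | zero => exact ⟨rfl, S.B_sub_R hd⟩
    | succ n ih =>
      rw [pow_succ', Equiv.Perm.mul_apply, pow_succ', Equiv.Perm.mul_apply, ih.1,
        nT_s_R S h0 h1 h2 h01 h12 h20 ih.2]
      exact ⟨rfl, (S.mem_R_s _).mpr ih.2⟩
  have e4 : S.nx d = (S.s ^ (j + 1)) d := e1
  have e5 := ret_eq (S.newTri t0 t1 t2 h0 h1 h2 h01 h12 h20).s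
    (X := (S.newTri t0 t1 t2 h0 h1 h2 h01 h12 h20).B) (d := d) (j := j)
    ((nT_mem S h0 h1 h2 h01 h12 h20).2 (Or.inl hd))
    (by
      rw [(key (j + 1)).1, nT_mem, ← e1]
      exact Or.inl e2)
    (by
      intro i hi
      rw [(key (i + 1)).1, nT_mem]
      have e6 := (key (i + 1)).2
      rintro (e7 | e7 | e7 | e7)
      · exact e3 i hi e7
      · exact h0 (e7 ▸ e6)
      · exact h1 (e7 ▸ e6)
      · exact h2 (e7 ▸ e6))
  rw [(key (j + 1)).1, ← e4] at e5
  exact e5

omit [Finite D] in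
private theorem nT_X {d : D} : d ∈ (S.newTri t0 t1 t2 h0 h1 h2 h01 h12 h20).X ↔ d ∈ S.X := by
  show (d ∉ (S.newTri t0 t1 t2 h0 h1 h2 h01 h12 h20).R ∨
    d ∈ (S.newTri t0 t1 t2 h0 h1 h2 h01 h12 h20).B) ↔ (d ∉ S.R ∨ d ∈ S.B)
  rw [nT_mem, nT_memR]
  constructor
  · rintro (h | h | h | h | h)
    · exact Or.inl fun h' => h (Or.inl h')
    · exact Or.inr h
    · exact Or.inl (h ▸ h0)
    · exact Or.inl (h ▸ h1)
    · exact Or.inl (h ▸ h2)
  · rintro (h | h)
    · by_cases h3 : d = t0 ∨ d = t1 ∨ d = t2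
      · exact Or.inr (Or.inr h3)
      · left
        rintro (h4 | h4)
        · exact h h4
        · exact h3 h4
    · exact Or.inr (Or.inl h)

end

theorem hc_newTri {S : Part D} {T : Tri D} (h : S.Le T) {t : D} (h0 : t ∉ S.R) (h1 : T.f t ∉ S.R)
    (h2 : T.f (T.f t) ∉ S.R) (d e : D) :
    (S.newTri t (T.f t) (T.f (T.f t)) h0 h1 h2 (tri_ne T t).1 (tri_ne T t).2.1 (tri_ne T t).2.2).Hc T d e ↔
      S.Hc T d e := by
  set S' := S.newTri t (T.f t) (T.f (T.f t)) h0 h1 h2 (tri_ne T t).1 (tri_ne T t).2.1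
    (tri_ne T t).2.2 with hS'
  have hX : ∀ d, d ∈ S'.X ↔ d ∈ S.X := fun d => nT_X S h0 h1 h2 _ _ _
  have hB : ∀ d, d ∈ S'.B ↔ d ∈ S.B ∨ d = t ∨ d = T.f t ∨ d = T.f (T.f t) :=
    fun d => nT_mem S h0 h1 h2 _ _ _
  have hR : ∀ d, d ∈ S'.R ↔ d ∈ S.R ∨ d = t ∨ d = T.f t ∨ d = T.f (T.f t) :=
    fun d => nT_memR S h0 h1 h2 _ _ _
  have n0 : S'.nx t = T.f t := nT_nx_t0 S h0 h1 h2 _ _ _
  have n1 : S'.nx (T.f t) = T.f (T.f t) := nT_nx_t1 S h0 h1 h2 _ _ _
  have n2 : S'.nx (T.f (T.f t)) = t := nT_nx_t2 S h0 h1 h2 _ _ _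
  have n3 : ∀ d ∈ S.B, S'.nx d = S.nx d := fun d hd => nT_nx S h0 h1 h2 _ _ _ hd
  constructor
  · intro hde
    refine hc_ind (S := S') (T := T) (fun d e => S.Hc T d e) (fun d => hc_refl S T d)
      (fun d e h => hc_symm h) (fun d e k h h' => hc_trans h h') ?_ ?_ ?_ hde
    · intro d hd
      exact hc_a ((hX d).1 hd)
    · intro d hd
      exact hc_f fun h' => hd ((hR d).2 (Or.inl h'))
    · intro d hd
      rcases (hB d).1 hd with h3 | h3 | h3 | h3
      · rw [n3 d h3]
        exact hc_nx h3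
      · rw [h3, n0]
        exact hc_f h0
      · rw [h3, n1]
        exact hc_f h1
      · have h4 := hc_f (S := S) (T := T) h2
        rw [T.fff] at h4
        rw [h3, n2]
        exact h4
  · intro hde
    refine hc_ind (S := S) (T := T) (fun d e => S'.Hc T d e) (fun d => hc_refl S' T d)
      (fun d e h => hc_symm h) (fun d e k h h' => hc_trans h h') ?_ ?_ ?_ hde
    · intro d hd
      exact hc_a ((hX d).2 hd)
    · intro d hd
      by_cases h3 : d = t ∨ d = T.f t ∨ d = T.f (T.f t)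
      · have h4 : d ∈ S'.B := (hB d).2 (Or.inr h3)
        have h5 : S'.nx d = T.f d := by
          rcases h3 with h3 | h3 | h3
          · rw [h3, n0]
          · rw [h3, n1]
          · rw [h3, n2, T.fff]
        have h6 := hc_nx (S := S') (T := T) h4
        rw [h5] at h6
        exact h6
      · refine hc_f ?_
        rw [hR]
        rintro (h4 | h4)
        · exact hd h4
        · exact h3 h4
    · intro d hd
      have h6 := hc_nx (S := S') (T := T) ((hB d).2 (Or.inl hd))
      rw [n3 d hd] at h6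
      exact h6

theorem hc_face {S : Part D} {T : Tri D} (h : S.Le T) {x : D} (hx : x ∈ S.B) (h0 : T.a x ∉ S.R)
    (h1 : T.f (T.a x) ∉ S.R) (h2 : T.f (T.f (T.a x)) ∉ S.R) {S' : Part D}
    (hS' : S' = S.face x (T.a x) (T.f (T.a x)) (T.f (T.f (T.a x))) hx h0 h1 h2 (tri_ne T _).1 (tri_ne T _).2.1
        (tri_ne T _).2.2) {d e : D} (hd : d ∈ S'.X) (he : e ∈ S'.X) : S'.Hc T d e ↔ S.Hc T d e := by
  have hxR : x ∈ S.R := S.B_sub_R hx
  have hB : ∀ d, d ∈ S'.B ↔ (d ∈ S.B ∧ d ≠ x) ∨ d = T.f (T.a x) ∨ d = T.f (T.f (T.a x)) := by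
    intro d
    rw [hS', face_B]
    rfl
  have hR : ∀ d, d ∈ S'.R ↔ d ∈ S.R ∨ d = T.a x ∨ d = T.f (T.a x) ∨ d = T.f (T.f (T.a x)) := by
    intro d
    rw [hS', face_R]
    rfl
  obtain ⟨u, hu⟩ := S.hw_cons hx
  have hw1 : S'.hw (T.f (T.a x)) = T.f (T.a x) :: T.f (T.f (T.a x)) :: u := by
    rw [hS']
    exact hw_face S hx h0 h1 h2 _ _ _ hu
  have hw2 : ∀ z ∈ S.B, ¬ S.s.SameCycle x z → S'.hw z = S.hw z := by
    intro z hz hn
    rw [hS']
    exact hw_face_other S hx h0 h1 h2 _ _ _ hz hn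
  have hxu : x ∉ u := by
    have hn := S.hw_nodup hx
    rw [hu] at hn
    exact (List.nodup_cons.mp hn).1
  have huB : ∀ e ∈ u, e ∈ S.B ∧ S.s.SameCycle x e := by
    intro e he
    refine (S.mem_hw hx).1 ?_
    rw [hu]
    exact List.mem_cons_of_mem _ he
  have hBu : ∀ e ∈ S.B, S.s.SameCycle x e → e = x ∨ e ∈ u := by
    intro e he hs
    have h3 := (S.mem_hw hx).2 ⟨he, hs⟩
    rw [hu, List.mem_cons] at h3
    exact h3
  have ht1 : T.f (T.a x) ∈ S'.B := (hB _).2 (Or.inr (Or.inl rfl))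
  have ht2 : T.f (T.f (T.a x)) ∈ S'.B := (hB _).2 (Or.inr (Or.inr rfl))
  have hne0 : ∀ e ∈ S.R, e ≠ T.a x := fun e he h' => h0 (h' ▸ he)
  have hxX : x ∈ S.X := Or.inr hx
  have hne1 : T.f (T.a x) ≠ x := fun h' => h1 (by rw [h']; exact hxR)
  have hne2 : T.f (T.f (T.a x)) ≠ x := fun h' => h2 (by rw [h']; exact hxR)
  -- the darts `t0, t1, t2` in `S`
  have k0 : S.Hc T x (T.a x) := hc_a hxX
  have k1 : S.Hc T x (T.f (T.a x)) := hc_trans k0 (hc_f h0)
  have k2 : S.Hc T x (T.f (T.f (T.a x))) := hc_trans k1 (hc_f h1)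
  have hXx : ∀ d ∈ S'.X, d ≠ x ∧ d ≠ T.a x := by
    rintro d (h3 | h3)
    · rw [hR, not_or, not_or] at h3
      exact ⟨fun h' => h3.1 (h' ▸ hxR), h3.2.1⟩
    · rcases (hB d).1 h3 with h4 | h4 | h4
      · exact ⟨h4.2, hne0 d (S.B_sub_R h4.1)⟩
      · rw [h4]
        exact ⟨hne1, (tri_ne T _).1.symm⟩
      · rw [h4]
        exact ⟨hne2, (tri_ne T _).2.2⟩
  constructor
  · intro hde
    refine hc_ind (S := S') (T := T) (fun d e => S.Hc T d e) (fun d => hc_refl S T d)
      (fun d e h => hc_symm h) (fun d e k h h' => hc_trans h h') ?_ ?_ ?_ hde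
    · rintro d (h3 | h3)
      · exact hc_a (Or.inl fun h' => h3 ((hR d).2 (Or.inl h')))
      · rcases (hB d).1 h3 with h4 | h4 | h4
        · exact hc_a (Or.inr h4.1)
        · exact hc_a (Or.inl (h4 ▸ h1))
        · exact hc_a (Or.inl (h4 ▸ h2))
    · intro d hd
      exact hc_f fun h' => hd ((hR d).2 (Or.inl h'))
    · intro d hd
      have h3 := nx_mem_hw S' hd
      by_cases h4 : S'.s.SameCycle (T.f (T.a x)) d
      · have key : ∀ e ∈ S'.hw (T.f (T.a x)), S.Hc T x e := by
          intro e he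
          rw [hw1, List.mem_cons, List.mem_cons] at he
          rcases he with he | he | he
          · rw [he]
            exact k1
          · rw [he]
            exact k2
          · refine hc_hole hx ?_
            rw [hu]
            exact List.mem_cons_of_mem _ he
        have h5 := (S'.mem_hw hd).1 h3
        have h6 : d ∈ S'.hw (T.f (T.a x)) := (S'.mem_hw ht1).2 ⟨hd, h4⟩
        have h7 : S'.nx d ∈ S'.hw (T.f (T.a x)) := (S'.mem_hw ht1).2 ⟨h5.1, h4.trans h5.2⟩
        exact hc_trans (hc_symm (key _ h6)) (key _ h7)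
      · have h5 : d ∈ S.B ∧ d ≠ x := by
          rcases (hB d).1 hd with h5 | h5 | h5
          · exact h5
          · exact absurd (by rw [h5]) h4
          · exfalso
            apply h4
            have h6 : T.f (T.f (T.a x)) ∈ S'.hw (T.f (T.a x)) := by
              rw [hw1]
              simp
            rw [h5]
            exact ((S'.mem_hw ht1).1 h6).2
        have h6 : ¬ S.s.SameCycle x d := by
          intro h7
          apply h4
          rcases hBu d h5.1 h7 with h8 | h8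
          · exact absurd h8 h5.2
          · have h9 : d ∈ S'.hw (T.f (T.a x)) := by
              rw [hw1]
              exact List.mem_cons_of_mem _ (List.mem_cons_of_mem _ h8)
            exact ((S'.mem_hw ht1).1 h9).2
        rw [hw2 d h5.1 h6] at h3
        exact hc_hole h5.1 h3
  · intro hde
    let r : D → D := fun d => if d = x ∨ d = T.a x then T.f (T.a x) else d
    have rx : r x = T.f (T.a x) := if_pos (Or.inl rfl)
    have r0 : r (T.a x) = T.f (T.a x) := if_pos (Or.inr rfl)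
    have rn : ∀ d, d ≠ x → d ≠ T.a x → r d = d := fun d h3 h4 => if_neg (by
      rintro (h5 | h5)
      · exact h3 h5
      · exact h4 h5)
    have key : S'.Hc T (r d) (r e) := by
      refine hc_ind (S := S) (T := T) (fun d e => S'.Hc T (r d) (r e)) (fun d => hc_refl S' T _)
        (fun d e h => hc_symm h) (fun d e k h h' => hc_trans h h') ?_ ?_ ?_ hde
      · intro d hd
        by_cases e1 : d = x
        · rw [e1, rx, r0]
          exact hc_refl S' T _
        · by_cases e2 : d = T.a x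
          · rw [e2, T.aa, rx, r0]
            exact hc_refl S' T _
          · have e3 : T.a d ≠ x := fun h' => e2 (by rw [← h', T.aa])
            have e4 : T.a d ≠ T.a x := fun h' => e1 (T.a.injective h')
            rw [rn d e1 e2, rn _ e3 e4]
            refine hc_a ?_
            rcases hd with h3 | h3
            · by_cases e5 : d = T.f (T.a x) ∨ d = T.f (T.f (T.a x))
              · exact Or.inr ((hB d).2 (Or.inr e5))
              · left
                rw [hR]
                rintro (h4 | h4 | h4)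
                · exact h3 h4
                · exact e2 h4
                · exact e5 h4
            · exact Or.inr ((hB d).2 (Or.inl ⟨h3, e1⟩))
      · intro d hd
        have e1 : d ≠ x := fun h' => hd (h' ▸ hxR)
        have m2 : T.f (T.f (T.a x)) ∈ S'.hw (T.f (T.a x)) := by
          rw [hw1]
          simp
        have m3 : S'.Hc T (T.f (T.a x)) (T.f (T.f (T.a x))) := hc_hole ht1 m2
        have r1 : r (T.f (T.a x)) = T.f (T.a x) :=
          rn _ hne1 (tri_ne T _).1.symm
        have r2 : r (T.f (T.f (T.a x))) = T.f (T.f (T.a x)) :=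
          rn _ hne2 (tri_ne T _).2.2
        by_cases e2 : d = T.a x
        · rw [e2, r0, r1]
          exact hc_refl S' T _
        · by_cases e3 : d = T.f (T.a x)
          · rw [e3, r1, r2]
            exact m3
          · by_cases e4 : d = T.f (T.f (T.a x))
            · rw [e4, r2, T.fff, r0]
              exact hc_symm m3
            · have e5 : T.f d ∉ S.R := fun h' => hd ((le_f_mem h d).1 h')
              have e6 : T.f d ≠ x := fun h' => e5 (h' ▸ hxR)
              have e7 : T.f d ≠ T.a x := by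
                intro h'
                apply e4
                rw [← h', T.fff]
              rw [rn d e1 e2, rn _ e6 e7]
              refine hc_f ?_
              rw [hR]
              rintro (h4 | h4 | h4 | h4)
              · exact hd h4
              · exact e2 h4
              · exact e3 h4
              · exact e4 h4
      · intro d hd
        have h3 := nx_mem_hw S hd
        have h5 := (S.mem_hw hd).1 h3
        by_cases h4 : S.s.SameCycle x d
        · have key : ∀ e ∈ S.B, S.s.SameCycle x e → S'.Hc T (T.f (T.a x)) (r e) := by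
            intro e he hs
            rcases hBu e he hs with h6 | h6
            · rw [h6, rx]
              exact hc_refl S' T _
            · rw [rn e (fun h' => hxu (h' ▸ h6)) (hne0 e (S.B_sub_R he))]
              refine hc_hole ht1 ?_
              rw [hw1]
              exact List.mem_cons_of_mem _ (List.mem_cons_of_mem _ h6)
          exact hc_trans (hc_symm (key d hd h4)) (key _ h5.1 (h4.trans h5.2))
        · have e1 : d ≠ x := fun h' => h4 (by rw [h'])
          have e2 : S.nx d ≠ x := fun h' => h4 (h' ▸ h5.2).symm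
          rw [rn d e1 (hne0 d (S.B_sub_R hd)), rn _ e2 (hne0 _ (S.B_sub_R h5.1))]
          have h6 : d ∈ S'.B := (hB d).2 (Or.inl ⟨hd, e1⟩)
          refine hc_hole h6 ?_
          rw [hw2 d hd h4]
          exact h3
    rw [rn d (hXx d hd).1 (hXx d hd).2, rn e (hXx e he).1 (hXx e he).2] at key
    exact key

end Part
end SYS
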