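import Pool.Agent.SYS.Lib.Rch
import Pool.Agent.SYS.Lib.HidC

/-!
# SYS-Lib-Cyl: number of reached regions, transfer of counts

PLAN.
* `st_card`: `N = 3F` unrevealed darts.  `T`: ordered triples of distinct unrevealed darts, `(t0,t1,t2) ↦ (S', t1)` is injective (`S'.a x = t0`, `z = t1`, `S'.f t1 = t2`); `N (N-1) (N-2)` of them (embeddings `Fin 3 ↪ ↥Rᶜ`:
  `Fintype.card_embedding_eq`).  `R k a`, `k + 2 < p`: `hw x` has length `p`, so `u, y, v` are determined by `k` (`List.take`, `List.drop`), `v = z :: w`; `S'` ranges over the `DiscFill`s of `S₁ = glue x y`: `k = 0`: one if `a = 0`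
  (`W 0 0 = 1`), none if `a > 0` (`W 0 a = 0`); `k > 0`: `fill_card` for `S₁` with `ι = Fin 1`, `h =` first of `u` (`per = k`: `hl_glue_split`), `V = (2 + a + k)/2`; `Num.W k a = muG {k} a 0 = mu (fun _ : Fin 1 => k) a V` (`A.mu_eq`);
  if `a + k` is odd both are `0`.  `S₁.R = S.R` (`glue_R`).  `L` is symmetric.
* `rch_card`: induction on the word: the set is the disjoint union over the `(S₁, z)` of `st_card` of the sets reached from `(S₁, nx^ρ z)`; disjoint by `st_unique` with `U = S'` (`rch_sub`); `descFactorial (3 (a + b)) = descFactorial (3 a) *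
  (N - 3 a).descFactorial (3 b)` (`Nat.descFactorial_add`?: `n.descFactorial (m + k) = n.descFactorial m * (n - m).descFactorial k`).
* `cyl_eq`, `cyl_le`: the set of `T` is the disjoint union (by `rch_unique` with `U = ofTri T`) over the reached `(S', x')` of `{T | T ∈ S'.Ext g ∧ HConn ∧ Z}` (`S'.Le T` and `rch_sub` give `S.Le T`); `(3F).descFactorial (3 wvol w) * (3 (F - wvol w))! = (3F)!`.
* `src_eq`, `src_le`: triples `(t0, t1, t2)` as in `st_card`: for given `T` and `y = t0`: `t1 = T.f y`, `t2 = T.f t1`.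
  `HConn` of `S.newTri` is `HConn` of `S` (`hc_newTri`; the hidden sets are equal).
-/

namespace SYS
namespace Part

open Classical SST

/-! ### Counting by fibres -/

private theorem cyl_fib {α β : Type} [Finite α] [Finite β] (A : Set α) (B : Set β)
    (r : α → β → Prop) (hex : ∀ a ∈ A, ∃ b ∈ B, r a b)
    (hun : ∀ a ∈ A, ∀ b ∈ B, ∀ b' ∈ B, r a b → r a b' → b = b') (c : ℝ)
    (hc : ∀ b ∈ B, (({a | a ∈ A ∧ r a b}.ncard : ℕ) : ℝ) = c) :
    ((A.ncard : ℕ) : ℝ) = B.ncard * c := by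
  have := Fintype.ofFinite B
  let f : (Σ b : B, {a // a ∈ A ∧ r a b.1}) → A := fun x => ⟨x.2.1, x.2.2.1⟩
  have hf : Function.Bijective f := by
    constructor
    · rintro ⟨⟨b, hb⟩, ⟨a, ha⟩⟩ ⟨⟨b', hb'⟩, ⟨a', ha'⟩⟩ h
      have h1 : a = a' := congrArg Subtype.val h
      subst h1
      have h2 : b = b' := hun a ha.1 b hb b' hb' ha.2 ha'.2
      subst h2
      rfl
    · rintro ⟨a, ha⟩
      obtain ⟨b, hb, hr⟩ := hex a ha
      exact ⟨⟨⟨b, hb⟩, ⟨a, ha, hr⟩⟩, rfl⟩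
  have h1 : A.ncard = ∑ b : B, Nat.card {a // a ∈ A ∧ r a b.1} := by
    rw [← Nat.card_coe_set_eq, ← Nat.card_eq_of_bijective f hf, Nat.card_sigma]
  rw [h1, Nat.cast_sum]
  have h2 : ∀ b ∈ (Finset.univ : Finset B), ((Nat.card {a // a ∈ A ∧ r a b.1} : ℕ) : ℝ) = c :=
    fun b _ => hc b.1 b.2
  rw [Finset.sum_congr rfl h2, Finset.sum_const, nsmul_eq_mul, Finset.card_univ,
    ← Nat.card_eq_fintype_card, Nat.card_coe_set_eq]

private theorem cyl_fib_le {α β : Type} [Finite α] [Finite β] (A : Set α) (B : Set β)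
    (r : α → β → Prop) (hex : ∀ a ∈ A, ∃ b ∈ B, r a b) (c : ℝ)
    (hc : ∀ b ∈ B, (({a | a ∈ A ∧ r a b}.ncard : ℕ) : ℝ) ≤ c) :
    ((A.ncard : ℕ) : ℝ) ≤ B.ncard * c := by
  have := Fintype.ofFinite B
  let f : (Σ b : B, {a // a ∈ A ∧ r a b.1}) → A := fun x => ⟨x.2.1, x.2.2.1⟩
  have hf : Function.Surjective f := by
    rintro ⟨a, ha⟩
    obtain ⟨b, hb, hr⟩ := hex a ha
    exact ⟨⟨⟨b, hb⟩, ⟨a, ha, hr⟩⟩, rfl⟩
  have h1 : A.ncard ≤ ∑ b : B, Nat.card {a // a ∈ A ∧ r a b.1} := by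
    rw [← Nat.card_coe_set_eq, ← Nat.card_sigma]
    exact Nat.card_le_card_of_surjective f hf
  have h2 : ((A.ncard : ℕ) : ℝ) ≤ ((∑ b : B, Nat.card {a // a ∈ A ∧ r a b.1} : ℕ) : ℝ) := by
    exact_mod_cast h1
  refine h2.trans ?_
  rw [Nat.cast_sum]
  have h3 : ∀ b ∈ (Finset.univ : Finset B), ((Nat.card {a // a ∈ A ∧ r a b.1} : ℕ) : ℝ) ≤ c :=
    fun b _ => hc b.1 b.2
  refine (Finset.sum_le_sum h3).trans (le_of_eq ?_)
  rw [Finset.sum_const, nsmul_eq_mul, Finset.card_univ, ← Nat.card_eq_fintype_card,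
    Nat.card_coe_set_eq]

/-! ### Numbers of discs -/

private theorem cyl_W {k a V : ℕ} (h : 2 * V = 2 + a + k) :
    Num.W k a = ((mu (fun _ : Fin 1 => k) a V : ℚ) : ℝ) := by
  have h1 : mu (fun _ : Fin 1 => k) a V = (A.muP {k} a).coeff V := by
    rw [A.mu_eq _ a V (Or.inl ⟨0⟩)]
    rfl
  rw [h1]
  have h2 : Even (a + ({k} : Multiset ℕ).sum) ∧
      4 * 0 + 2 * Multiset.card ({k} : Multiset ℕ) ≤ 4 + a + ({k} : Multiset ℕ).sum := by
    rw [Multiset.sum_singleton, Multiset.card_singleton]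
    exact ⟨⟨V - 1, by omega⟩, by omega⟩
  unfold Num.W Num.muG
  rw [if_pos h2, Multiset.sum_singleton, Multiset.card_singleton]
  have h3 : (4 + a + k - 4 * 0 - 2 * 1) / 2 = V := by omega
  rw [h3]

private theorem cyl_W_odd {k a : ℕ} (h : ¬ ∃ V, 2 * V = 2 + a + k) : Num.W k a = 0 := by
  unfold Num.W Num.muG
  rw [if_neg]
  rintro ⟨⟨c, hc⟩, -⟩
  rw [Multiset.sum_singleton] at hc
  exact h ⟨c + 1, by omega⟩

private theorem cyl_W_nn (k a : ℕ) : 0 ≤ Num.W k a := by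
  by_cases h : ∃ V, 2 * V = 2 + a + k
  · obtain ⟨V, hV⟩ := h
    rw [cyl_W hV]
    have : (0 : ℚ) ≤ mu (fun _ : Fin 1 => k) a V := by
      unfold mu
      split_ifs <;> positivity
    exact_mod_cast this
  · rw [cyl_W_odd h]

private theorem cyl_W_zero (a : ℕ) : Num.W 0 a = if a = 0 then 1 else 0 := by
  by_cases h : ∃ V, 2 * V = 2 + a + 0
  · obtain ⟨V, hV⟩ := h
    rw [cyl_W hV]
    unfold mu
    rw [if_neg (fun h => h 0 rfl)]
    by_cases ha : a = 0
    · rw [if_pos ha, if_pos ⟨by simp, ha, by omega⟩]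
      simp
    · rw [if_neg ha, if_neg (fun h => ha h.2.1)]
      simp
  · rw [cyl_W_odd h, if_neg]
    rintro rfl
    exact h ⟨1, rfl⟩

private theorem cyl_compl {D : Type} [Finite D] {S : Part D} {F : ℕ}
    (hv : S.R.ncard + 3 * F = Nat.card D) : S.Rᶜ.ncard = 3 * F := by
  have h1 := Set.ncard_add_ncard_compl S.R
  omega

private theorem cyl_disc {D : Type} [Finite D] {S₁ : Part D} {F : ℕ}
    (hv : S₁.R.ncard + 3 * F = Nat.card D) {t : List D}
    (ht : ∀ z t', t = z :: t' → z ∈ S₁.B ∧ S₁.hw z = t) (a : ℕ) :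
    (({S' | S₁.DiscFill S' t a}.ncard : ℕ) : ℝ) =
      (((3 * F).descFactorial (3 * a) : ℕ) : ℝ) * Num.W t.length a := by
  cases t with
  | nil =>
    rw [List.length_nil, cyl_W_zero]
    by_cases ha : a = 0
    · subst ha
      have h1 : {S' | S₁.DiscFill S' [] 0} = {S₁} := by
        ext S'
        constructor
        · rintro (h | h)
          · exact h.2.2
          · exact absurd rfl h.1
        · intro h
          exact Or.inl ⟨rfl, rfl, h⟩
      rw [h1, Set.ncard_singleton]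
      simp
    · have h1 : {S' | S₁.DiscFill S' [] a} = ∅ := by
        ext S'
        constructor
        · rintro (h | h)
          · exact absurd h.2.1 ha
          · exact absurd rfl h.1
        · intro h
          exact h.elim
      rw [h1, Set.ncard_empty, if_neg ha]
      simp
  | cons z t' =>
    obtain ⟨hz, hw⟩ := ht z t' rfl
    by_cases hV : ∃ V, 2 * V = 2 + a + (z :: t').length
    · obtain ⟨V, hV⟩ := hV
      rw [cyl_W hV]
      have h1 := fill_card S₁ (fun _ : Fin 1 => z) (fun _ => hz)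
        (fun i j _ => Subsingleton.elim i j) a V
      have h2 : {d | d ∈ S₁.B ∧ ∃ i : Fin 1, S₁.s.SameCycle ((fun _ : Fin 1 => z) i) d} =
          {d | d ∈ z :: t'} := by
        ext d
        rw [← hw]
        refine Iff.trans ?_ (mem_hw S₁ hz).symm
        exact ⟨fun h => ⟨h.1, h.2.choose_spec⟩, fun h => ⟨h.1, 0, h.2⟩⟩
      have h3 : {S' | S₁.DiscFill S' (z :: t') a} =
          {S' | S₁.FillBy S' {d | d ∈ S₁.B ∧ ∃ i : Fin 1, S₁.s.SameCycle ((fun _ : Fin 1 => z) i) d}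
            a V} := by
        ext S'
        rw [h2]
        constructor
        · rintro (h | ⟨-, V', hV', h⟩)
          · exact absurd h.1 (by simp)
          · have : V' = V := by omega
            rw [this] at h
            exact h
        · intro h
          exact Or.inr ⟨by simp, V, hV, h⟩
      have h4 : S₁.per z = (z :: t').length := by rw [← hw, hw_length S₁ hz]
      rw [h3]
      have h5 : (((({S' | S₁.FillBy S' {d | d ∈ S₁.B ∧ ∃ i : Fin 1,
          S₁.s.SameCycle ((fun _ : Fin 1 => z) i) d} a V}.ncard : ℕ) : ℚ)) : ℝ) =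
          ((((S₁.Rᶜ.ncard.descFactorial (3 * a) : ℕ) : ℚ) *
            mu (fun i : Fin 1 => S₁.per ((fun _ : Fin 1 => z) i)) a V : ℚ) : ℝ) := by
        rw [h1]
      have e : (fun i : Fin 1 => S₁.per ((fun _ : Fin 1 => z) i)) =
          fun _ => (z :: t').length := funext fun _ => h4
      rw [cyl_compl hv, e] at h5
      push_cast at h5
      exact h5
    · rw [cyl_W_odd hV]
      have h1 : {S' | S₁.DiscFill S' (z :: t') a} = ∅ := by
        ext S'
        constructor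
        · rintro (h | ⟨-, V', hV', -⟩)
          · exact absurd h.1 (by simp)
          · exact absurd ⟨V', hV'⟩ hV
        · intro h
          exact h.elim
      rw [h1, Set.ncard_empty]
      simp

/-! ### Triples of unrevealed darts -/

private theorem cyl_ne {D : Type} {Y : Set D} (e : Fin 3 ↪ Y) {i j : Fin 3} (h : i ≠ j) :
    (e i : D) ≠ e j := fun h' => h (e.injective (Subtype.ext h'))

private def cyl_mk {D : Type} {Y : Set D} (t0 t1 t2 : D) (h0 : t0 ∈ Y) (h1 : t1 ∈ Y) (h2 : t2 ∈ Y)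
    (h01 : t0 ≠ t1) (h12 : t1 ≠ t2) (h20 : t2 ≠ t0) : Fin 3 ↪ Y where
  toFun := ![⟨t0, h0⟩, ⟨t1, h1⟩, ⟨t2, h2⟩]
  inj' := by
    have k01 : (⟨t0, h0⟩ : Y) ≠ ⟨t1, h1⟩ := fun h => h01 (congrArg Subtype.val h)
    have k12 : (⟨t1, h1⟩ : Y) ≠ ⟨t2, h2⟩ := fun h => h12 (congrArg Subtype.val h)
    have k20 : (⟨t2, h2⟩ : Y) ≠ ⟨t0, h0⟩ := fun h => h20 (congrArg Subtype.val h)
    intro i j h
    fin_cases i <;> fin_cases j
    · rfl
    · exact absurd h k01
    · exact absurd h k20.symm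
    · exact absurd h k01.symm
    · rfl
    · exact absurd h k12
    · exact absurd h k20
    · exact absurd h k12.symm
    · rfl

private theorem cyl_emb_card {D : Type} [Finite D] {S : Part D} {F : ℕ}
    (hv : S.R.ncard + 3 * F = Nat.card D) :
    Nat.card (Fin 3 ↪ ↥(S.Rᶜ)) = (3 * F).descFactorial 3 := by
  have := Fintype.ofFinite ↥(S.Rᶜ)
  rw [Nat.card_eq_fintype_card, Fintype.card_embedding_eq, Fintype.card_fin,
    ← Nat.card_eq_fintype_card, Nat.card_coe_set_eq, cyl_compl hv]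

/-- the new face -/
private noncomputable def cyl_fc {D : Type} (S : Part D) (x : D) (hx : x ∈ S.B)
    (e : Fin 3 ↪ ↥(S.Rᶜ)) : Part D :=
  S.face x (e 0) (e 1) (e 2) hx (e 0).2 (e 1).2 (e 2).2 (cyl_ne e (by decide))
    (cyl_ne e (by decide)) (cyl_ne e (by decide))

/-- the new triangle -/
private noncomputable def cyl_nt {D : Type} (S : Part D) (e : Fin 3 ↪ ↥(S.Rᶜ)) : Part D :=
  S.newTri (e 0) (e 1) (e 2) (e 0).2 (e 1).2 (e 2).2 (cyl_ne e (by decide))
    (cyl_ne e (by decide)) (cyl_ne e (by decide))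

section
variable {D : Type} [Finite D] {ρ : List Stp → ℕ} {h : List Stp} {S : Part D} {x : D} {w : List Stp} {l : List D} {p : ℕ}
  {P : List ℕ} {F κ : ℕ}

private theorem cyl_x (hS : S.Typ (x :: l) (p :: P) F κ) : x ∈ S.B :=
  hS.hl.1 x List.mem_cons_self

private theorem cyl_len (hS : S.Typ (x :: l) (p :: P) F κ) : (S.hw x).length = p := by
  rw [hw_length S (cyl_x hS)]
  have h1 := hS.per
  rw [List.map_cons] at h1
  exact (List.cons.inj h1).1

private theorem cyl_glue_ht {y : D} {u v : List D} (hx : x ∈ S.B) (hy : y ∈ S.B)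
    (h : S.hw x = x :: (u ++ y :: v)) {t : List D} (ht : t = u ∨ t = v) :
    ∀ z t', t = z :: t' → z ∈ (S.glue x y hx hy).B ∧ (S.glue x y hx hy).hw z = t := by
  intro z t' htz
  have hn := S.hw_nodup hx
  rw [h] at hn
  have hz : z ∈ u ++ y :: v := by
    rw [List.mem_append, List.mem_cons]
    rcases ht with ht | ht
    · left
      rw [← ht, htz]
      exact List.mem_cons_self
    · right
      right
      rw [← ht, htz]
      exact List.mem_cons_self
  have hxy : x ≠ y := by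
    intro he
    have h1 := (List.nodup_cons.1 hn).1
    apply h1
    rw [he, List.mem_append]
    exact Or.inr List.mem_cons_self
  have hzx : z ≠ x := by
    intro he
    have h1 := (List.nodup_cons.1 hn).1
    rw [he] at hz
    exact h1 hz
  have hn2 := (List.nodup_cons.1 hn).2
  have hzy : z ≠ y := by
    intro he
    rw [List.nodup_append] at hn2
    obtain ⟨n1, n2, n3⟩ := hn2
    rcases ht with ht | ht
    · have h1 : z ∈ u := by rw [← ht, htz]; exact List.mem_cons_self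
      exact n3 z h1 y List.mem_cons_self he
    · have h1 : z ∈ v := by rw [← ht, htz]; exact List.mem_cons_self
      rw [he] at h1
      exact (List.nodup_cons.1 n2).1 h1
  have hzB : z ∈ S.B := by
    have h1 : z ∈ S.hw x := by
      rw [h]
      exact List.mem_cons_of_mem _ hz
    exact ((mem_hw S hx).1 h1).1
  refine ⟨?_, ?_⟩
  · rw [glue_B S hx hy hxy]
    refine ⟨hzB, ?_⟩
    rw [Set.mem_insert_iff, Set.mem_singleton_iff, not_or]
    exact ⟨hzx, hzy⟩
  · rcases ht with ht | ht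
    · rw [ht] at htz ⊢
      exact hw_glue_split_left S hx hy h htz
    · rw [ht] at htz ⊢
      exact hw_glue_split_right S hx hy h htz

theorem st_card (hS : S.Typ (x :: l) (p :: P) F κ) {s : Stp} (hs : s.Ok p) :
    (({q : Part D × D | S.St x s q.1 q.2}.ncard : ℕ) : ℝ) = (((3 * F).descFactorial (3 * s.vol) : ℕ) : ℝ) * s.wt 1 Num.W := by
  have hx := cyl_x hS
  have hp := cyl_len hS
  cases s with
  | T =>
    let g : (Fin 3 ↪ ↥(S.Rᶜ)) → Part D × D := fun e => (cyl_fc S x hx e, e 1)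
    have hg : Function.Injective g := by
      intro e e' he
      have h1 : cyl_fc S x hx e = cyl_fc S x hx e' := congrArg Prod.fst he
      have k1 : (e 1 : D) = e' 1 := by
        have a1 : (cyl_fc S x hx e).s x = e 1 := face_s_x S hx _ _ _ _ _ _
        have a2 : (cyl_fc S x hx e').s x = e' 1 := face_s_x S hx _ _ _ _ _ _
        rw [← a1, ← a2, h1]
      have k2 : (e 2 : D) = e' 2 := by
        have a1 : (cyl_fc S x hx e).s (e 1) = e 2 := face_s_t1 S hx _ _ _ _ _ _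
        have a2 : (cyl_fc S x hx e').s (e' 1) = e' 2 := face_s_t1 S hx _ _ _ _ _ _
        rw [← a1, ← a2, h1, k1]
      have k0 : (e 0 : D) = e' 0 := by
        have a1 : (cyl_fc S x hx e).s (e 2) = e 0 := face_s_t2 S hx _ _ _ _ _ _
        have a2 : (cyl_fc S x hx e').s (e' 2) = e' 0 := face_s_t2 S hx _ _ _ _ _ _
        rw [← a1, ← a2, h1, k2]
      apply DFunLike.ext
      intro i
      apply Subtype.ext
      fin_cases i
      · exact k0
      · exact k1
      · exact k2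
    have hr : {q : Part D × D | S.St x .T q.1 q.2} = Set.range g := by
      ext q
      constructor
      · rintro ⟨t0, t1, t2, hx', h0, h1, h2, h01, h12, h20, hq1, hq2⟩
        exact ⟨cyl_mk t0 t1 t2 h0 h1 h2 h01 h12 h20, Prod.ext hq1.symm hq2.symm⟩
      · rintro ⟨e, rfl⟩
        exact ⟨e 0, e 1, e 2, hx, (e 0).2, (e 1).2, (e 2).2, cyl_ne e (by decide),
          cyl_ne e (by decide), cyl_ne e (by decide), rfl, rfl⟩
    rw [hr, ← Nat.card_coe_set_eq, Nat.card_range_of_injective hg, cyl_emb_card hS.vol]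
    show _ = (((3 * F).descFactorial (3 * 1) : ℕ) : ℝ) * 1
    rw [mul_one, mul_one]
  | R k a =>
    have hs' : k + 3 ≤ p := hs
    obtain ⟨w₀, hw₀⟩ := hw_cons S hx
    have hlen : w₀.length + 1 = p := by rw [← hp, hw₀, List.length_cons]
    obtain ⟨y, v, hyv⟩ : ∃ y v, w₀.drop k = y :: v := by
      cases hd : w₀.drop k with
      | nil =>
        have := congrArg List.length hd
        rw [List.length_drop, List.length_nil] at this
        omega
      | cons y v => exact ⟨y, v, rfl⟩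
    obtain ⟨z, w', hzw⟩ : ∃ z w', v = z :: w' := by
      cases v with
      | nil =>
        have := congrArg List.length hyv
        rw [List.length_drop, List.length_cons, List.length_nil] at this
        omega
      | cons z w' => exact ⟨z, w', rfl⟩
    have hul : (w₀.take k).length = k := by rw [List.length_take]; omega
    have hw : S.hw x = x :: (w₀.take k ++ y :: v) := by
      rw [hw₀, ← hyv, List.take_append_drop]
    have hyB : y ∈ S.B := by
      have h1 : y ∈ S.hw x := by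
        rw [hw]
        exact List.mem_cons_of_mem _ (List.mem_append_right _ List.mem_cons_self)
      exact ((mem_hw S hx).1 h1).1
    have hset : {q : Part D × D | S.St x (.R k a) q.1 q.2} =
        (fun S' : Part D => (S', z)) '' {S' | (S.glue x y hx hyB).DiscFill S' (w₀.take k) a} := by
      ext q
      constructor
      · rintro ⟨y', u', v', w'', hx', hy', h1, h2, h3, h4⟩
        rw [hw] at h1
        have h5 := (List.cons.inj h1).2
        obtain ⟨h6, h7⟩ := List.append_inj h5 (by rw [hul, h2])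
        obtain ⟨h8, h9⟩ := List.cons.inj h7
        subst h8
        subst h6
        rw [← h9, hzw] at h3
        obtain ⟨h10, h11⟩ := List.cons.inj h3
        refine ⟨q.1, h4, ?_⟩
        exact Prod.ext rfl h10
      · rintro ⟨S', hS', rfl⟩
        exact ⟨y, w₀.take k, v, w', hx, hyB, hw, hul, hzw, hS'⟩
    rw [hset, Set.ncard_image_of_injective _ (fun a b hab => congrArg Prod.fst hab)]
    have h1 := cyl_disc (S₁ := S.glue x y hx hyB) (F := F) (by rw [glue_R]; exact hS.vol)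
      (cyl_glue_ht hx hyB hw (Or.inl rfl)) a
    rw [h1, hul]
    rfl
  | L k a =>
    have hs' : k + 3 ≤ p := hs
    obtain ⟨w₀, hw₀⟩ := hw_cons S hx
    have hlen : w₀.length + 1 = p := by rw [← hp, hw₀, List.length_cons]
    obtain ⟨m, hm⟩ : ∃ m, m = p - (k + 2) := ⟨_, rfl⟩
    obtain ⟨y, v, hyv⟩ : ∃ y v, w₀.drop m = y :: v := by
      cases hd : w₀.drop m with
      | nil =>
        have := congrArg List.length hd
        rw [List.length_drop, List.length_nil] at this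
        omega
      | cons y v => exact ⟨y, v, rfl⟩
    have hvl : v.length = k := by
      have := congrArg List.length hyv
      rw [List.length_drop, List.length_cons] at this
      omega
    have hul : (w₀.take m).length = m := by rw [List.length_take]; omega
    obtain ⟨z, w', hzw⟩ : ∃ z w', w₀.take m = z :: w' := by
      cases hd : w₀.take m with
      | nil =>
        rw [hd, List.length_nil] at hul
        omega
      | cons z w' => exact ⟨z, w', rfl⟩
    have hw : S.hw x = x :: (w₀.take m ++ y :: v) := by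
      rw [hw₀, ← hyv, List.take_append_drop]
    have hyB : y ∈ S.B := by
      have h1 : y ∈ S.hw x := by
        rw [hw]
        exact List.mem_cons_of_mem _ (List.mem_append_right _ List.mem_cons_self)
      exact ((mem_hw S hx).1 h1).1
    have hset : {q : Part D × D | S.St x (.L k a) q.1 q.2} =
        (fun S' : Part D => (S', z)) '' {S' | (S.glue x y hx hyB).DiscFill S' v a} := by
      ext q
      constructor
      · rintro ⟨y', u', v', w'', hx', hy', h1, h2, h3, h4⟩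
        rw [hw] at h1
        have h5 := (List.cons.inj h1).2
        have h6' : (w₀.take m).length = u'.length := by
          have := congrArg List.length h5
          rw [List.length_append, List.length_append, List.length_cons, List.length_cons] at this
          omega
        obtain ⟨h6, h7⟩ := List.append_inj h5 h6'
        obtain ⟨h8, h9⟩ := List.cons.inj h7
        subst h8
        subst h9
        rw [← h6, hzw] at h3
        obtain ⟨h10, h11⟩ := List.cons.inj h3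
        refine ⟨q.1, h4, ?_⟩
        exact Prod.ext rfl h10
      · rintro ⟨S', hS', rfl⟩
        exact ⟨y, w₀.take m, v, w', hx, hyB, hw, hvl, hzw, hS'⟩
    rw [hset, Set.ncard_image_of_injective _ (fun a b hab => congrArg Prod.fst hab)]
    have h1 := cyl_disc (S₁ := S.glue x y hx hyB) (F := F) (by rw [glue_R]; exact hS.vol)
      (cyl_glue_ht hx hyB hw (Or.inr rfl)) a
    rw [h1, hvl]
    rfl

theorem rch_card (hS : S.Typ (x :: l) (p :: P) F κ) (hw : WOk p w) :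
    (({q : Part D × D | Rch ρ h S x w q.1 q.2}.ncard : ℕ) : ℝ) = (((3 * F).descFactorial (3 * wvol w) : ℕ) : ℝ) * wwt 1 Num.W w := by
  induction w generalizing h S x p F with
  | nil =>
    have h1 : {q : Part D × D | Rch ρ h S x [] q.1 q.2} = {(S, x)} := by
      ext q
      constructor
      · rintro ⟨h1, h2⟩
        exact Prod.ext h1 h2
      · rintro h1
        rw [Set.mem_singleton_iff] at h1
        rw [h1]
        exact ⟨rfl, rfl⟩
    rw [h1, Set.ncard_singleton, wvol_nil, wwt_nil]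
    simp
  | cons s w ih =>
    rw [WOk_cons] at hw
    have hA := cyl_fib {q : Part D × D | Rch ρ h S x (s :: w) q.1 q.2}
      {b : Part D × D | S.St x s b.1 b.2}
      (fun q b => Rch ρ (h ++ [s]) b.1 ((b.1.nx ^ ρ (h ++ [s])) b.2) w q.1 q.2) ?_ ?_
      ((((3 * (F - s.vol)).descFactorial (3 * wvol w) : ℕ) : ℝ) * wwt 1 Num.W w) ?_
    · rw [hA, st_card hS hw.1, wvol_cons, wwt_cons]
      have h1 : (3 * (F - s.vol)).descFactorial (3 * wvol w) * (3 * F).descFactorial (3 * s.vol) =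
          (3 * F).descFactorial (3 * (s.vol + wvol w)) := by
        have h2 := Nat.descFactorial_mul_descFactorial (k := 3 * s.vol)
          (m := 3 * (s.vol + wvol w)) (n := 3 * F) (by omega)
        rw [← h2]
        congr 2 <;> omega
      rw [← h1]
      push_cast
      ring
    · rintro q ⟨S₁, z, h1, h2⟩
      exact ⟨(S₁, z), h1, h2⟩
    · rintro q - ⟨S₁, z⟩ hb ⟨S₂, z₂⟩ hb' hr hr'
      obtain ⟨h1, h2⟩ := st_unique hb hb' (rch_sub hr) (rch_sub hr')
      exact Prod.ext h1 h2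
    · rintro ⟨S₁, z⟩ hb
      have hb' : S.St x s S₁ z := hb
      have hset : {a | a ∈ {q : Part D × D | Rch ρ h S x (s :: w) q.1 q.2} ∧
          Rch ρ (h ++ [s]) S₁ ((S₁.nx ^ ρ (h ++ [s])) z) w a.1 a.2} =
          {q : Part D × D | Rch ρ (h ++ [s]) S₁ ((S₁.nx ^ ρ (h ++ [s])) z) w q.1 q.2} := by
        ext q
        exact ⟨fun hq => hq.2, fun hq => ⟨⟨S₁, z, hb', hq⟩, hq⟩⟩
      obtain ⟨-, F', hF', hT⟩ := st_typ hS hb'
      have hz : z ∈ S₁.B := hT.hl.1 z List.mem_cons_self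
      obtain ⟨h1, h2⟩ := nx_pow_same S₁ hz (ρ (h ++ [s]))
      have hT' := typ_repl hT h1 h2
      have h3 := ih (h := h ++ [s]) hT' hw.2
      have h4 : F - s.vol = F' := by omega
      rw [hset, h3, h4]

end

section
variable {n g : ℕ} {ρ : List Stp → ℕ} {h : List Stp} {S : Part (Fin (6 * n))} {x : Fin (6 * n)} {w : List Stp}
  {l : List (Fin (6 * n))} {p : ℕ} {P : List ℕ} {F κ : ℕ}

private theorem cyl_fact {F v : ℕ} (hv : v ≤ F) :
    (((3 * F).descFactorial (3 * v) : ℕ) : ℝ) * ((3 * (F - v)).factorial : ℝ) =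
      ((3 * F).factorial : ℝ) := by
  have h1 := Nat.factorial_mul_descFactorial (n := 3 * F) (k := 3 * v) (by omega)
  have h2 : 3 * F - 3 * v = 3 * (F - v) := by omega
  rw [h2] at h1
  rw [← h1]
  push_cast
  ring

/-- Transfer: every region reached by `w` has exactly `(3F')! c` extensions with `Z`. -/
theorem cyl_eq (hS : S.Typ (x :: l) (p :: P) F κ) (hw : WOk p w) (hv : wvol w ≤ F)
    (Z : Tri (Fin (6 * n)) → Part (Fin (6 * n)) → Fin (6 * n) → Prop) {c : ℝ}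
    (hZ : ∀ S' x', Rch ρ h S x w S' x' →
      (({T | T ∈ S'.Ext g ∧ S'.HConn T ∧ Z T S' x'}.ncard : ℕ) : ℝ) = ((3 * (F - wvol w)).factorial : ℝ) * c) :
    (({T | T ∈ S.Ext g ∧ ∃ S' x', Rch ρ h S x w S' x' ∧ S'.Le T ∧ S'.HConn T ∧ Z T S' x'}.ncard : ℕ) : ℝ) =
      ((3 * F).factorial : ℝ) * wwt 1 Num.W w * c := by
  have hA := cyl_fib
    {T | T ∈ S.Ext g ∧ ∃ S' x', Rch ρ h S x w S' x' ∧ S'.Le T ∧ S'.HConn T ∧ Z T S' x'}
    {q : Part (Fin (6 * n)) × Fin (6 * n) | Rch ρ h S x w q.1 q.2}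
    (fun T q => q.1.Le T ∧ q.1.HConn T ∧ Z T q.1 q.2) ?_ ?_
    (((3 * (F - wvol w)).factorial : ℝ) * c) ?_
  · rw [hA, rch_card hS hw, ← cyl_fact hv]
    ring
  · rintro T ⟨-, S', x', h1, h2⟩
    exact ⟨(S', x'), h1, h2⟩
  · rintro T - ⟨S₁, z⟩ hb ⟨S₂, z₂⟩ hb' hr hr'
    obtain ⟨h1, h2⟩ := rch_unique hb hb' ((le_iff_sub S₁ T).1 hr.1) ((le_iff_sub S₂ T).1 hr'.1)
    exact Prod.ext h1 h2
  · rintro ⟨S', x'⟩ hb
    have hb' : Rch ρ h S x w S' x' := hb
    rw [← hZ S' x' hb']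
    congr 2
    ext T
    constructor
    · rintro ⟨⟨h1, -⟩, h2, h3, h4⟩
      exact ⟨⟨h1.1, h2⟩, h3, h4⟩
    · rintro ⟨h1, h2, h3⟩
      exact ⟨⟨⟨h1.1, sub_le (rch_sub hb') h1.2⟩, S', x', hb', h1.2, h2, h3⟩, h1.2, h2, h3⟩

theorem cyl_le (hS : S.Typ (x :: l) (p :: P) F κ)
    (Z : Tri (Fin (6 * n)) → Part (Fin (6 * n)) → Fin (6 * n) → Prop) {c : ℝ} (hc : 0 ≤ c)
    (hZ : ∀ S' x', Rch ρ h S x w S' x' →
      (({T | T ∈ S'.Ext g ∧ S'.HConn T ∧ Z T S' x'}.ncard : ℕ) : ℝ) ≤ ((3 * (F - wvol w)).factorial : ℝ) * c) :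
    (({T | T ∈ S.Ext g ∧ ∃ S' x', Rch ρ h S x w S' x' ∧ S'.Le T ∧ S'.HConn T ∧ Z T S' x'}.ncard : ℕ) : ℝ) ≤
      ((3 * F).factorial : ℝ) * wwt 1 Num.W w * c := by
  have hnn : 0 ≤ wwt 1 Num.W w := wwt_nonneg zero_le_one cyl_W_nn w
  by_cases hex : ∃ S' x', Rch ρ h S x w S' x'
  · obtain ⟨S₀, x₀, h₀⟩ := hex
    obtain ⟨hw, F', hF', -⟩ := rch_typ hS h₀
    have hv : wvol w ≤ F := by omega
    have hA := cyl_fib_le
      {T | T ∈ S.Ext g ∧ ∃ S' x', Rch ρ h S x w S' x' ∧ S'.Le T ∧ S'.HConn T ∧ Z T S' x'}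
      {q : Part (Fin (6 * n)) × Fin (6 * n) | Rch ρ h S x w q.1 q.2}
      (fun T q => q.1.Le T ∧ q.1.HConn T ∧ Z T q.1 q.2) ?_
      (((3 * (F - wvol w)).factorial : ℝ) * c) ?_
    · refine hA.trans (le_of_eq ?_)
      rw [rch_card hS hw, ← cyl_fact hv]
      ring
    · rintro T ⟨-, S', x', h1, h2⟩
      exact ⟨(S', x'), h1, h2⟩
    · rintro ⟨S', x'⟩ hb
      have hb' : Rch ρ h S x w S' x' := hb
      refine le_trans ?_ (hZ S' x' hb')
      have : {a | a ∈ {T | T ∈ S.Ext g ∧ ∃ S' x', Rch ρ h S x w S' x' ∧ S'.Le T ∧ S'.HConn T ∧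
          Z T S' x'} ∧ S'.Le a ∧ S'.HConn a ∧ Z a S' x'} ⊆
          {T | T ∈ S'.Ext g ∧ S'.HConn T ∧ Z T S' x'} := by
        rintro T ⟨⟨h1, -⟩, h2, h3, h4⟩
        exact ⟨⟨h1.1, h2⟩, h3, h4⟩
      exact_mod_cast Set.ncard_le_ncard this (Set.toFinite _)
  · have h1 : {T | T ∈ S.Ext g ∧ ∃ S' x', Rch ρ h S x w S' x' ∧ S'.Le T ∧ S'.HConn T ∧
        Z T S' x'} = ∅ := by
      ext T
      constructor
      · rintro ⟨-, S', x', h1, -⟩
        exact absurd ⟨S', x', h1⟩ hex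
      · intro h1
        exact h1.elim
    rw [h1, Set.ncard_empty]
    have : 0 ≤ ((3 * F).factorial : ℝ) * wwt 1 Num.W w * c := by positivity
    simpa using this

private theorem cyl_cyc0 {D : Type} {t0 t1 t2 : D} (h01 : t0 ≠ t1) (h20 : t2 ≠ t0) :
    cyc3 t0 t1 t2 t0 = t1 := by
  unfold cyc3
  rw [Equiv.Perm.mul_apply, Equiv.swap_apply_of_ne_of_ne h01 h20.symm, Equiv.swap_apply_left]

private theorem cyl_cyc1 {D : Type} {t0 t1 t2 : D} (h12 : t1 ≠ t2) (h20 : t2 ≠ t0) :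
    cyc3 t0 t1 t2 t1 = t2 := by
  unfold cyc3
  rw [Equiv.Perm.mul_apply, Equiv.swap_apply_left, Equiv.swap_apply_of_ne_of_ne h20 h12.symm]

private theorem cyl_le_f {D : Type} {S : Part D} {t0 t1 t2 : D} (h0 : t0 ∉ S.R) (h1 : t1 ∉ S.R)
    (h2 : t2 ∉ S.R) (h01 : t0 ≠ t1) (h12 : t1 ≠ t2) (h20 : t2 ≠ t0) {T : Tri D}
    (h : (S.newTri t0 t1 t2 h0 h1 h2 h01 h12 h20).Le T) : T.f t0 = t1 ∧ T.f t1 = t2 := by
  have f0 : (S.newTri t0 t1 t2 h0 h1 h2 h01 h12 h20).f t0 = t1 := by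
    show S.f (cyc3 t0 t1 t2 t0) = t1
    rw [cyl_cyc0 h01 h20]
    exact not_not.1 h1
  have f1 : (S.newTri t0 t1 t2 h0 h1 h2 h01 h12 h20).f t1 = t2 := by
    show S.f (cyc3 t0 t1 t2 t1) = t2
    rw [cyl_cyc1 h12 h20]
    exact not_not.1 h2
  constructor
  · rw [h.1 t0 (by rw [f0]; exact h01.symm), f0]
  · rw [h.1 t1 (by rw [f1]; exact h12.symm), f1]

private theorem cyl_hconn {D : Type} [Finite D] {S : Part D} {t0 t1 t2 : D} (h0 : t0 ∉ S.R)
    (h1 : t1 ∉ S.R) (h2 : t2 ∉ S.R) (h01 : t0 ≠ t1) (h12 : t1 ≠ t2) (h20 : t2 ≠ t0) {T : Tri D}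
    (h : (S.newTri t0 t1 t2 h0 h1 h2 h01 h12 h20).Le T) :
    (S.newTri t0 t1 t2 h0 h1 h2 h01 h12 h20).HConn T ↔ S.HConn T := by
  have hS : S.Le T := sub_le (newTri_sub S h0 h1 h2 h01 h12 h20) h
  have hX : (S.newTri t0 t1 t2 h0 h1 h2 h01 h12 h20).X = S.X := by
    ext d
    show (d ∉ (S.newTri t0 t1 t2 h0 h1 h2 h01 h12 h20).R ∨
      d ∈ (S.newTri t0 t1 t2 h0 h1 h2 h01 h12 h20).B) ↔ (d ∉ S.R ∨ d ∈ S.B)
    rw [newTri_R, newTri_B]
    constructor
    · rintro (h3 | h3 | h3)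
      · exact Or.inl fun h4 => h3 (Or.inl h4)
      · exact Or.inr h3
      · left
        rw [Set.mem_insert_iff, Set.mem_insert_iff, Set.mem_singleton_iff] at h3
        rcases h3 with rfl | rfl | rfl
        · exact h0
        · exact h1
        · exact h2
    · rintro (h3 | h3)
      · by_cases h4 : d ∈ ({t0, t1, t2} : Set D)
        · exact Or.inr (Or.inr h4)
        · left
          rintro (h5 | h5)
          · exact h3 h5
          · exact h4 h5
      · exact Or.inr (Or.inl h3)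
  obtain ⟨e1, e2⟩ := cyl_le_f h0 h1 h2 h01 h12 h20 h
  subst e1
  subst e2
  unfold HConn
  rw [hX]
  have hh := fun d e => hc_newTri hS h0 h1 h2 d e
  constructor
  · intro h3 d hd e he
    exact (hh d e).1 (h3 d hd e he)
  · intro h3 d hd e he
    exact (hh d e).2 (h3 d hd e he)

/-- the set of pairs of `src_eq` -/
private def cyl_A (g : ℕ) (S : Part (Fin (6 * n)))
    (Z : Tri (Fin (6 * n)) → Part (Fin (6 * n)) → Fin (6 * n) → Prop) :
    Set (Tri (Fin (6 * n)) × Fin (6 * n)) :=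
  {q | q.1 ∈ S.Ext g ∧ S.HConn q.1 ∧ ∃ S', S'.Le q.1 ∧ Z q.1 S' q.2 ∧
      ∃ t1 t2 h0 h1 h2 h01 h12 h20, S' = S.newTri q.2 t1 t2 h0 h1 h2 h01 h12 h20}

private theorem cyl_A_ex (Z : Tri (Fin (6 * n)) → Part (Fin (6 * n)) → Fin (6 * n) → Prop) :
    ∀ q ∈ cyl_A g S Z, ∃ e ∈ (Set.univ : Set (Fin 3 ↪ ↥(S.Rᶜ))),
      q.2 = e 0 ∧ (cyl_nt S e).Le q.1 ∧ Z q.1 (cyl_nt S e) q.2 := by
  rintro ⟨T, t0⟩ ⟨-, -, S', h3, h4, t1, t2, h0, h1, h2, h01, h12, h20, rfl⟩
  exact ⟨cyl_mk t0 t1 t2 h0 h1 h2 h01 h12 h20, Set.mem_univ _, rfl, h3, h4⟩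

private theorem cyl_A_fib (Z : Tri (Fin (6 * n)) → Part (Fin (6 * n)) → Fin (6 * n) → Prop)
    (e : Fin 3 ↪ ↥(S.Rᶜ)) :
    {q | q ∈ cyl_A g S Z ∧ (q.2 = e 0 ∧ (cyl_nt S e).Le q.1 ∧ Z q.1 (cyl_nt S e) q.2)}.ncard =
      {T | T ∈ (cyl_nt S e).Ext g ∧ (cyl_nt S e).HConn T ∧ Z T (cyl_nt S e) (e 0)}.ncard := by
  have h1 : {q | q ∈ cyl_A g S Z ∧ (q.2 = e 0 ∧ (cyl_nt S e).Le q.1 ∧ Z q.1 (cyl_nt S e) q.2)} =
      (fun T : Tri (Fin (6 * n)) => (T, (e 0 : Fin (6 * n)))) ''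
        {T | T ∈ (cyl_nt S e).Ext g ∧ (cyl_nt S e).HConn T ∧ Z T (cyl_nt S e) (e 0)} := by
    ext q
    constructor
    · rintro ⟨⟨k1, k2, -⟩, k3, k4, k5⟩
      rw [k3] at k5
      exact ⟨q.1, ⟨⟨k1.1, k4⟩, (cyl_hconn _ _ _ _ _ _ k4).2 k2, k5⟩, Prod.ext rfl k3.symm⟩
    · rintro ⟨T, ⟨k1, k2, k3⟩, rfl⟩
      refine ⟨⟨⟨k1.1, sub_le (newTri_sub S _ _ _ _ _ _) k1.2⟩, (cyl_hconn _ _ _ _ _ _ k1.2).1 k2,
        cyl_nt S e, k1.2, k3, e 1, e 2, (e 0).2, (e 1).2, (e 2).2, cyl_ne e (by decide),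
        cyl_ne e (by decide), cyl_ne e (by decide), rfl⟩, rfl, k1.2, k3⟩
  rw [h1, Set.ncard_image_of_injective _ (fun a b hab => congrArg Prod.fst hab)]

/-- A source `y` outside `S`: `Z T S' y`, `S'` = `S` with the triangle of `y`. -/
theorem src_eq (hS : S.Typ l P (F + 1) κ) (Z : Tri (Fin (6 * n)) → Part (Fin (6 * n)) → Fin (6 * n) → Prop) {c : ℝ}
    (hZ : ∀ t0 t1 t2 h0 h1 h2 h01 h12 h20,
      (({T | T ∈ (S.newTri t0 t1 t2 h0 h1 h2 h01 h12 h20).Ext g ∧ (S.newTri t0 t1 t2 h0 h1 h2 h01 h12 h20).HConn T ∧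
        Z T (S.newTri t0 t1 t2 h0 h1 h2 h01 h12 h20) t0}.ncard : ℕ) : ℝ) = ((3 * F).factorial : ℝ) * c) :
    (({q : Tri (Fin (6 * n)) × Fin (6 * n) | q.1 ∈ S.Ext g ∧ S.HConn q.1 ∧ ∃ S', S'.Le q.1 ∧ Z q.1 S' q.2 ∧
      ∃ t1 t2 h0 h1 h2 h01 h12 h20, S' = S.newTri q.2 t1 t2 h0 h1 h2 h01 h12 h20}.ncard : ℕ) : ℝ) =
      ((3 * (F + 1)).factorial : ℝ) * c := by
  have hA := cyl_fib (cyl_A g S Z) (Set.univ : Set (Fin 3 ↪ ↥(S.Rᶜ)))
    (fun q e => q.2 = e 0 ∧ (cyl_nt S e).Le q.1 ∧ Z q.1 (cyl_nt S e) q.2) (cyl_A_ex Z) ?_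
    (((3 * F).factorial : ℝ) * c) ?_
  · rw [Set.ncard_univ, cyl_emb_card hS.vol] at hA
    have h1 := cyl_fact (F := F + 1) (v := 1) (by omega)
    rw [Nat.add_sub_cancel, Nat.mul_one] at h1
    rw [← h1, mul_assoc]
    exact hA
  · rintro ⟨T, t⟩ - e - e' - ⟨k1, k2, -⟩ ⟨k1', k2', -⟩
    obtain ⟨a1, a2⟩ := cyl_le_f _ _ _ _ _ _ k2
    obtain ⟨a1', a2'⟩ := cyl_le_f _ _ _ _ _ _ k2'
    have e0 : (e 0 : Fin (6 * n)) = e' 0 := by rw [← k1, ← k1']
    have e1 : (e 1 : Fin (6 * n)) = e' 1 := by rw [← a1, ← a1', e0]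
    have e2 : (e 2 : Fin (6 * n)) = e' 2 := by rw [← a2, ← a2', e1]
    apply DFunLike.ext
    intro i
    apply Subtype.ext
    fin_cases i
    · exact e0
    · exact e1
    · exact e2
  · intro e _
    rw [cyl_A_fib Z e]
    exact hZ _ _ _ _ _ _ _ _ _

theorem src_le (hS : S.Typ l P (F + 1) κ) (Z : Tri (Fin (6 * n)) → Part (Fin (6 * n)) → Fin (6 * n) → Prop) {c : ℝ} (hc : 0 ≤ c)
    (hZ : ∀ t0 t1 t2 h0 h1 h2 h01 h12 h20,
      (({T | T ∈ (S.newTri t0 t1 t2 h0 h1 h2 h01 h12 h20).Ext g ∧ (S.newTri t0 t1 t2 h0 h1 h2 h01 h12 h20).HConn T ∧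
        Z T (S.newTri t0 t1 t2 h0 h1 h2 h01 h12 h20) t0}.ncard : ℕ) : ℝ) ≤ ((3 * F).factorial : ℝ) * c) :
    (({q : Tri (Fin (6 * n)) × Fin (6 * n) | q.1 ∈ S.Ext g ∧ S.HConn q.1 ∧ ∃ S', S'.Le q.1 ∧ Z q.1 S' q.2 ∧
      ∃ t1 t2 h0 h1 h2 h01 h12 h20, S' = S.newTri q.2 t1 t2 h0 h1 h2 h01 h12 h20}.ncard : ℕ) : ℝ) ≤
      ((3 * (F + 1)).factorial : ℝ) * c := by
  have _ := hc
  have hA := cyl_fib_le (cyl_A g S Z) (Set.univ : Set (Fin 3 ↪ ↥(S.Rᶜ)))
    (fun q e => q.2 = e 0 ∧ (cyl_nt S e).Le q.1 ∧ Z q.1 (cyl_nt S e) q.2) (cyl_A_ex Z)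
    (((3 * F).factorial : ℝ) * c) ?_
  · rw [Set.ncard_univ, cyl_emb_card hS.vol] at hA
    have h1 := cyl_fact (F := F + 1) (v := 1) (by omega)
    rw [Nat.add_sub_cancel, Nat.mul_one] at h1
    rw [← h1, mul_assoc]
    exact hA
  · intro e _
    rw [cyl_A_fib Z e]
    exact hZ _ _ _ _ _ _ _ _ _

end

end Part
end SYS
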