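import Pool.Agent.SYS.Lib.HidA

/-!
# SYS-Lib-HidD: hidden components when two boundary darts are glued

The hidden darts of `S.glue x y` are those of `S` without `x` and `y`.  The steps of the glued region are steps of `S` or stay in
the merged or split hole; conversely `hc_ind` is used with the predicate `same side of the hole of x and y`.
-/

namespace SYS
namespace Part

open Classical SST

variable {D : Type} [Finite D]

private theorem nx_same {S : Part D} {d : D} (hd : d ∈ S.B) : S.s.SameCycle d (S.nx d) := by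
  have h1 : (ret S.s S.B).SameCycle d (S.nx d) := ⟨1, by rw [zpow_one]; rfl⟩
  exact (ret_same S.s hd (S.nx_mem.mpr hd)).mp h1

private theorem nx_hw {S : Part D} {z d : D} (hz : z ∈ S.B) (hd : d ∈ S.hw z) : S.nx d ∈ S.hw z := by
  have h1 := (S.mem_hw hz).mp hd
  exact (S.mem_hw hz).mpr ⟨S.nx_mem.mpr h1.1, h1.2.trans (nx_same h1.1)⟩

omit [Finite D] in
private theorem mem_X {S : Part D} {x y : D} (hx : x ∈ S.B) (hy : y ∈ S.B) (hxy : x ≠ y) (d : D) :
    d ∈ (S.glue x y hx hy).X ↔ d ∈ S.X ∧ d ≠ x ∧ d ≠ y := by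
  have e : (S.glue x y hx hy).B = S.B \ {x, y} := glue_B S hx hy hxy
  constructor
  · intro h
    have h' : d ∉ S.R ∨ d ∈ (S.glue x y hx hy).B := h
    rw [e] at h'
    rcases h' with h1 | h1
    · exact ⟨Or.inl h1, fun h2 => h1 (h2 ▸ S.B_sub_R hx), fun h2 => h1 (h2 ▸ S.B_sub_R hy)⟩
    · exact ⟨Or.inr h1.1, fun h2 => h1.2 (Or.inl h2), fun h2 => h1.2 (Or.inr h2)⟩
  · rintro ⟨h1 | h1, h2, h3⟩
    · exact Or.inl h1
    · refine Or.inr ?_
      rw [e]
      exact ⟨h1, fun h4 => h4.elim h2 h3⟩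

private theorem glue_cl {S : Part D} {T : Tri D} (h : S.Le T) {x y : D} (hx : x ∈ S.B) (hy : y ∈ S.B)
    (hT : T.a x = y) (hxy : x ≠ y) (W : D → Prop)
    (hW : ∀ z ∈ S.B, (S.s.SameCycle x z ∨ S.s.SameCycle y z) → z = x ∨ z = y ∨ W z)
    {d e : D} (hde : S.Hc T d e) :
    ((d = x ∨ d = y ∨ ∃ z, W z ∧ (S.glue x y hx hy).Hc T z d) ↔
      (e = x ∨ e = y ∨ ∃ z, W z ∧ (S.glue x y hx hy).Hc T z e)) ∧
    (¬ (d = x ∨ d = y ∨ ∃ z, W z ∧ (S.glue x y hx hy).Hc T z d) → (S.glue x y hx hy).Hc T d e) := by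
  have hTy : T.a y = x := by rw [← hT, T.aa]
  -- a step of the glued region
  have step : ∀ d e, d ≠ x → d ≠ y → e ≠ x → e ≠ y → (S.glue x y hx hy).Hc T d e →
      ((d = x ∨ d = y ∨ ∃ z, W z ∧ (S.glue x y hx hy).Hc T z d) ↔
        (e = x ∨ e = y ∨ ∃ z, W z ∧ (S.glue x y hx hy).Hc T z e)) ∧
      (¬ (d = x ∨ d = y ∨ ∃ z, W z ∧ (S.glue x y hx hy).Hc T z d) → (S.glue x y hx hy).Hc T d e) := by
    intro d e h1 h2 h3 h4 h5
    refine ⟨⟨?_, ?_⟩, fun _ => h5⟩
    · rintro (h6 | h6 | ⟨z, h6, h7⟩)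
      · exact absurd h6 h1
      · exact absurd h6 h2
      · exact Or.inr (Or.inr ⟨z, h6, hc_trans h7 h5⟩)
    · rintro (h6 | h6 | ⟨z, h6, h7⟩)
      · exact absurd h6 h3
      · exact absurd h6 h4
      · exact Or.inr (Or.inr ⟨z, h6, hc_trans h7 (hc_symm h5)⟩)
  refine hc_ind (S := S) (T := T) (fun d e =>
    ((d = x ∨ d = y ∨ ∃ z, W z ∧ (S.glue x y hx hy).Hc T z d) ↔
      (e = x ∨ e = y ∨ ∃ z, W z ∧ (S.glue x y hx hy).Hc T z e)) ∧
    (¬ (d = x ∨ d = y ∨ ∃ z, W z ∧ (S.glue x y hx hy).Hc T z d) → (S.glue x y hx hy).Hc T d e))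
    ?_ ?_ ?_ ?_ ?_ ?_ hde
  · intro d
    exact ⟨Iff.rfl, fun _ => hc_refl _ _ d⟩
  · rintro d e ⟨h1, h2⟩
    exact ⟨h1.symm, fun h3 => hc_symm (h2 fun h4 => h3 (h1.mp h4))⟩
  · rintro d e k ⟨h1, h2⟩ ⟨h3, h4⟩
    exact ⟨h1.trans h3, fun h5 => hc_trans (h2 h5) (h4 fun h6 => h5 (h1.mpr h6))⟩
  · intro d hd
    by_cases h1 : d = x
    · have h2 : T.a d = y := by rw [h1, hT]
      exact ⟨⟨fun _ => Or.inr (Or.inl h2), fun _ => Or.inl h1⟩, fun h3 => absurd (Or.inl h1) h3⟩
    · by_cases h2 : d = y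
      · have h3 : T.a d = x := by rw [h2, hTy]
        exact ⟨⟨fun _ => Or.inl h3, fun _ => Or.inr (Or.inl h2)⟩,
          fun h4 => absurd (Or.inr (Or.inl h2)) h4⟩
      · refine step d (T.a d) h1 h2 ?_ ?_ (hc_a ((mem_X hx hy hxy d).mpr ⟨hd, h1, h2⟩))
        · intro h3
          apply h2
          rw [← T.aa d, h3, hT]
        · intro h3
          apply h1
          rw [← T.aa d, h3, hTy]
  · intro d hd
    have hfd : T.f d ∉ S.R := fun h1 => hd ((le_f_mem h d).mp h1)
    exact step d (T.f d) (fun h1 => hd (h1 ▸ S.B_sub_R hx)) (fun h1 => hd (h1 ▸ S.B_sub_R hy))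
      (fun h1 => hfd (h1 ▸ S.B_sub_R hx)) (fun h1 => hfd (h1 ▸ S.B_sub_R hy))
      (hc_f (S := S.glue x y hx hy) hd)
  · intro d hd
    have hn : S.nx d ∈ S.B := S.nx_mem.mpr hd
    have hs : S.s.SameCycle d (S.nx d) := nx_same hd
    by_cases hc : S.s.SameCycle x d ∨ S.s.SameCycle y d
    · have hc' : S.s.SameCycle x (S.nx d) ∨ S.s.SameCycle y (S.nx d) :=
        hc.imp (fun h1 => h1.trans hs) (fun h1 => h1.trans hs)
      have h1 : d = x ∨ d = y ∨ ∃ z, W z ∧ (S.glue x y hx hy).Hc T z d := by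
        rcases hW d hd hc with h1 | h1 | h1
        · exact Or.inl h1
        · exact Or.inr (Or.inl h1)
        · exact Or.inr (Or.inr ⟨d, h1, hc_refl _ _ d⟩)
      have h2 : S.nx d = x ∨ S.nx d = y ∨ ∃ z, W z ∧ (S.glue x y hx hy).Hc T z (S.nx d) := by
        rcases hW _ hn hc' with h1 | h1 | h1
        · exact Or.inl h1
        · exact Or.inr (Or.inl h1)
        · exact Or.inr (Or.inr ⟨_, h1, hc_refl _ _ _⟩)
      exact ⟨⟨fun _ => h2, fun _ => h1⟩, fun h3 => absurd h1 h3⟩
    · rw [not_or] at hc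
      have hdx : d ≠ x := fun h1 => hc.1 (by rw [h1])
      have hdy : d ≠ y := fun h1 => hc.2 (by rw [h1])
      have hnx : S.nx d ≠ x := fun h1 => hc.1 (by rw [← h1]; exact hs.symm)
      have hny : S.nx d ≠ y := fun h1 => hc.2 (by rw [← h1]; exact hs.symm)
      have hB : d ∈ (S.glue x y hx hy).B := by
        rw [glue_B S hx hy hxy]
        exact ⟨hd, fun h4 => h4.elim hdx hdy⟩
      have hm : S.nx d ∈ (S.glue x y hx hy).hw d := by
        rw [hw_glue_other S hx hy hd hc.1 hc.2]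
        exact (S.mem_hw hd).mpr ⟨hn, hs⟩
      exact step d _ hdx hdy hnx hny (hc_hole hB hm)

private theorem glue_back {S : Part D} {T : Tri D} {x y : D} (hx : x ∈ S.B) (hy : y ∈ S.B)
    (hxy : x ≠ y)
    (hW : ∀ d ∈ (S.glue x y hx hy).B, (S.s.SameCycle x d ∨ S.s.SameCycle y d) →
      S.Hc T d ((S.glue x y hx hy).nx d))
    {d e : D} (hde : (S.glue x y hx hy).Hc T d e) : S.Hc T d e := by
  refine hc_ind (S := S.glue x y hx hy) (T := T) (fun d e => S.Hc T d e) (fun d => hc_refl S T d)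
    (fun d e => hc_symm) (fun d e k => hc_trans) ?_ ?_ ?_ hde
  · intro d hd
    exact hc_a ((mem_X hx hy hxy d).mp hd).1
  · intro d hd
    exact hc_f (S := S) hd
  · intro d hd
    by_cases hc : S.s.SameCycle x d ∨ S.s.SameCycle y d
    · exact hW d hd hc
    · rw [not_or] at hc
      have hd' : d ∈ S.B := by
        have h1 := hd
        rw [glue_B S hx hy hxy] at h1
        exact h1.1
      refine hc_hole hd' ?_
      rw [← hw_glue_other S hx hy hd' hc.1 hc.2]
      exact nx_hw hd (((S.glue x y hx hy).mem_hw hd).mpr ⟨hd, Equiv.Perm.SameCycle.refl _ d⟩)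

/-- Elements of a hole word are in the same hidden component. -/
private theorem hc_word {S : Part D} {T : Tri D} {z d e : D} (hz : z ∈ S.B) (hd : d ∈ S.hw z)
    (he : e ∈ S.hw z) : S.Hc T d e :=
  hc_trans (hc_symm (hc_hole hz hd)) (hc_hole hz he)

theorem hc_glue_merge {S : Part D} {T : Tri D} (h : S.Le T) {x y : D} (hx : x ∈ S.B) (hy : y ∈ S.B)
    (hT : T.a x = y) (hne : ¬ S.s.SameCycle x y) {d e : D} (hd : d ∈ (S.glue x y hx hy).X)
    (he : e ∈ (S.glue x y hx hy).X) : (S.glue x y hx hy).Hc T d e ↔ S.Hc T d e := by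
  have hxy : x ≠ y := fun h1 => hne (by rw [h1])
  obtain ⟨u, hu⟩ := S.hw_cons hx
  obtain ⟨v, hv⟩ := S.hw_cons hy
  have hux : ∀ z ∈ u, S.Hc T x z := fun z hz => hc_hole hx (by rw [hu]; exact List.mem_cons_of_mem _ hz)
  have hvy : ∀ z ∈ v, S.Hc T y z := fun z hz => hc_hole hy (by rw [hv]; exact List.mem_cons_of_mem _ hz)
  have hxyc : S.Hc T x y := by
    have h1 : S.Hc T x (T.a x) := hc_a (Or.inr hx)
    rw [hT] at h1
    exact h1
  have huv : ∀ z ∈ u ++ v, S.Hc T x z := by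
    intro z hz
    rcases List.mem_append.mp hz with h1 | h1
    · exact hux z h1
    · exact hc_trans hxyc (hvy z h1)
  have hW : ∀ z ∈ S.B, (S.s.SameCycle x z ∨ S.s.SameCycle y z) → z = x ∨ z = y ∨ z ∈ u ++ v := by
    rintro z hz (h1 | h1)
    · have h2 : z ∈ S.hw x := (S.mem_hw hx).mpr ⟨hz, h1⟩
      rw [hu] at h2
      rcases List.mem_cons.mp h2 with h3 | h3
      · exact Or.inl h3
      · exact Or.inr (Or.inr (List.mem_append.mpr (Or.inl h3)))
    · have h2 : z ∈ S.hw y := (S.mem_hw hy).mpr ⟨hz, h1⟩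
      rw [hv] at h2
      rcases List.mem_cons.mp h2 with h3 | h3
      · exact Or.inr (Or.inl h3)
      · exact Or.inr (Or.inr (List.mem_append.mpr (Or.inr h3)))
  -- the merged hole
  have hM : ∀ z ∈ u ++ v, ∃ c, c ∈ (S.glue x y hx hy).B ∧ (S.glue x y hx hy).hw c = u ++ v := by
    intro z hz
    rcases hq : u ++ v with _ | ⟨c, w⟩
    · rw [hq] at hz
      exact absurd hz List.not_mem_nil
    · have h1 := hw_glue_merge S hx hy hu hv hne hq
      refine ⟨c, ?_, by rw [h1, hq]⟩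
      have hcm : c ∈ u ++ v := by rw [hq]; exact List.mem_cons_self
      rw [glue_B S hx hy hxy]
      have hnu := S.hw_nodup hx
      rw [hu] at hnu
      have hnv := S.hw_nodup hy
      rw [hv] at hnv
      rcases List.mem_append.mp hcm with h2 | h2
      · have h3 : c ∈ S.hw x := by rw [hu]; exact List.mem_cons_of_mem _ h2
        have h4 := (S.mem_hw hx).mp h3
        refine ⟨h4.1, fun h5 => h5.elim (fun h6 => ?_) (fun h6 => ?_)⟩
        · rw [h6] at h2
          exact (List.nodup_cons.mp hnu).1 h2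
        · exact hne ((show c = y from h6) ▸ h4.2)
      · have h3 : c ∈ S.hw y := by rw [hv]; exact List.mem_cons_of_mem _ h2
        have h4 := (S.mem_hw hy).mp h3
        refine ⟨h4.1, fun h5 => h5.elim (fun h6 => ?_) (fun h6 => ?_)⟩
        · exact hne (((show c = x from h6) ▸ h4.2).symm)
        · rw [show c = y from h6] at h2
          exact (List.nodup_cons.mp hnv).1 h2
  constructor
  · intro hde
    refine glue_back hx hy hxy ?_ hde
    intro k hk hc
    have hk' : k ∈ S.B ∧ k ≠ x ∧ k ≠ y := by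
      have h1 := hk
      rw [glue_B S hx hy hxy] at h1
      exact ⟨h1.1, fun h2 => h1.2 (Or.inl h2), fun h2 => h1.2 (Or.inr h2)⟩
    have hm : k ∈ u ++ v := by
      rcases hW k hk'.1 hc with h1 | h1 | h1
      · exact absurd h1 hk'.2.1
      · exact absurd h1 hk'.2.2
      · exact h1
    obtain ⟨c, hc1, hc2⟩ := hM k hm
    have hm' : (S.glue x y hx hy).nx k ∈ u ++ v := by
      rw [← hc2]
      refine nx_hw hc1 ?_
      rw [hc2]
      exact hm
    exact hc_trans (hc_symm (huv k hm)) (huv _ hm')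
  · intro hde
    obtain ⟨h1, h2⟩ := glue_cl h hx hy hT hxy (fun z => z ∈ u ++ v) hW hde
    have hd' := (mem_X hx hy hxy d).mp hd
    have he' := (mem_X hx hy hxy e).mp he
    by_cases hcl : d = x ∨ d = y ∨ ∃ z, z ∈ u ++ v ∧ (S.glue x y hx hy).Hc T z d
    · have hcl' := h1.mp hcl
      rcases hcl with h3 | h3 | ⟨z, h3, h4⟩
      · exact absurd h3 hd'.2.1
      · exact absurd h3 hd'.2.2
      · rcases hcl' with h5 | h5 | ⟨z', h5, h6⟩
        · exact absurd h5 he'.2.1
        · exact absurd h5 he'.2.2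
        · obtain ⟨c, hc1, hc2⟩ := hM z h3
          have h7 : (S.glue x y hx hy).Hc T z z' :=
            hc_word hc1 (by rw [hc2]; exact h3) (by rw [hc2]; exact h5)
          exact hc_trans (hc_symm h4) (hc_trans h7 h6)
    · exact h2 hcl

theorem hc_glue_split {S : Part D} {T : Tri D} (h : S.Le T) {x y : D} (hx : x ∈ S.B) (hy : y ∈ S.B)
    (hT : T.a x = y) {u v : List D} (hw : S.hw x = x :: (u ++ y :: v)) {d e : D}
    (hd : d ∈ (S.glue x y hx hy).X) (he : e ∈ (S.glue x y hx hy).X) :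
    S.Hc T d e ↔ (S.glue x y hx hy).Hc T d e ∨
      ((∃ z ∈ u, (S.glue x y hx hy).Hc T z d) ∧ ∃ z ∈ v, (S.glue x y hx hy).Hc T z e) ∨
      ((∃ z ∈ v, (S.glue x y hx hy).Hc T z d) ∧ ∃ z ∈ u, (S.glue x y hx hy).Hc T z e) := by
  have hn := S.hw_nodup hx
  rw [hw] at hn
  have hn1 := List.nodup_cons.mp hn
  have hn2 := List.nodup_append.mp hn1.2
  have hn3 := List.nodup_cons.mp hn2.2.1
  have hxy : x ≠ y := fun h1 => hn1.1 (List.mem_append.mpr (Or.inr (List.mem_cons.mpr (Or.inl h1))))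
  have hmem : ∀ z ∈ u ++ v, z ∈ S.hw x := by
    intro z hz
    rw [hw]
    rcases List.mem_append.mp hz with h1 | h1
    · exact List.mem_cons_of_mem _ (List.mem_append.mpr (Or.inl h1))
    · exact List.mem_cons_of_mem _ (List.mem_append.mpr (Or.inr (List.mem_cons_of_mem _ h1)))
  have huv : ∀ z ∈ u ++ v, S.Hc T x z := fun z hz => hc_hole hx (hmem z hz)
  have hyc : S.s.SameCycle x y := by
    have h1 : y ∈ S.hw x := by
      rw [hw]
      exact List.mem_cons_of_mem _ (List.mem_append.mpr (Or.inr List.mem_cons_self))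
    exact ((S.mem_hw hx).mp h1).2
  have hW : ∀ z ∈ S.B, (S.s.SameCycle x z ∨ S.s.SameCycle y z) → z = x ∨ z = y ∨ z ∈ u ++ v := by
    intro z hz h0
    have h1 : S.s.SameCycle x z := h0.elim id fun h1 => hyc.trans h1
    have h2 : z ∈ S.hw x := (S.mem_hw hx).mpr ⟨hz, h1⟩
    rw [hw] at h2
    rcases List.mem_cons.mp h2 with h3 | h3
    · exact Or.inl h3
    · rcases List.mem_append.mp h3 with h4 | h4
      · exact Or.inr (Or.inr (List.mem_append.mpr (Or.inl h4)))
      · rcases List.mem_cons.mp h4 with h5 | h5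
        · exact Or.inr (Or.inl h5)
        · exact Or.inr (Or.inr (List.mem_append.mpr (Or.inr h5)))
  have hB' : ∀ z ∈ u ++ v, z ∈ (S.glue x y hx hy).B := by
    intro z hz
    rw [glue_B S hx hy hxy]
    refine ⟨((S.mem_hw hx).mp (hmem z hz)).1, fun h5 => h5.elim (fun h6 => ?_) (fun h6 => ?_)⟩
    · have h7 : z = x := h6
      rw [h7] at hz
      apply hn1.1
      rcases List.mem_append.mp hz with h1 | h1
      · exact List.mem_append.mpr (Or.inl h1)
      · exact List.mem_append.mpr (Or.inr (List.mem_cons_of_mem _ h1))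
    · have h7 : z = y := h6
      rw [h7] at hz
      rcases List.mem_append.mp hz with h1 | h1
      · exact hn2.2.2 y h1 y List.mem_cons_self rfl
      · exact hn3.1 h1
  -- the two new holes
  have hU : ∀ z ∈ u, ∃ c, c ∈ (S.glue x y hx hy).B ∧ (S.glue x y hx hy).hw c = u := by
    intro z hz
    rcases hq : u with _ | ⟨c, w⟩
    · rw [hq] at hz
      exact absurd hz List.not_mem_nil
    · have h1 := hw_glue_split_left S hx hy hw hq
      refine ⟨c, hB' c ?_, by rw [h1, hq]⟩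
      rw [hq]
      exact List.mem_append.mpr (Or.inl List.mem_cons_self)
  have hV : ∀ z ∈ v, ∃ c, c ∈ (S.glue x y hx hy).B ∧ (S.glue x y hx hy).hw c = v := by
    intro z hz
    rcases hq : v with _ | ⟨c, w⟩
    · rw [hq] at hz
      exact absurd hz List.not_mem_nil
    · have h1 := hw_glue_split_right S hx hy hw hq
      refine ⟨c, hB' c ?_, by rw [h1, hq]⟩
      rw [hq]
      exact List.mem_append.mpr (Or.inr List.mem_cons_self)
  have back : ∀ d e, (S.glue x y hx hy).Hc T d e → S.Hc T d e := by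
    intro d e hde
    refine glue_back hx hy hxy ?_ hde
    intro k hk hc
    have hk' : k ∈ S.B ∧ k ≠ x ∧ k ≠ y := by
      have h1 := hk
      rw [glue_B S hx hy hxy] at h1
      exact ⟨h1.1, fun h2 => h1.2 (Or.inl h2), fun h2 => h1.2 (Or.inr h2)⟩
    have hm : k ∈ u ++ v := by
      rcases hW k hk'.1 hc with h1 | h1 | h1
      · exact absurd h1 hk'.2.1
      · exact absurd h1 hk'.2.2
      · exact h1
    have hm' : (S.glue x y hx hy).nx k ∈ u ++ v := by
      rcases List.mem_append.mp hm with h1 | h1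
      · obtain ⟨c, hc1, hc2⟩ := hU k h1
        refine List.mem_append.mpr (Or.inl ?_)
        rw [← hc2]
        refine nx_hw hc1 ?_
        rw [hc2]
        exact h1
      · obtain ⟨c, hc1, hc2⟩ := hV k h1
        refine List.mem_append.mpr (Or.inr ?_)
        rw [← hc2]
        refine nx_hw hc1 ?_
        rw [hc2]
        exact h1
    exact hc_trans (hc_symm (huv k hm)) (huv _ hm')
  constructor
  · intro hde
    obtain ⟨h1, h2⟩ := glue_cl h hx hy hT hxy (fun z => z ∈ u ++ v) hW hde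
    have hd' := (mem_X hx hy hxy d).mp hd
    have he' := (mem_X hx hy hxy e).mp he
    by_cases hcl : d = x ∨ d = y ∨ ∃ z, z ∈ u ++ v ∧ (S.glue x y hx hy).Hc T z d
    · have hcl' := h1.mp hcl
      rcases hcl with h3 | h3 | ⟨z, h3, h4⟩
      · exact absurd h3 hd'.2.1
      · exact absurd h3 hd'.2.2
      · rcases hcl' with h5 | h5 | ⟨z', h5, h6⟩
        · exact absurd h5 he'.2.1
        · exact absurd h5 he'.2.2
        · rcases List.mem_append.mp h3 with h7 | h7
          · rcases List.mem_append.mp h5 with h8 | h8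
            · obtain ⟨c, hc1, hc2⟩ := hU z h7
              have h9 : (S.glue x y hx hy).Hc T z z' :=
                hc_word hc1 (by rw [hc2]; exact h7) (by rw [hc2]; exact h8)
              exact Or.inl (hc_trans (hc_symm h4) (hc_trans h9 h6))
            · exact Or.inr (Or.inl ⟨⟨z, h7, h4⟩, ⟨z', h8, h6⟩⟩)
          · rcases List.mem_append.mp h5 with h8 | h8
            · exact Or.inr (Or.inr ⟨⟨z, h7, h4⟩, ⟨z', h8, h6⟩⟩)
            · obtain ⟨c, hc1, hc2⟩ := hV z h7
              have h9 : (S.glue x y hx hy).Hc T z z' :=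
                hc_word hc1 (by rw [hc2]; exact h7) (by rw [hc2]; exact h8)
              exact Or.inl (hc_trans (hc_symm h4) (hc_trans h9 h6))
    · exact Or.inl (h2 hcl)
  · rintro (h1 | ⟨⟨z, hz, h1⟩, ⟨z', hz', h2⟩⟩ | ⟨⟨z, hz, h1⟩, ⟨z', hz', h2⟩⟩)
    · exact back _ _ h1
    · have h3 := huv z (List.mem_append.mpr (Or.inl hz))
      have h4 := huv z' (List.mem_append.mpr (Or.inr hz'))
      exact hc_trans (hc_symm (back _ _ h1)) (hc_trans (hc_symm h3) (hc_trans h4 (back _ _ h2)))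
    · have h3 := huv z (List.mem_append.mpr (Or.inr hz))
      have h4 := huv z' (List.mem_append.mpr (Or.inl hz'))
      exact hc_trans (hc_symm (back _ _ h1)) (hc_trans (hc_symm h3) (hc_trans h4 (back _ _ h2)))

end Part
end SYS
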