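import Pool.Agent.SYS.Lib.Alt
import Pool.Agent.SYS.Lib.Cyl
import Pool.Agent.SYS.Lib.HidD

/-!
# SYS-Lib-Evt: numbers of triangulations with a given non-planar event at the gate

PLAN.
* `ns_card`: given `q1, q2 ≥ 1` with `q1 + q2 + 2 = p` the darts `u, y, v` are determined by `S.hw x`; `T ∈ S.Ext g ∧ T.a x = y ↔ T ∈ (S.glue x y).Ext g` (`glue_le`, `glue_sub`); `typ_ns` and `typ_card`; `HConn (glue)` implies `HConn S` (`hc_glue_split` ←).
* `mrg_card`: `typ_mrg` (and `typ_perm`) and `typ_card`, `hc_glue_merge` (`u ++ v ≠ []` because `p + q > 2`): `HConn (glue) ↔ HConn S` (in the merged case every dart of `X'` ... and `x, y` are related to the merged hole in `S`).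
* `fil2_card`: the pairs: `S'` = a filling of `l1` (number: `fill_card`: `(3(F1+F2)).descFactorial (3F1) * mu P1 F1 V1`), `S'.Typ l2 P2 F2 κ` (`typ_fill`), then `typ_card`: `(3F2)! muG P2 F2 h2`; `S'` is unique for given `T` (`fil_unique`); `A.mu_eq` for `mu P1 F1 V1 = muG P1 F1 h1`.
  `g = h2 + κ` with `κ' + h1 = κ + 1`.
-/

namespace SYS
namespace Part

open Classical SST

private theorem evt_X {D : Type} {S : Part D} {x y : D} (hx : x ∈ S.B) (hy : y ∈ S.B) (hxy : x ≠ y) (d : D) :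
    d ∈ (S.glue x y hx hy).X ↔ d ∈ S.X ∧ d ≠ x ∧ d ≠ y := by
  have e : (S.glue x y hx hy).B = S.B \ {x, y} := glue_B S hx hy hxy
  constructor
  · intro h
    have h' : d ∉ S.R ∨ d ∈ (S.glue x y hx hy).B := h
    rw [e] at h'
    rcases h' with h1 | h1
    · exact ⟨Or.inl h1, fun h2 => h1 (h2 ▸ S.B_sub_R hx), fun h2 => h1 (h2 ▸ S.B_sub_R hy)⟩
    · exact ⟨Or.inr h1.1, fun h2 => h1.2 (Or.inl h2), fun h2 => h1.2 (Or.inr h2)⟩
  · rintro ⟨h1 | h1, h2, h3⟩
    · exact Or.inl h1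
    · refine Or.inr ?_
      rw [e]
      exact ⟨h1, fun h4 => h4.elim h2 h3⟩

private theorem evt_a {D : Type} {S : Part D} {T : Tri D} {x y : D} (hx : x ∈ S.B) (hy : y ∈ S.B) (hxy : x ≠ y)
    (h : (S.glue x y hx hy).Le T) : T.a x = y := by
  have h1 : (S.glue x y hx hy).a x = y := by
    show (S.a * Equiv.swap x y) x = y
    rw [Equiv.Perm.mul_apply, Equiv.swap_apply_left]
    exact hy.2
  have h2 := h.2 x (by rw [h1]; exact hxy.symm)
  rw [h2, h1]

private theorem evt_back {D : Type} [Finite D] {S : Part D} {T : Tri D} {x y z : D} (hx : x ∈ S.B) (hy : y ∈ S.B)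
    (hxy : x ≠ y) (hT : T.a x = y) (hzx : S.Hc T x z)
    (hi : ∀ d ∈ (S.glue x y hx hy).X, S.Hc T d z) : S.HConn T := by
  have key : ∀ d ∈ S.X, S.Hc T d z := by
    intro d hd
    by_cases h1 : d = x
    · rw [h1]
      exact hzx
    · by_cases h2 : d = y
      · rw [h2, ← hT]
        exact hc_trans (hc_symm (hc_a (Or.inr hx))) hzx
      · exact hi d ((evt_X hx hy hxy d).2 ⟨hd, h1, h2⟩)
  exact fun d hd e he => hc_trans (key d hd) (hc_symm (key e he))

private theorem evt_eq {D : Type} [Finite D] {S : Part D} {T : Tri D} {x y y' : D} (hx : x ∈ S.B) (hy : y ∈ S.B)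
    (hy' : y' ∈ S.B) (e : y' = y) (h : (S.glue x y' hx hy').HConn T) : (S.glue x y hx hy).HConn T := by
  subst e
  exact h

private theorem evt_cnt {A B : Type} [Finite A] [Finite B] (P : A → Prop) (Q : A → B → Prop) (c : ℝ)
    (hu : ∀ b a a', P a → P a' → Q a b → Q a' b → a = a')
    (hc : ∀ a, P a → (({b | Q a b}.ncard : ℕ) : ℝ) = c) :
    (({b | ∃ a, P a ∧ Q a b}.ncard : ℕ) : ℝ) = (({a | P a}.ncard : ℕ) : ℝ) * c := by
  have hfA := Fintype.ofFinite {a // P a}
  have e1 : Nat.card (Σ a : {a // P a}, {b // Q a.1 b}) = {b | ∃ a, P a ∧ Q a b}.ncard := by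
    rw [← Nat.card_coe_set_eq]
    refine Nat.card_congr (Equiv.ofBijective
      (fun z : (Σ a : {a // P a}, {b // Q a.1 b}) => (⟨z.2.1, z.1.1, z.1.2, z.2.2⟩ : {b | ∃ a, P a ∧ Q a b})) ⟨?_, ?_⟩)
    · rintro ⟨⟨a, ha⟩, b, hb⟩ ⟨⟨a', ha'⟩, b', hb'⟩ h
      have h1 : b = b' := congrArg Subtype.val h
      subst h1
      have h2 := hu b a a' ha ha' hb hb'
      subst h2
      rfl
    · rintro ⟨b, a, ha, hb⟩
      exact ⟨⟨⟨a, ha⟩, b, hb⟩, rfl⟩
  have e2 : Nat.card {a // P a} = {a | P a}.ncard := Nat.card_coe_set_eq _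
  rw [← e1, Nat.card_sigma, ← e2]
  push_cast
  have e3 : ∀ a : {a // P a}, ((Nat.card {b // Q a.1 b} : ℕ) : ℝ) = c := by
    intro a
    have h1 : Nat.card {b // Q a.1 b} = {b | Q a.1 b}.ncard := Nat.card_coe_set_eq _
    rw [h1]
    exact hc a.1 a.2
  rw [Finset.sum_congr rfl (fun a _ => e3 a), Finset.sum_const, Finset.card_univ, nsmul_eq_mul,
    Nat.card_eq_fintype_card]

private theorem evt_kappa {D : Type} [Finite D] {S : Part D} {l1 l2 : List D} {P : List ℕ} {F κ : ℕ}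
    (hS : S.Typ (l1 ++ l2) P F κ) (h1 : l1 ≠ []) (hc : ∀ d ∈ l1, ∃ e ∈ l2, S.Cn d e) : 1 ≤ κ := by
  have e1 := gen12_nonneg S
  unfold gen12 at e1
  have e2 := inn_eq S
  have e3 := ncycOn_R S
  have e4 := hl_ncyc hS.hl
  have e5 := hl_card hS.hl
  rw [hS.per] at e5
  have e6 := hS.eul
  rw [List.length_append] at e4 e6
  have e7 : S.R.ncard + S.Rᶜ.ncard = Nat.card D := Set.ncard_add_ncard_compl _
  have e8 : S.ncomp ≤ l2.length + S.Rᶜ.ncard := by
    let f : Fin l2.length ⊕ (S.Rᶜ : Set D) → Quotient S.cnSetoid :=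
      Sum.elim (fun i => Quotient.mk _ (l2.get i)) (fun d => Quotient.mk _ d.1)
    have hf : Function.Surjective f := by
      intro q
      induction q using Quotient.inductionOn with
      | _ d =>
        by_cases hd : d ∈ S.R
        · obtain ⟨e, he, hde⟩ := hS.tc d hd
          obtain ⟨e', he', hee⟩ := hS.hl.2.2 e he
          have h2 : ∃ e'' ∈ l2, S.Cn d e'' := by
            rcases List.mem_append.1 he' with h3 | h3
            · obtain ⟨e'', h4, h5⟩ := hc e' h3
              exact ⟨e'', h4, cn_trans hde (cn_trans (cn_symm (cn_of_same hee)) h5)⟩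
            · exact ⟨e', h3, cn_trans hde (cn_symm (cn_of_same hee))⟩
          obtain ⟨e'', h4, h5⟩ := h2
          obtain ⟨i, hi⟩ := List.get_of_mem h4
          refine ⟨Sum.inl i, ?_⟩
          show Quotient.mk _ (l2.get i) = Quotient.mk _ d
          rw [hi]
          exact Quotient.sound (cn_symm h5)
        · exact ⟨Sum.inr ⟨d, hd⟩, rfl⟩
    have h2 := Nat.card_le_card_of_surjective f hf
    rw [Nat.card_sum, Nat.card_fin, Nat.card_coe_set_eq] at h2
    exact h2
  have e9 : 0 < l1.length := List.length_pos_of_ne_nil h1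
  omega

variable {n g h : ℕ} {S : Part (Fin (6 * n))} {x : Fin (6 * n)} {l : List (Fin (6 * n))} {p : ℕ} {P : List ℕ} {F κ : ℕ}

theorem ns_card (hS : S.Typ (x :: l) (p :: P) F κ) {q1 q2 : ℕ} (h1 : 0 < q1) (h2 : 0 < q2) (hp : q1 + q2 + 2 = p)
    (hg : g = h + 1 + κ) :
    (({T | T ∈ S.Ext g ∧ S.HConn T ∧ ∃ u v, S.NSt T x u v ∧ u.length = q1 ∧ v.length = q2}.ncard : ℕ) : ℝ) =
      ((3 * F).factorial : ℝ) * Num.muG ((q1 :: q2 :: P : List ℕ) : Multiset ℕ) F h := by
  have hx : x ∈ S.B := hS.hl.1 x List.mem_cons_self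
  have hper : S.per x = p := by
    have h3 := hS.per
    rw [List.map_cons] at h3
    exact (List.cons.inj h3).1
  have hlen := hw_length S hx
  obtain ⟨w, hw⟩ := hw_cons S hx
  rw [hw, List.length_cons, hper] at hlen
  obtain ⟨u, y, v, hwu, hu, hv⟩ : ∃ u y v, w = u ++ y :: v ∧ u.length = q1 ∧ v.length = q2 := by
    have h3 : (w.drop q1).length = q2 + 1 := by
      rw [List.length_drop]
      omega
    cases hd : w.drop q1 with
    | nil =>
      rw [hd, List.length_nil] at h3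
      omega
    | cons y v =>
      refine ⟨w.take q1, y, v, ?_, ?_, ?_⟩
      · rw [← hd, List.take_append_drop]
      · rw [List.length_take]
        omega
      · rw [hd, List.length_cons] at h3
        omega
  subst hwu
  have hy : y ∈ S.B := ((mem_hw S hx).1 (by rw [hw]; simp)).1
  have hnd := hw_nodup S hx
  rw [hw, List.nodup_cons] at hnd
  have hxy : x ≠ y := by
    intro e
    exact hnd.1 (by rw [e]; simp)
  obtain ⟨z, u', rfl⟩ : ∃ z u', u = z :: u' := by
    cases u with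
    | nil =>
      rw [List.length_nil] at hu
      omega
    | cons z u' => exact ⟨z, u', rfl⟩
  obtain ⟨z', v', rfl⟩ : ∃ z v', v = z :: v' := by
    cases v with
    | nil =>
      rw [List.length_nil] at hv
      omega
    | cons z v' => exact ⟨z, v', rfl⟩
  have hc := typ_card (h := h) (typ_ns hS hx hy hw)
  rw [← List.length_cons (a := z), ← List.length_cons (a := z'), hu, hv] at hc
  have hg' : g = h + (κ + 1) := by omega
  rw [← hg'] at hc
  have hset : {T | T ∈ S.Ext g ∧ S.HConn T ∧ ∃ u v, S.NSt T x u v ∧ u.length = q1 ∧ v.length = q2} =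
      {T | T ∈ (S.glue x y hx hy).Ext g ∧ (S.glue x y hx hy).HConn T} := by
    ext T
    constructor
    · rintro ⟨⟨hT1, hT2⟩, hcn, u0, v0, ⟨_, _, hw0, hx0, hy0, hc0⟩, hu0, hv0⟩
      rw [hw] at hw0
      have e1 := (List.cons.inj hw0).2
      obtain ⟨_, e2⟩ := List.append_inj e1 (hu.trans hu0.symm)
      have e3 : T.a x = y := (List.cons.inj e2).1.symm
      exact ⟨⟨hT1, glue_le S hx hy hT2 e3⟩, evt_eq hx hy hy0 e3 hc0⟩
    · rintro ⟨⟨hT1, hT2⟩, hcn⟩
      have e3 := evt_a hx hy hxy hT2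
      have hLe : S.Le T := sub_le (glue_sub S hx hy) hT2
      have hzw : z ∈ S.hw x := by
        rw [hw]
        simp
      have hzB := ((mem_hw S hx).1 hzw).1
      have hzx : z ≠ x := by
        intro e
        exact hnd.1 (by rw [← e]; simp)
      have hzy : z ≠ y := by
        intro e
        have h4 := hnd.2
        rw [e, List.nodup_append] at h4
        exact h4.2.2 y List.mem_cons_self y List.mem_cons_self rfl
      have hzX : z ∈ (S.glue x y hx hy).X := (evt_X hx hy hxy z).2 ⟨Or.inr hzB, hzx, hzy⟩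
      refine ⟨⟨hT1, hLe⟩, ?_, z :: u', z' :: v', ⟨by simp, by simp, ?_, hx, ?_, ?_⟩, hu, hv⟩
      · refine evt_back hx hy hxy e3 (hc_hole hx hzw) ?_
        intro d hd
        exact (hc_glue_split hLe hx hy e3 hw hd hzX).2 (Or.inl (hcn d hd z hzX))
      · rw [e3]
        exact hw
      · rw [e3]
        exact hy
      · exact evt_eq hx _ hy e3.symm hcn
  rw [hset]
  exact hc

theorem mrg_card {y : Fin (6 * n)} {q : ℕ} (hS : S.Typ (x :: y :: l) (p :: q :: P) F κ) (hpq : 2 < p + q) (hg : g = h + κ) :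
    (({T | T ∈ S.Ext g ∧ S.HConn T ∧ T.a x = y}.ncard : ℕ) : ℝ) =
      ((3 * F).factorial : ℝ) * Num.muG (((p + q - 2) :: P : List ℕ) : Multiset ℕ) F h := by
  have hx : x ∈ S.B := hS.hl.1 x List.mem_cons_self
  have hy : y ∈ S.B := hS.hl.1 y (List.mem_cons_of_mem _ List.mem_cons_self)
  have hper := hS.per
  rw [List.map_cons, List.map_cons] at hper
  have hpx : S.per x = p := (List.cons.inj hper).1
  have hpy : S.per y = q := (List.cons.inj (List.cons.inj hper).2).1
  have hne : ¬ S.s.SameCycle x y := by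
    have h3 := hS.hl.2.1
    rw [List.pairwise_cons] at h3
    exact h3.1 y List.mem_cons_self
  have hxy : x ≠ y := by
    intro e
    exact hne (by rw [e])
  have hlx := hw_length S hx
  have hly := hw_length S hy
  obtain ⟨u, hu⟩ := hw_cons S hx
  obtain ⟨v, hv⟩ := hw_cons S hy
  rw [hu, List.length_cons, hpx] at hlx
  rw [hv, List.length_cons, hpy] at hly
  have hlen : (u ++ v).length = p + q - 2 := by
    rw [List.length_append]
    omega
  obtain ⟨z, w, huv⟩ : ∃ z w, u ++ v = z :: w := by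
    cases h3 : u ++ v with
    | nil =>
      rw [h3, List.length_nil] at hlen
      omega
    | cons z w => exact ⟨z, w, rfl⟩
  have hc := typ_card (h := h) (typ_mrg hS hx hy hu hv huv)
  rw [← List.length_cons (a := z), ← huv, hlen, ← hg] at hc
  have hset : {T | T ∈ S.Ext g ∧ S.HConn T ∧ T.a x = y} =
      {T | T ∈ (S.glue x y hx hy).Ext g ∧ (S.glue x y hx hy).HConn T} := by
    ext T
    constructor
    · rintro ⟨⟨hT1, hT2⟩, hcn, e3⟩
      refine ⟨⟨hT1, glue_le S hx hy hT2 e3⟩, ?_⟩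
      intro d hd e he
      exact (hc_glue_merge hT2 hx hy e3 hne hd he).2
        (hcn d ((evt_X hx hy hxy d).1 hd).1 e ((evt_X hx hy hxy e).1 he).1)
    · rintro ⟨⟨hT1, hT2⟩, hcn⟩
      have e3 := evt_a hx hy hxy hT2
      have hLe : S.Le T := sub_le (glue_sub S hx hy) hT2
      have hzm : z ∈ u ++ v := by
        rw [huv]
        exact List.mem_cons_self
      have hz : z ∈ S.B ∧ z ≠ x ∧ z ≠ y ∧ S.Hc T x z := by
        rcases List.mem_append.1 hzm with h3 | h3
        · have hzw : z ∈ S.hw x := by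
            rw [hu]
            exact List.mem_cons_of_mem _ h3
          have h4 := (mem_hw S hx).1 hzw
          have h5 := hw_nodup S hx
          rw [hu, List.nodup_cons] at h5
          exact ⟨h4.1, fun e => h5.1 (e ▸ h3), fun e => hne (e ▸ h4.2), hc_hole hx hzw⟩
        · have hzw : z ∈ S.hw y := by
            rw [hv]
            exact List.mem_cons_of_mem _ h3
          have h4 := (mem_hw S hy).1 hzw
          have h5 := hw_nodup S hy
          rw [hv, List.nodup_cons] at h5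
          refine ⟨h4.1, fun e => hne (e ▸ h4.2.symm), fun e => h5.1 (e ▸ h3), ?_⟩
          refine hc_trans ?_ (hc_hole hy hzw)
          rw [← e3]
          exact hc_a (Or.inr hx)
      have hzX : z ∈ (S.glue x y hx hy).X := (evt_X hx hy hxy z).2 ⟨Or.inr hz.1, hz.2.1, hz.2.2.1⟩
      refine ⟨⟨hT1, hLe⟩, ?_, e3⟩
      refine evt_back hx hy hxy e3 hz.2.2.2 ?_
      intro d hd
      exact (hc_glue_merge hLe hx hy e3 hne hd hzX).1 (hcn d hd z hzX)
  rw [hset]
  exact hc

/-- Number of `T` for which the hidden part consists of two components: holes `l1`, `F1` triangles, genus `h1`, and holes `l2`, `F2` triangles, genus `h2`. -/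
theorem fil2_card {l1 l2 : List (Fin (6 * n))} {P1 P2 : List ℕ} {F1 F2 V1 g1 g2 κ' : ℕ} (hS : S.Typ (l1 ++ l2) (P1 ++ P2) (F1 + F2) κ')
    (hl : l1.length = P1.length) (h1 : l1 ≠ []) (h2 : l2 ≠ [])
    (hV : 2 * V1 + 4 * g1 + 2 * P1.length = 4 + F1 + P1.sum) (hc : ∀ d ∈ l1, ∃ e ∈ l2, S.Cn d e) (hg : g + 1 = g1 + g2 + κ') :
    (({T | T ∈ S.Ext g ∧ ∃ S', S.FillBy S' {d | d ∈ S.B ∧ ∃ e ∈ l1, S.s.SameCycle e d} F1 V1 ∧ S'.Le T ∧ S'.HConn T}.ncard : ℕ) : ℝ) =
      ((3 * (F1 + F2)).factorial : ℝ) * Num.muG (P1 : Multiset ℕ) F1 g1 * Num.muG (P2 : Multiset ℕ) F2 g2 := by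
  have hk := evt_kappa hS h1 hc
  obtain ⟨κ, hκ⟩ : ∃ κ, κ' + g1 = κ + 1 := ⟨κ' + g1 - 1, by omega⟩
  have hgκ : g2 + κ = g := by omega
  have hHun : S.HUn {d | d ∈ S.B ∧ ∃ e ∈ l1, S.s.SameCycle e d} := by
    refine ⟨fun d hd => hd.1, ?_⟩
    rintro d ⟨_, e, he, hed⟩ e' he' hde
    exact ⟨he', e, he, hed.trans hde⟩
  have hne : ({d | d ∈ S.B ∧ ∃ e ∈ l1, S.s.SameCycle e d} : Set (Fin (6 * n))).Nonempty := by
    obtain ⟨e, he⟩ := List.exists_mem_of_ne_nil l1 h1
    exact ⟨e, hS.hl.1 e (List.mem_append_left _ he), e, he, Equiv.Perm.SameCycle.refl _ _⟩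
  -- the number of fillings
  have hfill : (({S' : Part (Fin (6 * n)) | S.FillBy S' {d | d ∈ S.B ∧ ∃ e ∈ l1, S.s.SameCycle e d} F1 V1}.ncard : ℕ) : ℝ) =
      (((3 * (F1 + F2)).descFactorial (3 * F1) : ℕ) : ℝ) * Num.muG (P1 : Multiset ℕ) F1 g1 := by
    have hpw : ∀ i j : Fin l1.length, S.s.SameCycle (l1.get i) (l1.get j) → i = j := by
      have h3 := (List.pairwise_append.1 hS.hl.2.1).1
      intro i j hij
      by_contra hcon
      rcases lt_or_gt_of_ne hcon with h4 | h4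
      · exact (List.pairwise_iff_get.1 h3 i j h4) hij
      · exact (List.pairwise_iff_get.1 h3 j i h4) hij.symm
    have h3 := fill_card S (fun i : Fin l1.length => l1.get i)
      (fun i => hS.hl.1 _ (List.mem_append_left _ (List.get_mem _ _))) hpw F1 V1
    have hH : {d | d ∈ S.B ∧ ∃ i : Fin l1.length, S.s.SameCycle (l1.get i) d} =
        {d | d ∈ S.B ∧ ∃ e ∈ l1, S.s.SameCycle e d} := by
      ext d
      constructor
      · rintro ⟨h4, i, h5⟩
        exact ⟨h4, _, List.get_mem _ _, h5⟩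
      · rintro ⟨h4, e, he, h5⟩
        obtain ⟨i, hi⟩ := List.get_of_mem he
        exact ⟨h4, i, by rw [hi]; exact h5⟩
    rw [hH] at h3
    have hR : S.Rᶜ.ncard = 3 * (F1 + F2) := by
      have h4 : S.R.ncard + S.Rᶜ.ncard = Nat.card (Fin (6 * n)) := Set.ncard_add_ncard_compl _
      have h5 := hS.vol
      omega
    have hι : Nonempty (Fin l1.length) := ⟨⟨0, List.length_pos_of_ne_nil h1⟩⟩
    have hP1 : (Finset.univ.val.map (fun i : Fin l1.length => S.per (l1.get i)) : Multiset ℕ) = (P1 : Multiset ℕ) := by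
      have h4 : l1.map S.per = P1 := by
        have h5 := hS.per
        rw [List.map_append] at h5
        exact (List.append_inj h5 (by rw [List.length_map, hl])).1
      rw [← h4, ← Multiset.map_coe, ← Function.comp_def, ← Multiset.map_map]
      congr 1
      rw [Fin.univ_val_map]
      simp
    rw [hR, A.mu_eq _ _ _ (Or.inl hι), hP1] at h3
    have hmu : Num.muG (P1 : Multiset ℕ) F1 g1 = (((A.muP (P1 : Multiset ℕ) F1).coeff V1 : ℚ) : ℝ) := by
      unfold Num.muG
      rw [Multiset.sum_coe, Multiset.coe_card, if_pos]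
      · have e : (4 + F1 + P1.sum - 4 * g1 - 2 * P1.length) / 2 = V1 := by omega
        rw [e]
      · refine ⟨?_, by omega⟩
        rw [Nat.even_iff]
        omega
    rw [hmu]
    exact_mod_cast congrArg (fun q : ℚ => (q : ℝ)) h3
  have hfib : ∀ S' : Part (Fin (6 * n)), S.FillBy S' {d | d ∈ S.B ∧ ∃ e ∈ l1, S.s.SameCycle e d} F1 V1 →
      (({T | T ∈ S'.Ext g ∧ S'.HConn T}.ncard : ℕ) : ℝ) = ((3 * F2).factorial : ℝ) * Num.muG (P2 : Multiset ℕ) F2 g2 := by
    intro S' hf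
    have h3 := typ_card (h := g2) (typ_fill hS hl h1 h2 hf hV hc hκ)
    rw [hgκ] at h3
    exact h3
  have hcnt := evt_cnt (fun S' : Part (Fin (6 * n)) => S.FillBy S' {d | d ∈ S.B ∧ ∃ e ∈ l1, S.s.SameCycle e d} F1 V1)
    (fun S' T => T ∈ S'.Ext g ∧ S'.HConn T) _ (fun T S' S'' hf hf' h3 h4 =>
      fil_unique hHun hne hf hf' ((le_iff_sub _ _).1 h3.1.2) ((le_iff_sub _ _).1 h4.1.2)) hfib
  have hset : {T | T ∈ S.Ext g ∧ ∃ S', S.FillBy S' {d | d ∈ S.B ∧ ∃ e ∈ l1, S.s.SameCycle e d} F1 V1 ∧ S'.Le T ∧ S'.HConn T} =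
      {T | ∃ S', S.FillBy S' {d | d ∈ S.B ∧ ∃ e ∈ l1, S.s.SameCycle e d} F1 V1 ∧ T ∈ S'.Ext g ∧ S'.HConn T} := by
    ext T
    constructor
    · rintro ⟨⟨hT, _⟩, S', hf, hL, hcn⟩
      exact ⟨S', hf, ⟨hT, hL⟩, hcn⟩
    · rintro ⟨S', hf, ⟨hT, hL⟩, hcn⟩
      exact ⟨⟨hT, sub_le hf.sub hL⟩, S', hf, hL, hcn⟩
  rw [hset, hcnt, hfill]
  have hfac := Nat.factorial_mul_descFactorial (show 3 * F1 ≤ 3 * (F1 + F2) by omega)
  have hsub : 3 * (F1 + F2) - 3 * F1 = 3 * F2 := by omega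
  rw [hsub] at hfac
  rw [← hfac]
  push_cast
  ring

end Part
end SYS
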