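import Pool.Agent.SYS.Lib.Part

/-!
# SYS-Lib-GenA: components and genus of a partial triangulation (`gen12 = 12 * genus`), gluings

`Cn S d e`: `d`, `e` are in the same component (generated by `a`, `f`).  `gen12 = 12 #comp - 6 #cyc - 3 |B| + 7 |R| - 6 |D|`
(the unrevealed darts are components and cycles of their own, this explains `7`, `- 6 |D|`).

PLAN.
* `cn_glue`: the relation of `glue x y` is generated by the old one and the pair `(x, y)` (`S.a` fixes `x` and `y`;
  `(glue).a x = y`, `(glue).a y = x`, otherwise equal to `S.a`).  Both directions by `EqvGen` induction (the right side is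
  reflexive, symmetric, transitive).
* `ncomp_glue_*`: the quotient map identifies the classes of `x` and `y` only (copy the argument of
  `SST.ncyc_swap_diff` for quotients: surjection injective off the class of `x`).
* `cn_of_same`: `s = f a` (finite: natural powers).
* `cn_mem_R`: `a` and `f` preserve `R` (`mem_R_a`, `mem_R_f`).
* `gen12_glue_*`: `ncyc` by `SST.ncyc_swap_same / _diff` with `glue_s`; `|B|` drops by `2` (`glue_B`, `x ≠ y`), `R` unchanged.
* `con_glue`: every old relation is kept (`cn_glue`).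
-/

namespace SYS
namespace Part

open Classical SST

variable {D : Type}

/-- `d` and `e` are in the same component. -/
def Cn (S : Part D) (d e : D) : Prop := Relation.EqvGen (fun d e => e = S.a d ∨ e = S.f d) d e

/-- The components as a setoid. -/
def cnSetoid (S : Part D) : Setoid D := Relation.EqvGen.setoid (fun d e => e = S.a d ∨ e = S.f d)

/-- Number of components (the unrevealed darts are counted as components). -/
noncomputable def ncomp (S : Part D) : ℕ := Nat.card (Quotient S.cnSetoid)

/-- Twelve times the sum of the genera of the components. -/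
noncomputable def gen12 (S : Part D) : ℤ :=
  12 * S.ncomp - 6 * ncyc S.s - 3 * S.B.ncard + 7 * S.R.ncard - 6 * Nat.card D

/-- `S` is connected. -/
def Con (S : Part D) : Prop := ∀ d ∈ S.R, ∀ e ∈ S.R, S.Cn d e

theorem cn_refl (S : Part D) (d : D) : S.Cn d d := Relation.EqvGen.refl d

theorem cn_symm {S : Part D} {d e : D} (h : S.Cn d e) : S.Cn e d := Relation.EqvGen.symm _ _ h

theorem cn_trans {S : Part D} {d e k : D} (h : S.Cn d e) (h' : S.Cn e k) : S.Cn d k :=
  Relation.EqvGen.trans _ _ _ h h'

theorem cn_a (S : Part D) (d : D) : S.Cn d (S.a d) := Relation.EqvGen.rel _ _ (Or.inl rfl)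

theorem cn_f (S : Part D) (d : D) : S.Cn d (S.f d) := Relation.EqvGen.rel _ _ (Or.inr rfl)

private theorem GenA_ind {S : Part D} (P : D → D → Prop) (hr : ∀ d, P d d)
    (hs : ∀ d e, P d e → P e d) (ht : ∀ d e k, P d e → P e k → P d k)
    (ha : ∀ d, P d (S.a d)) (hf : ∀ d, P d (S.f d)) {d e : D} (h : S.Cn d e) : P d e := by
  unfold Cn at h
  induction h with
  | rel u v huv =>
    rcases huv with huv | huv
    · rw [huv]; exact ha u
    · rw [huv]; exact hf u
  | refl u => exact hr u
  | symm u v _ ih => exact hs _ _ ih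
  | trans u v w _ _ ih1 ih2 => exact ht _ _ _ ih1 ih2

theorem cn_of_same [Finite D] {S : Part D} {d e : D} (h : S.s.SameCycle d e) : S.Cn d e := by
  obtain ⟨n, -, hn⟩ := h.exists_pow_eq'
  have key : ∀ n : ℕ, S.Cn d ((S.s ^ n) d) := by
    intro n
    induction n with
    | zero => exact cn_refl S d
    | succ n ih =>
      have e1 : (S.s ^ (n + 1)) d = S.f (S.a ((S.s ^ n) d)) := by
        rw [pow_succ', Equiv.Perm.mul_apply]
        rfl
      rw [e1]
      exact cn_trans ih (cn_trans (cn_a S _) (cn_f S _))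
  rw [← hn]
  exact key n

theorem cn_mem_R {S : Part D} {d e : D} (h : S.Cn d e) : d ∈ S.R ↔ e ∈ S.R :=
  GenA_ind (S := S) (fun d e => d ∈ S.R ↔ e ∈ S.R) (fun _ => Iff.rfl) (fun _ _ h => h.symm)
    (fun _ _ _ h1 h2 => h1.trans h2) (fun d => (S.mem_R_a d).symm) (fun d => (S.mem_R_f d).symm) h

theorem cn_sub {S S' : Part D} (h : S.Sub S') {d e : D} (hd : d ∈ S.R) (h' : S.Cn d e) : S'.Cn d e := by
  have _ := hd
  refine GenA_ind (S := S) (fun d e => S'.Cn d e) (fun d => cn_refl S' d) (fun _ _ h => cn_symm h)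
    (fun _ _ _ h1 h2 => cn_trans h1 h2) (fun d => ?_) (fun d => ?_) h'
  · by_cases hd : S.a d = d
    · rw [hd]; exact cn_refl S' d
    · rw [← h.2 d hd]; exact cn_a S' d
  · by_cases hd : S.f d = d
    · rw [hd]; exact cn_refl S' d
    · rw [← h.1 d hd]; exact cn_f S' d

section
variable [Finite D] (S : Part D) {x y : D} (hx : x ∈ S.B) (hy : y ∈ S.B)

theorem cn_glue (d e : D) : (S.glue x y hx hy).Cn d e ↔
    S.Cn d e ∨ ((S.Cn d x ∨ S.Cn d y) ∧ (S.Cn e x ∨ S.Cn e y)) := by
  have ex : S.a x = x := hx.2
  have ey : S.a y = y := hy.2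
  have hax : (S.glue x y hx hy).a x = y := by
    show S.a (Equiv.swap x y x) = y
    rw [Equiv.swap_apply_left, ey]
  have hay : (S.glue x y hx hy).a y = x := by
    show S.a (Equiv.swap x y y) = x
    rw [Equiv.swap_apply_right, ex]
  have hao : ∀ u, u ≠ x → u ≠ y → (S.glue x y hx hy).a u = S.a u := by
    intro u h1 h2
    show S.a (Equiv.swap x y u) = S.a u
    rw [Equiv.swap_apply_of_ne_of_ne h1 h2]
  have hf : ∀ u, (S.glue x y hx hy).f u = S.f u := fun _ => rfl
  constructor
  · intro h
    refine GenA_ind (S := S.glue x y hx hy)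
      (fun d e => S.Cn d e ∨ ((S.Cn d x ∨ S.Cn d y) ∧ (S.Cn e x ∨ S.Cn e y)))
      (fun d => Or.inl (cn_refl S d)) ?_ ?_ ?_ ?_ h
    · rintro a b (h | ⟨h1, h2⟩)
      · exact Or.inl (cn_symm h)
      · exact Or.inr ⟨h2, h1⟩
    · rintro a b c (h1 | ⟨h1, h2⟩) (h3 | ⟨h3, h4⟩)
      · exact Or.inl (cn_trans h1 h3)
      · exact Or.inr ⟨h3.imp (fun t => cn_trans h1 t) (fun t => cn_trans h1 t), h4⟩
      · exact Or.inr ⟨h1, h2.imp (fun t => cn_trans (cn_symm h3) t)
          (fun t => cn_trans (cn_symm h3) t)⟩
      · exact Or.inr ⟨h1, h4⟩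
    · intro u
      by_cases h1 : u = x
      · rw [h1, hax]
        exact Or.inr ⟨Or.inl (cn_refl S x), Or.inr (cn_refl S y)⟩
      · by_cases h2 : u = y
        · rw [h2, hay]
          exact Or.inr ⟨Or.inr (cn_refl S y), Or.inl (cn_refl S x)⟩
        · rw [hao u h1 h2]
          exact Or.inl (cn_a S u)
    · intro u
      rw [hf]
      exact Or.inl (cn_f S u)
  · have hxy : (S.glue x y hx hy).Cn x y := by
      have := cn_a (S.glue x y hx hy) x
      rwa [hax] at this
    have hall : ∀ u v, S.Cn u v → (S.glue x y hx hy).Cn u v := by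
      intro u v huv
      refine GenA_ind (S := S) (fun u v => (S.glue x y hx hy).Cn u v)
        (fun d => cn_refl _ d) (fun _ _ h => cn_symm h)
        (fun _ _ _ h1 h2 => cn_trans h1 h2) (fun d => ?_) (fun d => ?_) huv
      · by_cases h1 : d = x
        · rw [h1, ex]; exact cn_refl _ x
        · by_cases h2 : d = y
          · rw [h2, ey]; exact cn_refl _ y
          · rw [← hao d h1 h2]; exact cn_a _ d
      · rw [← hf d]; exact cn_f _ d
    rintro (h | ⟨h1, h2⟩)
    · exact hall _ _ h
    · have hu : (S.glue x y hx hy).Cn d x := by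
        rcases h1 with h1 | h1
        · exact hall _ _ h1
        · exact cn_trans (hall _ _ h1) (cn_symm hxy)
      have hv : (S.glue x y hx hy).Cn e x := by
        rcases h2 with h2 | h2
        · exact hall _ _ h2
        · exact cn_trans (hall _ _ h2) (cn_symm hxy)
      exact cn_trans hu (cn_symm hv)

theorem ncomp_glue_same (h : S.Cn x y) : (S.glue x y hx hy).ncomp = S.ncomp := by
  have key : ∀ d e, (S.glue x y hx hy).Cn d e ↔ S.Cn d e := by
    intro d e
    rw [cn_glue]
    constructor
    · rintro (h1 | ⟨h1, h2⟩)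
      · exact h1
      · have h3 : S.Cn d x := by
          rcases h1 with h1 | h1
          · exact h1
          · exact cn_trans h1 (cn_symm h)
        have h4 : S.Cn e x := by
          rcases h2 with h2 | h2
          · exact h2
          · exact cn_trans h2 (cn_symm h)
        exact cn_trans h3 (cn_symm h4)
    · exact Or.inl
  have hs : (S.glue x y hx hy).cnSetoid = S.cnSetoid := by
    apply Setoid.ext
    intro d e
    exact key d e
  unfold ncomp
  rw [hs]

theorem ncomp_glue_diff (h : ¬ S.Cn x y) : (S.glue x y hx hy).ncomp + 1 = S.ncomp := by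
  have hiff := cn_glue S hx hy
  let f : Quotient S.cnSetoid → Quotient (S.glue x y hx hy).cnSetoid :=
    Quotient.map' id fun a b hab => (hiff a b).2 (Or.inl hab)
  have hf : ∀ a, f (Quotient.mk _ a) = Quotient.mk _ a := fun _ => rfl
  have hsur : Function.Surjective f := by
    intro q
    induction q using Quotient.inductionOn with
    | h a => exact ⟨Quotient.mk _ a, rfl⟩
  have hab : f (Quotient.mk _ x) = f (Quotient.mk _ y) := by
    rw [hf, hf]
    exact Quotient.sound ((hiff x y).2 (Or.inr ⟨Or.inl (cn_refl S x), Or.inr (cn_refl S y)⟩))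
  have hinj : ∀ c d, f c = f d → c = d ∨
      ((c = Quotient.mk _ x ∨ c = Quotient.mk _ y) ∧ (d = Quotient.mk _ x ∨ d = Quotient.mk _ y)) := by
    intro c d
    induction c using Quotient.inductionOn with
    | h a =>
      induction d using Quotient.inductionOn with
      | h b =>
        intro hcd
        rw [hf, hf] at hcd
        have h1 : (S.glue x y hx hy).Cn a b := Quotient.exact hcd
        rcases (hiff a b).1 h1 with h2 | ⟨h2, h3⟩
        · exact Or.inl (Quotient.sound h2)
        · refine Or.inr ⟨?_, ?_⟩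
          · rcases h2 with h2 | h2
            · exact Or.inl (Quotient.sound h2)
            · exact Or.inr (Quotient.sound h2)
          · rcases h3 with h3 | h3
            · exact Or.inl (Quotient.sound h3)
            · exact Or.inr (Quotient.sound h3)
  have hne : (Quotient.mk S.cnSetoid x) ≠ Quotient.mk _ y := fun he => h (Quotient.exact he)
  let a : Quotient S.cnSetoid := Quotient.mk _ x
  let g : {c : Quotient S.cnSetoid // c ≠ a} → Quotient (S.glue x y hx hy).cnSetoid :=
    fun c => f c.1
  have hg : Function.Bijective g := by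
    constructor
    · rintro ⟨c, hc⟩ ⟨d, hd⟩ hcd
      rcases hinj c d hcd with h1 | ⟨h1, h2⟩
      · exact Subtype.ext h1
      · have h3 := h1.resolve_left hc
        have h4 := h2.resolve_left hd
        exact Subtype.ext (h3.trans h4.symm)
    · intro t
      obtain ⟨c, hc⟩ := hsur t
      by_cases hca : c = a
      · refine ⟨⟨Quotient.mk _ y, hne.symm⟩, ?_⟩
        show f (Quotient.mk _ y) = t
        rw [← hab, ← hc, hca]
      · exact ⟨⟨c, hca⟩, hc⟩
  have h1 : Nat.card {c : Quotient S.cnSetoid // c ≠ a} = (S.glue x y hx hy).ncomp :=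
    Nat.card_eq_of_bijective g hg
  have h2 : S.ncomp = Nat.card (Option {c : Quotient S.cnSetoid // c ≠ a}) :=
    (Nat.card_congr (Equiv.optionSubtypeNe a)).symm
  have hfin : Finite (Quotient S.cnSetoid) := Quotient.finite _
  have hfin' : Finite {c : Quotient S.cnSetoid // c ≠ a} := inferInstance
  rw [h2, Finite.card_option, h1]

private theorem GenA_B (hxy : x ≠ y) :
    ((S.glue x y hx hy).B.ncard : ℤ) = (S.B.ncard : ℤ) - 2 := by
  have h1 : (S.glue x y hx hy).B = S.B \ {x, y} := glue_B S hx hy hxy
  have h2 : ({x, y} : Set D) ⊆ S.B := by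
    intro z hz
    rcases hz with hz | hz
    · rw [hz]; exact hx
    · rw [Set.mem_singleton_iff] at hz
      rw [hz]; exact hy
  have h3 : (S.B \ {x, y}).ncard + ({x, y} : Set D).ncard = S.B.ncard :=
    Set.ncard_sdiff_add_ncard_of_subset h2 (Set.toFinite _)
  rw [Set.ncard_pair hxy] at h3
  rw [h1]
  omega

theorem gen12_glue_merge (h : ¬ S.Cn x y) : (S.glue x y hx hy).gen12 = S.gen12 := by
  have hxy : x ≠ y := fun e => h (by rw [e]; exact cn_refl S y)
  have h' : ¬ S.s.SameCycle x y := fun e => h (cn_of_same e)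
  have h1 := ncomp_glue_diff S hx hy h
  have h2 : ncyc (S.glue x y hx hy).s + 1 = ncyc S.s := by
    rw [glue_s]; exact ncyc_swap_diff S.s h'
  have h3 := GenA_B S hx hy hxy
  have h4 : (S.glue x y hx hy).R = S.R := glue_R S hx hy
  unfold gen12
  rw [h3, h4, ← h1, ← h2]
  push_cast
  ring

theorem gen12_glue_handle (h : S.Cn x y) (h' : ¬ S.s.SameCycle x y) :
    (S.glue x y hx hy).gen12 = S.gen12 + 12 := by
  have hxy : x ≠ y := fun e => h' (by rw [e])
  have h1 := ncomp_glue_same S hx hy h
  have h2 : ncyc (S.glue x y hx hy).s + 1 = ncyc S.s := by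
    rw [glue_s]; exact ncyc_swap_diff S.s h'
  have h3 := GenA_B S hx hy hxy
  have h4 : (S.glue x y hx hy).R = S.R := glue_R S hx hy
  unfold gen12
  rw [h3, h4, h1, ← h2]
  push_cast
  ring

theorem gen12_glue_split (hxy : x ≠ y) (h : S.s.SameCycle x y) : (S.glue x y hx hy).gen12 = S.gen12 := by
  have h1 := ncomp_glue_same S hx hy (cn_of_same h)
  have h2 : ncyc (S.glue x y hx hy).s = ncyc S.s + 1 := by
    rw [glue_s]; exact ncyc_swap_same S.s hxy h
  have h3 := GenA_B S hx hy hxy
  have h4 : (S.glue x y hx hy).R = S.R := glue_R S hx hy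
  unfold gen12
  rw [h3, h4, h1, h2]
  push_cast
  ring

theorem con_glue (h : S.Con) : (S.glue x y hx hy).Con := by
  have h4 : (S.glue x y hx hy).R = S.R := glue_R S hx hy
  intro d hd e he
  rw [h4] at hd he
  exact (cn_glue S hx hy d e).2 (Or.inl (h d hd e he))

end

end Part
end SYS
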