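import Pool.Agent.SYS.Lib.ExplA

/-!
# SYS-Lib-ExplC: walks carried by a partial triangulation

PLAN.
* `vt_tl`: `Vt p q` implies `T.tl p = T.tl q` (`le_s`, `Tri.tl_s`) and `p ∈ R ↔ q ∈ R`; `Gauge`: `k p * (k q)⁻¹ ∈ H`
  (`EqvGen` induction; `p ∈ R` is needed only for `refl`, which gives `1`).
* `car_walk`: induction on `c`; `T.tl (T.f e) = T.hd e`, `T.hd (T.a e) = T.tl e`; `S.f e = T.f e` for `e ∈ R`.
* `gauge_car`: induction on `c`; an edge `e ∈ R`: `k p (k e)⁻¹ ∈ H`, `k e * l e * (k (S.f e))⁻¹ ∈ H`; an edge with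
  `d = T.a e ∈ R`: `l e = (l d)⁻¹` and the inverse of `k d * l d * (k (S.f d))⁻¹`.
* `Expl.nullHtp`: `exists_flat`, `Expl.gauge` with `c = 0`: the subgroup is trivial, so `hol l c = 1`; `Closed` by `car_walk`.
* `car_hw`: for consecutive elements `d, e = nx d` of the hole word: `Edge d d (S.f d)` and `Vt (S.f d) e` (the `s`-path
  from `S.s d = S.f d` to `e` runs through darts which are not in `B`).
-/

namespace SYS
namespace Part

open Classical SST

variable {D : Type} [Finite D]

/-! ## Walks carried by `S` -/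

/-- The corners `d` and `e` are at the same vertex of the surface `S`. -/
def Vt (S : Part D) (d e : D) : Prop :=
  Relation.EqvGen (fun d e => d ∈ S.R ∧ d ∉ S.B ∧ e = S.s d) d e

/-- The dart `e` of `T` leads in `S` from the vertex of the corner `p` to the vertex of the corner `q`. -/
def Edge (S : Part D) (T : Tri D) (e p q : D) : Prop :=
  (e ∈ S.R ∧ S.Vt p e ∧ S.Vt (S.f e) q) ∨ (T.a e ∈ S.R ∧ S.Vt p (S.f (T.a e)) ∧ S.Vt (T.a e) q)

/-- The list of darts is a walk in the surface `S` from the vertex of `p` to the vertex of `q`. -/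
def Car (S : Part D) (T : Tri D) : D → List D → D → Prop
  | p, [], q => S.Vt p q
  | p, e :: c, q => ∃ r, S.Edge T e p r ∧ S.Car T r c q

private theorem vt_mem {S : Part D} {p q : D} (h : S.Vt p q) : p ∈ S.R ↔ q ∈ S.R := by
  induction h with
  | rel x y h => rw [h.2.2, mem_R_s]
  | refl x => rfl
  | symm x y _ ih => exact ih.symm
  | trans x y z _ _ ih1 ih2 => exact ih1.trans ih2

private theorem vt_tl {S : Part D} {T : Tri D} (h : S.Le T) {p q : D} (hv : S.Vt p q) : T.tl p = T.tl q := by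
  induction hv with
  | rel x y hh => rw [hh.2.2, ← le_s h hh.1 hh.2.1, Tri.tl_s]
  | refl x => rfl
  | symm x y _ ih => exact ih.symm
  | trans x y z _ _ ih1 ih2 => exact ih1.trans ih2

private theorem vt_gauge {G : Type} [Group G] {S : Part D} {l : D → G} {H : Subgroup G} {k : D → G}
    (hk : Gauge S l H k) {p q : D} (hv : S.Vt p q) : k p * (k q)⁻¹ ∈ H := by
  induction hv with
  | rel x y hh => rw [hh.2.2]; exact hk.2 x hh.1 hh.2.1
  | refl x => rw [mul_inv_cancel]; exact H.one_mem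
  | symm x y _ ih =>
    have := H.inv_mem ih
    rwa [mul_inv_rev, inv_inv] at this
  | trans x y z _ _ ih1 ih2 =>
    have := H.mul_mem ih1 ih2
    rwa [mul_assoc, inv_mul_cancel_left] at this

private theorem edge_mem {S : Part D} {T : Tri D} {e p q : D} (h : S.Edge T e p q) : q ∈ S.R := by
  rcases h with ⟨h1, _, h3⟩ | ⟨h1, _, h3⟩
  · exact (vt_mem h3).1 ((mem_R_f S e).2 h1)
  · exact (vt_mem h3).1 h1

private theorem edge_tl {S : Part D} {T : Tri D} (h : S.Le T) {e p q : D} (he : S.Edge T e p q) :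
    T.tl e = T.tl p ∧ T.tl q = T.hd e := by
  rcases he with ⟨h1, h2, h3⟩ | ⟨h1, h2, h3⟩
  · refine ⟨(vt_tl h h2).symm, ?_⟩
    rw [← vt_tl h h3, ← h.1 e h1, Tri.tl_f]
  · refine ⟨?_, (vt_tl h h3).symm⟩
    rw [vt_tl h h2, ← h.1 _ h1, Tri.tl_f, Tri.hd_a]

theorem car_walk {S : Part D} {T : Tri D} (h : S.Le T) {p q : D} (hp : p ∈ S.R) {c : List D} (hc : S.Car T p c q) :
    T.IsWalk (T.tl p) c (T.tl q) := by
  induction c generalizing p with
  | nil => exact vt_tl h hc
  | cons e c ih =>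
    obtain ⟨r, hr, hc⟩ := hc
    have h1 := edge_tl h hr
    refine ⟨h1.1, ?_⟩
    rw [← h1.2]
    exact ih (edge_mem hr) hc

private theorem edge_gauge {G : Type} [Group G] {S : Part D} {T : Tri D} {l : D → G} (hl : Flat T l)
    {H : Subgroup G} {k : D → G} (hk : Gauge S l H k) {e p q : D} (he : S.Edge T e p q) :
    k p * l e * (k q)⁻¹ ∈ H := by
  rcases he with ⟨h1, h2, h3⟩ | ⟨h1, h2, h3⟩
  · have := H.mul_mem (H.mul_mem (vt_gauge hk h2) (hk.1 e h1)) (vt_gauge hk h3)
    have heq : k p * (k e)⁻¹ * (k e * l e * (k (S.f e))⁻¹) * (k (S.f e) * (k q)⁻¹) = k p * l e * (k q)⁻¹ := by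
      group
    rwa [heq] at this
  · have := H.mul_mem (H.mul_mem (vt_gauge hk h2) (H.inv_mem (hk.1 _ h1))) (vt_gauge hk h3)
    have hle : l e = (l (T.a e))⁻¹ := by
      rw [← hl.inv, T.aa]
    have heq : k p * (k (S.f (T.a e)))⁻¹ * (k (T.a e) * l (T.a e) * (k (S.f (T.a e)))⁻¹)⁻¹ *
        (k (T.a e) * (k q)⁻¹) = k p * l e * (k q)⁻¹ := by
      rw [hle]
      group
    rwa [heq] at this

theorem gauge_car {G : Type} [Group G] {S : Part D} {T : Tri D} (h : S.Le T) {l : D → G} (hl : Flat T l)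
    {H : Subgroup G} {k : D → G} (hk : Gauge S l H k) {p q : D} (hp : p ∈ S.R) {c : List D} (hc : S.Car T p c q) :
    k p * hol l c * (k q)⁻¹ ∈ H := by
  induction c generalizing p with
  | nil =>
    rw [hol_nil, mul_one]
    exact vt_gauge hk hc
  | cons e c ih =>
    obtain ⟨r, hr, hc⟩ := hc
    have h1 := H.mul_mem (edge_gauge hl hk hr) (ih (edge_mem hr) hc)
    have heq : k p * l e * (k r)⁻¹ * (k r * hol l c * (k q)⁻¹) = k p * hol l (e :: c) * (k q)⁻¹ := by
      rw [hol_cons]
      group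
    rwa [heq] at h1

/-- In a disc every closed walk is contractible. -/
theorem Expl.nullHtp {T : Tri D} (hT : T.Conn) {S : Part D} (h : Expl T S 0) {p : D} (hp : p ∈ S.R) {c : List D}
    (hc : S.Car T p c p) : T.NullHtp c := by
  have : Nonempty D := ⟨p⟩
  obtain ⟨G, _, l, hl, h1⟩ := exists_flat T hT
  obtain ⟨Z, k, hk⟩ := h.gauge hl
  have hle := h.le
  have h2 := gauge_car hle hl hk hp hc
  have h3 : Set.range Z = ∅ := Set.range_eq_empty Z
  rw [h3, Subgroup.closure_empty, Subgroup.mem_bot] at h2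
  have h4 : hol l c = 1 := by
    have h5 := congrArg (fun g => (k p)⁻¹ * g * k p) h2
    simpa only [mul_assoc, inv_mul_cancel_left, inv_mul_cancel, mul_one] using h5
  exact (h1 c ⟨T.tl p, car_walk hle hp hc⟩).1 h4

private theorem vt_nx {S : Part D} {d : D} (hd : d ∈ S.B) : S.Vt (S.f d) (S.nx d) := by
  obtain ⟨j, h1, _, h3⟩ := ret_spec S.s hd
  have h4 : S.nx d = (S.s ^ (j + 1)) d := h1
  have h0 : S.f d = (S.s ^ (0 + 1)) d := by
    rw [zero_add, pow_one, s_apply, hd.2]
  have hR : ∀ i, (S.s ^ i) d ∈ S.R := by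
    intro i
    induction i with
    | zero => exact hd.1
    | succ i ih => rw [pow_succ', Equiv.Perm.mul_apply, mem_R_s]; exact ih
  have key : ∀ i ≤ j, S.Vt (S.f d) ((S.s ^ (i + 1)) d) := by
    intro i
    induction i with
    | zero => intro _; rw [← h0]; exact Relation.EqvGen.refl _
    | succ i ih =>
      intro hi
      refine Relation.EqvGen.trans _ _ _ (ih (by omega)) (Relation.EqvGen.rel _ _ ⟨hR _, h3 i (by omega), ?_⟩)
      rw [pow_succ' _ (i + 1), Equiv.Perm.mul_apply]
  rw [h4]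
  exact key j le_rfl

private theorem car_chain {S : Part D} (T : Tri D) : ∀ (u : List D) (d : D), (∀ e ∈ d :: u, e ∈ S.B) →
    List.IsChain (fun d e => S.nx d = e) (d :: u) → S.Car T d (d :: u) (S.nx ((d :: u).getLast (by simp))) := by
  intro u
  induction u with
  | nil =>
    intro d hB _
    have hd : d ∈ S.B := hB d (by simp)
    exact ⟨S.nx d, Or.inl ⟨hd.1, Relation.EqvGen.refl _, vt_nx hd⟩, Relation.EqvGen.refl _⟩
  | cons e u ih =>
    intro d hB hc
    have hd : d ∈ S.B := hB d (by simp)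
    rw [List.isChain_cons_cons] at hc
    refine ⟨e, Or.inl ⟨hd.1, Relation.EqvGen.refl _, ?_⟩, ?_⟩
    · rw [← hc.1]
      exact vt_nx hd
    · rw [List.getLast_cons (by simp)]
      exact ih e (fun z hz => hB z (List.mem_cons_of_mem _ hz)) hc.2

/-- Hole words are carried. -/
theorem car_hw {S : Part D} {T : Tri D} (h : S.Le T) {x : D} (hx : x ∈ S.B) : S.Car T x (S.hw x) x := by
  obtain ⟨u, hu⟩ := hw_cons S hx
  have hB : ∀ e ∈ x :: u, e ∈ S.B := by
    intro e he
    rw [← hu, mem_hw S hx] at he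
    exact he.1
  have hch := hw_chain S hx
  rw [hu] at hch
  have h1 := car_chain T u x hB hch
  have h2 : S.nx ((x :: u).getLast (by simp)) = x := by
    rcases List.eq_nil_or_concat u with rfl | ⟨v, y, rfl⟩
    · have h3 : S.nx x ∈ S.hw x := by
        rw [mem_hw S hx]
        refine ⟨(nx_mem S).2 hx, ?_⟩
        rw [← ret_same S.s hx ((nx_mem S).2 hx)]
        exact Equiv.Perm.sameCycle_apply_right.2 (Equiv.Perm.SameCycle.refl _ _)
      rw [hu] at h3
      simpa using h3
    · have h3 : S.hw x = (x :: v) ++ y :: [] := by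
        rw [hu]
        simp
      have h4 := hw_rot S hx h3
      have hy : y ∈ S.B := hB y (by simp)
      have h5 := hw_chain S hy
      rw [h4, List.nil_append, List.isChain_cons_cons] at h5
      have h7 : (x :: v.concat y).getLast (by simp) = y := by simp
      rw [h7]
      exact h5.1
  rw [h2] at h1
  rw [hu]
  exact h1

end Part
end SYS
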