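import Pool.Agent.SYS.Lib.GenA

/-!
# SYS-Lib-GenB: genus: new faces, monotonicity

`newTri` merges three singletons (`mgS` twice), `face` = `newTri` + `glue`; monotonicity by induction on the number of
missing darts and edges.
-/

namespace SYS
namespace Part

open Classical SST

variable {D : Type}

/-- merge the classes of `x` and `y` -/
private def mgS (r : Setoid D) (x y : D) : Setoid D where
  r a b := r a b ∨ ((r a x ∨ r a y) ∧ (r b x ∨ r b y))
  iseqv := by
    refine ⟨fun a => Or.inl (r.refl a), ?_, ?_⟩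
    · rintro a b (h | ⟨h1, h2⟩)
      · exact Or.inl (r.symm h)
      · exact Or.inr ⟨h2, h1⟩
    · rintro a b c (h | ⟨h1, h2⟩) (h' | ⟨h3, h4⟩)
      · exact Or.inl (r.trans h h')
      · exact Or.inr ⟨h3.imp (fun t => r.trans h t) (fun t => r.trans h t), h4⟩
      · exact Or.inr ⟨h1, h2.imp (fun t => r.trans (r.symm h') t) (fun t => r.trans (r.symm h') t)⟩
      · exact Or.inr ⟨h1, h4⟩

private theorem mgS_iff (r : Setoid D) (x y a b : D) :
    (mgS r x y) a b ↔ r a b ∨ ((r a x ∨ r a y) ∧ (r b x ∨ r b y)) := Iff.rfl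

private theorem mgS_card [Finite D] (r : Setoid D) {x y : D} (h : ¬ r x y) :
    Nat.card (Quotient (mgS r x y)) + 1 = Nat.card (Quotient r) := by
  have hiff := mgS_iff r x y
  let f : Quotient r → Quotient (mgS r x y) :=
    Quotient.map' id fun a b hab => (hiff a b).2 (Or.inl hab)
  have hf : ∀ a, f (Quotient.mk _ a) = Quotient.mk _ a := fun _ => rfl
  have hsur : Function.Surjective f := by
    intro q
    induction q using Quotient.inductionOn with
    | h a => exact ⟨Quotient.mk _ a, rfl⟩
  have hab : f (Quotient.mk _ x) = f (Quotient.mk _ y) := by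
    rw [hf, hf]
    exact Quotient.sound ((hiff x y).2 (Or.inr ⟨Or.inl (r.refl x), Or.inr (r.refl y)⟩))
  have hinj : ∀ c d, f c = f d → c = d ∨
      ((c = Quotient.mk _ x ∨ c = Quotient.mk _ y) ∧ (d = Quotient.mk _ x ∨ d = Quotient.mk _ y)) := by
    intro c d
    induction c using Quotient.inductionOn with
    | h a =>
      induction d using Quotient.inductionOn with
      | h b =>
        intro hcd
        rw [hf, hf] at hcd
        have h1 : (mgS r x y) a b := Quotient.exact hcd
        rcases (hiff a b).1 h1 with h2 | ⟨h2, h3⟩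
        · exact Or.inl (Quotient.sound h2)
        · refine Or.inr ⟨?_, ?_⟩
          · rcases h2 with h2 | h2
            · exact Or.inl (Quotient.sound h2)
            · exact Or.inr (Quotient.sound h2)
          · rcases h3 with h3 | h3
            · exact Or.inl (Quotient.sound h3)
            · exact Or.inr (Quotient.sound h3)
  have hne : (Quotient.mk r x) ≠ Quotient.mk _ y := fun he => h (Quotient.exact he)
  let a : Quotient r := Quotient.mk _ x
  let g : {c : Quotient r // c ≠ a} → Quotient (mgS r x y) := fun c => f c.1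
  have hg : Function.Bijective g := by
    constructor
    · rintro ⟨c, hc⟩ ⟨d, hd⟩ hcd
      rcases hinj c d hcd with h1 | ⟨h1, h2⟩
      · exact Subtype.ext h1
      · have h3 := h1.resolve_left hc
        have h4 := h2.resolve_left hd
        exact Subtype.ext (h3.trans h4.symm)
    · intro t
      obtain ⟨c, hc⟩ := hsur t
      by_cases hca : c = a
      · refine ⟨⟨Quotient.mk _ y, hne.symm⟩, ?_⟩
        show f (Quotient.mk _ y) = t
        rw [← hab, ← hc, hca]
      · exact ⟨⟨c, hca⟩, hc⟩
  have h1 : Nat.card {c : Quotient r // c ≠ a} = Nat.card (Quotient (mgS r x y)) :=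
    Nat.card_eq_of_bijective g hg
  have h2 : Nat.card (Quotient r) = Nat.card (Option {c : Quotient r // c ≠ a}) :=
    (Nat.card_congr (Equiv.optionSubtypeNe a)).symm
  rw [h2, Finite.card_option, h1]

private theorem cyc3_0 {t0 t1 t2 : D} (h01 : t0 ≠ t1) (h20 : t2 ≠ t0) :
    cyc3 t0 t1 t2 t0 = t1 := by
  unfold cyc3
  rw [Equiv.Perm.mul_apply, Equiv.swap_apply_of_ne_of_ne h01 h20.symm, Equiv.swap_apply_left]

private theorem cyc3_1 {t0 t1 t2 : D} (h12 : t1 ≠ t2) (h20 : t2 ≠ t0) :
    cyc3 t0 t1 t2 t1 = t2 := by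
  unfold cyc3
  rw [Equiv.Perm.mul_apply, Equiv.swap_apply_left, Equiv.swap_apply_of_ne_of_ne h20 h12.symm]

private theorem cyc3_2 {t0 t1 t2 : D} : cyc3 t0 t1 t2 t2 = t0 := by
  unfold cyc3
  rw [Equiv.Perm.mul_apply, Equiv.swap_apply_right, Equiv.swap_apply_right]

private theorem cyc3_ne {t0 t1 t2 d : D} (h0 : d ≠ t0) (h1 : d ≠ t1) (h2 : d ≠ t2) :
    cyc3 t0 t1 t2 d = d := by
  unfold cyc3
  rw [Equiv.Perm.mul_apply, Equiv.swap_apply_of_ne_of_ne h1 h2, Equiv.swap_apply_of_ne_of_ne h0 h1]

private theorem f_fix (S : Part D) {t : D} (h : t ∉ S.R) : S.f t = t := by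
  by_contra hne
  exact h hne

private theorem a_fix (S : Part D) {t : D} (h : t ∉ S.R) : S.a t = t := S.af t (f_fix S h)

section
variable [Finite D] (S : Part D) {x t0 t1 t2 : D} (hx : x ∈ S.B) (h0 : t0 ∉ S.R) (h1 : t1 ∉ S.R) (h2 : t2 ∉ S.R)
    (h01 : t0 ≠ t1) (h12 : t1 ≠ t2) (h20 : t2 ≠ t0)

theorem newTri_s : (S.newTri t0 t1 t2 h0 h1 h2 h01 h12 h20).s = S.s * cyc3 t0 t1 t2 := by
  have e0 := a_fix S h0
  have e1 := a_fix S h1
  have e2 := a_fix S h2
  have c1 : S.a * Equiv.swap t0 t1 = Equiv.swap t0 t1 * S.a := by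
    rw [Equiv.mul_swap_eq_swap_mul, e0, e1]
  have c2 : S.a * Equiv.swap t1 t2 = Equiv.swap t1 t2 * S.a := by
    rw [Equiv.mul_swap_eq_swap_mul, e1, e2]
  show S.f * cyc3 t0 t1 t2 * S.a = S.f * S.a * cyc3 t0 t1 t2
  unfold cyc3
  rw [mul_assoc, mul_assoc (Equiv.swap t0 t1), ← c2, ← mul_assoc (Equiv.swap t0 t1), ← c1,
    mul_assoc, mul_assoc]

omit [Finite D] in
private theorem newTri_f_ne {d : D} (hd0 : d ≠ t0) (hd1 : d ≠ t1) (hd2 : d ≠ t2) :
    (S.newTri t0 t1 t2 h0 h1 h2 h01 h12 h20).f d = S.f d := by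
  show S.f (cyc3 t0 t1 t2 d) = S.f d
  rw [cyc3_ne hd0 hd1 hd2]

omit [Finite D] in
private theorem newTri_f0 : (S.newTri t0 t1 t2 h0 h1 h2 h01 h12 h20).f t0 = t1 := by
  show S.f (cyc3 t0 t1 t2 t0) = t1
  rw [cyc3_0 h01 h20, f_fix S h1]

omit [Finite D] in
private theorem newTri_f1 : (S.newTri t0 t1 t2 h0 h1 h2 h01 h12 h20).f t1 = t2 := by
  show S.f (cyc3 t0 t1 t2 t1) = t2
  rw [cyc3_1 h12 h20, f_fix S h2]

omit [Finite D] in
private theorem newTri_f2 : (S.newTri t0 t1 t2 h0 h1 h2 h01 h12 h20).f t2 = t0 := by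
  show S.f (cyc3 t0 t1 t2 t2) = t0
  rw [cyc3_2, f_fix S h0]

omit [Finite D] in
private theorem newTri_cn (d e : D) : (S.newTri t0 t1 t2 h0 h1 h2 h01 h12 h20).Cn d e ↔
    (mgS (mgS S.cnSetoid t0 t1) t1 t2) d e := by
  set S' := S.newTri t0 t1 t2 h0 h1 h2 h01 h12 h20 with hS'
  have f0 : S'.f t0 = t1 := newTri_f0 S h0 h1 h2 h01 h12 h20
  have f1 : S'.f t1 = t2 := newTri_f1 S h0 h1 h2 h01 h12 h20
  have f2 : S'.f t2 = t0 := newTri_f2 S h0 h1 h2 h01 h12 h20
  have hr : ∀ a b, S.Cn a b → (mgS (mgS S.cnSetoid t0 t1) t1 t2) a b :=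
    fun a b hab => Or.inl (Or.inl hab)
  have m01 : (mgS (mgS S.cnSetoid t0 t1) t1 t2) t0 t1 :=
    Or.inl (Or.inr ⟨Or.inl (cn_refl S t0), Or.inr (cn_refl S t1)⟩)
  have m12 : (mgS (mgS S.cnSetoid t0 t1) t1 t2) t1 t2 :=
    Or.inr ⟨Or.inl (Setoid.refl' _ t1), Or.inr (Setoid.refl' _ t2)⟩
  constructor
  · intro h
    induction h with
    | rel a b hab =>
      rcases hab with hab | hab
      · rw [hab]
        exact hr _ _ (cn_a S a)
      · by_cases ha0 : a = t0
        · rw [hab, ha0, f0]; exact m01
        · by_cases ha1 : a = t1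
          · rw [hab, ha1, f1]; exact m12
          · by_cases ha2 : a = t2
            · rw [hab, ha2, f2]
              exact Setoid.symm' _ (Setoid.trans' _ m01 m12)
            · have : S'.f a = S.f a := newTri_f_ne S h0 h1 h2 h01 h12 h20 ha0 ha1 ha2
              rw [hab, this]
              exact hr _ _ (cn_f S a)
    | refl a => exact Setoid.refl' _ a
    | symm a b _ ih => exact Setoid.symm' _ ih
    | trans a b c _ _ ih1 ih2 => exact Setoid.trans' _ ih1 ih2
  · have old : ∀ a b, S.Cn a b → S'.Cn a b := by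
      intro a b h
      induction h with
      | rel a b hab =>
        rcases hab with hab | hab
        · rw [hab]; exact cn_a S' a
        · by_cases ha0 : a = t0
          · rw [hab, ha0, f_fix S h0]; exact cn_refl S' t0
          · by_cases ha1 : a = t1
            · rw [hab, ha1, f_fix S h1]; exact cn_refl S' t1
            · by_cases ha2 : a = t2
              · rw [hab, ha2, f_fix S h2]; exact cn_refl S' t2
              · have : S'.f a = S.f a := newTri_f_ne S h0 h1 h2 h01 h12 h20 ha0 ha1 ha2
                rw [hab, ← this]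
                exact cn_f S' a
      | refl a => exact cn_refl S' a
      | symm a b _ ih => exact cn_symm ih
      | trans a b c _ _ ih1 ih2 => exact cn_trans ih1 ih2
    have c01 : S'.Cn t0 t1 := by
      have := cn_f S' t0
      rwa [f0] at this
    have c12 : S'.Cn t1 t2 := by
      have := cn_f S' t1
      rwa [f1] at this
    have old1 : ∀ a b, (mgS S.cnSetoid t0 t1) a b → S'.Cn a b := by
      rintro a b (h | ⟨h3, h4⟩)
      · exact old a b h
      · have ha : S'.Cn a t0 := by
          rcases h3 with h3 | h3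
          · exact old _ _ h3
          · exact cn_trans (old _ _ h3) (cn_symm c01)
        have hb : S'.Cn b t0 := by
          rcases h4 with h4 | h4
          · exact old _ _ h4
          · exact cn_trans (old _ _ h4) (cn_symm c01)
        exact cn_trans ha (cn_symm hb)
    rintro (h | ⟨h3, h4⟩)
    · exact old1 _ _ h
    · have ha : S'.Cn d t1 := by
        rcases h3 with h3 | h3
        · exact old1 _ _ h3
        · exact cn_trans (old1 _ _ h3) (cn_symm c12)
      have hb : S'.Cn e t1 := by
        rcases h4 with h4 | h4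
        · exact old1 _ _ h4
        · exact cn_trans (old1 _ _ h4) (cn_symm c12)
      exact cn_trans ha (cn_symm hb)

omit [Finite D] in
private theorem cn_single {t e : D} (ht : t ∉ S.R) (h : S.Cn t e) : e = t := by
  have key : ∀ a b, S.Cn a b → (a = t ↔ b = t) := by
    intro a b hab
    induction hab with
    | rel a b hab =>
      rcases hab with hab | hab
      · constructor
        · intro ha; rw [hab, ha, a_fix S ht]
        · intro hb
          have h5 : S.a a = S.a t := by rw [a_fix S ht, ← hb, hab]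
          exact S.a.injective h5
      · constructor
        · intro ha; rw [hab, ha, f_fix S ht]
        · intro hb
          have h5 : S.f a = S.f t := by rw [f_fix S ht, ← hb, hab]
          exact S.f.injective h5
    | refl a => exact Iff.rfl
    | symm a b _ ih => exact ih.symm
    | trans a b c _ _ ih1 ih2 => exact ih1.trans ih2
  exact (key t e h).1 rfl

private theorem newTri_ncomp :
    (S.newTri t0 t1 t2 h0 h1 h2 h01 h12 h20).ncomp + 2 = S.ncomp := by
  have hs : (S.newTri t0 t1 t2 h0 h1 h2 h01 h12 h20).cnSetoid =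
      mgS (mgS S.cnSetoid t0 t1) t1 t2 := by
    ext d e
    exact newTri_cn S h0 h1 h2 h01 h12 h20 d e
  have n1 : ¬ S.cnSetoid t0 t1 := fun h => h01 (cn_single S h0 h).symm
  have n2 : ¬ (mgS S.cnSetoid t0 t1) t1 t2 := by
    rintro (h | ⟨_, h | h⟩)
    · exact h12 (cn_single S h1 h).symm
    · exact h20 (cn_single S h2 h).symm
    · exact h12 (cn_single S h2 h)
  have c1 := mgS_card S.cnSetoid n1
  have c2 := mgS_card (mgS S.cnSetoid t0 t1) n2
  unfold ncomp
  rw [hs]
  omega

private theorem newTri_ncyc :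
    ncyc (S.newTri t0 t1 t2 h0 h1 h2 h01 h12 h20).s + 2 = ncyc S.s := by
  have hfix : ∀ {σ : Equiv.Perm D} {u v : D}, σ v = v → u ≠ v → ¬ σ.SameCycle u v := by
    intro σ u v hv huv h
    obtain ⟨k, hk⟩ := h.symm
    have : (σ ^ k) v = v := Equiv.Perm.zpow_apply_eq_self_of_apply_eq_self hv k
    rw [this] at hk
    exact huv hk.symm
  have s1 : S.s t1 = t1 := s_not_mem S h1
  have s2 : S.s t2 = t2 := s_not_mem S h2
  have c1 := ncyc_swap_diff S.s (hfix s1 h01)
  have s3 : (S.s * Equiv.swap t0 t1) t2 = t2 := by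
    rw [Equiv.Perm.mul_apply, Equiv.swap_apply_of_ne_of_ne h20 h12.symm, s2]
  have c2 := ncyc_swap_diff (S.s * Equiv.swap t0 t1) (hfix s3 h12)
  rw [newTri_s]
  unfold cyc3
  rw [← mul_assoc]
  omega

private theorem ncard_three {A : Set D} (k0 : t0 ∉ A) (k1 : t1 ∉ A) (k2 : t2 ∉ A)
    (h01 : t0 ≠ t1) (h12 : t1 ≠ t2) (h20 : t2 ≠ t0) :
    (A ∪ {t0, t1, t2}).ncard = A.ncard + 3 := by
  have hd : Disjoint A ({t0, t1, t2} : Set D) := by
    rw [Set.disjoint_left]
    rintro a ha (h | h | h)
    · exact k0 (h ▸ ha)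
    · exact k1 (h ▸ ha)
    · exact k2 (h ▸ ha)
  rw [Set.ncard_union_eq hd (Set.toFinite _) (Set.toFinite _)]
  congr 1
  rw [Set.ncard_eq_three]
  exact ⟨t0, t1, t2, h01, h20.symm, h12, rfl⟩

theorem gen12_newTri : (S.newTri t0 t1 t2 h0 h1 h2 h01 h12 h20).gen12 = S.gen12 := by
  have c1 := newTri_ncomp S h0 h1 h2 h01 h12 h20
  have c2 := newTri_ncyc S h0 h1 h2 h01 h12 h20
  have c3 : (S.newTri t0 t1 t2 h0 h1 h2 h01 h12 h20).B.ncard = S.B.ncard + 3 := by
    rw [newTri_B]
    exact ncard_three (fun h => h0 (B_sub_R S h)) (fun h => h1 (B_sub_R S h))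
      (fun h => h2 (B_sub_R S h)) h01 h12 h20
  have c4 : (S.newTri t0 t1 t2 h0 h1 h2 h01 h12 h20).R.ncard = S.R.ncard + 3 := by
    rw [newTri_R]
    exact ncard_three h0 h1 h2 h01 h12 h20
  unfold gen12
  rw [c3, c4, ← c1, ← c2]
  push_cast
  ring

theorem gen12_face : (S.face x t0 t1 t2 hx h0 h1 h2 h01 h12 h20).gen12 = S.gen12 := by
  rw [face_eq, gen12_glue_merge, gen12_newTri]
  intro h
  have h' := (newTri_cn S h0 h1 h2 h01 h12 h20 x t0).1 h
  have hxR : x ∈ S.R := B_sub_R S hx
  have no0 : ¬ S.Cn x t0 := fun hh => h0 ((cn_mem_R hh).1 hxR)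
  have no1 : ¬ S.Cn x t1 := fun hh => h1 ((cn_mem_R hh).1 hxR)
  have no2 : ¬ S.Cn x t2 := fun hh => h2 ((cn_mem_R hh).1 hxR)
  rcases h' with (h' | ⟨h' | h', _⟩) | ⟨(h' | ⟨h' | h', _⟩) | (h' | ⟨h' | h', _⟩), _⟩
  · exact no0 h'
  · exact no0 h'
  · exact no1 h'
  · exact no1 h'
  · exact no0 h'
  · exact no1 h'
  · exact no2 h'
  · exact no0 h'
  · exact no1 h'

theorem con_face (h : S.Con) : (S.face x t0 t1 t2 hx h0 h1 h2 h01 h12 h20).Con := by
  set S' := S.face x t0 t1 t2 hx h0 h1 h2 h01 h12 h20 with hS'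
  have hsub : S.Sub S' := face_sub S hx h0 h1 h2 h01 h12 h20
  have hxR : x ∈ S.R := B_sub_R S hx
  have hstep : ∀ d, S'.Cn d (S'.s d) := by
    intro d
    rw [s_apply]
    exact cn_trans (cn_a S' d) (cn_f S' _)
  have k1 : S'.Cn x t1 := by
    have := hstep x
    rwa [hS', face_s_x, ← hS'] at this
  have k2 : S'.Cn t1 t2 := by
    have := hstep t1
    rwa [hS', face_s_t1, ← hS'] at this
  have k0 : S'.Cn t2 t0 := by
    have := hstep t2
    rwa [hS', face_s_t2, ← hS'] at this
  have key : ∀ d ∈ S'.R, S'.Cn x d := by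
    intro d hd
    rw [hS', face_R] at hd
    rcases hd with hd | hd | hd | hd
    · exact cn_sub hsub hxR (h x hxR d hd)
    · rw [hd]; exact cn_trans (cn_trans k1 k2) k0
    · rw [hd]; exact k1
    · rw [hd]; exact cn_trans k1 k2
  intro d hd e he
  exact cn_trans (cn_symm (key d hd)) (key e he)

end

theorem gen12_emp [Finite D] : (emp : Part D).gen12 = 0 := by
  have hcn : ∀ d e : D, (emp : Part D).Cn d e → d = e := by
    intro d e h
    induction h with
    | rel a b hab =>
      rcases hab with hab | hab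
      · exact hab.symm
      · exact hab.symm
    | refl a => rfl
    | symm a b _ ih => exact ih.symm
    | trans a b c _ _ ih1 ih2 => exact ih1.trans ih2
  have h1 : (emp : Part D).ncomp = Nat.card D := by
    unfold ncomp
    refine (Nat.card_eq_of_bijective (fun d : D => (Quotient.mk _ d : Quotient (emp : Part D).cnSetoid))
      ⟨?_, ?_⟩).symm
    · intro d e h
      exact hcn d e (Quotient.exact h)
    · intro q
      induction q using Quotient.inductionOn with
      | h a => exact ⟨a, rfl⟩
  have h2 : ncyc (emp : Part D).s = Nat.card D := by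
    have hs : (emp : Part D).s = 1 := by
      show (1 : Equiv.Perm D) * 1 = 1
      rw [mul_one]
    rw [hs]
    unfold ncyc
    refine (Nat.card_eq_of_bijective (fun d : D =>
      (Quotient.mk _ d : Quotient (Equiv.Perm.SameCycle.setoid (1 : Equiv.Perm D)))) ⟨?_, ?_⟩).symm
    · intro d e h
      have h3 : (1 : Equiv.Perm D).SameCycle d e := Quotient.exact h
      exact Equiv.Perm.sameCycle_one.1 h3
    · intro q
      induction q using Quotient.inductionOn with
      | h a => exact ⟨a, rfl⟩
  have h3 : (emp : Part D).B = ∅ := by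
    ext d
    constructor
    · intro hd; exact absurd rfl hd.1
    · intro hd; exact absurd hd (Set.notMem_empty d)
  have h4 : (emp : Part D).R = ∅ := by
    ext d
    constructor
    · intro hd; exact absurd rfl hd
    · intro hd; exact absurd hd (Set.notMem_empty d)
  unfold gen12
  rw [h1, h2, h3, h4, Set.ncard_empty]
  push_cast
  ring

private theorem glue_le_gen [Finite D] (S : Part D) {x y : D} (hx : x ∈ S.B) (hy : y ∈ S.B)
    (hxy : x ≠ y) : S.gen12 ≤ (S.glue x y hx hy).gen12 := by
  by_cases h : S.Cn x y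
  · by_cases h' : S.s.SameCycle x y
    · exact (gen12_glue_split S hx hy hxy h').ge
    · rw [gen12_glue_handle S hx hy h h']
      omega
  · exact (gen12_glue_merge S hx hy h).ge

theorem gen12_mono [Finite D] {S S' : Part D} (h : S.Sub S') : S.gen12 ≤ S'.gen12 := by
  have key : ∀ (N : ℕ) (S : Part D), S.Sub S' →
      (S'.R \ S.R).ncard + {d | S'.a d ≠ d ∧ S.a d = d}.ncard ≤ N → S.gen12 ≤ S'.gen12 := by
    intro N
    induction N with
    | zero =>
      intro S hS hN
      have e1 : (S'.R \ S.R).ncard = 0 := by omega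
      have e2 : {d | S'.a d ≠ d ∧ S.a d = d}.ncard = 0 := by omega
      rw [Set.ncard_eq_zero (Set.toFinite _)] at e1 e2
      have : S = S' := by
        refine ext' ?_ ?_
        · ext d
          by_cases hd : S.a d = d
          · by_contra hne
            have : d ∈ {d | S'.a d ≠ d ∧ S.a d = d} := ⟨fun hh => hne (by rw [hd, hh]), hd⟩
            rw [e2] at this
            exact this
          · exact (hS.2 d hd).symm
        · ext d
          by_cases hd : S.f d = d
          · by_contra hne
            have : d ∈ S'.R \ S.R := ⟨fun hh => hne (by rw [hd, hh]), fun hh => hh hd⟩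
            rw [e1] at this
            exact this
          · exact (hS.1 d hd).symm
      rw [this]
    | succ N ih =>
      intro S hS hN
      by_cases hA : ∃ t0, t0 ∈ S'.R ∧ t0 ∉ S.R
      · obtain ⟨t0, ht0, hn0⟩ := hA
        have inj := S'.f.injective
        have g0 : S'.f t0 ≠ t0 := ht0
        have g3 : S'.f (S'.f (S'.f t0)) = t0 := S'.fff t0
        have h01 : t0 ≠ S'.f t0 := g0.symm
        have h12 : S'.f t0 ≠ S'.f (S'.f t0) := fun hh => h01 (inj hh)
        have h20 : S'.f (S'.f t0) ≠ t0 := by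
          intro hh
          have := congrArg S'.f hh
          rw [g3] at this
          exact h01 this
        have hn2 : S'.f (S'.f t0) ∉ S.R := by
          intro hh
          have e1 : S'.f (S'.f (S'.f t0)) = S.f (S'.f (S'.f t0)) := hS.1 _ hh
          rw [g3] at e1
          exact hn0 (by rw [e1]; exact (mem_R_f S _).2 hh)
        have hn1 : S'.f t0 ∉ S.R := by
          intro hh
          have e1 : S'.f (S'.f t0) = S.f (S'.f t0) := hS.1 _ hh
          exact hn2 (by rw [e1]; exact (mem_R_f S _).2 hh)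
        rw [← gen12_newTri S hn0 hn1 hn2 h01 h12 h20]
        refine ih _ ⟨?_, ?_⟩ ?_
        · intro d hd
          by_cases d0 : d = t0
          · rw [d0, newTri_f0 S hn0 hn1 hn2 h01 h12 h20]
          · by_cases d1 : d = S'.f t0
            · rw [d1, newTri_f1 S hn0 hn1 hn2 h01 h12 h20]
            · by_cases d2 : d = S'.f (S'.f t0)
              · rw [d2, newTri_f2 S hn0 hn1 hn2 h01 h12 h20, g3]
              · rw [newTri_f_ne S hn0 hn1 hn2 h01 h12 h20 d0 d1 d2] at hd ⊢
                exact hS.1 d hd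
        · intro d hd
          exact hS.2 d hd
        · rw [newTri_R]
          have hlt : (S'.R \ (S.R ∪ {t0, S'.f t0, S'.f (S'.f t0)})).ncard < (S'.R \ S.R).ncard := by
            refine Set.ncard_lt_ncard ?_ (Set.toFinite _)
            refine ⟨?_, ?_⟩
            · rintro d ⟨hd1, hd2⟩
              exact ⟨hd1, fun hd3 => hd2 (Or.inl hd3)⟩
            · intro hsub
              exact (hsub ⟨ht0, hn0⟩).2 (Or.inr (Or.inl rfl))
          have heq : {d | S'.a d ≠ d ∧ (S.newTri t0 (S'.f t0) (S'.f (S'.f t0)) hn0 hn1 hn2 h01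
              h12 h20).a d = d} = {d | S'.a d ≠ d ∧ S.a d = d} := rfl
          rw [heq]
          omega
      · push Not at hA
        by_cases hB : ∃ x, S'.a x ≠ x ∧ S.a x = x
        · obtain ⟨x, hx1, hx2⟩ := hB
          have hyx : S'.a (S'.a x) = x := S'.aa x
          have hxR : x ∈ S.R := by
            refine hA x ?_
            intro hh
            exact hx1 (S'.af x hh)
          have hy1 : S'.a (S'.a x) ≠ S'.a x := by
            rw [hyx]; exact hx1.symm
          have hy2 : S.a (S'.a x) = S'.a x := by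
            by_contra hne
            have e1 := hS.2 _ hne
            rw [hyx] at e1
            have e2 : S.a x = S'.a x := by
              rw [e1, S.aa]
              rw [← e1]
            exact hx1 (by rw [← e2, hx2])
          have hyR : S'.a x ∈ S.R := by
            refine hA _ ?_
            intro hh
            exact hy1 (S'.af _ hh)
          have hxB : x ∈ S.B := ⟨hxR, hx2⟩
          have hyB : S'.a x ∈ S.B := ⟨hyR, hy2⟩
          refine (glue_le_gen S hxB hyB hx1.symm).trans ?_
          have ga : ∀ d, (S.glue x (S'.a x) hxB hyB).a d = S.a (Equiv.swap x (S'.a x) d) :=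
            fun d => rfl
          refine ih _ ⟨?_, ?_⟩ ?_
          · intro d hd
            exact hS.1 d hd
          · intro d hd
            by_cases d0 : d = x
            · rw [d0, ga, Equiv.swap_apply_left, hy2]
            · by_cases d1 : d = S'.a x
              · rw [d1, ga, Equiv.swap_apply_right, hx2, hyx]
              · rw [ga, Equiv.swap_apply_of_ne_of_ne d0 d1] at hd ⊢
                exact hS.2 d hd
          · rw [glue_R]
            have hlt : {d | S'.a d ≠ d ∧ (S.glue x (S'.a x) hxB hyB).a d = d}.ncard <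
                {d | S'.a d ≠ d ∧ S.a d = d}.ncard := by
              refine Set.ncard_lt_ncard ?_ (Set.toFinite _)
              refine ⟨?_, ?_⟩
              · rintro d ⟨hd1, hd2⟩
                refine ⟨hd1, ?_⟩
                by_cases d0 : d = x
                · rw [d0, hx2]
                · by_cases d1 : d = S'.a x
                  · rw [d1, hy2]
                  · rw [ga, Equiv.swap_apply_of_ne_of_ne d0 d1] at hd2
                    exact hd2
              · intro hsub
                have := (hsub (show x ∈ {d | S'.a d ≠ d ∧ S.a d = d} from ⟨hx1, hx2⟩)).2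
                rw [ga, Equiv.swap_apply_left, hy2] at this
                exact hx1 this
            omega
        · push Not at hB
          refine ih S hS ?_
          have e1 : S'.R \ S.R = ∅ := by
            ext d
            constructor
            · rintro ⟨hd1, hd2⟩
              exact absurd (hA d hd1) hd2
            · intro hd; exact absurd hd (Set.notMem_empty d)
          have e2 : {d | S'.a d ≠ d ∧ S.a d = d} = ∅ := by
            ext d
            constructor
            · rintro ⟨hd1, hd2⟩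
              exact absurd hd2 (hB d hd1)
            · intro hd; exact absurd hd (Set.notMem_empty d)
          rw [e1, e2, Set.ncard_empty]
          omega
  exact key _ S h le_rfl

theorem gen12_nonneg [Finite D] (S : Part D) : 0 ≤ S.gen12 := by
  have h : (emp : Part D).Sub S := ⟨fun d hd => absurd rfl hd, fun d hd => absurd rfl hd⟩
  have := gen12_mono h
  rwa [gen12_emp] at this

theorem gen12_tri {n g : ℕ} {T : Tri (Fin (6 * n))} (hn : 1 ≤ n) (hT : T ∈ Trn n g) :
    (ofTri T).gen12 = 12 * g := by
  obtain ⟨hc, hg⟩ := hT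
  have hc' : T.Conn := hc
  have hg' : Nat.card T.V + 2 * g = n + 2 := hg
  let d0 : Fin (6 * n) := ⟨0, by omega⟩
  have hall : ∀ e, (ofTri T).Cn d0 e := by
    have := hc' {e | (ofTri T).Cn d0 e} ⟨d0, cn_refl _ _⟩ (by
      intro d hd
      exact ⟨cn_trans hd (cn_a (ofTri T) d), cn_trans hd (cn_f (ofTri T) d)⟩)
    intro e
    have he : e ∈ (Set.univ : Set (Fin (6 * n))) := Set.mem_univ e
    rw [← this] at he
    exact he
  have h1 : (ofTri T).ncomp = 1 := by
    unfold ncomp
    rw [Nat.card_eq_one_iff_unique]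
    refine ⟨⟨?_⟩, ⟨Quotient.mk _ d0⟩⟩
    intro p q
    induction p using Quotient.inductionOn with
    | h a =>
      induction q using Quotient.inductionOn with
      | h b => exact Quotient.sound (cn_trans (cn_symm (hall a)) (hall b))
  have h2 : ncyc (ofTri T).s = Nat.card T.V := rfl
  have h3 : (ofTri T).B = ∅ := by
    ext d
    constructor
    · intro hd; exact absurd hd.2 (T.ane d)
    · intro hd; exact absurd hd (Set.notMem_empty d)
  have h4 : (ofTri T).R = Set.univ := by
    ext d
    exact ⟨fun _ => Set.mem_univ d, fun _ => T.fne d⟩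
  unfold gen12
  rw [h1, h2, h3, h4, Set.ncard_empty, Set.ncard_univ, Nat.card_fin]
  have h5 : ((Nat.card T.V : ℕ) : ℤ) = n + 2 - 2 * g := by
    have : ((Nat.card T.V + 2 * g : ℕ) : ℤ) = ((n + 2 : ℕ) : ℤ) := by rw [hg']
    push_cast at this
    linarith
  rw [h5]
  push_cast
  ring

end Part
end SYS
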