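import Pool.Agent.SYS.Lib.HidA
import Pool.Agent.SYS.Lib.GenB

/-!
# SYS-Lib-HidB: revealing a hidden component

`fill S T h x` reveals the hidden component of `x` completely.

PLAN.
* `restr σ Y`: `σ` on the invariant set `Y`, identity off `Y` (`Equiv.Perm.ofSubtype (σ.subtypePerm _)` or a direct construction).
* `fill`: `f` = `T.f` on `R ∪ C`, `a` = `T.a` on `(R \ B) ∪ C`, where `C` = hidden component of `x`.  `C` is invariant under `T.a`
  (`hc_a`, elements of `C` are in `X` if `x ∈ X`; if `x ∉ X` then `C = {x}` is not in `X` and we intersect with `X`: that is why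
  `C := {d ∈ X | Hc x d}`), `C \ R` under `T.f`; `R` under `T.f` (`le_f_mem`), `R \ B = X^c` under `T.a` (`X_a`).
* `fill_R, fill_B, fill_le, sub_fill`: by definition of the permutations: on `R`: `S.f = T.f`; on `R \ B`: `S.a = T.a`, on `B`:
  `S.a d = d`.
* `con_fill`: `S.Con` and every dart of `C` is connected to a boundary dart of `S` in `fill` (`hc_meets`; the steps `T.a`, `T.f` of
  hidden darts are steps `a`, `f` of `fill`; a step `nx` stays inside `R`, which is connected).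
* `hc_fill`: for `d, e` in the new hidden set `X' = X \ C`: unchanged (steps of other components; `nx' = nx` on the holes not in
  `C`: the `s`-path between two boundary darts of a hole not in `C` is unchanged).
* `hw_fill`: holes not in `C` are unchanged.
* `fill_eq_of`: a partial triangulation `S'` with `S.Sub S'`, `S'.Le T`, `S'.B = S.B \ C`, `S'.R = S.R ∪ C`, is `fill`.
-/

namespace SYS

open Classical SST

/-- `σ` on the invariant set `Y`, the identity off `Y`. -/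
noncomputable def restr {D : Type} (σ : Equiv.Perm D) (Y : Set D) (h : ∀ d, σ d ∈ Y ↔ d ∈ Y) : Equiv.Perm D where
  toFun d := if d ∈ Y then σ d else d
  invFun d := if d ∈ Y then σ.symm d else d
  left_inv := by
    intro d
    by_cases hd : d ∈ Y
    · simp [hd, (h d).2 hd]
    · simp [hd]
  right_inv := by
    intro d
    have h' : σ.symm d ∈ Y ↔ d ∈ Y := by
      have := h (σ.symm d)
      rw [Equiv.apply_symm_apply] at this
      exact this.symm
    by_cases hd : d ∈ Y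
    · simp [hd, h'.2 hd]
    · simp [hd]

theorem restr_mem {D : Type} (σ : Equiv.Perm D) {Y : Set D} (h : ∀ d, σ d ∈ Y ↔ d ∈ Y) {d : D} (hd : d ∈ Y) :
    restr σ Y h d = σ d := by
  simp [restr, hd]

theorem restr_not_mem {D : Type} (σ : Equiv.Perm D) {Y : Set D} (h : ∀ d, σ d ∈ Y ↔ d ∈ Y) {d : D} (hd : d ∉ Y) :
    restr σ Y h d = d := by
  simp [restr, hd]

namespace Part

variable {D : Type}

/-- The partial triangulation with the faces of `Y` and the edges of `E`. -/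
noncomputable def subPart (T : Tri D) (Y E : Set D) (hY : ∀ d, T.f d ∈ Y ↔ d ∈ Y) (hE : ∀ d, T.a d ∈ E ↔ d ∈ E)
    (hEY : E ⊆ Y) : Part D where
  a := restr T.a E hE
  f := restr T.f Y hY
  aa := by
    intro d
    by_cases hd : d ∈ E
    · rw [restr_mem T.a hE hd, restr_mem T.a hE ((hE d).2 hd), T.aa]
    · rw [restr_not_mem T.a hE hd, restr_not_mem T.a hE hd]
  fff := by
    intro d
    by_cases hd : d ∈ Y
    · rw [restr_mem T.f hY hd, restr_mem T.f hY ((hY d).2 hd), restr_mem T.f hY ((hY _).2 ((hY d).2 hd)), T.fff]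
    · rw [restr_not_mem T.f hY hd, restr_not_mem T.f hY hd, restr_not_mem T.f hY hd]
  af := by
    intro d hd
    by_cases hd' : d ∈ Y
    · rw [restr_mem T.f hY hd'] at hd
      exact absurd hd (T.fne d)
    · exact restr_not_mem T.a hE (fun h => hd' (hEY h))

section
variable (T : Tri D) (Y E : Set D) (hY : ∀ d, T.f d ∈ Y ↔ d ∈ Y) (hE : ∀ d, T.a d ∈ E ↔ d ∈ E) (hEY : E ⊆ Y)

theorem subPart_R : (subPart T Y E hY hE hEY).R = Y := by
  ext d
  show restr T.f Y hY d ≠ d ↔ d ∈ Y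
  by_cases hd : d ∈ Y
  · rw [restr_mem T.f hY hd]
    exact ⟨fun _ => hd, fun _ => T.fne d⟩
  · rw [restr_not_mem T.f hY hd]
    exact ⟨fun h => absurd rfl h, fun h => absurd h hd⟩

theorem subPart_B : (subPart T Y E hY hE hEY).B = Y \ E := by
  ext d
  have hR := congrArg (fun A : Set D => d ∈ A) (subPart_R T Y E hY hE hEY)
  change (d ∈ (subPart T Y E hY hE hEY).R) = (d ∈ Y) at hR
  show (d ∈ (subPart T Y E hY hE hEY).R ∧ restr T.a E hE d = d) ↔ d ∈ Y ∧ d ∉ E
  rw [hR]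
  refine and_congr_right fun _ => ?_
  by_cases hd : d ∈ E
  · rw [restr_mem T.a hE hd]
    exact ⟨fun h => absurd h (T.ane d), fun h => absurd hd h⟩
  · rw [restr_not_mem T.a hE hd]
    exact ⟨fun _ => hd, fun _ => rfl⟩

theorem subPart_le : (subPart T Y E hY hE hEY).Le T := by
  refine ⟨fun d hd => ?_, fun d hd => ?_⟩
  · change restr T.f Y hY d ≠ d at hd
    show T.f d = restr T.f Y hY d
    by_cases h : d ∈ Y
    · rw [restr_mem T.f hY h]
    · exact absurd (restr_not_mem T.f hY h) hd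
  · change restr T.a E hE d ≠ d at hd
    show T.a d = restr T.a E hE d
    by_cases h : d ∈ E
    · rw [restr_mem T.a hE h]
    · exact absurd (restr_not_mem T.a hE h) hd

end

variable [Finite D]

/-- The hidden component of `x`. -/
def HC (S : Part D) (T : Tri D) (x : D) : Set D := {d | d ∈ S.X ∧ S.Hc T x d}

private theorem not_X {S : Part D} {d : D} : d ∉ S.X ↔ d ∈ S.R \ S.B := by
  show ¬ (d ∉ S.R ∨ d ∈ S.B) ↔ d ∈ S.R ∧ d ∉ S.B
  rw [not_or, not_not]

private theorem X_of {S : Part D} {d : D} (h : d ∉ S.R) : d ∈ S.X := Or.inl h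

private theorem X_of_B {S : Part D} {d : D} (h : d ∈ S.B) : d ∈ S.X := Or.inr h

/-- `HC` is closed under `Hc` -/
private theorem HC_closed {S : Part D} {T : Tri D} (h : S.Le T) {x d e : D} (hd : d ∈ S.HC T x)
    (hde : S.Hc T d e) : e ∈ S.HC T x :=
  ⟨(hc_mem h hde).1 hd.1, hc_trans hd.2 hde⟩

private theorem HC_iff {S : Part D} {T : Tri D} (h : S.Le T) {x d e : D} (hde : S.Hc T d e) :
    d ∈ S.HC T x ↔ e ∈ S.HC T x :=
  ⟨fun hd => HC_closed h hd hde, fun he => HC_closed h he (hc_symm hde)⟩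

theorem fill_hY {S : Part D} {T : Tri D} (h : S.Le T) (x d : D) :
    T.f d ∈ S.R ∪ S.HC T x ↔ d ∈ S.R ∪ S.HC T x := by
  by_cases hd : d ∈ S.R
  · exact ⟨fun _ => Or.inl hd, fun _ => Or.inl ((le_f_mem h d).2 hd)⟩
  · have hd' : T.f d ∉ S.R := fun h' => hd ((le_f_mem h d).1 h')
    have h1 := HC_iff h (x := x) (hc_f (S := S) (T := T) hd)
    constructor
    · rintro (h2 | h2)
      · exact absurd h2 hd'
      · exact Or.inr (h1.2 h2)
    · rintro (h2 | h2)
      · exact absurd h2 hd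
      · exact Or.inr (h1.1 h2)

theorem fill_hE {S : Part D} {T : Tri D} (h : S.Le T) (x d : D) :
    T.a d ∈ (S.R \ S.B) ∪ S.HC T x ↔ d ∈ (S.R \ S.B) ∪ S.HC T x := by
  by_cases hd : d ∈ S.X
  · have hd' : T.a d ∈ S.X := (X_a h d).2 hd
    have h1 := HC_iff h (x := x) (hc_a (S := S) (T := T) hd)
    constructor
    · rintro (h2 | h2)
      · exact absurd hd' (not_X.2 h2)
      · exact Or.inr (h1.2 h2)
    · rintro (h2 | h2)
      · exact absurd hd (not_X.2 h2)
      · exact Or.inr (h1.1 h2)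
  · have hd' : T.a d ∉ S.X := fun h' => hd ((X_a h d).1 h')
    exact ⟨fun _ => Or.inl (not_X.1 hd), fun _ => Or.inl (not_X.1 hd')⟩

/-- Reveal the hidden component of `x`. -/
noncomputable def fill (S : Part D) (T : Tri D) (h : S.Le T) (x : D) : Part D :=
  subPart T (S.R ∪ S.HC T x) ((S.R \ S.B) ∪ S.HC T x) (fill_hY h x) (fill_hE h x)
    (Set.union_subset_union_left _ Set.sdiff_subset)

section
variable {S : Part D} {T : Tri D} (h : S.Le T)

theorem fill_R (x : D) : (S.fill T h x).R = S.R ∪ S.HC T x := subPart_R _ _ _ _ _ _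

theorem fill_B (x : D) : (S.fill T h x).B = S.B \ S.HC T x := by
  have h1 : (S.fill T h x).B = (S.R ∪ S.HC T x) \ ((S.R \ S.B) ∪ S.HC T x) :=
    subPart_B _ _ _ _ _ _
  rw [h1]
  ext d
  constructor
  · rintro ⟨h2 | h2, h3⟩
    · refine ⟨?_, fun h4 => h3 (Or.inr h4)⟩
      by_contra h4
      exact h3 (Or.inl ⟨h2, h4⟩)
    · exact absurd (Or.inr h2) h3
  · rintro ⟨h2, h3⟩
    refine ⟨Or.inl h2.1, ?_⟩
    rintro (h4 | h4)
    · exact h4.2 h2
    · exact h3 h4

theorem fill_le (x : D) : (S.fill T h x).Le T := subPart_le _ _ _ _ _ _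

private theorem fill_f_mem (x : D) {d : D} (hd : d ∈ S.R ∪ S.HC T x) : (S.fill T h x).f d = T.f d :=
  restr_mem T.f (fill_hY h x) hd

private theorem fill_f_not (x : D) {d : D} (hd : d ∉ S.R ∪ S.HC T x) : (S.fill T h x).f d = d :=
  restr_not_mem T.f (fill_hY h x) hd

private theorem fill_a_mem (x : D) {d : D} (hd : d ∈ (S.R \ S.B) ∪ S.HC T x) :
    (S.fill T h x).a d = T.a d :=
  restr_mem T.a (fill_hE h x) hd

private theorem fill_a_not (x : D) {d : D} (hd : d ∉ (S.R \ S.B) ∪ S.HC T x) :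
    (S.fill T h x).a d = d :=
  restr_not_mem T.a (fill_hE h x) hd

theorem sub_fill (x : D) : S.Sub (S.fill T h x) := by
  refine ⟨fun d hd => ?_, fun d hd => ?_⟩
  · rw [fill_f_mem h x (Or.inl hd)]
    exact h.1 d hd
  · have hR : d ∈ S.R := fun h' => hd (S.af d h')
    have hB : d ∉ S.B := fun h' => hd h'.2
    rw [fill_a_mem h x (Or.inl ⟨hR, hB⟩)]
    exact h.2 d hd

theorem con_fill (hT : T.Conn) (hS : S.Con) (hR : S.R.Nonempty) (x : D) : (S.fill T h x).Con := by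
  have hsub := sub_fill h x
  have hRR : ∀ d ∈ S.R, ∀ e ∈ S.R, (S.fill T h x).Cn d e := fun d hd e he =>
    cn_sub hsub hd (hS d hd e he)
  have key : ∀ d e, S.Hc T d e → S.Hc T d e ∧ (d ∈ S.HC T x → (S.fill T h x).Cn d e) := by
    intro d e hde
    refine hc_ind (S := S) (T := T)
      (fun d e => S.Hc T d e ∧ (d ∈ S.HC T x → (S.fill T h x).Cn d e)) ?_ ?_ ?_ ?_ ?_ ?_ hde
    · exact fun d => ⟨hc_refl S T d, fun _ => cn_refl _ d⟩
    · rintro d e ⟨h1, h2⟩
      exact ⟨hc_symm h1, fun he => cn_symm (h2 ((HC_iff h h1).2 he))⟩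
    · rintro d e k ⟨h1, h2⟩ ⟨h3, h4⟩
      exact ⟨hc_trans h1 h3, fun hd => cn_trans (h2 hd) (h4 ((HC_iff h h1).1 hd))⟩
    · intro d hd
      refine ⟨hc_a hd, fun hd' => ?_⟩
      have h1 := cn_a (S.fill T h x) d
      rwa [fill_a_mem h x (Or.inr hd')] at h1
    · intro d hd
      refine ⟨hc_f hd, fun hd' => ?_⟩
      have h1 := cn_f (S.fill T h x) d
      rwa [fill_f_mem h x (Or.inr hd')] at h1
    · intro d hd
      exact ⟨hc_nx hd, fun _ => hRR d hd.1 _ ((S.nx_mem).2 hd).1⟩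
  have hR' : ∀ d ∈ (S.fill T h x).R, ∃ e ∈ S.R, (S.fill T h x).Cn d e := by
    intro d hd
    rw [fill_R] at hd
    rcases hd with hd | hd
    · exact ⟨d, hd, cn_refl _ d⟩
    · obtain ⟨e, he, hde⟩ := hc_meets h hT hR hd.1
      exact ⟨e, he.1, (key d e hde).2 hd⟩
  intro d hd e he
  obtain ⟨d', hd', h1⟩ := hR' d hd
  obtain ⟨e', he', h2⟩ := hR' e he
  exact cn_trans h1 (cn_trans (hRR d' hd' e' he') (cn_symm h2))

private theorem s_fill (x : D) {d : D} (hd : d ∈ S.R) (hd' : d ∉ S.HC T x) :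
    (S.fill T h x).s d = S.s d := by
  rw [s_apply, s_apply]
  by_cases hB : d ∈ S.B
  · rw [fill_a_not h x (fun h' => h'.elim (fun h1 => h1.2 hB) hd'), hB.2,
      fill_f_mem h x (Or.inl hd), h.1 d hd]
  · have h1 : S.a d ≠ d := fun h' => hB ⟨hd, h'⟩
    have h2 : S.a d ∈ S.R := (mem_R_a S d).2 hd
    rw [fill_a_mem h x (Or.inl ⟨hd, hB⟩), h.2 d h1, fill_f_mem h x (Or.inl h2), h.1 _ h2]

private theorem pow_R {z : D} (hz : z ∈ S.R) (i : ℕ) : (S.s ^ i) z ∈ S.R := by
  induction i with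
  | zero => exact hz
  | succ i ih =>
    rw [pow_succ', Equiv.Perm.mul_apply]
    exact (mem_R_s S _).2 ih

include h in
private theorem pow_not {x z : D} (hz : z ∈ S.B) (hz' : z ∉ S.HC T x) (i : ℕ) :
    (S.s ^ i) z ∉ S.HC T x := by
  intro hc
  have hR : (S.s ^ i) z ∈ S.R := pow_R hz.1 i
  by_cases hB : (S.s ^ i) z ∈ S.B
  · have h1 : (S.s ^ i) z ∈ S.hw z := by
      rw [mem_hw S hz]
      exact ⟨hB, ⟨(i : ℤ), by rw [zpow_natCast]⟩⟩
    exact hz' (HC_closed h hc (hc_symm (hc_hole hz h1)))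
  · exact (not_X.2 ⟨hR, hB⟩) hc.1

private theorem pow_fill (x : D) {z : D} (hz : z ∈ S.B) (hz' : z ∉ S.HC T x) (i : ℕ) :
    ((S.fill T h x).s ^ i) z = (S.s ^ i) z := by
  induction i with
  | zero => rfl
  | succ i ih =>
    rw [pow_succ', Equiv.Perm.mul_apply, ih, pow_succ', Equiv.Perm.mul_apply]
    exact s_fill h x (pow_R hz.1 i) (pow_not h hz hz' i)

private theorem B_fill_pow (x : D) {z : D} (hz : z ∈ S.B) (hz' : z ∉ S.HC T x) (i : ℕ) :
    ((S.fill T h x).s ^ i) z ∈ (S.fill T h x).B ↔ (S.s ^ i) z ∈ S.B := by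
  rw [pow_fill h x hz hz', fill_B]
  exact ⟨fun h1 => h1.1, fun h1 => ⟨h1, pow_not h hz hz' i⟩⟩

private theorem nx_fill (x : D) {z : D} (hz : z ∈ S.B) (hz' : z ∉ S.HC T x) :
    (S.fill T h x).nx z = S.nx z ∧ S.nx z ∉ S.HC T x := by
  obtain ⟨j, h1, h2, h3⟩ := ret_spec S.s hz
  have hzB : z ∈ (S.fill T h x).B := by
    rw [fill_B]
    exact ⟨hz, hz'⟩
  have h4 : S.nx z = (S.s ^ (j + 1)) z := h1
  have h5 : (S.s ^ (j + 1)) z ∈ S.B := by
    rw [← h4]
    exact h2
  have h6 : (S.fill T h x).nx z = ((S.fill T h x).s ^ (j + 1)) z :=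
    ret_eq (S.fill T h x).s hzB ((B_fill_pow h x hz hz' (j + 1)).2 h5)
      (fun i hi hc => h3 i hi ((B_fill_pow h x hz hz' (i + 1)).1 hc))
  refine ⟨?_, ?_⟩
  · rw [h6, pow_fill h x hz hz', h4]
  · rw [h4]
    exact pow_not h hz hz' (j + 1)

private theorem nx_pow_fill (x : D) {z : D} (hz : z ∈ S.B) (hz' : z ∉ S.HC T x) (i : ℕ) :
    ((S.fill T h x).nx ^ i) z = (S.nx ^ i) z ∧ (S.nx ^ i) z ∈ S.B ∧ (S.nx ^ i) z ∉ S.HC T x := by
  induction i with
  | zero => exact ⟨rfl, hz, hz'⟩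
  | succ i ih =>
    obtain ⟨h1, h2, h3⟩ := ih
    rw [pow_succ', Equiv.Perm.mul_apply, h1, pow_succ', Equiv.Perm.mul_apply]
    obtain ⟨h4, h5⟩ := nx_fill h x h2 h3
    exact ⟨h4, (S.nx_mem).2 h2, h5⟩

private theorem same_nat {σ : Equiv.Perm D} {u v : D} : σ.SameCycle u v ↔ ∃ n : ℕ, (σ ^ n) u = v := by
  constructor
  · intro h
    obtain ⟨n, hn⟩ := h.exists_pow_eq'
    exact ⟨n, hn.2⟩
  · rintro ⟨n, hn⟩
    exact ⟨(n : ℤ), by rw [zpow_natCast]; exact hn⟩

private theorem per_fill (x : D) {z : D} (hz : z ∈ S.B) (hz' : z ∉ S.HC T x) :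
    (S.fill T h x).per z = S.per z := by
  have h1 : (S.fill T h x).hole z = S.hole z := by
    ext e
    constructor
    · rintro ⟨h2, h3⟩
      obtain ⟨n, hn⟩ := same_nat.1 h3
      rw [pow_fill h x hz hz'] at hn
      rw [fill_B] at h2
      exact ⟨h2.1, same_nat.2 ⟨n, hn⟩⟩
    · rintro ⟨h2, h3⟩
      obtain ⟨n, hn⟩ := same_nat.1 h3
      refine ⟨?_, same_nat.2 ⟨n, by rw [pow_fill h x hz hz']; exact hn⟩⟩
      rw [fill_B]
      refine ⟨h2, ?_⟩
      rw [← hn]
      exact pow_not h hz hz' n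
  unfold per
  rw [h1]

theorem hw_fill (x : D) {z : D} (hz : z ∈ S.B) (hz' : z ∉ S.HC T x) : (S.fill T h x).hw z = S.hw z := by
  unfold hw
  rw [per_fill h x hz hz']
  exact List.map_congr_left fun i _ => (nx_pow_fill h x hz hz' i).1

theorem X_fill (x : D) : (S.fill T h x).X = S.X \ S.HC T x := by
  ext d
  show (d ∉ (S.fill T h x).R ∨ d ∈ (S.fill T h x).B) ↔ (d ∉ S.R ∨ d ∈ S.B) ∧ d ∉ S.HC T x
  rw [fill_R, fill_B]
  constructor
  · rintro (h1 | h1)
    · exact ⟨Or.inl fun h2 => h1 (Or.inl h2), fun h2 => h1 (Or.inr h2)⟩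
    · exact ⟨Or.inr h1.1, h1.2⟩
  · rintro ⟨h1 | h1, h2⟩
    · exact Or.inl fun h3 => h3.elim h1 h2
    · exact Or.inr ⟨h1, h2⟩

theorem hc_fill (x : D) {d e : D} (hd : d ∈ (S.fill T h x).X) (he : e ∈ (S.fill T h x).X) :
    (S.fill T h x).Hc T d e ↔ S.Hc T d e := by
  have hX := X_fill h x
  have hle := fill_le h x
  have _ := he
  constructor
  · intro hde
    refine (hc_ind (S := S.fill T h x) (T := T)
      (fun d e => (S.fill T h x).Hc T d e ∧ (d ∈ (S.fill T h x).X → S.Hc T d e)) ?_ ?_ ?_ ?_ ?_ ?_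
      hde).2 hd
    · exact fun d => ⟨hc_refl _ T d, fun _ => hc_refl S T d⟩
    · rintro d e ⟨h1, h2⟩
      exact ⟨hc_symm h1, fun he => hc_symm (h2 ((hc_mem hle h1).2 he))⟩
    · rintro d e k ⟨h1, h2⟩ ⟨h3, h4⟩
      exact ⟨hc_trans h1 h3, fun hd => hc_trans (h2 hd) (h4 ((hc_mem hle h1).1 hd))⟩
    · intro d hd
      refine ⟨hc_a hd, fun _ => ?_⟩
      rw [hX] at hd
      exact hc_a hd.1
    · intro d hd
      refine ⟨hc_f hd, fun _ => ?_⟩
      rw [fill_R] at hd
      exact hc_f fun h1 => hd (Or.inl h1)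
    · intro d hd
      refine ⟨hc_nx hd, fun _ => ?_⟩
      rw [fill_B] at hd
      rw [(nx_fill h x hd.1 hd.2).1]
      exact hc_nx hd.1
  · intro hde
    have hXiff : ∀ {d e : D}, S.Hc T d e → (d ∈ (S.fill T h x).X ↔ e ∈ (S.fill T h x).X) := by
      intro d e h1
      rw [hX]
      exact and_congr (hc_mem h h1) (not_congr (HC_iff h h1))
    refine (hc_ind (S := S) (T := T)
      (fun d e => S.Hc T d e ∧ (d ∈ (S.fill T h x).X → (S.fill T h x).Hc T d e)) ?_ ?_ ?_ ?_ ?_ ?_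
      hde).2 hd
    · exact fun d => ⟨hc_refl S T d, fun _ => hc_refl _ T d⟩
    · rintro d e ⟨h1, h2⟩
      exact ⟨hc_symm h1, fun he => hc_symm (h2 ((hXiff h1).2 he))⟩
    · rintro d e k ⟨h1, h2⟩ ⟨h3, h4⟩
      exact ⟨hc_trans h1 h3, fun hd => hc_trans (h2 hd) (h4 ((hXiff h1).1 hd))⟩
    · exact fun d hd => ⟨hc_a hd, fun hd' => hc_a hd'⟩
    · intro d hd
      refine ⟨hc_f hd, fun hd' => hc_f ?_⟩
      rw [hX] at hd'
      rw [fill_R]
      exact fun h1 => h1.elim hd hd'.2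
    · intro d hd
      refine ⟨hc_nx hd, fun hd' => ?_⟩
      rw [hX] at hd'
      have h1 : d ∈ (S.fill T h x).B := by
        rw [fill_B]
        exact ⟨hd, hd'.2⟩
      rw [← (nx_fill h x hd hd'.2).1]
      exact hc_nx h1

theorem fill_eq_of {S' : Part D} (x : D) (h1 : S.Sub S') (h2 : S'.Le T) (hR : S'.R = S.R ∪ S.HC T x)
    (hB : S'.B = S.B \ S.HC T x) : S' = S.fill T h x := by
  have _ := h1
  have hE : ∀ d, d ∈ (S.R \ S.B) ∪ S.HC T x ↔ S'.a d ≠ d := by
    intro d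
    constructor
    · intro hd ha
      have hdR : d ∈ S'.R := by
        rw [hR]
        exact hd.elim (fun h3 => Or.inl h3.1) Or.inr
      have hdB : d ∈ S'.B := ⟨hdR, ha⟩
      rw [hB] at hdB
      exact hd.elim (fun h3 => h3.2 hdB.1) hdB.2
    · intro ha
      have hdR : d ∈ S'.R := fun h' => ha (S'.af d h')
      have hdB : d ∉ S'.B := fun h' => ha h'.2
      rw [hB] at hdB
      rw [hR] at hdR
      by_cases hC : d ∈ S.HC T x
      · exact Or.inr hC
      · rcases hdR with h3 | h3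
        · exact Or.inl ⟨h3, fun h4 => hdB ⟨h4, hC⟩⟩
        · exact absurd h3 hC
  refine ext' (Equiv.ext fun d => ?_) (Equiv.ext fun d => ?_)
  · by_cases hd : d ∈ (S.R \ S.B) ∪ S.HC T x
    · rw [fill_a_mem h x hd]
      exact (h2.2 d ((hE d).1 hd)).symm
    · rw [fill_a_not h x hd]
      by_contra hc
      exact hd ((hE d).2 hc)
  · by_cases hd : d ∈ S.R ∪ S.HC T x
    · rw [fill_f_mem h x hd]
      have hdR : d ∈ S'.R := by
        rw [hR]
        exact hd
      exact (h2.1 d hdR).symm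
    · rw [fill_f_not h x hd]
      by_contra hc
      have hdR : d ∈ S'.R := hc
      rw [hR] at hdR
      exact hd hdR

end

/-- The hidden component behind the hole of `x` is a disc with `a` faces. -/
def IsDisc (S : Part D) (T : Tri D) (x : D) (a : ℕ) : Prop :=
  x ∈ S.B ∧ (∀ d ∈ S.B, S.Hc T x d → d ∈ S.hw x) ∧ (S.HC T x \ S.B).ncard = 3 * a ∧
    ∀ h : S.Le T, (S.fill T h x).gen12 = S.gen12

end Part
end SYS
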