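import Pool.Agent.GNH.Htp

/-!
# SYS-Lib-Flat: flat labellings of the darts by elements of a group, fundamental group
-/

namespace SYS

open Classical SST GNH

variable {D : Type}

/-- Flat labelling. -/
structure Flat {G : Type} [Group G] (T : Tri D) (l : D → G) : Prop where
  inv : ∀ d, l (T.a d) = (l d)⁻¹
  face : ∀ d, l d * l (T.f d) * l (T.f (T.f d)) = 1

/-- Product of the labels along a list of darts. -/
def hol {G : Type} [Group G] (l : D → G) (c : List D) : G := (c.map l).prod

section
variable {G : Type} [Group G] (l : D → G)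

theorem hol_nil : hol l [] = 1 := rfl

theorem hol_cons (d : D) (c : List D) : hol l (d :: c) = l d * hol l c := by
  simp [hol]

theorem hol_append (c c' : List D) : hol l (c ++ c') = hol l c * hol l c' := by
  simp [hol]

variable {l}

theorem Flat.hol_rev {T : Tri D} (h : Flat T l) (c : List D) : hol l (c.map T.a).reverse = (hol l c)⁻¹ := by
  induction c with
  | nil => simp [hol]
  | cons d c ih =>
    rw [List.map_cons, List.reverse_cons, hol_append, ih, hol_cons, hol_cons, hol_nil, h.inv,
      mul_one, mul_inv_rev]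

private theorem fl_step {T : Tri D} (h : Flat T l) {x y : List D} (h' : T.Step x y) :
    hol l x = hol l y := by
  cases h' with
  | spur u v d =>
    rw [hol_append, hol_append, hol_append, hol_cons, hol_cons, hol_nil, h.inv, mul_one,
      mul_inv_cancel, mul_one]
  | face u v d =>
    have h1 := h.face d
    rw [hol_append, hol_append, hol_append, hol_cons, hol_cons, hol_cons, hol_nil, mul_one,
      ← mul_assoc (l d), h1, mul_one]

theorem Flat.hp {T : Tri D} (h : Flat T l) {u v : T.V} {x y : List D} (h' : Hp T u v x y) : hol l x = hol l y := by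
  induction h' with
  | rel x y h1 => exact fl_step h h1.2.2
  | refl x => rfl
  | symm x y _ ih => exact ih.symm
  | trans x y z _ _ ih1 ih2 => exact ih1.trans ih2

theorem Flat.nullHtp {T : Tri D} (h : Flat T l) {c : List D} (h' : T.NullHtp c) : hol l c = 1 := by
  have key : ∀ x y : List D,
      Relation.EqvGen (fun x y => T.Closed x ∧ T.Closed y ∧ T.Step x y) x y → hol l x = hol l y := by
    intro x y hxy
    induction hxy with
    | rel x y h1 => exact fl_step h h1.2.2
    | refl x => rfl
    | symm x y _ ih => exact ih.symm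
    | trans x y z _ _ ih1 ih2 => exact ih1.trans ih2
  exact key c [] h'

end

/-- Loops at `v`. -/
def Loops (T : Tri D) (v : T.V) : Type := {c : List D // T.IsWalk v c v}

/-- Homotopy of loops. -/
def loopSetoid (T : Tri D) (v : T.V) : Setoid (Loops T v) where
  r x y := Hp T v v x.1 y.1
  iseqv := ⟨fun x => Relation.EqvGen.refl x.1, fun h => Relation.EqvGen.symm _ _ h,
    fun h h' => Relation.EqvGen.trans _ _ _ h h'⟩

/-- Fundamental group. -/
def Pi (T : Tri D) (v : T.V) : Type := Quotient (loopSetoid T v)

private theorem fl_dbl (T : Tri D) (c : List D) : ((c.map T.a).reverse.map T.a).reverse = c := by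
  rw [List.map_reverse, List.reverse_reverse, List.map_map]
  have : (T.a : D → D) ∘ T.a = id := by
    funext d
    exact T.aa d
  rw [this, List.map_id]

private theorem fl_revl (T : Tri D) {u v : T.V} {x : List D} (h : T.IsWalk u x v) :
    Hp T v v ((x.map T.a).reverse ++ x) [] := by
  have h1 := hp_rev T (T.walk_rev h)
  rw [fl_dbl] at h1
  exact h1

private theorem fl_rev {T : Tri D} {u v : T.V} {x y : List D} (hx : T.IsWalk u x v)
    (hy : T.IsWalk u y v) (h : Hp T u v x y) :
    Hp T v u (x.map T.a).reverse (y.map T.a).reverse := by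
  have h1 : Hp T v u ((x.map T.a).reverse ++ (y ++ (y.map T.a).reverse) ++ [])
      ((x.map T.a).reverse ++ [] ++ []) :=
    Hp.congr (T.walk_rev hx) (show T.IsWalk u [] u from rfl) (hp_rev T hy)
  have h2 : Hp T v u ((x.map T.a).reverse ++ x ++ (y.map T.a).reverse)
      ((x.map T.a).reverse ++ y ++ (y.map T.a).reverse) :=
    Hp.congr (T.walk_rev hx) (T.walk_rev hy) h
  have h3 : Hp T v u ([] ++ ((x.map T.a).reverse ++ x) ++ (y.map T.a).reverse)
      ([] ++ [] ++ (y.map T.a).reverse) :=
    Hp.congr (show T.IsWalk v [] v from rfl) (T.walk_rev hy) (fl_revl T hx)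
  simp only [List.append_nil, List.nil_append, List.append_assoc] at h1 h2 h3
  exact Relation.EqvGen.trans _ _ _ (Relation.EqvGen.symm _ _ h1)
    (Relation.EqvGen.trans _ _ _ (Relation.EqvGen.symm _ _ h2) h3)

private def fl_mk (T : Tri D) (v : T.V) (x : List D) (hx : T.IsWalk v x v) : Pi T v :=
  Quotient.mk (loopSetoid T v) ⟨x, hx⟩

private def fl_mul (T : Tri D) (v : T.V) : Pi T v → Pi T v → Pi T v :=
  Quotient.map₂ (fun x y : Loops T v => (⟨x.1 ++ y.1, T.walk_append x.2 y.2⟩ : Loops T v)) (by
    intro x x' h y y' h'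
    have h1 : Hp T v v ([] ++ x.1 ++ y.1) ([] ++ x'.1 ++ y.1) :=
      Hp.congr (show T.IsWalk v [] v from rfl) y.2 h
    have h2 : Hp T v v (x'.1 ++ y.1 ++ []) (x'.1 ++ y'.1 ++ []) :=
      Hp.congr x'.2 (show T.IsWalk v [] v from rfl) h'
    simp only [List.append_nil, List.nil_append] at h1 h2
    exact Relation.EqvGen.trans _ _ _ h1 h2)

private def fl_inv (T : Tri D) (v : T.V) : Pi T v → Pi T v :=
  Quotient.map (fun x : Loops T v => (⟨(x.1.map T.a).reverse, T.walk_rev x.2⟩ : Loops T v)) (by
    intro x x' h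
    exact fl_rev x.2 x'.2 h)

noncomputable instance (T : Tri D) (v : T.V) : Group (Pi T v) := by
  letI : Mul (Pi T v) := ⟨fl_mul T v⟩
  letI : One (Pi T v) := ⟨fl_mk T v [] rfl⟩
  letI : Inv (Pi T v) := ⟨fl_inv T v⟩
  refine Group.ofLeftAxioms ?_ ?_ ?_
  · intro p q r
    induction p using Quotient.inductionOn with
    | h x =>
    induction q using Quotient.inductionOn with
    | h y =>
    induction r using Quotient.inductionOn with
    | h z =>
    refine Quotient.sound ?_
    show Hp T v v (x.1 ++ y.1 ++ z.1) (x.1 ++ (y.1 ++ z.1))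
    rw [List.append_assoc]
    exact Relation.EqvGen.refl _
  · intro p
    induction p using Quotient.inductionOn with
    | h x =>
    refine Quotient.sound ?_
    exact Relation.EqvGen.refl _
  · intro p
    induction p using Quotient.inductionOn with
    | h x =>
    refine Quotient.sound ?_
    exact fl_revl T x.2

private theorem fl_eq (T : Tri D) (v : T.V) {x y : List D} (hx : T.IsWalk v x v)
    (hy : T.IsWalk v y v) : fl_mk T v x hx = fl_mk T v y hy ↔ Hp T v v x y :=
  ⟨fun h => Quotient.exact h, fun h => Quotient.sound h⟩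

/-- A flat labelling which detects contractibility. -/
theorem exists_flat (T : Tri D) (hT : T.Conn) [Nonempty D] : ∃ (G : Type) (_ : Group G) (l : D → G), Flat T l ∧
    ∀ c : List D, T.Closed c → (hol l c = 1 ↔ T.NullHtp c) := by
  obtain ⟨d0⟩ := (inferInstance : Nonempty D)
  have hreach : ∀ w : T.V, ∃ P : List D, T.IsWalk (T.tl d0) P w := by
    have hS : {d : D | ∃ P : List D, T.IsWalk (T.tl d0) P (T.tl d)} = Set.univ := by
      refine hT _ ⟨d0, [], rfl⟩ ?_
      rintro d ⟨P, hP⟩
      have h1 : T.IsWalk (T.tl d0) (P ++ [d]) (T.hd d) := T.walk_append hP (T.walk_single d)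
      refine ⟨⟨P ++ [d], h1⟩, ⟨P ++ [d], ?_⟩⟩
      rw [T.tl_f]
      exact h1
    intro w
    induction w using Quotient.inductionOn with
    | h d =>
    have h2 : d ∈ {d : D | ∃ P : List D, T.IsWalk (T.tl d0) P (T.tl d)} := by
      rw [hS]
      trivial
    exact h2
  choose P hP using hreach
  have hR : ∀ w, T.IsWalk w ((P w).map T.a).reverse (T.tl d0) := fun w => T.walk_rev (hP w)
  have hw : ∀ {u w : T.V} {c : List D}, T.IsWalk u c w →
      T.IsWalk (T.tl d0) (P u ++ c ++ ((P w).map T.a).reverse) (T.tl d0) := fun h =>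
    T.walk_append (T.walk_append (hP _) h) (hR _)
  have key : ∀ (c : List D) (u w : T.V) (h : T.IsWalk u c w),
      hol (fun d => fl_mk T (T.tl d0) _ (hw (T.walk_single d))) c = fl_mk T (T.tl d0) _ (hw h) := by
    intro c
    induction c with
    | nil =>
      intro u w h
      have e : u = w := h
      subst e
      rw [hol_nil]
      refine (fl_eq T (T.tl d0) _ _).2 ?_
      have h1 := hp_rev T (hP u)
      rw [List.append_nil]
      exact Relation.EqvGen.symm _ _ h1
    | cons d c ih =>
      intro u w h
      rw [hol_cons, ih _ _ h.2]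
      have e : T.tl d = u := h.1
      subst e
      refine (fl_eq T (T.tl d0) _ _).2 ?_
      have h1 := Hp.congr (T.walk_append (hP (T.tl d)) (T.walk_single d)) (T.walk_append h.2 (hR w))
        (fl_revl T (hP (T.hd d)))
      have e1 : P (T.tl d) ++ [d] ++ (((P (T.hd d)).map T.a).reverse ++ P (T.hd d)) ++
          (c ++ ((P w).map T.a).reverse) = P (T.tl d) ++ [d] ++ ((P (T.hd d)).map T.a).reverse ++
          (P (T.hd d) ++ c ++ ((P w).map T.a).reverse) := by
        simp only [List.append_assoc]
      have e2 : P (T.tl d) ++ [d] ++ [] ++ (c ++ ((P w).map T.a).reverse) =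
          P (T.tl d) ++ d :: c ++ ((P w).map T.a).reverse := by
        simp
      rw [e1, e2] at h1
      exact h1
  have key2 : ∀ (c : List D) (u : T.V) (h : T.IsWalk u c u),
      hol (fun d => fl_mk T (T.tl d0) _ (hw (T.walk_single d))) c = 1 ↔ Hp T u u c [] := by
    intro c u h
    rw [key c u u h]
    refine (fl_eq T (T.tl d0) _ _).trans ⟨fun h1 => ?_, fun h1 => ?_⟩
    · have h2 := Hp.congr (hR u) (hP u) h1
      rw [List.append_nil] at h2
      have h3 := Relation.EqvGen.trans _ _ _ h2 (fl_revl T (hP u))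
      have h4 : Hp T u u (((P u).map T.a).reverse ++ P u ++ c ++
          (((P u).map T.a).reverse ++ P u)) (c ++ (((P u).map T.a).reverse ++ P u)) := by
        have h5 := Hp.congr (show T.IsWalk u [] u from rfl)
          (T.walk_append h (T.walk_append (hR u) (hP u))) (fl_revl T (hP u))
        have e1 : [] ++ (((P u).map T.a).reverse ++ P u) ++ (c ++ (((P u).map T.a).reverse ++ P u)) =
            ((P u).map T.a).reverse ++ P u ++ c ++ (((P u).map T.a).reverse ++ P u) := by
          simp only [List.append_assoc, List.nil_append]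
        rw [e1] at h5
        exact h5
      have h6 : Hp T u u (c ++ (((P u).map T.a).reverse ++ P u)) c := by
        have h7 := Hp.congr h (show T.IsWalk u [] u from rfl) (fl_revl T (hP u))
        simp only [List.append_nil] at h7
        exact h7
      have e2 : ((P u).map T.a).reverse ++ (P u ++ c ++ ((P u).map T.a).reverse) ++ P u =
          ((P u).map T.a).reverse ++ P u ++ c ++ (((P u).map T.a).reverse ++ P u) := by
        simp only [List.append_assoc]
      rw [e2] at h3
      exact Relation.EqvGen.trans _ _ _ (Relation.EqvGen.symm _ _ h6)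
        (Relation.EqvGen.trans _ _ _ (Relation.EqvGen.symm _ _ h4) h3)
    · have h2 := Hp.congr (hP u) (hR u) h1
      rw [List.append_nil] at h2
      exact Relation.EqvGen.trans _ _ _ h2 (hp_rev T (hP u))
  refine ⟨Pi T (T.tl d0), inferInstance, fun d => fl_mk T (T.tl d0) _ (hw (T.walk_single d)),
    ⟨fun d => ?_, fun d => ?_⟩, ?_⟩
  · refine eq_inv_of_mul_eq_one_right ?_
    have h1 : T.IsWalk (T.tl d) [d, T.a d] (T.tl d) := ⟨rfl, rfl, T.hd_a d⟩
    have h2 := (key2 [d, T.a d] (T.tl d) h1).2 (hp_rev T (T.walk_single d))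
    rw [hol_cons, hol_cons, hol_nil, mul_one] at h2
    exact h2
  · have h1 : T.IsWalk (T.tl d) [d, T.f d, T.f (T.f d)] (T.tl d) :=
      ⟨rfl, T.tl_f _, T.tl_f _, T.hd_ff _⟩
    have h3 : Hp T (T.tl d) (T.tl d) [d, T.f d, T.f (T.f d)] [] :=
      Relation.EqvGen.symm _ _ (Relation.EqvGen.rel _ _ ⟨rfl, h1, Tri.Step.face (T := T) [] [] d⟩)
    have h2 := (key2 _ (T.tl d) h1).2 h3
    rw [hol_cons, hol_cons, hol_cons, hol_nil, mul_one, ← mul_assoc] at h2
    exact h2
  · rintro c ⟨u, hu⟩
    exact (key2 c u hu).trans ⟨fun h => nullHtp_of_hp h, fun h => hp_of_nullHtp hu h⟩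

end SYS
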