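import Pool.Agent.SYS.Lib.Rch
import Pool.Agent.SYS.Lib.HidC
import Pool.Agent.SYS.Lib.HidD

/-!
# SYS-Lib-Alt: what happens at the gate `x` of the region `S` of a triangulation `T` (hidden part connected)

`Stt`: a planar step.  `NSt u v`: the gate is glued inside its hole, the hidden part stays connected.  `Sep u v`: the hidden part is disconnected and none of the two sides is a disc.  `Mrg`: glued to another hole.
The only other possibility is that both sides are discs (`κ = g`, no other hole).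

PLAN.
* `disc_iff`: `DiscFill` of the hole word of `z` below `T` ↔ `IsDisc`: (→) `fil_le_hc`: the hidden component is the filled part; its only hole is `hole z`; `gen12` of the filling is unchanged: `gen12 = 12 ncomp - 6 ncyc - 3 |B| + 7 |R| - 6 |D|`: `ncomp` drops by `3a` (`fil_cn`), `ncyc`:
  `inn_eq`, `ncycOn_R`, `hl_ncyc` (`fil_hl`): `ncyc' = ncyc + V - 1 - 3a`, `|B'| = |B| - k`, `|R'| = |R| + 3a`: the change is `3a - 6V + 6 + 3k = 0`.  (←) the same computation gives `V` (`fil_of_hc`).
* `alt`: `peel`: `T.a x ∉ R`: `St T` (`T.f (T.a x) ∉ R`, ... by `le_f_mem`), `HConn` by `hc_face`.  `T.a x ∈ B` in another hole: `Mrg`.  Same hole: `mem_hw`: `hw x = x :: (u ++ T.a x :: v)` (`List.append_of_mem`).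
  If `u = v = []`: `X = {x, T.a x} ∪ ...`: the component of `x` is `{x, T.a x}`, so `HConn` gives `X = {x, T.a x}`, `l = []`, `F = 0` (a hidden face dart would be in `X`), and `eul`, `typ_le`-type arithmetic: `T.V` has `inn + 2`
  elements.. `κ = g`: excluded.  If `u = []`, `v ≠ []`: `R 0 0`: `HConn (glue)` by `hc_glue_split` (no `z ∈ u`).  `v = []`, `u ≠ []`: `L 0 0`.  Both nonempty: if `HConn (glue) T`: `NSt`.  Otherwise (`hc_glue_split`) the hidden part of `S₁ = glue` has exactly the two components of the first of `u` and of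
  the first of `v`: if the `u` side is a disc (`IsDisc`, `disc_iff`): step `R |u| a` with `S' = fill` (`HConn`: the rest is the component of `v`: `hc_fill`); if the `v` side is a disc: step `L |v| a`; else `Sep`.
* `st_excl`: two different planar steps: `T` against `L/R`: `T.a x ∉ S.R` / `∈ S.R`.  `R k a`, `R k' a'`: `k = |u|`, and `a = a'` by `fil_unique`.  `R k a`, `L k' a'` both with `HConn`: both sides are discs; the hidden part of the region with both
  discs filled is empty: `l = []`, its number of inner vertices is `inn + V + V'`; `eul` and `T.Genus` give `κ = g`.  Also the cases `k = 0` or `k' = 0`.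
* `not_*`: in the planar cases `HConn (glue) T` fails if `u, v ≠ []` (`fil_le_hc`: the darts of `u` are a component); etc.
-/

namespace SYS
namespace Part

open Classical SST

section
variable {D : Type} [Finite D]

private theorem alt_X_mono {S S' : Part D} (h : S.Sub S') {d : D} (hd : d ∈ S'.X) : d ∈ S.X := by
  by_contra hn
  have h1 : d ∈ S.R := by
    by_contra h1
    exact hn (Or.inl h1)
  have h2 : d ∉ S.B := fun h2 => hn (Or.inr h2)
  have h3 : S.a d ≠ d := fun h3 => h2 ⟨h1, h3⟩
  have h4 : S'.a d = S.a d := h.2 d h3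
  rcases hd with hd | hd
  · exact hd (h.R_sub h1)
  · exact h3 (h4 ▸ hd.2)

private theorem alt_img {α β γ : Type} (X : Set α) (f : α → β) (g : α → γ)
    (h : ∀ a ∈ X, ∀ b ∈ X, f a = f b ↔ g a = g b) : (f '' X).ncard = (g '' X).ncard := by
  have h1 : (Prod.fst '' ((fun a => (f a, g a)) '' X)).ncard = ((fun a => (f a, g a)) '' X).ncard := by
    apply Set.ncard_image_of_injOn
    rintro _ ⟨a, ha, rfl⟩ _ ⟨b, hb, rfl⟩ hab
    exact Prod.ext hab ((h a ha b hb).1 hab)
  have h2 : (Prod.snd '' ((fun a => (f a, g a)) '' X)).ncard = ((fun a => (f a, g a)) '' X).ncard := by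
    apply Set.ncard_image_of_injOn
    rintro _ ⟨a, ha, rfl⟩ _ ⟨b, hb, rfl⟩ hab
    exact Prod.ext ((h a ha b hb).2 hab) hab
  rw [Set.image_image] at h1 h2
  exact h1.trans h2.symm

private theorem alt_cn_eq {S : Part D} {d e : D} (h : S.Cn d e) : d ∉ S.R ∨ e ∉ S.R → d = e := by
  unfold Cn at h
  induction h with
  | rel a b hab =>
    intro h1
    have h2 : a ∉ S.R := by
      rcases h1 with h1 | h1
      · exact h1
      · rcases hab with hab | hab
        · rw [hab, S.mem_R_a] at h1
          exact h1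
        · rw [hab, S.mem_R_f] at h1
          exact h1
    have h3 : S.f a = a := by
      by_contra h3
      exact h2 h3
    rcases hab with hab | hab
    · rw [hab, S.af a h3]
    · rw [hab, h3]
  | refl a => intro _; rfl
  | symm a b _ ih => intro h1; exact (ih h1.symm).symm
  | trans a b c _ _ ih1 ih2 =>
    intro h1
    rcases h1 with h1 | h1
    · have e1 := ih1 (Or.inl h1)
      exact e1.trans (ih2 (Or.inl (e1 ▸ h1)))
    · have e1 := ih2 (Or.inr h1)
      exact (ih1 (Or.inr (e1 ▸ h1))).trans e1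

private theorem alt_ncomp (S : Part D) :
    S.ncomp = ((fun d => (Quotient.mk S.cnSetoid d)) '' S.R).ncard + S.Rᶜ.ncard := by
  unfold ncomp
  rw [← Set.ncard_univ]
  have h1 : (Set.univ : Set (Quotient S.cnSetoid)) =
      (fun d => Quotient.mk S.cnSetoid d) '' S.R ∪ (fun d => Quotient.mk S.cnSetoid d) '' S.Rᶜ := by
    rw [← Set.image_union, Set.union_compl_self, Set.image_univ]
    exact (Set.range_eq_univ.2 Quotient.mk_surjective).symm
  rw [h1, Set.ncard_union_eq]
  · congr 1
    apply Set.ncard_image_of_injOn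
    intro d hd e _ hde
    exact alt_cn_eq (Quotient.exact hde) (Or.inl hd)
  · rw [Set.disjoint_left]
    rintro _ ⟨d, hd, rfl⟩ ⟨e, he, hde⟩
    exact he ((cn_mem_R (Quotient.exact hde)).2 hd)

private theorem alt_len {α : Type} {l : List α} (h : l.Nodup) : ({d | d ∈ l} : Set α).ncard = l.length := by
  have h1 : ({d | d ∈ l} : Set α) = ((l.toFinset : Finset α) : Set α) := by
    ext d
    simp
  rw [h1, Set.ncard_coe_finset, List.toFinset_card_of_nodup h]

private theorem alt_hun {S : Part D} {z : D} (hz : z ∈ S.B) : S.HUn {d | d ∈ S.hw z} := by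
  constructor
  · intro d hd
    exact ((S.mem_hw hz).1 hd).1
  · intro d hd e he hde
    exact (S.mem_hw hz).2 ⟨he, ((S.mem_hw hz).1 hd).2.trans hde⟩

private theorem alt_self {S : Part D} {z : D} (hz : z ∈ S.B) : z ∈ S.hw z :=
  (S.mem_hw hz).2 ⟨hz, Equiv.Perm.SameCycle.refl _ _⟩

/-- volumes -/
private theorem alt_vol {S S' : Part D} {H : Set D} {F V : ℕ} (h : S.FillBy S' H F V) :
    (S'.R \ S.R).ncard = 3 * F ∧ S'.Rᶜ.ncard + 3 * F = S.Rᶜ.ncard := by
  have h1 := Set.ncard_sdiff_add_ncard_of_subset h.sub.R_sub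
  have h2 := h.R
  have h3 := Set.ncard_add_ncard_compl S.R
  have h4 := Set.ncard_add_ncard_compl S'.R
  constructor <;> omega

private theorem alt_genfill {S S' : Part D} {z : D} (hz : z ∈ S.B) {F V : ℕ} (h : S.FillBy S' {d | d ∈ S.hw z} F V) :
    S'.gen12 = S.gen12 + (3 * F - 6 * V + 6 + 3 * (S.hw z).length) := by
  have hH := alt_hun hz
  have hne : ({d | d ∈ S.hw z} : Set D).Nonempty := ⟨z, alt_self hz⟩
  obtain ⟨hv1, hv2⟩ := alt_vol h
  -- the complement of S.R is preserved by S'.f
  have hf : ∀ d, d ∈ S.R → S'.f d = S.f d := fun d hd => h.sub.1 d hd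
  -- closure of the new part under S'.a
  have ha : ∀ d ∈ (S'.R \ S.R) ∪ {d | d ∈ S.hw z}, S'.a d ∈ (S'.R \ S.R) ∪ {d | d ∈ S.hw z} := by
    intro d hd
    have hdR : d ∈ S'.R := by
      rcases hd with hd | hd
      · exact hd.1
      · exact h.sub.R_sub (S.B_sub_R (hH.1 hd))
    have hdB : d ∉ S'.B := by
      rw [h.B]
      rintro ⟨hb, hn⟩
      rcases hd with hd | hd
      · exact hd.2 (S.B_sub_R hb)
      · exact hn hd
    by_contra hn
    have he : S'.a d ∈ S'.R := (S'.mem_R_a d).2 hdR
    have he1 : S'.a d ∈ S.R := by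
      by_contra he1
      exact hn (Or.inl ⟨he, he1⟩)
    have he2 : S'.a d ∉ {d | d ∈ S.hw z} := fun he2 => hn (Or.inr he2)
    have hne : S'.a d ≠ d := fun h0 => hdB ⟨hdR, h0⟩
    by_cases hb : S'.a d ∈ S.B
    · have : S'.a d ∈ S'.B := by
        rw [h.B]
        exact ⟨hb, he2⟩
      have h2 := this.2
      rw [S'.aa] at h2
      exact hne h2.symm
    · have h3 : S.a (S'.a d) ≠ S'.a d := fun h3 => hb ⟨he1, h3⟩
      have h4 := h.sub.2 _ h3
      rw [S'.aa] at h4
      have h5 : d ∈ S.R := by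
        rw [h4]
        exact (S.mem_R_a _).2 he1
      rcases hd with hd | hd
      · exact hd.2 h5
      · have h6 := (hH.1 hd).2
        rw [h4, S.aa] at h6
        exact h3 h6.symm
  -- components
  have hcn : ∀ d ∈ S.R, ∀ e ∈ S.R, (Quotient.mk S.cnSetoid d = Quotient.mk S.cnSetoid e ↔
      Quotient.mk S'.cnSetoid d = Quotient.mk S'.cnSetoid e) := by
    intro d hd e he
    constructor
    · intro hde
      exact Quotient.sound (cn_sub h.sub hd (Quotient.exact hde))
    · intro hde
      have hde' : S'.Cn d e := Quotient.exact hde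
      have key : ∀ d e, S'.Cn d e → S.Cn (if d ∈ S'.R \ S.R then z else d) (if e ∈ S'.R \ S.R then z else e) := by
        intro d e hde
        unfold Cn at hde
        induction hde with
        | rel a b hab =>
          rcases hab with rfl | rfl
          · by_cases h1 : a ∈ (S'.R \ S.R) ∪ {d | d ∈ S.hw z}
            · have h2 : ∀ c ∈ (S'.R \ S.R) ∪ {d | d ∈ S.hw z}, S.Cn (if c ∈ S'.R \ S.R then z else c) z := by
                intro c hc
                by_cases hc1 : c ∈ S'.R \ S.R
                · rw [if_pos hc1]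
                  exact cn_refl S z
                · rw [if_neg hc1]
                  rcases hc with hc | hc
                  · exact absurd hc hc1
                  · exact cn_symm (cn_of_same ((S.mem_hw hz).1 hc).2)
              exact cn_trans (h2 a h1) (cn_symm (h2 _ (ha a h1)))
            · have h2 : a ∉ S'.R \ S.R := fun h2 => h1 (Or.inl h2)
              have h3 : a ∉ {d | d ∈ S.hw z} := fun h3 => h1 (Or.inr h3)
              have h4 : S'.a a ∉ S'.R \ S.R := by
                intro h4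
                have h5 := ha _ (Or.inl h4)
                rw [S'.aa] at h5
                exact h1 h5
              rw [if_neg h2, if_neg h4]
              by_cases h5 : a ∈ S'.R
              · have h6 : a ∈ S.R := by
                  by_contra h6
                  exact h2 ⟨h5, h6⟩
                by_cases h7 : a ∈ S.B
                · have h8 : a ∈ S'.B := by
                    rw [h.B]
                    exact ⟨h7, h3⟩
                  rw [h8.2]
                  exact cn_refl S a
                · have h8 : S.a a ≠ a := fun h8 => h7 ⟨h6, h8⟩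
                  rw [h.sub.2 a h8]
                  exact cn_a S a
              · have h6 : S'.f a = a := by
                  by_contra h6
                  exact h5 h6
                rw [S'.af a h6]
                exact cn_refl S a
          · by_cases h1 : a ∈ S.R
            · have h2 : a ∉ S'.R \ S.R := fun h2 => h2.2 h1
              have h3 : S'.f a ∉ S'.R \ S.R := by
                rw [hf a h1]
                exact fun h3 => h3.2 ((S.mem_R_f a).2 h1)
              rw [if_neg h2, if_neg h3, hf a h1]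
              exact cn_f S a
            · have h2 : S'.f a ∉ S.R := by
                intro h2
                apply h1
                have h3 := hf _ h2
                have h4 := hf _ ((S.mem_R_f _).2 h2)
                have h5 := S'.fff a
                rw [h3, h4] at h5
                rw [← h5]
                exact (S.mem_R_f _).2 ((S.mem_R_f _).2 h2)
              by_cases h3 : a ∈ S'.R
              · rw [if_pos ⟨h3, h1⟩, if_pos ⟨(S'.mem_R_f a).2 h3, h2⟩]
                exact cn_refl S z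
              · have h4 : S'.f a = a := by
                  by_contra h4
                  exact h3 h4
                rw [h4]
                exact cn_refl S _
        | refl a => exact cn_refl S _
        | symm a b _ ih => exact cn_symm ih
        | trans a b c _ _ ih1 ih2 => exact cn_trans ih1 ih2
      have h1 := key d e hde'
      rw [if_neg (fun h => h.2 hd), if_neg (fun h => h.2 he)] at h1
      exact Quotient.sound h1
  have hc1 := alt_ncomp S
  have hc2 := alt_ncomp S'
  have hc3 : (fun d => Quotient.mk S'.cnSetoid d) '' S'.R = (fun d => Quotient.mk S'.cnSetoid d) '' S.R := by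
    apply Set.Subset.antisymm
    · rintro _ ⟨d, hd, rfl⟩
      obtain ⟨e, he, hde⟩ := fil_cn hH h hne hd
      exact ⟨e, he, Quotient.sound (cn_symm hde)⟩
    · exact Set.image_mono h.sub.R_sub
  have hc4 := alt_img S.R (fun d => Quotient.mk S.cnSetoid d) (fun d => Quotient.mk S'.cnSetoid d) hcn
  rw [hc3, ← hc4] at hc2
  -- cycles
  obtain ⟨l, hl⟩ := hl_exists S
  obtain ⟨e, he, hez⟩ := hl.2.2 z hz
  have hl2 := hl_repl (hl_perm (List.perm_cons_erase he) hl) hz hez
  have hl3 : S.HL ([z] ++ l.erase e) := hl2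
  obtain ⟨hl4, -⟩ := fil_hl hH h hl3 (fun d hd => by
    rw [List.mem_singleton] at hd
    rw [hd]
    exact alt_self hz) (fun d hd hd' => (List.pairwise_cons.1 hl2.2.1).1 d hd ((S.mem_hw hz).1 hd').2)
  have e1 := inn_eq S
  have e2 := inn_eq S'
  have e3 := ncycOn_R S
  have e4 := ncycOn_R S'
  rw [hl_ncyc hl2] at e1
  rw [hl_ncyc hl4] at e2
  rw [List.length_cons] at e1
  have e5 := h.inn
  -- boundary
  have e6 : S'.B.ncard + (S.hw z).length = S.B.ncard := by
    rw [h.B, ← alt_len (S.hw_nodup hz)]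
    exact Set.ncard_sdiff_add_ncard_of_subset hH.1
  have e7 := h.R
  unfold gen12
  have g1 : (S.ncomp : ℤ) = S'.ncomp + 3 * F := by
    have : S.ncomp = S'.ncomp + 3 * F := by omega
    exact_mod_cast this
  have g2 : (ncyc S'.s : ℤ) + 1 + 3 * F = ncyc S.s + V := by
    have : ncyc S'.s + 1 + 3 * F = ncyc S.s + V := by omega
    exact_mod_cast this
  have g3 : (S'.B.ncard : ℤ) + (S.hw z).length = S.B.ncard := by exact_mod_cast e6
  have g4 : (S'.R.ncard : ℤ) = S.R.ncard + 3 * F := by exact_mod_cast e7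
  linarith

theorem disc_iff {S : Part D} {T : Tri D} (h : S.Le T) {z : D} (hz : z ∈ S.B) (a : ℕ) :
    S.IsDisc T z a ↔ ∃ S', S.DiscFill S' (S.hw z) a ∧ S'.Le T := by
  have hne : S.hw z ≠ [] := by
    obtain ⟨u, hu⟩ := S.hw_cons hz
    rw [hu]
    exact List.cons_ne_nil _ _
  have hH := alt_hun hz
  constructor
  · rintro ⟨-, h2, h3, h4⟩
    obtain ⟨F, V, hfil⟩ := fil_of_hc h hz
    have hset : S.B ∩ S.HC T z = {d | d ∈ S.hw z} := by
      ext d
      constructor
      · rintro ⟨h5, h6⟩
        exact h2 d h5 h6.2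
      · intro h5
        have h6 := hH.1 h5
        exact ⟨h6, Or.inr h6, hc_hole hz h5⟩
    rw [hset] at hfil
    have hF : F = a := by
      have h5 := (alt_vol hfil).1
      have h6 : (S.fill T h z).R \ S.R = S.HC T z \ S.B := by
        rw [fill_R]
        ext d
        constructor
        · rintro ⟨h7 | h7, h8⟩
          · exact absurd h7 h8
          · exact ⟨h7, fun h9 => h8 (S.B_sub_R h9)⟩
        · rintro ⟨h7, h8⟩
          refine ⟨Or.inr h7, ?_⟩
          rcases h7.1 with h9 | h9
          · exact h9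
          · exact absurd h9 h8
      rw [h6, h3] at h5
      omega
    subst hF
    refine ⟨S.fill T h z, Or.inr ⟨hne, V, ?_, hfil⟩, fill_le h z⟩
    have h5 := alt_genfill hz hfil
    rw [h4 h] at h5
    have h6 : (2 * V : ℤ) = 2 + F + (S.hw z).length := by linarith
    exact_mod_cast h6
  · rintro ⟨S', hd, hT⟩
    rcases hd with ⟨hd, -, -⟩ | ⟨-, V, hV, hfil⟩
    · exact absurd hd hne
    · obtain ⟨h1, h2⟩ := fil_le_hc h hH hfil hT (alt_self hz)
      refine ⟨hz, ?_, ?_, ?_⟩
      · intro d hd hdz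
        have h3 : d ∈ S.HC T z := ⟨Or.inr hd, hdz⟩
        rw [h1] at h3
        rcases h3 with h3 | h3
        · exact absurd (S.B_sub_R hd) h3.2
        · exact h3
      · have h3 : S.HC T z \ S.B = S'.R \ S.R := by
          rw [h1]
          ext d
          constructor
          · rintro ⟨h4 | h4, h5⟩
            · exact h4
            · exact absurd (hH.1 h4) h5
          · intro h4
            exact ⟨Or.inl h4, fun h5 => h4.2 (S.B_sub_R h5)⟩
        rw [h3]
        exact (alt_vol hfil).1
      · intro h'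
        have h3 := alt_genfill hz hfil
        rw [← h2]
        have h4 : (2 * V : ℤ) = 2 + a + (S.hw z).length := by exact_mod_cast hV
        rw [h3]
        linarith

/-- Planar step of `T`. -/
def Stt (S : Part D) (T : Tri D) (x : D) (s : Stp) : Prop := ∃ S' z, S.St x s S' z ∧ S'.Le T ∧ S'.HConn T

/-- The gate is glued inside its hole, the hidden part stays connected. -/
def NSt (S : Part D) (T : Tri D) (x : D) (u v : List D) : Prop :=
  u ≠ [] ∧ v ≠ [] ∧ S.hw x = x :: (u ++ T.a x :: v) ∧
    ∃ (hx : x ∈ S.B) (hy : T.a x ∈ S.B), (S.glue x (T.a x) hx hy).HConn T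

/-- The gate is glued inside its hole, the hidden part is disconnected, no disc is cut off. -/
def Sep (S : Part D) (T : Tri D) (x : D) (u v : List D) : Prop :=
  u ≠ [] ∧ v ≠ [] ∧ S.hw x = x :: (u ++ T.a x :: v) ∧
    ∃ (hx : x ∈ S.B) (hy : T.a x ∈ S.B), ¬ (S.glue x (T.a x) hx hy).HConn T ∧
      (∀ z ∈ u, ∀ a, ¬ (S.glue x (T.a x) hx hy).IsDisc T z a) ∧
      (∀ z ∈ v, ∀ a, ¬ (S.glue x (T.a x) hx hy).IsDisc T z a)

/-- The gate is glued to another hole. -/
def Mrg (S : Part D) (T : Tri D) (x : D) : Prop := T.a x ∈ S.B ∧ ¬ S.s.SameCycle x (T.a x)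


private theorem alt_ga (S : Part D) {x y : D} (hx : x ∈ S.B) (hy : y ∈ S.B) : (S.glue x y hx hy).a x = y := by
  show S.a (Equiv.swap x y x) = y
  rw [Equiv.swap_apply_left]
  exact hy.2

private theorem alt_fa (S : Part D) {x t0 t1 t2 : D} (hx : x ∈ S.B) (h0 : t0 ∉ S.R) (h1 : t1 ∉ S.R) (h2 : t2 ∉ S.R)
    (h01 : t0 ≠ t1) (h12 : t1 ≠ t2) (h20 : t2 ≠ t0) : (S.face x t0 t1 t2 hx h0 h1 h2 h01 h12 h20).a x = t0 := by
  show S.a (Equiv.swap x t0 x) = t0
  rw [Equiv.swap_apply_left]
  have h6 : S.f t0 = t0 := by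
    by_contra h6
    exact h0 h6
  exact S.af _ h6

/-! ### Words -/

private theorem alt_split {α : Type} {u u' v v' : List α} {y : α} (h : u ++ y :: v = u' ++ y :: v') (hu : y ∉ u)
    (hu' : y ∉ u') : u = u' ∧ v = v' := by
  induction u generalizing u' with
  | nil =>
    cases u' with
    | nil => exact ⟨rfl, by simpa using h⟩
    | cons c u' =>
      rw [List.nil_append, List.cons_append, List.cons_eq_cons] at h
      exact absurd (h.1 ▸ List.mem_cons_self) hu'
  | cons c u ih =>
    cases u' with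
    | nil =>
      rw [List.nil_append, List.cons_append, List.cons_eq_cons] at h
      exact absurd (h.1 ▸ List.mem_cons_self) hu
    | cons c' u' =>
      rw [List.cons_append, List.cons_append, List.cons_eq_cons] at h
      obtain ⟨e1, e2⟩ := ih h.2 (fun h' => hu (List.mem_cons_of_mem _ h')) (fun h' => hu' (List.mem_cons_of_mem _ h'))
      exact ⟨by rw [h.1, e1], e2⟩

/-- the decomposition of the hole word at `y` is unique -/
private theorem alt_dec {S : Part D} {x y : D} (hx : x ∈ S.B) {u u' v v' : List D} (h : S.hw x = x :: (u ++ y :: v))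
    (h' : S.hw x = x :: (u' ++ y :: v')) : u = u' ∧ v = v' := by
  have hn := S.hw_nodup hx
  have hn' := hn
  rw [h] at hn
  rw [h'] at hn'
  have h1 := (List.nodup_cons.1 hn).2
  have h2 := (List.nodup_cons.1 hn').2
  have h3 : u ++ y :: v = u' ++ y :: v' := by
    have := h.symm.trans h'
    rw [List.cons_eq_cons] at this
    exact this.2
  refine alt_split h3 ?_ ?_
  · intro h4
    exact (List.disjoint_of_nodup_append h1) h4 List.mem_cons_self
  · intro h4
    exact (List.disjoint_of_nodup_append h2) h4 List.mem_cons_self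

private theorem alt_word {S : Part D} {x y : D} (hx : x ∈ S.B) {u v : List D} (h : S.hw x = x :: (u ++ y :: v)) :
    x ≠ y ∧ S.s.SameCycle x y ∧ (∀ z ∈ u, z ∉ v ∧ z ≠ x ∧ z ≠ y ∧ z ∈ S.B) ∧ (∀ z ∈ v, z ∉ u ∧ z ≠ x ∧ z ≠ y ∧ z ∈ S.B) ∧
      (∀ z ∈ S.B, S.s.SameCycle x z → z = x ∨ z ∈ u ∨ z = y ∨ z ∈ v) := by
  have hn := S.hw_nodup hx
  have hm := fun d => S.mem_hw (d := d) hx
  rw [h] at hn hm
  have h1 := List.nodup_cons.1 hn
  have h2 := List.nodup_append.1 h1.2
  have h3 := List.nodup_cons.1 h2.2.1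
  have hd := List.disjoint_of_nodup_append h1.2
  refine ⟨?_, ?_, ?_, ?_, ?_⟩
  · rintro rfl
    exact h1.1 (by simp)
  · exact ((hm y).1 (by simp)).2
  · intro z hz
    refine ⟨fun h4 => hd hz (List.mem_cons_of_mem _ h4), ?_, ?_, ((hm z).1 (by simp [hz])).1⟩
    · rintro rfl
      exact h1.1 (by simp [hz])
    · rintro rfl
      exact hd hz List.mem_cons_self
  · intro z hz
    refine ⟨fun h4 => hd h4 (List.mem_cons_of_mem _ hz), ?_, ?_, ((hm z).1 (by simp [hz])).1⟩
    · rintro rfl
      exact h1.1 (by simp [hz])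
    · rintro rfl
      exact h3.1 hz
  · intro z hz hxz
    have h4 := (hm z).2 ⟨hz, hxz⟩
    simp only [List.mem_cons, List.mem_append] at h4
    tauto

/-- a filling only depends on the set of boundary darts -/
private theorem alt_fillrep {S S' : Part D} {z z' : D} (hz : z ∈ S.B) (h : z' ∈ S.hw z) {a : ℕ} :
    S.DiscFill S' (S.hw z') a ↔ S.DiscFill S' (S.hw z) a := by
  have h1 := (S.mem_hw hz).1 h
  have h2 : ({d | d ∈ S.hw z'} : Set D) = {d | d ∈ S.hw z} := by
    ext d
    show d ∈ S.hw z' ↔ d ∈ S.hw z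
    rw [S.mem_hw hz, S.mem_hw h1.1]
    exact ⟨fun h => ⟨h.1, h1.2.trans h.2⟩, fun h => ⟨h.1, h1.2.symm.trans h.2⟩⟩
  have h3 : (S.hw z').length = (S.hw z).length := by
    rw [S.hw_length hz, S.hw_length h1.1, per_same S h1.2]
  have h4 : S.hw z ≠ [] := List.ne_nil_of_mem h
  have h5 : S.hw z' ≠ [] := List.ne_nil_of_mem (alt_self h1.1)
  unfold DiscFill
  rw [h2, h3]
  simp [h4, h5]

/-! ### Number of vertices -/

private theorem alt_inn {S : Part D} {T : Tri D} (h : S.Le T) : S.inn + ncycOn T.s S.X = ncyc T.s := by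
  obtain ⟨I, hI⟩ : ∃ I : Set D, I = {d | d ∈ S.R ∧ ∀ e, S.s.SameCycle d e → e ∉ S.B} := ⟨_, rfl⟩
  have hIs : ∀ d, S.s d ∈ I ↔ d ∈ I := by
    intro d
    rw [hI]
    constructor
    · rintro ⟨h1, h2⟩
      refine ⟨(S.mem_R_s d).1 h1, fun e he => h2 e ?_⟩
      exact (Equiv.Perm.sameCycle_apply_left.2 he)
    · rintro ⟨h1, h2⟩
      refine ⟨(S.mem_R_s d).2 h1, fun e he => h2 e ?_⟩
      exact (Equiv.Perm.sameCycle_apply_left.1 he)
  have hIT : ∀ d ∈ I, T.s d = S.s d := by
    intro d hd
    rw [hI] at hd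
    exact le_s h hd.1 (hd.2 d (Equiv.Perm.SameCycle.refl _ _))
  have h1 : S.inn = ncycOn S.s I := by
    unfold inn ncycOn
    rw [← Nat.card_coe_set_eq]
    apply Nat.card_congr
    apply Equiv.subtypeEquivRight
    intro q
    rw [hI]
    constructor
    · rintro ⟨d, h2, h3, h4⟩
      exact ⟨d, ⟨h3, h4⟩, h2⟩
    · rintro ⟨d, ⟨h3, h4⟩, h2⟩
      exact ⟨d, h2, h3, h4⟩
  have h2 := ncycOn_congr (σ := S.s) (τ := T.s) hIs hIT
  have hITs : ∀ d, T.s d ∈ I ↔ d ∈ I := by
    intro d
    constructor
    · intro hd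
      -- the orbit of `T.s d` under `S.s` is the orbit under `T.s`
      obtain ⟨e, he⟩ := S.s.surjective (T.s d)
      have he2 : e ∈ I := (hIs e).1 (he ▸ hd)
      have he3 := hIT e he2
      rw [he] at he3
      rw [← T.s.injective he3]
      exact he2
    · intro hd
      rw [hIT d hd]
      exact (hIs d).2 hd
  have h3 := ncyc_split T.s hITs
  have h4 : ncycOn T.s Iᶜ = ncycOn T.s S.X := by
    unfold ncycOn
    congr 1
    ext q
    constructor
    · rintro ⟨d, hd, hq⟩
      by_contra hn
      apply hd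
      have hall : ∀ e, T.s.SameCycle d e → e ∈ S.R ∧ e ∉ S.B := by
        intro e he
        by_contra h5
        apply hn
        refine ⟨e, ?_, ?_⟩
        · by_cases h6 : e ∈ S.R
          · right
            by_contra h7
            exact h5 ⟨h6, h7⟩
          · exact Or.inl h6
        · rw [← hq]
          exact Quotient.sound he.symm
      have hpow : ∀ k : ℕ, (T.s ^ k) d = (S.s ^ k) d := by
        intro k
        induction k with
        | zero => rfl
        | succ k ih =>
          rw [pow_succ', pow_succ', Equiv.Perm.mul_apply, Equiv.Perm.mul_apply, ← ih]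
          have h5 := hall ((T.s ^ k) d) ⟨k, by simp⟩
          exact le_s h h5.1 h5.2
      rw [hI]
      refine ⟨(hall d (Equiv.Perm.SameCycle.refl _ _)).1, ?_⟩
      intro e he
      obtain ⟨k, -, hk⟩ := he.exists_pow_eq'
      rw [← hpow] at hk
      exact (hall e ⟨k, by simpa using hk⟩).2
    · rintro ⟨d, hd, hq⟩
      refine ⟨d, ?_, hq⟩
      intro hd2
      rw [hI] at hd2
      rcases hd with hd | hd
      · exact hd hd2.1
      · exact hd2.2 d (Equiv.Perm.SameCycle.refl _ _) hd
  rw [h3, h4, h2, h1]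

private theorem alt_ncyc_union (σ : Equiv.Perm D) {X Y Z : Set D} (h : X ⊆ Y ∪ Z) : ncycOn σ X ≤ ncycOn σ Y + ncycOn σ Z := by
  unfold ncycOn
  refine le_trans (Set.ncard_le_ncard ?_) (Set.ncard_union_le _ _)
  rintro q ⟨d, hd, hq⟩
  rcases h hd with hd | hd
  · exact Or.inl ⟨d, hd, hq⟩
  · exact Or.inr ⟨d, hd, hq⟩

private theorem alt_ncyc_empty (σ : Equiv.Perm D) {X : Set D} (h : X = ∅) : ncycOn σ X = 0 := by
  subst h
  unfold ncycOn
  rw [Set.ncard_eq_zero]
  ext q
  simp


/-! ### The two sides of the gate -/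

/-- the setting: `x` is glued to `y` inside its hole -/
private structure AltS (S : Part D) (T : Tri D) (x y : D) (u v : List D) : Prop where
  le : S.Le T
  hx : x ∈ S.B
  hy : y ∈ S.B
  hT : T.a x = y
  hw : S.hw x = x :: (u ++ y :: v)

private theorem alt_leg {S : Part D} {T : Tri D} {x y : D} {u v : List D} (h : AltS S T x y u v) :
    (S.glue x y h.hx h.hy).Le T := glue_le S h.hx h.hy h.le h.hT

private theorem alt_B {S : Part D} {T : Tri D} {x y : D} {u v : List D} (h : AltS S T x y u v) :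
    (S.glue x y h.hx h.hy).B = S.B \ {x, y} := glue_B S h.hx h.hy (alt_word h.hx h.hw).1

private theorem alt_u {S : Part D} {T : Tri D} {x y : D} {u v : List D} (h : AltS S T x y u v) {z : D} (hz : z ∈ u) :
    z ∈ (S.glue x y h.hx h.hy).B ∧ ∃ z', u.head? = some z' ∧ z' ∈ (S.glue x y h.hx h.hy).B ∧
      (S.glue x y h.hx h.hy).hw z' = u ∧ (S.glue x y h.hx h.hy).Hc T z' z := by
  cases u with
  | nil => exact absurd hz List.not_mem_nil
  | cons z' w =>
    have h1 := hw_glue_split_left S h.hx h.hy h.hw rfl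
    have h2 := (alt_word h.hx h.hw).2.2.1
    have h3 : ∀ d ∈ z' :: w, d ∈ (S.glue x y h.hx h.hy).B := by
      intro d hd
      rw [alt_B h]
      obtain ⟨-, h4, h5, h6⟩ := h2 d hd
      refine ⟨h6, ?_⟩
      rintro (h7 | h7)
      · exact h4 h7
      · exact h5 h7
    refine ⟨h3 z hz, z', rfl, h3 z' List.mem_cons_self, h1, ?_⟩
    apply hc_hole (h3 z' List.mem_cons_self)
    rw [h1]
    exact hz

private theorem alt_v {S : Part D} {T : Tri D} {x y : D} {u v : List D} (h : AltS S T x y u v) {z : D} (hz : z ∈ v) :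
    z ∈ (S.glue x y h.hx h.hy).B ∧ ∃ z', v.head? = some z' ∧ z' ∈ (S.glue x y h.hx h.hy).B ∧
      (S.glue x y h.hx h.hy).hw z' = v ∧ (S.glue x y h.hx h.hy).Hc T z' z := by
  cases v with
  | nil => exact absurd hz List.not_mem_nil
  | cons z' w =>
    have h1 := hw_glue_split_right S h.hx h.hy h.hw rfl
    have h2 := (alt_word h.hx h.hw).2.2.2.1
    have h3 : ∀ d ∈ z' :: w, d ∈ (S.glue x y h.hx h.hy).B := by
      intro d hd
      rw [alt_B h]
      obtain ⟨-, h4, h5, h6⟩ := h2 d hd
      refine ⟨h6, ?_⟩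
      rintro (h7 | h7)
      · exact h4 h7
      · exact h5 h7
    refine ⟨h3 z hz, z', rfl, h3 z' List.mem_cons_self, h1, ?_⟩
    apply hc_hole (h3 z' List.mem_cons_self)
    rw [h1]
    exact hz

/-- if the hidden part of `S` is connected there are at most two components after the gluing -/
private theorem alt_hc {S : Part D} {T : Tri D} {x y : D} {u v : List D} (h : AltS S T x y u v) (hc : S.HConn T) {d e : D}
    (hd : d ∈ (S.glue x y h.hx h.hy).X) (he : e ∈ (S.glue x y h.hx h.hy).X) :
    (S.glue x y h.hx h.hy).Hc T d e ∨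
      ((∃ z ∈ u, (S.glue x y h.hx h.hy).Hc T z d) ∧ ∃ z ∈ v, (S.glue x y h.hx h.hy).Hc T z e) ∨
      ((∃ z ∈ v, (S.glue x y h.hx h.hy).Hc T z d) ∧ ∃ z ∈ u, (S.glue x y h.hx h.hy).Hc T z e) :=
  (hc_glue_split h.le h.hx h.hy h.hT h.hw hd he).1
    (hc d (alt_X_mono (glue_sub S h.hx h.hy) hd) e (alt_X_mono (glue_sub S h.hx h.hy) he))

/-- the hidden part after the filling of one side -/
private theorem alt_side {S : Part D} {T : Tri D} {x y : D} {u v : List D} (h : AltS S T x y u v) (hc : S.HConn T)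
    {zu zv : D} (hu : zu ∈ u) (hv : zv ∈ v) (hn : ¬ (S.glue x y h.hx h.hy).Hc T zu zv) {d : D}
    (hd : d ∈ (S.glue x y h.hx h.hy).X) : (S.glue x y h.hx h.hy).Hc T zu d ∨ (S.glue x y h.hx h.hy).Hc T zv d := by
  obtain ⟨h1, zu', h2, h3, h4, h5⟩ := alt_u h hu
  obtain ⟨h6, zv', h7, h8, h9, h10⟩ := alt_v h hv
  have hzu : zu ∈ (S.glue x y h.hx h.hy).X := Or.inr h1
  rcases alt_hc h hc hzu hd with h11 | ⟨-, z, hz, h11⟩ | ⟨⟨z, hz, h11⟩, -⟩
  · exact Or.inl h11
  · right
    obtain ⟨-, zv'', h12, -, -, h13⟩ := alt_v h hz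
    have : zv'' = zv' := by
      rw [h7] at h12
      exact (Option.some.inj h12).symm
    subst this
    exact hc_trans (hc_symm h10) (hc_trans h13 h11)
  · exfalso
    apply hn
    obtain ⟨-, zv'', h12, -, -, h13⟩ := alt_v h hz
    have : zv'' = zv' := by
      rw [h7] at h12
      exact (Option.some.inj h12).symm
    subst this
    exact hc_symm (hc_trans (hc_symm h10) (hc_trans h13 h11))

private theorem alt_hc_fill {S : Part D} {T : Tri D} (h : S.Le T) {z z' : D}
    (hz : ∀ d ∈ S.X, S.Hc T z d ∨ S.Hc T z' d) : (S.fill T h z).HConn T := by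
  intro d hd e he
  rw [hc_fill h z hd he]
  rw [X_fill] at hd he
  have h1 : S.Hc T z' d := by
    rcases hz d hd.1 with h1 | h1
    · exact absurd ⟨hd.1, h1⟩ hd.2
    · exact h1
  have h2 : S.Hc T z' e := by
    rcases hz e he.1 with h2 | h2
    · exact absurd ⟨he.1, h2⟩ he.2
    · exact h2
  exact hc_trans (hc_symm h1) h2

end

variable {n g : ℕ} {S : Part (Fin (6 * n))} {x : Fin (6 * n)} {l : List (Fin (6 * n))} {p : ℕ} {P : List ℕ} {F κ : ℕ}
  {T : Tri (Fin (6 * n))}

private theorem alt_V (hT : T ∈ Trn n g) : ncyc T.s + 2 * g = n + 2 := hT.2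

/-- both sides are empty -/
private theorem alt_nil (hS : S.Typ (x :: l) (p :: P) F κ) (hT : T ∈ S.Ext g) (hc : S.HConn T) {y : Fin (6 * n)}
    (h : AltS S T x y [] []) : ¬ (κ < g ∨ l ≠ []) := by
  obtain ⟨hxy, hsame, -, -, hall⟩ := alt_word h.hx h.hw
  have hyx : T.a y = x := by rw [← h.hT, T.aa]
  have hm : ∀ d, d ∈ ({x, y} : Set (Fin (6 * n))) ↔ d ∈ S.B ∧ S.s.SameCycle x d := by
    intro d
    constructor
    · rintro (rfl | h1)
      · exact ⟨h.hx, Equiv.Perm.SameCycle.refl _ _⟩
      · have h2 : d = y := h1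
        rw [h2]
        exact ⟨h.hy, hsame⟩
    · rintro ⟨h1, h2⟩
      rcases hall d h1 h2 with h3 | h3 | h3 | h3
      · exact Or.inl h3
      · exact absurd h3 List.not_mem_nil
      · exact Or.inr h3
      · exact absurd h3 List.not_mem_nil
  have hX : ∀ d ∈ S.X, d ∈ ({x, y} : Set (Fin (6 * n))) := by
    intro d hd
    have h1 := hc x (Or.inr h.hx) d hd
    have h2 := hc_ind (S := S) (T := T) (fun d e => d ∈ ({x, y} : Set (Fin (6 * n))) ↔ e ∈ ({x, y} : Set (Fin (6 * n))))
      (fun _ => Iff.rfl) (fun _ _ h => h.symm) (fun _ _ _ h h' => h.trans h') ?_ ?_ ?_ h1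
    · exact h2.1 (Or.inl rfl)
    · intro e _
      constructor
      · rintro (rfl | h3)
        · exact Or.inr h.hT
        · have h4 : e = y := h3
          rw [h4, hyx]
          exact Or.inl rfl
      · rintro (h3 | h3)
        · right
          show e = y
          rw [← h.hT, ← h3, T.aa]
        · left
          show e = x
          have h4 : T.a e = y := h3
          rw [← hyx, ← h4, T.aa]
    · intro e he
      constructor
      · intro h3
        exact absurd (S.B_sub_R ((hm e).1 h3).1) he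
      · intro h3
        exact absurd ((le_f_mem h.le e).1 (S.B_sub_R ((hm _).1 h3).1)) he
    · intro e he
      have h3 := S.nx_pow_same he 1
      rw [pow_one] at h3
      rw [hm, hm]
      exact ⟨fun h4 => ⟨h3.1, h4.2.trans h3.2⟩, fun h4 => ⟨he, h4.2.trans h3.2.symm⟩⟩
  have hl : l = [] := by
    cases l with
    | nil => rfl
    | cons e l =>
      exfalso
      have h1 := hS.hl.1 e (by simp)
      have h2 := (hm e).1 (hX e (Or.inr h1))
      have h3 := hS.hl.2.1
      rw [List.pairwise_cons] at h3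
      exact h3.1 e (by simp) h2.2
  have hR : S.R = Set.univ := by
    rw [Set.eq_univ_iff_forall]
    intro d
    by_contra hd
    exact hd (S.B_sub_R ((hm d).1 (hX d (Or.inl hd))).1)
  have hXg : (S.glue x y h.hx h.hy).X = ∅ := by
    rw [Set.eq_empty_iff_forall_notMem]
    rintro d (hd | hd)
    · rw [glue_R, hR] at hd
      exact hd (Set.mem_univ d)
    · rw [alt_B h] at hd
      exact hd.2 (hX d (Or.inr hd.1))
  have e1 := alt_inn (alt_leg h)
  rw [alt_ncyc_empty _ hXg] at e1
  have e2 := inn_glue_split S h.hx h.hy h.hw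
  rw [if_pos rfl] at e2
  have e3 := hS.eul
  have e4 := hS.per
  subst hl
  have e5 : P = [] := by
    rw [List.map_cons, List.cons_eq_cons] at e4
    rw [← e4.2]
    rfl
  have e6 : p = 2 := by
    rw [List.map_cons, List.cons_eq_cons] at e4
    rw [← e4.1, ← S.hw_length h.hx, h.hw]
    rfl
  subst e5 e6
  rw [hR, Set.ncard_univ, Nat.card_fin] at e3
  simp only [List.length_cons, List.length_nil, List.sum_cons, List.sum_nil] at e3
  have e7 := alt_V hT.1
  rintro (h1 | h1)
  · omega
  · exact h1 rfl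

/-- both sides are discs -/
private theorem alt_two (hS : S.Typ (x :: l) (p :: P) F κ) (hT : T ∈ S.Ext g) {y : Fin (6 * n)}
    {u v : List (Fin (6 * n))} (h : AltS S T x y u v) {zu zv : Fin (6 * n)} (hu : zu ∈ u) (hv : zv ∈ v)
    {S' S'' : Part (Fin (6 * n))} {a b : ℕ} (h1 : (S.glue x y h.hx h.hy).DiscFill S' u a)
    (h2 : (S.glue x y h.hx h.hy).DiscFill S'' v b) (hT1 : S'.Le T) (hT2 : S''.Le T) (hc1 : S'.HConn T) :
    ¬ (κ < g ∨ l ≠ []) := by
  rcases h1 with ⟨h1, -, -⟩ | ⟨hune, V1, hV1, h1⟩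
  · rw [h1] at hu
    exact absurd hu List.not_mem_nil
  rcases h2 with ⟨h2, -, -⟩ | ⟨hvne, V2, hV2, h2⟩
  · rw [h2] at hv
    exact absurd hv List.not_mem_nil
  obtain ⟨hzuB, zu', -, hzu', hwu, hcu⟩ := alt_u h hu
  obtain ⟨hzvB, zv', -, hzv', hwv, hcv⟩ := alt_v h hv
  obtain ⟨-, -, hwordu, hwordv, hall⟩ := alt_word h.hx h.hw
  have hHu : (S.glue x y h.hx h.hy).HUn {d | d ∈ u} := by
    have := alt_hun hzu'
    rwa [hwu] at this
  have hHv : (S.glue x y h.hx h.hy).HUn {d | d ∈ v} := by
    have := alt_hun hzv'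
    rwa [hwv] at this
  obtain ⟨k1, k2⟩ := fil_le_hc (alt_leg h) hHu h1 hT1 hu
  obtain ⟨k3, k4⟩ := fil_le_hc (alt_leg h) hHv h2 hT2 hv
  have x1 := fil_X hHu h1
  have x2 := fil_X hHv h2
  rw [← k1] at x1
  rw [← k3] at x2
  -- `zv` is not in the component of `zu`
  have hn : zv ∉ (S.glue x y h.hx h.hy).HC T zu := by
    rw [k1]
    rintro (h3 | h3)
    · exact h3.2 (Part.B_sub_R _ hzvB)
    · exact (hwordv zv hv).1 h3
  have hzvX : zv ∈ S'.X := by
    rw [x1]
    exact ⟨Or.inr hzvB, hn⟩
  have hcover : ∀ d ∈ (S.glue x y h.hx h.hy).X, d ∈ (S.glue x y h.hx h.hy).HC T zu ∨ d ∈ (S.glue x y h.hx h.hy).HC T zv := by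
    intro d hd
    by_cases h3 : d ∈ (S.glue x y h.hx h.hy).HC T zu
    · exact Or.inl h3
    · right
      have h4 : d ∈ S'.X := by
        rw [x1]
        exact ⟨hd, h3⟩
      have h5 := hc1 zv hzvX d h4
      refine ⟨hd, ?_⟩
      rw [k2] at h5 hzvX h4
      exact (hc_fill (alt_leg h) zu hzvX h4).1 h5
  have hdisj : ∀ d, d ∈ (S.glue x y h.hx h.hy).HC T zu → d ∉ (S.glue x y h.hx h.hy).HC T zv := by
    intro d h3 h4
    exact hn ⟨Or.inr hzvB, hc_trans h3.2 (hc_symm h4.2)⟩
  have hXX : (S.glue x y h.hx h.hy).X ⊆ S'.X ∪ S''.X := by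
    intro d hd
    rw [x1, x2]
    by_cases h3 : d ∈ (S.glue x y h.hx h.hy).HC T zu
    · exact Or.inr ⟨hd, hdisj d h3⟩
    · exact Or.inl ⟨hd, h3⟩
  have c1 := alt_ncyc_union T.s hXX
  have c2 := alt_inn (alt_leg h)
  have c3 := alt_inn hT1
  have c4 := alt_inn hT2
  have c5 := h1.inn
  have c6 := h2.inn
  have c7 := inn_glue_split S h.hx h.hy h.hw
  rw [if_neg hune, if_neg hvne] at c7
  -- the list `l` is empty
  have hl : l = [] := by
    cases l with
    | nil => rfl
    | cons e l =>
      exfalso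
      have h3 := hS.hl.1 e (by simp)
      have h4 := hS.hl.2.1
      rw [List.pairwise_cons] at h4
      have h5 : ¬ S.s.SameCycle x e := h4.1 e (by simp)
      have h6 : e ∈ (S.glue x y h.hx h.hy).B := by
        rw [alt_B h]
        refine ⟨h3, ?_⟩
        rintro (h7 | h7)
        · exact h5 (by rw [h7])
        · have h8 : e = y := h7
          exact h5 (by rw [h8]; exact (alt_word h.hx h.hw).2.1)
      have hR6 : e ∈ (S.glue x y h.hx h.hy).R := Part.B_sub_R _ h6
      have hmem : ∀ d ∈ S.hw x, S.s.SameCycle x d := fun d hd => ((S.mem_hw h.hx).1 hd).2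
      rw [h.hw] at hmem
      rcases hcover e (Or.inr h6) with h7 | h7
      · rw [k1] at h7
        rcases h7 with h7 | h7
        · exact h7.2 hR6
        · have h8 : e ∈ u := h7
          exact h5 (hmem e (by simp [h8]))
      · rw [k3] at h7
        rcases h7 with h7 | h7
        · exact h7.2 hR6
        · have h8 : e ∈ v := h7
          exact h5 (hmem e (by simp [h8]))
  have e3 := hS.eul
  have e4 := hS.per
  subst hl
  have e5 : P = [] := by
    rw [List.map_cons, List.cons_eq_cons] at e4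
    rw [← e4.2]
    rfl
  have e6 : p = 2 + u.length + v.length := by
    rw [List.map_cons, List.cons_eq_cons] at e4
    rw [← e4.1, ← S.hw_length h.hx, h.hw]
    simp only [List.length_cons, List.length_append]
    omega
  subst e5 e6
  simp only [List.length_cons, List.length_nil, List.sum_cons, List.sum_nil] at e3
  have e7 := alt_V hT.1
  -- volumes
  have v1 := h1.R
  have v2 := h2.R
  rw [glue_R] at v1 v2
  have v3 : S'.R ∪ S''.R = Set.univ := by
    rw [Set.eq_univ_iff_forall]
    intro d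
    by_cases h3 : d ∈ (S.glue x y h.hx h.hy).R
    · exact Or.inl (h1.sub.R_sub h3)
    · rcases hcover d (Or.inl h3) with h4 | h4
      · rw [k1] at h4
        rcases h4 with h4 | h4
        · exact Or.inl h4.1
        · exact absurd (Part.B_sub_R _ (hHu.1 h4)) h3
      · rw [k3] at h4
        rcases h4 with h4 | h4
        · exact Or.inr h4.1
        · exact absurd (Part.B_sub_R _ (hHv.1 h4)) h3
  have v4 := Set.ncard_union_add_ncard_inter S'.R S''.R
  rw [v3, Set.ncard_univ, Nat.card_fin] at v4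
  have v5 : S.R.ncard ≤ (S'.R ∩ S''.R).ncard := by
    refine Set.ncard_le_ncard ?_ (Set.toFinite _)
    have h3 : S.R = (S.glue x y h.hx h.hy).R := (glue_R S h.hx h.hy).symm
    rw [h3]
    exact Set.subset_inter h1.sub.R_sub h2.sub.R_sub
  rintro (h3 | h3)
  · omega
  · exact h3 rfl

theorem alt (hS : S.Typ (x :: l) (p :: P) F κ) (hT : T ∈ S.Ext g) (hc : S.HConn T) (ho : κ < g ∨ l ≠ []) :
    (∃ s, S.Stt T x s) ∨ (∃ u v, S.NSt T x u v) ∨ (∃ u v, S.Sep T x u v) ∨ S.Mrg T x := by
  have hx : x ∈ S.B := hS.hl.1 x List.mem_cons_self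
  have hle : S.Le T := hT.2
  rcases peel hle hx with ⟨hy, hyx⟩ | h0
  · by_cases hsame : S.s.SameCycle x (T.a x)
    · obtain ⟨w, hw⟩ := S.hw_cons hx
      have hy2 : T.a x ∈ S.hw x := (S.mem_hw hx).2 ⟨hy, hsame⟩
      rw [hw] at hy2
      rcases List.mem_cons.1 hy2 with h1 | h1
      · exact absurd h1 hyx
      obtain ⟨u, v, huv⟩ := List.append_of_mem h1
      rw [huv] at hw
      have hA : AltS S T x (T.a x) u v := ⟨hle, hx, hy, rfl, hw⟩
      have hleg := alt_leg hA
      cases u with
      | nil =>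
        cases v with
        | nil => exact absurd ho (alt_nil hS hT hc hA)
        | cons zv v =>
          left
          refine ⟨.R 0 0, S.glue x (T.a x) hx hy, zv, ⟨T.a x, [], zv :: v, v, hx, hy, hw, rfl, rfl, Or.inl ⟨rfl, rfl, rfl⟩⟩,
            hleg, ?_⟩
          intro d hd e he
          rcases alt_hc hA hc hd he with h2 | ⟨⟨z, hz, -⟩, -⟩ | ⟨-, z, hz, -⟩
          · exact h2
          · exact absurd hz List.not_mem_nil
          · exact absurd hz List.not_mem_nil
      | cons zu u =>
        cases v with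
        | nil =>
          left
          refine ⟨.L 0 0, S.glue x (T.a x) hx hy, zu, ⟨T.a x, zu :: u, [], u, hx, hy, hw, rfl, rfl, Or.inl ⟨rfl, rfl, rfl⟩⟩,
            hleg, ?_⟩
          intro d hd e he
          rcases alt_hc hA hc hd he with h2 | ⟨-, z, hz, -⟩ | ⟨⟨z, hz, -⟩, -⟩
          · exact h2
          · exact absurd hz List.not_mem_nil
          · exact absurd hz List.not_mem_nil
        | cons zv v =>
          by_cases hcg : (S.glue x (T.a x) hx hy).HConn T
          · right; left
            exact ⟨zu :: u, zv :: v, List.cons_ne_nil _ _, List.cons_ne_nil _ _, hw, hx, hy, hcg⟩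
          · obtain ⟨hzuB, zu', hzu1, hzu', hwu, -⟩ := alt_u hA (z := zu) List.mem_cons_self
            obtain ⟨hzvB, zv', hzv1, hzv', hwv, -⟩ := alt_v hA (z := zv) List.mem_cons_self
            have hzu2 : zu' = zu := (Option.some.inj hzu1).symm
            have hzv2 : zv' = zv := (Option.some.inj hzv1).symm
            subst hzu2 hzv2
            -- the two sides are in different components
            have hn : ¬ (S.glue x (T.a x) hx hy).Hc T zu' zv' := by
              intro hn
              apply hcg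
              have hall : ∀ d ∈ (S.glue x (T.a x) hx hy).X, (S.glue x (T.a x) hx hy).Hc T zu' d := by
                intro d hd
                rcases alt_hc hA hc (Or.inr hzu' : zu' ∈ (S.glue x (T.a x) hx hy).X) hd with h2 | ⟨-, z, hz, h2⟩ | ⟨⟨z, hz, h2⟩, z2, hz2, h3⟩
                · exact h2
                · obtain ⟨-, z3, hz3, -, -, h4⟩ := alt_v hA hz
                  have h5 : z3 = zv' := (Option.some.inj hz3).symm
                  subst h5
                  exact hc_trans hn (hc_trans h4 h2)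
                · obtain ⟨-, z3, hz3, -, -, h4⟩ := alt_u hA hz2
                  have h5 : z3 = zu' := (Option.some.inj hz3).symm
                  subst h5
                  exact hc_trans h4 h3
              intro d hd e he
              exact hc_trans (hc_symm (hall d hd)) (hall e he)
            have hside : ∀ d ∈ (S.glue x (T.a x) hx hy).X, (S.glue x (T.a x) hx hy).Hc T zu' d ∨
                (S.glue x (T.a x) hx hy).Hc T zv' d :=
              fun d hd => alt_side hA hc List.mem_cons_self List.mem_cons_self hn hd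
            by_cases hu : ∃ z ∈ zu' :: u, ∃ a, (S.glue x (T.a x) hx hy).IsDisc T z a
            · left
              obtain ⟨z, hz, a, hd⟩ := hu
              have hzB := (alt_u hA hz).1
              obtain ⟨S', hS', hle'⟩ := (disc_iff hleg hzB a).1 hd
              have hz2 : z ∈ (S.glue x (T.a x) hx hy).hw zu' := by
                rw [hwu]
                exact hz
              rw [alt_fillrep hzu' hz2, hwu] at hS'
              refine ⟨.R (zu' :: u).length a, S', zv', ⟨T.a x, zu' :: u, zv' :: v, v, hx, hy, hw, rfl, rfl, hS'⟩, hle', ?_⟩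
              rcases hS' with ⟨h2, -, -⟩ | ⟨-, V, -, h2⟩
              · exact absurd h2 (List.cons_ne_nil _ _)
              · have hH : (S.glue x (T.a x) hx hy).HUn {d | d ∈ zu' :: u} := by
                  have := alt_hun hzu'
                  rwa [hwu] at this
                obtain ⟨-, h4⟩ := fil_le_hc hleg hH h2 hle' (x := zu') List.mem_cons_self
                rw [h4]
                exact alt_hc_fill hleg hside
            · by_cases hv : ∃ z ∈ zv' :: v, ∃ a, (S.glue x (T.a x) hx hy).IsDisc T z a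
              · left
                obtain ⟨z, hz, a, hd⟩ := hv
                have hzB := (alt_v hA hz).1
                obtain ⟨S', hS', hle'⟩ := (disc_iff hleg hzB a).1 hd
                have hz2 : z ∈ (S.glue x (T.a x) hx hy).hw zv' := by
                  rw [hwv]
                  exact hz
                rw [alt_fillrep hzv' hz2, hwv] at hS'
                refine ⟨.L (zv' :: v).length a, S', zu', ⟨T.a x, zu' :: u, zv' :: v, u, hx, hy, hw, rfl, rfl, hS'⟩, hle', ?_⟩
                rcases hS' with ⟨h2, -, -⟩ | ⟨-, V, -, h2⟩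
                · exact absurd h2 (List.cons_ne_nil _ _)
                · have hH : (S.glue x (T.a x) hx hy).HUn {d | d ∈ zv' :: v} := by
                    have := alt_hun hzv'
                    rwa [hwv] at this
                  obtain ⟨-, h4⟩ := fil_le_hc hleg hH h2 hle' (x := zv') List.mem_cons_self
                  rw [h4]
                  exact alt_hc_fill hleg (fun d hd => (hside d hd).symm)
              · right; right; left
                refine ⟨zu' :: u, zv' :: v, List.cons_ne_nil _ _, List.cons_ne_nil _ _, hw, hx, hy, hcg, ?_, ?_⟩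
                · intro z hz a hd
                  exact hu ⟨z, hz, a, hd⟩
                · intro z hz a hd
                  exact hv ⟨z, hz, a, hd⟩
    · right; right; right
      exact ⟨hy, hsame⟩
  · left
    have h1 : T.f (T.a x) ∉ S.R := fun h => h0 ((le_f_mem hle _).1 h)
    have h2 : T.f (T.f (T.a x)) ∉ S.R := fun h => h1 ((le_f_mem hle _).1 h)
    have hle' := face_le S hle hx h0 h1 h2 (tri_ne T _).1 (tri_ne T _).2.1 (tri_ne T _).2.2
    refine ⟨.T, _, T.f (T.a x), ⟨T.a x, T.f (T.a x), T.f (T.f (T.a x)), hx, h0, h1, h2, (tri_ne T _).1, (tri_ne T _).2.1,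
      (tri_ne T _).2.2, rfl, rfl⟩, hle', ?_⟩
    intro d hd e he
    rw [hc_face hle hx h0 h1 h2 rfl hd he]
    exact hc d (alt_X_mono (face_sub S hx h0 h1 h2 _ _ _) hd) e (alt_X_mono (face_sub S hx h0 h1 h2 _ _ _) he)

theorem stt_unique (hS : S.Typ (x :: l) (p :: P) F κ) (hT : T ∈ S.Ext g) (ho : κ < g ∨ l ≠ []) {s s' : Stp}
    (h : S.Stt T x s) (h' : S.Stt T x s') : s = s' := by
  obtain ⟨S', z, hs, hle, hc⟩ := h
  obtain ⟨S'', z', hs', hle', hc'⟩ := h'
  have hST : S.Le T := hT.2
  -- the value of `T.a x`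
  have keyT : ∀ {S' : Part (Fin (6 * n))} {z : Fin (6 * n)}, S.St x .T S' z → S'.Le T → T.a x ∉ S.R := by
    rintro S' z ⟨t0, t1, t2, hx, h0, h1, h2, h01, h12, h20, rfl, -⟩ hle
    have h3 : (S.face x t0 t1 t2 hx h0 h1 h2 h01 h12 h20).a x = t0 := alt_fa S hx h0 h1 h2 h01 h12 h20
    have h4 : t0 ≠ x := by
      rintro rfl
      exact h0 (S.B_sub_R hx)
    rw [hle.2 x (by rw [h3]; exact h4), h3]
    exact h0
  have keyG : ∀ {y : Fin (6 * n)} {u v : List (Fin (6 * n))} {hx : x ∈ S.B} {hy : y ∈ S.B} {S' : Part (Fin (6 * n))}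
      {w : List (Fin (6 * n))} {a : ℕ}, S.hw x = x :: (u ++ y :: v) → (S.glue x y hx hy).DiscFill S' w a → S'.Le T →
      AltS S T x y u v := by
    intro y u v hx hy S' w a hw hd hle
    have hsub : (S.glue x y hx hy).Sub S' := by
      rcases hd with ⟨-, -, rfl⟩ | ⟨-, V, -, hf⟩
      · exact sub_refl _
      · exact hf.sub
    have hle2 := sub_le hsub hle
    have hxy := (alt_word hx hw).1
    have h3 : (S.glue x y hx hy).a x = y := alt_ga S hx hy
    have h4 : T.a x = y := by
      rw [hle2.2 x (by rw [h3]; exact hxy.symm), h3]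
    exact ⟨hST, hx, hy, h4, hw⟩
  -- the number of triangles in a side
  have keyA : ∀ {y : Fin (6 * n)} {hx : x ∈ S.B} {hy : y ∈ S.B} {S' S'' : Part (Fin (6 * n))} {w : List (Fin (6 * n))}
      {z0 : Fin (6 * n)} {a b : ℕ}, (S.glue x y hx hy).Le T → (w ≠ [] → z0 ∈ (S.glue x y hx hy).B ∧ (S.glue x y hx hy).hw z0 = w) →
      (S.glue x y hx hy).DiscFill S' w a → (S.glue x y hx hy).DiscFill S'' w b → S'.Le T → S''.Le T → a = b := by
    intro y hx hy S' S'' w z0 a b hleg hz h1 h2 hl1 hl2
    rcases h1 with ⟨h1, ha, -⟩ | ⟨hne, V, hV, h1⟩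
    · rcases h2 with ⟨-, hb, -⟩ | ⟨hne, -⟩
      · rw [ha, hb]
      · exact absurd h1 hne
    · rcases h2 with ⟨h2, -, -⟩ | ⟨-, V', hV', h2⟩
      · exact absurd h2 hne
      · obtain ⟨hzB, hzw⟩ := hz hne
        subst hzw
        obtain ⟨-, k1⟩ := fil_le_hc hleg (alt_hun hzB) h1 hl1 (alt_self hzB)
        obtain ⟨-, k2⟩ := fil_le_hc hleg (alt_hun hzB) h2 hl2 (alt_self hzB)
        have k3 := h1.R
        have k4 := h2.R
        rw [k1] at k3
        rw [k2] at k4
        omega
  cases s with
  | T =>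
    cases s' with
    | T => rfl
    | R k a =>
      obtain ⟨y, u, v, w, hx, hy, hw, -, -, hd⟩ := hs'
      have h1 := keyG hw hd hle'
      exact absurd (S.B_sub_R (h1.hT ▸ hy)) (keyT hs hle)
    | L k a =>
      obtain ⟨y, u, v, w, hx, hy, hw, -, -, hd⟩ := hs'
      have h1 := keyG hw hd hle'
      exact absurd (S.B_sub_R (h1.hT ▸ hy)) (keyT hs hle)
  | R k a =>
    obtain ⟨y, u, v, w, hx, hy, hw, hk, hv, hd⟩ := hs
    have h1 := keyG hw hd hle
    cases s' with
    | T => exact absurd (S.B_sub_R (h1.hT ▸ hy)) (keyT hs' hle')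
    | R k' a' =>
      obtain ⟨y', u', v', w', hx', hy', hw', hk', hv', hd'⟩ := hs'
      have h2 := keyG hw' hd' hle'
      have hyy : y' = y := h2.hT.symm.trans h1.hT
      subst hyy
      obtain ⟨rfl, rfl⟩ := alt_dec hx hw hw'
      have h3 : k = k' := hk.symm.trans hk'
      subst h3
      have h4 : a = a' := by
        cases u with
        | nil => exact keyA (z0 := x) (alt_leg h1) (fun h => absurd rfl h) hd hd' hle hle'
        | cons zu u =>
          obtain ⟨-, zu', hzu1, hzu', hwu, -⟩ := alt_u h1 (z := zu) List.mem_cons_self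
          exact keyA (z0 := zu') (alt_leg h1) (fun _ => ⟨hzu', hwu⟩) hd hd' hle hle'
      rw [h4]
    | L k' a' =>
      obtain ⟨y', u', v', w', hx', hy', hw', hk', hu', hd'⟩ := hs'
      have h2 := keyG hw' hd' hle'
      have hyy : y' = y := h2.hT.symm.trans h1.hT
      subst hyy
      obtain ⟨rfl, rfl⟩ := alt_dec hx hw hw'
      exact absurd ho (alt_two hS hT h1 (hu' ▸ List.mem_cons_self) (hv ▸ List.mem_cons_self) hd hd' hle hle' hc)
  | L k a =>
    obtain ⟨y, u, v, w, hx, hy, hw, hk, hu, hd⟩ := hs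
    have h1 := keyG hw hd hle
    cases s' with
    | T => exact absurd (S.B_sub_R (h1.hT ▸ hy)) (keyT hs' hle')
    | L k' a' =>
      obtain ⟨y', u', v', w', hx', hy', hw', hk', hu', hd'⟩ := hs'
      have h2 := keyG hw' hd' hle'
      have hyy : y' = y := h2.hT.symm.trans h1.hT
      subst hyy
      obtain ⟨rfl, rfl⟩ := alt_dec hx hw hw'
      have h3 : k = k' := hk.symm.trans hk'
      subst h3
      have h4 : a = a' := by
        cases v with
        | nil => exact keyA (z0 := x) (alt_leg h1) (fun h => absurd rfl h) hd hd' hle hle'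
        | cons zv v =>
          obtain ⟨-, zv', hzv1, hzv', hwv, -⟩ := alt_v h1 (z := zv) List.mem_cons_self
          exact keyA (z0 := zv') (alt_leg h1) (fun _ => ⟨hzv', hwv⟩) hd hd' hle hle'
      rw [h4]
    | R k' a' =>
      obtain ⟨y', u', v', w', hx', hy', hw', hk', hv', hd'⟩ := hs'
      have h2 := keyG hw' hd' hle'
      have hyy : y' = y := h2.hT.symm.trans h1.hT
      subst hyy
      obtain ⟨rfl, rfl⟩ := alt_dec hx hw hw'
      exact absurd ho (alt_two hS hT h1 (hu ▸ List.mem_cons_self) (hv' ▸ List.mem_cons_self) hd' hd hle' hle hc')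

theorem stt_not (hS : S.Typ (x :: l) (p :: P) F κ) (hT : T ∈ S.Ext g) (ho : κ < g ∨ l ≠ []) {s : Stp} (h : S.Stt T x s) :
    (∀ u v, ¬ S.NSt T x u v) ∧ (∀ u v, ¬ S.Sep T x u v) ∧ ¬ S.Mrg T x := by
  obtain ⟨S', z, hs, hle, hc⟩ := h
  have hST : S.Le T := hT.2
  have keyG : ∀ {y : Fin (6 * n)} {u v : List (Fin (6 * n))} {hx : x ∈ S.B} {hy : y ∈ S.B} {S' : Part (Fin (6 * n))}
      {w : List (Fin (6 * n))} {a : ℕ}, S.hw x = x :: (u ++ y :: v) → (S.glue x y hx hy).DiscFill S' w a → S'.Le T →
      AltS S T x y u v := by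
    intro y u v hx hy S' w a hw hd hle
    have hsub : (S.glue x y hx hy).Sub S' := by
      rcases hd with ⟨-, -, rfl⟩ | ⟨-, V, -, hf⟩
      · exact sub_refl _
      · exact hf.sub
    have hle2 := sub_le hsub hle
    have hxy := (alt_word hx hw).1
    have h3 : (S.glue x y hx hy).a x = y := alt_ga S hx hy
    have h4 : T.a x = y := by
      rw [hle2.2 x (by rw [h3]; exact hxy.symm), h3]
    exact ⟨hST, hx, hy, h4, hw⟩
  cases s with
  | T =>
    have h0 : T.a x ∉ S.R := by
      obtain ⟨t0, t1, t2, hx, h0, h1, h2, h01, h12, h20, rfl, -⟩ := hs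
      have h3 : (S.face x t0 t1 t2 hx h0 h1 h2 h01 h12 h20).a x = t0 := alt_fa S hx h0 h1 h2 h01 h12 h20
      have h4 : t0 ≠ x := by
        rintro rfl
        exact h0 (S.B_sub_R hx)
      rw [hle.2 x (by rw [h3]; exact h4), h3]
      exact h0
    refine ⟨?_, ?_, ?_⟩
    · rintro u v ⟨-, -, -, hx, hy, -⟩
      exact h0 (S.B_sub_R hy)
    · rintro u v ⟨-, -, -, hx, hy, -⟩
      exact h0 (S.B_sub_R hy)
    · rintro ⟨hy, -⟩
      exact h0 (S.B_sub_R hy)
  | R k a =>
    obtain ⟨y, u, v, w, hx, hy, hw, hk, hv, hd⟩ := hs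
    have h1 := keyG hw hd hle
    have hyy := h1.hT
    subst hyy
    refine ⟨?_, ?_, ?_⟩
    · rintro u' v' ⟨hu', hv', hw', hx', hy', hcg⟩
      obtain ⟨rfl, rfl⟩ := alt_dec hx hw hw'
      rcases hd with ⟨hd, -, -⟩ | ⟨-, V, -, hd⟩
      · exact hu' hd
      · obtain ⟨zu, hzu⟩ := List.exists_mem_of_ne_nil _ hu'
        obtain ⟨zv, hzv⟩ := List.exists_mem_of_ne_nil _ hv'
        obtain ⟨hzuB, zu', -, hzu', hwu, -⟩ := alt_u h1 hzu
        have hzvB := (alt_v h1 hzv).1
        have hH : (S.glue x (T.a x) hx hy).HUn {d | d ∈ u} := by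
          have := alt_hun hzu'
          rwa [hwu] at this
        obtain ⟨k1, -⟩ := fil_le_hc (alt_leg h1) hH hd hle hzu
        have k2 : zv ∈ (S.glue x (T.a x) hx hy).HC T zu := ⟨Or.inr hzvB, hcg zu (Or.inr hzuB) zv (Or.inr hzvB)⟩
        rw [k1] at k2
        rcases k2 with k2 | k2
        · exact k2.2 (Part.B_sub_R _ hzvB)
        · exact ((alt_word hx hw).2.2.2.1 zv hzv).1 k2
    · rintro u' v' ⟨hu', hv', hw', hx', hy', -, hnu, hnv⟩
      obtain ⟨rfl, rfl⟩ := alt_dec hx hw hw'
      obtain ⟨zu, hzu⟩ := List.exists_mem_of_ne_nil _ hu'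
      obtain ⟨hzuB, zu', hz1, hzu', hwu, -⟩ := alt_u h1 hzu
      have hz2 : zu' ∈ u := by
        have := alt_self hzu'
        rwa [hwu] at this
      exact hnu zu' hz2 a ((disc_iff (alt_leg h1) hzu' a).2 ⟨S', by rw [hwu]; exact hd, hle⟩)
    · rintro ⟨-, hn⟩
      exact hn (alt_word hx hw).2.1
  | L k a =>
    obtain ⟨y, u, v, w, hx, hy, hw, hk, hu, hd⟩ := hs
    have h1 := keyG hw hd hle
    have hyy := h1.hT
    subst hyy
    refine ⟨?_, ?_, ?_⟩
    · rintro u' v' ⟨hu', hv', hw', hx', hy', hcg⟩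
      obtain ⟨rfl, rfl⟩ := alt_dec hx hw hw'
      rcases hd with ⟨hd, -, -⟩ | ⟨-, V, -, hd⟩
      · exact hv' hd
      · obtain ⟨zu, hzu⟩ := List.exists_mem_of_ne_nil _ hu'
        obtain ⟨zv, hzv⟩ := List.exists_mem_of_ne_nil _ hv'
        obtain ⟨hzvB, zv', -, hzv', hwv, -⟩ := alt_v h1 hzv
        have hzuB := (alt_u h1 hzu).1
        have hH : (S.glue x (T.a x) hx hy).HUn {d | d ∈ v} := by
          have := alt_hun hzv'
          rwa [hwv] at this
        obtain ⟨k1, -⟩ := fil_le_hc (alt_leg h1) hH hd hle hzv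
        have k2 : zu ∈ (S.glue x (T.a x) hx hy).HC T zv := ⟨Or.inr hzuB, hcg zv (Or.inr hzvB) zu (Or.inr hzuB)⟩
        rw [k1] at k2
        rcases k2 with k2 | k2
        · exact k2.2 (Part.B_sub_R _ hzuB)
        · exact ((alt_word hx hw).2.2.1 zu hzu).1 k2
    · rintro u' v' ⟨hu', hv', hw', hx', hy', -, hnu, hnv⟩
      obtain ⟨rfl, rfl⟩ := alt_dec hx hw hw'
      obtain ⟨zv, hzv⟩ := List.exists_mem_of_ne_nil _ hv'
      obtain ⟨hzvB, zv', hz1, hzv', hwv, -⟩ := alt_v h1 hzv
      have hz2 : zv' ∈ v := by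
        have := alt_self hzv'
        rwa [hwv] at this
      exact hnv zv' hz2 a ((disc_iff (alt_leg h1) hzv' a).2 ⟨S', by rw [hwv]; exact hd, hle⟩)
    · rintro ⟨-, hn⟩
      exact hn (alt_word hx hw).2.1

/-- The run passes through the prefixes of its words only: two words of the same run are comparable. -/
theorem rch_cmp {ρ : List Stp → ℕ} {h w w' : List Stp} {S' S'' : Part (Fin (6 * n))} {x' x'' : Fin (6 * n)}
    (hS : S.Typ (x :: l) (p :: P) F κ) (hT : T ∈ S.Ext g) (ho : κ < g ∨ l ≠ []) (hr : Rch ρ h S x w S' x')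
    (hr' : Rch ρ h S x w' S'' x'') (hL : S'.Le T) (hL' : S''.Le T) (hc : S'.HConn T) (hc' : S''.HConn T) :
    w <+: w' ∨ w' <+: w := by
  induction w generalizing S x h w' p F with
  | nil => exact Or.inl (List.nil_prefix)
  | cons s w ih =>
    cases w' with
    | nil => exact Or.inr (List.nil_prefix)
    | cons s' w' =>
      obtain ⟨S₁, z, hs, hr1⟩ := hr
      obtain ⟨S₂, z', hs', hr2⟩ := hr'
      have hl1 := sub_le (rch_sub hr1) hL
      have hl2 := sub_le (rch_sub hr2) hL'
      have hc1 := rch_hconn hr1 hL hc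
      have hc2 := rch_hconn hr2 hL' hc'
      have hss : s = s' := stt_unique hS hT ho ⟨S₁, z, hs, hl1, hc1⟩ ⟨S₂, z', hs', hl2, hc2⟩
      subst hss
      obtain ⟨rfl, rfl⟩ := st_unique hs hs' (U := ofTri T) ((le_iff_sub _ T).1 hl1) ((le_iff_sub _ T).1 hl2)
      obtain ⟨-, F', -, ht⟩ := st_typ hS hs
      have hz := (st_sub hs).2.2
      obtain ⟨h1, h2⟩ := S₁.nx_pow_same hz (ρ (h ++ [s]))
      have ht' := typ_repl ht h1 h2
      have h3 := ih ht' ⟨hT.1, hl1⟩ hr1 hr2
      rcases h3 with h3 | h3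
      · exact Or.inl (List.cons_prefix_cons.2 ⟨rfl, h3⟩)
      · exact Or.inr (List.cons_prefix_cons.2 ⟨rfl, h3⟩)

end Part
end SYS
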