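import Pool.Agent.SYS.Lib.Alt

/-!
# SYS-Lib-PtwA: disjoint union of two regions of a triangulation

The two regions have disjoint sets of revealed darts, so the permutations of the union agree with those
of the parts on these sets; everything follows from this.
-/

namespace SYS
namespace Part

open Classical SST

variable {D : Type} [Finite D]

/-- `S2` is the disjoint union of `S0` and `S1`. -/
structure Dj (S0 S1 S2 : Part D) : Prop where
  disj : ∀ d, d ∈ S0.R → d ∉ S1.R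
  R : S2.R = S0.R ∪ S1.R
  B : S2.B = S0.B ∪ S1.B
  sub0 : S0.Sub S2
  sub1 : S1.Sub S2

variable {S0 S1 S2 : Part D} {T : Tri D}

private theorem dj_symm (h : Dj S0 S1 S2) : Dj S1 S0 S2 where
  disj := fun d hd hd' => h.disj d hd' hd
  R := by rw [h.R, Set.union_comm]
  B := by rw [h.B, Set.union_comm]
  sub0 := h.sub1
  sub1 := h.sub0

omit [Finite D] in
private theorem dj_mem_R (h : Dj S0 S1 S2) {d : D} : d ∈ S2.R ↔ d ∈ S0.R ∨ d ∈ S1.R := by
  rw [h.R]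
  rfl

omit [Finite D] in
private theorem dj_mem_B (h : Dj S0 S1 S2) {d : D} : d ∈ S2.B ↔ d ∈ S0.B ∨ d ∈ S1.B := by
  rw [h.B]
  rfl

omit [Finite D] in
private theorem dj_B1 (h : Dj S0 S1 S2) {d : D} (hd : d ∈ S1.R) : d ∈ S2.B ↔ d ∈ S1.B := by
  rw [dj_mem_B h]
  exact ⟨fun h' => h'.elim (fun h0 => absurd hd (h.disj d (S0.B_sub_R h0))) id, Or.inr⟩

omit [Finite D] in
private theorem dj_a1 (h : Dj S0 S1 S2) {d : D} (hd : d ∈ S1.R) : S2.a d = S1.a d := by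
  by_cases h1 : S1.a d = d
  · have h2 : d ∈ S2.B := (dj_mem_B h).2 (Or.inr ⟨hd, h1⟩)
    rw [h1, h2.2]
  · exact h.sub1.2 d h1

omit [Finite D] in
private theorem dj_f1 (h : Dj S0 S1 S2) {d : D} (hd : d ∈ S1.R) : S2.f d = S1.f d := h.sub1.1 d hd

omit [Finite D] in
private theorem dj_s1 (h : Dj S0 S1 S2) {d : D} (hd : d ∈ S1.R) : S2.s d = S1.s d := by
  rw [s_apply, s_apply, dj_a1 h hd, dj_f1 h ((S1.mem_R_a d).2 hd)]

omit [Finite D] in
private theorem dj_pow1 (h : Dj S0 S1 S2) {d : D} (hd : d ∈ S1.R) (n : ℕ) :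
    (S2.s ^ n) d = (S1.s ^ n) d ∧ (S1.s ^ n) d ∈ S1.R := by
  induction n with
  | zero => exact ⟨rfl, hd⟩
  | succ n ih =>
    rw [pow_succ', Equiv.Perm.mul_apply, pow_succ', Equiv.Perm.mul_apply, ih.1, dj_s1 h ih.2]
    exact ⟨rfl, (S1.mem_R_s _).2 ih.2⟩

private theorem dj_sc1 (h : Dj S0 S1 S2) {d : D} (hd : d ∈ S1.R) (e : D) :
    S2.s.SameCycle d e ↔ S1.s.SameCycle d e := by
  constructor
  · intro h1
    obtain ⟨n, hn⟩ := h1.exists_nat_pow_eq
    exact ⟨(n : ℤ), by rw [zpow_natCast, ← (dj_pow1 h hd n).1, hn]⟩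
  · intro h1
    obtain ⟨n, hn⟩ := h1.exists_nat_pow_eq
    exact ⟨(n : ℤ), by rw [zpow_natCast, (dj_pow1 h hd n).1, hn]⟩

private theorem dj_scR (h : Dj S0 S1 S2) {d e : D} (hd : d ∈ S1.R) (h1 : S2.s.SameCycle d e) :
    e ∈ S1.R := by
  obtain ⟨n, hn⟩ := h1.exists_nat_pow_eq
  rw [← hn, (dj_pow1 h hd n).1]
  exact (dj_pow1 h hd n).2

private theorem dj_nx1 (h : Dj S0 S1 S2) {d : D} (hd : d ∈ S1.B) : S2.nx d = S1.nx d := by
  have hdR := S1.B_sub_R hd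
  obtain ⟨j, e1, e2, e3⟩ := ret_spec S1.s hd
  have e4 : S1.nx d = (S1.s ^ (j + 1)) d := e1
  have e5 := ret_eq S2.s (X := S2.B) (d := d) (j := j) ((dj_B1 h hdR).2 hd)
    (by
      rw [(dj_pow1 h hdR (j + 1)).1, dj_B1 h (dj_pow1 h hdR (j + 1)).2, ← e1]
      exact e2)
    (by
      intro i hi
      rw [(dj_pow1 h hdR (i + 1)).1, dj_B1 h (dj_pow1 h hdR (i + 1)).2]
      exact e3 i hi)
  rw [(dj_pow1 h hdR (j + 1)).1, ← e4] at e5
  exact e5

private theorem dj_per1 (h : Dj S0 S1 S2) {x : D} (hx : x ∈ S1.B) : S2.per x = S1.per x := by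
  have hxR := S1.B_sub_R hx
  have h1 : S2.hole x = S1.hole x := by
    ext e
    show (e ∈ S2.B ∧ S2.s.SameCycle x e) ↔ (e ∈ S1.B ∧ S1.s.SameCycle x e)
    constructor
    · rintro ⟨h2, h3⟩
      exact ⟨(dj_B1 h (dj_scR h hxR h3)).1 h2, (dj_sc1 h hxR e).1 h3⟩
    · rintro ⟨h2, h3⟩
      exact ⟨(dj_B1 h (S1.B_sub_R h2)).2 h2, (dj_sc1 h hxR e).2 h3⟩
  unfold per
  rw [h1]

private theorem dj_npow (h : Dj S0 S1 S2) {x : D} (hx : x ∈ S1.B) (i : ℕ) :
    (S2.nx ^ i) x = (S1.nx ^ i) x ∧ (S1.nx ^ i) x ∈ S1.B := by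
  induction i with
  | zero => exact ⟨rfl, hx⟩
  | succ i ih =>
    rw [pow_succ', Equiv.Perm.mul_apply, pow_succ', Equiv.Perm.mul_apply, ih.1, dj_nx1 h ih.2]
    exact ⟨rfl, (S1.nx_mem).2 ih.2⟩

theorem le_ext {S S' : Part D} (h : S.Le T) (h' : S'.Le T) (hR : S.R = S'.R) (hB : S.B = S'.B) : S = S' := by
  have hRd : ∀ d, d ∈ S.R ↔ d ∈ S'.R := fun d => by rw [hR]
  have hBd : ∀ d, d ∈ S.B ↔ d ∈ S'.B := fun d => by rw [hB]
  refine Part.ext' (Equiv.ext fun d => ?_) (Equiv.ext fun d => ?_)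
  · by_cases h1 : d ∈ S.R
    · by_cases h2 : d ∈ S.B
      · rw [h2.2, ((hBd d).1 h2).2]
      · have h3 : S.a d ≠ d := fun h3 => h2 ⟨h1, h3⟩
        have h4 : S'.a d ≠ d := fun h4 => h2 ((hBd d).2 ⟨(hRd d).1 h1, h4⟩)
        rw [← h.2 d h3, ← h'.2 d h4]
    · have h1' : d ∉ S'.R := fun h2 => h1 ((hRd d).2 h2)
      rw [S.af d (not_not.1 h1), S'.af d (not_not.1 h1')]
  · by_cases h1 : d ∈ S.R
    · rw [← h.1 d h1, ← h'.1 d ((hRd d).1 h1)]
    · have h1' : d ∉ S'.R := fun h2 => h1 ((hRd d).2 h2)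
      rw [show S.f d = d from not_not.1 h1, show S'.f d = d from not_not.1 h1']

theorem dj_hw (h : Dj S0 S1 S2) {x : D} (hx : x ∈ S1.B) : S2.hw x = S1.hw x := by
  unfold hw
  rw [dj_per1 h hx]
  refine List.map_congr_left fun i _ => ?_
  exact (dj_npow h hx i).1

theorem dj_hw0 (h : Dj S0 S1 S2) {x : D} (hx : x ∈ S0.B) : S2.hw x = S0.hw x :=
  dj_hw (dj_symm h) hx

theorem dj_same (h : Dj S0 S1 S2) {d e : D} (hd : d ∈ S0.R) (he : e ∈ S1.R) : ¬ S2.s.SameCycle d e := by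
  intro h1
  exact h.disj e (dj_scR (dj_symm h) hd h1) he

private theorem dj_ncyc {σ : Equiv.Perm D} {X Y : Set D}
    (hXY : ∀ d ∈ X, ∀ e ∈ Y, ¬ σ.SameCycle d e) : ncycOn σ (X ∪ Y) = ncycOn σ X + ncycOn σ Y := by
  unfold ncycOn
  rw [← Set.ncard_union_eq]
  · congr 1
    ext q
    constructor
    · rintro ⟨d, hd | hd, h1⟩
      · exact Or.inl ⟨d, hd, h1⟩
      · exact Or.inr ⟨d, hd, h1⟩
    · rintro (⟨d, hd, h1⟩ | ⟨d, hd, h1⟩)
      · exact ⟨d, Or.inl hd, h1⟩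
      · exact ⟨d, Or.inr hd, h1⟩
  · rw [Set.disjoint_left]
    rintro q ⟨d, hd, h1⟩ ⟨e, he, h2⟩
    refine hXY d hd e he ?_
    rw [← h2] at h1
    exact Quotient.exact h1

theorem dj_typ (h : Dj S0 S1 S2) {l0 l1 : List D} {P0 P1 : List ℕ} {F0 F1 F2 N κ0 κ1 : ℕ} (h0 : S0.Typ l0 P0 F0 κ0)
    (h1 : S1.Typ l1 P1 F1 κ1) (hF : F0 + F1 = F2 + N) (hD : Nat.card D = 3 * N) (hne : l1 ++ l0 ≠ []) :
    S2.Typ (l1 ++ l0) (P1 ++ P0) F2 (κ1 + κ0) := by
  have h' := dj_symm h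
  have hRc : S2.R.ncard = S0.R.ncard + S1.R.ncard := by
    rw [h.R, Set.ncard_union_eq]
    · rw [Set.disjoint_left]
      exact fun d hd hd' => h.disj d hd hd'
  have hHL : S2.HL (l1 ++ l0) := by
    refine ⟨?_, ?_, ?_⟩
    · intro d hd
      rcases List.mem_append.1 hd with hd | hd
      · exact (dj_mem_B h).2 (Or.inr (h1.hl.1 d hd))
      · exact (dj_mem_B h).2 (Or.inl (h0.hl.1 d hd))
    · rw [List.pairwise_append]
      refine ⟨?_, ?_, ?_⟩
      · refine List.Pairwise.imp_of_mem ?_ h1.hl.2.1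
        intro d e hd _ hne' hs
        exact hne' ((dj_sc1 h (S1.B_sub_R (h1.hl.1 d hd)) e).1 hs)
      · refine List.Pairwise.imp_of_mem ?_ h0.hl.2.1
        intro d e hd _ hne' hs
        exact hne' ((dj_sc1 h' (S0.B_sub_R (h0.hl.1 d hd)) e).1 hs)
      · intro d hd e he hs
        exact dj_same h (S0.B_sub_R (h0.hl.1 e he)) (S1.B_sub_R (h1.hl.1 d hd)) hs.symm
    · intro d hd
      rcases (dj_mem_B h).1 hd with hd | hd
      · obtain ⟨e, he, hs⟩ := h0.hl.2.2 d hd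
        exact ⟨e, List.mem_append.2 (Or.inr he), (dj_sc1 h' (S0.B_sub_R (h0.hl.1 e he)) d).2 hs⟩
      · obtain ⟨e, he, hs⟩ := h1.hl.2.2 d hd
        exact ⟨e, List.mem_append.2 (Or.inl he), (dj_sc1 h (S1.B_sub_R (h1.hl.1 e he)) d).2 hs⟩
  have hinn : S2.inn = S0.inn + S1.inn := by
    have e2 := inn_eq S2
    have e1 := inn_eq S1
    have e0 := inn_eq S0
    have c1 : ncycOn S2.s S1.R = ncycOn S1.s S1.R :=
      ncycOn_congr (fun d => S1.mem_R_s d) fun d hd => dj_s1 h hd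
    have c0 : ncycOn S2.s S0.R = ncycOn S0.s S0.R :=
      ncycOn_congr (fun d => S0.mem_R_s d) fun d hd => dj_s1 h' hd
    have c2 : ncycOn S2.s S2.R = ncycOn S2.s S0.R + ncycOn S2.s S1.R := by
      conv_lhs => rw [h.R]
      exact dj_ncyc fun d hd e he => dj_same h hd he
    rw [hl_ncyc hHL, List.length_append] at e2
    rw [hl_ncyc h1.hl] at e1
    rw [hl_ncyc h0.hl] at e0
    omega
  refine ⟨hHL, ?_, ?_, ?_, ?_, Or.inl hne⟩
  · rw [List.map_append, ← h0.per, ← h1.per]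
    congr 1
    · refine List.map_congr_left fun d hd => ?_
      exact dj_per1 h (h1.hl.1 d hd)
    · refine List.map_congr_left fun d hd => ?_
      exact dj_per1 h' (h0.hl.1 d hd)
  · have v0 := h0.vol
    have v1 := h1.vol
    omega
  · intro d hd
    rcases (dj_mem_R h).1 hd with hd | hd
    · obtain ⟨e, he, hc⟩ := h0.tc d hd
      exact ⟨e, (dj_mem_B h).2 (Or.inl he), cn_sub h.sub0 hd hc⟩
    · obtain ⟨e, he, hc⟩ := h1.tc d hd
      exact ⟨e, (dj_mem_B h).2 (Or.inr he), cn_sub h.sub1 hd hc⟩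
  · have e0 := h0.eul
    have e1 := h1.eul
    rw [hRc, hinn, List.length_append, List.sum_append]
    omega

omit [Finite D] in
private theorem dj_X (h : Dj S0 S1 S2) {d : D} (hd : d ∈ S2.X) : d ∈ S1.X := by
  rcases hd with hd | hd
  · exact Or.inl fun h1 => hd ((dj_mem_R h).2 (Or.inr h1))
  · rcases (dj_mem_B h).1 hd with hd | hd
    · exact Or.inl fun h1 => h.disj d (S0.B_sub_R hd) h1
    · exact Or.inr hd

/-- The darts of `S0` are in one hidden component of `S1`. -/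
private theorem dj_conn' (h : Dj S0 S1 S2) (hT : S2.Le T) {d e : D} (hd : d ∈ S0.R)
    (hc : S0.Cn d e) : S1.Hc T d e := by
  have h0 : S0.Le T := sub_le h.sub0 hT
  have key : (d ∈ S0.R ↔ e ∈ S0.R) ∧ (d ∈ S0.R → S1.Hc T d e) := by
    clear hd
    unfold Cn at hc
    induction hc with
    | rel d e h1 =>
      rcases h1 with rfl | rfl
      · refine ⟨(S0.mem_R_a d).symm, fun hd => ?_⟩
        by_cases h2 : S0.a d = d
        · rw [h2]
          exact hc_refl S1 T d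
        · rw [← h0.2 d h2]
          exact hc_a (Or.inl fun h3 => h.disj d hd h3)
      · refine ⟨(S0.mem_R_f d).symm, fun hd => ?_⟩
        rw [← h0.1 d hd]
        exact hc_f fun h3 => h.disj d hd h3
    | refl d => exact ⟨Iff.rfl, fun _ => hc_refl S1 T d⟩
    | symm d e _ ih => exact ⟨ih.1.symm, fun he => hc_symm (ih.2 (ih.1.2 he))⟩
    | trans d e k _ _ ih1 ih2 =>
      exact ⟨ih1.1.trans ih2.1, fun hd => hc_trans (ih1.2 hd) (ih2.2 (ih1.1.1 hd))⟩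
  exact key.2 hd

/-- Related in the smaller hidden part, so related in the larger one. -/
theorem dj_hc (h : Dj S0 S1 S2) (hT : S2.Le T) (hc0 : S0.Con) {d e : D} (hd : d ∈ S2.X) (he : S2.Hc T d e) : S1.Hc T d e := by
  have key : (d ∈ S2.X ↔ e ∈ S2.X) ∧ (d ∈ S2.X → S1.Hc T d e) := by
    refine hc_ind (S := S2) (T := T)
      (fun d e => (d ∈ S2.X ↔ e ∈ S2.X) ∧ (d ∈ S2.X → S1.Hc T d e))
      (fun d => ⟨Iff.rfl, fun _ => hc_refl S1 T d⟩)
      (fun d e h => ⟨h.1.symm, fun he => hc_symm (h.2 (h.1.2 he))⟩)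
      (fun d e k h h' => ⟨h.1.trans h'.1, fun hd => hc_trans (h.2 hd) (h'.2 (h.1.1 hd))⟩)
      ?_ ?_ ?_ he
    · intro d hd
      exact ⟨(X_a hT d).symm, fun hd => hc_a (dj_X h hd)⟩
    · intro d hd
      refine ⟨⟨fun _ => Or.inl fun h1 => hd ((le_f_mem hT d).1 h1), fun _ => Or.inl hd⟩, fun _ => ?_⟩
      exact hc_f fun h1 => hd ((dj_mem_R h).2 (Or.inr h1))
    · intro d hd
      refine ⟨⟨fun _ => Or.inr ((S2.nx_mem).2 hd), fun _ => Or.inr hd⟩, fun _ => ?_⟩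
      rcases (dj_mem_B h).1 hd with hd0 | hd1
      · have h2 : S2.nx d = S0.nx d := dj_nx1 (dj_symm h) hd0
        rw [h2]
        have h3 : S0.nx d ∈ S0.B := (S0.nx_mem).2 hd0
        exact dj_conn' h hT (S0.B_sub_R hd0) (hc0 d (S0.B_sub_R hd0) _ (S0.B_sub_R h3))
      · rw [dj_nx1 h hd1]
        exact hc_nx hd1
  exact key.2 hd

private theorem dj_hcb (h : Dj S0 S1 S2) {d e : D} (hn : ∀ z ∈ S0.R, ¬ S1.Hc T d z)
    (he : S1.Hc T d e) : S2.Hc T d e := by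
  have key : S1.Hc T d e ∧ ((∀ z ∈ S0.R, ¬ S1.Hc T d z) → S2.Hc T d e) := by
    refine hc_ind (S := S1) (T := T)
      (fun a b => S1.Hc T a b ∧ ((∀ z ∈ S0.R, ¬ S1.Hc T a z) → S2.Hc T a b))
      (fun d => ⟨hc_refl S1 T d, fun _ => hc_refl S2 T d⟩)
      (fun a b h => ⟨hc_symm h.1, fun hb => hc_symm (h.2 fun z hz h1 =>
        hb z hz (hc_trans (hc_symm h.1) h1))⟩)
      (fun a b k h h' => ⟨hc_trans h.1 h'.1, fun ha => hc_trans (h.2 ha) (h'.2 fun z hz h1 =>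
        ha z hz (hc_trans h.1 h1))⟩)
      ?_ ?_ ?_ he
    · intro a ha
      refine ⟨hc_a ha, fun h1 => hc_a ?_⟩
      rcases ha with ha | ha
      · left
        intro h2
        rcases (dj_mem_R h).1 h2 with h3 | h3
        · exact h1 a h3 (hc_refl S1 T a)
        · exact ha h3
      · exact Or.inr ((dj_mem_B h).2 (Or.inr ha))
    · intro a ha
      refine ⟨hc_f ha, fun h1 => hc_f ?_⟩
      intro h2
      rcases (dj_mem_R h).1 h2 with h3 | h3
      · exact h1 a h3 (hc_refl S1 T a)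
      · exact ha h3
    · intro a ha
      refine ⟨hc_nx ha, fun _ => ?_⟩
      rw [← dj_nx1 h ha]
      exact hc_nx ((dj_mem_B h).2 (Or.inr ha))
  exact key.2 hn

theorem dj_hc' (h : Dj S0 S1 S2) (hT : S2.Le T) {d e : D} (hd : d ∈ S1.X) (hn : ∀ z ∈ S0.R, ¬ S1.Hc T d z)
    (he : S1.Hc T d e) : S2.Hc T d e :=
  dj_hcb h hn he

theorem dj_conn (h : Dj S0 S1 S2) (hT : S2.Le T) (hc0 : S0.Con) {d e : D} (hd : d ∈ S0.R) (he : e ∈ S0.R) : S1.Hc T d e :=
  dj_conn' h hT hd (hc0 d hd e he)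

omit [Finite D] in
private theorem dj_cyc {t0 t1 t2 d : D} (h : cyc3 t0 t1 t2 d ≠ d) :
    cyc3 t0 t1 t2 d = t0 ∨ cyc3 t0 t1 t2 d = t1 ∨ cyc3 t0 t1 t2 d = t2 := by
  unfold cyc3 at h ⊢
  rw [Equiv.Perm.mul_apply] at h ⊢
  by_cases e1 : d = t1
  · rw [e1, Equiv.swap_apply_left]
    by_cases e2 : t2 = t0
    · rw [e2, Equiv.swap_apply_left]
      exact Or.inr (Or.inl rfl)
    · by_cases e3 : t2 = t1
      · rw [e3, Equiv.swap_apply_right]
        exact Or.inl rfl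
      · rw [Equiv.swap_apply_of_ne_of_ne e2 e3]
        exact Or.inr (Or.inr rfl)
  · by_cases e2 : d = t2
    · rw [e2, Equiv.swap_apply_right, Equiv.swap_apply_right]
      exact Or.inl rfl
    · rw [Equiv.swap_apply_of_ne_of_ne e1 e2] at h ⊢
      by_cases e3 : d = t0
      · rw [e3, Equiv.swap_apply_left]
        exact Or.inr (Or.inl rfl)
      · rw [Equiv.swap_apply_of_ne_of_ne e3 e1] at h
        exact absurd rfl h

omit [Finite D] in
private theorem dj_fcyc (h : Dj S0 S1 S2) {t0 t1 t2 : D} (h0' : t0 ∉ S2.R) (h1' : t1 ∉ S2.R)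
    (h2' : t2 ∉ S2.R) (d : D) (hd : (S1.f * cyc3 t0 t1 t2) d ≠ d) :
    (S2.f * cyc3 t0 t1 t2) d = (S1.f * cyc3 t0 t1 t2) d := by
  rw [Equiv.Perm.mul_apply] at hd
  rw [Equiv.Perm.mul_apply, Equiv.Perm.mul_apply]
  by_cases hc : cyc3 t0 t1 t2 d ∈ S1.R
  · exact dj_f1 h hc
  · have e1 : S1.f (cyc3 t0 t1 t2 d) = cyc3 t0 t1 t2 d := not_not.1 hc
    rw [e1] at hd ⊢
    have e2 : cyc3 t0 t1 t2 d ∉ S2.R := by
      rcases dj_cyc hd with h3 | h3 | h3
      · rw [h3]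
        exact h0'
      · rw [h3]
        exact h1'
      · rw [h3]
        exact h2'
    exact not_not.1 e2

theorem dj_face (h : Dj S0 S1 S2) {x t0 t1 t2 : D} (hx : x ∈ S1.B) (hx' : x ∈ S2.B) (h0 : t0 ∉ S1.R) (h1 : t1 ∉ S1.R)
    (h2 : t2 ∉ S1.R) (h0' : t0 ∉ S2.R) (h1' : t1 ∉ S2.R) (h2' : t2 ∉ S2.R) (h01 : t0 ≠ t1) (h12 : t1 ≠ t2) (h20 : t2 ≠ t0) :
    Dj S0 (S1.face x t0 t1 t2 hx h0 h1 h2 h01 h12 h20) (S2.face x t0 t1 t2 hx' h0' h1' h2' h01 h12 h20) where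
  disj := by
    intro d hd hd'
    rw [face_R] at hd'
    have hd2 : d ∈ S2.R := (dj_mem_R h).2 (Or.inl hd)
    rcases hd' with h3 | h3 | h3 | h3
    · exact h.disj d hd h3
    · exact h0' (h3 ▸ hd2)
    · exact h1' (h3 ▸ hd2)
    · exact h2' (h3 ▸ hd2)
  R := by
    rw [face_R, face_R, h.R, Set.union_assoc]
  B := by
    rw [face_B, face_B, h.B]
    have hx0 : x ∉ S0.B := fun h3 => h.disj x (S0.B_sub_R h3) (S1.B_sub_R hx)
    ext d
    simp only [Set.mem_union, Set.mem_sdiff, Set.mem_singleton_iff, Set.mem_insert_iff]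
    constructor
    · rintro (⟨h3 | h3, h4⟩ | h3)
      · exact Or.inl h3
      · exact Or.inr (Or.inl ⟨h3, h4⟩)
      · exact Or.inr (Or.inr h3)
    · rintro (h3 | ⟨h3, h4⟩ | h3)
      · exact Or.inl ⟨Or.inl h3, fun h4 => hx0 (h4 ▸ h3)⟩
      · exact Or.inl ⟨Or.inr h3, h4⟩
      · exact Or.inr h3
  sub0 := sub_trans h.sub0 (face_sub S2 hx' h0' h1' h2' h01 h12 h20)
  sub1 := by
    refine ⟨fun d hd => dj_fcyc h h0' h1' h2' d hd, fun d hd => ?_⟩
    change (S1.a * Equiv.swap x t0) d ≠ d at hd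
    show (S2.a * Equiv.swap x t0) d = (S1.a * Equiv.swap x t0) d
    rw [Equiv.Perm.mul_apply] at hd
    rw [Equiv.Perm.mul_apply, Equiv.Perm.mul_apply]
    by_cases hc : Equiv.swap x t0 d ∈ S1.R
    · exact dj_a1 h hc
    · have e1 : S1.a (Equiv.swap x t0 d) = Equiv.swap x t0 d := S1.af _ (not_not.1 hc)
      rw [e1] at hd ⊢
      by_cases e2 : d = x
      · rw [e2, Equiv.swap_apply_left]
        exact S2.af _ (not_not.1 h0')
      · by_cases e3 : d = t0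
        · rw [e3, Equiv.swap_apply_right] at hc
          exact absurd (S1.B_sub_R hx) hc
        · rw [Equiv.swap_apply_of_ne_of_ne e2 e3] at hd
          exact absurd rfl hd

theorem dj_newTri (h : Dj S0 S1 S2) {t0 t1 t2 : D} (h0 : t0 ∉ S1.R) (h1 : t1 ∉ S1.R)
    (h2 : t2 ∉ S1.R) (h0' : t0 ∉ S2.R) (h1' : t1 ∉ S2.R) (h2' : t2 ∉ S2.R) (h01 : t0 ≠ t1) (h12 : t1 ≠ t2) (h20 : t2 ≠ t0) :
    Dj S0 (S1.newTri t0 t1 t2 h0 h1 h2 h01 h12 h20) (S2.newTri t0 t1 t2 h0' h1' h2' h01 h12 h20) where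
  disj := by
    intro d hd hd'
    rw [newTri_R] at hd'
    have hd2 : d ∈ S2.R := (dj_mem_R h).2 (Or.inl hd)
    rcases hd' with h3 | h3 | h3 | h3
    · exact h.disj d hd h3
    · exact h0' (h3 ▸ hd2)
    · exact h1' (h3 ▸ hd2)
    · exact h2' (h3 ▸ hd2)
  R := by
    rw [newTri_R, newTri_R, h.R, Set.union_assoc]
  B := by
    rw [newTri_B, newTri_B, h.B, Set.union_assoc]
  sub0 := sub_trans h.sub0 (newTri_sub S2 h0' h1' h2' h01 h12 h20)
  sub1 := ⟨fun d hd => dj_fcyc h h0' h1' h2' d hd, fun d hd => h.sub1.2 d hd⟩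

theorem dj_glue (h : Dj S0 S1 S2) {x y : D} (hx : x ∈ S1.B) (hx' : x ∈ S2.B) (hy : y ∈ S1.B) (hy' : y ∈ S2.B) (hxy : x ≠ y) :
    Dj S0 (S1.glue x y hx hy) (S2.glue x y hx' hy') where
  disj := h.disj
  R := h.R
  B := by
    rw [glue_B _ hx' hy' hxy, glue_B _ hx hy hxy, h.B]
    have hx0 : x ∉ S0.B := fun h3 => h.disj x (S0.B_sub_R h3) (S1.B_sub_R hx)
    have hy0 : y ∉ S0.B := fun h3 => h.disj y (S0.B_sub_R h3) (S1.B_sub_R hy)
    ext d
    simp only [Set.mem_union, Set.mem_sdiff, Set.mem_singleton_iff, Set.mem_insert_iff]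
    constructor
    · rintro ⟨h3 | h3, h4⟩
      · exact Or.inl h3
      · exact Or.inr ⟨h3, h4⟩
    · rintro (h3 | ⟨h3, h4⟩)
      · refine ⟨Or.inl h3, ?_⟩
        rintro (h4 | h4)
        · exact hx0 (h4 ▸ h3)
        · exact hy0 (h4 ▸ h3)
      · exact ⟨Or.inr h3, h4⟩
  sub0 := sub_trans h.sub0 (glue_sub S2 hx' hy')
  sub1 := by
    refine ⟨fun d hd => h.sub1.1 d hd, fun d hd => ?_⟩
    change (S1.a * Equiv.swap x y) d ≠ d at hd
    show (S2.a * Equiv.swap x y) d = (S1.a * Equiv.swap x y) d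
    rw [Equiv.Perm.mul_apply] at hd
    rw [Equiv.Perm.mul_apply, Equiv.Perm.mul_apply]
    by_cases e2 : d = x
    · rw [e2, Equiv.swap_apply_left]
      exact dj_a1 h (S1.B_sub_R hy)
    · by_cases e3 : d = y
      · rw [e3, Equiv.swap_apply_right]
        exact dj_a1 h (S1.B_sub_R hx)
      · rw [Equiv.swap_apply_of_ne_of_ne e2 e3] at hd ⊢
        exact h.sub1.2 d hd

omit [Finite D] in
private theorem dj_subLe {S S' : Part D} (h : S.Le T) (h' : S'.Le T) (hR : ∀ d ∈ S.R, d ∈ S'.R)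
    (hB : ∀ d ∈ S.R, d ∈ S'.B → d ∈ S.B) : S.Sub S' := by
  refine ⟨fun d hd => ?_, fun d hd => ?_⟩
  · rw [← h.1 d hd, ← h'.1 d (hR d hd)]
  · have h1 : d ∈ S.R := fun h1 => hd (S.af d h1)
    have h2 : S'.a d ≠ d := by
      intro h2
      exact hd (hB d h1 ⟨hR d h1, h2⟩).2
    rw [← h.2 d hd, ← h'.2 d h2]

/-- Filling a hidden component of `S1` which does not contain `S0`. -/
theorem dj_fill (h : Dj S0 S1 S2) (hT : S2.Le T) (h1 : S1.Le T) {x : D} (hx : x ∈ S1.B) (hn : ∀ z ∈ S0.R, ¬ S1.Hc T x z) :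
    Dj S0 (S1.fill T h1 x) (S2.fill T hT x) ∧ S2.HC T x = S1.HC T x := by
  have hHC : S2.HC T x = S1.HC T x := by
    ext d
    constructor
    · rintro ⟨hd, hd'⟩
      refine ⟨dj_X h hd, ?_⟩
      have key : S1.Hc T x x ↔ S1.Hc T x d := by
        refine hc_ind (S := S2) (T := T) (fun a b => S1.Hc T x a ↔ S1.Hc T x b)
          (fun _ => Iff.rfl) (fun _ _ h => h.symm) (fun _ _ _ h h' => h.trans h') ?_ ?_ ?_ hd'
        · intro a ha
          have h3 : S1.Hc T a (T.a a) := hc_a (dj_X h ha)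
          exact ⟨fun h4 => hc_trans h4 h3, fun h4 => hc_trans h4 (hc_symm h3)⟩
        · intro a ha
          have h3 : S1.Hc T a (T.f a) := hc_f fun h4 => ha ((dj_mem_R h).2 (Or.inr h4))
          exact ⟨fun h4 => hc_trans h4 h3, fun h4 => hc_trans h4 (hc_symm h3)⟩
        · intro a ha
          rcases (dj_mem_B h).1 ha with ha0 | ha1
          · have h2 : S2.nx a = S0.nx a := dj_nx1 (dj_symm h) ha0
            have h3 : S0.nx a ∈ S0.B := (S0.nx_mem).2 ha0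
            rw [h2]
            exact ⟨fun h4 => absurd h4 (hn a (S0.B_sub_R ha0)),
              fun h4 => absurd h4 (hn _ (S0.B_sub_R h3))⟩
          · rw [dj_nx1 h ha1]
            have h3 : S1.Hc T a (S1.nx a) := hc_nx ha1
            exact ⟨fun h4 => hc_trans h4 h3, fun h4 => hc_trans h4 (hc_symm h3)⟩
      exact key.1 (hc_refl S1 T x)
    · rintro ⟨hd, hd'⟩
      have h2 : S2.Hc T x d := dj_hcb h hn hd'
      exact ⟨(hc_mem hT h2).1 (Or.inr ((dj_mem_B h).2 (Or.inr hx))), h2⟩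
  have hH0 : ∀ d ∈ S0.R, d ∉ S1.HC T x := fun d hd hd' => hn d hd hd'.2
  have hR2 : (S2.fill T hT x).R = S0.R ∪ (S1.fill T h1 x).R := by
    rw [fill_R, fill_R, hHC, h.R, Set.union_assoc]
  have hB2 : (S2.fill T hT x).B = S0.B ∪ (S1.fill T h1 x).B := by
    rw [fill_B, fill_B, hHC, h.B]
    ext d
    simp only [Set.mem_union, Set.mem_sdiff]
    constructor
    · rintro ⟨h3 | h3, h4⟩
      · exact Or.inl h3
      · exact Or.inr ⟨h3, h4⟩
    · rintro (h3 | ⟨h3, h4⟩)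
      · exact ⟨Or.inl h3, hH0 d (S0.B_sub_R h3)⟩
      · exact ⟨Or.inr h3, h4⟩
  have hdisj : ∀ d, d ∈ S0.R → d ∉ (S1.fill T h1 x).R := by
    intro d hd hd'
    rw [fill_R] at hd'
    rcases hd' with h3 | h3
    · exact h.disj d hd h3
    · exact hH0 d hd h3
  refine ⟨⟨hdisj, hR2, hB2, sub_trans h.sub0 (sub_fill hT x), ?_⟩, hHC⟩
  refine dj_subLe (fill_le h1 x) (fill_le hT x) (fun d hd => ?_) (fun d hd hd' => ?_)
  · rw [hR2]
    exact Or.inr hd
  · rw [hB2] at hd'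
    rcases hd' with h3 | h3
    · exact absurd hd (hdisj d (S0.B_sub_R h3))
    · exact h3

theorem dj_emp (S : Part D) : Dj S emp S := by
  have hR : ∀ d : D, d ∉ (emp : Part D).R := fun d hd => hd rfl
  refine ⟨fun d _ hd => hR d hd, ?_, ?_, sub_refl S, ⟨fun d hd => absurd hd (hR d), fun d hd => absurd rfl hd⟩⟩
  · ext d
    exact ⟨Or.inl, fun h => h.elim id fun h1 => absurd h1 (hR d)⟩
  · ext d
    exact ⟨Or.inl, fun h => h.elim id fun h1 => absurd h1.1 (hR d)⟩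

end Part
end SYS
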