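import Pool.Agent.SYS.Lib.St
import Pool.Agent.SYS.Lib.HidC
import Pool.Agent.SYS.Lib.HidD

/-!
# SYS-Lib-Rch: regions reached by a numeric word under a local rule

`ρ : List Stp → ℕ` = the local rule (a function of the numeric history, including the last step); the new gate is `nx ^ ρ` of the first dart of the
outer hole word.

PLAN.
* `st_unique`: everything is determined by a larger region `U`: `T`: `t0 = U.a x` (`S'.a x = t0 ≠ x`), `t1 = U.f t0`, `t2 = U.f t1`; `R k a`, `L k a`: `y = U.a x`, so `u, v` are determined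
  (`S.hw x` has no repetitions: `hw_nodup`), `S' = glue` or `fil_unique` (`H = {d | d ∈ u}` is a hole of the glued region: `hw_glue_split_left`, `mem_hw`).
* `rch_typ`: induction on the word with `st_typ`, `typ_repl` (`nx_pow_same`).
* `rch_sub`, `rch_other`, `rch_append`, `rch_unique`: induction on the word with `st_sub`, `st_other`, `st_unique` (`sub_trans`).
* `st_hconn`: hidden components.  `T`: `hc_face` (the new hidden set contains `t1`, and `x, t0` are related to it: `hc_a`, `hc_f`).  `R k a`: `S₁ = glue x y`; hidden darts of `S'` are all related in `S'`, hence in `S₁`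
  (`S' = fill`: `fil_le_hc`, `hc_fill`), the darts of the filled part are related to the first of `u` (they are the hidden component `fil_le_hc`); `hc_glue_split` direction ←: everything is related in `S`; `x`, `y` are related to `u`, `v` by `hc_hole`.
-/

namespace SYS
namespace Part

open Classical SST

variable {D : Type} [Finite D]

private theorem face_a (S : Part D) {x t0 t1 t2 : D} (hx : x ∈ S.B) (h0 : t0 ∉ S.R) (h1 : t1 ∉ S.R) (h2 : t2 ∉ S.R)
    (h01 : t0 ≠ t1) (h12 : t1 ≠ t2) (h20 : t2 ≠ t0) :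
    (S.face x t0 t1 t2 hx h0 h1 h2 h01 h12 h20).a x = t0 := by
  have hf : S.f t0 = t0 := not_not.1 h0
  have ha : S.a t0 = t0 := S.af t0 hf
  show (S.a * Equiv.swap x t0) x = t0
  rw [Equiv.Perm.mul_apply, Equiv.swap_apply_left, ha]

private theorem face_f0 (S : Part D) {x t0 t1 t2 : D} (hx : x ∈ S.B) (h0 : t0 ∉ S.R) (h1 : t1 ∉ S.R) (h2 : t2 ∉ S.R)
    (h01 : t0 ≠ t1) (h12 : t1 ≠ t2) (h20 : t2 ≠ t0) :
    (S.face x t0 t1 t2 hx h0 h1 h2 h01 h12 h20).f t0 = t1 := by
  have hf : S.f t1 = t1 := not_not.1 h1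
  show (S.f * cyc3 t0 t1 t2) t0 = t1
  rw [Equiv.Perm.mul_apply, cyc3, Equiv.Perm.mul_apply, Equiv.swap_apply_of_ne_of_ne h01 h20.symm, Equiv.swap_apply_left, hf]

private theorem face_f1 (S : Part D) {x t0 t1 t2 : D} (hx : x ∈ S.B) (h0 : t0 ∉ S.R) (h1 : t1 ∉ S.R) (h2 : t2 ∉ S.R)
    (h01 : t0 ≠ t1) (h12 : t1 ≠ t2) (h20 : t2 ≠ t0) :
    (S.face x t0 t1 t2 hx h0 h1 h2 h01 h12 h20).f t1 = t2 := by
  have hf : S.f t2 = t2 := not_not.1 h2
  show (S.f * cyc3 t0 t1 t2) t1 = t2
  rw [Equiv.Perm.mul_apply, cyc3, Equiv.Perm.mul_apply, Equiv.swap_apply_left, Equiv.swap_apply_of_ne_of_ne h20 h12.symm, hf]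

private theorem glue_ax (S : Part D) {x y : D} (hx : x ∈ S.B) (hy : y ∈ S.B) :
    (S.glue x y hx hy).a x = y := by
  show (S.a * Equiv.swap x y) x = y
  rw [Equiv.Perm.mul_apply, Equiv.swap_apply_left, hy.2]

private theorem sub_face_vals {S U : Part D} {x t0 t1 t2 : D} (hx : x ∈ S.B) (h0 : t0 ∉ S.R) (h1 : t1 ∉ S.R) (h2 : t2 ∉ S.R)
    (h01 : t0 ≠ t1) (h12 : t1 ≠ t2) (h20 : t2 ≠ t0) (hU : (S.face x t0 t1 t2 hx h0 h1 h2 h01 h12 h20).Sub U) :
    U.a x = t0 ∧ U.f t0 = t1 ∧ U.f t1 = t2 := by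
  have hxt : x ≠ t0 := fun h => h0 (h ▸ hx.1)
  refine ⟨?_, ?_, ?_⟩
  · rw [hU.2 x (by rw [face_a S hx h0 h1 h2 h01 h12 h20]; exact hxt.symm), face_a S hx h0 h1 h2 h01 h12 h20]
  · rw [hU.1 t0 (by rw [face_f0 S hx h0 h1 h2 h01 h12 h20]; exact h01.symm), face_f0 S hx h0 h1 h2 h01 h12 h20]
  · rw [hU.1 t1 (by rw [face_f1 S hx h0 h1 h2 h01 h12 h20]; exact h12.symm), face_f1 S hx h0 h1 h2 h01 h12 h20]

private theorem le_face_vals {S : Part D} {T : Tri D} {x t0 t1 t2 : D} (hx : x ∈ S.B) (h0 : t0 ∉ S.R) (h1 : t1 ∉ S.R)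
    (h2 : t2 ∉ S.R) (h01 : t0 ≠ t1) (h12 : t1 ≠ t2) (h20 : t2 ≠ t0)
    (hU : (S.face x t0 t1 t2 hx h0 h1 h2 h01 h12 h20).Le T) :
    T.a x = t0 ∧ T.f t0 = t1 ∧ T.f t1 = t2 := by
  exact sub_face_vals hx h0 h1 h2 h01 h12 h20 ((le_iff_sub _ T).1 hU)

/-- Elementary facts on a decomposition of the hole word. -/
private theorem word_facts {S : Part D} {x y : D} (hx : x ∈ S.B) (hy : y ∈ S.B) {u v : List D}
    (hw : S.hw x = x :: (u ++ y :: v)) : x ≠ y ∧ ∀ d, d ∈ u ∨ d ∈ v → d ∈ S.hw x ∧ d ∈ (S.glue x y hx hy).B := by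
  have hn := hw_nodup S hx
  rw [hw, List.nodup_cons] at hn
  obtain ⟨hn1, hn2⟩ := hn
  have hxy : x ≠ y := by
    rintro rfl
    exact hn1 (by simp)
  have hn3 := List.nodup_middle.1 hn2
  rw [List.nodup_cons] at hn3
  refine ⟨hxy, fun d hd => ?_⟩
  have hd1 : d ∈ S.hw x := by
    rw [hw]
    rcases hd with hd | hd
    · simp [hd]
    · simp [hd]
  refine ⟨hd1, ?_⟩
  rw [glue_B S hx hy hxy]
  refine ⟨((mem_hw S hx).1 hd1).1, ?_⟩
  rintro (rfl | h)
  · apply hn1
    rcases hd with hd | hd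
    · simp [hd]
    · simp [hd]
  · have hdy : d = y := h
    subst hdy
    apply hn3.1
    rcases hd with hd | hd
    · simp [hd]
    · simp [hd]

private theorem hun_word {G : Part D} {z : D} (hz : z ∈ G.B) {u : List D} (h : G.hw z = u) :
    G.HUn {d | d ∈ u} := by
  refine ⟨fun d hd => ?_, fun d hd e he hde => ?_⟩
  · have hd' : d ∈ u := hd
    rw [← h] at hd'
    exact ((mem_hw G hz).1 hd').1
  · have hd' : d ∈ u := hd
    rw [← h] at hd'
    show e ∈ u
    rw [← h, mem_hw G hz]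
    exact ⟨he, ((mem_hw G hz).1 hd').2.trans hde⟩

private theorem discFill_sub {G S' : Part D} {u : List D} {a : ℕ} (h : G.DiscFill S' u a) : G.Sub S' := by
  rcases h with ⟨_, _, h⟩ | ⟨_, V, _, h⟩
  · rw [h]
    exact sub_refl G
  · exact h.sub

private theorem discFill_unique {G S' S'' U : Part D} {u : List D} {a : ℕ}
    (hH : u ≠ [] → G.HUn {d | d ∈ u}) (h : G.DiscFill S' u a)
    (h' : G.DiscFill S'' u a) (hU : S'.Sub U) (hU' : S''.Sub U) : S' = S'' := by
  rcases h with ⟨hu, _, h⟩ | ⟨hu, V, _, h⟩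
  · rcases h' with ⟨_, _, h'⟩ | ⟨hu', _⟩
    · rw [h, h']
    · exact absurd hu hu'
  · rcases h' with ⟨hu', _⟩ | ⟨_, V', _, h'⟩
    · exact absurd hu' hu
    · obtain ⟨z, w, rfl⟩ := List.exists_cons_of_ne_nil hu
      exact fil_unique (hH hu) ⟨z, by simp⟩ h h' hU hU'

private theorem hun_left {S : Part D} {x y : D} (hx : x ∈ S.B) (hy : y ∈ S.B) {u v : List D}
    (hw : S.hw x = x :: (u ++ y :: v)) (hu : u ≠ []) : (S.glue x y hx hy).HUn {d | d ∈ u} := by
  obtain ⟨z, w, rfl⟩ := List.exists_cons_of_ne_nil hu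
  exact hun_word ((word_facts hx hy hw).2 z (Or.inl (by simp))).2 (hw_glue_split_left S hx hy hw rfl)

private theorem hun_right {S : Part D} {x y : D} (hx : x ∈ S.B) (hy : y ∈ S.B) {u v : List D}
    (hw : S.hw x = x :: (u ++ y :: v)) (hv : v ≠ []) : (S.glue x y hx hy).HUn {d | d ∈ v} := by
  obtain ⟨z, w, rfl⟩ := List.exists_cons_of_ne_nil hv
  exact hun_word ((word_facts hx hy hw).2 z (Or.inr (by simp))).2 (hw_glue_split_right S hx hy hw rfl)

private theorem word_unique {S : Part D} {x y : D} (hx : x ∈ S.B) {u v u' v' : List D}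
    (hw : S.hw x = x :: (u ++ y :: v)) (hw' : S.hw x = x :: (u' ++ y :: v')) : u = u' ∧ v = v' := by
  have hn := hw_nodup S hx
  rw [hw, List.nodup_cons] at hn
  have hn3 := List.nodup_middle.1 hn.2
  rw [List.nodup_cons, List.mem_append] at hn3
  push Not at hn3
  have he : u ++ y :: v = u' ++ y :: v' := by
    rw [hw, List.cons_inj_right] at hw'
    exact hw'
  rw [List.append_eq_append_iff] at he
  rcases he with ⟨c, hc1, hc2⟩ | ⟨c, hc1, hc2⟩
  · cases c with
    | nil =>
      rw [List.nil_append] at hc2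
      refine ⟨by rw [hc1, List.append_nil], by injection hc2⟩
    | cons b c =>
      exfalso
      rw [List.cons_append] at hc2
      injection hc2 with h1 h2
      apply hn3.1.2
      rw [h2]
      simp
  · cases c with
    | nil =>
      rw [List.nil_append] at hc2
      refine ⟨by rw [hc1, List.append_nil], by injection hc2 with h1 h2; exact h2.symm⟩
    | cons b c =>
      exfalso
      rw [List.cons_append] at hc2
      injection hc2 with h1 h2
      apply hn3.1.1
      rw [hc1, ← h1]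
      simp

private theorem glue_val {S S' U : Part D} {x y : D} (hx : x ∈ S.B) (hy : y ∈ S.B) (hxy : x ≠ y)
    (h : (S.glue x y hx hy).Sub S') (hU : S'.Sub U) : U.a x = y := by
  have h1 := (sub_trans h hU).2 x (by rw [glue_ax S hx hy]; exact hxy.symm)
  rw [h1, glue_ax S hx hy]

theorem st_unique {S S' S'' U : Part D} {x z z' : D} {s : Stp} (h : S.St x s S' z) (h' : S.St x s S'' z') (hU : S'.Sub U)
    (hU' : S''.Sub U) : S' = S'' ∧ z = z' := by
  cases s with
  | T =>
    obtain ⟨t0, t1, t2, hx, h0, h1, h2, h01, h12, h20, rfl, rfl⟩ := h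
    obtain ⟨t0', t1', t2', hx', h0', h1', h2', h01', h12', h20', rfl, rfl⟩ := h'
    obtain ⟨e0, e1, e2⟩ := sub_face_vals hx h0 h1 h2 h01 h12 h20 hU
    obtain ⟨e0', e1', e2'⟩ := sub_face_vals hx' h0' h1' h2' h01' h12' h20' hU'
    have E0 : t0 = t0' := by rw [← e0, e0']
    subst E0
    have E1 : z = z' := by rw [← e1, e1']
    subst E1
    have E2 : t2 = t2' := by rw [← e2, e2']
    subst E2
    exact ⟨rfl, rfl⟩
  | L k a =>
    obtain ⟨y, u, v, w, hx, hy, hw, hk, hu, hD⟩ := h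
    obtain ⟨y', u', v', w', hx', hy', hw', hk', hu', hD'⟩ := h'
    have E : y = y' := by
      rw [← glue_val hx hy (word_facts hx hy hw).1 (discFill_sub hD) hU,
        glue_val hx' hy' (word_facts hx' hy' hw').1 (discFill_sub hD') hU']
    subst E
    obtain ⟨E1, E2⟩ := word_unique hx hw hw'
    subst E1
    subst E2
    refine ⟨discFill_unique (hun_right hx hy hw) hD hD' hU hU', ?_⟩
    rw [hu] at hu'
    injection hu'
  | R k a =>
    obtain ⟨y, u, v, w, hx, hy, hw, hk, hu, hD⟩ := h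
    obtain ⟨y', u', v', w', hx', hy', hw', hk', hu', hD'⟩ := h'
    have E : y = y' := by
      rw [← glue_val hx hy (word_facts hx hy hw).1 (discFill_sub hD) hU,
        glue_val hx' hy' (word_facts hx' hy' hw').1 (discFill_sub hD') hU']
    subst E
    obtain ⟨E1, E2⟩ := word_unique hx hw hw'
    subst E1
    subst E2
    refine ⟨discFill_unique (hun_left hx hy hw) hD hD' hU hU', ?_⟩
    rw [hu] at hu'
    injection hu'

/-- Regions (and gates) reached from `S`, `x` by the word. -/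
def Rch (ρ : List Stp → ℕ) : List Stp → Part D → D → List Stp → Part D → D → Prop
  | _, S, x, [], S', x' => S' = S ∧ x' = x
  | h, S, x, s :: w, S', x' => ∃ (S₁ : Part D) (z : D), S.St x s S₁ z ∧
      Rch ρ (h ++ [s]) S₁ ((S₁.nx ^ ρ (h ++ [s])) z) w S' x'

variable {ρ : List Stp → ℕ} {h : List Stp} {S S' : Part D} {x x' : D} {w : List Stp} {l : List D} {p : ℕ} {P : List ℕ}
  {F κ : ℕ}

theorem rch_typ (hS : S.Typ (x :: l) (p :: P) F κ) (hr : Rch ρ h S x w S' x') : WOk p w ∧
    ∃ F', F' + wvol w = F ∧ S'.Typ (x' :: l) (wend p w :: P) F' κ := by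
  induction w generalizing h S x p F with
  | nil =>
    obtain ⟨rfl, rfl⟩ := hr
    exact ⟨trivial, F, rfl, hS⟩
  | cons s w ih =>
    obtain ⟨S₁, z, hst, hr⟩ := hr
    obtain ⟨hok, F₁, hF₁, hT⟩ := st_typ hS hst
    have hz := (st_sub hst).2.2
    have hn := nx_pow_same S₁ hz (ρ (h ++ [s]))
    obtain ⟨hok', F', hF', hT'⟩ := ih (typ_repl hT hn.1 hn.2) hr
    refine ⟨⟨hok, hok'⟩, F', ?_, hT'⟩
    rw [wvol_cons]
    omega

theorem rch_sub (hr : Rch ρ h S x w S' x') : S.Sub S' := by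
  induction w generalizing h S x with
  | nil =>
    obtain ⟨rfl, rfl⟩ := hr
    exact sub_refl _
  | cons s w ih =>
    obtain ⟨S₁, z, hst, hr⟩ := hr
    exact sub_trans (st_sub hst).1 (ih hr)

theorem rch_other (hr : Rch ρ h S x w S' x') {d : D} (hd : d ∈ S.B) (hx : ¬ S.s.SameCycle x d) :
    d ∈ S'.B ∧ S'.hw d = S.hw d ∧ ¬ S'.s.SameCycle x' d := by
  induction w generalizing h S x with
  | nil =>
    obtain ⟨rfl, rfl⟩ := hr
    exact ⟨hd, rfl, hx⟩
  | cons s w ih =>
    obtain ⟨S₁, z, hst, hr⟩ := hr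
    obtain ⟨h1, h2, h3⟩ := st_other hst hd hx
    have hz := (st_sub hst).2.2
    have hn := nx_pow_same S₁ hz (ρ (h ++ [s]))
    obtain ⟨h4, h5, h6⟩ := ih hr h1 (fun h' => h3 (hn.2.trans h'))
    exact ⟨h4, h5.trans h2, h6⟩

theorem rch_append {w' : List Stp} {S'' : Part D} {x'' : D} : Rch ρ h S x (w ++ w') S'' x'' ↔
    ∃ S' x', Rch ρ h S x w S' x' ∧ Rch ρ (h ++ w) S' x' w' S'' x'' := by
  induction w generalizing h S x with
  | nil =>
    rw [List.nil_append, List.append_nil]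
    constructor
    · intro hr
      exact ⟨S, x, ⟨rfl, rfl⟩, hr⟩
    · rintro ⟨S', x', ⟨rfl, rfl⟩, hr⟩
      exact hr
  | cons s w ih =>
    have hass : h ++ s :: w = (h ++ [s]) ++ w := by rw [List.append_assoc, List.singleton_append]
    rw [hass]
    constructor
    · rintro ⟨S₁, z, hst, hr⟩
      obtain ⟨S', x', hr1, hr2⟩ := ih.1 hr
      exact ⟨S', x', ⟨S₁, z, hst, hr1⟩, hr2⟩
    · rintro ⟨S', x', ⟨S₁, z, hst, hr1⟩, hr2⟩
      exact ⟨S₁, z, hst, ih.2 ⟨S', x', hr1, hr2⟩⟩

theorem rch_unique {S'' U : Part D} {x'' : D} (hr : Rch ρ h S x w S' x') (hr' : Rch ρ h S x w S'' x'') (hU : S'.Sub U)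
    (hU' : S''.Sub U) : S' = S'' ∧ x' = x'' := by
  induction w generalizing h S x with
  | nil =>
    obtain ⟨rfl, rfl⟩ := hr
    obtain ⟨rfl, rfl⟩ := hr'
    exact ⟨rfl, rfl⟩
  | cons s w ih =>
    obtain ⟨S₁, z, hst, hr⟩ := hr
    obtain ⟨S₂, z', hst', hr'⟩ := hr'
    obtain ⟨rfl, rfl⟩ := st_unique hst hst' (sub_trans (rch_sub hr) hU) (sub_trans (rch_sub hr') hU')
    exact ih hr hr'

private theorem hconn_aux {S S' : Part D} {T : Tri D} {x y : D} (hx : x ∈ S.B) (hy : y ∈ S.B) {u v : List D}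
    (hw : S.hw x = x :: (u ++ y :: v)) {c : List D} (hcu : ∀ d ∈ c, d ∈ u ∨ d ∈ v)
    (hH : c ≠ [] → (S.glue x y hx hy).HUn {d | d ∈ c}) {a : ℕ} (hD : (S.glue x y hx hy).DiscFill S' c a) {z : D}
    (hz : z ∈ u ∨ z ∈ v) (hzB : z ∈ S'.B) (hT : S'.Le T) (hc : S'.HConn T) : S.HConn T := by
  have hf := word_facts hx hy hw
  have hGs := discFill_sub hD
  have hG : (S.glue x y hx hy).Le T := sub_le hGs hT
  have hSle : S.Le T := sub_le (glue_sub S hx hy) hG
  have hTa : T.a x = y := by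
    rw [hG.2 x (by rw [glue_ax S hx hy]; exact hf.1.symm), glue_ax S hx hy]
  have hzX' : z ∈ S'.X := Or.inr hzB
  have hzX : z ∈ (S.glue x y hx hy).X := Or.inr (hf.2 z hz).2
  -- every hidden dart of the glued region is related (in the old region) to `z`
  have key : ∀ d ∈ (S.glue x y hx hy).X, S.Hc T d z := by
    intro d hd
    have hstep : ∀ e ∈ (S.glue x y hx hy).X, (S.glue x y hx hy).Hc T d e → S.Hc T d e := fun e he hh =>
      (hc_glue_split hSle hx hy hTa hw hd he).2 (Or.inl hh)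
    rcases hD with ⟨_, _, rfl⟩ | ⟨hne, V, _, hfil⟩
    · exact hstep z hzX (hc d hd z hzX)
    · obtain ⟨z1, w1, rfl⟩ := List.exists_cons_of_ne_nil hne
      have hz1 := hcu z1 (by simp)
      obtain ⟨hHC, hS'⟩ := fil_le_hc hG (hH hne) hfil hT (x := z1) (by simp)
      by_cases hd' : d ∈ S'.X
      · have h1 := hc d hd' z hzX'
        have hd2 : d ∈ ((S.glue x y hx hy).fill T hG z1).X := by rw [← hS']; exact hd'
        have hz2 : z ∈ ((S.glue x y hx hy).fill T hG z1).X := by rw [← hS']; exact hzX'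
        rw [hS'] at h1
        exact hstep z hzX ((hc_fill hG z1 hd2 hz2).1 h1)
      · have h2 : d ∈ (S.glue x y hx hy).HC T z1 := by
          by_contra hcon
          apply hd'
          rw [hS', X_fill hG z1]
          exact ⟨hd, hcon⟩
        have h3 := hstep z1 (Or.inr (hf.2 z1 hz1).2) (hc_symm h2.2)
        exact hc_trans h3 (hc_trans (hc_symm (hc_hole hx (hf.2 z1 hz1).1)) (hc_hole hx (hf.2 z hz).1))
  have key2 : ∀ d ∈ S.X, S.Hc T d z := by
    intro d hd
    by_cases hdx : d = x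
    · rw [hdx]
      exact hc_hole hx (hf.2 z hz).1
    by_cases hdy : d = y
    · rw [hdy]
      have hym : y ∈ S.hw x := by
        rw [hw]
        simp
      exact hc_trans (hc_symm (hc_hole hx hym)) (hc_hole hx (hf.2 z hz).1)
    apply key
    rcases hd with hd | hd
    · left
      rw [glue_R S hx hy]
      exact hd
    · right
      rw [glue_B S hx hy hf.1]
      refine ⟨hd, ?_⟩
      rintro (h1 | h1)
      · exact hdx h1
      · exact hdy h1
  intro d hd e he
  exact hc_trans (key2 d hd) (hc_symm (key2 e he))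

theorem st_hconn {T : Tri D} {s : Stp} {z : D} (hr : S.St x s S' z) (hT : S'.Le T) (hc : S'.HConn T) : S.HConn T := by
  have hzB := (st_sub hr).2.2
  cases s with
  | T =>
    obtain ⟨t0, t1, t2, hx, h0, h1, h2, h01, h12, h20, hS', hz⟩ := hr
    have hT' := hT
    rw [hS'] at hT'
    obtain ⟨e0, e1, e2⟩ := le_face_vals hx h0 h1 h2 h01 h12 h20 hT'
    subst e0
    subst e1
    subst e2
    have hSle : S.Le T := sub_le (face_sub S hx h0 h1 h2 h01 h12 h20) hT'
    have hR : S'.R = S.R ∪ {T.a x, T.f (T.a x), T.f (T.f (T.a x))} := by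
      rw [hS', face_R]
    have hB : S'.B = (S.B \ {x}) ∪ {T.f (T.a x), T.f (T.f (T.a x))} := by
      rw [hS', face_B]
    have hface : ∀ d ∈ S'.X, ∀ e ∈ S'.X, S.Hc T d e := fun d hd e he =>
      (hc_face hSle hx h0 h1 h2 hS' hd he).1 (hc d hd e he)
    have ht1 : T.f (T.a x) ∈ S'.X := by
      right
      rw [hB]
      right
      left
      rfl
    have ht0 : S.Hc T (T.a x) (T.f (T.a x)) := hc_f h0
    have hx1 : S.Hc T x (T.a x) := hc_a (Or.inr hx)
    have key : ∀ d ∈ S.X, S.Hc T d (T.f (T.a x)) := by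
      intro d hd
      by_cases hdx : d = x
      · rw [hdx]
        exact hc_trans hx1 ht0
      by_cases hd0 : d = T.a x
      · rw [hd0]
        exact ht0
      by_cases hd1 : d = T.f (T.a x)
      · rw [hd1]
        exact hc_refl _ _ _
      by_cases hd2 : d = T.f (T.f (T.a x))
      · rw [hd2]
        refine hface _ ?_ _ ht1
        right
        rw [hB]
        right
        right
        rfl
      refine hface d ?_ _ ht1
      rcases hd with hd | hd
      · left
        rw [hR]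
        rintro (h' | h' | h' | h')
        · exact hd h'
        · exact hd0 h'
        · exact hd1 h'
        · exact hd2 h'
      · right
        rw [hB]
        left
        exact ⟨hd, hdx⟩
    intro d hd e he
    exact hc_trans (key d hd) (hc_symm (key e he))
  | L k a =>
    obtain ⟨y, u, v, w, hx, hy, hw, hk, hu, hD⟩ := hr
    exact hconn_aux hx hy hw (fun d hd => Or.inr hd) (hun_right hx hy hw) hD
      (Or.inl (by rw [hu]; simp)) hzB hT hc
  | R k a =>
    obtain ⟨y, u, v, w, hx, hy, hw, hk, hu, hD⟩ := hr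
    exact hconn_aux hx hy hw (fun d hd => Or.inl hd) (hun_left hx hy hw) hD
      (Or.inr (by rw [hu]; simp)) hzB hT hc

theorem rch_hconn {T : Tri D} (hr : Rch ρ h S x w S' x') (hT : S'.Le T) (hc : S'.HConn T) : S.HConn T := by
  induction w generalizing h S x with
  | nil =>
    obtain ⟨rfl, rfl⟩ := hr
    exact hc
  | cons s w ih =>
    obtain ⟨S₁, z, hst, hr⟩ := hr
    exact st_hconn hst (sub_le (rch_sub hr) hT) (ih hr)

end Part
end SYS
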