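import Pool.Agent.SST.S.NCyc

/-!
# SYS-Lib-Ret: first return map of a permutation to a set, number of its cycles

PLAN. `D` finite.  `exists_ret`: `σ ^ orderOf σ = 1`, `orderOf σ = j + 1`.  `ret` is the identity off `X`.
* `retF_inj`: on `X`: if `σ^(j+1) d = σ^(i+1) e`, `i ≤ j`, both first returns, then `σ^(j-i) d = e ∈ X`, so `j = i`
  by minimality (if `j > i` then `j - i = (j-i-1) + 1` with `j-i-1 < j`) and `d = e`.  Values of elements of `X` are in
  `X`, so there is no clash with the identity part.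
* `ret_same`: (→) `ret d` is a power of `σ` applied to `d`; induction along `zpow` or use
  `SameCycle` closure: `NCyc_closed` style (finite: `SameCycle` iff some natural power).  (←) strong induction on `m`
  with `e = σ^m d`, `d, e ∈ X`: `m = 0` trivial; otherwise the first return `σ^(j+1) d` has `j + 1 ≤ m`, apply the
  induction hypothesis to `ret d` and `m - (j+1)`.
* `ncycOn_ret`: `q ↦ q'` on the classes meeting `X` is a bijection by `ret_same`.
* `ncyc_split`: `X` invariant: classes meeting `X` and classes meeting the complement are disjoint and exhaustive.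
* `ncycOn_fix`: if `σ` fixes the points of `X` then the classes meeting `X` are singletons.
-/

namespace SYS

open Classical SST

variable {D : Type} [Finite D]

private theorem ret_nat {τ : Equiv.Perm D} {u v : D} (h : τ.SameCycle u v) :
    ∃ n : ℕ, (τ ^ n) u = v := by
  obtain ⟨n, hn⟩ := h.exists_pow_eq'
  exact ⟨n, hn.2⟩

private theorem ret_closed {τ : Equiv.Perm D} (R : D → D → Prop) (hr : ∀ u, R u u)
    (ht : ∀ u v w, R u v → R v w → R u w) (hs : ∀ u, R u (τ u)) {u v : D}
    (h : τ.SameCycle u v) : R u v := by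
  obtain ⟨n, hn⟩ := ret_nat h
  have key : ∀ n : ℕ, R u ((τ ^ n) u) := by
    intro n
    induction n with
    | zero => exact hr u
    | succ n ih =>
      have e : (τ ^ (n + 1)) u = τ ((τ ^ n) u) := by
        rw [pow_succ', Equiv.Perm.mul_apply]
      rw [e]
      exact ht _ _ _ ih (hs _)
  rw [← hn]
  exact key n

omit [Finite D] in
private theorem ret_pow {τ : Equiv.Perm D} (u : D) (n : ℕ) : τ.SameCycle u ((τ ^ n) u) :=
  ⟨n, by rw [zpow_natCast]⟩

omit [Finite D] in
private theorem ret_mk (σ : Equiv.Perm D) (d e : D) :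
    (Quotient.mk (Equiv.Perm.SameCycle.setoid σ) d =
      Quotient.mk (Equiv.Perm.SameCycle.setoid σ) e) ↔ σ.SameCycle d e :=
  ⟨fun h => Quotient.exact h, fun h => Quotient.sound h⟩

omit [Finite D] in
private theorem ret_ncard {A B : Type} (f : D → A) (g : D → B) (X : Set D)
    (h : ∀ d ∈ X, ∀ e ∈ X, f d = f e ↔ g d = g e) : (f '' X).ncard = (g '' X).ncard := by
  refine Set.ncard_congr (fun a ha => g ha.choose) ?_ ?_ ?_
  · intro a ha
    exact ⟨ha.choose, ha.choose_spec.1, rfl⟩
  · intro a b ha hb hab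
    have h1 := (h _ ha.choose_spec.1 _ hb.choose_spec.1).2 hab
    rw [ha.choose_spec.2, hb.choose_spec.2] at h1
    exact h1
  · rintro _ ⟨d, hd, rfl⟩
    have ha : f d ∈ f '' X := ⟨d, hd, rfl⟩
    exact ⟨f d, ha, (h _ ha.choose_spec.1 _ hd).1 ha.choose_spec.2⟩

theorem exists_ret (σ : Equiv.Perm D) (X : Set D) {d : D} (hd : d ∈ X) : ∃ j : ℕ, (σ ^ (j + 1)) d ∈ X := by
  refine ⟨orderOf σ - 1, ?_⟩
  have h1 := orderOf_pos σ
  rw [Nat.sub_add_cancel h1, pow_orderOf_eq_one]
  exact hd

/-- First return map to `X`, identity off `X`. -/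
noncomputable def retF (σ : Equiv.Perm D) (X : Set D) (d : D) : D :=
  if h : d ∈ X then (σ ^ (Nat.find (exists_ret σ X h) + 1)) d else d

private theorem retF_pos (σ : Equiv.Perm D) (X : Set D) {d : D} (h : d ∈ X) :
    retF σ X d = (σ ^ (Nat.find (exists_ret σ X h) + 1)) d := by
  unfold retF
  rw [dif_pos h]

private theorem retF_neg (σ : Equiv.Perm D) (X : Set D) {d : D} (h : d ∉ X) :
    retF σ X d = d := by
  unfold retF
  rw [dif_neg h]

private theorem retF_mem (σ : Equiv.Perm D) (X : Set D) {d : D} (h : d ∈ X) :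
    retF σ X d ∈ X := by
  rw [retF_pos σ X h]
  exact Nat.find_spec (exists_ret σ X h)

private theorem retF_aux (σ : Equiv.Perm D) (X : Set D) {d e : D} (hd : d ∈ X) (he : e ∈ X)
    (h : retF σ X d = retF σ X e)
    (hle : Nat.find (exists_ret σ X he) ≤ Nat.find (exists_ret σ X hd)) : d = e := by
  rw [retF_pos σ X hd, retF_pos σ X he] at h
  have hmin := fun k => Nat.find_min (exists_ret σ X hd) (m := k)
  generalize Nat.find (exists_ret σ X hd) = j at *
  generalize Nat.find (exists_ret σ X he) = i at *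
  have h1 : (σ ^ (i + 1)) ((σ ^ (j - i)) d) = (σ ^ (i + 1)) e := by
    rw [← h, ← Equiv.Perm.mul_apply, ← pow_add]
    congr 2
    omega
  have h2 : (σ ^ (j - i)) d = e := (σ ^ (i + 1)).injective h1
  rcases Nat.eq_or_lt_of_le hle with h3 | h3
  · rw [h3, Nat.sub_self, pow_zero] at h2
    exact h2
  · exfalso
    apply hmin (j - i - 1) (by omega)
    rw [show j - i - 1 + 1 = j - i by omega, h2]
    exact he

theorem retF_bij (σ : Equiv.Perm D) (X : Set D) : Function.Bijective (retF σ X) := by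
  rw [← Finite.injective_iff_bijective]
  intro d e h
  by_cases hd : d ∈ X
  · by_cases he : e ∈ X
    · rcases le_total (Nat.find (exists_ret σ X he)) (Nat.find (exists_ret σ X hd)) with h1 | h1
      · exact retF_aux σ X hd he h h1
      · exact (retF_aux σ X he hd h.symm h1).symm
    · exfalso
      have h1 := retF_mem σ X hd
      rw [h, retF_neg σ X he] at h1
      exact he h1
  · by_cases he : e ∈ X
    · exfalso
      have h1 := retF_mem σ X he
      rw [← h, retF_neg σ X hd] at h1
      exact hd h1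
    · rw [retF_neg σ X hd, retF_neg σ X he] at h
      exact h

/-- First return map to `X` (identity off `X`) as a permutation. -/
noncomputable def ret (σ : Equiv.Perm D) (X : Set D) : Equiv.Perm D := Equiv.ofBijective _ (retF_bij σ X)

theorem ret_not_mem (σ : Equiv.Perm D) {X : Set D} {d : D} (hd : d ∉ X) : ret σ X d = d :=
  retF_neg σ X hd

theorem ret_spec (σ : Equiv.Perm D) {X : Set D} {d : D} (hd : d ∈ X) :
    ∃ j : ℕ, ret σ X d = (σ ^ (j + 1)) d ∧ ret σ X d ∈ X ∧ ∀ i < j, (σ ^ (i + 1)) d ∉ X :=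
  ⟨Nat.find (exists_ret σ X hd), retF_pos σ X hd, retF_mem σ X hd,
    fun _ hi => Nat.find_min (exists_ret σ X hd) hi⟩

theorem ret_eq (σ : Equiv.Perm D) {X : Set D} {d : D} (hd : d ∈ X) {j : ℕ} (hj : (σ ^ (j + 1)) d ∈ X)
    (h : ∀ i < j, (σ ^ (i + 1)) d ∉ X) : ret σ X d = (σ ^ (j + 1)) d := by
  obtain ⟨i, h1, h2, h3⟩ := ret_spec σ hd
  rcases Nat.lt_trichotomy i j with h4 | h4 | h4
  · rw [h1] at h2
    exact absurd h2 (h i h4)
  · rw [h1, h4]
  · exact absurd hj (h3 j h4)

theorem ret_same (σ : Equiv.Perm D) {X : Set D} {d e : D} (hd : d ∈ X) (he : e ∈ X) :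
    (ret σ X).SameCycle d e ↔ σ.SameCycle d e := by
  constructor
  · intro h
    refine ret_closed (τ := ret σ X) (fun u v => σ.SameCycle u v)
      (fun u => Equiv.Perm.SameCycle.refl σ u) (fun _ _ _ h1 h2 => h1.trans h2) ?_ h
    intro u
    by_cases hu : u ∈ X
    · obtain ⟨j, h1, -⟩ := ret_spec σ hu
      show σ.SameCycle u (ret σ X u)
      rw [h1]
      exact ret_pow u _
    · show σ.SameCycle u (ret σ X u)
      rw [ret_not_mem σ hu]
  · intro h
    obtain ⟨m, hm⟩ := ret_nat h
    clear h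
    induction m using Nat.strong_induction_on generalizing d with
    | _ m ih =>
      rcases Nat.eq_zero_or_pos m with h0 | h0
      · rw [h0, pow_zero] at hm
        have hm' : d = e := hm
        rw [hm']
      · obtain ⟨j, h1, h2, h3⟩ := ret_spec σ hd
        have hjm : j + 1 ≤ m := by
          by_contra hcon
          refine h3 (m - 1) (by omega) ?_
          rw [Nat.sub_add_cancel h0, hm]
          exact he
        have h4 : (σ ^ (m - (j + 1))) (ret σ X d) = e := by
          rw [h1, ← Equiv.Perm.mul_apply, ← pow_add, Nat.sub_add_cancel hjm, hm]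
        have h5 := ih (m - (j + 1)) (by omega) h2 h4
        have h6 : (ret σ X).SameCycle d (ret σ X d) := ret_pow (τ := ret σ X) d 1
        exact h6.trans h5

/-- Number of cycles which meet `X`. -/
noncomputable def ncycOn (σ : Equiv.Perm D) (X : Set D) : ℕ :=
  {q : Quotient (Equiv.Perm.SameCycle.setoid σ) | ∃ d ∈ X, Quotient.mk _ d = q}.ncard

theorem ncycOn_ret (σ : Equiv.Perm D) (X : Set D) : ncycOn (ret σ X) X = ncycOn σ X := by
  refine ret_ncard (Quotient.mk (Equiv.Perm.SameCycle.setoid (ret σ X)))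
    (Quotient.mk (Equiv.Perm.SameCycle.setoid σ)) X fun d hd e he => ?_
  rw [ret_mk, ret_mk]
  exact ret_same σ hd he

theorem ncyc_split (σ : Equiv.Perm D) {X : Set D} (hX : ∀ d, σ d ∈ X ↔ d ∈ X) :
    ncyc σ = ncycOn σ X + ncycOn σ Xᶜ := by
  have hinv : ∀ d e, σ.SameCycle d e → (d ∈ X ↔ e ∈ X) := fun d e h =>
    ret_closed (τ := σ) (fun u v => u ∈ X ↔ v ∈ X) (fun _ => Iff.rfl)
      (fun _ _ _ h1 h2 => h1.trans h2) (fun u => (hX u).symm) h
  unfold ncyc ncycOn
  rw [← Set.ncard_univ, ← Set.ncard_union_eq ?_ (Set.toFinite _) (Set.toFinite _)]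
  · congr 1
    symm
    rw [Set.eq_univ_iff_forall]
    intro q
    obtain ⟨d, rfl⟩ := Quotient.exists_rep q
    by_cases hd : d ∈ X
    · exact Or.inl ⟨d, hd, rfl⟩
    · exact Or.inr ⟨d, hd, rfl⟩
  · rw [Set.disjoint_left]
    rintro q ⟨d, hd, rfl⟩ ⟨e, he, h⟩
    exact he ((hinv e d ((ret_mk σ e d).1 h)).2 hd)

theorem ncycOn_fix (σ : Equiv.Perm D) {X : Set D} (hX : ∀ d ∈ X, σ d = d) : ncycOn σ X = X.ncard := by
  have h1 : ncycOn σ X = (id '' X).ncard := by
    refine ret_ncard (Quotient.mk (Equiv.Perm.SameCycle.setoid σ)) id X fun d hd e he => ?_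
    rw [ret_mk]
    constructor
    · rintro ⟨i, hi⟩
      rw [Equiv.Perm.zpow_apply_eq_self_of_apply_eq_self (hX d hd)] at hi
      exact hi
    · intro h
      have h' : d = e := h
      rw [h']
  rw [h1, Set.image_id]

/-- Two permutations which agree on an invariant set. -/
theorem ncycOn_congr {σ τ : Equiv.Perm D} {X : Set D} (hX : ∀ d, σ d ∈ X ↔ d ∈ X) (h : ∀ d ∈ X, τ d = σ d) :
    ncycOn τ X = ncycOn σ X := by
  refine ret_ncard (Quotient.mk (Equiv.Perm.SameCycle.setoid τ))
    (Quotient.mk (Equiv.Perm.SameCycle.setoid σ)) X fun d hd e he => ?_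
  rw [ret_mk, ret_mk]
  have key : ∀ n : ℕ, (τ ^ n) d = (σ ^ n) d ∧ (σ ^ n) d ∈ X := by
    intro n
    induction n with
    | zero => exact ⟨rfl, hd⟩
    | succ n ih =>
      rw [pow_succ', pow_succ', Equiv.Perm.mul_apply, Equiv.Perm.mul_apply, ih.1]
      exact ⟨h _ ih.2, (hX _).2 ih.2⟩
  constructor
  · intro h1
    obtain ⟨n, hn⟩ := ret_nat h1
    rw [(key n).1] at hn
    rw [← hn]
    exact ret_pow d n
  · intro h1
    obtain ⟨n, hn⟩ := ret_nat h1
    rw [← (key n).1] at hn
    rw [← hn]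
    exact ret_pow d n

end SYS
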