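import Pool.Agent.SYS.Lib.PtwA
import Pool.Agent.SYS.Lib.HidC
import Pool.Agent.SYS.Lib.HidD

/-!
# SYS-Lib-PtwB: the pointwise lemma

`S0` is a connected region with connected complement and `κ0 ≥ 1` (for instance an annulus with connected complement).  The run from a source outside `S0` in the whole triangulation and the run relative to `S0` are the same
until the relative run is glued to `S0`.

PLAN.
* `fil_euler`: `FillBy` of a nonempty union of holes with representatives `l1` has a genus `h ≥ 0`: the set in `fill_card` is nonempty, so `mu ≠ 0` and Euler's relation holds (`A.mu_eq`, `A.conM_euler`/`muP` version in `SYS/A/Eul.lean`).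
* `ptw_step`, cases of `s`:
  `T`: `t0 = T.a x ∉ S1.R`; if `T.a x ∈ S2.R` then `T.a x ∈ S0.R`, by `peel` for `S2` it is in `S2.B`, hence in `S0.B`: `Mrg` (`dj_same`).  Otherwise the three darts are not in `S2.R` (`le_f_mem`): `dj_face`, `HConn` by `hc_face`.
  `R k a`: `y = T.a x ∈ S1.B`, `S2.hw x = S1.hw x` (`dj_hw`).  `u = []`: `dj_glue`, `hc_glue_split` (nothing in `u`).  `u ≠ []`: `G1 = S1.glue`, `G2 = S2.glue`, `Dj S0 G1 G2`; `C` = the `G1`-hidden component of (the first of) `u`, `S1' = G1.fill`, `v ∩ C = ∅`.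
  If `S0.R` does not meet `C`: `dj_fill`: `S2' := G2.fill`, `St S2 x (R k a) S2' z` (`fil_of_hc`, same numbers: `R`, `inn` via `dj_typ`-additivity, or: `FillBy G2 S2'` from `FillBy G1 S1'` using `S2'.inn = S1'.inn + S0.inn`), `HConn S2'`: the `G2`-hidden darts are related (in `G2`) to the first of `u` or to
  the first of `v` (`hc_glue_split` for `S2`, `HConn S2 T`), and those of `X S2'` are not related to `u`.
  If `S0.R` meets `C` then `S0.R ⊆ C` (`dj_conn`).  Contradiction: the `G2`-hidden darts in `C` are related to `u` in `G2` (those related to `v` in `G2` are related to `v` in `G1`: `dj_hc`); so `G2.fill T (first of u)` is the disjoint union...: `S1'` is a filling of `G2` behind `u` and all holes of `S0`: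
  `FillBy G2 S1' (holes of first of u and of l0) F1 V1`; `G2.Typ ((zu :: zv :: []) ++ l0) _ _ (1 + κ0)` (`dj_typ`, `typ_ns`), `S1'.Typ [z] _ _ 0` (`st_typ`), and `fil_euler` + the equation of `typ_fill`: `(1 + κ0) + h = 0 + 1`, impossible for `κ0 ≥ 1`.
  (The equation without `typ_fill`: compare the fields `eul` of `G2` and `S1'`: `inn + V1`, `|R| + 3 F1`, holes.)
  `L k a`: symmetric.
* `ptw`: induction on the word (generalise the history and the start: `Dj S0 S1 S2`, same gate; the gates agree: `S2.nx = S1.nx` on `S1.B`, from `dj_hw` (`nx_pow`: second part of `hw`)).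
* `ptw_ns`: at the end: `NSt S1 T x u v`; `S2.hw x = S1.hw x`; `G1`, `G2` as above.  If `HConn G2 T`: `NSt`.  Otherwise (`hc_glue_split` for `S2`) there are exactly two `G2`-hidden components, of `u` and of `v`.  If the component of `u` contains no dart of `S0.B` then
  it is closed under the `G1`-steps and does not contain `v`, contradicting `HConn G1 T`; the same for `v`.  So each of them contains a hole of `S0`; in particular it is not a disc.
-/

namespace SYS
namespace Part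

open Classical SST

variable {n g : ℕ} {S0 S1 S2 : Part (Fin (6 * n))} {T : Tri (Fin (6 * n))} {l0 : List (Fin (6 * n))} {P0 : List ℕ} {F0 κ0 : ℕ}

theorem fil_euler {D : Type} [Finite D] {S S' : Part D} {l1 : List D} (hne : l1 ≠ []) (hp : l1.Pairwise (fun d e => ¬ S.s.SameCycle d e))
    (hB : ∀ d ∈ l1, d ∈ S.B) {F V : ℕ} (h : S.FillBy S' {d | d ∈ S.B ∧ ∃ e ∈ l1, S.s.SameCycle e d} F V) :
    ∃ k : ℕ, 2 * V + 4 * k + 2 * l1.length = 4 + F + (l1.map S.per).sum := by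
  have hset : {d | d ∈ S.B ∧ ∃ e ∈ l1, S.s.SameCycle e d} =
      {d | d ∈ S.B ∧ ∃ i : Fin l1.length, S.s.SameCycle (l1.get i) d} := by
    ext d
    constructor
    · rintro ⟨h1, e, he, h2⟩
      obtain ⟨i, hi⟩ := List.mem_iff_get.1 he
      exact ⟨h1, i, by rw [hi]; exact h2⟩
    · rintro ⟨h1, i, h2⟩
      exact ⟨h1, l1.get i, List.get_mem _ _, h2⟩
  have hinj : ∀ i j : Fin l1.length, S.s.SameCycle (l1.get i) (l1.get j) → i = j := by
    intro i j hij
    by_contra hne'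
    rcases lt_or_gt_of_ne hne' with hlt | hlt
    · exact List.pairwise_iff_get.1 hp i j hlt hij
    · exact List.pairwise_iff_get.1 hp j i hlt hij.symm
  have key := fill_card S (fun i : Fin l1.length => l1.get i) (fun i => hB _ (List.get_mem _ _)) hinj F V
  have hmem : S' ∈ {S' : Part D | S.FillBy S' {d | d ∈ S.B ∧ ∃ i : Fin l1.length, S.s.SameCycle (l1.get i) d} F V} := by
    show S.FillBy S' _ F V
    rw [← hset]
    exact h
  have hne0 : ({S' : Part D | S.FillBy S' {d | d ∈ S.B ∧ ∃ i : Fin l1.length, S.s.SameCycle (l1.get i) d} F V}).ncard ≠ 0 :=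
    Set.ncard_ne_zero_of_mem hmem (Set.toFinite _)
  have hmu : mu (fun i : Fin l1.length => S.per (l1.get i)) F V ≠ 0 := by
    intro h0
    rw [h0, mul_zero] at key
    exact hne0 (by exact_mod_cast key)
  have hlen : 0 < l1.length := List.length_pos_iff.2 hne
  rw [SYS.A.mu_eq _ _ _ (Or.inl ⟨⟨0, hlen⟩⟩)] at hmu
  obtain ⟨k, hk⟩ := SYS.A.muP_euler hmu
  refine ⟨k, ?_⟩
  have e1 : Multiset.card (Finset.univ.val.map (fun i : Fin l1.length => S.per (l1.get i))) = l1.length := by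
    simp
  have e2 : (Finset.univ.val.map (fun i : Fin l1.length => S.per (l1.get i))).sum = (l1.map S.per).sum := by
    show ∑ i : Fin l1.length, S.per (l1.get i) = _
    exact Fin.sum_univ_fun_getElem l1 S.per
  rw [e1, e2] at hk
  exact hk

/-- the successor is determined by the hole word -/
private theorem nx_of_hw {D : Type} [Finite D] {S S' : Part D} {x : D} (hx : x ∈ S.B) (hx' : x ∈ S'.B)
    (h : S'.hw x = S.hw x) : S'.nx x = S.nx x := by
  obtain ⟨u, hu⟩ := hw_cons S hx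
  have h1 := nx_pow_same S hx 1
  have h1' := nx_pow_same S' hx' 1
  rw [pow_one] at h1 h1'
  cases u with
  | nil =>
    have e1 : S.nx x ∈ S.hw x := (mem_hw S hx).2 h1
    have e2 : S'.nx x ∈ S'.hw x := (mem_hw S' hx').2 h1'
    rw [h, hu, List.mem_singleton] at e2
    rw [hu, List.mem_singleton] at e1
    rw [e1, e2]
  | cons y u =>
    have c1 := hw_chain S hx
    have c2 := hw_chain S' hx'
    rw [h, hu] at c2
    rw [hu] at c1
    rw [List.isChain_cons_cons] at c1 c2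
    rw [c1.1, c2.1]

private theorem nx_pow_of {D : Type} [Finite D] {S0 S1 S2 : Part D} (hj : Dj S0 S1 S2) {x : D} (hx : x ∈ S1.B) (j : ℕ) :
    (S2.nx ^ j) x = (S1.nx ^ j) x := by
  induction j with
  | zero => rfl
  | succ j ih =>
    rw [pow_succ', pow_succ', Equiv.Perm.mul_apply, Equiv.Perm.mul_apply, ih]
    have h1 := (nx_pow_same S1 hx j).1
    exact nx_of_hw h1 (by rw [hj.B]; exact Or.inr h1) (dj_hw hj h1)

private theorem dj_ncard {D : Type} [Finite D] {S0 S1 S2 : Part D} (hj : Dj S0 S1 S2) :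
    S2.R.ncard = S0.R.ncard + S1.R.ncard := by
  rw [hj.R]
  exact Set.ncard_union_eq (Set.disjoint_left.2 hj.disj) (Set.toFinite _) (Set.toFinite _)

private theorem dj_typ' (hj : Dj S0 S1 S2) (h0 : S0.Typ l0 P0 F0 κ0) {l1 : List (Fin (6 * n))} {P1 : List ℕ} {F1 κ1 : ℕ}
    (h1 : S1.Typ l1 P1 F1 κ1) (hne : l1 ≠ []) : ∃ F2, S2.Typ (l1 ++ l0) (P1 ++ P0) F2 (κ1 + κ0) := by
  have hD : Nat.card (Fin (6 * n)) = 3 * (2 * n) := by
    rw [Nat.card_eq_fintype_card, Fintype.card_fin]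
    omega
  have e1 := dj_ncard hj
  have e2 : S2.R.ncard ≤ Nat.card (Fin (6 * n)) := by
    rw [← Set.ncard_univ]
    exact Set.ncard_le_ncard (Set.subset_univ _) (Set.toFinite _)
  have e3 := h0.vol
  have e4 := h1.vol
  refine ⟨F0 + F1 - 2 * n, dj_typ hj h0 h1 (N := 2 * n) ?_ hD ?_⟩
  · omega
  · intro h
    exact hne (List.append_eq_nil_iff.1 h).1

private theorem dj_inn (hj : Dj S0 S1 S2) (h0 : S0.Typ l0 P0 F0 κ0) {l1 : List (Fin (6 * n))} {P1 : List ℕ} {F1 κ1 : ℕ}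
    (h1 : S1.Typ l1 P1 F1 κ1) (hne : l1 ≠ []) : S2.inn = S0.inn + S1.inn := by
  obtain ⟨F2, h2⟩ := dj_typ' hj h0 h1 hne
  have e1 := dj_ncard hj
  have e2 := h0.eul
  have e3 := h1.eul
  have e4 := h2.eul
  rw [List.length_append, List.sum_append] at e4
  omega

private theorem same_of_same0 {D : Type} [Finite D] {S0 S1 S2 : Part D} (hj : Dj S0 S1 S2) {d e : D} (hd : d ∈ S0.B) :
    (e ∈ S2.B ∧ S2.s.SameCycle d e) ↔ (e ∈ S0.B ∧ S0.s.SameCycle d e) := by
  have hd2 : d ∈ S2.B := by rw [hj.B]; exact Or.inl hd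
  rw [← mem_hw S2 hd2, ← mem_hw S0 hd, dj_hw0 hj hd]

private theorem core_fill (h0 : S0.Typ l0 P0 F0 κ0) (hc0 : S0.Con) (hκ : 1 ≤ κ0) {G1 G2 : Part (Fin (6 * n))}
    (hj : Dj S0 G1 G2) (hT2 : G2.Le T) (hT1 : G1.Le T) {c r : List (Fin (6 * n))} {z1 z : Fin (6 * n)} {F : ℕ}
    (hwc : G1.hw z1 = c) (hwr : G1.hw z = r) (hz1 : z1 ∈ G1.B) (hz : z ∈ G1.B)
    (hG1 : G1.Typ [z1, z] [c.length, r.length] F 1)
    (hsplit : ∀ d ∈ G2.X, ∀ e ∈ G2.X, G2.Hc T d e ∨ ((∃ z ∈ c, G2.Hc T z d) ∧ ∃ z ∈ r, G2.Hc T z e) ∨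
      ((∃ z ∈ r, G2.Hc T z d) ∧ ∃ z ∈ c, G2.Hc T z e))
    {S1' : Part (Fin (6 * n))} {a V F' : ℕ} (hf : G1.FillBy S1' {d | d ∈ c} a V) (hS1' : S1'.Typ [z] [r.length] F' 0)
    (hL1 : S1'.Le T) :
    ∃ S2', G2.FillBy S2' {d | d ∈ c} a V ∧ Dj S0 S1' S2' ∧ S2'.Le T ∧ S2'.HConn T := by
  have hcm : ∀ d, d ∈ c ↔ d ∈ G1.B ∧ G1.s.SameCycle z1 d := by
    intro d
    rw [← hwc]
    exact mem_hw G1 hz1
  have hrm : ∀ d, d ∈ r ↔ d ∈ G1.B ∧ G1.s.SameCycle z d := by
    intro d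
    rw [← hwr]
    exact mem_hw G1 hz
  have hz1c : z1 ∈ c := (hcm z1).2 ⟨hz1, Equiv.Perm.SameCycle.refl _ _⟩
  have hns : ¬ G1.s.SameCycle z1 z := by
    have := hG1.hl.2.1
    rw [List.pairwise_cons] at this
    exact this.1 z (by simp)
  have hdis : ∀ d ∈ c, d ∉ r := fun d hd hd' =>
    hns (((hcm d).1 hd).2.trans ((hrm d).1 hd').2.symm)
  have hHUn : G1.HUn {d | d ∈ c} :=
    ⟨fun d hd => ((hcm d).1 hd).1, fun d hd e he hs => (hcm e).2 ⟨he, ((hcm d).1 hd).2.trans hs⟩⟩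
  obtain ⟨hC, hfill⟩ := fil_le_hc hT1 hHUn hf hL1 (x := z1) hz1c
  have hR1 : S1'.R = G1.R ∪ G1.HC T z1 := by
    have := fill_R hT1 z1
    rwa [← hfill] at this
  have hB1 : S1'.B = G1.B \ G1.HC T z1 := by
    have := fill_B hT1 z1
    rwa [← hfill] at this
  have hrC : ∀ d ∈ r, d ∉ G1.HC T z1 := by
    intro d hd hd'
    rw [hC] at hd'
    rcases hd' with ⟨_, h⟩ | h
    · exact h ((hrm d).1 hd).1.1
    · exact hdis d h hd
  have hB12 : ∀ d ∈ G1.B, d ∈ G2.B := fun d hd => by rw [hj.B]; exact Or.inr hd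
  have hz1' : z1 ∈ G2.B := hB12 z1 hz1
  have hz1X : z1 ∈ G2.X := Or.inr hz1'
  have hz1X1 : z1 ∈ G1.X := Or.inr hz1
  have hrB : ∀ d ∈ r, d ∈ G2.X := fun d hd => Or.inr (hB12 d ((hrm d).1 hd).1)
  have hG1HC : ∀ d, G1.Hc T z1 d → d ∈ G1.HC T z1 := fun d hd => ⟨(hc_mem hT1 hd).1 hz1X1, hd⟩
  by_cases hmeet : ∃ z0 ∈ S0.R, G1.Hc T z1 z0
  · exfalso
    obtain ⟨z0, hz0, hz0'⟩ := hmeet
    have hS0C : ∀ d ∈ S0.R, d ∈ G1.HC T z1 := fun d hd =>
      hG1HC d (hc_trans hz0' (dj_conn hj hT2 hc0 hz0 hd))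
    have hHC2 : ∀ d, d ∈ G2.HC T z1 ↔ d ∈ G1.HC T z1 ∧ d ∈ G2.X := by
      intro d
      constructor
      · rintro ⟨hd, hd'⟩
        exact ⟨hG1HC d (dj_hc hj hT2 hc0 hz1X hd'), hd⟩
      · rintro ⟨hd, hd'⟩
        refine ⟨hd', ?_⟩
        rcases hsplit z1 hz1X d hd' with h | ⟨_, z', hz', h⟩ | ⟨⟨z', hz', h⟩, _⟩
        · exact h
        · exact absurd (hG1HC z' (hc_trans hd.2 (hc_symm (dj_hc hj hT2 hc0 (hrB z' hz') h)))) (hrC z' hz')
        · exact absurd (hG1HC z' (hc_symm (dj_hc hj hT2 hc0 (hrB z' hz') h))) (hrC z' hz')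
    have hS1eq : S1' = G2.fill T hT2 z1 := by
      apply le_ext hL1 (fill_le hT2 z1)
      · rw [hR1, fill_R, hj.R]
        ext d
        constructor
        · rintro (hd | hd)
          · exact Or.inl (Or.inr hd)
          · by_cases h1 : d ∈ S0.R
            · exact Or.inl (Or.inl h1)
            · by_cases h2 : d ∈ G1.R
              · exact Or.inl (Or.inr h2)
              · refine Or.inr ((hHC2 d).2 ⟨hd, Or.inl ?_⟩)
                rw [hj.R]
                rintro (h | h)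
                · exact h1 h
                · exact h2 h
        · rintro ((hd | hd) | hd)
          · exact Or.inr (hS0C d hd)
          · exact Or.inl hd
          · exact Or.inr ((hHC2 d).1 hd).1
      · rw [hB1, fill_B]
        ext d
        constructor
        · rintro ⟨hd, hd'⟩
          exact ⟨hB12 d hd, fun h => hd' ((hHC2 d).1 h).1⟩
        · rintro ⟨hd, hd'⟩
          have h1 : d ∉ G1.HC T z1 := fun h => hd' ((hHC2 d).2 ⟨h, Or.inr hd⟩)
          rw [hj.B] at hd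
          rcases hd with hd | hd
          · exact absurd (hS0C d hd.1) h1
          · exact ⟨hd, h1⟩
    obtain ⟨F1, V1, hf2⟩ := fil_of_hc hT2 (x := z1) hz1'
    rw [← hS1eq] at hf2
    obtain ⟨F2, hG2⟩ := dj_typ' hj h0 hG1 (by simp)
    have hset : G2.B ∩ G2.HC T z1 = {d | d ∈ G2.B ∧ ∃ e ∈ z1 :: l0, G2.s.SameCycle e d} := by
      ext d
      constructor
      · rintro ⟨hd, hd'⟩
        obtain ⟨e, he, hs⟩ := hG2.hl.2.2 d hd
        have he' : e = z1 ∨ e = z ∨ e ∈ l0 := by simpa using he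
        rcases he' with rfl | rfl | he'
        · exact ⟨hd, e, by simp, hs⟩
        · exfalso
          have h1 : d ∈ G2.hw e := (mem_hw G2 (hB12 e hz)).2 ⟨hd, hs⟩
          rw [dj_hw hj hz, hwr] at h1
          exact hrC d h1 ((hHC2 d).1 hd').1
        · exact ⟨hd, e, List.mem_cons_of_mem _ he', hs⟩
      · rintro ⟨hd, e, he, hs⟩
        refine ⟨hd, (hHC2 d).2 ⟨?_, Or.inr hd⟩⟩
        rcases List.mem_cons.1 he with rfl | he'
        · have h1 : d ∈ G2.hw e := (mem_hw G2 hz1').2 ⟨hd, hs⟩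
          rw [dj_hw hj hz1, hwc] at h1
          rw [hC]
          exact Or.inr h1
        · have h1 := (same_of_same0 hj (h0.hl.1 e he')).1 ⟨hd, hs⟩
          exact hS0C d h1.1.1
    rw [hset] at hf2
    have hpw : (z1 :: l0).Pairwise (fun d e => ¬ G2.s.SameCycle d e) := by
      have h2 := hG2.hl.2.1
      refine List.Pairwise.sublist ?_ h2
      show (z1 :: l0).Sublist (z1 :: z :: l0)
      exact List.Sublist.cons_cons _ (List.sublist_cons_self _ _)
    have hBl : ∀ d ∈ z1 :: l0, d ∈ G2.B := by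
      intro d hd
      rcases List.mem_cons.1 hd with rfl | hd
      · exact hz1'
      · rw [hj.B]
        exact Or.inl (h0.hl.1 d hd)
    obtain ⟨k, hk⟩ := fil_euler (by simp) hpw hBl hf2
    have hper : G2.per z1 = c.length ∧ l0.map G2.per = P0 := by
      have h2 := hG2.per
      simp only [List.cons_append, List.nil_append, List.map_cons, List.cons.injEq] at h2
      exact ⟨h2.1, h2.2.2⟩
    have e1 := hG2.eul
    have e2 := hS1'.eul
    have e3 := hf2.R
    have e4 := hf2.inn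
    rw [List.map_cons, List.sum_cons, hper.1, hper.2, List.length_cons] at hk
    simp only [List.cons_append, List.nil_append, List.length_cons, List.length_nil, List.sum_cons, List.sum_nil] at e1 e2
    omega
  · push Not at hmeet
    obtain ⟨hj', hHC⟩ := dj_fill hj hT2 hT1 hz1 hmeet
    rw [← hfill] at hj'
    have hset : G2.B ∩ G2.HC T z1 = {d | d ∈ c} := by
      ext d
      rw [hHC]
      constructor
      · rintro ⟨hd, hd'⟩
        have h2 := hd'
        rw [hC] at h2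
        rcases h2 with ⟨_, h2⟩ | h2
        · rw [hj.B] at hd
          rcases hd with hd | hd
          · exact absurd hd'.2 (hmeet d hd.1)
          · exact absurd hd.1 h2
        · exact h2
      · intro hd
        refine ⟨hB12 d ((hcm d).1 hd).1, ?_⟩
        rw [hC]
        exact Or.inr hd
    obtain ⟨F1, V1, hf2⟩ := fil_of_hc hT2 (x := z1) hz1'
    rw [hset] at hf2
    have e1 := dj_ncard hj
    have e2 := dj_ncard hj'
    have e3 := hf.R
    have e4 := hf2.R
    have e5 := dj_inn hj h0 hG1 (by simp)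
    have e6 := dj_inn hj' h0 hS1' (by simp)
    have e7 := hf.inn
    have e8 := hf2.inn
    have hF1 : F1 = a := by omega
    have hV1 : V1 = V := by omega
    rw [hF1, hV1] at hf2
    refine ⟨G2.fill T hT2 z1, hf2, hj', fill_le hT2 z1, ?_⟩
    intro d hd e he
    have hd2 := hd
    have he2 := he
    rw [X_fill] at hd2 he2
    have hcz : ∀ z' ∈ c, G2.Hc T z1 z' := fun z' hz' =>
      hc_hole hz1' (by rw [dj_hw hj hz1, hwc]; exact hz')
    refine (hc_fill hT2 z1 hd he).2 ?_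
    rcases hsplit d hd2.1 e he2.1 with h | ⟨⟨z', hz', h⟩, _⟩ | ⟨_, z', hz', h⟩
    · exact h
    · exact absurd ⟨hd2.1, hc_trans (hcz z' hz') h⟩ hd2.2
    · exact absurd ⟨he2.1, hc_trans (hcz z' hz') h⟩ he2.2

private theorem face_vals {D : Type} (S : Part D) {x t0 t1 t2 : D} (hx : x ∈ S.B) (h0 : t0 ∉ S.R) (h1 : t1 ∉ S.R) (h2 : t2 ∉ S.R)
    (h01 : t0 ≠ t1) (h12 : t1 ≠ t2) (h20 : t2 ≠ t0) :
    (S.face x t0 t1 t2 hx h0 h1 h2 h01 h12 h20).a x = t0 ∧ (S.face x t0 t1 t2 hx h0 h1 h2 h01 h12 h20).f t0 = t1 ∧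
      (S.face x t0 t1 t2 hx h0 h1 h2 h01 h12 h20).f t1 = t2 := by
  have hf0 : ∀ d ∉ S.R, S.f d = d := fun d hd => by
    by_contra h3
    exact hd h3
  refine ⟨?_, ?_, ?_⟩
  · show (S.a * Equiv.swap x t0) x = t0
    rw [Equiv.Perm.mul_apply, Equiv.swap_apply_left]
    by_contra h3
    exact h0 (fun h4 => h3 (S.af _ h4))
  · show (S.f * (Equiv.swap t0 t1 * Equiv.swap t1 t2)) t0 = t1
    rw [Equiv.Perm.mul_apply, Equiv.Perm.mul_apply, Equiv.swap_apply_of_ne_of_ne h01 h20.symm, Equiv.swap_apply_left]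
    exact hf0 t1 h1
  · show (S.f * (Equiv.swap t0 t1 * Equiv.swap t1 t2)) t1 = t2
    rw [Equiv.Perm.mul_apply, Equiv.Perm.mul_apply, Equiv.swap_apply_left, Equiv.swap_apply_of_ne_of_ne h20 h12.symm]
    exact hf0 t2 h2

private theorem X_glue {D : Type} [Finite D] {S : Part D} {x y : D} (hx : x ∈ S.B) (hy : y ∈ S.B) (hxy : x ≠ y) {d : D}
    (hd : d ∈ (S.glue x y hx hy).X) : d ∈ S.X := by
  rcases hd with hd | hd
  · rw [glue_R] at hd
    exact Or.inl hd
  · rw [glue_B S hx hy hxy] at hd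
    exact Or.inr hd.1

private theorem disc_sub {D : Type} [Finite D] {S S' : Part D} {u : List D} {a : ℕ} (h : S.DiscFill S' u a) : S.Sub S' := by
  rcases h with ⟨_, _, rfl⟩ | ⟨_, V, _, hf⟩
  · exact sub_refl _
  · exact hf.sub

private theorem glue_Ta {D : Type} [Finite D] {S S' : Part D} {x y : D} (hx : x ∈ S.B) (hy : y ∈ S.B) (hxy : x ≠ y)
    (h : (S.glue x y hx hy).Sub S') {T : Tri D} (hT : S'.Le T) : T.a x = y := by
  have h1 := sub_le h hT
  have h2 : (S.glue x y hx hy).a x = y := by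
    show (S.a * Equiv.swap x y) x = y
    rw [Equiv.Perm.mul_apply, Equiv.swap_apply_left]
    exact hy.2
  rw [← h2]
  refine h1.2 x ?_
  rw [h2]
  exact hxy.symm

private theorem ne_of_hw {D : Type} [Finite D] {S : Part D} {x y : D} (hx : x ∈ S.B) {u v : List D}
    (h : S.hw x = x :: (u ++ y :: v)) : x ≠ y := by
  have h1 := hw_nodup S hx
  rw [h, List.nodup_cons] at h1
  intro h2
  apply h1.1
  rw [h2]
  simp

/-- everything about the gluing in the two regions -/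
private theorem glue_pair {S0 S1 S2 : Part (Fin (6 * n))} (hj : Dj S0 S1 S2) (hL : S2.Le T)
    (hh : S2.HConn T) {x y : Fin (6 * n)} {u v : List (Fin (6 * n))} (hx : x ∈ S1.B) (hy : y ∈ S1.B)
    (hw : S1.hw x = x :: (u ++ y :: v)) (hTa : T.a x = y) :
    ∃ (hx2 : x ∈ S2.B) (hy2 : y ∈ S2.B), S2.hw x = x :: (u ++ y :: v) ∧
      Dj S0 (S1.glue x y hx hy) (S2.glue x y hx2 hy2) ∧ (S2.glue x y hx2 hy2).Le T ∧
      ∀ d ∈ (S2.glue x y hx2 hy2).X, ∀ e ∈ (S2.glue x y hx2 hy2).X, (S2.glue x y hx2 hy2).Hc T d e ∨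
        ((∃ z ∈ u, (S2.glue x y hx2 hy2).Hc T z d) ∧ ∃ z ∈ v, (S2.glue x y hx2 hy2).Hc T z e) ∨
        ((∃ z ∈ v, (S2.glue x y hx2 hy2).Hc T z d) ∧ ∃ z ∈ u, (S2.glue x y hx2 hy2).Hc T z e) := by
  have hxy : x ≠ y := ne_of_hw hx hw
  have hx2 : x ∈ S2.B := by rw [hj.B]; exact Or.inr hx
  have hy2 : y ∈ S2.B := by rw [hj.B]; exact Or.inr hy
  have hw2 : S2.hw x = x :: (u ++ y :: v) := by rw [dj_hw hj hx]; exact hw
  refine ⟨hx2, hy2, hw2, dj_glue hj hx hx2 hy hy2 hxy, glue_le S2 hx2 hy2 hL hTa, ?_⟩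
  intro d hd e he
  exact (hc_glue_split hL hx2 hy2 hTa hw2 hd he).1 (hh d (X_glue hx2 hy2 hxy hd) e (X_glue hx2 hy2 hxy he))

/-- The abs run and the run relative to `S0`: one step. -/
theorem ptw_step (h0 : S0.Typ l0 P0 F0 κ0) (hc0 : S0.Con) (hκ : 1 ≤ κ0) (hT : T ∈ Trn n g) (hj : Dj S0 S1 S2) (hL : S2.Le T)
    (hh : S2.HConn T) {x : Fin (6 * n)} {p F : ℕ} (h1 : S1.Typ [x] [p] F 0) {s : Stp} {S1' : Part (Fin (6 * n))} {z : Fin (6 * n)}
    (hs : S1.St x s S1' z) (hL1 : S1'.Le T) (hh1 : S1'.HConn T) :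
    (∃ S2', S2.St x s S2' z ∧ Dj S0 S1' S2' ∧ S2'.Le T ∧ S2'.HConn T) ∨ S2.Mrg T x := by
  have _ := hT
  have _ := hh1
  obtain ⟨_, F', _, hS1'⟩ := st_typ h1 hs
  cases s with
  | T =>
    obtain ⟨t0, t1, t2, hx, m0, m1, m2, h01, h12, h20, hS', hz⟩ := hs
    have hx2 : x ∈ S2.B := by rw [hj.B]; exact Or.inr hx
    have hxt : x ≠ t0 := fun h => m0 (by rw [← h]; exact hx.1)
    have ht0 : T.a x = t0 := by
      have h2 : S1'.a x = t0 := by
        rw [hS']
        exact (face_vals S1 hx m0 m1 m2 h01 h12 h20).1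
      rw [← h2]
      refine hL1.2 x ?_
      rw [h2]
      exact hxt.symm
    have ht1 : T.f t0 = t1 := by
      have h2 : S1'.f t0 = t1 := by
        rw [hS']
        exact (face_vals S1 hx m0 m1 m2 h01 h12 h20).2.1
      rw [← h2]
      refine hL1.1 t0 ?_
      rw [h2]
      exact h01.symm
    have ht2 : T.f t1 = t2 := by
      have h2 : S1'.f t1 = t2 := by
        rw [hS']
        exact (face_vals S1 hx m0 m1 m2 h01 h12 h20).2.2
      rw [← h2]
      refine hL1.1 t1 ?_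
      rw [h2]
      exact h12.symm
    rcases peel hL hx2 with ⟨hp1, hp2⟩ | hp
    · right
      refine ⟨hp1, ?_⟩
      rw [ht0] at hp1 ⊢
      rw [hj.B] at hp1
      rcases hp1 with hp1 | hp1
      · exact fun h => dj_same hj hp1.1 hx.1 h.symm
      · exact absurd hp1.1 m0
    · left
      rw [ht0] at hp
      have hp1 : t1 ∉ S2.R := by
        rw [← ht1]
        exact fun h => hp ((le_f_mem hL t0).1 h)
      have hp2 : t2 ∉ S2.R := by
        rw [← ht2]
        exact fun h => hp1 ((le_f_mem hL t1).1 h)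
      refine ⟨S2.face x t0 t1 t2 hx2 hp hp1 hp2 h01 h12 h20, ?_, ?_, ?_, ?_⟩
      · exact ⟨t0, t1, t2, hx2, hp, hp1, hp2, h01, h12, h20, rfl, hz⟩
      · rw [hS']
        exact dj_face hj hx hx2 m0 m1 m2 hp hp1 hp2 h01 h12 h20
      · subst ht0 ht1 ht2
        exact face_le S2 hL hx2 hp hp1 hp2 h01 h12 h20
      · subst ht0 ht1 ht2
        intro d hd e he
        have key : ∀ d, d ∈ (S2.face x (T.a x) (T.f (T.a x)) (T.f (T.f (T.a x))) hx2 hp hp1 hp2 h01 h12 h20).X →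
            d ∈ S2.X := by
          intro d hd
          rcases hd with hd | hd
          · left
            intro h
            apply hd
            rw [face_R]
            exact Or.inl h
          · rw [face_B] at hd
            rcases hd with hd | hd | hd
            · exact Or.inr hd.1
            · left
              rw [hd]
              exact hp1
            · left
              rw [hd]
              exact hp2
        exact (hc_face hL hx2 hp hp1 hp2 rfl hd he).2 (hh d (key d hd) e (key e he))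
  | L k a =>
    left
    obtain ⟨y, u, v, w, hx, hy, hw, hvk, hu, hd⟩ := hs
    have hxy := ne_of_hw hx hw
    have hTa : T.a x = y := glue_Ta hx hy hxy (disc_sub hd) hL1
    obtain ⟨hx2, hy2, hw2, hjG, hLG, hsp⟩ := glue_pair hj hL hh hx hy hw hTa
    rcases hd with ⟨hv0, ha, hS'⟩ | ⟨hv0, V, hV, hf⟩
    · refine ⟨S2.glue x y hx2 hy2, ⟨y, u, v, w, hx2, hy2, hw2, hvk, hu, Or.inl ⟨hv0, ha, rfl⟩⟩, ?_, hLG, ?_⟩
      · rw [hS']
        exact hjG
      · intro d hd e he
        rcases hsp d hd e he with h | ⟨_, z', hz', _⟩ | ⟨⟨z', hz', _⟩, _⟩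
        · exact h
        · rw [hv0] at hz'
          exact absurd hz' (by simp)
        · rw [hv0] at hz'
          exact absurd hz' (by simp)
    · obtain ⟨z1, v', hv'⟩ := List.exists_cons_of_ne_nil hv0
      have hwl := hw_glue_split_left S1 hx hy hw hu
      have hwr := hw_glue_split_right S1 hx hy hw hv'
      have hns : (S1.glue x y hx hy).Typ (z :: z1 :: []) ((w.length + 1) :: (v'.length + 1) :: []) F (0 + 1) :=
        typ_ns h1 hx hy (by rw [hw, hu, hv'])
      have hper := hns.per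
      have hzB : z ∈ (S1.glue x y hx hy).B := hns.hl.1 z (by simp)
      have hz1B : z1 ∈ (S1.glue x y hx hy).B := hns.hl.1 z1 (by simp)
      have hns' : (S1.glue x y hx hy).Typ [z1, z] [v.length, u.length] F 1 := by
        have h2 := typ_perm hns (List.Perm.swap z1 z [])
        simp only [List.map_cons, List.map_nil, List.cons.injEq] at hper h2
        rw [hper.1, hper.2.1] at h2
        rw [hv', hu]
        exact h2
      have hp : p = 2 + u.length + v.length := by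
        have h2 := h1.per
        simp only [List.map_cons, List.map_nil, List.cons.injEq, and_true] at h2
        rw [← h2, ← hw_length S1 hx, hw]
        simp only [List.length_cons, List.length_append]
        omega
      have hnx : (Stp.L k a).nx p = u.length := by
        show p - (k + 2) = u.length
        omega
      rw [hnx] at hS1'
      obtain ⟨S2', hf2, hj2, hL2, hh2⟩ := core_fill h0 hc0 hκ hjG hLG (sub_le hf.sub hL1) hwr hwl hz1B hzB hns'
        (fun d hd e he => by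
          rcases hsp d hd e he with h | h | h
          · exact Or.inl h
          · exact Or.inr (Or.inr h)
          · exact Or.inr (Or.inl h)) hf hS1' hL1
      exact ⟨S2', ⟨y, u, v, w, hx2, hy2, hw2, hvk, hu, Or.inr ⟨hv0, V, hV, hf2⟩⟩, hj2, hL2, hh2⟩
  | R k a =>
    left
    obtain ⟨y, u, v, w, hx, hy, hw, huk, hv, hd⟩ := hs
    have hxy := ne_of_hw hx hw
    have hTa : T.a x = y := glue_Ta hx hy hxy (disc_sub hd) hL1
    obtain ⟨hx2, hy2, hw2, hjG, hLG, hsp⟩ := glue_pair hj hL hh hx hy hw hTa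
    rcases hd with ⟨hu0, ha, hS'⟩ | ⟨hu0, V, hV, hf⟩
    · refine ⟨S2.glue x y hx2 hy2, ⟨y, u, v, w, hx2, hy2, hw2, huk, hv, Or.inl ⟨hu0, ha, rfl⟩⟩, ?_, hLG, ?_⟩
      · rw [hS']
        exact hjG
      · intro d hd e he
        rcases hsp d hd e he with h | ⟨⟨z', hz', _⟩, _⟩ | ⟨_, z', hz', _⟩
        · exact h
        · rw [hu0] at hz'
          exact absurd hz' (by simp)
        · rw [hu0] at hz'
          exact absurd hz' (by simp)
    · obtain ⟨z1, u', hu'⟩ := List.exists_cons_of_ne_nil hu0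
      have hwl := hw_glue_split_left S1 hx hy hw hu'
      have hwr := hw_glue_split_right S1 hx hy hw hv
      have hns : (S1.glue x y hx hy).Typ (z1 :: z :: []) ((u'.length + 1) :: (w.length + 1) :: []) F (0 + 1) :=
        typ_ns h1 hx hy (by rw [hw, hu', hv])
      have hzB : z ∈ (S1.glue x y hx hy).B := hns.hl.1 z (by simp)
      have hz1B : z1 ∈ (S1.glue x y hx hy).B := hns.hl.1 z1 (by simp)
      have hns' : (S1.glue x y hx hy).Typ [z1, z] [u.length, v.length] F 1 := by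
        rw [hu', hv]
        exact hns
      have hp : p = 2 + u.length + v.length := by
        have h2 := h1.per
        simp only [List.map_cons, List.map_nil, List.cons.injEq, and_true] at h2
        rw [← h2, ← hw_length S1 hx, hw]
        simp only [List.length_cons, List.length_append]
        omega
      have hnx : (Stp.R k a).nx p = v.length := by
        show p - (k + 2) = v.length
        omega
      rw [hnx] at hS1'
      obtain ⟨S2', hf2, hj2, hL2, hh2⟩ := core_fill h0 hc0 hκ hjG hLG (sub_le hf.sub hL1) hwl hwr hz1B hzB hns'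
        hsp hf hS1' hL1
      exact ⟨S2', ⟨y, u, v, w, hx2, hy2, hw2, huk, hv, Or.inr ⟨hu0, V, hV, hf2⟩⟩, hj2, hL2, hh2⟩

theorem ptw (h0 : S0.Typ l0 P0 F0 κ0) (hc0 : S0.Con) (hκ : 1 ≤ κ0) (hT : T ∈ Trn n g) (hj : Dj S0 S1 S2) (hL : S2.Le T)
    (hh : S2.HConn T) {x : Fin (6 * n)} {p F : ℕ} (h1 : S1.Typ [x] [p] F 0) {ρ : List Stp → ℕ} {h w : List Stp}
    {S1' : Part (Fin (6 * n))} {x' : Fin (6 * n)} (hr : Rch ρ h S1 x w S1' x') (hL1 : S1'.Le T) (hh1 : S1'.HConn T) :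
    (∃ S2', Rch ρ h S2 x w S2' x' ∧ Dj S0 S1' S2' ∧ S2'.Le T ∧ S2'.HConn T) ∨
    ∃ w' s w'', w = w' ++ s :: w'' ∧ ∃ S2' x2, Rch ρ h S2 x w' S2' x2 ∧ S2'.Le T ∧ S2'.HConn T ∧ S2'.Mrg T x2 := by
  induction w generalizing h S1 S2 x p F with
  | nil =>
    obtain ⟨rfl, rfl⟩ := hr
    exact Or.inl ⟨S2, ⟨rfl, rfl⟩, hj, hL, hh⟩
  | cons s w ih =>
    obtain ⟨S11, z, hst, hr⟩ := hr
    have hL11 : S11.Le T := sub_le (rch_sub hr) hL1
    have hh11 : S11.HConn T := rch_hconn hr hL1 hh1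
    rcases ptw_step h0 hc0 hκ hT hj hL hh h1 hst hL11 hh11 with ⟨S21, hst2, hj2, hL2, hh2⟩ | hM
    · obtain ⟨_, F', _, hS11⟩ := st_typ h1 hst
      have hzB : z ∈ S11.B := (st_sub hst).2.2
      have hpow := nx_pow_same S11 hzB (ρ (h ++ [s]))
      have hS11' := typ_repl hS11 hpow.1 hpow.2
      have heq : (S21.nx ^ ρ (h ++ [s])) z = (S11.nx ^ ρ (h ++ [s])) z := nx_pow_of hj2 hzB _
      rcases ih hj2 hL2 hh2 hS11' hr with ⟨S2', hr2, hrest⟩ | ⟨w', s', w'', hw, S2', x2, hr2, hrest⟩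
      · left
        refine ⟨S2', ⟨S21, z, hst2, ?_⟩, hrest⟩
        rw [heq]
        exact hr2
      · right
        refine ⟨s :: w', s', w'', by rw [hw]; rfl, S2', x2, ⟨S21, z, hst2, ?_⟩, hrest⟩
        rw [heq]
        exact hr2
    · right
      exact ⟨[], s, w, rfl, S2, x, ⟨rfl, rfl⟩, hL, hh, hM⟩

private theorem ns_aux (h0 : S0.Typ l0 P0 F0 κ0) {G1 G2 : Part (Fin (6 * n))} (hj : Dj S0 G1 G2) (hT2 : G2.Le T)
    (hT1 : G1.Le T) {z1 z2 : Fin (6 * n)} (hz1 : z1 ∈ G1.B) (hz2 : z2 ∈ G1.B) (hG1 : G1.Hc T z1 z2)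
    (hn : ¬ G2.Hc T z1 z2) : ∃ d ∈ l0, G2.Hc T z1 d := by
  have _ := hz2
  by_contra hcon
  push Not at hcon
  have hT0 : S0.Le T := sub_le hj.sub0 hT2
  have hb : ∀ b ∈ S0.B, ¬ G2.Hc T z1 b := by
    intro b hb h
    obtain ⟨e, he, hs⟩ := h0.hl.2.2 b hb
    have heB := h0.hl.1 e he
    have h1 := (same_of_same0 hj heB).2 ⟨hb, hs⟩
    have heB2 : e ∈ G2.B := by rw [hj.B]; exact Or.inl heB
    have h2 : b ∈ G2.hw e := (mem_hw G2 heB2).2 h1
    exact hcon e he (hc_trans h (hc_symm (hc_hole heB2 h2)))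
  have hS0 : ∀ d ∈ S0.R, ¬ (d ∈ G2.X ∧ G2.Hc T z1 d) := by
    rintro d hd ⟨hX, hc⟩
    rcases hX with hX | hX
    · apply hX
      rw [hj.R]
      exact Or.inl hd
    · rw [hj.B] at hX
      rcases hX with hX | hX
      · exact hb d hX hc
      · exact hj.disj d hd hX.1
  have key : ∀ d e, G1.Hc T d e → ((d ∈ G2.X ∧ G2.Hc T z1 d) ↔ (e ∈ G2.X ∧ G2.Hc T z1 e)) := by
    intro d e hde
    refine hc_ind (S := G1) (T := T) (fun d e => ((d ∈ G2.X ∧ G2.Hc T z1 d) ↔ (e ∈ G2.X ∧ G2.Hc T z1 e)))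
      (fun _ => Iff.rfl) (fun _ _ h => h.symm) (fun _ _ _ h h' => h.trans h') ?_ ?_ ?_ hde
    · intro d _
      have hX := X_a hT2 d
      constructor
      · rintro ⟨h1, h2⟩
        exact ⟨hX.2 h1, hc_trans h2 (hc_a h1)⟩
      · rintro ⟨h1, h2⟩
        exact ⟨hX.1 h1, hc_trans h2 (hc_symm (hc_a (hX.1 h1)))⟩
    · intro d hd
      by_cases h1 : d ∈ G2.R
      · have h2 : d ∈ S0.R := by
          rw [hj.R] at h1
          rcases h1 with h1 | h1
          · exact h1
          · exact absurd h1 hd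
        have h3 : T.f d ∈ S0.R := (le_f_mem hT0 d).2 h2
        exact ⟨fun h => absurd h (hS0 d h2), fun h => absurd h (hS0 _ h3)⟩
      · have h3 : T.f d ∉ G2.R := fun h => h1 ((le_f_mem hT2 d).1 h)
        constructor
        · rintro ⟨_, h2⟩
          exact ⟨Or.inl h3, hc_trans h2 (hc_f h1)⟩
        · rintro ⟨_, h2⟩
          exact ⟨Or.inl h1, hc_trans h2 (hc_symm (hc_f h1))⟩
    · intro d hd
      have hd2 : d ∈ G2.B := by rw [hj.B]; exact Or.inr hd
      have h1 : G2.nx d = G1.nx d := nx_of_hw hd hd2 (dj_hw hj hd)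
      have h2 : G1.nx d ∈ G2.B := by
        rw [hj.B]
        exact Or.inr ((nx_mem G1).2 hd)
      have h3 : G2.Hc T d (G1.nx d) := by
        rw [← h1]
        exact hc_nx hd2
      constructor
      · rintro ⟨_, h4⟩
        exact ⟨Or.inr h2, hc_trans h4 h3⟩
      · rintro ⟨_, h4⟩
        exact ⟨Or.inr hd2, hc_trans h4 (hc_symm h3)⟩
  have _ := hT1
  have hz1' : z1 ∈ G2.X := Or.inr (by rw [hj.B]; exact Or.inr hz1)
  exact hn ((key z1 z2 hG1).1 ⟨hz1', hc_refl _ _ _⟩).2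

theorem ptw_ns (h0 : S0.Typ l0 P0 F0 κ0) (hc0 : S0.Con) (hT : T ∈ Trn n g) (hj : Dj S0 S1 S2) (hL : S2.Le T)
    (hh : S2.HConn T) {x : Fin (6 * n)} {p F : ℕ} (h1 : S1.Typ [x] [p] F 0) {u v : List (Fin (6 * n))} (hn : S1.NSt T x u v) :
    S2.NSt T x u v ∨ (S2.Sep T x u v ∧ ∀ (hx : x ∈ S2.B) (hy : T.a x ∈ S2.B),
      (∃ d ∈ l0, ∃ z ∈ u, (S2.glue x (T.a x) hx hy).Hc T z d) ∧ ∃ d ∈ l0, ∃ z ∈ v, (S2.glue x (T.a x) hx hy).Hc T z d) := by
  have _ := hc0
  have _ := hT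
  have _ := h1
  obtain ⟨hu0, hv0, hw, hx, hy, hc⟩ := hn
  obtain ⟨hx2, hy2, hw2, hjG, hLG, hsp⟩ := glue_pair hj hL hh hx hy hw rfl
  by_cases hG2 : (S2.glue x (T.a x) hx2 hy2).HConn T
  · exact Or.inl ⟨hu0, hv0, hw2, hx2, hy2, hG2⟩
  · right
    obtain ⟨z1, u', hu'⟩ := List.exists_cons_of_ne_nil hu0
    obtain ⟨z2, v', hv'⟩ := List.exists_cons_of_ne_nil hv0
    have hxy := ne_of_hw hx hw
    have hL1 : S1.Le T := sub_le hj.sub1 hL
    have hLG1 : (S1.glue x (T.a x) hx hy).Le T := glue_le S1 hx hy hL1 rfl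
    have hns : (S1.glue x (T.a x) hx hy).Typ (z1 :: z2 :: []) ((u'.length + 1) :: (v'.length + 1) :: []) F (0 + 1) :=
      typ_ns h1 hx hy (by rw [hw, hu', hv'])
    have hz1B : z1 ∈ (S1.glue x (T.a x) hx hy).B := hns.hl.1 z1 (by simp)
    have hz2B : z2 ∈ (S1.glue x (T.a x) hx hy).B := hns.hl.1 z2 (by simp)
    have hz1B2 : z1 ∈ (S2.glue x (T.a x) hx2 hy2).B := by rw [hjG.B]; exact Or.inr hz1B
    have hz2B2 : z2 ∈ (S2.glue x (T.a x) hx2 hy2).B := by rw [hjG.B]; exact Or.inr hz2B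
    have hwl := hw_glue_split_left S2 hx2 hy2 hw2 hu'
    have hwr := hw_glue_split_right S2 hx2 hy2 hw2 hv'
    have hcu : ∀ z ∈ u, (S2.glue x (T.a x) hx2 hy2).Hc T z1 z := fun z hz => hc_hole hz1B2 (by rw [hwl]; exact hz)
    have hcv : ∀ z ∈ v, (S2.glue x (T.a x) hx2 hy2).Hc T z2 z := fun z hz => hc_hole hz2B2 (by rw [hwr]; exact hz)
    have hG1 : (S1.glue x (T.a x) hx hy).Hc T z1 z2 := hc z1 (Or.inr hz1B) z2 (Or.inr hz2B)
    have hn12 : ¬ (S2.glue x (T.a x) hx2 hy2).Hc T z1 z2 := by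
      intro h12
      apply hG2
      intro d hd e he
      rcases hsp d hd e he with h | ⟨⟨z, hz, h⟩, z', hz', h'⟩ | ⟨⟨z, hz, h⟩, z', hz', h'⟩
      · exact h
      · exact hc_trans (hc_symm (hc_trans (hcu z hz) h)) (hc_trans h12 (hc_trans (hcv z' hz') h'))
      · exact hc_trans (hc_symm (hc_trans (hcv z hz) h)) (hc_trans (hc_symm h12) (hc_trans (hcu z' hz') h'))
    obtain ⟨d1, hd1, hc1⟩ := ns_aux h0 hjG hLG hLG1 hz1B hz2B hG1 hn12
    obtain ⟨d2, hd2, hc2⟩ := ns_aux h0 hjG hLG hLG1 hz2B hz1B (hc_symm hG1) (fun h => hn12 (hc_symm h))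
    have hz1u : z1 ∈ u := by rw [hu']; simp
    have hz2v : z2 ∈ v := by rw [hv']; simp
    have hnd : ∀ z ∈ (S1.glue x (T.a x) hx hy).B, ∀ d ∈ l0, (S2.glue x (T.a x) hx2 hy2).Hc T z d → ∀ a,
        ¬ (S2.glue x (T.a x) hx2 hy2).IsDisc T z a := by
      intro z hz d hd hzd a hdisc
      have hdB := h0.hl.1 d hd
      have hdB2 : d ∈ (S2.glue x (T.a x) hx2 hy2).B := by rw [hjG.B]; exact Or.inl hdB
      have h2 := hdisc.2.1 d hdB2 hzd
      rw [mem_hw _ hdisc.1] at h2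
      exact dj_same hjG hdB.1 hz.1 h2.2.symm
    have hwl1 := hw_glue_split_left S1 hx hy hw hu'
    have hwr1 := hw_glue_split_right S1 hx hy hw hv'
    refine ⟨⟨hu0, hv0, hw2, hx2, hy2, hG2, ?_, ?_⟩, fun _ _ => ⟨⟨d1, hd1, z1, hz1u, hc1⟩, ⟨d2, hd2, z2, hz2v, hc2⟩⟩⟩
    · intro z hz
      have hzB : z ∈ (S1.glue x (T.a x) hx hy).B := ((mem_hw _ hz1B).1 (by rw [hwl1]; exact hz)).1
      exact hnd z hzB d1 hd1 (hc_trans (hc_symm (hcu z hz)) hc1)
    · intro z hz
      have hzB : z ∈ (S1.glue x (T.a x) hx hy).B := ((mem_hw _ hz2B).1 (by rw [hwr1]; exact hz)).1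
      exact hnd z hzB d2 hd2 (hc_trans (hc_symm (hcv z hz)) hc2)

end Part
end SYS
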