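import Pool.Agent.SYS.Lib.CntC
import Pool.Agent.SYS.Num.Defs
import Pool.Agent.SYS.A.BrA

/-!
# SYS-Lib-Typ: types of regions and the base count

`Typ S l P F κ`: hole representatives `l` with perimeters `P`, `F` unrevealed triangles, every component has a hole, `κ` = (sum of the genera) - #components + #holes.
Every triangulation `T` of genus `g` with connected hidden part has hidden genus `g - κ`.

PLAN.  `typ_card`: if `2 V + 4 h + 2 P.length = 4 + F + P.sum` has a solution `V`: `ext_card_mu` with `ι = Fin l.length`, `h i = l.get i`; the condition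
`V + inn S + 2 (h + κ) = n + 2` follows from `eul` (`|R| = 6n - 3F`).  `Num.muG` is `(muP ..).coeff V` by definition, `A.mu_eq` (needs `l ≠ []` or `0 < F`).  If there is no solution: if `F + P.sum` is
odd then `|R| = 6 n - 3 F` and `eul` is contradictory mod 2; if `4 h + 2 P.length > 4 + F + P.sum` then `ext_card_none` (`n + 2 < inn S + 2 (h + κ)` by `eul`).
`typ_le`: if `κ > g`, say the set contains `T`: `V := Nat.card T.V - inn S = n + 2 - 2 g - inn S` satisfies `mu (..) F V ≠ 0` by `ext_card_mu` (the set is nonempty), so by `A.mu_euler`-type statement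
(see `SYS/A/Eul.lean` for the exact form: nonzero coefficient implies Euler with some genus `h ≥ 0`) `g = h + κ`.
Steps: holes by `hl_newTri, hl_face, hl_glue_split, hl_glue_merge, fil_hl`; `inn` by `inn_newTri, inn_face, inn_glue_split, inn_glue_merge`, the field `inn` of `FillBy`; `R` by `newTri_R, face_R, glue_R`;
`eul` is then linear arithmetic (`(S.hw x).length = S.per x = p`); `tc` by `cn_newTri`-type arguments: `cn_sub` (old relations are kept), new darts are connected to `x` or `t0`, in a gluing `x`, `y` are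
replaced by an element of `u` or `v` (`cn_of_same`); for `typ_fill`: `fil_cn`, `tc` of `S`, and `hc`.
-/

namespace SYS
namespace Part

open Classical SST

variable {D : Type} [Finite D]

/-- The type of a region. -/
structure Typ (S : Part D) (l : List D) (P : List ℕ) (F κ : ℕ) : Prop where
  hl : S.HL l
  per : l.map S.per = P
  vol : S.R.ncard + 3 * F = Nat.card D
  tc : ∀ d ∈ S.R, ∃ e ∈ S.B, S.Cn d e
  eul : S.R.ncard + 6 * l.length = 6 * S.inn + 3 * P.sum + 12 * κ
  ne : l ≠ [] ∨ 0 < F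

/-- parity and Euler relation of a region -/
private theorem typ_par {S : Part D} {l : List D} {P : List ℕ} {F κ : ℕ} (hS : S.Typ l P F κ) {n : ℕ}
    (hD : Nat.card D = 6 * n) : F + P.sum + 2 * S.inn + 4 * κ = 2 * n + 2 * P.length ∧
      l.length = P.length := by
  have h1 := hS.vol
  have h2 := hS.eul
  have h3 : l.length = P.length := by rw [← hS.per, List.length_map]
  rw [hD] at h1
  constructor
  · omega
  · exact h3

private theorem typ_univ {S : Part D} {l : List D} {P : List ℕ} (h : l.map S.per = P) :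
    Finset.univ.val.map (fun i : Fin l.length => S.per (l.get i)) = (P : Multiset ℕ) := by
  rw [Fin.univ_val_map]
  congr 1
  have h1 : (fun i : Fin l.length => S.per (l.get i)) = S.per ∘ l.get := rfl
  rw [h1, ← List.map_ofFn, List.ofFn_get, h]

private theorem typ_ext {n g F κ V : ℕ} {S : Part (Fin (6 * n))} {l : List (Fin (6 * n))} {P : List ℕ}
    (hS : S.Typ l P F κ) (hV : V + S.inn + 2 * g = n + 2) :
    (({T | T ∈ S.Ext g ∧ S.HConn T}.ncard : ℕ) : ℚ) =
      ((3 * F).factorial : ℚ) * (SYS.A.muP (P : Multiset ℕ) F).coeff V := by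
  have h1 := ext_card_mu (n := n) (g := g) (F := F) (V := V) S (ι := Fin l.length) (fun i => l.get i)
    (fun i => hS.hl.1 _ (List.get_mem l i)) ?_ ?_ hS.tc ?_ hV
  · rw [h1, SYS.A.mu_eq, typ_univ hS.per]
    rcases hS.ne with h | h
    · left
      exact ⟨⟨0, List.length_pos_iff.2 h⟩⟩
    · exact Or.inr h
  · intro i j hij
    by_contra hne
    have hp := hS.hl.2.1
    rw [List.pairwise_iff_get] at hp
    rcases lt_or_gt_of_ne hne with h | h
    · exact hp i j h hij
    · exact hp j i h hij.symm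
  · intro d hd
    obtain ⟨e, he, hed⟩ := hS.hl.2.2 d hd
    obtain ⟨i, hi⟩ := List.get_of_mem he
    exact ⟨i, by rw [hi]; exact hed⟩
  · have h2 := hS.vol
    rw [Nat.card_fin] at h2
    exact h2

theorem typ_card {n h F κ : ℕ} {S : Part (Fin (6 * n))} {l : List (Fin (6 * n))} {P : List ℕ} (hS : S.Typ l P F κ) :
    (({T | T ∈ S.Ext (h + κ) ∧ S.HConn T}.ncard : ℕ) : ℝ) = ((3 * F).factorial : ℝ) * Num.muG (P : Multiset ℕ) F h := by
  obtain ⟨h1, h2⟩ := typ_par hS (n := n) (Nat.card_fin _)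
  unfold Num.muG
  rw [Multiset.sum_coe, Multiset.coe_card]
  have hev : Even (F + P.sum) := by
    rw [Nat.even_iff]
    omega
  by_cases hc : 4 * h + 2 * P.length ≤ 4 + F + P.sum
  · rw [if_pos ⟨hev, hc⟩]
    have h3 := typ_ext (g := h + κ) (V := (4 + F + P.sum - 4 * h - 2 * P.length) / 2) hS (by omega)
    have h4 := congrArg (fun q : ℚ => (q : ℝ)) h3
    push_cast at h4
    rw [h4]
  · rw [if_neg (fun hh => hc hh.2), mul_zero]
    have h3 := ext_card_none (n := n) (g := h + κ) S (by omega)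
    rw [h3]
    simp

theorem typ_le {n g F κ : ℕ} {S : Part (Fin (6 * n))} {l : List (Fin (6 * n))} {P : List ℕ} (hS : S.Typ l P F κ)
    {T : Tri (Fin (6 * n))} (hT : T ∈ S.Ext g) (hc : S.HConn T) : κ ≤ g := by
  obtain ⟨h1, h2⟩ := typ_par hS (n := n) (Nat.card_fin _)
  have h3 : ¬ (n + 2 < S.inn + 2 * g) := by
    intro h
    rw [ext_card_none S h] at hT
    exact hT
  have h4 := typ_ext (g := g) (V := n + 2 - 2 * g - S.inn) hS (by omega)
  have h5 : {T | T ∈ S.Ext g ∧ S.HConn T}.ncard ≠ 0 := by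
    rw [Ne, Set.ncard_eq_zero (Set.toFinite _)]
    intro h
    have : T ∈ {T | T ∈ S.Ext g ∧ S.HConn T} := ⟨hT, hc⟩
    rw [h] at this
    exact this
  have h6 : (SYS.A.muP (P : Multiset ℕ) F).coeff (n + 2 - 2 * g - S.inn) ≠ 0 := by
    intro h
    rw [h, mul_zero] at h4
    exact h5 (by exact_mod_cast h4)
  obtain ⟨g', hg'⟩ := SYS.A.muP_euler h6
  rw [Multiset.sum_coe, Multiset.coe_card] at hg'
  omega

theorem typ_emp {n : ℕ} (hn : 1 ≤ n) : (emp : Part (Fin (6 * n))).Typ [] [] (2 * n) 0 := by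
  have hR : (emp : Part (Fin (6 * n))).R = ∅ := by
    ext d
    constructor
    · intro hd; exact absurd rfl hd
    · intro hd; exact absurd hd (Set.notMem_empty d)
  refine ⟨⟨?_, List.Pairwise.nil, ?_⟩, rfl, ?_, ?_, ?_, Or.inr (by omega)⟩
  · intro d hd
    simp at hd
  · intro d hd
    exact absurd rfl hd.1
  · rw [hR, Set.ncard_empty, Nat.card_fin]
    omega
  · intro d hd
    exact absurd rfl hd
  · rw [hR, Set.ncard_empty, inn_emp]
    simp

theorem typ_perm {S : Part D} {l l' : List D} {P : List ℕ} {F κ : ℕ} (hS : S.Typ l P F κ) (h : l.Perm l') :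
    S.Typ l' (l'.map S.per) F κ := by
  refine ⟨hl_perm h hS.hl, rfl, hS.vol, hS.tc, ?_, ?_⟩
  · have h1 := hS.eul
    rw [← hS.per, (h.map S.per).sum_eq, h.length_eq] at h1
    exact h1
  · rcases hS.ne with h1 | h1
    · left
      rintro rfl
      exact h1 h.eq_nil
    · exact Or.inr h1

theorem typ_repl {S : Part D} {x y : D} {l : List D} {P : List ℕ} {F κ : ℕ} (hS : S.Typ (x :: l) P F κ) (hy : y ∈ S.B)
    (hxy : S.s.SameCycle x y) : S.Typ (y :: l) P F κ := by
  refine ⟨hl_repl hS.hl hy hxy, ?_, hS.vol, hS.tc, ?_, Or.inl (by simp)⟩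
  · rw [← hS.per, List.map_cons, List.map_cons, per_same S hxy]
  · have h1 := hS.eul
    simpa using h1

private theorem typ_ncard_three {A : Set D} {t0 t1 t2 : D} (k0 : t0 ∉ A) (k1 : t1 ∉ A) (k2 : t2 ∉ A)
    (h01 : t0 ≠ t1) (h12 : t1 ≠ t2) (h20 : t2 ≠ t0) :
    (A ∪ {t0, t1, t2}).ncard = A.ncard + 3 := by
  have hd : Disjoint A ({t0, t1, t2} : Set D) := by
    rw [Set.disjoint_left]
    rintro a ha (h | h | h)
    · exact k0 (h ▸ ha)
    · exact k1 (h ▸ ha)
    · exact k2 (h ▸ ha)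
  rw [Set.ncard_union_eq hd (Set.toFinite _) (Set.toFinite _)]
  congr 1
  rw [Set.ncard_eq_three]
  exact ⟨t0, t1, t2, h01, h20.symm, h12, rfl⟩

section
variable {S : Part D} {l : List D} {P : List ℕ} {F κ : ℕ}

/-- A new source. -/
theorem typ_newTri (hS : S.Typ l P (F + 1) κ) {t0 t1 t2 : D} (h0 : t0 ∉ S.R) (h1 : t1 ∉ S.R) (h2 : t2 ∉ S.R)
    (h01 : t0 ≠ t1) (h12 : t1 ≠ t2) (h20 : t2 ≠ t0) :
    (S.newTri t0 t1 t2 h0 h1 h2 h01 h12 h20).Typ (t0 :: l) (3 :: P) F κ := by
  obtain ⟨a1, a2, a3⟩ := hl_newTri S h0 h1 h2 h01 h12 h20 hS.hl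
  have hR : (S.newTri t0 t1 t2 h0 h1 h2 h01 h12 h20).R.ncard = S.R.ncard + 3 := by
    rw [newTri_R]
    exact typ_ncard_three h0 h1 h2 h01 h12 h20
  refine ⟨a1, ?_, ?_, ?_, ?_, Or.inl (by simp)⟩
  · rw [List.map_cons, a2, ← hS.per]
    congr 1
    exact List.map_congr_left a3
  · rw [hR]
    have := hS.vol
    omega
  · intro d hd
    rw [newTri_R] at hd
    rcases hd with hd | hd
    · obtain ⟨e, he, hde⟩ := hS.tc d hd
      refine ⟨e, ?_, cn_sub (newTri_sub S h0 h1 h2 h01 h12 h20) hd hde⟩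
      rw [newTri_B]
      exact Or.inl he
    · refine ⟨d, ?_, cn_refl _ d⟩
      rw [newTri_B]
      exact Or.inr hd
  · rw [hR, inn_newTri, List.length_cons, List.sum_cons]
    have := hS.eul
    omega

theorem typ_face {x : D} {p : ℕ} (hS : S.Typ (x :: l) (p :: P) (F + 1) κ) {t0 t1 t2 : D} (hx : x ∈ S.B) (h0 : t0 ∉ S.R)
    (h1 : t1 ∉ S.R) (h2 : t2 ∉ S.R) (h01 : t0 ≠ t1) (h12 : t1 ≠ t2) (h20 : t2 ≠ t0) :
    (S.face x t0 t1 t2 hx h0 h1 h2 h01 h12 h20).Typ (t1 :: l) ((p + 1) :: P) F κ := by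
  obtain ⟨a1, a2, a3⟩ := hl_face S hx h0 h1 h2 h01 h12 h20 hS.hl
  obtain ⟨hp1, hp2⟩ := List.cons_eq_cons.1 (show S.per x :: l.map S.per = p :: P from hS.per)
  set S' := S.face x t0 t1 t2 hx h0 h1 h2 h01 h12 h20 with hS'
  have hR : S'.R.ncard = S.R.ncard + 3 := by
    rw [hS', face_R]
    exact typ_ncard_three h0 h1 h2 h01 h12 h20
  have hsub : S.Sub S' := face_sub S hx h0 h1 h2 h01 h12 h20
  have hstep : ∀ d, S'.Cn d (S'.s d) := by
    intro d
    rw [s_apply]
    exact cn_trans (cn_a S' d) (cn_f S' _)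
  have k1 : S'.Cn x t1 := by
    have := hstep x
    rwa [hS', face_s_x, ← hS'] at this
  have k2 : S'.Cn t1 t2 := by
    have := hstep t1
    rwa [hS', face_s_t1, ← hS'] at this
  have k0 : S'.Cn t2 t0 := by
    have := hstep t2
    rwa [hS', face_s_t2, ← hS'] at this
  have ht1 : t1 ∈ S'.B := a1.1 t1 (by simp)
  refine ⟨a1, ?_, ?_, ?_, ?_, Or.inl (by simp)⟩
  · rw [List.map_cons, a2, hp1, ← hp2]
    congr 1
    exact List.map_congr_left a3
  · rw [hR]
    have := hS.vol
    omega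
  · intro d hd
    rw [hS', face_R] at hd
    rcases hd with hd | hd | hd | hd
    · obtain ⟨e, he, hde⟩ := hS.tc d hd
      by_cases hex : e = x
      · subst hex
        exact ⟨t1, ht1, cn_trans (cn_sub hsub hd hde) k1⟩
      · refine ⟨e, ?_, cn_sub hsub hd hde⟩
        rw [hS', face_B]
        exact Or.inl ⟨he, hex⟩
    · rw [hd]; exact ⟨t1, ht1, cn_symm (cn_trans k2 k0)⟩
    · rw [hd]; exact ⟨t1, ht1, cn_refl _ _⟩
    · rw [hd]; exact ⟨t1, ht1, cn_symm k2⟩
  · rw [hR, hS', inn_face, List.length_cons, List.sum_cons]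
    have := hS.eul
    rw [List.length_cons, List.sum_cons] at this
    omega

private theorem typ_tc_glue (hS : ∀ d ∈ S.R, ∃ e ∈ S.B, S.Cn d e) {x y z : D} (hx : x ∈ S.B) (hy : y ∈ S.B)
    (hxy : x ≠ y) (hz : z ∈ S.B) (hzx : z ≠ x) (hzy : z ≠ y) (hc : S.Cn x z ∨ S.Cn y z) :
    ∀ d ∈ (S.glue x y hx hy).R, ∃ e ∈ (S.glue x y hx hy).B, (S.glue x y hx hy).Cn d e := by
  intro d hd
  rw [glue_R] at hd
  have hsub := glue_sub S hx hy
  have hzB : z ∈ (S.glue x y hx hy).B := by
    rw [glue_B S hx hy hxy]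
    refine ⟨hz, ?_⟩
    rintro (h | h)
    · exact hzx h
    · exact hzy h
  have key : ∀ e, e = x ∨ e = y → (S.glue x y hx hy).Cn e z := by
    intro e he
    rw [cn_glue]
    right
    constructor
    · rcases he with rfl | rfl
      · exact Or.inl (cn_refl _ _)
      · exact Or.inr (cn_refl _ _)
    · rcases hc with h | h
      · exact Or.inl (cn_symm h)
      · exact Or.inr (cn_symm h)
  obtain ⟨e, he, hde⟩ := hS d hd
  by_cases hex : e = x ∨ e = y
  · exact ⟨z, hzB, cn_trans (cn_sub hsub hd hde) (key e hex)⟩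
  · push Not at hex
    refine ⟨e, ?_, cn_sub hsub hd hde⟩
    rw [glue_B S hx hy hxy]
    refine ⟨he, ?_⟩
    rintro (h | h)
    · exact hex.1 h
    · exact hex.2 h

/-- Gluing inside a hole, both parts nonempty. -/
theorem typ_ns {x y z z' : D} {p : ℕ} (hS : S.Typ (x :: l) (p :: P) F κ) (hx : x ∈ S.B) (hy : y ∈ S.B) {u v : List D}
    (hw : S.hw x = x :: (z :: u ++ y :: z' :: v)) :
    (S.glue x y hx hy).Typ (z :: z' :: l) ((u.length + 1) :: (v.length + 1) :: P) F (κ + 1) := by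
  obtain ⟨hp1, hp2⟩ := List.cons_eq_cons.1 (show S.per x :: l.map S.per = p :: P from hS.per)
  obtain ⟨a1, a2, a3, a4⟩ := hl_glue_split S hx hy hS.hl (u := z :: u) (v := z' :: v) hw
  have hnd := hw_nodup S hx
  have hlen := hw_length S hx
  rw [hw] at hnd hlen
  have hzm : z ∈ S.hw x := by rw [hw]; simp
  obtain ⟨hzB, hzs⟩ := (mem_hw S hx).1 hzm
  have hxy : x ≠ y := by
    rintro rfl
    simp at hnd
  have hzx : z ≠ x := by
    rintro rfl
    simp at hnd
  have hzy : z ≠ y := by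
    rintro rfl
    simp at hnd
  have hi := inn_glue_split S hx hy (u := z :: u) (v := z' :: v) hw
  rw [if_neg (by simp), if_neg (by simp)] at hi
  refine ⟨a1, ?_, ?_, ?_, ?_, Or.inl (by simp)⟩
  · rw [List.map_cons, List.map_cons, a2 z (by simp), a3 z' (by simp), ← hp2, List.length_cons,
      List.length_cons]
    congr 2
    exact List.map_congr_left a4
  · rw [glue_R]
    exact hS.vol
  · exact typ_tc_glue hS.tc hx hy hxy hzB hzx hzy (Or.inl (cn_of_same hzs))
  · rw [glue_R, hi]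
    have := hS.eul
    simp only [List.length_cons, List.sum_cons, List.length_append] at this hlen ⊢
    omega

/-- Gluing with the next boundary dart. -/
theorem typ_r0 {x y z : D} {p : ℕ} (hS : S.Typ (x :: l) (p :: P) F κ) (hx : x ∈ S.B) (hy : y ∈ S.B) {v : List D}
    (hw : S.hw x = x :: y :: z :: v) : (S.glue x y hx hy).Typ (z :: l) ((v.length + 1) :: P) F κ := by
  obtain ⟨hp1, hp2⟩ := List.cons_eq_cons.1 (show S.per x :: l.map S.per = p :: P from hS.per)
  obtain ⟨a1, a2, a3, a4⟩ := hl_glue_split S hx hy hS.hl (u := []) (v := z :: v) hw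
  have hnd := hw_nodup S hx
  have hlen := hw_length S hx
  rw [hw] at hnd hlen
  have hzm : z ∈ S.hw x := by rw [hw]; simp
  obtain ⟨hzB, hzs⟩ := (mem_hw S hx).1 hzm
  have hxy : x ≠ y := by
    rintro rfl
    simp at hnd
  have hzx : z ≠ x := by
    rintro rfl
    simp at hnd
  have hzy : z ≠ y := by
    rintro rfl
    simp at hnd
  have hi := inn_glue_split S hx hy (u := []) (v := z :: v) hw
  rw [if_pos rfl, if_neg (by simp)] at hi
  refine ⟨a1, ?_, ?_, ?_, ?_, Or.inl (by simp)⟩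
  · rw [List.map_cons, a3 z (by simp), ← hp2, List.length_cons]
    congr 1
    exact List.map_congr_left a4
  · rw [glue_R]
    exact hS.vol
  · exact typ_tc_glue hS.tc hx hy hxy hzB hzx hzy (Or.inl (cn_of_same hzs))
  · rw [glue_R, hi]
    have := hS.eul
    simp only [List.length_cons, List.sum_cons, List.length_append] at this hlen ⊢
    omega

/-- Gluing with the previous boundary dart. -/
theorem typ_l0 {x y z : D} {p : ℕ} (hS : S.Typ (x :: l) (p :: P) F κ) (hx : x ∈ S.B) (hy : y ∈ S.B) {u : List D}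
    (hw : S.hw x = x :: (z :: u ++ [y])) : (S.glue x y hx hy).Typ (z :: l) ((u.length + 1) :: P) F κ := by
  obtain ⟨hp1, hp2⟩ := List.cons_eq_cons.1 (show S.per x :: l.map S.per = p :: P from hS.per)
  obtain ⟨a1, a2, a3, a4⟩ := hl_glue_split S hx hy hS.hl (u := z :: u) (v := []) hw
  have hnd := hw_nodup S hx
  have hlen := hw_length S hx
  rw [hw] at hnd hlen
  have hzm : z ∈ S.hw x := by rw [hw]; simp
  obtain ⟨hzB, hzs⟩ := (mem_hw S hx).1 hzm
  have hxy : x ≠ y := by
    rintro rfl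
    simp at hnd
  have hzx : z ≠ x := by
    rintro rfl
    simp at hnd
  have hzy : z ≠ y := by
    rintro rfl
    simp at hnd
  have hi := inn_glue_split S hx hy (u := z :: u) (v := []) hw
  rw [if_neg (by simp), if_pos rfl] at hi
  refine ⟨a1, ?_, ?_, ?_, ?_, Or.inl (by simp)⟩
  · rw [List.map_cons, a2 z (by simp), ← hp2, List.length_cons]
    congr 1
    exact List.map_congr_left a4
  · rw [glue_R]
    exact hS.vol
  · exact typ_tc_glue hS.tc hx hy hxy hzB hzx hzy (Or.inl (cn_of_same hzs))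
  · rw [glue_R, hi]
    have := hS.eul
    simp only [List.length_cons, List.sum_cons, List.length_append, List.length_nil] at this hlen ⊢
    omega

/-- Gluing two holes. -/
theorem typ_mrg {x y z : D} {p q : ℕ} (hS : S.Typ (x :: y :: l) (p :: q :: P) F κ) (hx : x ∈ S.B) (hy : y ∈ S.B)
    {u v w : List D} (hu : S.hw x = x :: u) (hv : S.hw y = y :: v) (huv : u ++ v = z :: w) :
    (S.glue x y hx hy).Typ (z :: l) ((w.length + 1) :: P) F κ := by
  obtain ⟨hp1, hp2⟩ := List.cons_eq_cons.1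
    (show S.per x :: S.per y :: l.map S.per = p :: q :: P from hS.per)
  obtain ⟨hp2, hp3⟩ := List.cons_eq_cons.1 hp2
  obtain ⟨a1, a2, a3⟩ := hl_glue_merge S hx hy hS.hl hu hv
  have hne : ¬ S.s.SameCycle x y := by
    have h := hS.hl.2.1
    rw [List.pairwise_cons] at h
    exact h.1 y (by simp)
  have hndx := hw_nodup S hx
  have hlenx := hw_length S hx
  have hndy := hw_nodup S hy
  have hleny := hw_length S hy
  rw [hu] at hndx hlenx
  rw [hv] at hndy hleny
  have hxy : x ≠ y := by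
    rintro rfl
    exact hne (Equiv.Perm.SameCycle.refl _ _)
  have hzuv : z ∈ u ++ v := by rw [huv]; simp
  have hz : z ∈ S.B ∧ z ≠ x ∧ z ≠ y ∧ (S.Cn x z ∨ S.Cn y z) := by
    rcases List.mem_append.1 hzuv with h | h
    · have hzm : z ∈ S.hw x := by rw [hu]; exact List.mem_cons_of_mem _ h
      obtain ⟨hzB, hzs⟩ := (mem_hw S hx).1 hzm
      refine ⟨hzB, ?_, ?_, Or.inl (cn_of_same hzs)⟩
      · rintro rfl
        exact (List.nodup_cons.1 hndx).1 h
      · rintro rfl
        exact hne hzs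
    · have hzm : z ∈ S.hw y := by rw [hv]; exact List.mem_cons_of_mem _ h
      obtain ⟨hzB, hzs⟩ := (mem_hw S hy).1 hzm
      refine ⟨hzB, ?_, ?_, Or.inr (cn_of_same hzs)⟩
      · rintro rfl
        exact hne hzs.symm
      · rintro rfl
        exact (List.nodup_cons.1 hndy).1 h
  obtain ⟨hzB, hzx, hzy, hzc⟩ := hz
  have hi := inn_glue_merge S hx hy hne hu hv
  rw [if_neg (by rw [huv]; simp)] at hi
  have hla := congrArg List.length huv
  have a2' := a2 z hzuv
  rw [huv] at a1 a2'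
  refine ⟨a1, ?_, ?_, ?_, ?_, Or.inl (by simp)⟩
  · rw [List.map_cons, a2', ← hp3, List.length_cons]
    congr 1
    exact List.map_congr_left a3
  · rw [glue_R]
    exact hS.vol
  · exact typ_tc_glue hS.tc hx hy hxy hzB hzx hzy hzc
  · rw [glue_R, hi]
    have := hS.eul
    simp only [List.length_cons, List.sum_cons, List.length_append] at this hlenx hleny hla ⊢
    omega

/-- Filling the holes `l1` by a connected part with `F1` triangles and genus `h`. -/
theorem typ_fill {l1 l2 : List D} {P1 P2 : List ℕ} {F1 F2 V h κ' : ℕ} (hS : S.Typ (l1 ++ l2) (P1 ++ P2) (F1 + F2) κ')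
    (hl : l1.length = P1.length) (h1 : l1 ≠ []) (h2 : l2 ≠ []) {S' : Part D}
    (hf : S.FillBy S' {d | d ∈ S.B ∧ ∃ e ∈ l1, S.s.SameCycle e d} F1 V)
    (hV : 2 * V + 4 * h + 2 * P1.length = 4 + F1 + P1.sum) (hc : ∀ d ∈ l1, ∃ e ∈ l2, S.Cn d e) (hκ : κ' + h = κ + 1) :
    S'.Typ l2 P2 F2 κ := by
  set H : Set D := {d | d ∈ S.B ∧ ∃ e ∈ l1, S.s.SameCycle e d} with hH
  have hHU : S.HUn H := by
    refine ⟨fun d hd => hd.1, ?_⟩
    rintro d ⟨_, e, he, hed⟩ e' he' hde'
    exact ⟨he', e, he, hed.trans hde'⟩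
  have hm1 : ∀ d ∈ l1, d ∈ H := fun d hd =>
    ⟨hS.hl.1 d (List.mem_append_left _ hd), d, hd, Equiv.Perm.SameCycle.refl _ _⟩
  have hm2 : ∀ d ∈ l2, d ∉ H := by
    rintro d hd ⟨_, e, he, hed⟩
    have h3 := hS.hl.2.1
    rw [List.pairwise_append] at h3
    exact h3.2.2 e he d hd hed
  obtain ⟨b1, b2⟩ := fil_hl hHU hf hS.hl hm1 hm2
  have hper := hS.per
  rw [List.map_append] at hper
  obtain ⟨hp1, hp2⟩ := List.append_inj hper (by rw [List.length_map, hl])
  have hne : H.Nonempty := by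
    obtain ⟨d, hd⟩ := List.exists_mem_of_ne_nil l1 h1
    exact ⟨d, hm1 d hd⟩
  refine ⟨b1, ?_, ?_, ?_, ?_, Or.inl h2⟩
  · rw [← hp2]
    exact List.map_congr_left b2
  · have h3 := hS.vol
    have h4 := hf.R
    omega
  · intro d hd
    obtain ⟨e, he, hde⟩ := fil_cn hHU hf hne hd
    obtain ⟨b, hb, heb⟩ := hS.tc e he
    have hbR : b ∈ S.R := B_sub_R S hb
    have h3 : S'.Cn d b := cn_trans hde (cn_sub hf.sub he heb)
    by_cases hbH : b ∈ H
    · obtain ⟨_, e1, he1, he1b⟩ := hbH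
      obtain ⟨e2, he2, he12⟩ := hc e1 he1
      have h4 : S.Cn b e2 := cn_trans (cn_symm (cn_of_same he1b)) he12
      refine ⟨e2, ?_, cn_trans h3 (cn_sub hf.sub hbR h4)⟩
      rw [hf.B]
      exact ⟨hS.hl.1 e2 (List.mem_append_right _ he2), hm2 e2 he2⟩
    · refine ⟨b, ?_, h3⟩
      rw [hf.B]
      exact ⟨hb, hbH⟩
  · have h3 := hS.eul
    have h4 := hf.R
    have h5 := hf.inn
    rw [List.length_append, List.sum_append] at h3
    omega

end

end Part
end SYS
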