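import Pool.Agent.SYS.Lib.HL
import Pool.Agent.SYS.Lib.HidB

/-!
# SYS-Lib-Fil: filling some holes by a connected hidden part (definitions and elementary facts)

`FillBy S S' H F V`: `S'` is obtained from `S` by revealing a connected hidden part with `F` triangles and `V` inner vertices behind the holes `H`
(a union of holes of `S`).

The new darts and the filled boundary darts form one class of the hidden part.
-/

namespace SYS
namespace Part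

open Classical SST

variable {D : Type} [Finite D]

/-- `S'` is obtained from `S` by filling the holes `H` by a connected part with `F` triangles and `V` inner vertices. -/
structure FillBy (S S' : Part D) (H : Set D) (F V : ℕ) : Prop where
  sub : S.Sub S'
  B : S'.B = S.B \ H
  R : S'.R.ncard = S.R.ncard + 3 * F
  inn : S'.inn = S.inn + V
  conn : ∀ Z ⊆ (S'.R \ S.R) ∪ H, Z.Nonempty →
    (∀ d ∈ Z, S'.a d ∈ Z ∧ (d ∉ S.R → S'.f d ∈ Z) ∧ (d ∈ S.B → S.nx d ∈ Z)) → Z = (S'.R \ S.R) ∪ H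

/-- A union of holes. -/
def HUn (S : Part D) (H : Set D) : Prop := H ⊆ S.B ∧ ∀ d ∈ H, ∀ e ∈ S.B, S.s.SameCycle d e → e ∈ H

section
variable {S S' : Part D} {H : Set D} {F V : ℕ}

private theorem fl_nat {σ : Equiv.Perm D} {u v : D} : σ.SameCycle u v ↔ ∃ n : ℕ, (σ ^ n) u = v := by
  constructor
  · intro h
    obtain ⟨n, hn⟩ := h.exists_pow_eq'
    exact ⟨n, hn.2⟩
  · rintro ⟨n, hn⟩
    exact ⟨(n : ℤ), by rw [zpow_natCast]; exact hn⟩

private theorem fl_a (h : S.FillBy S' H F V) {d : D} (hd : d ∈ S.R) (hd' : d ∉ H) : S'.a d = S.a d := by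
  by_cases h1 : S.a d = d
  · have h2 : d ∈ S'.B := by
      rw [h.B]
      exact ⟨⟨hd, h1⟩, hd'⟩
    rw [h1]
    exact h2.2
  · exact h.sub.2 d h1

private theorem fl_s (h : S.FillBy S' H F V) {d : D} (hd : d ∈ S.R) (hd' : d ∉ H) : S'.s d = S.s d := by
  rw [s_apply, s_apply, fl_a h hd hd']
  exact h.sub.1 _ ((mem_R_a S d).2 hd)

omit [Finite D] in
private theorem fl_powR {z : D} (hz : z ∈ S.R) (i : ℕ) : (S.s ^ i) z ∈ S.R := by
  induction i with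
  | zero => exact hz
  | succ i ih =>
    rw [pow_succ', Equiv.Perm.mul_apply]
    exact (mem_R_s S _).2 ih

private theorem fl_pow (h : S.FillBy S' H F V) {d : D} (hd : d ∈ S.R) (hd' : ∀ z ∈ H, ¬ S.s.SameCycle d z) (i : ℕ) :
    (S'.s ^ i) d = (S.s ^ i) d := by
  induction i with
  | zero => rfl
  | succ i ih =>
    rw [pow_succ', Equiv.Perm.mul_apply, ih, pow_succ', Equiv.Perm.mul_apply]
    exact fl_s h (fl_powR hd i) (fun hc => hd' _ hc ⟨(i : ℤ), by rw [zpow_natCast]⟩)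

private theorem fl_no (hH : S.HUn H) {d : D} (hd : d ∈ S.B) (hd' : d ∉ H) : ∀ z ∈ H, ¬ S.s.SameCycle d z :=
  fun z hz hc => hd' (hH.2 z hz d hd hc.symm)

theorem fil_same (hH : S.HUn H) (h : S.FillBy S' H F V) {d e : D} (hd : d ∈ S.R) (hd' : ∀ z ∈ H, ¬ S.s.SameCycle d z) :
    S'.s.SameCycle d e ↔ S.s.SameCycle d e := by
  have _ := hH
  rw [fl_nat, fl_nat]
  constructor
  · rintro ⟨n, hn⟩
    exact ⟨n, by rw [← fl_pow h hd hd']; exact hn⟩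
  · rintro ⟨n, hn⟩
    exact ⟨n, by rw [fl_pow h hd hd']; exact hn⟩

private theorem fl_per (hH : S.HUn H) (h : S.FillBy S' H F V) {d : D} (hd : d ∈ S.B) (hd' : d ∉ H) :
    S'.per d = S.per d := by
  have h1 : S'.hole d = S.hole d := by
    ext e
    constructor
    · rintro ⟨h2, h3⟩
      rw [h.B] at h2
      exact ⟨h2.1, (fil_same hH h hd.1 (fl_no hH hd hd')).1 h3⟩
    · rintro ⟨h2, h3⟩
      refine ⟨?_, (fil_same hH h hd.1 (fl_no hH hd hd')).2 h3⟩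
      rw [h.B]
      exact ⟨h2, fun h4 => fl_no hH hd hd' e h4 h3⟩
  unfold per
  rw [h1]

theorem fil_hl (hH : S.HUn H) (h : S.FillBy S' H F V) {l l' : List D} (hl : S.HL (l ++ l')) (h1 : ∀ d ∈ l, d ∈ H)
    (h2 : ∀ d ∈ l', d ∉ H) : S'.HL l' ∧ ∀ d ∈ l', S'.per d = S.per d := by
  obtain ⟨ha, hb, hc⟩ := hl
  have hB : ∀ d ∈ l', d ∈ S.B := fun d hd => ha d (List.mem_append.2 (Or.inr hd))
  refine ⟨⟨?_, ?_, ?_⟩, fun d hd => fl_per hH h (hB d hd) (h2 d hd)⟩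
  · intro d hd
    rw [h.B]
    exact ⟨hB d hd, h2 d hd⟩
  · have h3 := (List.pairwise_append.1 hb).2.1
    refine List.Pairwise.imp_of_mem ?_ h3
    intro d e hd _ hde hc'
    exact hde ((fil_same hH h (hB d hd).1 (fl_no hH (hB d hd) (h2 d hd))).1 hc')
  · intro d hd
    rw [h.B] at hd
    obtain ⟨e, he, hed⟩ := hc d hd.1
    rcases List.mem_append.1 he with he | he
    · exact absurd (hH.2 e (h1 e he) d hd.1 hed) hd.2
    · exact ⟨e, he, (fil_same hH h (hB e he).1 (fl_no hH (hB e he) (h2 e he))).2 hed⟩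

private theorem fl_nx (hH : S.HUn H) (h : S.FillBy S' H F V) {z : D} (hz : z ∈ S.B) (hz' : z ∉ H) :
    S'.nx z = S.nx z ∧ S.nx z ∉ H := by
  obtain ⟨j, h1, h2, h3⟩ := ret_spec S.s hz
  have hno := fl_no hH hz hz'
  have hzB : z ∈ S'.B := by
    rw [h.B]
    exact ⟨hz, hz'⟩
  have hp : ∀ i : ℕ, (S.s ^ i) z ∉ H := fun i hc => hno _ hc ⟨(i : ℤ), by rw [zpow_natCast]⟩
  have h4 : S.nx z = (S.s ^ (j + 1)) z := h1
  have hB : ∀ i : ℕ, ((S'.s ^ i) z ∈ S'.B ↔ (S.s ^ i) z ∈ S.B) := by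
    intro i
    rw [fl_pow h hz.1 hno, h.B]
    exact ⟨fun h5 => h5.1, fun h5 => ⟨h5, hp i⟩⟩
  have h5 : (S.s ^ (j + 1)) z ∈ S.B := by
    rw [← h4]
    exact h2
  have h6 : S'.nx z = (S'.s ^ (j + 1)) z :=
    ret_eq S'.s hzB ((hB (j + 1)).2 h5) (fun i hi hc => h3 i hi ((hB (i + 1)).1 hc))
  refine ⟨?_, ?_⟩
  · rw [h6, fl_pow h hz.1 hno, h4]
  · rw [h4]
    exact hp (j + 1)

private theorem fl_nx_pow (hH : S.HUn H) (h : S.FillBy S' H F V) {z : D} (hz : z ∈ S.B) (hz' : z ∉ H) (i : ℕ) :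
    (S'.nx ^ i) z = (S.nx ^ i) z ∧ (S.nx ^ i) z ∈ S.B ∧ (S.nx ^ i) z ∉ H := by
  induction i with
  | zero => exact ⟨rfl, hz, hz'⟩
  | succ i ih =>
    obtain ⟨h1, h2, h3⟩ := ih
    rw [pow_succ', Equiv.Perm.mul_apply, h1, pow_succ', Equiv.Perm.mul_apply]
    obtain ⟨h4, h5⟩ := fl_nx hH h h2 h3
    exact ⟨h4, (S.nx_mem).2 h2, h5⟩

theorem fil_hw (hH : S.HUn H) (h : S.FillBy S' H F V) {z : D} (hz : z ∈ S.B) (hz' : z ∉ H) : S'.hw z = S.hw z := by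
  unfold hw
  rw [fl_per hH h hz hz']
  exact List.map_congr_left fun i _ => (fl_nx_pow hH h hz hz' i).1

theorem fil_empty (h : S.FillBy S' ∅ 0 V) : S' = S ∧ V = 0 := by
  have hR : S.R = S'.R := by
    refine Set.eq_of_subset_of_ncard_le h.sub.R_sub ?_ (Set.toFinite _)
    rw [h.R]
    exact le_of_eq (by ring)
  have hf : ∀ d, S'.f d = S.f d := by
    intro d
    by_cases hd : d ∈ S.R
    · exact h.sub.1 d hd
    · have h1 : S.f d = d := not_not.1 hd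
      rw [hR] at hd
      have h2 : S'.f d = d := not_not.1 hd
      rw [h1, h2]
  have ha : ∀ d, S'.a d = S.a d := by
    intro d
    by_cases hd : d ∈ S.R
    · exact fl_a h hd (Set.notMem_empty d)
    · have h1 : S.a d = d := S.af d (not_not.1 hd)
      rw [hR] at hd
      have h2 : S'.a d = d := S'.af d (not_not.1 hd)
      rw [h1, h2]
  have hS : S' = S := ext' (Equiv.ext ha) (Equiv.ext hf)
  refine ⟨hS, ?_⟩
  have h1 := h.inn
  rw [hS] at h1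
  omega

theorem fil_X (hU : S.HUn H) (h : S.FillBy S' H F V) : S'.X = S.X \ ((S'.R \ S.R) ∪ H) := by
  ext d
  show (d ∉ S'.R ∨ d ∈ S'.B) ↔ (d ∉ S.R ∨ d ∈ S.B) ∧ ¬ ((d ∈ S'.R ∧ d ∉ S.R) ∨ d ∈ H)
  rw [h.B]
  constructor
  · rintro (h1 | h1)
    · have h2 : d ∉ S.R := fun h3 => h1 (h.sub.R_sub h3)
      refine ⟨Or.inl h2, ?_⟩
      rintro (h3 | h3)
      · exact h1 h3.1
      · exact h2 (hU.1 h3).1
    · refine ⟨Or.inr h1.1, ?_⟩
      rintro (h3 | h3)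
      · exact h3.2 h1.1.1
      · exact h1.2 h3
  · rintro ⟨h1 | h1, h2⟩
    · left
      intro h3
      exact h2 (Or.inl ⟨h3, h1⟩)
    · right
      exact ⟨h1, fun h3 => h2 (Or.inr h3)⟩

private theorem fl_ne (hH : H ⊆ S.B) (h : S.FillBy S' H F V) {d : D} (hd : d ∈ (S'.R \ S.R) ∪ H) :
    d ∈ S'.R ∧ S'.a d ≠ d := by
  have hR : d ∈ S'.R := hd.elim (fun h1 => h1.1) (fun h1 => h.sub.R_sub (hH h1).1)
  refine ⟨hR, fun ha => ?_⟩
  have hB : d ∈ S'.B := ⟨hR, ha⟩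
  rw [h.B] at hB
  rcases hd with h1 | h1
  · exact h1.2 hB.1.1
  · exact hB.2 h1

private theorem fl_cl_a (hH : H ⊆ S.B) (h : S.FillBy S' H F V) {d : D} (hd : d ∈ (S'.R \ S.R) ∪ H) :
    S'.a d ∈ (S'.R \ S.R) ∪ H := by
  obtain ⟨hR, hne⟩ := fl_ne hH h hd
  have h1 : S'.a d ∈ S'.R := (mem_R_a S' d).2 hR
  by_cases h2 : S'.a d ∈ S.R
  · right
    by_contra h3
    have h4 := fl_a h h2 h3
    rw [S'.aa] at h4
    have h8 : S.a d = S'.a d := (congrArg S.a h4).trans (S.aa _)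
    have h5 : d ∈ S.R := by
      have h6 : S.a d ∈ S.R := by
        rw [h8]
        exact h2
      exact (mem_R_a S d).1 h6
    rcases hd with h6 | h6
    · exact h6.2 h5
    · exact hne (h8.symm.trans (hH h6).2)
  · exact Or.inl ⟨h1, h2⟩

omit [Finite D] in
private theorem fl_cl_f (h : S.Sub S') {d : D} (hd : d ∈ S'.R) (hd' : d ∉ S.R) : S'.f d ∈ S'.R \ S.R := by
  refine ⟨(mem_R_f S' d).2 hd, fun h1 => hd' ?_⟩
  have key : ∀ e ∈ S.R, S'.f e ∈ S.R := by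
    intro e he
    rw [h.1 e he]
    exact (mem_R_f S e).2 he
  have h2 := key _ (key _ h1)
  rwa [S'.fff] at h2

private theorem fl_cl_n (hH : S.HUn H) {d : D} (hd : d ∈ (S'.R \ S.R) ∪ H) (hB : d ∈ S.B) : S.nx d ∈ H := by
  have h1 : d ∈ H := hd.resolve_left (fun h2 => h2.2 hB.1)
  have h2 := nx_pow_same S hB 1
  rw [pow_one] at h2
  exact hH.2 d h1 _ h2.1 h2.2

/-- The filling is determined by any larger region. -/
theorem fil_unique (hH : S.HUn H) (hne : H.Nonempty) (h : S.FillBy S' H F V) {S'' U : Part D} {F' V' : ℕ}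
    (h' : S.FillBy S'' H F' V') (hU : S'.Sub U) (hU' : S''.Sub U) : S' = S'' := by
  set W' := (S'.R \ S.R) ∪ H with hW'
  set W'' := (S''.R \ S.R) ∪ H with hW''
  have ea : ∀ d ∈ W' ∩ W'', S'.a d = U.a d ∧ S''.a d = U.a d := fun d hd =>
    ⟨(hU.2 d (fl_ne hH.1 h hd.1).2).symm, (hU'.2 d (fl_ne hH.1 h' hd.2).2).symm⟩
  have ef : ∀ d ∈ W' ∩ W'', S'.f d = U.f d ∧ S''.f d = U.f d := fun d hd =>
    ⟨(hU.1 d (fl_ne hH.1 h hd.1).1).symm, (hU'.1 d (fl_ne hH.1 h' hd.2).1).symm⟩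
  have ca : ∀ d ∈ W' ∩ W'', U.a d ∈ W' ∩ W'' := fun d hd =>
    ⟨(ea d hd).1 ▸ fl_cl_a hH.1 h hd.1, (ea d hd).2 ▸ fl_cl_a hH.1 h' hd.2⟩
  have cf : ∀ d ∈ W' ∩ W'', d ∉ S.R → U.f d ∈ W' ∩ W'' := fun d hd hdR =>
    ⟨(ef d hd).1 ▸ Or.inl (fl_cl_f h.sub (fl_ne hH.1 h hd.1).1 hdR),
      (ef d hd).2 ▸ Or.inl (fl_cl_f h'.sub (fl_ne hH.1 h' hd.2).1 hdR)⟩
  have cn : ∀ d ∈ W' ∩ W'', d ∈ S.B → S.nx d ∈ W' ∩ W'' := fun d hd hB =>
    ⟨Or.inr (fl_cl_n hH hd.1 hB), Or.inr (fl_cl_n hH hd.2 hB)⟩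
  have hne' : (W' ∩ W'').Nonempty := by
    obtain ⟨z, hz⟩ := hne
    exact ⟨z, Or.inr hz, Or.inr hz⟩
  have e1 : W' ∩ W'' = W' := h.conn (W' ∩ W'') Set.inter_subset_left hne' fun d hd =>
    ⟨by rw [(ea d hd).1]; exact ca d hd, fun hdR => by rw [(ef d hd).1]; exact cf d hd hdR, cn d hd⟩
  have e2 : W' ∩ W'' = W'' := h'.conn (W' ∩ W'') Set.inter_subset_right hne' fun d hd =>
    ⟨by rw [(ea d hd).2]; exact ca d hd, fun hdR => by rw [(ef d hd).2]; exact cf d hd hdR, cn d hd⟩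
  have eW : W' = W'' := e1.symm.trans e2
  have eR : ∀ d, d ∉ S.R → (d ∈ S'.R ↔ d ∈ S''.R) := by
    intro d hd
    have h3 : d ∈ W' ↔ d ∈ W'' := by rw [eW]
    constructor
    · intro h4
      rcases h3.1 (Or.inl ⟨h4, hd⟩) with h5 | h5
      · exact h5.1
      · exact absurd (hH.1 h5).1 hd
    · intro h4
      rcases h3.2 (Or.inl ⟨h4, hd⟩) with h5 | h5
      · exact h5.1
      · exact absurd (hH.1 h5).1 hd
  refine ext' (Equiv.ext fun d => ?_) (Equiv.ext fun d => ?_)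
  · by_cases hd : d ∈ W'
    · have h3 : d ∈ W' ∩ W'' := ⟨hd, eW ▸ hd⟩
      rw [(ea d h3).1, (ea d h3).2]
    · have hdH : d ∉ H := fun h3 => hd (Or.inr h3)
      by_cases hdR : d ∈ S.R
      · rw [fl_a h hdR hdH, fl_a h' hdR hdH]
      · have h3 : d ∉ S'.R := fun h4 => hd (Or.inl ⟨h4, hdR⟩)
        have h4 : d ∉ S''.R := fun h5 => h3 ((eR d hdR).2 h5)
        rw [S'.af d (not_not.1 h3), S''.af d (not_not.1 h4)]
  · by_cases hdR : d ∈ S.R
    · rw [h.sub.1 d hdR, h'.sub.1 d hdR]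
    · by_cases hd : d ∈ S'.R
      · have h4 : d ∈ S''.R := (eR d hdR).1 hd
        rw [← hU.1 d hd, ← hU'.1 d h4]
      · have h4 : d ∉ S''.R := fun h5 => hd ((eR d hdR).2 h5)
        have h5 : S'.f d = d := not_not.1 hd
        have h6 : S''.f d = d := not_not.1 h4
        rw [h5, h6]

/-- Components of the region after a filling. -/
theorem fil_cn (hU : S.HUn H) (h : S.FillBy S' H F V) (hH : H.Nonempty) {d : D} (hd : d ∈ S'.R) :
    ∃ e ∈ S.R, S'.Cn d e := by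
  by_cases hdR : d ∈ S.R
  · exact ⟨d, hdR, cn_refl S' d⟩
  by_contra hcon
  push Not at hcon
  have hsub : {e | e ∈ (S'.R \ S.R) ∪ H ∧ S'.Cn d e} ⊆ (S'.R \ S.R) ∪ H := fun e he => he.1
  have h1 := h.conn {e | e ∈ (S'.R \ S.R) ∪ H ∧ S'.Cn d e} hsub ⟨d, Or.inl ⟨hd, hdR⟩, cn_refl S' d⟩ (by
    rintro e ⟨he, hde⟩
    have heR : e ∉ S.R := fun h2 => hcon e h2 hde
    refine ⟨⟨fl_cl_a hU.1 h he, cn_trans hde (cn_a S' e)⟩, fun _ => ?_, fun h2 => absurd h2.1 heR⟩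
    exact ⟨Or.inl (fl_cl_f h.sub (fl_ne hU.1 h he).1 heR), cn_trans hde (cn_f S' e)⟩)
  obtain ⟨z, hz⟩ := hH
  have h2 : z ∈ {e | e ∈ (S'.R \ S.R) ∪ H ∧ S'.Cn d e} := by
    rw [h1]
    exact Or.inr hz
  exact hcon z (hU.1 hz).1 h2.2

private theorem fl_three {f : Equiv.Perm D} (hf : ∀ d, f (f (f d)) = d) {Y : Set D} (hY : ∀ d ∈ Y, f d ∈ Y)
    (hne : ∀ d ∈ Y, f d ≠ d) : 3 ∣ Y.ncard := by
  have : Fact (Nat.Prime 3) := ⟨Nat.prime_three⟩
  have : Fintype Y := Fintype.ofFinite Y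
  let g : Function.End Y := fun y => ⟨f y.1, hY y.1 y.2⟩
  have hg : g ^ 3 ^ 1 = 1 := by
    funext y
    apply Subtype.ext
    exact hf y.1
  have h1 := Equiv.Perm.card_fixedPoints_modEq hg
  have h2 : IsEmpty (Function.fixedPoints g) := ⟨fun y => hne y.1.1 y.1.2 (congrArg Subtype.val y.2)⟩
  rw [Fintype.card_eq_zero_iff.2 h2] at h1
  rw [← Nat.card_coe_set_eq, Nat.card_eq_fintype_card]
  exact (Nat.modEq_zero_iff_dvd).1 h1

/-- inner vertices stay inner vertices -/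
private theorem fl_inn (hs : ∀ d ∈ S.R, d ∉ S.B → S'.s d = S.s d) (hB : S'.B ⊆ S.B) (hR : S.R ⊆ S'.R) :
    S.inn ≤ S'.inn := by
  have hp : ∀ d, d ∈ S.R → (∀ e, S.s.SameCycle d e → e ∉ S.B) → ∀ i : ℕ, (S'.s ^ i) d = (S.s ^ i) d := by
    intro d hd hd' i
    induction i with
    | zero => rfl
    | succ i ih =>
      rw [pow_succ', Equiv.Perm.mul_apply, ih, pow_succ', Equiv.Perm.mul_apply]
      exact hs _ (fl_powR hd i) (hd' _ ⟨(i : ℤ), by rw [zpow_natCast]⟩)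
  have hsame : ∀ d, d ∈ S.R → (∀ e, S.s.SameCycle d e → e ∉ S.B) → ∀ e, S'.s.SameCycle d e ↔ S.s.SameCycle d e := by
    intro d hd hd' e
    rw [fl_nat, fl_nat]
    constructor
    · rintro ⟨n, hn⟩
      exact ⟨n, by rw [← hp d hd hd']; exact hn⟩
    · rintro ⟨n, hn⟩
      exact ⟨n, by rw [hp d hd hd']; exact hn⟩
  unfold inn
  let φ : {q : Quotient (Equiv.Perm.SameCycle.setoid S.s) //
      ∃ d, Quotient.mk _ d = q ∧ d ∈ S.R ∧ ∀ e, S.s.SameCycle d e → e ∉ S.B} →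
      {q : Quotient (Equiv.Perm.SameCycle.setoid S'.s) //
      ∃ d, Quotient.mk _ d = q ∧ d ∈ S'.R ∧ ∀ e, S'.s.SameCycle d e → e ∉ S'.B} := fun q =>
    ⟨Quotient.mk _ q.2.choose, q.2.choose, rfl, hR q.2.choose_spec.2.1, fun e he he' =>
      q.2.choose_spec.2.2 e ((hsame _ q.2.choose_spec.2.1 q.2.choose_spec.2.2 e).1 he) (hB he')⟩
  refine Nat.card_le_card_of_injective φ ?_
  intro q q' hq
  have h1 : S'.s.SameCycle q.2.choose q'.2.choose := Quotient.exact (congrArg Subtype.val hq)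
  have h2 := (hsame _ q.2.choose_spec.2.1 q.2.choose_spec.2.2 _).1 h1
  apply Subtype.ext
  rw [← q.2.choose_spec.1, ← q'.2.choose_spec.1]
  exact Quotient.sound h2

private theorem fl_nx_back {Z : Set D} (hZ : ∀ d ∈ Z, d ∈ S.B → S.nx d ∈ Z) {d : D} (hd : d ∈ S.B) :
    d ∈ Z ↔ S.nx d ∈ Z := by
  refine ⟨fun h => hZ d h hd, fun h => ?_⟩
  have key : ∀ i : ℕ, (S.nx ^ (i + 1)) d ∈ Z ∧ (S.nx ^ (i + 1)) d ∈ S.B := by
    intro i
    induction i with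
    | zero =>
      rw [zero_add, pow_one]
      exact ⟨h, (nx_mem S).2 hd⟩
    | succ i ih =>
      rw [pow_succ', Equiv.Perm.mul_apply]
      exact ⟨hZ _ ih.1 ih.2, (nx_mem S).2 ih.2⟩
  have h1 := (key (orderOf S.nx - 1)).1
  rwa [Nat.sub_add_cancel (orderOf_pos S.nx), pow_orderOf_eq_one] at h1

omit [Finite D] in
private theorem fl_fff {T : Tri D} {Z : Set D} (hle : S.Le T) (hZ : ∀ d ∈ Z, d ∉ S.R → T.f d ∈ Z) {d : D} (hd : d ∉ S.R) :
    d ∈ Z ↔ T.f d ∈ Z := by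
  refine ⟨fun h => hZ d h hd, fun h => ?_⟩
  have h1 : T.f d ∉ S.R := fun h' => hd ((le_f_mem hle d).1 h')
  have h2 : T.f (T.f d) ∉ S.R := fun h' => h1 ((le_f_mem hle _).1 h')
  have h3 := hZ _ (hZ _ h h1) h2
  rwa [T.fff] at h3

end

section
variable {S : Part D} {T : Tri D} (h : S.Le T)
include h

theorem fil_of_hc {x : D} (hx : x ∈ S.B) : ∃ F V, S.FillBy (S.fill T h x) (S.B ∩ S.HC T x) F V := by
  have _ := hx
  have hle : (S.fill T h x).Le T := fill_le h x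
  have hB := fill_B h x
  have hR := fill_R h x
  have hW : ((S.fill T h x).R \ S.R) ∪ (S.B ∩ S.HC T x) = S.HC T x := by
    rw [hR]
    ext d
    constructor
    · rintro (⟨h1 | h1, h2⟩ | h1)
      · exact absurd h1 h2
      · exact h1
      · exact h1.2
    · intro h1
      rcases h1.1 with h2 | h2
      · exact Or.inl ⟨Or.inr h1, h2⟩
      · exact Or.inr ⟨h2, h1⟩
  have ea : ∀ d ∈ S.HC T x, (S.fill T h x).a d = T.a d := by
    intro d hd
    have h1 : (S.fill T h x).a d ≠ d := by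
      intro h2
      have h4 : d ∈ (S.fill T h x).R := by
        rw [hR]
        exact Or.inr hd
      have h3 : d ∈ (S.fill T h x).B := ⟨h4, h2⟩
      rw [hB] at h3
      exact h3.2 hd
    exact (hle.2 d h1).symm
  have ef : ∀ d ∈ S.HC T x, (S.fill T h x).f d = T.f d := by
    intro d hd
    have h1 : d ∈ (S.fill T h x).R := by
      rw [hR]
      exact Or.inr hd
    exact (hle.1 d h1).symm
  have h3 : 3 ∣ (S.HC T x \ S.R).ncard := by
    refine fl_three (f := T.f) T.fff ?_ (fun d _ => T.fne d)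
    rintro d ⟨hd, hdR⟩
    exact ⟨⟨Or.inl fun h1 => hdR ((le_f_mem h d).1 h1), hc_trans hd.2 (hc_f hdR)⟩,
      fun h1 => hdR ((le_f_mem h d).1 h1)⟩
  obtain ⟨F, hF⟩ := h3
  have hinn : S.inn ≤ (S.fill T h x).inn := by
    refine fl_inn ?_ (by rw [hB]; exact Set.sdiff_subset) (sub_fill h x).R_sub
    intro d hd hdB
    rw [s_apply, s_apply]
    have h1 : S.a d ≠ d := fun h' => hdB ⟨hd, h'⟩
    rw [(sub_fill h x).2 d h1, (sub_fill h x).1 _ ((mem_R_a S d).2 hd)]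
  obtain ⟨V, hV⟩ := Nat.exists_eq_add_of_le hinn
  refine ⟨F, V, sub_fill h x, ?_, ?_, hV, ?_⟩
  · rw [hB]
    ext d
    constructor
    · rintro ⟨h1, h2⟩
      exact ⟨h1, fun h4 => h2 h4.2⟩
    · rintro ⟨h1, h2⟩
      exact ⟨h1, fun h4 => h2 ⟨h1, h4⟩⟩
  · rw [← hF, ← Set.ncard_union_eq (Set.disjoint_sdiff_right) (Set.toFinite _) (Set.toFinite _), hR,
      Set.union_sdiff_self]
  · rw [hW]
    intro Z hZ hne hcl
    obtain ⟨d0, hd0⟩ := hne
    have hTa : ∀ d ∈ Z, T.a d ∈ Z := by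
      intro d hd
      rw [← ea d (hZ hd)]
      exact (hcl d hd).1
    have hTf : ∀ d ∈ Z, d ∉ S.R → T.f d ∈ Z := by
      intro d hd hdR
      rw [← ef d (hZ hd)]
      exact (hcl d hd).2.1 hdR
    have hTn : ∀ d ∈ Z, d ∈ S.B → S.nx d ∈ Z := fun d hd hdB => (hcl d hd).2.2 hdB
    apply Set.Subset.antisymm hZ
    intro e he
    have h0 : S.Hc T d0 e := hc_trans (hc_symm (hZ hd0).2) he.2
    refine (hc_ind (S := S) (T := T) (fun d e => d ∈ Z ↔ e ∈ Z) (fun _ => Iff.rfl) (fun _ _ h => h.symm)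
      (fun _ _ _ h1 h2 => h1.trans h2) ?_ (fun d hd => fl_fff h hTf hd) (fun d hd => fl_nx_back hTn hd) h0).1 hd0
    intro d _
    refine ⟨hTa d, fun h1 => ?_⟩
    have h2 := hTa _ h1
    rwa [T.aa] at h2

theorem hun_hc (x : D) : S.HUn (S.B ∩ S.HC T x) := by
  refine ⟨fun d hd => hd.1, ?_⟩
  rintro d ⟨hdB, hd⟩ e he hde
  exact ⟨he, Or.inr he, hc_trans hd.2 (hc_hole hdB ((mem_hw S hdB).2 ⟨he, hde⟩))⟩

theorem fil_le_hc {S' : Part D} {H : Set D} {F V : ℕ} (hH : S.HUn H) (hf : S.FillBy S' H F V) (hT : S'.Le T) {x : D} (hx : x ∈ H) :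
    S.HC T x = (S'.R \ S.R) ∪ H ∧ S' = S.fill T h x := by
  have ea : ∀ d ∈ (S'.R \ S.R) ∪ H, S'.a d = T.a d := fun d hd => (hT.2 d (fl_ne hH.1 hf hd).2).symm
  have ef : ∀ d ∈ (S'.R \ S.R) ∪ H, S'.f d = T.f d := fun d hd => (hT.1 d (fl_ne hH.1 hf hd).1).symm
  have hTa : ∀ d ∈ (S'.R \ S.R) ∪ H, T.a d ∈ (S'.R \ S.R) ∪ H := by
    intro d hd
    rw [← ea d hd]
    exact fl_cl_a hH.1 hf hd
  have hTf : ∀ d ∈ (S'.R \ S.R) ∪ H, d ∉ S.R → T.f d ∈ (S'.R \ S.R) ∪ H := by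
    intro d hd hdR
    rw [← ef d hd]
    exact Or.inl (fl_cl_f hf.sub (fl_ne hH.1 hf hd).1 hdR)
  have hTn : ∀ d ∈ (S'.R \ S.R) ∪ H, d ∈ S.B → S.nx d ∈ (S'.R \ S.R) ∪ H := fun d hd hdB =>
    Or.inr (fl_cl_n hH hd hdB)
  have hxB : x ∈ S.B := hH.1 hx
  have hxC : x ∈ S.HC T x := ⟨Or.inr hxB, hc_refl S T x⟩
  have h1 : S.HC T x ⊆ (S'.R \ S.R) ∪ H := by
    intro e he
    refine (hc_ind (S := S) (T := T) (fun d e => d ∈ (S'.R \ S.R) ∪ H ↔ e ∈ (S'.R \ S.R) ∪ H)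
      (fun _ => Iff.rfl) (fun _ _ h => h.symm) (fun _ _ _ h1 h2 => h1.trans h2) ?_
      (fun d hd => fl_fff h hTf hd) (fun d hd => fl_nx_back hTn hd) he.2).1 (Or.inr hx)
    intro d _
    refine ⟨hTa d, fun h1 => ?_⟩
    have h2 := hTa _ h1
    rwa [T.aa] at h2
  have h2 := hf.conn (S.HC T x) h1 ⟨x, hxC⟩ (by
    intro d hd
    refine ⟨?_, fun hdR => ?_, fun hdB => ?_⟩
    · rw [ea d (h1 hd)]
      exact ⟨(X_a h d).2 hd.1, hc_trans hd.2 (hc_a hd.1)⟩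
    · rw [ef d (h1 hd)]
      exact ⟨Or.inl fun h' => hdR ((le_f_mem h d).1 h'), hc_trans hd.2 (hc_f hdR)⟩
    · exact ⟨Or.inr ((nx_mem S).2 hdB), hc_trans hd.2 (hc_nx hdB)⟩)
  refine ⟨h2, fill_eq_of h x hf.sub hT ?_ ?_⟩
  · rw [h2]
    ext d
    constructor
    · intro h3
      by_cases h4 : d ∈ S.R
      · exact Or.inl h4
      · exact Or.inr (Or.inl ⟨h3, h4⟩)
    · rintro (h3 | h3 | h3)
      · exact hf.sub.R_sub h3
      · exact h3.1
      · exact hf.sub.R_sub (hH.1 h3).1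
  · rw [h2, hf.B]
    ext d
    constructor
    · rintro ⟨h3, h4⟩
      refine ⟨h3, ?_⟩
      rintro (h5 | h5)
      · exact h5.2 h3.1
      · exact h4 h5
    · rintro ⟨h3, h4⟩
      exact ⟨h3, fun h5 => h4 (Or.inr h5)⟩

end

end Part
end SYS
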