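import Pool.Agent.SYS.Lib.HL
import Pool.Agent.SYS.Lib.GenB

/-!
# SYS-Lib-Inn: number of inner vertices

PLAN.
* `inn_eq`: the classes meeting `R` are those meeting `B` and those meeting `R` but not `B` (`B ⊆ R`; a class meeting `R` is contained in `R`,
  `mem_R_s`); `inn` is the cardinality of the second set (`Nat.card` of a subtype = `ncard`).
* `ncycOn_R`: `ncyc_split` for `X = R` (`mem_R_s`) and `ncycOn_fix` on `Rᶜ` (`s_not_mem`).
* `inn_newTri`: `newTri_s`: `s' = s * swap t0 t1 * swap t1 t2`, two `SST.ncyc_swap_diff` (fixed points of `s`): `ncyc' + 2 = ncyc`,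
  `|R'ᶜ| = |Rᶜ| - 3`, so `ncycOn s' R' = ncycOn s R + 1`; number of holes `+ 1` (`hl_newTri`, `hl_ncyc`).
* `inn_face`: `face_eq`: `newTri` followed by `glue x t0` (merge of the holes of `x` and `t0`, `(u ++ v) ≠ []` as `hw t0 = [t0, t1, t2]`): `inn_newTri` and
  `inn_glue_merge`; or directly: `s'` has the same number of cycles on ... (any way).
* `inn_glue_split`: `glue_s`, `SST.ncyc_swap_same`: `ncyc' = ncyc + 1`, `R' = R`; holes: `hl_glue_split` with any `l` (`hl_exists`, `hl_repl`, `hl_perm`).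
* `inn_glue_merge`: `SST.ncyc_swap_diff`, `hl_glue_merge`.
* `inn_tri`: `B = ∅`, `R = univ`, `T.V` is the set of classes of `T.s`.
-/

namespace SYS
namespace Part

open Classical SST

variable {D : Type} [Finite D]

theorem inn_eq (S : Part D) : S.inn + ncycOn S.s S.B = ncycOn S.s S.R := by
  have h1 : S.inn = {q : Quotient (Equiv.Perm.SameCycle.setoid S.s) |
      ∃ d, Quotient.mk _ d = q ∧ d ∈ S.R ∧ ∀ e, S.s.SameCycle d e → e ∉ S.B}.ncard := by
    unfold inn
    rw [← Nat.card_coe_set_eq]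
    rfl
  rw [h1]
  unfold ncycOn
  rw [← Set.ncard_union_eq _ (Set.toFinite _) (Set.toFinite _)]
  · congr 1
    ext q
    constructor
    · rintro (⟨d, hd, hR, -⟩ | ⟨d, hB, hd⟩)
      · exact ⟨d, hR, hd⟩
      · exact ⟨d, B_sub_R S hB, hd⟩
    · rintro ⟨d, hR, hd⟩
      by_cases h : ∃ e, S.s.SameCycle d e ∧ e ∈ S.B
      · obtain ⟨e, he, hB⟩ := h
        refine Or.inr ⟨e, hB, ?_⟩
        rw [← hd]
        exact Quotient.sound he.symm
      · push Not at h
        exact Or.inl ⟨d, hd, hR, h⟩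
  · rw [Set.disjoint_left]
    rintro q ⟨d, hd, -, hn⟩ ⟨e, hB, he⟩
    have h2 : S.s.SameCycle d e := Quotient.exact (hd.trans he.symm)
    exact hn e h2 hB

theorem ncycOn_R (S : Part D) : ncycOn S.s S.R + S.Rᶜ.ncard = ncyc S.s := by
  rw [ncyc_split S.s (X := S.R) (fun d => mem_R_s S d),
    ncycOn_fix S.s (X := S.Rᶜ) (fun d hd => s_not_mem S hd)]

private theorem inn_hl_one (S : Part D) {x : D} (hx : x ∈ S.B) : ∃ l, S.HL (x :: l) := by
  obtain ⟨l0, hl0⟩ := hl_exists S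
  obtain ⟨e, he, hex⟩ := hl0.2.2 x hx
  have h1 := hl_perm (List.perm_cons_erase he) hl0
  exact ⟨_, hl_repl h1 hx hex⟩

private theorem inn_hl_two (S : Part D) {x y : D} (hx : x ∈ S.B) (hy : y ∈ S.B)
    (hne : ¬ S.s.SameCycle x y) : ∃ l, S.HL (x :: y :: l) := by
  obtain ⟨l0, hl0⟩ := inn_hl_one S hx
  obtain ⟨e, he, hey⟩ := hl0.2.2 y hy
  have he' : e ∈ l0 := by
    rcases List.mem_cons.1 he with rfl | h
    · exact absurd hey hne
    · exact h
  have h1 : (x :: l0).Perm (e :: x :: l0.erase e) :=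
    ((List.perm_cons_erase he').cons x).trans (List.Perm.swap _ _ _)
  have h2 := hl_repl (hl_perm h1 hl0) hy hey
  exact ⟨_, hl_perm (List.Perm.swap _ _ _) h2⟩

private theorem inn_take {l : List D} : (l.take 1).length = if l = [] then 0 else 1 := by
  cases l with
  | nil => simp
  | cons a l => simp

section
variable (S : Part D) {x t0 t1 t2 : D} (hx : x ∈ S.B) (h0 : t0 ∉ S.R) (h1 : t1 ∉ S.R) (h2 : t2 ∉ S.R)
    (h01 : t0 ≠ t1) (h12 : t1 ≠ t2) (h20 : t2 ≠ t0)

private theorem inn_newTri_ncyc :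
    ncyc (S.newTri t0 t1 t2 h0 h1 h2 h01 h12 h20).s + 2 = ncyc S.s := by
  have hfix : ∀ {σ : Equiv.Perm D} {u v : D}, σ v = v → u ≠ v → ¬ σ.SameCycle u v := by
    intro σ u v hv huv h
    obtain ⟨k, hk⟩ := h.symm
    have : (σ ^ k) v = v := Equiv.Perm.zpow_apply_eq_self_of_apply_eq_self hv k
    rw [this] at hk
    exact huv hk.symm
  have s1 : S.s t1 = t1 := s_not_mem S h1
  have s2 : S.s t2 = t2 := s_not_mem S h2
  have c1 := ncyc_swap_diff S.s (hfix s1 h01)
  have s3 : (S.s * Equiv.swap t0 t1) t2 = t2 := by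
    rw [Equiv.Perm.mul_apply, Equiv.swap_apply_of_ne_of_ne h20 h12.symm, s2]
  have c2 := ncyc_swap_diff (S.s * Equiv.swap t0 t1) (hfix s3 h12)
  rw [newTri_s]
  unfold cyc3
  rw [← mul_assoc]
  omega

private theorem inn_ncard_three {A : Set D} (k0 : t0 ∉ A) (k1 : t1 ∉ A) (k2 : t2 ∉ A)
    (h01 : t0 ≠ t1) (h12 : t1 ≠ t2) (h20 : t2 ≠ t0) :
    (A ∪ {t0, t1, t2}).ncard = A.ncard + 3 := by
  have hd : Disjoint A ({t0, t1, t2} : Set D) := by
    rw [Set.disjoint_left]
    rintro a ha (h | h | h)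
    · exact k0 (h ▸ ha)
    · exact k1 (h ▸ ha)
    · exact k2 (h ▸ ha)
  rw [Set.ncard_union_eq hd (Set.toFinite _) (Set.toFinite _)]
  congr 1
  rw [Set.ncard_eq_three]
  exact ⟨t0, t1, t2, h01, h20.symm, h12, rfl⟩

theorem inn_newTri : (S.newTri t0 t1 t2 h0 h1 h2 h01 h12 h20).inn = S.inn := by
  set S' := S.newTri t0 t1 t2 h0 h1 h2 h01 h12 h20 with hS'
  have a1 := inn_eq S
  have a2 := inn_eq S'
  have b1 := ncycOn_R S
  have b2 := ncycOn_R S'
  have c := inn_newTri_ncyc S h0 h1 h2 h01 h12 h20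
  rw [← hS'] at c
  have d : S'.R.ncard = S.R.ncard + 3 := by
    rw [hS', newTri_R]
    exact inn_ncard_three h0 h1 h2 h01 h12 h20
  have e1 := Set.ncard_add_ncard_compl S.R
  have e2 := Set.ncard_add_ncard_compl S'.R
  obtain ⟨l, hl⟩ := hl_exists S
  have f1 := hl_ncyc hl
  have f2 := hl_ncyc (hl_newTri S h0 h1 h2 h01 h12 h20 hl).1
  rw [← hS', List.length_cons] at f2
  omega

end

section
variable (S : Part D) {x y : D} (hx : x ∈ S.B) (hy : y ∈ S.B)

theorem inn_glue_split {u v : List D} (hw : S.hw x = x :: (u ++ y :: v)) :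
    (S.glue x y hx hy).inn = S.inn + (if u = [] then 1 else 0) + (if v = [] then 1 else 0) := by
  have hnd := hw_nodup S hx
  have hmem : y ∈ S.hw x := by rw [hw]; simp
  have hxy : x ≠ y := by
    rintro rfl
    rw [hw] at hnd
    simp at hnd
  have hsame : S.s.SameCycle x y := ((mem_hw S hx).1 hmem).2
  set S' := S.glue x y hx hy with hS'
  have a1 := inn_eq S
  have a2 := inn_eq S'
  have b1 := ncycOn_R S
  have b2 := ncycOn_R S'
  have c : ncyc S'.s = ncyc S.s + 1 := by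
    rw [hS', glue_s]
    exact ncyc_swap_same S.s hxy hsame
  have d : S'.R = S.R := glue_R S hx hy
  rw [d] at b2
  rw [d] at a2
  obtain ⟨l, hl⟩ := inn_hl_one S hx
  have f1 := hl_ncyc hl
  have f2 := hl_ncyc (hl_glue_split S hx hy hl hw).1
  rw [← hS', List.length_append, List.length_append, inn_take, inn_take] at f2
  rw [List.length_cons] at f1
  split_ifs at f2 ⊢ <;> omega

theorem inn_glue_merge {u v : List D} (hne : ¬ S.s.SameCycle x y) (hu : S.hw x = x :: u) (hv : S.hw y = y :: v) :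
    (S.glue x y hx hy).inn = S.inn + (if u ++ v = [] then 1 else 0) := by
  set S' := S.glue x y hx hy with hS'
  have a1 := inn_eq S
  have a2 := inn_eq S'
  have b1 := ncycOn_R S
  have b2 := ncycOn_R S'
  have c : ncyc S'.s + 1 = ncyc S.s := by
    rw [hS', glue_s]
    exact ncyc_swap_diff S.s hne
  have d : S'.R = S.R := glue_R S hx hy
  rw [d] at b2
  rw [d] at a2
  obtain ⟨l, hl⟩ := inn_hl_two S hx hy hne
  have f1 := hl_ncyc hl
  have f2 := hl_ncyc (hl_glue_merge S hx hy hl hu hv).1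
  rw [← hS', List.length_append, inn_take] at f2
  rw [List.length_cons, List.length_cons] at f1
  split_ifs at f2 ⊢ <;> omega

end

section
variable (S : Part D) {x t0 t1 t2 : D} (hx : x ∈ S.B) (h0 : t0 ∉ S.R) (h1 : t1 ∉ S.R) (h2 : t2 ∉ S.R)
    (h01 : t0 ≠ t1) (h12 : t1 ≠ t2) (h20 : t2 ≠ t0)

theorem inn_face : (S.face x t0 t1 t2 hx h0 h1 h2 h01 h12 h20).inn = S.inn := by
  have hxR : x ∈ S.R := B_sub_R S hx
  have hxB : x ∈ (S.newTri t0 t1 t2 h0 h1 h2 h01 h12 h20).B := by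
    rw [newTri_B]; exact Or.inl hx
  have htB : t0 ∈ (S.newTri t0 t1 t2 h0 h1 h2 h01 h12 h20).B := by
    rw [newTri_B]; exact Or.inr (Or.inl rfl)
  have hwt := hw_newTri S h0 h1 h2 h01 h12 h20
  obtain ⟨u, hu⟩ := hw_cons _ hxB
  have hne : ¬ (S.newTri t0 t1 t2 h0 h1 h2 h01 h12 h20).s.SameCycle x t0 := by
    intro h
    have h3 : x ∈ (S.newTri t0 t1 t2 h0 h1 h2 h01 h12 h20).hw t0 := (mem_hw _ htB).2 ⟨hxB, h.symm⟩
    rw [hwt] at h3
    simp only [List.mem_cons, List.not_mem_nil, or_false] at h3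
    rcases h3 with rfl | rfl | rfl
    · exact h0 hxR
    · exact h1 hxR
    · exact h2 hxR
  rw [face_eq, inn_glue_merge _ hxB htB hne hu hwt, inn_newTri]
  simp

end

theorem inn_emp : (emp : Part D).inn = 0 := by
  unfold inn
  rw [Nat.card_eq_zero]
  left
  refine ⟨?_⟩
  rintro ⟨q, d, -, hd, -⟩
  exact hd rfl

theorem inn_tri (T : Tri D) : (ofTri T).inn = Nat.card T.V := by
  unfold inn
  refine Nat.card_congr (Equiv.subtypeUnivEquiv fun q => ?_)
  induction q using Quotient.inductionOn with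
  | h d =>
    refine ⟨d, rfl, T.fne d, fun e _ he => ?_⟩
    exact T.ane e he.2

end Part
end SYS
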