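import Pool.Agent.SYS.Lib.ExplA

/-!
# SYS-Lib-ExplB: closing holes by planar pieces does not need handles

PLAN.  Strong induction on `(S'.R \ S.R).ncard + (S.B \ S'.B).ncard`.  If there is no `x ∈ S.B \ S'.B` then `S = S'`:
`S.B = S'.B`; `S'.R = S.R`: otherwise, `S'` being connected and `S.R ≠ ∅`, some `d ∈ S.R` has `S'.a d ∉ S.R`
(`S'.f = S.f` on `S.R`), so `S.a d = d` (if `S.a d ≠ d` then `S'.a d = S.a d ∈ S.R`), `d ∈ S.B`, `S'.a d ≠ d`, contradiction;
`S'.a = S.a`: otherwise `S'.a d ≠ d = S.a d` for some `d ∈ S.R`.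
Otherwise peel `x ∈ S.B \ S'.B`, `y = T.a x = S'.a x`.  `y ∉ S.R`: `Expl.face`; the new boundary darts `t1, t2` are not in
`S'.B ⊆ S.B`.  `y ∈ S.B`: same hole as `x` (`gen12_glue_handle`, `gen12_mono`); `hw S x = x :: (u ++ y :: v)`; `u` is empty or a
hole word of `S1 = S.glue x y` without elements of `S'.B` (`hc`), so `DW T u` by `planar_word`; `Expl.disc`.
The hypothesis `hc` for the new holes: their darts are darts of the old hole of `x` or new ones (`hw_glue_split_*`,
`hw_glue_other`, `hw_face`, `hw_face_other`; every boundary dart of `S1` is in one of these holes).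
-/

namespace SYS
namespace Part

open Classical SST

variable {D : Type} [Finite D]

omit [Finite D] in
private theorem sub_of {S S1 S' : Part D} {T : Tri D} {x y : D} (hs : S.Sub S') (h1 : S1.Le T) (hT : S'.Le T)
    (hR : S1.R ⊆ S'.R) (ha : S1.a = S.a * Equiv.swap x y) (hxy : S'.a x = y) (hx : S.a x = x) (hy : S.a y = y) :
    S1.Sub S' := by
  refine ⟨fun d hd => ?_, fun d hd => ?_⟩
  · rw [← h1.1 d hd, hT.1 d (hR hd)]
  · by_cases hdx : d = x
    · subst hdx
      rw [ha, Equiv.Perm.mul_apply, Equiv.swap_apply_left, hy, hxy]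
    · by_cases hdy : d = y
      · subst hdy
        rw [ha, Equiv.Perm.mul_apply, Equiv.swap_apply_right, hx, ← hxy, S'.aa]
      · rw [ha, Equiv.Perm.mul_apply, Equiv.swap_apply_of_ne_of_ne hdx hdy] at hd ⊢
        exact hs.2 d hd

private theorem nonempty_R {T : Tri D} {S : Part D} {c : ℕ} (h : Expl T S c) : S.R.Nonempty := by
  induction h with
  | start d => exact ⟨d, by rw [newTri_R]; right; left; rfl⟩
  | face S c x hx h0 h1 h2 _ ih =>
    obtain ⟨d, hd⟩ := ih
    exact ⟨d, by rw [face_R]; left; exact hd⟩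
  | disc S c x y hx hy h u v hw hd _ ih => rw [glue_R]; exact ih
  | hand S c x y hx hy h _ ih => rw [glue_R]; exact ih

omit [Finite D] in
private theorem eq_of_B {S S' : Part D} (hR : S.R.Nonempty) (hs : S.Sub S') (hS' : S'.Con) (hB : S'.B = S.B) :
    S = S' := by
  have ha : ∀ d ∈ S.R, S'.a d = S.a d := by
    intro d hd
    by_cases h : S.a d = d
    · have h1 : d ∈ S'.B := by rw [hB]; exact ⟨hd, h⟩
      rw [h1.2, h]
    · exact hs.2 d h
  have hf : ∀ d ∈ S.R, S'.f d = S.f d := fun d hd => hs.1 d hd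
  have hfm : ∀ d ∈ S.R, S'.f d ∈ S.R := by
    intro d hd
    rw [hf d hd, mem_R_f]
    exact hd
  have ham : ∀ d ∈ S.R, S'.a d ∈ S.R := by
    intro d hd
    rw [ha d hd, mem_R_a]
    exact hd
  have key : ∀ d e, S'.Cn d e → (d ∈ S.R ↔ e ∈ S.R) := by
    intro d e h
    induction h with
    | rel d e h =>
      rcases h with rfl | rfl
      · refine ⟨ham d, fun h => ?_⟩
        have := ham _ h
        rwa [S'.aa] at this
      · refine ⟨hfm d, fun h => ?_⟩
        have := hfm _ (hfm _ h)
        rwa [S'.fff] at this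
    | refl d => rfl
    | symm d e _ ih => exact ih.symm
    | trans d e k _ _ ih1 ih2 => exact ih1.trans ih2
  obtain ⟨d0, hd0⟩ := hR
  have hRR : ∀ d, d ∈ S'.R → d ∈ S.R := fun d hd =>
    (key d0 d (hS' d0 (hs.R_sub hd0) d hd)).1 hd0
  apply ext'
  · apply Equiv.ext
    intro d
    by_cases hd : d ∈ S.R
    · exact (ha d hd).symm
    · have h1 : S.f d = d := by
        by_contra h
        exact hd h
      have h2 : S'.f d = d := by
        by_contra h
        exact hd (hRR d h)
      rw [S.af d h1, S'.af d h2]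
  · apply Equiv.ext
    intro d
    by_cases hd : d ∈ S.R
    · exact (hf d hd).symm
    · have h1 : S.f d = d := by
        by_contra h
        exact hd h
      have h2 : S'.f d = d := by
        by_contra h
        exact hd (hRR d h)
      rw [h1, h2]

private theorem fill_aux {T : Tri D} {S' : Part D} (hT : S'.Le T) (hS' : S'.Con) (c : ℕ) : ∀ (N : ℕ) (S : Part D),
    2 * (S'.R \ S.R).ncard + (S.B \ S'.B).ncard = N → Expl T S c → S.Sub S' → S'.B ⊆ S.B → S'.gen12 = S.gen12 →
    (∀ x ∈ S.B, x ∉ S'.B → ∀ y ∈ S.hw x, y ∉ S'.B) → Expl T S' c := by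
  intro N
  induction N using Nat.strong_induction_on with
  | _ N ih =>
  intro S hN h hs hB hg hc
  by_cases hex : ∃ x ∈ S.B, x ∉ S'.B
  swap
  · push Not at hex
    have := eq_of_B (nonempty_R h) hs hS' (Set.Subset.antisymm hB hex)
    rw [← this]
    exact h
  obtain ⟨x, hx, hx'⟩ := hex
  have hxR : x ∈ S.R := hx.1
  have hxR' : x ∈ S'.R := hs.R_sub hxR
  have hax : S'.a x ≠ x := fun h' => hx' ⟨hxR', h'⟩
  have hTx : T.a x = S'.a x := hT.2 x hax
  have hLe : S.Le T := sub_le hs hT
  obtain ⟨u0, hu0⟩ := hw_cons S hx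
  rcases peel hLe hx with ⟨hy, hyx⟩ | hy
  · -- gluing
    have hyR : T.a x ∈ S.R := hy.1
    have hle1 : (S.glue x (T.a x) hx hy).Le T := glue_le S hx hy hLe rfl
    have hsub1 : (S.glue x (T.a x) hx hy).Sub S' := by
      refine sub_of (S := S) hs hle1 hT ?_ rfl hTx.symm hx.2 hy.2
      rw [glue_R]
      exact hs.R_sub
    have hy' : T.a x ∉ S'.B := by
      intro h'
      have h1 := h'.2
      rw [hTx, S'.aa] at h1
      exact hax h1.symm
    have hB1 : S'.B ⊆ (S.glue x (T.a x) hx hy).B := by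
      rw [glue_B S hx hy (Ne.symm hyx)]
      intro d hd
      refine ⟨hB hd, ?_⟩
      rintro (rfl | rfl)
      · exact hx' hd
      · exact hy' hd
    have hsc : S.s.SameCycle x (T.a x) := by
      by_contra hcon
      have h1 := gen12_glue_handle S hx hy (h.con x hxR _ hyR) hcon
      have h2 := gen12_mono hsub1
      rw [h1, hg] at h2
      omega
    have hg1 : S'.gen12 = (S.glue x (T.a x) hx hy).gen12 := by
      rw [gen12_glue_split S hx hy (Ne.symm hyx) hsc, hg]
    have hyw : T.a x ∈ S.hw x := (mem_hw S hx).2 ⟨hy, hsc⟩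
    rw [hu0, List.mem_cons] at hyw
    obtain ⟨u, v, huv⟩ := List.append_of_mem (hyw.resolve_left hyx)
    have hw : S.hw x = x :: (u ++ T.a x :: v) := by rw [hu0, huv]
    have hnd := hw_nodup S hx
    rw [hw] at hnd
    have hB1' : (S.glue x (T.a x) hx hy).B = S.B \ {x, T.a x} := glue_B S hx hy (Ne.symm hyx)
    have hmem : ∀ z ∈ u ++ T.a x :: v, z ∈ S.hw x := fun z hz => by
      rw [hw]
      exact List.mem_cons_of_mem _ hz
    have hnx : x ∉ u ++ T.a x :: v := (List.nodup_cons.1 hnd).1
    have hnu : T.a x ∉ u := by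
      intro hcon
      have h1 := (List.nodup_cons.1 hnd).2
      rw [List.nodup_append] at h1
      exact h1.2.2 _ hcon _ (List.mem_cons_self ..) rfl
    have hnv : T.a x ∉ v := by
      have h1 := (List.nodup_cons.1 hnd).2
      rw [List.nodup_append] at h1
      exact (List.nodup_cons.1 h1.2.1).1
    have hzB : ∀ z, z ∈ u ∨ z ∈ v → z ∈ (S.glue x (T.a x) hx hy).B := by
      intro z hz
      have hz' : z ∈ u ++ T.a x :: v := by
        rw [List.mem_append, List.mem_cons]
        rcases hz with h1 | h1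
        · exact Or.inl h1
        · exact Or.inr (Or.inr h1)
      rw [hB1']
      refine ⟨((mem_hw S hx).1 (hmem z hz')).1, ?_⟩
      rintro (rfl | h1)
      · exact hnx hz'
      · have h1' : z = T.a x := h1
        subst h1'
        rcases hz with h2 | h2
        · exact hnu h2
        · exact hnv h2
    have hcon1 : (S.glue x (T.a x) hx hy).Con := con_glue S hx hy h.con
    have hdw : DW T u := by
      rcases u with _ | ⟨z, w⟩
      · exact DW.nil
      · have h1 := hw_glue_split_left S hx hy hw (z := z) (w := w) rfl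
        rw [← h1]
        have hzb := hzB z (Or.inl (List.mem_cons_self ..))
        refine planar_word hcon1 hsub1 hT hB1 hg1 hzb ?_
        intro d hd
        rw [h1] at hd
        exact hc x hx hx' d (hmem d (List.mem_append_left _ hd))
    have hE : Expl T (S.glue x (T.a x) hx hy) c := Expl.disc S c x (T.a x) hx hy rfl u v hw (Or.inl hdw) h
    refine ih _ ?_ (S.glue x (T.a x) hx hy) rfl hE hsub1 hB1 hg1 ?_
    · have h1 : (S.glue x (T.a x) hx hy).R = S.R := glue_R S hx hy
      rw [h1, hB1', ← hN]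
      have h2 : ((S.B \ {x, T.a x}) \ S'.B).ncard < (S.B \ S'.B).ncard := by
        apply Set.ncard_lt_ncard _ (Set.toFinite _)
        refine ⟨fun d hd => ⟨hd.1.1, hd.2⟩, fun hsub => ?_⟩
        exact (hsub ⟨hx, hx'⟩).1.2 (Or.inl rfl)
      omega
    · intro z hz hz' w hw1
      have hzS : z ∈ S.B := by
        rw [hB1'] at hz
        exact hz.1
      rw [mem_hw _ hz] at hw1
      by_cases hzx : S.s.SameCycle x z
      · have hzw : z ∈ S.hw x := (mem_hw S hx).2 ⟨hzS, hzx⟩
        have hz2 : z ∈ u ∨ z ∈ v := by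
          rw [hw, List.mem_cons, List.mem_append, List.mem_cons] at hzw
          rw [hB1'] at hz
          rcases hzw with h1 | h1 | h1 | h1
          · exact absurd (Or.inl h1) hz.2
          · exact Or.inl h1
          · exact absurd (Or.inr h1) hz.2
          · exact Or.inr h1
        rcases hz2 with h1 | h1
        · rcases u with _ | ⟨z0, w0⟩
          · exact absurd h1 (List.not_mem_nil)
          · have h2 := hw_glue_split_left S hx hy hw (z := z0) (w := w0) rfl
            have hz0 := hzB z0 (Or.inl (List.mem_cons_self ..))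
            rw [← h2, mem_hw _ hz0] at h1
            have h3 : w ∈ (S.glue x (T.a x) hx hy).hw z0 := (mem_hw _ hz0).2 ⟨hw1.1, h1.2.trans hw1.2⟩
            rw [h2] at h3
            exact hc x hx hx' w (hmem w (List.mem_append_left _ h3))
        · rcases v with _ | ⟨z0, w0⟩
          · exact absurd h1 (List.not_mem_nil)
          · have h2 := hw_glue_split_right S hx hy hw (z := z0) (w := w0) rfl
            have hz0 := hzB z0 (Or.inr (List.mem_cons_self ..))
            rw [← h2, mem_hw _ hz0] at h1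
            have h3 : w ∈ (S.glue x (T.a x) hx hy).hw z0 := (mem_hw _ hz0).2 ⟨hw1.1, h1.2.trans hw1.2⟩
            rw [h2] at h3
            exact hc x hx hx' w (hmem w (List.mem_append_right _ (List.mem_cons_of_mem _ h3)))
      · have hzy : ¬ S.s.SameCycle (T.a x) z := fun h1 => hzx (hsc.trans h1)
        have h2 := hw_glue_other S hx hy hzS hzx hzy
        have h3 : w ∈ (S.glue x (T.a x) hx hy).hw z := (mem_hw _ hz).2 hw1
        rw [h2] at h3
        exact hc z hzS hz' w h3
  · -- new face
    have h1' : T.f (T.a x) ∉ S.R := fun h' => hy ((le_f_mem hLe _).1 h')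
    have h2' : T.f (T.f (T.a x)) ∉ S.R := fun h' => h1' ((le_f_mem hLe _).1 h')
    have hne := tri_ne T (T.a x)
    obtain ⟨S1, hS1⟩ : ∃ S1, S1 = S.face x (T.a x) (T.f (T.a x)) (T.f (T.f (T.a x))) hx hy h1' h2' hne.1 hne.2.1
      hne.2.2 := ⟨_, rfl⟩
    have hE : Expl T S1 c := by rw [hS1]; exact Expl.face S c x hx hy h1' h2' h
    have hle1 : S1.Le T := by rw [hS1]; exact face_le S hLe hx hy h1' h2' hne.1 hne.2.1 hne.2.2
    have hR1 : S1.R = S.R ∪ {T.a x, T.f (T.a x), T.f (T.f (T.a x))} := by rw [hS1]; exact face_R ..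
    have hB1' : S1.B = (S.B \ {x}) ∪ {T.f (T.a x), T.f (T.f (T.a x))} := by rw [hS1]; exact face_B ..
    have hyR' : T.a x ∈ S'.R := by rw [hTx, mem_R_a]; exact hxR'
    have hR1' : S1.R ⊆ S'.R := by
      rw [hR1]
      rintro d (hd | rfl | rfl | rfl)
      · exact hs.R_sub hd
      · exact hyR'
      · exact (le_f_mem hT _).2 hyR'
      · exact (le_f_mem hT _).2 ((le_f_mem hT _).2 hyR')
    have hay : S.a (T.a x) = T.a x := by
      apply S.af
      by_contra h'
      exact hy h'
    have hsub1 : S1.Sub S' := sub_of (S := S) hs hle1 hT hR1' (by rw [hS1]; rfl) hTx.symm hx.2 hay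
    have hB1 : S'.B ⊆ S1.B := by
      rw [hB1']
      intro d hd
      refine Or.inl ⟨hB hd, ?_⟩
      rintro rfl
      exact hx' hd
    have hg1 : S'.gen12 = S1.gen12 := by
      rw [hg, hS1, gen12_face]
    have ht1 : T.f (T.a x) ∉ S'.B := fun h' => h1' (B_sub_R S (hB h'))
    have ht2 : T.f (T.f (T.a x)) ∉ S'.B := fun h' => h2' (B_sub_R S (hB h'))
    have ht1B : T.f (T.a x) ∈ S1.B := by rw [hB1']; exact Or.inr (Or.inl rfl)
    have hw1 : S1.hw (T.f (T.a x)) = T.f (T.a x) :: T.f (T.f (T.a x)) :: u0 := by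
      rw [hS1]
      exact hw_face S hx hy h1' h2' hne.1 hne.2.1 hne.2.2 hu0
    refine ih _ ?_ S1 rfl hE hsub1 hB1 hg1 ?_
    · rw [← hN]
      have h3 : (S'.R \ S1.R).ncard < (S'.R \ S.R).ncard := by
        apply Set.ncard_lt_ncard _ (Set.toFinite _)
        rw [hR1]
        refine ⟨fun d hd => ⟨hd.1, fun h' => hd.2 (Or.inl h')⟩, fun hsub => ?_⟩
        exact (hsub ⟨hyR', hy⟩).2 (Or.inr (Or.inl rfl))
      have h4 : (S1.B \ S'.B) ⊆ insert (T.f (T.a x)) (insert (T.f (T.f (T.a x))) ((S.B \ S'.B) \ {x})) := by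
        rw [hB1']
        rintro d ⟨hd | rfl | rfl, hd'⟩
        · exact Or.inr (Or.inr ⟨⟨hd.1, hd'⟩, hd.2⟩)
        · exact Or.inl rfl
        · exact Or.inr (Or.inl rfl)
      have h5 := Set.ncard_le_ncard h4 (Set.toFinite _)
      have h6 := Set.ncard_insert_le (T.f (T.a x)) (insert (T.f (T.f (T.a x))) ((S.B \ S'.B) \ {x}))
      have h7 := Set.ncard_insert_le (T.f (T.f (T.a x))) ((S.B \ S'.B) \ {x})
      have h8 := Set.ncard_sdiff_singleton_add_one (show x ∈ S.B \ S'.B from ⟨hx, hx'⟩) (Set.toFinite _)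
      omega
    · intro z hz hz' w hw2
      rw [mem_hw _ hz] at hw2
      have hin : ∀ e ∈ S1.hw (T.f (T.a x)), e ∉ S'.B := by
        intro e he
        rw [hw1, List.mem_cons, List.mem_cons] at he
        rcases he with rfl | rfl | he
        · exact ht1
        · exact ht2
        · exact hc x hx hx' e (by rw [hu0]; exact List.mem_cons_of_mem _ he)
      by_cases hzt : S1.s.SameCycle (T.f (T.a x)) z
      · exact hin w ((mem_hw S1 ht1B).2 ⟨hw2.1, hzt.trans hw2.2⟩)
      · have hzn : z ∉ S1.hw (T.f (T.a x)) := fun h' => hzt ((mem_hw S1 ht1B).1 h').2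
        rw [hw1, List.mem_cons, List.mem_cons] at hzn
        push Not at hzn
        have hzS : z ∈ S.B ∧ z ≠ x := by
          rw [hB1'] at hz
          rcases hz with h' | h' | h'
          · exact ⟨h'.1, h'.2⟩
          · exact absurd h' hzn.1
          · exact absurd h' hzn.2.1
        have hzx : ¬ S.s.SameCycle x z := by
          intro h'
          have h3 := (mem_hw S hx).2 ⟨hzS.1, h'⟩
          rw [hu0, List.mem_cons] at h3
          exact hzn.2.2 (h3.resolve_left hzS.2)
        have h4 : S1.hw z = S.hw z := by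
          rw [hS1]
          exact hw_face_other S hx hy h1' h2' hne.1 hne.2.1 hne.2.2 hzS.1 hzx
        have h5 : w ∈ S1.hw z := (mem_hw S1 hz).2 hw2
        rw [h4] at h5
        exact hc z hzS.1 hz' w h5

theorem Expl.fill {T : Tri D} {S S' : Part D} {c : ℕ} (h : Expl T S c) (hs : S.Sub S') (hT : S'.Le T)
    (hS' : S'.Con) (hB : S'.B ⊆ S.B) (hg : S'.gen12 = S.gen12)
    (hc : ∀ x ∈ S.B, x ∉ S'.B → ∀ y ∈ S.hw x, y ∉ S'.B) : Expl T S' c := by
  exact fill_aux hT hS' c _ S rfl h hs hB hg hc

end Part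
end SYS
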