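import Pool.Agent.SYS.Defs

/-!
# SYS-Lib-CntR: number of labellings of the triangles

PLAN.  `rot := Equiv.prodCongr (Equiv.refl (Fin F)) (finRotate 3)` on `E := Fin F × Fin 3`; `f` restricted to `W` (a permutation `f'` of the subtype `↥W`, as `f` maps `W`
to `W`: `f (f d) ≠ f d`) has cube `1` and no fixed points.  `Nat.card ↥W = 3 F = card E`.  Both have cycle type `replicate F 3` (as in
`SST/T/Conj.lean`: `cjType`, private there, copy it), so there is `e₁ : E ≃ ↥W` with `e₁ rot = f' e₁`, and `e ↦ e₁⁻¹ e` is a bijection from the set to the centralizer of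
`rot` in `Perm E`; its cardinality is `3^F * F!`: orbit-stabilizer: `(3F)! = #(conjugacy class) * #centralizer` with
`Equiv.Perm.card_of_cycleType` / `Equiv.Perm.nat_card_centralizer` (Mathlib, GroupTheory/Perm/Centralizer).  `F = 0`: both sides `1` (`E` and `W` are empty).
-/

namespace SYS

open Classical SST

variable {D : Type}

private theorem crType {X : Type} [Fintype X] [DecidableEq X] (F : ℕ) (hX : Fintype.card X = 3 * F) (f : Equiv.Perm X)
    (h1 : ∀ d, f (f (f d)) = d) (h2 : ∀ d, f d ≠ d) : f.cycleType = Multiset.replicate F 3 := by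
  have h3 : f ^ 3 = 1 := by
    ext d
    have := h1 d
    simp only [pow_succ, pow_zero, one_mul, Equiv.Perm.coe_mul, Function.comp_apply, Equiv.Perm.coe_one,
      id_eq]
    rw [this]
  have h4 : ∀ n ∈ f.cycleType, n = 3 := by
    intro n hn
    have h5 : n ∣ 3 := (Equiv.Perm.dvd_of_mem_cycleType hn).trans (orderOf_dvd_of_pow_eq_one h3)
    have h6 := Equiv.Perm.two_le_of_mem_cycleType hn
    rcases (Nat.dvd_prime Nat.prime_three).1 h5 with h7 | h7
    · omega
    · exact h7
  have h5 := Multiset.eq_replicate_card.2 h4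
  have h6 : f.support = Finset.univ := by
    ext d
    simp [h2 d]
  have h7 := Equiv.Perm.sum_cycleType f
  rw [h6, Finset.card_univ, hX, h5, Multiset.sum_replicate, smul_eq_mul] at h7
  have h8 : Multiset.card f.cycleType = F := by omega
  rw [h5, h8]

/-- the standard rotation -/
private def crRot (F : ℕ) : Equiv.Perm (Fin F × Fin 3) :=
  Equiv.prodCongr (Equiv.refl (Fin F)) (finRotate 3)

private theorem crPhi (b : ℕ) : (∀ z, crRot b (crRot b (crRot b z)) = z) ∧ ∀ z, crRot b z ≠ z := by
  have h3 : ∀ r : Fin 3, finRotate 3 (finRotate 3 (finRotate 3 r)) = r := by decide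
  have h4 : ∀ r : Fin 3, finRotate 3 r ≠ r := by decide
  refine ⟨?_, ?_⟩
  · rintro ⟨i, r⟩
    show (i, finRotate 3 (finRotate 3 (finRotate 3 r))) = (i, r)
    rw [h3]
  · rintro ⟨i, r⟩ h
    have h5 : (i, finRotate 3 r) = (i, r) := h
    exact h4 r (Prod.ext_iff.1 h5).2

private theorem crConj {X : Type} [Fintype X] (F : ℕ) (hX : Fintype.card X = 3 * F) (f : Equiv.Perm X)
    (h1 : ∀ d, f (f (f d)) = d) (h2 : ∀ d, f d ≠ d) :
    ∃ e : (Fin F × Fin 3) ≃ X, ∀ z, f (e z) = e (crRot F z) := by
  have hc : Fintype.card (Fin F × Fin 3) = Fintype.card X := by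
    rw [Fintype.card_prod, Fintype.card_fin, Fintype.card_fin, hX, mul_comm]
  set e₀ : (Fin F × Fin 3) ≃ X := Fintype.equivOfCardEq hc with he₀
  set f' : Equiv.Perm X := e₀.permCongr (crRot F) with hf'
  have happ : ∀ y, f' y = e₀ (crRot F (e₀.symm y)) := fun y => by
    rw [hf', Equiv.permCongr_apply]
  have m1 : ∀ d, f' (f' (f' d)) = d := by
    intro d
    rw [happ, happ, happ, Equiv.symm_apply_apply, Equiv.symm_apply_apply, (crPhi F).1,
      Equiv.apply_symm_apply]
  have m2 : ∀ d, f' d ≠ d := by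
    intro d hd
    rw [happ] at hd
    have h1 : crRot F (e₀.symm d) = e₀.symm d := by
      have h2 := congrArg e₀.symm hd
      rwa [Equiv.symm_apply_apply] at h2
    exact (crPhi F).2 _ h1
  have h3 : IsConj f' f := by
    rw [Equiv.Perm.isConj_iff_cycleType_eq, crType F hX f' m1 m2, crType F hX f h1 h2]
  obtain ⟨c, hc⟩ := isConj_iff.1 h3
  refine ⟨e₀.trans c, fun z => ?_⟩
  show f (c (e₀ z)) = c (e₀ (crRot F z))
  rw [← hc]
  have h2 : c⁻¹ (c (e₀ z)) = e₀ z := c.symm_apply_apply (e₀ z)
  show c (f' (c⁻¹ (c (e₀ z)))) = _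
  rw [h2, happ, Equiv.symm_apply_apply]

private theorem crCent (F : ℕ) :
    Nat.card (Subgroup.centralizer ({crRot F} : Set (Equiv.Perm (Fin F × Fin 3)))) =
      3 ^ F * F.factorial := by
  have hE : Fintype.card (Fin F × Fin 3) = 3 * F := by
    rw [Fintype.card_prod, Fintype.card_fin, Fintype.card_fin, mul_comm]
  have ht := crType F hE (crRot F) (crPhi F).1 (crPhi F).2
  rw [Equiv.Perm.nat_card_centralizer, ht, hE, Multiset.sum_replicate, Multiset.prod_replicate,
    smul_eq_mul, mul_comm F 3, Nat.sub_self, Nat.factorial_zero, one_mul]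
  congr 1
  rw [Multiset.toFinset_replicate]
  by_cases hb : F = 0
  · rw [if_pos hb, hb]
    simp
  · rw [if_neg hb, Finset.prod_singleton, Multiset.count_replicate_self]

theorem rot_card [Finite D] {W : Set D} {F : ℕ} (hW : W.ncard = 3 * F) {f : Equiv.Perm D} (f_off : ∀ d ∉ W, f d = d)
    (f_on : ∀ d ∈ W, f d ≠ d) (fff : ∀ d, f (f (f d)) = d) :
    Nat.card {e : Fin F × Fin 3 ≃ W // ∀ z, ((e (Equiv.prodCongr (Equiv.refl (Fin F)) (finRotate 3) z) : W) : D) = f (e z)} =
      3 ^ F * F.factorial := by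
  have : Fintype D := Fintype.ofFinite D
  have : Fintype W := Fintype.ofFinite W
  have hcard : Fintype.card W = 3 * F := by
    rw [← hW, ← Nat.card_coe_set_eq, Nat.card_eq_fintype_card]
  have hmem : ∀ d, f d ∈ W ↔ d ∈ W := by
    intro d
    constructor
    · intro h
      by_contra hd
      rw [f_off d hd] at h
      exact hd h
    · intro h
      by_contra hd
      exact f_on d h (f.injective (f_off _ hd))
  let f' : Equiv.Perm W :=
    { toFun := fun d => ⟨f d, (hmem d).2 d.2⟩
      invFun := fun d => ⟨f (f d), (hmem _).2 ((hmem d).2 d.2)⟩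
      left_inv := fun d => Subtype.ext (fff d)
      right_inv := fun d => Subtype.ext (fff d) }
  have hf' : ∀ d : W, ((f' d : W) : D) = f d := fun d => rfl
  obtain ⟨e₁, he₁⟩ := crConj F hcard f' (fun d => Subtype.ext (fff d))
    (fun d h => f_on d d.2 (congrArg Subtype.val h))
  rw [← crCent F]
  refine Nat.card_congr ?_
  refine
    { toFun := fun e => ⟨e.1.trans e₁.symm, ?_⟩
      invFun := fun c => ⟨(c.1 : Equiv.Perm (Fin F × Fin 3)).trans e₁, ?_⟩
      left_inv := ?_
      right_inv := ?_ }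
  · rw [Subgroup.mem_centralizer_singleton_iff]
    have he : ∀ z, e.1 (crRot F z) = f' (e.1 z) := fun z => Subtype.ext (e.2 z)
    ext z : 1
    show e₁.symm (e.1 (crRot F z)) = crRot F (e₁.symm (e.1 z))
    rw [he]
    apply e₁.injective
    rw [Equiv.apply_symm_apply, ← he₁, Equiv.apply_symm_apply]
  · have hc := Subgroup.mem_centralizer_singleton_iff.1 c.2
    intro z
    have hz : c.1 (crRot F z) = crRot F (c.1 z) := by
      have := congrArg (fun g : Equiv.Perm (Fin F × Fin 3) => g z) hc
      exact this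
    show ((e₁ (c.1 (crRot F z)) : W) : D) = f ((e₁ (c.1 z) : W) : D)
    rw [hz, ← he₁]
    exact hf' _
  · intro e
    apply Subtype.ext
    ext z : 1
    show e₁ (e₁.symm (e.1 z)) = e.1 z
    rw [Equiv.apply_symm_apply]
  · intro c
    apply Subtype.ext
    ext z : 1
    show e₁.symm (e₁ (c.1 z)) = c.1 z
    rw [Equiv.symm_apply_apply]

end SYS
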