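import Pool.Agent.SYS.Lib.Ret
import Pool.Agent.SYS.Lib.CntR

/-!
# SYS-Lib-CntA: counting maps on a set of darts

`W`: darts of `F` triangles, `H`: darts of the holes (`η` = boundary successor on `H`, `c` = labelling).  Pairs `(f, α)`: `f` a rotation on `W`,
`α` a gluing of `W ∪ H`, connected, `V` cycles.  Number `(3F)! mu p F V`.
-/

namespace SYS

open Classical SST

variable {D : Type}

/-- `(f, α)` is a map on `W ∪ H`. -/
structure PairOn (W H : Set D) (η : Equiv.Perm D) (V : ℕ) (f α : Equiv.Perm D) : Prop where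
  f_off : ∀ d ∉ W, f d = d
  f_on : ∀ d ∈ W, f d ≠ d
  fff : ∀ d, f (f (f d)) = d
  a_off : ∀ d ∉ W ∪ H, α d = d
  a_on : ∀ d ∈ W ∪ H, α d ≠ d
  aa : ∀ d, α (α d) = d
  conn : ∀ Z ⊆ W ∪ H, Z.Nonempty → (∀ d ∈ Z, α d ∈ Z ∧ f d ∈ Z ∧ η d ∈ Z) → Z = W ∪ H
  V : ncycOn (f * η * α) (W ∪ H) = V

private theorem emb_pow {E : Type} (j : E → D) (σ : Equiv.Perm E) (τ : Equiv.Perm D)
    (h : ∀ z, τ (j z) = j (σ z)) (n : ℕ) (z : E) : (τ ^ n) (j z) = j ((σ ^ n) z) := by
  induction n with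
  | zero => rfl
  | succ n ih => rw [pow_succ', pow_succ', Equiv.Perm.mul_apply, Equiv.Perm.mul_apply, ih, h]

private theorem ncycOn_emb {E : Type} [Finite E] [Finite D] (j : E → D) (hj : Function.Injective j)
    (σ : Equiv.Perm E) (τ : Equiv.Perm D) (h : ∀ z, τ (j z) = j (σ z)) :
    ncycOn τ (Set.range j) = ncyc σ := by
  have hsame : ∀ y z, σ.SameCycle y z ↔ τ.SameCycle (j y) (j z) := by
    intro y z
    constructor
    · intro h1
      obtain ⟨n, hn⟩ := h1.exists_pow_eq'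
      refine ⟨(n : ℤ), ?_⟩
      rw [zpow_natCast, emb_pow j σ τ h, hn.2]
    · intro h1
      obtain ⟨n, hn⟩ := h1.exists_pow_eq'
      refine ⟨(n : ℤ), ?_⟩
      rw [zpow_natCast]
      have h2 := hn.2
      rw [emb_pow j σ τ h] at h2
      exact hj h2
  let G : Quotient (Equiv.Perm.SameCycle.setoid σ) → Quotient (Equiv.Perm.SameCycle.setoid τ) :=
    Quotient.lift (fun z => Quotient.mk (Equiv.Perm.SameCycle.setoid τ) (j z))
      (fun y z hyz => Quotient.sound ((hsame y z).1 hyz))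
  have hG : Function.Injective G := by
    intro q r
    refine Quotient.inductionOn₂ q r fun y z hyz => ?_
    exact Quotient.sound ((hsame y z).2 (Quotient.exact hyz))
  have hset : {q : Quotient (Equiv.Perm.SameCycle.setoid τ) | ∃ d ∈ Set.range j, Quotient.mk _ d = q} =
      Set.range G := by
    ext q
    constructor
    · rintro ⟨d, ⟨z, rfl⟩, rfl⟩
      exact ⟨Quotient.mk _ z, rfl⟩
    · rintro ⟨r, rfl⟩
      refine Quotient.inductionOn r fun z => ?_
      exact ⟨j z, ⟨z, rfl⟩, rfl⟩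
  unfold ncycOn ncyc
  rw [hset, ← Nat.card_coe_set_eq, Nat.card_range_of_injective hG]

private theorem rot3 : ∀ r : Fin 3, finRotate 3 (finRotate 3 (finRotate 3 r)) = r := by decide

private theorem rotne : ∀ r : Fin 3, finRotate 3 r ≠ r := by decide

section fixed

variable {W H : Set D} {F : ℕ} {ι : Type} (p : ι → ℕ) (c : (Σ i : ι, Fin (p i)) → D)

/-- the embedding of the darts -/
private def jj (e : Fin F × Fin 3 ≃ W) : MD p F → D := Sum.elim (fun z => (e z : D)) c

private theorem jj_inl (e : Fin F × Fin 3 ≃ W) (z : Fin F × Fin 3) : jj p c e (Sum.inl z) = (e z : D) := rfl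

private theorem jj_inr (e : Fin F × Fin 3 ≃ W) (s : Σ i : ι, Fin (p i)) : jj p c e (Sum.inr s) = c s := rfl

private theorem jj_inj (hWH : Disjoint W H) (hc : Function.Injective c) (hr : Set.range c = H)
    (e : Fin F × Fin 3 ≃ W) : Function.Injective (jj p c e) := by
  have hcH : ∀ s, c s ∈ H := fun s => hr ▸ ⟨s, rfl⟩
  rintro (z | s) (z' | s') h
  · rw [jj_inl, jj_inl] at h
    rw [e.injective (Subtype.ext h)]
  · rw [jj_inl, jj_inr] at h
    exact absurd (h ▸ hcH s') (Set.disjoint_left.1 hWH (e z).2)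
  · rw [jj_inl, jj_inr] at h
    exact absurd (h ▸ hcH s) (Set.disjoint_left.1 hWH (e z').2)
  · rw [jj_inr, jj_inr] at h
    rw [hc h]

private theorem jj_range (hr : Set.range c = H) (e : Fin F × Fin 3 ≃ W) :
    Set.range (jj p c e) = W ∪ H := by
  ext d
  constructor
  · rintro ⟨z | s, rfl⟩
    · exact Or.inl (e z).2
    · exact Or.inr (hr ▸ ⟨s, rfl⟩)
  · rintro (h | h)
    · refine ⟨Sum.inl (e.symm ⟨d, h⟩), ?_⟩
      rw [jj_inl, Equiv.apply_symm_apply]
    · rw [← hr] at h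
      obtain ⟨s, hs⟩ := h
      exact ⟨Sum.inr s, hs⟩

private theorem pair_iff [Finite D] [Fintype ι] (hWH : Disjoint W H) {η : Equiv.Perm D}
    (hη : ∀ d ∉ H, η d = d) (hc : Function.Injective c) (hr : Set.range c = H)
    (hcη : ∀ i (k : Fin (p i)), η (c ⟨i, k⟩) = c ⟨i, finRotate (p i) k⟩) (V : ℕ)
    (e : Fin F × Fin 3 ≃ W) (f α : Equiv.Perm D) (α₀ : Equiv.Perm (MD p F))
    (f_off : ∀ d ∉ W, f d = d)
    (hf : ∀ z, ((e (Equiv.prodCongr (Equiv.refl (Fin F)) (finRotate 3) z) : W) : D) = f (e z))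
    (a_off : ∀ d ∉ W ∪ H, α d = d) (hα : ∀ z, α (jj p c e z) = jj p c e (α₀ z)) :
    PairOn W H η V f α ↔ α₀ ∈ Maps p F V := by
  have hinj := jj_inj p c hWH hc hr e
  have hran := jj_range p c hr e
  have hcH : ∀ s, c s ∈ H := fun s => hr ▸ ⟨s, rfl⟩
  have hW : ∀ d ∈ W, ∃ z, (e z : D) = d := fun d hd => ⟨e.symm ⟨d, hd⟩, by rw [Equiv.apply_symm_apply]⟩
  have hWnH : ∀ d ∈ W, d ∉ H := fun d hd => Set.disjoint_left.1 hWH hd
  have hHnW : ∀ d ∈ H, d ∉ W := fun d hd hd' => Set.disjoint_left.1 hWH hd' hd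
  have hfη : ∀ z, f (η (jj p c e z)) = jj p c e (fp p F z) := by
    rintro (z | ⟨i, k⟩)
    · rw [jj_inl, hη _ (hWnH _ (e z).2), ← hf]
      rfl
    · rw [jj_inr, hcη, f_off _ (hHnW _ (hcH _))]
      rfl
  have hf1 : ∀ z, f (jj p c e z) ∈ ({jj p c e (fp p F z), jj p c e z} : Set D) := by
    rintro (z | ⟨i, k⟩)
    · left
      rw [jj_inl, ← hf]
      rfl
    · right
      rw [jj_inr, f_off _ (hHnW _ (hcH _))]
      rfl
  have hη1 : ∀ z, η (jj p c e z) ∈ ({jj p c e (fp p F z), jj p c e z} : Set D) := by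
    rintro (z | ⟨i, k⟩)
    · right
      rw [jj_inl, hη _ (hWnH _ (e z).2)]
      rfl
    · left
      rw [jj_inr, hcη]
      rfl
  have hfp : ∀ (Z : Set D) (z : MD p F), f (jj p c e z) ∈ Z → η (jj p c e z) ∈ Z →
      jj p c e (fp p F z) ∈ Z := by
    rintro Z (z | ⟨i, k⟩) h1 h2
    · rw [jj_inl, ← hf] at h1
      exact h1
    · rw [jj_inr, hcη] at h2
      exact h2
  have hcyc : ncycOn (f * η * α) (W ∪ H) = ncyc (fp p F * α₀) := by
    rw [← hran]
    refine ncycOn_emb (jj p c e) hinj _ _ fun z => ?_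
    rw [Equiv.Perm.mul_apply, Equiv.Perm.mul_apply, Equiv.Perm.mul_apply, hα, hfη]
  constructor
  · intro h
    refine ⟨?_, ?_, ?_, ?_⟩
    · intro z
      apply hinj
      rw [← hα, ← hα, h.aa]
    · intro z hz
      refine h.a_on (jj p c e z) (hran ▸ ⟨z, rfl⟩) ?_
      rw [hα, hz]
    · intro S hS hcl
      have h1 : jj p c e '' S = W ∪ H := by
        refine h.conn _ ?_ (hS.image _) ?_
        · rw [← hran]
          exact Set.image_subset_range _ _
        · rintro _ ⟨z, hz, rfl⟩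
          obtain ⟨h2, h3⟩ := hcl z hz
          have hz' : jj p c e z ∈ jj p c e '' S := ⟨z, hz, rfl⟩
          have h3' : jj p c e (fp p F z) ∈ jj p c e '' S := ⟨_, h3, rfl⟩
          refine ⟨?_, ?_, ?_⟩
          · rw [hα]
            exact ⟨_, h2, rfl⟩
          · rcases hf1 z with h4 | h4
            · rw [h4]; exact h3'
            · rw [h4]; exact hz'
          · rcases hη1 z with h4 | h4
            · rw [h4]; exact h3'
            · rw [h4]; exact hz'
      apply Set.eq_univ_of_forall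
      intro z
      have h2 : jj p c e z ∈ jj p c e '' S := by
        rw [h1, ← hran]
        exact ⟨z, rfl⟩
      obtain ⟨z', hz', hzz⟩ := h2
      rw [← hinj hzz]
      exact hz'
    · rw [← hcyc]
      exact h.V
  · rintro ⟨h1, h2, h3, h4⟩
    refine ⟨f_off, ?_, ?_, a_off, ?_, ?_, ?_, ?_⟩
    · intro d hd h5
      obtain ⟨z, rfl⟩ := hW d hd
      rw [← hf] at h5
      have h6 := e.injective (Subtype.ext h5)
      exact rotne z.2 (congrArg Prod.snd h6)
    · intro d
      by_cases hd : d ∈ W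
      · obtain ⟨z, rfl⟩ := hW d hd
        rw [← hf, ← hf, ← hf]
        congr 2
        exact Prod.ext rfl (rot3 z.2)
      · rw [f_off d hd, f_off d hd, f_off d hd]
    · intro d hd h5
      rw [← hran] at hd
      obtain ⟨z, rfl⟩ := hd
      rw [hα] at h5
      exact h2 z (hinj h5)
    · intro d
      by_cases hd : d ∈ W ∪ H
      · rw [← hran] at hd
        obtain ⟨z, rfl⟩ := hd
        rw [hα, hα, h1]
      · rw [a_off d hd, a_off d hd]
    · intro Z hZ hne hcl
      have h5 : (jj p c e) ⁻¹' Z = Set.univ := by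
        apply h3
        · obtain ⟨d, hd⟩ := hne
          have h6 := hZ hd
          rw [← hran] at h6
          obtain ⟨z, rfl⟩ := h6
          exact ⟨z, hd⟩
        · intro z hz
          obtain ⟨h6, h7, h8⟩ := hcl (jj p c e z) hz
          refine ⟨?_, hfp Z z h7 h8⟩
          rw [hα] at h6
          exact h6
      apply Set.Subset.antisymm hZ
      rw [← hran]
      rintro _ ⟨z, rfl⟩
      have h6 : z ∈ (jj p c e) ⁻¹' Z := by rw [h5]; trivial
      exact h6
    · rw [hcyc]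
      exact h4

private theorem maps_card [Finite D] [Fintype ι] (hWH : Disjoint W H) {η : Equiv.Perm D}
    (hη : ∀ d ∉ H, η d = d) (hc : Function.Injective c) (hr : Set.range c = H)
    (hcη : ∀ i (k : Fin (p i)), η (c ⟨i, k⟩) = c ⟨i, finRotate (p i) k⟩) (V : ℕ)
    (e : Fin F × Fin 3 ≃ W) :
    Nat.card {q : Equiv.Perm D × Equiv.Perm D // PairOn W H η V q.1 q.2 ∧
      ∀ z, ((e (Equiv.prodCongr (Equiv.refl (Fin F)) (finRotate 3) z) : W) : D) = q.1 (e z)} =
      (Maps p F V).ncard := by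
  have hinj := jj_inj p c hWH hc hr e
  have hran := jj_range p c hr e
  have heinj : Function.Injective fun z => (e z : D) := fun y z h => e.injective (Subtype.ext h)
  have heran : Set.range (fun z => (e z : D)) = W := by
    ext d
    constructor
    · rintro ⟨z, rfl⟩
      exact (e z).2
    · intro hd
      exact ⟨e.symm ⟨d, hd⟩, by show ((e (e.symm ⟨d, hd⟩) : W) : D) = d; rw [Equiv.apply_symm_apply]⟩
  obtain ⟨f₀, hf₀⟩ : ∃ f₀ : Equiv.Perm D, f₀ =
      Equiv.Perm.viaEmbedding (Equiv.prodCongr (Equiv.refl (Fin F)) (finRotate 3))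
        ⟨fun z => (e z : D), heinj⟩ := ⟨_, rfl⟩
  have hf₀_on : ∀ z, ((e (Equiv.prodCongr (Equiv.refl (Fin F)) (finRotate 3) z) : W) : D) = f₀ (e z) := by
    intro z
    rw [hf₀]
    exact (Equiv.Perm.viaEmbedding_apply (Equiv.prodCongr (Equiv.refl (Fin F)) (finRotate 3))
      ⟨fun z => (e z : D), heinj⟩ z).symm
  have hf₀_off : ∀ d ∉ W, f₀ d = d := by
    intro d hd
    rw [hf₀]
    apply Equiv.Perm.viaEmbedding_apply_of_notMem
    intro h
    exact hd (heran ▸ h)
  rw [← Nat.card_coe_set_eq]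
  have hα_on : ∀ (α₀ : Equiv.Perm (MD p F)) z,
      (α₀.viaEmbedding ⟨jj p c e, hinj⟩) (jj p c e z) = jj p c e (α₀ z) := fun α₀ z =>
    Equiv.Perm.viaEmbedding_apply α₀ ⟨jj p c e, hinj⟩ z
  have hα_off : ∀ (α₀ : Equiv.Perm (MD p F)), ∀ d ∉ W ∪ H,
      (α₀.viaEmbedding ⟨jj p c e, hinj⟩) d = d := by
    intro α₀ d hd
    apply Equiv.Perm.viaEmbedding_apply_of_notMem
    intro h
    exact hd (hran ▸ h)
  symm
  refine Nat.card_congr (Equiv.ofBijective (fun α₀ : Maps p F V =>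
    ⟨(f₀, α₀.1.viaEmbedding ⟨jj p c e, hinj⟩),
      (pair_iff p c hWH hη hc hr hcη V e f₀ _ α₀.1 hf₀_off hf₀_on (hα_off _) (hα_on _)).2 α₀.2,
      hf₀_on⟩) ⟨?_, ?_⟩)
  · intro α₀ β₀ h
    have h1 : α₀.1.viaEmbedding ⟨jj p c e, hinj⟩ = β₀.1.viaEmbedding ⟨jj p c e, hinj⟩ :=
      congrArg (fun x => x.1.2) h
    apply Subtype.ext
    apply Equiv.ext
    intro z
    apply hinj
    rw [← hα_on, ← hα_on, h1]
  · rintro ⟨⟨f, α⟩, hq, hfe⟩
    have hq' : PairOn W H η V f α := hq
    have hfe' : ∀ z, ((e (Equiv.prodCongr (Equiv.refl (Fin F)) (finRotate 3) z) : W) : D) = f (e z) := hfe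
    have hff : f₀ = f := by
      apply Equiv.ext
      intro d
      by_cases hd : d ∈ W
      · rw [← heran] at hd
        obtain ⟨z, rfl⟩ := hd
        show f₀ (e z) = f (e z)
        rw [← hf₀_on, ← hfe']
      · rw [hf₀_off d hd, hq'.f_off d hd]
    have hmem : ∀ z, ∃ z', jj p c e z' = α (jj p c e z) := by
      intro z
      have h1 : α (jj p c e z) ∈ W ∪ H := by
        by_contra hcon
        have h2 := hq'.a_off _ hcon
        rw [hq'.aa] at h2
        exact hq'.a_on (jj p c e z) (hran ▸ ⟨z, rfl⟩) h2.symm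
      rw [← hran] at h1
      exact h1
    choose a₀ ha₀ using hmem
    have hinv : Function.Involutive a₀ := by
      intro z
      apply hinj
      rw [ha₀, ha₀, hq'.aa]
    have hα : ∀ z, α (jj p c e z) = jj p c e (Function.Involutive.toPerm a₀ hinv z) := fun z => (ha₀ z).symm
    refine ⟨⟨Function.Involutive.toPerm a₀ hinv,
      (pair_iff p c hWH hη hc hr hcη V e f α (Function.Involutive.toPerm a₀ hinv) hq'.f_off hfe'
      hq'.a_off hα).1 hq'⟩, ?_⟩
    apply Subtype.ext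
    refine Prod.ext hff ?_
    apply Equiv.ext
    intro d
    show ((Function.Involutive.toPerm a₀ hinv).viaEmbedding ⟨jj p c e, hinj⟩) d = α d
    by_cases hd : d ∈ W ∪ H
    · rw [← hran] at hd
      obtain ⟨z, rfl⟩ := hd
      rw [hα_on, hα]
    · rw [hα_off _ d hd, hq'.a_off d hd]

end fixed

theorem pair_card [Finite D] {W H : Set D} (hWH : Disjoint W H) {F : ℕ} (hW : W.ncard = 3 * F) {η : Equiv.Perm D}
    (hη : ∀ d ∉ H, η d = d) {ι : Type} [Fintype ι] (p : ι → ℕ) (hp : ∀ i, 0 < p i) (c : (Σ i : ι, Fin (p i)) → D)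
    (hc : Function.Injective c) (hr : Set.range c = H) (hcη : ∀ i (k : Fin (p i)), η (c ⟨i, k⟩) = c ⟨i, finRotate (p i) k⟩)
    (V : ℕ) :
    (({q : Equiv.Perm D × Equiv.Perm D | PairOn W H η V q.1 q.2}.ncard : ℕ) : ℚ) = ((3 * F).factorial : ℚ) * mu p F V := by
  have hfin : Finite (Equiv.Perm D × Equiv.Perm D) := inferInstance
  have hfinE : Finite (Fin F × Fin 3 ≃ W) := inferInstance
  have : Fintype W := Fintype.ofFinite _
  have hcE : Nat.card (Fin F × Fin 3 ≃ W) = (3 * F).factorial := by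
    have h1 : Fintype.card (Fin F × Fin 3) = Fintype.card W := by
      rw [Fintype.card_prod, Fintype.card_fin, Fintype.card_fin, ← Nat.card_eq_fintype_card (α := W),
        Nat.card_coe_set_eq, hW, mul_comm]
    have h2 := Fintype.card_equiv (Fintype.equivOfCardEq h1)
    rw [← Nat.card_eq_fintype_card (α := Fin F × Fin 3 ≃ W), Fintype.card_prod, Fintype.card_fin,
      Fintype.card_fin, mul_comm F 3] at h2
    exact h2
  have : Fintype (Fin F × Fin 3 ≃ W) := Fintype.ofFinite _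
  have : Fintype {q : Equiv.Perm D × Equiv.Perm D // PairOn W H η V q.1 q.2} := Fintype.ofFinite _
  have key : (3 * F).factorial * (Maps p F V).ncard =
      {q : Equiv.Perm D × Equiv.Perm D | PairOn W H η V q.1 q.2}.ncard * (3 ^ F * F.factorial) := by
    let e1 : (Σ e : (Fin F × Fin 3 ≃ W), {q : Equiv.Perm D × Equiv.Perm D // PairOn W H η V q.1 q.2 ∧
        ∀ z, ((e (Equiv.prodCongr (Equiv.refl (Fin F)) (finRotate 3) z) : W) : D) = q.1 (e z)}) ≃
        (Σ q : {q : Equiv.Perm D × Equiv.Perm D // PairOn W H η V q.1 q.2}, {e : Fin F × Fin 3 ≃ W //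
          ∀ z, ((e (Equiv.prodCongr (Equiv.refl (Fin F)) (finRotate 3) z) : W) : D) = q.1.1 (e z)}) :=
      { toFun := fun x => ⟨⟨x.2.1, x.2.2.1⟩, ⟨x.1, x.2.2.2⟩⟩
        invFun := fun y => ⟨y.2.1, ⟨y.1.1, y.1.2, y.2.2⟩⟩
        left_inv := fun _ => rfl
        right_inv := fun _ => rfl }
    have h1 := Nat.card_congr e1
    rw [Nat.card_sigma, Nat.card_sigma] at h1
    rw [Finset.sum_congr rfl (fun e _ => maps_card p c hWH hη hc hr hcη V e),
      Finset.sum_congr rfl (fun q _ => rot_card hW q.2.f_off q.2.f_on q.2.fff)] at h1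
    rw [Finset.sum_const, Finset.sum_const, smul_eq_mul, smul_eq_mul, Finset.card_univ, Finset.card_univ,
      ← Nat.card_eq_fintype_card, ← Nat.card_eq_fintype_card, hcE] at h1
    rw [h1, ← Nat.card_coe_set_eq]
    rfl
  have hp' : ∀ i, p i ≠ 0 := fun i => (hp i).ne'
  rw [mu, if_pos hp']
  have h3 : ((3 : ℚ) ^ F * F.factorial) ≠ 0 := by positivity
  rw [mul_div_assoc', eq_div_iff h3]
  exact_mod_cast key.symm

end SYS
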