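import Pool.Agent.SYS.Lib.Fil
import Pool.Agent.SYS.Lib.Inn
import Pool.Agent.SYS.Lib.CntA

/-!
# SYS-Lib-CntB: number of fillings with given new darts

PLAN.  `H := {d ∈ B | ∃ i, d in the hole of h i}`, `η := ret S.s H`-like: boundary successor on `H`: `η d = S.nx d` if `d ∈ H`, else `d` (a permutation: `restr S.nx H _`,
`H` is invariant under `nx`).  `c ⟨i, k⟩ := (S.nx ^ k) (h i)` (`hw` lists them; injective, range `H`; `η (c ⟨i,k⟩) = c ⟨i, finRotate k⟩`: `hw_chain`-type facts: the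
period of `nx` at `h i` is `per (h i)`).
Bijection between `{S' | FillBy S S' H F V, S'.R \ S.R = W}` and pairs `(f, α)` with `PairOn W H η V f α`:
* `S' ↦ (f, α)` = (`S'.f` on `W`, identity off; `S'.a` on `W ∪ H`, identity off) (`W ∪ H` is invariant under `S'.a`: if `d ∈ W ∪ H` and `S'.a d ∈ S.R \ S.B` then
  `S.a (S'.a d) ≠ S'.a d`, `S'.a (S'.a d) = S.a (S'.a d)`, so `d = S.a (S'.a d) ∈ S.R \ S.B`; `S'.a d ∉ S'.B` since `S'.a d ∈ S'.B` gives `S'.a d = d ∈ S'.B`; and `S'.a d ∈ S'.R`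
  by `mem_R_a`; on `W ∪ H` it has no fixed points because `S'.B = S.B \ H` is disjoint from `W ∪ H`);
* `(f, α) ↦ S'` with `S'.f = S.f * f`, `S'.a = S.a * α` (disjoint supports).
* `conn` is the same condition (`η = nx` on `H`, identity elsewhere; `f` is the identity off `W`).
* `inn`: `ret S'.s (W ∪ H) = f * η * α` on `W ∪ H`: for `d ∈ W ∪ H`: `e := S'.a d = α d ∈ W ∪ H`; if `e ∈ W`, `S'.s d = f e ∈ W` is the first return; if `e ∈ H`,
  `S'.s d = S.f e = S.s e` (`S.a e = e`) and from there `S'.s = S.s` on `S.R \ S.B`, up to `S.nx e ∈ H`.  Hence `ncycOn S'.s (W ∪ H) = ncycOn (f * η * α) (W ∪ H)`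
  (`ncycOn_ret` twice or `ret_same`).  `inn_eq` for `S'` and `S`: the classes of `S'.s` in `S'.R` are those meeting `W ∪ H` and those of `S.s` in `S.R` not meeting `H`
  (`fil_same`-type argument); `ncycOn S'.s S'.B = ncycOn S.s S.B - ncycOn S.s H`.  So `S'.inn = S.inn + ncycOn (f * η * α) (W ∪ H)`.
Then `pair_card`.
(You may state the last point as a private lemma for any `S'` with `sub`, `B`, `R = R ∪ W`.)
-/

namespace SYS
namespace Part

open Classical SST

variable {D : Type} [Finite D]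

private theorem fb_nat {τ : Equiv.Perm D} {u v : D} (h : τ.SameCycle u v) : ∃ n : ℕ, (τ ^ n) u = v := by
  obtain ⟨n, hn⟩ := h.exists_pow_eq'
  exact ⟨n, hn.2⟩

omit [Finite D] in
private theorem fb_pow {τ : Equiv.Perm D} (u : D) (n : ℕ) : τ.SameCycle u ((τ ^ n) u) :=
  ⟨n, by rw [zpow_natCast]⟩

omit [Finite D] in
private theorem fb_step {τ : Equiv.Perm D} (u : D) : τ.SameCycle u (τ u) :=
  ⟨1, by rw [zpow_one]⟩

private theorem fb_union (σ : Equiv.Perm D) {A B : Set D} (h : ∀ d ∈ A, ∀ e ∈ B, ¬ σ.SameCycle d e) :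
    ncycOn σ (A ∪ B) = ncycOn σ A + ncycOn σ B := by
  show ((Quotient.mk (Equiv.Perm.SameCycle.setoid σ)) '' (A ∪ B)).ncard =
    ((Quotient.mk (Equiv.Perm.SameCycle.setoid σ)) '' A).ncard +
      ((Quotient.mk (Equiv.Perm.SameCycle.setoid σ)) '' B).ncard
  rw [Set.image_union, Set.ncard_union_eq ?_ (Set.toFinite _) (Set.toFinite _)]
  rw [Set.disjoint_left]
  rintro _ ⟨d, hd, rfl⟩ ⟨e, he, h1⟩
  exact h d hd e he (Quotient.exact h1.symm)

private theorem fb_eq (σ : Equiv.Perm D) {A B : Set D} (h1 : ∀ d ∈ A, ∃ e ∈ B, σ.SameCycle d e)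
    (h2 : ∀ d ∈ B, ∃ e ∈ A, σ.SameCycle d e) : ncycOn σ A = ncycOn σ B := by
  unfold ncycOn
  congr 1
  ext q
  constructor
  · rintro ⟨d, hd, rfl⟩
    obtain ⟨e, he, h⟩ := h1 d hd
    exact ⟨e, he, Quotient.sound h.symm⟩
  · rintro ⟨d, hd, rfl⟩
    obtain ⟨e, he, h⟩ := h2 d hd
    exact ⟨e, he, Quotient.sound h.symm⟩

omit [Finite D] in
private theorem fb_ncard {A B : Type} (f : D → A) (g : D → B) (X : Set D)
    (h : ∀ d ∈ X, ∀ e ∈ X, f d = f e ↔ g d = g e) : (f '' X).ncard = (g '' X).ncard := by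
  refine Set.ncard_congr (fun a ha => g ha.choose) ?_ ?_ ?_
  · intro a ha
    exact ⟨ha.choose, ha.choose_spec.1, rfl⟩
  · intro a b ha hb hab
    have h1 := (h _ ha.choose_spec.1 _ hb.choose_spec.1).2 hab
    rw [ha.choose_spec.2, hb.choose_spec.2] at h1
    exact h1
  · rintro _ ⟨d, hd, rfl⟩
    have ha : f d ∈ f '' X := ⟨d, hd, rfl⟩
    exact ⟨f d, ha, (h _ ha.choose_spec.1 _ hd).1 ha.choose_spec.2⟩

private theorem fb_agree {σ τ : Equiv.Perm D} {A : Set D}
    (h : ∀ d ∈ A, ∀ e ∈ A, σ.SameCycle d e ↔ τ.SameCycle d e) : ncycOn σ A = ncycOn τ A := by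
  refine fb_ncard (Quotient.mk (Equiv.Perm.SameCycle.setoid σ))
    (Quotient.mk (Equiv.Perm.SameCycle.setoid τ)) A fun d hd e he => ?_
  constructor
  · intro h1
    exact Quotient.sound ((h d hd e he).1 (Quotient.exact h1))
  · intro h1
    exact Quotient.sound ((h d hd e he).2 (Quotient.exact h1))

/-- the part `S'` and the pair `(f, α)` correspond -/
private structure Cor (S S' : Part D) (W H : Set D) (f α : Equiv.Perm D) : Prop where
  hH : H ⊆ S.B
  hW : ∀ d ∈ W, d ∉ S.R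
  ef : ∀ d, S'.f d = S.f (f d)
  ea : ∀ d, S'.a d = S.a (α d)
  f_off : ∀ d ∉ W, f d = d
  f_on : ∀ d ∈ W, f d ≠ d
  a_off : ∀ d ∉ W ∪ H, α d = d
  a_on : ∀ d ∈ W ∪ H, α d ≠ d
  aa : ∀ d, α (α d) = d

section
variable {S S' : Part D} {W H : Set D} {f α : Equiv.Perm D}

omit [Finite D] in
private theorem perm_mem {W : Set D} {f : Equiv.Perm D} (h1 : ∀ d ∉ W, f d = d) (h2 : ∀ d ∈ W, f d ≠ d) {d : D}
    (hd : d ∈ W) : f d ∈ W := by
  by_contra hc
  exact h2 d hd (f.injective (h1 _ hc))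

omit [Finite D] in
private theorem Sf_fix (hW : ∀ d ∈ W, d ∉ S.R) {d : D} (hd : d ∈ W) : S.f d = d := not_not.1 (hW d hd)

omit [Finite D] in
private theorem Sa_fix (hH : H ⊆ S.B) (hW : ∀ d ∈ W, d ∉ S.R) {d : D} (hd : d ∈ W ∪ H) : S.a d = d := by
  rcases hd with hd | hd
  · exact S.af d (Sf_fix hW hd)
  · exact (hH hd).2

omit [Finite D] in
private theorem cf_W (c : Cor S S' W H f α) {d : D} (hd : d ∈ W) : S'.f d = f d := by
  rw [c.ef, Sf_fix c.hW (perm_mem c.f_off c.f_on hd)]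

omit [Finite D] in
private theorem cf_nW (c : Cor S S' W H f α) {d : D} (hd : d ∉ W) : S'.f d = S.f d := by
  rw [c.ef, c.f_off d hd]

omit [Finite D] in
private theorem ca_Y (c : Cor S S' W H f α) {d : D} (hd : d ∈ W ∪ H) : S'.a d = α d := by
  rw [c.ea, Sa_fix c.hH c.hW (perm_mem c.a_off c.a_on hd)]

omit [Finite D] in
private theorem ca_nY (c : Cor S S' W H f α) {d : D} (hd : d ∉ W ∪ H) : S'.a d = S.a d := by
  rw [c.ea, c.a_off d hd]

omit [Finite D] in
private theorem cor_nW (c : Cor S S' W H f α) {d : D} (hd : d ∈ S.R) : d ∉ W := fun h => c.hW d h hd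

omit [Finite D] in
private theorem cor_R (c : Cor S S' W H f α) : S'.R = S.R ∪ W := by
  ext d
  show S'.f d ≠ d ↔ S.f d ≠ d ∨ d ∈ W
  by_cases hd : d ∈ W
  · rw [cf_W c hd]
    exact ⟨fun _ => Or.inr hd, fun _ => c.f_on d hd⟩
  · rw [cf_nW c hd]
    exact ⟨fun h => Or.inl h, fun h => h.resolve_right hd⟩

omit [Finite D] in
private theorem cor_B (c : Cor S S' W H f α) : S'.B = S.B \ H := by
  ext d
  show (S'.f d ≠ d ∧ S'.a d = d) ↔ (S.f d ≠ d ∧ S.a d = d) ∧ d ∉ H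
  by_cases hd : d ∈ W ∪ H
  · rw [ca_Y c hd]
    constructor
    · intro h
      exact absurd h.2 (c.a_on d hd)
    · intro h
      rcases hd with hd | hd
      · exact absurd h.1.1 (c.hW d hd)
      · exact absurd hd h.2
  · rw [ca_nY c hd, cf_nW c (fun h => hd (Or.inl h))]
    exact ⟨fun h => ⟨h, fun h' => hd (Or.inr h')⟩, fun h => h.1⟩

omit [Finite D] in
private theorem cor_sub (c : Cor S S' W H f α) : S.Sub S' := by
  refine ⟨fun d hd => ?_, fun d hd => ?_⟩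
  · exact cf_nW c (cor_nW c hd)
  · exact ca_nY c (fun h => hd (Sa_fix c.hH c.hW h))

omit [Finite D] in
private theorem cor_s (c : Cor S S' W H f α) {d : D} (hd : d ∈ S.R) (hd' : d ∉ H) : S'.s d = S.s d := by
  rw [s_apply, s_apply, ca_nY c (fun h => h.elim (cor_nW c hd) hd'), cf_nW c (cor_nW c ((mem_R_a S d).2 hd))]

private theorem cor_ret (c : Cor S S' W H f α) (hnx : ∀ d, S.nx d ∈ H ↔ d ∈ H) {d : D} (hd : d ∈ W ∪ H) :
    ret S'.s (W ∪ H) d = (f * restr S.nx H hnx * α) d := by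
  rw [Equiv.Perm.mul_apply, Equiv.Perm.mul_apply]
  have he : α d ∈ W ∪ H := perm_mem c.a_off c.a_on hd
  have h0 : S'.s d = S'.f (α d) := by rw [s_apply, ca_Y c hd]
  rcases he with he | he
  · have hH : α d ∉ H := fun h => c.hW _ he (B_sub_R S (c.hH h))
    rw [restr_not_mem S.nx hnx hH]
    rw [cf_W c he] at h0
    have h1 : (S'.s ^ (0 + 1)) d = f (α d) := by rw [zero_add, pow_one, h0]
    rw [← h1]
    exact ret_eq S'.s hd (by rw [h1]; exact Or.inl (perm_mem c.f_off c.f_on he))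
      (fun i hi => absurd hi (Nat.not_lt_zero i))
  · have hB : α d ∈ S.B := c.hH he
    have hnW : ∀ z ∈ H, z ∉ W := fun z hz hz' => c.hW z hz' (B_sub_R S (c.hH hz))
    rw [restr_mem S.nx hnx he, c.f_off _ (hnW _ ((hnx _).2 he))]
    obtain ⟨j, h1, h2, h3⟩ := ret_spec S.s hB
    have h1' : S.nx (α d) = (S.s ^ (j + 1)) (α d) := h1
    have key : ∀ i ≤ j, (S'.s ^ (i + 1)) d = (S.s ^ (i + 1)) (α d) ∧ (S.s ^ (i + 1)) (α d) ∈ S.R := by
      intro i
      induction i with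
      | zero =>
        intro _
        rw [zero_add, pow_one, pow_one, h0, s_apply, hB.2, cf_nW c (hnW _ he)]
        exact ⟨rfl, (mem_R_f S _).2 hB.1⟩
      | succ i ih =>
        intro hi
        obtain ⟨h4, h5⟩ := ih (by omega)
        have h6 := h3 i (by omega)
        rw [pow_succ', pow_succ' S.s, Equiv.Perm.mul_apply, Equiv.Perm.mul_apply, h4]
        refine ⟨cor_s c h5 (fun h => h6 (c.hH h)), (mem_R_s S _).2 h5⟩
    rw [h1', ← (key j le_rfl).1]
    refine ret_eq S'.s hd ?_ ?_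
    · rw [(key j le_rfl).1, ← h1']
      exact Or.inr ((hnx _).2 he)
    · intro i hi
      obtain ⟨h4, h5⟩ := key i (by omega)
      rw [h4]
      rintro (h | h)
      · exact c.hW _ h h5
      · exact h3 i hi (c.hH h)

/-- the union of the classes in `S.R` which do not meet `H` -/
private def Zs (S : Part D) (H : Set D) : Set D := {d | d ∈ S.R ∧ ∀ z ∈ H, ¬ S.s.SameCycle d z}

omit [Finite D] in
private theorem zs_pow (c : Cor S S' W H f α) {d : D} (hd : d ∈ Zs S H) (n : ℕ) :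
    (S'.s ^ n) d = (S.s ^ n) d ∧ (S.s ^ n) d ∈ Zs S H := by
  induction n with
  | zero => exact ⟨rfl, hd⟩
  | succ n ih =>
    obtain ⟨h1, h2, h3⟩ := ih
    rw [pow_succ', pow_succ', Equiv.Perm.mul_apply, Equiv.Perm.mul_apply, h1]
    refine ⟨cor_s c h2 (fun h => h3 _ h (Equiv.Perm.SameCycle.refl _ _)), (mem_R_s S _).2 h2, ?_⟩
    intro z hz h
    exact h3 z hz ((fb_step _).trans h)

private theorem zs_same (c : Cor S S' W H f α) {d e : D} (hd : d ∈ Zs S H) :
    S'.s.SameCycle d e ↔ S.s.SameCycle d e := by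
  constructor
  · intro h
    obtain ⟨n, hn⟩ := fb_nat h
    rw [(zs_pow c hd n).1] at hn
    rw [← hn]
    exact fb_pow d n
  · intro h
    obtain ⟨n, hn⟩ := fb_nat h
    rw [← (zs_pow c hd n).1] at hn
    rw [← hn]
    exact fb_pow d n

private theorem zs_closed (c : Cor S S' W H f α) {d e : D} (hd : d ∈ Zs S H) (h : S.s.SameCycle d e) :
    e ∈ Zs S H := by
  obtain ⟨n, hn⟩ := fb_nat h
  rw [← hn]
  exact (zs_pow c hd n).2

omit [Finite D] in
private theorem meets (c : Cor S S' W H f α) {z : D} (hz : z ∈ H) :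
    ∀ (n : ℕ) (d : D), d ∈ S.R → (S.s ^ n) d = z → ∃ y ∈ W ∪ H, S'.s.SameCycle d y := by
  intro n
  induction n with
  | zero =>
    intro d _ h
    have h' : d = z := h
    rw [h']
    exact ⟨z, Or.inr hz, Equiv.Perm.SameCycle.refl _ _⟩
  | succ n ih =>
    intro d hd h
    by_cases hH : d ∈ H
    · exact ⟨d, Or.inr hH, Equiv.Perm.SameCycle.refl _ _⟩
    · rw [pow_succ, Equiv.Perm.mul_apply] at h
      obtain ⟨y, hy, h1⟩ := ih (S.s d) ((mem_R_s S d).2 hd) h
      rw [← cor_s c hd hH] at h1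
      exact ⟨y, hy, (fb_step d).trans h1⟩

private theorem cor_inn (c : Cor S S' W H f α) (hun : ∀ d ∈ H, ∀ e ∈ S.B, S.s.SameCycle d e → e ∈ H) :
    S'.inn = S.inn + ncycOn S'.s (W ∪ H) := by
  have h1 := inn_eq S'
  have h2 := inn_eq S
  have hR := cor_R c
  have e1 : ncycOn S'.s S'.R = ncycOn S'.s (Zs S H) + ncycOn S'.s (S'.R \ Zs S H) := by
    rw [← fb_union]
    · congr 1
      ext d
      constructor
      · intro hd
        by_cases hz : d ∈ Zs S H
        · exact Or.inl hz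
        · exact Or.inr ⟨hd, hz⟩
      · rintro (hd | hd)
        · rw [hR]
          exact Or.inl hd.1
        · exact hd.1
    · intro d hd e he h
      exact he.2 (zs_closed c hd ((zs_same c hd).1 h))
  have e2 : ncycOn S'.s (S'.R \ Zs S H) = ncycOn S'.s (W ∪ H) := by
    apply fb_eq
    · rintro d ⟨hd, hz⟩
      rw [hR] at hd
      rcases hd with hd | hd
      · have hz' : ∃ z ∈ H, S.s.SameCycle d z := by
          by_contra hcon
          push Not at hcon
          exact hz ⟨hd, hcon⟩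
        obtain ⟨z, hzH, h3⟩ := hz'
        obtain ⟨n, hn⟩ := fb_nat h3
        exact meets c hzH n d hd hn
      · exact ⟨d, Or.inl hd, Equiv.Perm.SameCycle.refl _ _⟩
    · intro d hd
      refine ⟨d, ⟨?_, ?_⟩, Equiv.Perm.SameCycle.refl _ _⟩
      · rw [hR]
        rcases hd with hd | hd
        · exact Or.inr hd
        · exact Or.inl (B_sub_R S (c.hH hd))
      · rintro ⟨h3, h4⟩
        rcases hd with hd | hd
        · exact c.hW d hd h3
        · exact h4 d hd (Equiv.Perm.SameCycle.refl _ _)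
  have e3 : ncycOn S'.s (Zs S H) = ncycOn S.s (Zs S H) := fb_agree fun d hd e _ => zs_same c hd
  have e4 : ncycOn S.s S.R = ncycOn S.s (Zs S H) + ncycOn S.s (S.R \ Zs S H) := by
    rw [← fb_union]
    · congr 1
      ext d
      constructor
      · intro hd
        by_cases hz : d ∈ Zs S H
        · exact Or.inl hz
        · exact Or.inr ⟨hd, hz⟩
      · rintro (hd | hd)
        · exact hd.1
        · exact hd.1
    · intro d hd e he h
      exact he.2 (zs_closed c hd h)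
  have e5 : ncycOn S.s (S.R \ Zs S H) = ncycOn S.s H := by
    apply fb_eq
    · rintro d ⟨hd, hz⟩
      by_contra hcon
      push Not at hcon
      exact hz ⟨hd, hcon⟩
    · intro d hd
      refine ⟨d, ⟨B_sub_R S (c.hH hd), ?_⟩, Equiv.Perm.SameCycle.refl _ _⟩
      rintro ⟨h3, h4⟩
      exact h4 d hd (Equiv.Perm.SameCycle.refl _ _)
  have e6 : ncycOn S.s S.B = ncycOn S.s (S.B \ H) + ncycOn S.s H := by
    rw [← fb_union]
    · congr 1
      ext d
      constructor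
      · intro hd
        by_cases hz : d ∈ H
        · exact Or.inr hz
        · exact Or.inl ⟨hd, hz⟩
      · rintro (hd | hd)
        · exact hd.1
        · exact c.hH hd
    · intro d hd e he h
      exact hd.2 (hun e he d hd.1 h.symm)
  have hBZ : ∀ d ∈ S.B \ H, d ∈ Zs S H := by
    rintro d ⟨hd, hH⟩
    refine ⟨B_sub_R S hd, fun z hz h => hH (hun z hz d hd h.symm)⟩
  have e7 : ncycOn S'.s S'.B = ncycOn S.s (S.B \ H) := by
    rw [cor_B c]
    exact fb_agree fun d hd e _ => zs_same c (hBZ d hd)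
  omega

private theorem cor_V (c : Cor S S' W H f α) (hnx : ∀ d, S.nx d ∈ H ↔ d ∈ H) :
    ncycOn S'.s (W ∪ H) = ncycOn (f * restr S.nx H hnx * α) (W ∪ H) := by
  rw [← ncycOn_ret]
  symm
  apply ncycOn_congr
  · intro d
    by_cases hd : d ∈ W ∪ H
    · obtain ⟨j, h1, h2, h3⟩ := ret_spec S'.s hd
      exact ⟨fun _ => hd, fun _ => h2⟩
    · rw [ret_not_mem S'.s hd]
  · intro d hd
    exact (cor_ret c hnx hd).symm

private theorem cor_conn (c : Cor S S' W H f α) (hnx : ∀ d, S.nx d ∈ H ↔ d ∈ H) {Z : Set D} (hZ : Z ⊆ W ∪ H) :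
    (∀ d ∈ Z, S'.a d ∈ Z ∧ (d ∉ S.R → S'.f d ∈ Z) ∧ (d ∈ S.B → S.nx d ∈ Z)) ↔
      ∀ d ∈ Z, α d ∈ Z ∧ f d ∈ Z ∧ restr S.nx H hnx d ∈ Z := by
  refine forall_congr' fun d => forall_congr' fun hd => ?_
  rw [ca_Y c (hZ hd)]
  refine and_congr_right fun _ => ?_
  rcases hZ hd with h | h
  · have h1 : d ∉ S.R := c.hW d h
    have h2 : d ∉ S.B := fun h' => h1 (B_sub_R S h')
    have h3 : d ∉ H := fun h' => h2 (c.hH h')
    rw [restr_not_mem S.nx hnx h3, cf_W c h]
    exact ⟨fun h' => ⟨h'.1 h1, hd⟩, fun h' => ⟨fun _ => h'.1, fun h4 => absurd h4 h2⟩⟩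
  · have h2 : d ∈ S.B := c.hH h
    have h1 : d ∈ S.R := B_sub_R S h2
    rw [restr_mem S.nx hnx h, c.f_off d (cor_nW c h1)]
    exact ⟨fun h' => ⟨hd, h'.2 h2⟩, fun h' => ⟨fun h4 => absurd h1 h4, fun _ => h'.2⟩⟩

end

/-- from a part to a pair -/
private theorem cor_of {S S' : Part D} {W H : Set D} (hH : H ⊆ S.B) (hW : ∀ d ∈ W, d ∉ S.R) (hs : S.Sub S')
    (hB : S'.B = S.B \ H) (hR : S'.R \ S.R = W) :
    Cor S S' W H (S.f⁻¹ * S'.f) (S.a⁻¹ * S'.a) ∧ ∀ d, (S.f⁻¹ * S'.f) ((S.f⁻¹ * S'.f) ((S.f⁻¹ * S'.f) d)) = d := by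
  have hR' : ∀ d, S'.f d ∈ S.R ↔ d ∈ S.R := by
    intro d
    constructor
    · intro h
      have h1 : S'.f (S'.f d) = S.f (S'.f d) := hs.1 _ h
      have h2 : S'.f d ∈ S.R := h
      have h3 : S.f (S'.f d) ∈ S.R := (mem_R_f S _).2 h2
      have h4 : S'.f (S.f (S'.f d)) = S.f (S.f (S'.f d)) := hs.1 _ h3
      have h5 := S'.fff d
      rw [h1, h4] at h5
      rw [← h5]
      exact (mem_R_f S _).2 h3
    · intro h
      rw [hs.1 d h]
      exact (mem_R_f S d).2 h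
  -- values of `f`
  have fR : ∀ d ∈ S.R, (S.f⁻¹ * S'.f) d = d := by
    intro d hd
    rw [Equiv.Perm.mul_apply, Equiv.Perm.inv_eq_iff_eq]
    exact hs.1 d hd
  have fnR : ∀ d ∉ S.R, (S.f⁻¹ * S'.f) d = S'.f d := by
    intro d hd
    rw [Equiv.Perm.mul_apply, Equiv.Perm.inv_eq_iff_eq]
    exact (not_not.1 (fun h => hd ((hR' d).1 h))).symm
  -- `Y` is invariant under `S'.a` and fixed by `S.a`
  have hYf : ∀ d ∈ W ∪ H, S.a d = d := fun d hd => Sa_fix hH hW hd
  have hYne : ∀ d ∈ W ∪ H, S'.a d ≠ d := by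
    intro d hd h
    have hdR : d ∈ S'.R := by
      rcases hd with hd | hd
      · rw [← hR] at hd
        exact hd.1
      · exact hs.R_sub (B_sub_R S (hH hd))
    have h1 : d ∈ S'.B := ⟨hdR, h⟩
    rw [hB] at h1
    rcases hd with hd | hd
    · exact hW d hd (B_sub_R S h1.1)
    · exact h1.2 hd
  have hnY : ∀ d ∉ W ∪ H, S'.a d = S.a d := by
    intro d hd
    by_cases h1 : S.a d = d
    · by_cases h2 : d ∈ S'.R
      · have h3 : d ∈ S.R := by
          by_contra h4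
          exact hd (Or.inl (by rw [← hR]; exact ⟨h2, h4⟩))
        have h5 : d ∈ S'.B := by
          rw [hB]
          exact ⟨⟨h3, h1⟩, fun h => hd (Or.inr h)⟩
        rw [h5.2, h1]
      · rw [S'.af d (not_not.1 h2), h1]
    · exact hs.2 d h1
  have hYm : ∀ d ∈ W ∪ H, S'.a d ∈ W ∪ H := by
    intro d hd
    by_contra h
    have h1 := hnY _ h
    rw [S'.aa] at h1
    have h2 : S.a (S.a (S'.a d)) = S'.a d := S.aa _
    rw [← h1, hYf d hd] at h2
    exact hYne d hd h2.symm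
  have aY : ∀ d ∈ W ∪ H, (S.a⁻¹ * S'.a) d = S'.a d := by
    intro d hd
    rw [Equiv.Perm.mul_apply, Equiv.Perm.inv_eq_iff_eq]
    exact (hYf _ (hYm d hd)).symm
  have anY : ∀ d ∉ W ∪ H, (S.a⁻¹ * S'.a) d = d := by
    intro d hd
    rw [Equiv.Perm.mul_apply, Equiv.Perm.inv_eq_iff_eq]
    exact hnY d hd
  refine ⟨⟨hH, hW, ?_, ?_, ?_, ?_, ?_, ?_, ?_⟩, ?_⟩
  · intro d
    exact (S.f.apply_symm_apply (S'.f d)).symm
  · intro d
    exact (S.a.apply_symm_apply (S'.a d)).symm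
  · intro d hd
    by_cases h : d ∈ S.R
    · exact fR d h
    · rw [fnR d h]
      by_contra h1
      exact hd (by rw [← hR]; exact ⟨h1, h⟩)
  · intro d hd
    rw [fnR d (hW d hd)]
    rw [← hR] at hd
    exact hd.1
  · exact anY
  · intro d hd
    rw [aY d hd]
    exact hYne d hd
  · intro d
    by_cases hd : d ∈ W ∪ H
    · rw [aY d hd, aY _ (hYm d hd), S'.aa]
    · rw [anY d hd, anY d hd]
  · intro d
    by_cases hd : d ∈ S.R
    · rw [fR d hd, fR d hd, fR d hd]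
    · have h1 : S'.f d ∉ S.R := fun h => hd ((hR' d).1 h)
      have h2 : S'.f (S'.f d) ∉ S.R := fun h => h1 ((hR' _).1 h)
      rw [fnR d hd, fnR _ h1, fnR _ h2, S'.fff]

/-- from a pair to a part -/
private theorem cor_mk {S : Part D} {W H : Set D} (hH : H ⊆ S.B) (hW : ∀ d ∈ W, d ∉ S.R) {f α : Equiv.Perm D}
    (f_off : ∀ d ∉ W, f d = d) (f_on : ∀ d ∈ W, f d ≠ d) (fff : ∀ d, f (f (f d)) = d)
    (a_off : ∀ d ∉ W ∪ H, α d = d) (a_on : ∀ d ∈ W ∪ H, α d ≠ d) (aa : ∀ d, α (α d) = d) :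
    ∃ S' : Part D, S'.f = S.f * f ∧ S'.a = S.a * α ∧ Cor S S' W H f α := by
  have haa : ∀ d, (S.a * α) ((S.a * α) d) = d := by
    intro d
    simp only [Equiv.Perm.mul_apply]
    by_cases hd : d ∈ W ∪ H
    · rw [Sa_fix hH hW (perm_mem a_off a_on hd), aa, Sa_fix hH hW hd]
    · have h1 : S.a d ∉ W ∪ H := by
        intro h
        have h2 := Sa_fix hH hW h
        rw [S.aa] at h2
        rw [← h2] at h
        exact hd h
      rw [a_off d hd, a_off _ h1, S.aa]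
  have hf1 : ∀ d ∈ W, (S.f * f) d = f d := by
    intro d hd
    rw [Equiv.Perm.mul_apply, Sf_fix hW (perm_mem f_off f_on hd)]
  have hf2 : ∀ d ∉ W, (S.f * f) d = S.f d := by
    intro d hd
    rw [Equiv.Perm.mul_apply, f_off d hd]
  have hf3 : ∀ d ∉ W, S.f d ∉ W := by
    intro d hd h
    have h1 : d ∉ S.R := fun h' => hW _ h ((mem_R_f S d).2 h')
    have h2 : S.f d = d := not_not.1 h1
    rw [h2] at h
    exact hd h
  have hfff : ∀ d, (S.f * f) ((S.f * f) ((S.f * f) d)) = d := by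
    intro d
    by_cases hd : d ∈ W
    · have h1 := perm_mem f_off f_on hd
      have h2 := perm_mem f_off f_on h1
      rw [hf1 d hd, hf1 _ h1, hf1 _ h2, fff]
    · have h1 := hf3 d hd
      have h2 := hf3 _ h1
      rw [hf2 d hd, hf2 _ h1, hf2 _ h2, S.fff]
  have haf : ∀ d, (S.f * f) d = d → (S.a * α) d = d := by
    intro d hd
    by_cases h : d ∈ W
    · rw [hf1 d h] at hd
      exact absurd hd (f_on d h)
    · rw [hf2 d h] at hd
      have h1 : d ∉ S.R := fun h' => h' hd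
      have h2 : d ∉ W ∪ H := by
        rintro (h' | h')
        · exact h h'
        · exact h1 (B_sub_R S (hH h'))
      rw [Equiv.Perm.mul_apply, a_off d h2, S.af d hd]
  exact ⟨⟨S.a * α, S.f * f, haa, hfff, haf⟩, rfl, rfl, hH, hW, fun _ => rfl, fun _ => rfl, f_off, f_on, a_off, a_on, aa⟩

/-- the pairs are the images of the parts -/
private theorem fill_pairs (S : Part D) {W H : Set D} (hH : H ⊆ S.B)
    (hun : ∀ d ∈ H, ∀ e ∈ S.B, S.s.SameCycle d e → e ∈ H) (hnx : ∀ d, S.nx d ∈ H ↔ d ∈ H)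
    (hW : ∀ d ∈ W, d ∉ S.R) {F : ℕ} (hF : W.ncard = 3 * F) (V : ℕ) :
    {S' : Part D | S.FillBy S' H F V ∧ S'.R \ S.R = W}.ncard =
      {q : Equiv.Perm D × Equiv.Perm D | PairOn W H (restr S.nx H hnx) V q.1 q.2}.ncard := by
  have hinj : Function.Injective (fun S' : Part D => (S.f⁻¹ * S'.f, S.a⁻¹ * S'.a)) := by
    intro S1 S2 h
    have h1 : S.f⁻¹ * S1.f = S.f⁻¹ * S2.f := congrArg Prod.fst h
    have h2 : S.a⁻¹ * S1.a = S.a⁻¹ * S2.a := congrArg Prod.snd h
    exact Part.ext' (mul_left_cancel h2) (mul_left_cancel h1)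
  rw [← Set.ncard_image_of_injective _ hinj]
  congr 1
  ext q
  constructor
  · rintro ⟨S', ⟨hf, hR⟩, rfl⟩
    obtain ⟨c, hfff⟩ := cor_of hH hW hf.sub hf.B hR
    show PairOn W H (restr S.nx H hnx) V (S.f⁻¹ * S'.f) (S.a⁻¹ * S'.a)
    refine ⟨c.f_off, c.f_on, hfff, c.a_off, c.a_on, c.aa, ?_, ?_⟩
    · intro Z hZ hne h
      have h1 := hf.conn Z (by rw [hR]; exact hZ) hne ((cor_conn c hnx hZ).2 h)
      rw [hR] at h1
      exact h1
    · rw [← cor_V c hnx]
      have h1 := hf.inn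
      rw [cor_inn c hun] at h1
      exact Nat.add_left_cancel h1
  · intro hq
    obtain ⟨f, α⟩ := q
    have hq' : PairOn W H (restr S.nx H hnx) V f α := hq
    obtain ⟨S', e1, e2, c⟩ := cor_mk hH hW hq'.f_off hq'.f_on hq'.fff hq'.a_off hq'.a_on hq'.aa
    have hR := cor_R c
    have hRW : S'.R \ S.R = W := by
      rw [hR]
      ext d
      constructor
      · rintro ⟨h1, h2⟩
        exact h1.resolve_left h2
      · intro h
        exact ⟨Or.inr h, hW d h⟩
    refine ⟨S', ⟨⟨cor_sub c, cor_B c, ?_, ?_, ?_⟩, hRW⟩, ?_⟩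
    · rw [hR, Set.ncard_union_eq ?_ (Set.toFinite _) (Set.toFinite _), hF]
      rw [Set.disjoint_left]
      intro d h1 h2
      exact hW d h2 h1
    · rw [cor_inn c hun, cor_V c hnx, hq'.V]
    · intro Z hZ hne h
      rw [hRW] at hZ ⊢
      exact hq'.conn Z hZ hne ((cor_conn c hnx hZ).1 h)
    · show (S.f⁻¹ * S'.f, S.a⁻¹ * S'.a) = (f, α)
      rw [e1, e2, inv_mul_cancel_left, inv_mul_cancel_left]

private theorem fr_val {n : ℕ} (k : Fin n) : ((finRotate n k : Fin n) : ℕ) = if (k : ℕ) + 1 = n then 0 else (k : ℕ) + 1 := by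
  cases n with
  | zero => exact k.elim0
  | succ n =>
    rw [finRotate_succ_apply, Fin.val_add_one]
    by_cases h : k = Fin.last n
    · rw [if_pos h, if_pos (by rw [h, Fin.val_last])]
    · rw [if_neg h, if_neg]
      intro h1
      apply h
      apply Fin.ext
      rw [Fin.val_last]
      omega

private theorem nx_same (S : Part D) {d : D} (hd : d ∈ S.B) : S.nx d ∈ S.B ∧ S.s.SameCycle d (S.nx d) := by
  have h := nx_pow_same S hd 1
  rw [pow_one] at h
  exact h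

private theorem hw_inj (S : Part D) {x : D} (hx : x ∈ S.B) {i j : ℕ} (hi : i < S.per x) (hj : j < S.per x)
    (h : (S.nx ^ i) x = (S.nx ^ j) x) : i = j := by
  have h1 := hw_nodup S hx
  unfold hw at h1
  exact List.inj_on_of_nodup_map h1 (List.mem_range.2 hi) (List.mem_range.2 hj) h

private theorem hw_ex (S : Part D) {x d : D} (hx : x ∈ S.B) (hd : d ∈ S.B) (h : S.s.SameCycle x d) :
    ∃ k < S.per x, (S.nx ^ k) x = d := by
  have h1 : d ∈ S.hw x := (mem_hw S hx).2 ⟨hd, h⟩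
  unfold hw at h1
  obtain ⟨k, hk, h2⟩ := List.mem_map.1 h1
  exact ⟨k, List.mem_range.1 hk, h2⟩

private theorem nx_per (S : Part D) {x : D} (hx : x ∈ S.B) : (S.nx ^ S.per x) x = x := by
  obtain ⟨h1, h2⟩ := nx_pow_same S hx (S.per x)
  obtain ⟨k, hk, h3⟩ := hw_ex S hx h1 h2
  have hp := S.per_pos hx
  rcases Nat.eq_zero_or_pos k with h0 | h0
  · rw [h0] at h3
    exact h3.symm
  · exfalso
    obtain ⟨m, hm⟩ : ∃ m, S.per x = m + 1 := ⟨S.per x - 1, by omega⟩
    obtain ⟨l, hl⟩ : ∃ l, k = l + 1 := ⟨k - 1, by omega⟩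
    rw [hm, hl, pow_succ', pow_succ', Equiv.Perm.mul_apply, Equiv.Perm.mul_apply] at h3
    have h4 := S.nx.injective h3
    have h5 := hw_inj S hx (i := l) (j := m) (by omega) (by omega) h4
    omega

theorem fill_card_W (S : Part D) {ι : Type} [Fintype ι] (h : ι → D) (hB : ∀ i, h i ∈ S.B)
    (hne : ∀ i j, S.s.SameCycle (h i) (h j) → i = j) {W : Set D} (hW : ∀ d ∈ W, d ∉ S.R) {F : ℕ} (hF : W.ncard = 3 * F) (V : ℕ) :
    (({S' : Part D | S.FillBy S' {d | d ∈ S.B ∧ ∃ i, S.s.SameCycle (h i) d} F V ∧ S'.R \ S.R = W}.ncard : ℕ) : ℚ) =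
      ((3 * F).factorial : ℚ) * mu (fun i => S.per (h i)) F V := by
  obtain ⟨H, hHd⟩ : ∃ H, H = {d | d ∈ S.B ∧ ∃ i, S.s.SameCycle (h i) d} := ⟨_, rfl⟩
  rw [← hHd]
  have mH : ∀ d, d ∈ H ↔ d ∈ S.B ∧ ∃ i, S.s.SameCycle (h i) d := by
    intro d
    rw [hHd]
    exact Iff.rfl
  have hH : H ⊆ S.B := fun d hd => ((mH d).1 hd).1
  have hun : ∀ d ∈ H, ∀ e ∈ S.B, S.s.SameCycle d e → e ∈ H := by
    intro d hd e he hde
    obtain ⟨-, i, hi⟩ := (mH d).1 hd
    exact (mH e).2 ⟨he, i, hi.trans hde⟩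
  have hnx : ∀ d, S.nx d ∈ H ↔ d ∈ H := by
    intro d
    constructor
    · intro h1
      have h2 : d ∈ S.B := (nx_mem S).1 (hH h1)
      exact hun _ h1 d h2 (nx_same S h2).2.symm
    · intro h1
      have h2 := nx_same S (hH h1)
      exact hun _ h1 _ h2.1 h2.2
  rw [fill_pairs S hH hun hnx hW hF V]
  refine pair_card ?_ hF (fun d hd => restr_not_mem S.nx hnx hd) (fun i => S.per (h i)) (fun i => S.per_pos (hB i))
    (fun q : (Σ i : ι, Fin (S.per (h i))) => (S.nx ^ (q.2 : ℕ)) (h q.1)) ?_ ?_ ?_ V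
  · rw [Set.disjoint_left]
    intro d h1 h2
    exact hW d h1 (B_sub_R S (hH h2))
  · rintro ⟨i, k⟩ ⟨j, l⟩ hij
    have hij' : (S.nx ^ (k : ℕ)) (h i) = (S.nx ^ (l : ℕ)) (h j) := hij
    have h1 := (nx_pow_same S (hB i) k).2
    have h2 := (nx_pow_same S (hB j) l).2
    rw [← hij'] at h2
    have h3 : i = j := hne i j (h1.trans h2.symm)
    subst h3
    have h4 := hw_inj S (hB i) k.2 l.2 hij'
    have h5 : k = l := Fin.ext h4
    rw [h5]
  · ext d
    constructor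
    · rintro ⟨⟨i, k⟩, rfl⟩
      have h1 := nx_pow_same S (hB i) k
      exact (mH _).2 ⟨h1.1, i, h1.2⟩
    · intro hd
      obtain ⟨h1, i, h2⟩ := (mH d).1 hd
      obtain ⟨k, hk, h3⟩ := hw_ex S (hB i) h1 h2
      exact ⟨⟨i, ⟨k, hk⟩⟩, h3⟩
  · intro i k
    show restr S.nx H hnx ((S.nx ^ (k : ℕ)) (h i)) = (S.nx ^ ((finRotate (S.per (h i)) k : Fin (S.per (h i))) : ℕ)) (h i)
    have h1 := nx_pow_same S (hB i) k
    rw [restr_mem S.nx hnx ((mH _).2 ⟨h1.1, i, h1.2⟩), fr_val, ← Equiv.Perm.mul_apply, ← pow_succ']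
    by_cases h2 : (k : ℕ) + 1 = S.per (h i)
    · rw [if_pos h2, h2, nx_per S (hB i)]
      rfl
    · rw [if_neg h2]

end Part
end SYS
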