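import Pool.Agent.SYS.Lib.CntB

/-!
# SYS-Lib-CntC: number of fillings

PLAN.  `fill_card`: the fillings are the disjoint union over `W ⊆ Rᶜ` with `|W| = 3F` (`W = S'.R \ S.R`; `S.R ⊆ S'.R` by `Sub.R_sub`, so `|W| = 3F` from the field `R`) of the sets of
`fill_card_W`; the number of `W` is `N.choose (3F)` (`Finset.card_powersetCard` for `(Rᶜ).toFinset`), and `choose * (3F)! = descFactorial` (`Nat.descFactorial_eq_factorial_mul_choose`).
`ext_card_mu`: `T ↦ ofTri T` is a bijection from `{T ∈ Ext S g | HConn}` onto `{S' | FillBy S S' S.B F V}` with `V + inn S = n + 2 - 2 g`: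
* `S.Le T ↔ S.Sub (ofTri T)` (`le_iff_sub`), `(ofTri T).B = ∅`, `(ofTri T).R = univ`, so the fields `B`, `R` hold (`3F = |Rᶜ|`); conversely a filling with `S'.B = ∅` and `S'.R = univ`
  is `ofTri` of a triangulation (`S'.f d ≠ d` for all `d`, and `S'.a d ≠ d` since `d ∉ S'.B`);
* `conn` ↔ `HConn` (`X = Rᶜ ∪ B`; closed sets of the steps; `hc_ind`);
* `inn (ofTri T) = Nat.card T.V` (`inn_tri`) and `T.Genus n g` is `Nat.card T.V + 2 g = n + 2`;
* `T.Conn` follows from `HConn` and `tc`: let `Z` be nonempty and closed under `T.a`, `T.f`; `Z` contains a dart of `X` (if `d ∈ Z ∩ R`: `Z` contains everything connected to `d` in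
  `S`, in particular a boundary dart), hence it contains `X` (`hc_ind`; for `nx` steps: `nx d` is connected to `d` in `S`), in particular all of `B`, and so all of `R` by `tc`.
`Ext S g` is a set of `T ∈ Trn n g`.  If `V + inn S = n + 2 - 2 g` is impossible (`n + 2 < 2 g + inn S`), both sides are `0` in `ext_card_none`.
-/

namespace SYS
namespace Part

open Classical SST

variable {D : Type} [Finite D]

theorem fill_card (S : Part D) {ι : Type} [Fintype ι] (h : ι → D) (hB : ∀ i, h i ∈ S.B)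
    (hne : ∀ i j, S.s.SameCycle (h i) (h j) → i = j) (F V : ℕ) :
    (({S' : Part D | S.FillBy S' {d | d ∈ S.B ∧ ∃ i, S.s.SameCycle (h i) d} F V}.ncard : ℕ) : ℚ) =
      ((S.Rᶜ.ncard.descFactorial (3 * F) : ℕ) : ℚ) * mu (fun i => S.per (h i)) F V := by
  set H : Set D := {d | d ∈ S.B ∧ ∃ i, S.s.SameCycle (h i) d} with hH
  let A : Finset (Part D) := (Set.toFinite {S' : Part D | S.FillBy S' H F V}).toFinset
  let t : Finset (Finset D) := Finset.powersetCard (3 * F) (Set.toFinite S.Rᶜ).toFinset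
  let φ : Part D → Finset D := fun S' => (Set.toFinite (S'.R \ S.R)).toFinset
  have hA : ∀ S', S' ∈ A ↔ S.FillBy S' H F V := fun S' => by
    simp only [A, Set.Finite.mem_toFinset, Set.mem_ofPred_eq]
  have hφ : ∀ S' ∈ A, φ S' ∈ t := by
    intro S' hS'
    have hF := (hA S').1 hS'
    rw [Finset.mem_powersetCard]
    refine ⟨?_, ?_⟩
    · intro d hd
      rw [Set.Finite.mem_toFinset] at hd ⊢
      exact hd.2
    · have h1 : (S'.R \ S.R).ncard + S.R.ncard = S'.R.ncard :=
        Set.ncard_sdiff_add_ncard_of_subset (Sub.R_sub hF.sub) (Set.toFinite _)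
      rw [← Set.ncard_eq_toFinset_card]
      have h2 := hF.R
      omega
  have h1 := Finset.card_eq_sum_card_fiberwise (f := φ) (s := A) (t := t) hφ
  have h2 : {S' : Part D | S.FillBy S' H F V}.ncard = A.card := Set.ncard_eq_toFinset_card _ _
  rw [h2, h1]
  push_cast
  have h3 : ∀ W ∈ t, ((A.filter (fun S' => φ S' = W)).card : ℚ) = ((3 * F).factorial : ℚ) * mu (fun i => S.per (h i)) F V := by
    intro W hW
    rw [Finset.mem_powersetCard] at hW
    have hW1 : ∀ d ∈ (W : Set D), d ∉ S.R := by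
      intro d hd
      have := hW.1 hd
      rw [Set.Finite.mem_toFinset] at this
      exact this
    have hW2 : (W : Set D).ncard = 3 * F := by
      rw [Set.ncard_coe_finset]
      exact hW.2
    rw [← fill_card_W S h hB hne hW1 hW2 V, ← Set.ncard_coe_finset]
    congr 2
    ext S'
    rw [Finset.mem_coe, Finset.mem_filter, hA, Set.mem_ofPred_eq]
    refine and_congr Iff.rfl ?_
    constructor
    · intro hh
      rw [← hh]
      simp only [φ, Set.Finite.coe_toFinset]
    · intro hh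
      apply Finset.coe_injective
      simp only [φ, Set.Finite.coe_toFinset]
      exact hh
  rw [Finset.sum_congr rfl h3, Finset.sum_const, nsmul_eq_mul, Finset.card_powersetCard,
    ← Set.ncard_eq_toFinset_card, Nat.descFactorial_eq_factorial_mul_choose]
  push_cast
  ring

private theorem cnt_Rf {S : Part D} {T : Tri D} (hle : S.Le T) (d : D) : T.f d ∈ S.R ↔ d ∈ S.R := by
  have h1 : ∀ d ∈ S.R, T.f d ∈ S.R := by
    intro d hd
    rw [hle.1 d hd, S.mem_R_f]
    exact hd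
  refine ⟨fun h => ?_, h1 d⟩
  have h2 := h1 _ (h1 _ h)
  rw [T.fff] at h2
  exact h2

private theorem cnt_ofTri_R (T : Tri D) : (ofTri T).R = Set.univ := by
  rw [Set.eq_univ_iff_forall]
  exact fun d => T.fne d

private theorem cnt_ofTri_B (T : Tri D) : (ofTri T).B = ∅ := by
  rw [Set.eq_empty_iff_forall_notMem]
  exact fun d hd => T.ane d hd.2

/-- a set closed under the steps contains everything hidden-connected to one of its darts -/
private theorem cnt_closed {S : Part D} {T : Tri D} (hle : S.Le T) {Z : Set D}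
    (hZ : ∀ d ∈ Z, T.a d ∈ Z ∧ (d ∉ S.R → T.f d ∈ Z) ∧ (d ∈ S.B → S.nx d ∈ Z)) {d e : D} (hd : d ∈ Z)
    (h : S.Hc T d e) : e ∈ Z := by
  have key : d ∈ Z ↔ e ∈ Z := by
    refine hc_ind (S := S) (T := T) (fun d e => d ∈ Z ↔ e ∈ Z) (fun _ => Iff.rfl) (fun _ _ h => h.symm)
      (fun _ _ _ h1 h2 => h1.trans h2) ?_ ?_ ?_ h
    · intro d _
      refine ⟨fun hd => (hZ d hd).1, fun hd => ?_⟩
      have := (hZ _ hd).1
      rw [T.aa] at this
      exact this
    · intro d hdR
      refine ⟨fun hd => (hZ d hd).2.1 hdR, fun hd => ?_⟩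
      have h1 : T.f d ∉ S.R := fun h' => hdR ((cnt_Rf hle d).1 h')
      have h2 : T.f (T.f d) ∉ S.R := fun h' => h1 ((cnt_Rf hle _).1 h')
      have h3 := (hZ _ ((hZ _ hd).2.1 h1)).2.1 h2
      rw [T.fff] at h3
      exact h3
    · intro d hdB
      refine ⟨fun hd => (hZ d hd).2.2 hdB, fun hd => ?_⟩
      have h1 : ∀ k : ℕ, (S.nx ^ (k + 1)) d ∈ Z ∧ (S.nx ^ (k + 1)) d ∈ S.B := by
        intro k
        induction k with
        | zero =>
          rw [zero_add, pow_one]
          exact ⟨hd, S.nx_mem.2 hdB⟩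
        | succ k ih =>
          rw [pow_succ', Equiv.Perm.mul_apply]
          exact ⟨(hZ _ ih.1).2.2 ih.2, S.nx_mem.2 ih.2⟩
      obtain ⟨m, hm, hm1⟩ := (isOfFinOrder_iff_pow_eq_one.1 (isOfFinOrder_of_finite S.nx))
      have h2 := (h1 (m - 1)).1
      rw [Nat.sub_add_cancel hm, hm1] at h2
      exact h2
  exact key.1 hd

private theorem cnt_cn {S : Part D} {T : Tri D} (hle : S.Le T) {Z : Set D} (hZ : ∀ d ∈ Z, T.a d ∈ Z ∧ T.f d ∈ Z) {d e : D}
    (h : S.Cn d e) : d ∈ Z ↔ e ∈ Z := by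
  have hf : ∀ d, d ∈ Z ↔ T.f d ∈ Z := by
    intro d
    refine ⟨fun hd => (hZ d hd).2, fun hd => ?_⟩
    have := (hZ _ (hZ _ hd).2).2
    rw [T.fff] at this
    exact this
  have ha : ∀ d, d ∈ Z ↔ T.a d ∈ Z := by
    intro d
    refine ⟨fun hd => (hZ d hd).1, fun hd => ?_⟩
    have := (hZ _ hd).1
    rw [T.aa] at this
    exact this
  unfold Cn at h
  induction h with
  | rel u v huv =>
    rcases huv with huv | huv
    · by_cases h1 : S.a u = u
      · rw [huv, h1]
      · rw [huv, ← hle.2 u h1]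
        exact ha u
    · by_cases h1 : S.f u = u
      · rw [huv, h1]
      · rw [huv, ← hle.1 u h1]
        exact hf u
  | refl u => exact Iff.rfl
  | symm u v _ ih => exact ih.symm
  | trans u v w _ _ ih1 ih2 => exact ih1.trans ih2

private theorem cnt_conn {S : Part D} {T : Tri D} (hle : S.Le T) (hc : S.HConn T)
    (tc : ∀ d ∈ S.R, ∃ e ∈ S.B, S.Cn d e) : T.Conn := by
  intro Z hne hZ
  have h1 : ∃ x ∈ Z, x ∈ S.X := by
    obtain ⟨d, hd⟩ := hne
    by_cases hR : d ∈ S.R
    · obtain ⟨e, he, hde⟩ := tc d hR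
      exact ⟨e, (cnt_cn hle hZ hde).1 hd, Or.inr he⟩
    · exact ⟨d, hd, Or.inl hR⟩
  obtain ⟨x, hxZ, hxX⟩ := h1
  have h2 : ∀ e ∈ S.X, e ∈ Z := by
    intro e he
    refine cnt_closed hle (Z := Z) ?_ hxZ (hc x hxX e he)
    intro d hd
    refine ⟨(hZ d hd).1, fun _ => (hZ d hd).2, fun hB => ?_⟩
    have h3 := (nx_pow_same S hB 1).2
    rw [pow_one] at h3
    exact (cnt_cn hle hZ (cn_of_same h3)).1 hd
  rw [Set.eq_univ_iff_forall]
  intro d
  by_cases hR : d ∈ S.R
  · obtain ⟨e, he, hde⟩ := tc d hR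
    exact (cnt_cn hle hZ hde).2 (h2 e (Or.inr he))
  · exact h2 d (Or.inl hR)

theorem ext_card_mu {n g F V : ℕ} (S : Part (Fin (6 * n))) {ι : Type} [Fintype ι] (h : ι → Fin (6 * n)) (hB : ∀ i, h i ∈ S.B)
    (hne : ∀ i j, S.s.SameCycle (h i) (h j) → i = j) (hall : ∀ d ∈ S.B, ∃ i, S.s.SameCycle (h i) d)
    (tc : ∀ d ∈ S.R, ∃ e ∈ S.B, S.Cn d e) (hF : S.R.ncard + 3 * F = 6 * n) (hV : V + S.inn + 2 * g = n + 2) :
    (({T | T ∈ S.Ext g ∧ S.HConn T}.ncard : ℕ) : ℚ) = ((3 * F).factorial : ℚ) * mu (fun i => S.per (h i)) F V := by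
  have hcard : S.R.ncard + S.Rᶜ.ncard = 6 * n := by
    rw [Set.ncard_add_ncard_compl, Nat.card_eq_fintype_card, Fintype.card_fin]
  have hW : S.Rᶜ.ncard = 3 * F := by omega
  rw [← fill_card_W S h hB hne (W := S.Rᶜ) (fun d hd => hd) hW V]
  congr 1
  have hHB : {d | d ∈ S.B ∧ ∃ i, S.s.SameCycle (h i) d} = S.B := by
    ext d
    exact ⟨fun h => h.1, fun h => ⟨h, hall d h⟩⟩
  rw [hHB]
  have hinj : Function.Injective (ofTri : Tri (Fin (6 * n)) → Part (Fin (6 * n))) := by
    intro T T' hTT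
    exact Tri.ext' (congrArg Part.a hTT) (congrArg Part.f hTT)
  rw [← Set.ncard_image_of_injective _ hinj]
  congr 1
  ext S'
  constructor
  · rintro ⟨T, ⟨⟨hT, hle⟩, hc⟩, rfl⟩
    refine ⟨⟨hle, ?_, ?_, ?_, ?_⟩, ?_⟩
    · rw [cnt_ofTri_B, Set.sdiff_self]
    · rw [cnt_ofTri_R, Set.ncard_univ, Nat.card_eq_fintype_card, Fintype.card_fin, hF]
    · rw [inn_tri]
      have := hT.2
      unfold Tri.Genus at this
      omega
    · intro Z hZX hne hZ
      refine Set.Subset.antisymm hZX ?_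
      obtain ⟨x, hx⟩ := hne
      have hmem : ∀ e, e ∈ (ofTri T).R \ S.R ∪ S.B → e ∈ S.X := by
        rintro e (he | he)
        · exact Or.inl he.2
        · exact Or.inr he
      intro e he
      exact cnt_closed hle (Z := Z) hZ hx (hc x (hmem x (hZX hx)) e (hmem e he))
    · rw [cnt_ofTri_R]
      exact (Set.compl_eq_univ_sdiff _).symm
  · rintro ⟨hfil, hR⟩
    have hR' : S'.R = Set.univ := by
      rw [Set.eq_univ_iff_forall]
      intro d
      by_cases hd : d ∈ S.R
      · exact Sub.R_sub hfil.sub hd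
      · have : d ∈ S'.R \ S.R := by rw [hR]; exact hd
        exact this.1
    have hB' : S'.B = ∅ := by
      rw [hfil.B, Set.sdiff_self]
    have hfne : ∀ d, S'.f d ≠ d := fun d => by
      have : d ∈ S'.R := by rw [hR']; exact Set.mem_univ d
      exact this
    have hane : ∀ d, S'.a d ≠ d := fun d hd => by
      have : d ∈ S'.B := ⟨hfne d, hd⟩
      rw [hB'] at this
      exact this
    let T : Tri (Fin (6 * n)) := ⟨S'.a, S'.f, S'.aa, hane, S'.fff, hfne⟩
    have hT : ofTri T = S' := Part.ext' rfl rfl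
    have hle : S.Le T := hfil.sub
    have hX : (S'.R \ S.R) ∪ S.B = S.X := by
      ext d
      constructor
      · rintro (hd | hd)
        · exact Or.inl hd.2
        · exact Or.inr hd
      · rintro (hd | hd)
        · exact Or.inl ⟨hfne d, hd⟩
        · exact Or.inr hd
    have hc : S.HConn T := by
      intro d hd e he
      have h1 := hfil.conn {e | e ∈ S.X ∧ S.Hc T d e} (by rw [hX]; exact fun x hx => hx.1) ⟨d, hd, hc_refl S T d⟩ (by
        rintro x ⟨hx, hdx⟩
        refine ⟨⟨(X_a hle x).2 hx, hc_trans hdx (hc_a hx)⟩, ?_, ?_⟩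
        · intro hxR
          refine ⟨Or.inl ?_, hc_trans hdx (hc_f hxR)⟩
          intro h'
          exact hxR ((cnt_Rf hle x).1 h')
        · intro hxB
          exact ⟨Or.inr (S.nx_mem.2 hxB), hc_trans hdx (hc_nx hxB)⟩)
      rw [hX] at h1
      have h2 : e ∈ {e | e ∈ S.X ∧ S.Hc T d e} := by rw [h1]; exact he
      exact h2.2
    refine ⟨T, ⟨⟨⟨cnt_conn hle hc tc, ?_⟩, hle⟩, hc⟩, hT⟩
    unfold Tri.Genus
    have h1 := inn_tri T
    rw [hT, hfil.inn] at h1
    omega

private theorem cnt_inn {S : Part D} {T : Tri D} (hle : S.Le T) : S.inn ≤ Nat.card T.V := by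
  have hpow : ∀ d ∈ S.R, (∀ e, S.s.SameCycle d e → e ∉ S.B) → ∀ k : ℕ, (T.s ^ k) d = (S.s ^ k) d ∧ (S.s ^ k) d ∈ S.R := by
    intro d hd hB k
    induction k with
    | zero => exact ⟨rfl, hd⟩
    | succ k ih =>
      rw [pow_succ', pow_succ', Equiv.Perm.mul_apply, Equiv.Perm.mul_apply, ih.1]
      refine ⟨?_, (S.mem_R_s _).2 ih.2⟩
      set u := (S.s ^ k) d with hu
      have huB : u ∉ S.B := hB u ⟨k, by rw [zpow_natCast]⟩
      have h1 : S.a u ≠ u := fun h' => huB ⟨ih.2, h'⟩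
      have h2 : S.a u ∈ S.R := (S.mem_R_a u).2 ih.2
      show T.f (T.a u) = S.f (S.a u)
      rw [hle.2 u h1, hle.1 _ h2]
  unfold inn
  have : Finite T.V := Quotient.finite _
  let φ : {q : Quotient (Equiv.Perm.SameCycle.setoid S.s) //
    ∃ d, Quotient.mk _ d = q ∧ d ∈ S.R ∧ ∀ e, S.s.SameCycle d e → e ∉ S.B} → T.V := fun q => T.tl q.2.choose
  refine Nat.card_le_card_of_injective φ ?_
  intro q q' hqq
  have h1 := q.2.choose_spec
  have h2 := q'.2.choose_spec
  have h3 : T.s.SameCycle q.2.choose q'.2.choose := Quotient.exact hqq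
  obtain ⟨m, -, hm⟩ := h3.exists_pow_eq'
  rw [(hpow _ h1.2.1 h1.2.2 m).1] at hm
  apply Subtype.ext
  rw [← h1.1, ← h2.1]
  exact Quotient.sound ⟨m, by rw [zpow_natCast]; exact hm⟩

theorem ext_card_none {n g : ℕ} (S : Part (Fin (6 * n))) (hV : n + 2 < S.inn + 2 * g) : S.Ext g = ∅ := by
  rw [Set.eq_empty_iff_forall_notMem]
  rintro T ⟨hT, hle⟩
  have h1 := cnt_inn hle
  have h2 := hT.2
  unfold Tri.Genus at h2
  omega

end Part
end SYS
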