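import Pool.Agent.SYS.Lib.Flat

/-!
# SYS-Lib-DW: words of darts which bound a disc, by peeling

Every flat labelling has product 1 on such words.
-/

namespace SYS

open Classical SST

variable {D : Type}

/-- `w` is reduced to `[]` by peeling. -/
inductive DW (T : Tri D) : List D → Prop
  | nil : DW T []
  | face (x : D) (v : List D) : DW T (T.f (T.a x) :: T.f (T.f (T.a x)) :: v) → DW T (x :: v)
  | glue (x : D) (u v : List D) : DW T u → DW T v → DW T (x :: (u ++ T.a x :: v))

theorem DW.hol_eq {G : Type} [Group G] {l : D → G} {T : Tri D} (h : Flat T l) {w : List D} (hw : DW T w) :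
    hol l w = 1 := by
  induction hw with
  | nil => exact hol_nil l
  | face x v _ ih =>
    have h1 := h.inv (T.a x)
    rw [T.aa] at h1
    have h2 := h.face (T.a x)
    rw [mul_assoc] at h2
    rw [hol_cons, hol_cons] at ih
    rw [hol_cons, h1, inv_eq_of_mul_eq_one_right h2, mul_assoc]
    exact ih
  | glue x u v _ _ ihu ihv =>
    rw [hol_cons, hol_append, hol_cons, ihu, ihv, h.inv, mul_one, one_mul, mul_inv_cancel]

theorem DW.nullHtp {T : Tri D} (hT : T.Conn) {w : List D} (hw : DW T w) (hc : T.Closed w) : T.NullHtp w := by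
  obtain ⟨v, hv⟩ := hc
  obtain ⟨d, _⟩ := Quotient.exists_rep v
  have : Nonempty D := ⟨d⟩
  obtain ⟨G, _, l, hl, hG⟩ := exists_flat T hT
  exact (hG w ⟨v, hv⟩).1 (hw.hol_eq hl)

end SYS
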