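import Pool.Agent.SYS.Lib.Pla

/-!
# SYS-Lib-ExplA: explored regions with `c` handles, their holonomy

`Expl T S c`: `S` is obtained from one face of `T` by peeling steps, of which `c` are gluings which do not close a disc.

`Expl.gauge`: induction; a gluing along a disc word needs no new generator (`DW.hol_eq`).
-/

namespace SYS
namespace Part

open Classical SST

variable {D : Type} [Finite D]

/-- Explored regions. -/
inductive Expl (T : Tri D) : Part D → ℕ → Prop
  | start (d : D) : Expl T ((emp : Part D).newTri d (T.f d) (T.f (T.f d)) (by simp [R, emp]) (by simp [R, emp])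
      (by simp [R, emp]) (tri_ne T d).1 (tri_ne T d).2.1 (tri_ne T d).2.2) 0
  | face (S : Part D) (c : ℕ) (x : D) (hx : x ∈ S.B) (h0 : T.a x ∉ S.R) (h1 : T.f (T.a x) ∉ S.R)
      (h2 : T.f (T.f (T.a x)) ∉ S.R) : Expl T S c →
      Expl T (S.face x (T.a x) (T.f (T.a x)) (T.f (T.f (T.a x))) hx h0 h1 h2 (tri_ne T _).1 (tri_ne T _).2.1
        (tri_ne T _).2.2) c
  | disc (S : Part D) (c : ℕ) (x y : D) (hx : x ∈ S.B) (hy : y ∈ S.B) (h : T.a x = y) (u v : List D)
      (hw : S.hw x = x :: (u ++ y :: v)) (hd : DW T u ∨ DW T v) : Expl T S c → Expl T (S.glue x y hx hy) c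
  | hand (S : Part D) (c : ℕ) (x y : D) (hx : x ∈ S.B) (hy : y ∈ S.B) (h : T.a x = y) : Expl T S c →
      Expl T (S.glue x y hx hy) (c + 1)

theorem Expl.le {T : Tri D} {S : Part D} {c : ℕ} (h : Expl T S c) : S.Le T := by
  induction h with
  | start d => exact newTri_le _ _ _ _ _ _ _ (emp_le T) rfl rfl
  | face S c x hx h0 h1 h2 _ ih => exact face_le S ih hx h0 h1 h2 _ _ _
  | disc S c x y hx hy h u v hw hd _ ih => exact glue_le S hx hy ih h
  | hand S c x y hx hy h _ ih => exact glue_le S hx hy ih h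

private theorem ex_f {T : Tri D} {S : Part D} (h : S.Le T) {d : D} (hd : d ∈ S.R) : S.f d = T.f d :=
  (h.1 d hd).symm

private theorem ex_start_R (T : Tri D) (d : D) (h0 h1 h2 h01 h12 h20) (e : D) :
    e ∈ ((emp : Part D).newTri d (T.f d) (T.f (T.f d)) h0 h1 h2 h01 h12 h20).R ↔
      e = d ∨ e = T.f d ∨ e = T.f (T.f d) := by
  rw [newTri_R]
  constructor
  · rintro (h | h)
    · exact absurd rfl h
    · exact h
  · intro h
    exact Or.inr h

theorem Expl.con {T : Tri D} {S : Part D} {c : ℕ} (h : Expl T S c) : S.Con := by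
  induction h with
  | start d =>
    have hle := (Expl.start (T := T) d).le
    have h1 : ∀ e ∈ ((emp : Part D).newTri d (T.f d) (T.f (T.f d)) (by simp [R, emp])
        (by simp [R, emp]) (by simp [R, emp]) (tri_ne T d).1 (tri_ne T d).2.1 (tri_ne T d).2.2).R,
        ((emp : Part D).newTri d (T.f d) (T.f (T.f d)) (by simp [R, emp])
        (by simp [R, emp]) (by simp [R, emp]) (tri_ne T d).1 (tri_ne T d).2.1
        (tri_ne T d).2.2).Cn d e := by
      intro e he
      have hd := (ex_start_R T d (by simp [R, emp]) (by simp [R, emp]) (by simp [R, emp])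
        (tri_ne T d).1 (tri_ne T d).2.1 (tri_ne T d).2.2 d).2 (Or.inl rfl)
      have hfd := (ex_start_R T d (by simp [R, emp]) (by simp [R, emp]) (by simp [R, emp])
        (tri_ne T d).1 (tri_ne T d).2.1 (tri_ne T d).2.2 (T.f d)).2 (Or.inr (Or.inl rfl))
      have h2 := cn_f ((emp : Part D).newTri d (T.f d) (T.f (T.f d)) (by simp [R, emp])
        (by simp [R, emp]) (by simp [R, emp]) (tri_ne T d).1 (tri_ne T d).2.1 (tri_ne T d).2.2) d
      have h3 := cn_f ((emp : Part D).newTri d (T.f d) (T.f (T.f d)) (by simp [R, emp])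
        (by simp [R, emp]) (by simp [R, emp]) (tri_ne T d).1 (tri_ne T d).2.1
        (tri_ne T d).2.2) (T.f d)
      rw [ex_f hle hd] at h2
      rw [ex_f hle hfd] at h3
      rcases (ex_start_R T d _ _ _ _ _ _ e).1 he with h | h | h
      · rw [h]
        exact cn_refl _ _
      · rw [h]
        exact h2
      · rw [h]
        exact cn_trans h2 h3
    intro e he e' he'
    exact cn_trans (cn_symm (h1 e he)) (h1 e' he')
  | face S c x hx h0 h1 h2 _ ih => exact con_face S hx h0 h1 h2 _ _ _ ih
  | disc S c x y hx hy h u v hw hd _ ih => exact con_glue S hx hy ih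
  | hand S c x y hx hy h _ ih => exact con_glue S hx hy ih

/-- `h` is a gauge for which the labels and the transitions are in `H`. -/
def Gauge {G : Type} [Group G] (S : Part D) (l : D → G) (H : Subgroup G) (h : D → G) : Prop :=
  (∀ d ∈ S.R, h d * l d * (h (S.f d))⁻¹ ∈ H) ∧ ∀ d ∈ S.R, d ∉ S.B → h d * (h (S.s d))⁻¹ ∈ H

/-- the gauge of a single face -/
private theorem ex_gauge_start {G : Type} [Group G] {T : Tri D} {l : D → G} (hl : Flat T l)
    (H : Subgroup G) (d : D) (h0 h1 h2 h01 h12 h20) :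
    ∃ k : D → G, Gauge ((emp : Part D).newTri d (T.f d) (T.f (T.f d)) h0 h1 h2 h01 h12 h20) l H k := by
  have hle : ((emp : Part D).newTri d (T.f d) (T.f (T.f d)) h0 h1 h2 h01 h12 h20).Le T :=
    newTri_le _ _ _ _ _ _ _ (emp_le T) rfl rfl
  obtain ⟨k, hk⟩ : ∃ k : D → G, k = fun e =>
    if e = d then 1 else if e = T.f d then l d else l d * l (T.f d) := ⟨_, rfl⟩
  have k0 : k d = 1 := by
    rw [hk]
    exact if_pos rfl
  have k1 : k (T.f d) = l d := by
    rw [hk]
    change (if T.f d = d then _ else if T.f d = T.f d then _ else _) = _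
    rw [if_neg h01.symm, if_pos rfl]
  have k2 : k (T.f (T.f d)) = l d * l (T.f d) := by
    rw [hk]
    change (if T.f (T.f d) = d then _ else if T.f (T.f d) = T.f d then _ else _) = _
    rw [if_neg h20, if_neg h12.symm]
  refine ⟨k, ?_, ?_⟩
  · intro e he
    rw [ex_f hle he]
    rcases (ex_start_R T d _ _ _ _ _ _ e).1 he with h | h | h
    · rw [h, k0, k1, one_mul, mul_inv_cancel]
      exact H.one_mem
    · rw [h, k1, k2, mul_inv_cancel]
      exact H.one_mem
    · rw [h, k2, T.fff, k0, hl.face d, inv_one, mul_one]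
      exact H.one_mem
  · intro e he hb
    exfalso
    apply hb
    rw [newTri_B]
    exact Or.inr ((ex_start_R T d _ _ _ _ _ _ e).1 he)

/-- the gauge after a new face -/
private theorem ex_gauge_face {G : Type} [Group G] {T : Tri D} {S : Part D} (hS : S.Le T)
    {l : D → G} (hl : Flat T l) {H : Subgroup G} {k : D → G} (hg : Gauge S l H k) {x : D}
    (hx : x ∈ S.B) (h0 : T.a x ∉ S.R) (h1 : T.f (T.a x) ∉ S.R) (h2 : T.f (T.f (T.a x)) ∉ S.R)
    (h01 h12 h20) : ∃ k' : D → G, Gauge (S.face x (T.a x) (T.f (T.a x)) (T.f (T.f (T.a x)))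
      hx h0 h1 h2 h01 h12 h20) l H k' := by
  have hle : (S.face x (T.a x) (T.f (T.a x)) (T.f (T.f (T.a x))) hx h0 h1 h2 h01 h12 h20).Le T :=
    face_le S hS hx h0 h1 h2 _ _ _
  obtain ⟨t0, ht0⟩ : ∃ t0, t0 = T.a x := ⟨_, rfl⟩
  obtain ⟨k', hk⟩ : ∃ k' : D → G, k' = fun e =>
    if e = T.a x then k (S.f x) else if e = T.f (T.a x) then k x else
      if e = T.f (T.f (T.a x)) then k x * l (T.f (T.a x)) else k e := ⟨_, rfl⟩
  have k0 : k' (T.a x) = k (S.f x) := by
    rw [hk]
    exact if_pos rfl
  have k1 : k' (T.f (T.a x)) = k x := by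
    rw [hk]
    change (if T.f (T.a x) = T.a x then _ else if T.f (T.a x) = T.f (T.a x) then _ else _) = _
    rw [if_neg h01.symm, if_pos rfl]
  have k2 : k' (T.f (T.f (T.a x))) = k x * l (T.f (T.a x)) := by
    rw [hk]
    change (if T.f (T.f (T.a x)) = T.a x then _ else if T.f (T.f (T.a x)) = T.f (T.a x) then _ else
      if T.f (T.f (T.a x)) = T.f (T.f (T.a x)) then _ else _) = _
    rw [if_neg h20, if_neg h12.symm, if_pos rfl]
  have k3 : ∀ e ∈ S.R, k' e = k e := by
    intro e he
    have e0 : e ≠ T.a x := fun h => h0 (h ▸ he)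
    have e1 : e ≠ T.f (T.a x) := fun h => h1 (h ▸ he)
    have e2 : e ≠ T.f (T.f (T.a x)) := fun h => h2 (h ▸ he)
    rw [hk]
    change (if e = T.a x then _ else if e = T.f (T.a x) then _ else
      if e = T.f (T.f (T.a x)) then _ else _) = _
    rw [if_neg e0, if_neg e1, if_neg e2]
  have hxR : x ∈ S.R := S.B_sub_R hx
  have hfR : S.f x ∈ S.R := (S.mem_R_f x).2 hxR
  have hz := hg.1 x hxR
  refine ⟨k', ?_, ?_⟩
  · intro e he
    rw [ex_f hle he]
    rw [face_R] at he
    rcases he with he | he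
    · have h3 := hg.1 e he
      rw [k3 e he, ← ex_f hS he, k3 _ ((S.mem_R_f e).2 he)]
      exact h3
    · rcases he with rfl | rfl | rfl
      · rw [k0, k1, hl.inv]
        have e1 : k (S.f x) * (l x)⁻¹ * (k x)⁻¹ = (k x * l x * (k (S.f x))⁻¹)⁻¹ := by
          group
        rw [e1]
        exact H.inv_mem hz
      · rw [k1, k2, mul_inv_cancel]
        exact H.one_mem
      · rw [k2, T.fff, k0]
        have e1 : l (T.f (T.a x)) * l (T.f (T.f (T.a x))) = l x := by
          have h3 := hl.face (T.a x)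
          rw [hl.inv, mul_assoc, inv_mul_eq_one] at h3
          exact h3.symm
        rw [mul_assoc (k x), e1]
        exact hz
  · intro e he hb
    by_cases hex : e = x
    · rw [hex, face_s_x, k3 x hxR, k1, mul_inv_cancel]
      exact H.one_mem
    · rw [face_R] at he
      rw [face_B] at hb
      rcases he with he | he
      · have e0 : e ≠ T.a x := fun h => h0 (h ▸ he)
        have e1 : e ≠ T.f (T.a x) := fun h => h1 (h ▸ he)
        have e2 : e ≠ T.f (T.f (T.a x)) := fun h => h2 (h ▸ he)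
        have hb' : e ∉ S.B := fun h => hb (Or.inl ⟨h, hex⟩)
        rw [face_s_ne S hx h0 h1 h2 h01 h12 h20 hex e0 e1 e2, k3 e he,
          k3 _ ((S.mem_R_s e).2 he)]
        exact hg.2 e he hb'
      · rcases he with rfl | rfl | rfl
        · have h3 : S.s x = S.f x := by
            rw [s_apply, hx.2]
          rw [face_s_t0, h3, k0, k3 _ hfR, mul_inv_cancel]
          exact H.one_mem
        · exact absurd (Or.inr (Or.inl rfl)) hb
        · exact absurd (Or.inr (Or.inr rfl)) hb

/-- the gauge after a gluing -/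
private theorem ex_gauge_glue {G : Type} [Group G] {T : Tri D} {S : Part D}
    {l : D → G} (hl : Flat T l) {H H' : Subgroup G} (hH : H ≤ H') {k : D → G}
    (hg : Gauge S l H k) {x y : D} (hx : x ∈ S.B) (hy : y ∈ S.B) (h : T.a x = y)
    (hm : k x * (k (S.f y))⁻¹ ∈ H') : Gauge (S.glue x y hx hy) l H' k := by
  have hxy : x ≠ y := fun h' => T.ane x (h.trans h'.symm)
  have hzx := hH (hg.1 x (S.B_sub_R hx))
  have hzy := hH (hg.1 y (S.B_sub_R hy))
  have hly : l y = (l x)⁻¹ := by
    rw [← h, hl.inv]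
  have hsx : S.s x = S.f x := by
    rw [s_apply, hx.2]
  have hsy : S.s y = S.f y := by
    rw [s_apply, hy.2]
  refine ⟨?_, ?_⟩
  · intro e he
    rw [glue_R] at he
    exact hH (hg.1 e he)
  · intro e he hb
    rw [glue_R] at he
    rw [glue_B S hx hy hxy] at hb
    rw [glue_s, Equiv.Perm.mul_apply]
    by_cases hex : e = x
    · rw [hex, Equiv.swap_apply_left, hsy]
      exact hm
    by_cases hey : e = y
    · rw [hey, Equiv.swap_apply_right, hsx]
      have e1 : k y * (k (S.f x))⁻¹ = (k y * l y * (k (S.f y))⁻¹) * (k x * (k (S.f y))⁻¹)⁻¹ *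
          (k x * l x * (k (S.f x))⁻¹) := by
        rw [hly]
        group
      rw [e1]
      exact H'.mul_mem (H'.mul_mem hzy (H'.inv_mem hm)) hzx
    · rw [Equiv.swap_apply_of_ne_of_ne hex hey]
      have hb' : e ∉ S.B := by
        intro hB
        apply hb
        refine ⟨hB, ?_⟩
        rintro (h' | h')
        · exact hex h'
        · exact hey h'
      exact hH (hg.2 e he hb')

/-- from `s d` to the next boundary dart -/
private theorem ex_trans {G : Type} [Group G] {S : Part D} {l : D → G} {H : Subgroup G}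
    {k : D → G} (hg : Gauge S l H k) {d : D} (hd : d ∈ S.B) :
    k (S.f d) * (k (S.nx d))⁻¹ ∈ H := by
  have hsd : S.s d = S.f d := by
    rw [s_apply, hd.2]
  obtain ⟨j, hj, -, hB⟩ := ret_spec S.s hd
  have h1 : ∀ i, i ≤ j → k (S.f d) * (k ((S.s ^ (i + 1)) d))⁻¹ ∈ H := by
    intro i
    induction i with
    | zero =>
      intro _
      rw [zero_add, pow_one, hsd, mul_inv_cancel]
      exact H.one_mem
    | succ i ih =>
      intro hi
      have h2 := ih (by omega)
      have h3 := hB i (by omega)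
      have h4 : (S.s ^ (i + 1)) d ∈ S.R := by
        have h5 : ∀ q : ℕ, (S.s ^ q) d ∈ S.R := by
          intro q
          induction q with
          | zero => exact S.B_sub_R hd
          | succ q ihq =>
            rw [pow_succ', Equiv.Perm.mul_apply]
            exact (S.mem_R_s _).2 ihq
        exact h5 _
      have h6 := hg.2 _ h4 h3
      have h7 : S.s ((S.s ^ (i + 1)) d) = (S.s ^ (i + 1 + 1)) d := by
        rw [pow_succ' _ (i + 1), Equiv.Perm.mul_apply]
      rw [h7] at h6
      have h8 := H.mul_mem h2 h6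
      have e1 : k (S.f d) * (k ((S.s ^ (i + 1)) d))⁻¹ *
          (k ((S.s ^ (i + 1)) d) * (k ((S.s ^ (i + 1 + 1)) d))⁻¹) =
          k (S.f d) * (k ((S.s ^ (i + 1 + 1)) d))⁻¹ := by
        group
      rw [e1] at h8
      exact h8
  have h2 : S.nx d = (S.s ^ (j + 1)) d := hj
  rw [h2]
  exact h1 j le_rfl

/-- along a part of a hole -/
private theorem ex_word {G : Type} [Group G] {S : Part D} {l : D → G} {H : Subgroup G}
    {k : D → G} (hg : Gauge S l H k) (y : D) (w : List D) : ∀ d : D,
      (∀ e ∈ d :: w, e ∈ S.B) → List.IsChain (fun d e => S.nx d = e) (d :: (w ++ [y])) →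
      k (S.f d) * hol l w * (k y)⁻¹ ∈ H := by
  induction w with
  | nil =>
    intro d hB hc
    rw [List.nil_append, List.isChain_cons_cons] at hc
    rw [hol_nil, mul_one, ← hc.1]
    exact ex_trans hg (hB d List.mem_cons_self)
  | cons e w ih =>
    intro d hB hc
    rw [List.cons_append, List.isChain_cons_cons] at hc
    have h1 := ex_trans hg (hB d List.mem_cons_self)
    have heB : e ∈ S.B := hB e (List.mem_cons_of_mem _ List.mem_cons_self)
    have h2 := hg.1 e (S.B_sub_R heB)
    have h3 := ih e (fun a ha => hB a (List.mem_cons_of_mem _ ha)) hc.2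
    rw [hc.1] at h1
    rw [hol_cons]
    have e1 : k (S.f d) * (l e * hol l w) * (k y)⁻¹ = (k (S.f d) * (k e)⁻¹) *
        (k e * l e * (k (S.f e))⁻¹) * (k (S.f e) * hol l w * (k y)⁻¹) := by
      group
    rw [e1]
    exact H.mul_mem (H.mul_mem h1 h2) h3

private theorem ex_word' {G : Type} [Group G] {S : Part D} {l : D → G} {H : Subgroup G}
    {k : D → G} (hg : Gauge S l H k) {x y : D} (hx : x ∈ S.B) {u v : List D}
    (hw : S.hw x = x :: (u ++ y :: v)) : k (S.f x) * hol l u * (k y)⁻¹ ∈ H := by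
  have h1 := S.hw_chain hx
  have e1 : x :: (u ++ y :: v) = (x :: (u ++ [y])) ++ v := by
    rw [List.cons_append, List.append_assoc]
    rfl
  rw [hw, e1] at h1
  refine ex_word hg y u x ?_ h1.left_of_append
  intro e he
  have h2 : e ∈ S.hw x := by
    rw [hw]
    rcases List.mem_cons.1 he with h | h
    · rw [h]
      exact List.mem_cons_self
    · exact List.mem_cons_of_mem _ (List.mem_append_left _ h)
  exact ((S.mem_hw hx).1 h2).1

theorem Expl.gauge {G : Type} [Group G] {T : Tri D} {S : Part D} {c : ℕ} (h : Expl T S c) {l : D → G}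
    (hl : Flat T l) : ∃ (Z : Fin c → G) (k : D → G), Gauge S l (Subgroup.closure (Set.range Z)) k := by
  induction h with
  | start d =>
    obtain ⟨k, hk⟩ := ex_gauge_start hl (Subgroup.closure (Set.range (Fin.elim0 : Fin 0 → G))) d
      (by simp [R, emp]) (by simp [R, emp]) (by simp [R, emp]) (tri_ne T d).1 (tri_ne T d).2.1
      (tri_ne T d).2.2
    exact ⟨_, k, hk⟩
  | face S c x hx h0 h1 h2 hE ih =>
    obtain ⟨Z, k, hg⟩ := ih
    obtain ⟨k', hk'⟩ := ex_gauge_face hE.le hl hg hx h0 h1 h2 (tri_ne T _).1 (tri_ne T _).2.1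
      (tri_ne T _).2.2
    exact ⟨Z, k', hk'⟩
  | disc S c x y hx hy h u v hw hd hE ih =>
    obtain ⟨Z, k, hg⟩ := ih
    refine ⟨Z, k, ex_gauge_glue hl le_rfl hg hx hy h ?_⟩
    have hly : l y = (l x)⁻¹ := by
      rw [← h, hl.inv]
    rcases hd with hd | hd
    · have h1 := ex_word' hg hx hw
      rw [DW.hol_eq hl hd, mul_one] at h1
      have hzx := hg.1 x (S.B_sub_R hx)
      have hzy := hg.1 y (S.B_sub_R hy)
      have e1 : k x * (k (S.f y))⁻¹ = (k x * l x * (k (S.f x))⁻¹) * (k (S.f x) * (k y)⁻¹) *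
          (k y * l y * (k (S.f y))⁻¹) := by
        rw [hly]
        group
      rw [e1]
      exact Subgroup.mul_mem _ (Subgroup.mul_mem _ hzx h1) hzy
    · have h3 : S.hw x = (x :: u) ++ y :: v := hw
      have h2 := S.hw_rot hx h3
      have h1 := ex_word' hg hy h2
      rw [DW.hol_eq hl hd, mul_one] at h1
      have e1 : k x * (k (S.f y))⁻¹ = (k (S.f y) * (k x)⁻¹)⁻¹ := by
        group
      rw [e1]
      exact Subgroup.inv_mem _ h1
  | hand S c x y hx hy h hE ih =>
    obtain ⟨Z, k, hg⟩ := ih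
    refine ⟨Fin.snoc (α := fun _ => G) Z (k x * (k (S.f y))⁻¹), k,
      ex_gauge_glue hl ?_ hg hx hy h ?_⟩
    · rw [Subgroup.closure_le]
      rintro _ ⟨i, rfl⟩
      refine Subgroup.subset_closure ⟨Fin.castSucc i, ?_⟩
      rw [Fin.snoc_castSucc]
    · refine Subgroup.subset_closure ⟨Fin.last c, ?_⟩
      rw [Fin.snoc_last]

end Part
end SYS
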