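import Pool.Agent.SYS.Lib.WordB

/-!
# SYS-Lib-HL: lists of hole representatives

`HL S l`: the boundary darts `l` represent every hole exactly once.  The behaviour under `newTri`, `face`, `glue` follows
from the description of the hole words after each operation.
-/

namespace SYS
namespace Part

open Classical SST

variable {D : Type} [Finite D]

/-- `l` = list of representatives of the holes. -/
def HL (S : Part D) (l : List D) : Prop :=
  (∀ d ∈ l, d ∈ S.B) ∧ l.Pairwise (fun d e => ¬ S.s.SameCycle d e) ∧ ∀ d ∈ S.B, ∃ e ∈ l, S.s.SameCycle e d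

theorem hl_exists (S : Part D) : ∃ l, S.HL l := by
  have key : ∀ A : Set D, A.Finite → A ⊆ S.B → ∃ l : List D, (∀ d ∈ l, d ∈ S.B) ∧
      l.Pairwise (fun d e => ¬ S.s.SameCycle d e) ∧ ∀ d ∈ A, ∃ e ∈ l, S.s.SameCycle e d := by
    intro A hA
    induction A, hA using Set.Finite.induction_on with
    | empty => exact fun _ => ⟨[], by simp, List.Pairwise.nil, by simp⟩
    | insert ha _ ih =>
      rename_i a A _
      intro hAB
      obtain ⟨l, h1, h2, h3⟩ := ih fun d hd => hAB (Set.mem_insert_of_mem _ hd)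
      by_cases h : ∃ e ∈ l, S.s.SameCycle e a
      · refine ⟨l, h1, h2, fun d hd => ?_⟩
        rcases Set.mem_insert_iff.mp hd with hd | hd
        · rw [hd]
          exact h
        · exact h3 d hd
      · refine ⟨a :: l, ?_, List.pairwise_cons.mpr ⟨?_, h2⟩, ?_⟩
        · intro d hd
          rcases List.mem_cons.mp hd with hd | hd
          · rw [hd]
            exact hAB (Set.mem_insert _ _)
          · exact h1 d hd
        · intro e he hs
          exact h ⟨e, he, hs.symm⟩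
        · intro d hd
          rcases Set.mem_insert_iff.mp hd with hd | hd
          · exact ⟨a, List.mem_cons_self, by rw [hd]⟩
          · obtain ⟨e, he, hs⟩ := h3 d hd
            exact ⟨e, List.mem_cons_of_mem _ he, hs⟩
  exact key S.B (Set.toFinite _) (le_refl _)

theorem hl_perm {S : Part D} {l l' : List D} (h : l.Perm l') (hl : S.HL l) : S.HL l' := by
  refine ⟨fun d hd => hl.1 d (h.mem_iff.mpr hd), ?_, fun d hd => ?_⟩
  · refine (h.pairwise_iff ?_).mp hl.2.1
    intro a b hab hs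
    exact hab hs.symm
  · obtain ⟨e, he, hs⟩ := hl.2.2 d hd
    exact ⟨e, h.mem_iff.mp he, hs⟩

theorem per_same (S : Part D) {x y : D} (h : S.s.SameCycle x y) : S.per x = S.per y := by
  have h1 : S.hole x = S.hole y := by
    ext e
    constructor
    · rintro ⟨h3, h4⟩
      exact ⟨h3, h.symm.trans h4⟩
    · rintro ⟨h3, h4⟩
      exact ⟨h3, h.trans h4⟩
  unfold per
  rw [h1]

theorem hl_repl {S : Part D} {x y : D} {l : List D} (h : S.HL (x :: l)) (hy : y ∈ S.B) (hxy : S.s.SameCycle x y) :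
    S.HL (y :: l) := by
  obtain ⟨h1, h2, h3⟩ := h
  have h4 := List.pairwise_cons.mp h2
  refine ⟨?_, List.pairwise_cons.mpr ⟨fun e he hs => h4.1 e he (hxy.trans hs), h4.2⟩, ?_⟩
  · intro d hd
    rcases List.mem_cons.mp hd with hd | hd
    · rw [hd]
      exact hy
    · exact h1 d (List.mem_cons_of_mem _ hd)
  · intro d hd
    obtain ⟨e, he, hs⟩ := h3 d hd
    rcases List.mem_cons.mp he with he | he
    · rw [he] at hs
      exact ⟨y, List.mem_cons_self, hxy.symm.trans hs⟩
    · exact ⟨e, List.mem_cons_of_mem _ he, hs⟩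

theorem hl_ncyc {S : Part D} {l : List D} (h : S.HL l) : ncycOn S.s S.B = l.length := by
  obtain ⟨h1, h2, h3⟩ := h
  unfold ncycOn
  have hmk : ∀ d e : D, (Quotient.mk (Equiv.Perm.SameCycle.setoid S.s) d =
      Quotient.mk (Equiv.Perm.SameCycle.setoid S.s) e) ↔ S.s.SameCycle d e := fun d e => Quotient.eq
  have e1 : {q : Quotient (Equiv.Perm.SameCycle.setoid S.s) | ∃ d ∈ S.B, Quotient.mk _ d = q} =
      ((l.map (Quotient.mk (Equiv.Perm.SameCycle.setoid S.s))).toFinset : Set _) := by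
    ext q
    rw [Finset.mem_coe, List.mem_toFinset, List.mem_map]
    constructor
    · rintro ⟨d, hd, rfl⟩
      obtain ⟨e, he, hs⟩ := h3 d hd
      exact ⟨e, he, (hmk e d).mpr hs⟩
    · rintro ⟨e, he, rfl⟩
      exact ⟨e, h1 e he, rfl⟩
  have e2 : (l.map (Quotient.mk (Equiv.Perm.SameCycle.setoid S.s))).Nodup := by
    unfold List.Nodup
    rw [List.pairwise_map]
    refine h2.imp ?_
    intro a b hab hc
    exact hab ((hmk a b).mp hc)
  rw [e1, Set.ncard_coe_finset, List.toFinset_card_of_nodup e2, List.length_map]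

theorem hl_card {S : Part D} {l : List D} (h : S.HL l) : S.B.ncard = (l.map S.per).sum := by
  obtain ⟨h1, h2, h3⟩ := h
  have key : ∀ l : List D, l.Pairwise (fun d e => ¬ S.s.SameCycle d e) →
      {d | d ∈ S.B ∧ ∃ e ∈ l, S.s.SameCycle e d}.ncard = (l.map S.per).sum := by
    intro l
    induction l with
    | nil =>
      intro _
      simp
    | cons a l ih =>
      intro hl
      have h4 := List.pairwise_cons.mp hl
      have e1 : {d | d ∈ S.B ∧ ∃ e ∈ a :: l, S.s.SameCycle e d} =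
          S.hole a ∪ {d | d ∈ S.B ∧ ∃ e ∈ l, S.s.SameCycle e d} := by
        ext d
        constructor
        · rintro ⟨hd, e, he, hs⟩
          rcases List.mem_cons.mp he with he | he
          · rw [he] at hs
            exact Or.inl ⟨hd, hs⟩
          · exact Or.inr ⟨hd, e, he, hs⟩
        · rintro (⟨hd, hs⟩ | ⟨hd, e, he, hs⟩)
          · exact ⟨hd, a, List.mem_cons_self, hs⟩
          · exact ⟨hd, e, List.mem_cons_of_mem _ he, hs⟩
      have e2 : Disjoint (S.hole a) {d | d ∈ S.B ∧ ∃ e ∈ l, S.s.SameCycle e d} := by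
        rw [Set.disjoint_left]
        rintro d ⟨_, hs⟩ ⟨_, e, he, hs'⟩
        exact h4.1 e he (hs.trans hs'.symm)
      rw [e1, Set.ncard_union_eq e2 (Set.toFinite _) (Set.toFinite _), ih h4.2, List.map_cons,
        List.sum_cons]
      rfl
  rw [← key l h2]
  congr 1
  ext d
  exact ⟨fun hd => ⟨hd, h3 d hd⟩, fun hd => hd.1⟩

/-- Powers of the boundary successor stay in the hole. -/
theorem nx_pow_same (S : Part D) {x : D} (hx : x ∈ S.B) (j : ℕ) : (S.nx ^ j) x ∈ S.B ∧ S.s.SameCycle x ((S.nx ^ j) x) := by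
  have h1 : (S.nx ^ j) x ∈ S.B := by
    induction j with
    | zero => exact hx
    | succ j ih =>
      rw [pow_succ', Equiv.Perm.mul_apply, nx_mem]
      exact ih
  refine ⟨h1, ?_⟩
  have h2 : S.nx.SameCycle x ((S.nx ^ j) x) := ⟨(j : ℤ), by rw [zpow_natCast]⟩
  exact (ret_same S.s hx h1).mp h2

/-- replacing some holes by others -/
private theorem hl_splice {S S' : Part D} {A l : List D} (hl : l.Pairwise (fun d e => ¬ S.s.SameCycle d e))
    (hlB : ∀ z ∈ l, z ∈ S.B) (h1 : ∀ z ∈ l, z ∈ S'.B) (h1' : ∀ z ∈ l, S'.hw z = S.hw z)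
    (h2 : ∀ z ∈ A, z ∈ S'.B) (h2' : A.Pairwise fun z z' => z' ∉ S'.hw z)
    (h3 : ∀ z ∈ A, ∀ b ∈ l, b ∉ S'.hw z)
    (h4 : ∀ d ∈ S'.B, (∃ z ∈ A, d ∈ S'.hw z) ∨ ∃ z ∈ l, d ∈ S.hw z) : S'.HL (A ++ l) := by
  refine ⟨?_, List.pairwise_append.mpr ⟨?_, ?_, ?_⟩, ?_⟩
  · intro d hd
    rcases List.mem_append.mp hd with hd | hd
    · exact h2 d hd
    · exact h1 d hd
  · refine List.Pairwise.imp_of_mem ?_ h2'
    intro a b ha hb hab hs
    exact hab ((S'.mem_hw (h2 a ha)).mpr ⟨h2 b hb, hs⟩)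
  · refine List.Pairwise.imp_of_mem ?_ hl
    intro a b ha hb hab hs
    have h5 : b ∈ S'.hw a := (S'.mem_hw (h1 a ha)).mpr ⟨h1 b hb, hs⟩
    rw [h1' a ha] at h5
    exact hab ((S.mem_hw (hlB a ha)).mp h5).2
  · intro a ha b hb hs
    exact h3 a ha b hb ((S'.mem_hw (h2 a ha)).mpr ⟨h1 b hb, hs⟩)
  · intro d hd
    rcases h4 d hd with ⟨z, hz, hdz⟩ | ⟨z, hz, hdz⟩
    · exact ⟨z, List.mem_append_left _ hz, ((S'.mem_hw (h2 z hz)).mp hdz).2⟩
    · rw [← h1' z hz] at hdz
      exact ⟨z, List.mem_append_right _ hz, ((S'.mem_hw (h1 z hz)).mp hdz).2⟩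

private theorem per_of_hw {S S' : Part D} {z : D} (h : z ∈ S.B) (h' : z ∈ S'.B) (he : S'.hw z = S.hw z) :
    S'.per z = S.per z := by
  rw [← hw_length S' h', he, hw_length S h]

private theorem take_one {u : List D} {z : D} (h : z ∈ u.take 1) : ∃ w, u = z :: w := by
  cases u with
  | nil => simp at h
  | cons a u =>
    rw [List.take_succ_cons, List.take_zero, List.mem_singleton] at h
    exact ⟨u, by rw [h]⟩

private theorem take_pw (R : D → D → Prop) (u : List D) : (u.take 1).Pairwise R := by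
  cases u with
  | nil => exact List.Pairwise.nil
  | cons a u =>
    rw [List.take_succ_cons, List.take_zero]
    exact List.pairwise_singleton R a

section
variable (S : Part D) {x t0 t1 t2 : D} (hx : x ∈ S.B) (h0 : t0 ∉ S.R) (h1 : t1 ∉ S.R) (h2 : t2 ∉ S.R)
    (h01 : t0 ≠ t1) (h12 : t1 ≠ t2) (h20 : t2 ≠ t0)

private theorem nt_s {d : D} (hd : d ∈ S.R) :
    (S.newTri t0 t1 t2 h0 h1 h2 h01 h12 h20).s d = S.s d := by
  have ha : S.a d ∈ S.R := (S.mem_R_a d).mpr hd
  show S.f (cyc3 t0 t1 t2 (S.a d)) = S.f (S.a d)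
  have e0 : S.a d ≠ t0 := fun h => h0 (h ▸ ha)
  have e1 : S.a d ≠ t1 := fun h => h1 (h ▸ ha)
  have e2 : S.a d ≠ t2 := fun h => h2 (h ▸ ha)
  unfold cyc3
  rw [Equiv.Perm.mul_apply, Equiv.swap_apply_of_ne_of_ne e1 e2,
    Equiv.swap_apply_of_ne_of_ne e0 e1]

private theorem nt_pow {d : D} (hd : d ∈ S.R) (n : ℕ) :
    ((S.newTri t0 t1 t2 h0 h1 h2 h01 h12 h20).s ^ n) d = (S.s ^ n) d ∧ (S.s ^ n) d ∈ S.R := by
  induction n with
  | zero => exact ⟨rfl, hd⟩
  | succ n ih =>
    rw [pow_succ', Equiv.Perm.mul_apply, pow_succ', Equiv.Perm.mul_apply, ih.1,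
      nt_s S h0 h1 h2 h01 h12 h20 ih.2]
    exact ⟨rfl, (S.mem_R_s _).mpr ih.2⟩

private theorem nt_B {d : D} (hd : d ∈ S.R) : d ∈ (S.newTri t0 t1 t2 h0 h1 h2 h01 h12 h20).B ↔ d ∈ S.B := by
  rw [newTri_B]
  constructor
  · rintro (h | h | h | h)
    · exact h
    · exact absurd (h ▸ hd) h0
    · exact absurd (h ▸ hd) h1
    · exact absurd (h ▸ hd) h2
  · exact Or.inl

private theorem nt_same {d e : D} (hd : d ∈ S.R) :
    (S.newTri t0 t1 t2 h0 h1 h2 h01 h12 h20).s.SameCycle d e ↔ S.s.SameCycle d e := by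
  constructor
  · intro h
    obtain ⟨n, hn⟩ := h.exists_nat_pow_eq
    exact ⟨(n : ℤ), by rw [zpow_natCast, ← (nt_pow S h0 h1 h2 h01 h12 h20 hd n).1, hn]⟩
  · intro h
    obtain ⟨n, hn⟩ := h.exists_nat_pow_eq
    exact ⟨(n : ℤ), by rw [zpow_natCast, (nt_pow S h0 h1 h2 h01 h12 h20 hd n).1, hn]⟩

private theorem same_R {d e : D} (hd : d ∈ S.R) (h : S.s.SameCycle d e) : e ∈ S.R := by
  obtain ⟨n, hn⟩ := h.exists_nat_pow_eq
  rw [← hn]
  have key : ∀ n : ℕ, (S.s ^ n) d ∈ S.R := by
    intro n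
    induction n with
    | zero => exact hd
    | succ n ih =>
      rw [pow_succ', Equiv.Perm.mul_apply]
      exact (S.mem_R_s _).mpr ih
  exact key n

private theorem nt_per {z : D} (hz : z ∈ S.B) : (S.newTri t0 t1 t2 h0 h1 h2 h01 h12 h20).per z = S.per z := by
  have e1 : (S.newTri t0 t1 t2 h0 h1 h2 h01 h12 h20).hole z = S.hole z := by
    ext e
    constructor
    · rintro ⟨a1, a2⟩
      have a3 := (nt_same S h0 h1 h2 h01 h12 h20 (S.B_sub_R hz)).mp a2
      exact ⟨(nt_B S h0 h1 h2 h01 h12 h20 (same_R S (S.B_sub_R hz) a3)).mp a1, a3⟩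
    · rintro ⟨a1, a2⟩
      exact ⟨(nt_B S h0 h1 h2 h01 h12 h20 (S.B_sub_R a1)).mpr a1,
        (nt_same S h0 h1 h2 h01 h12 h20 (S.B_sub_R hz)).mpr a2⟩
  unfold per
  rw [e1]

private theorem nt_nx {d : D} (hd : d ∈ S.B) :
    (S.newTri t0 t1 t2 h0 h1 h2 h01 h12 h20).nx d = S.nx d := by
  have hR := S.B_sub_R hd
  rw [← nxt_iff _ ((nt_B S h0 h1 h2 h01 h12 h20 hR).mpr hd)]
  obtain ⟨j, a1, a2, a3⟩ := (S.nxt_iff hd).mpr rfl
  refine ⟨j, ?_, ?_, ?_⟩
  · rw [(nt_pow S h0 h1 h2 h01 h12 h20 hR (j + 1)).1]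
    exact a1
  · exact (nt_B S h0 h1 h2 h01 h12 h20 (S.B_sub_R a2)).mpr a2
  · intro i hi hc
    have a4 := nt_pow S h0 h1 h2 h01 h12 h20 hR (i + 1)
    rw [a4.1] at hc
    exact a3 i hi ((nt_B S h0 h1 h2 h01 h12 h20 a4.2).mp hc)

theorem hw_newTri_other {z : D} (hz : z ∈ S.B) :
    (S.newTri t0 t1 t2 h0 h1 h2 h01 h12 h20).hw z = S.hw z := by
  unfold hw
  rw [nt_per S h0 h1 h2 h01 h12 h20 hz]
  refine List.map_congr_left fun i _ => ?_
  have key : ∀ i : ℕ, ((S.newTri t0 t1 t2 h0 h1 h2 h01 h12 h20).nx ^ i) z = (S.nx ^ i) z := by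
    intro i
    induction i with
    | zero => rfl
    | succ i ih =>
      rw [pow_succ', Equiv.Perm.mul_apply, ih, pow_succ', Equiv.Perm.mul_apply,
        nt_nx S h0 h1 h2 h01 h12 h20 (S.nx_pow_same hz i).1]
  exact key i

theorem hl_newTri {l : List D} (h : S.HL l) : (S.newTri t0 t1 t2 h0 h1 h2 h01 h12 h20).HL (t0 :: l) ∧
    (S.newTri t0 t1 t2 h0 h1 h2 h01 h12 h20).per t0 = 3 ∧
    ∀ d ∈ l, (S.newTri t0 t1 t2 h0 h1 h2 h01 h12 h20).per d = S.per d := by
  obtain ⟨a1, a2, a3⟩ := h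
  have hw0 := hw_newTri S h0 h1 h2 h01 h12 h20
  have ht0 : t0 ∈ (S.newTri t0 t1 t2 h0 h1 h2 h01 h12 h20).B := by
    rw [newTri_B]
    exact Or.inr (Or.inl rfl)
  have hlB : ∀ z ∈ l, z ∈ (S.newTri t0 t1 t2 h0 h1 h2 h01 h12 h20).B := fun z hz =>
    (nt_B S h0 h1 h2 h01 h12 h20 (S.B_sub_R (a1 z hz))).mpr (a1 z hz)
  refine ⟨?_, ?_, fun d hd => nt_per S h0 h1 h2 h01 h12 h20 (a1 d hd)⟩
  · refine hl_splice (A := [t0]) a2 a1 hlB
      (fun z hz => hw_newTri_other S h0 h1 h2 h01 h12 h20 (a1 z hz)) ?_ (List.pairwise_singleton _ _) ?_ ?_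
    · intro z hz
      rw [List.mem_singleton.mp hz]
      exact ht0
    · intro z hz b hb hc
      rw [List.mem_singleton.mp hz, hw0] at hc
      have hbR := S.B_sub_R (a1 b hb)
      simp only [List.mem_cons, List.not_mem_nil, or_false] at hc
      rcases hc with hc | hc | hc
      · exact h0 (hc ▸ hbR)
      · exact h1 (hc ▸ hbR)
      · exact h2 (hc ▸ hbR)
    · intro d hd
      rw [newTri_B] at hd
      rcases hd with hd | hd
      · right
        obtain ⟨e, he, hs⟩ := a3 d hd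
        exact ⟨e, he, (S.mem_hw (a1 e he)).mpr ⟨hd, hs⟩⟩
      · left
        refine ⟨t0, List.mem_singleton.mpr rfl, ?_⟩
        rw [hw0]
        simp only [List.mem_cons, List.not_mem_nil, or_false]
        exact hd
  · rw [← hw_length _ ht0, hw0]
    rfl

theorem hl_face {l : List D} (h : S.HL (x :: l)) : (S.face x t0 t1 t2 hx h0 h1 h2 h01 h12 h20).HL (t1 :: l) ∧
    (S.face x t0 t1 t2 hx h0 h1 h2 h01 h12 h20).per t1 = S.per x + 1 ∧
    ∀ d ∈ l, (S.face x t0 t1 t2 hx h0 h1 h2 h01 h12 h20).per d = S.per d := by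
  obtain ⟨a1, a2, a3⟩ := h
  have a4 := List.pairwise_cons.mp a2
  obtain ⟨u, hu⟩ := S.hw_cons hx
  have hw1 := hw_face S hx h0 h1 h2 h01 h12 h20 hu
  have hB := face_B S hx h0 h1 h2 h01 h12 h20
  have ht1 : t1 ∈ (S.face x t0 t1 t2 hx h0 h1 h2 h01 h12 h20).B := by
    rw [hB]
    exact Or.inr (Or.inl rfl)
  have hl1 : ∀ z ∈ l, z ∈ S.B := fun z hz => a1 z (List.mem_cons_of_mem _ hz)
  have hlB : ∀ z ∈ l, z ∈ (S.face x t0 t1 t2 hx h0 h1 h2 h01 h12 h20).B := by
    intro z hz
    rw [hB]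
    refine Or.inl ⟨hl1 z hz, ?_⟩
    intro hc
    rw [Set.mem_singleton_iff] at hc
    exact a4.1 z hz (by rw [hc])
  have hlw : ∀ z ∈ l, (S.face x t0 t1 t2 hx h0 h1 h2 h01 h12 h20).hw z = S.hw z := fun z hz =>
    hw_face_other S hx h0 h1 h2 h01 h12 h20 (hl1 z hz) (a4.1 z hz)
  have hun := S.hw_nodup hx
  rw [hu] at hun
  have hum : ∀ d ∈ x :: u, d ∈ S.B ∧ S.s.SameCycle x d := by
    intro d hd
    rw [← hu] at hd
    exact (S.mem_hw hx).mp hd
  refine ⟨?_, ?_, fun d hd => per_of_hw (hl1 d hd) (hlB d hd) (hlw d hd)⟩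
  · refine hl_splice (A := [t1]) a4.2 hl1 hlB hlw ?_ (List.pairwise_singleton _ _) ?_ ?_
    · intro z hz
      rw [List.mem_singleton.mp hz]
      exact ht1
    · intro z hz b hb hc
      rw [List.mem_singleton.mp hz, hw1] at hc
      have hbR := S.B_sub_R (hl1 b hb)
      rcases List.mem_cons.mp hc with hc | hc
      · exact h1 (hc ▸ hbR)
      · rcases List.mem_cons.mp hc with hc | hc
        · exact h2 (hc ▸ hbR)
        · exact a4.1 b hb (hum b (List.mem_cons_of_mem _ hc)).2
    · intro d hd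
      rw [hB] at hd
      rcases hd with ⟨hd, hdx⟩ | hd
      · obtain ⟨e, he, hs⟩ := a3 d hd
        rcases List.mem_cons.mp he with he | he
        · left
          refine ⟨t1, List.mem_singleton.mpr rfl, ?_⟩
          rw [hw1]
          rw [he] at hs
          have h5 : d ∈ S.hw x := (S.mem_hw hx).mpr ⟨hd, hs⟩
          rw [hu] at h5
          rcases List.mem_cons.mp h5 with h5 | h5
          · exact absurd h5 hdx
          · exact List.mem_cons_of_mem _ (List.mem_cons_of_mem _ h5)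
        · right
          exact ⟨e, he, (S.mem_hw (hl1 e he)).mpr ⟨hd, hs⟩⟩
      · left
        refine ⟨t1, List.mem_singleton.mpr rfl, ?_⟩
        rw [hw1]
        rcases hd with hd | hd
        · rw [hd]
          exact List.mem_cons_self
        · rw [Set.mem_singleton_iff] at hd
          rw [hd]
          exact List.mem_cons_of_mem _ List.mem_cons_self
  · rw [← hw_length _ ht1, hw1, ← hw_length S hx, hu]
    rfl

end

section
variable (S : Part D) {x y : D} (hx : x ∈ S.B) (hy : y ∈ S.B)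

theorem hl_glue_split {l u v : List D} (h : S.HL (x :: l)) (hw : S.hw x = x :: (u ++ y :: v)) :
    (S.glue x y hx hy).HL (u.take 1 ++ v.take 1 ++ l) ∧
    (∀ z ∈ u, (S.glue x y hx hy).per z = u.length) ∧ (∀ z ∈ v, (S.glue x y hx hy).per z = v.length) ∧
    ∀ d ∈ l, (S.glue x y hx hy).per d = S.per d := by
  obtain ⟨a1, a2, a3⟩ := h
  have a4 := List.pairwise_cons.mp a2
  have hun := S.hw_nodup hx
  rw [hw] at hun
  have hn1 := List.nodup_cons.mp hun
  have hn2 := List.nodup_append.mp hn1.2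
  have hn3 := List.nodup_cons.mp hn2.2.1
  have hum : ∀ d ∈ x :: (u ++ y :: v), d ∈ S.B ∧ S.s.SameCycle x d := by
    intro d hd
    rw [← hw] at hd
    exact (S.mem_hw hx).mp hd
  have hxy : x ≠ y := fun h => hn1.1 (by rw [h]; simp)
  have hsy : S.s.SameCycle x y := (hum y (by simp)).2
  have hB := glue_B S hx hy hxy
  have hl1 : ∀ z ∈ l, z ∈ S.B := fun z hz => a1 z (List.mem_cons_of_mem _ hz)
  have hlB : ∀ z ∈ l, z ∈ (S.glue x y hx hy).B := by
    intro z hz
    rw [hB]
    refine ⟨hl1 z hz, ?_⟩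
    rintro (hc | hc)
    · exact a4.1 z hz (by rw [hc])
    · rw [Set.mem_singleton_iff] at hc
      exact a4.1 z hz (by rw [hc]; exact hsy)
  have hlw : ∀ z ∈ l, (S.glue x y hx hy).hw z = S.hw z := fun z hz =>
    hw_glue_other S hx hy (hl1 z hz) (a4.1 z hz) (fun h => a4.1 z hz (hsy.trans h))
  have huB : ∀ z ∈ u, z ∈ (S.glue x y hx hy).B := by
    intro z hz
    rw [hB]
    refine ⟨(hum z (List.mem_cons_of_mem _ (List.mem_append_left _ hz))).1, ?_⟩
    rintro (hc | hc)
    · exact hn1.1 (List.mem_append_left _ (hc ▸ hz))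
    · rw [Set.mem_singleton_iff] at hc
      exact hn2.2.2 z hz y List.mem_cons_self hc
  have hvB : ∀ z ∈ v, z ∈ (S.glue x y hx hy).B := by
    intro z hz
    rw [hB]
    refine ⟨(hum z (List.mem_cons_of_mem _ (List.mem_append_right _ (List.mem_cons_of_mem _ hz)))).1, ?_⟩
    rintro (hc | hc)
    · exact hn1.1 (List.mem_append_right _ (List.mem_cons_of_mem _ (hc ▸ hz)))
    · rw [Set.mem_singleton_iff] at hc
      exact hn3.1 (hc ▸ hz)
  have hut : ∀ z ∈ u.take 1, z ∈ u ∧ (S.glue x y hx hy).hw z = u := by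
    intro z hz
    obtain ⟨w, hw'⟩ := take_one hz
    exact ⟨by rw [hw']; exact List.mem_cons_self, hw_glue_split_left S hx hy hw hw'⟩
  have hvt : ∀ z ∈ v.take 1, z ∈ v ∧ (S.glue x y hx hy).hw z = v := by
    intro z hz
    obtain ⟨w, hw'⟩ := take_one hz
    exact ⟨by rw [hw']; exact List.mem_cons_self, hw_glue_split_right S hx hy hw hw'⟩
  refine ⟨?_, ?_, ?_, fun d hd => per_of_hw (hl1 d hd) (hlB d hd) (hlw d hd)⟩
  · refine hl_splice (A := u.take 1 ++ v.take 1) a4.2 hl1 hlB hlw ?_ ?_ ?_ ?_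
    · intro z hz
      rcases List.mem_append.mp hz with hz | hz
      · exact huB z (hut z hz).1
      · exact hvB z (hvt z hz).1
    · refine List.pairwise_append.mpr ⟨take_pw _ u, take_pw _ v, ?_⟩
      intro a ha b hb hc
      rw [(hut a ha).2] at hc
      exact hn2.2.2 b hc b (List.mem_cons_of_mem _ (hvt b hb).1) rfl
    · intro z hz b hb hc
      rcases List.mem_append.mp hz with hz | hz
      · rw [(hut z hz).2] at hc
        exact a4.1 b hb (hum b (List.mem_cons_of_mem _ (List.mem_append_left _ hc))).2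
      · rw [(hvt z hz).2] at hc
        exact a4.1 b hb (hum b (List.mem_cons_of_mem _ (List.mem_append_right _
          (List.mem_cons_of_mem _ hc)))).2
    · intro d hd
      rw [hB] at hd
      obtain ⟨hd, hdxy⟩ := hd
      obtain ⟨e, he, hs⟩ := a3 d hd
      rcases List.mem_cons.mp he with he | he
      · left
        rw [he] at hs
        have h5 : d ∈ S.hw x := (S.mem_hw hx).mpr ⟨hd, hs⟩
        rw [hw] at h5
        rcases List.mem_cons.mp h5 with h5 | h5
        · exact absurd (Or.inl h5) hdxy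
        · rcases List.mem_append.mp h5 with h5 | h5
          · obtain ⟨z, w, hu⟩ : ∃ z w, u = z :: w := by
              cases u with
              | nil => exact absurd h5 List.not_mem_nil
              | cons z w => exact ⟨z, w, rfl⟩
            have hz : z ∈ u.take 1 := by
              rw [hu, List.take_succ_cons]
              exact List.mem_cons_self
            refine ⟨z, List.mem_append_left _ hz, ?_⟩
            rw [(hut z hz).2]
            exact h5
          · rcases List.mem_cons.mp h5 with h5 | h5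
            · exact absurd (Or.inr (Set.mem_singleton_iff.mpr h5)) hdxy
            · obtain ⟨z, w, hv⟩ : ∃ z w, v = z :: w := by
                cases v with
                | nil => exact absurd h5 List.not_mem_nil
                | cons z w => exact ⟨z, w, rfl⟩
              have hz : z ∈ v.take 1 := by
                rw [hv, List.take_succ_cons]
                exact List.mem_cons_self
              refine ⟨z, List.mem_append_right _ hz, ?_⟩
              rw [(hvt z hz).2]
              exact h5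
      · right
        exact ⟨e, he, (S.mem_hw (hl1 e he)).mpr ⟨hd, hs⟩⟩
  · intro z hz
    obtain ⟨z', w, hu⟩ : ∃ z w, u = z :: w := by
      cases u with
      | nil => exact absurd hz List.not_mem_nil
      | cons z w => exact ⟨z, w, rfl⟩
    have hz' : z' ∈ u.take 1 := by
      rw [hu, List.take_succ_cons]
      exact List.mem_cons_self
    have h5 : z ∈ (S.glue x y hx hy).hw z' := by
      rw [(hut z' hz').2]
      exact hz
    have h6 := ((mem_hw _ (huB z' (hut z' hz').1)).mp h5).2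
    rw [← per_same _ h6, ← hw_length _ (huB z' (hut z' hz').1), (hut z' hz').2]
  · intro z hz
    obtain ⟨z', w, hv⟩ : ∃ z w, v = z :: w := by
      cases v with
      | nil => exact absurd hz List.not_mem_nil
      | cons z w => exact ⟨z, w, rfl⟩
    have hz' : z' ∈ v.take 1 := by
      rw [hv, List.take_succ_cons]
      exact List.mem_cons_self
    have h5 : z ∈ (S.glue x y hx hy).hw z' := by
      rw [(hvt z' hz').2]
      exact hz
    have h6 := ((mem_hw _ (hvB z' (hvt z' hz').1)).mp h5).2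
    rw [← per_same _ h6, ← hw_length _ (hvB z' (hvt z' hz').1), (hvt z' hz').2]

theorem hl_glue_merge {l u v : List D} (h : S.HL (x :: y :: l)) (hu : S.hw x = x :: u) (hv : S.hw y = y :: v) :
    (S.glue x y hx hy).HL ((u ++ v).take 1 ++ l) ∧
    (∀ z ∈ u ++ v, (S.glue x y hx hy).per z = (u ++ v).length) ∧
    ∀ d ∈ l, (S.glue x y hx hy).per d = S.per d := by
  obtain ⟨a1, a2, a3⟩ := h
  have a4 := List.pairwise_cons.mp a2
  have a5 := List.pairwise_cons.mp a4.2
  have hne : ¬ S.s.SameCycle x y := a4.1 y List.mem_cons_self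
  have hxy : x ≠ y := fun h => hne (by rw [h])
  have hun := S.hw_nodup hx
  rw [hu] at hun
  have hvn := S.hw_nodup hy
  rw [hv] at hvn
  have hn1 := List.nodup_cons.mp hun
  have hn2 := List.nodup_cons.mp hvn
  have hum : ∀ d ∈ x :: u, d ∈ S.B ∧ S.s.SameCycle x d := by
    intro d hd
    rw [← hu] at hd
    exact (S.mem_hw hx).mp hd
  have hvm : ∀ d ∈ y :: v, d ∈ S.B ∧ S.s.SameCycle y d := by
    intro d hd
    rw [← hv] at hd
    exact (S.mem_hw hy).mp hd
  have hB := glue_B S hx hy hxy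
  have hxl : ∀ z ∈ l, ¬ S.s.SameCycle x z := fun z hz => a4.1 z (List.mem_cons_of_mem _ hz)
  have hyl : ∀ z ∈ l, ¬ S.s.SameCycle y z := fun z hz => a5.1 z hz
  have hl1 : ∀ z ∈ l, z ∈ S.B := fun z hz => a1 z (List.mem_cons_of_mem _ (List.mem_cons_of_mem _ hz))
  have hlB : ∀ z ∈ l, z ∈ (S.glue x y hx hy).B := by
    intro z hz
    rw [hB]
    refine ⟨hl1 z hz, ?_⟩
    rintro (hc | hc)
    · exact hxl z hz (by rw [hc])
    · rw [Set.mem_singleton_iff] at hc
      exact hyl z hz (by rw [hc])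
  have hlw : ∀ z ∈ l, (S.glue x y hx hy).hw z = S.hw z := fun z hz =>
    hw_glue_other S hx hy (hl1 z hz) (hxl z hz) (hyl z hz)
  have huB : ∀ z ∈ u ++ v, z ∈ (S.glue x y hx hy).B := by
    intro z hz
    rw [hB]
    rcases List.mem_append.mp hz with hz | hz
    · refine ⟨(hum z (List.mem_cons_of_mem _ hz)).1, ?_⟩
      rintro (hc | hc)
      · exact hn1.1 (hc ▸ hz)
      · rw [Set.mem_singleton_iff] at hc
        exact hne (hc ▸ (hum z (List.mem_cons_of_mem _ hz)).2)
    · refine ⟨(hvm z (List.mem_cons_of_mem _ hz)).1, ?_⟩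
      rintro (hc | hc)
      · exact hne (hc ▸ (hvm z (List.mem_cons_of_mem _ hz)).2 : S.s.SameCycle y x).symm
      · rw [Set.mem_singleton_iff] at hc
        exact hn2.1 (hc ▸ hz)
  have hut : ∀ z ∈ (u ++ v).take 1, z ∈ u ++ v ∧ (S.glue x y hx hy).hw z = u ++ v := by
    intro z hz
    obtain ⟨w, hw'⟩ := take_one hz
    exact ⟨by rw [hw']; exact List.mem_cons_self, hw_glue_merge S hx hy hu hv hne hw'⟩
  have hex : ∀ z ∈ u ++ v, ∃ z' ∈ (u ++ v).take 1, z ∈ (S.glue x y hx hy).hw z' := by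
    intro z hz
    obtain ⟨z', w, hw'⟩ : ∃ z w, u ++ v = z :: w := by
      cases hh : u ++ v with
      | nil =>
        rw [hh] at hz
        exact absurd hz List.not_mem_nil
      | cons z w => exact ⟨z, w, rfl⟩
    have hz' : z' ∈ (u ++ v).take 1 := by
      rw [hw', List.take_succ_cons]
      exact List.mem_cons_self
    refine ⟨z', hz', ?_⟩
    rw [(hut z' hz').2]
    exact hz
  refine ⟨?_, ?_, fun d hd => per_of_hw (hl1 d hd) (hlB d hd) (hlw d hd)⟩
  · refine hl_splice (A := (u ++ v).take 1) a5.2 hl1 hlB hlw (fun z hz => huB z (hut z hz).1)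
      (take_pw _ _) ?_ ?_
    · intro z hz b hb hc
      rw [(hut z hz).2] at hc
      rcases List.mem_append.mp hc with hc | hc
      · exact hxl b hb (hum b (List.mem_cons_of_mem _ hc)).2
      · exact hyl b hb (hvm b (List.mem_cons_of_mem _ hc)).2
    · intro d hd
      rw [hB] at hd
      obtain ⟨hd, hdxy⟩ := hd
      obtain ⟨e, he, hs⟩ := a3 d hd
      rcases List.mem_cons.mp he with he | he
      · left
        rw [he] at hs
        have h5 : d ∈ S.hw x := (S.mem_hw hx).mpr ⟨hd, hs⟩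
        rw [hu] at h5
        rcases List.mem_cons.mp h5 with h5 | h5
        · exact absurd (Or.inl h5) hdxy
        · exact hex d (List.mem_append_left _ h5)
      · rcases List.mem_cons.mp he with he | he
        · left
          rw [he] at hs
          have h5 : d ∈ S.hw y := (S.mem_hw hy).mpr ⟨hd, hs⟩
          rw [hv] at h5
          rcases List.mem_cons.mp h5 with h5 | h5
          · exact absurd (Or.inr (Set.mem_singleton_iff.mpr h5)) hdxy
          · exact hex d (List.mem_append_right _ h5)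
        · right
          exact ⟨e, he, (S.mem_hw (hl1 e he)).mpr ⟨hd, hs⟩⟩
  · intro z hz
    obtain ⟨z', hz', h5⟩ := hex z hz
    have h6 := ((mem_hw _ (huB z' (hut z' hz').1)).mp h5).2
    rw [← per_same _ h6, ← hw_length _ (huB z' (hut z' hz').1), (hut z' hz').2]

end

end Part
end SYS
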