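import Pool.Agent.SYS.Lib.WordB

/-!
# SYS-Lib-HidA: hidden components of an explored region `S` of a triangulation `T`, basics

`X S` = hidden darts (darts of hidden faces and boundary darts); `Hc S T` = same hidden component.

PLAN.
* `X_a`: `S.Le T`: if `d ∈ R \ B` then `S.a d ≠ d`, so `T.a d = S.a d ∈ R`, and `S.a (S.a d) = d ≠ S.a d`, so `T.a d ∈ R \ B`.
  Hence `T.a` preserves the complement of `X`.
* `hc_a, hc_f, hc_nx`: single steps.  `hc_hole`: the hole is the `nx`-cycle (`mem_hw`, `hw` = powers of `nx`).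
* `hc_mem`: steps stay in `X` (`X_a`; `T.f` preserves `R` if `S.Le T`: `le_f_mem`; `nx` preserves `B`: `nx_mem`).
* `hc_ind`: induction principle for later use.
* `hc_meets`: let `Z = {e | e ∈ X, Hc d e}`; if it contains no boundary dart then all its elements are hidden face darts
  (`∉ R`), `Z` is closed under `T.a`, `T.f`, so `Z = univ` (`T.Conn`; look at the definition of `SST.Tri.Conn`), contradiction with `R.Nonempty`.
* `hconn_one`: both darts are related to boundary darts (`hc_meets`), and these are in the hole of `x` (`hc_hole`).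
-/

namespace SYS
namespace Part

open Classical SST

variable {D : Type} [Finite D]

/-- Hidden darts. -/
def X (S : Part D) : Set D := {d | d ∉ S.R ∨ d ∈ S.B}

/-- One step in the hidden part. -/
def HStep (S : Part D) (T : Tri D) (d e : D) : Prop :=
  d ∈ S.X ∧ (e = T.a d ∨ (d ∉ S.R ∧ e = T.f d) ∨ (d ∈ S.B ∧ e = S.nx d))

/-- Same hidden component. -/
def Hc (S : Part D) (T : Tri D) (d e : D) : Prop := Relation.EqvGen (S.HStep T) d e

/-- The hidden part is connected. -/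
def HConn (S : Part D) (T : Tri D) : Prop := ∀ d ∈ S.X, ∀ e ∈ S.X, S.Hc T d e

private theorem X_a' {S : Part D} {T : Tri D} (h : S.Le T) {d : D} (hd : d ∈ S.X) : T.a d ∈ S.X := by
  by_contra hcon
  have h1 : T.a d ∈ S.R := by
    by_contra h'
    exact hcon (Or.inl h')
  have h2 : S.a (T.a d) ≠ T.a d := fun h' => hcon (Or.inr ⟨h1, h'⟩)
  have h3 := h.2 _ h2
  rw [T.aa] at h3
  have h4 : d ∈ S.R := by
    rw [h3, mem_R_a]
    exact h1
  rcases hd with h5 | h5
  · exact h5 h4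
  · have h6 := h5.2
    rw [h3, S.aa] at h6
    exact h2 h6.symm

theorem X_a {S : Part D} {T : Tri D} (h : S.Le T) (d : D) : T.a d ∈ S.X ↔ d ∈ S.X := by
  refine ⟨fun hd => ?_, X_a' h⟩
  have := X_a' h hd
  rwa [T.aa] at this

theorem hc_refl (S : Part D) (T : Tri D) (d : D) : S.Hc T d d := Relation.EqvGen.refl d

theorem hc_symm {S : Part D} {T : Tri D} {d e : D} (h : S.Hc T d e) : S.Hc T e d := Relation.EqvGen.symm _ _ h

theorem hc_trans {S : Part D} {T : Tri D} {d e k : D} (h : S.Hc T d e) (h' : S.Hc T e k) : S.Hc T d k :=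
  Relation.EqvGen.trans _ _ _ h h'

theorem hc_mem {S : Part D} {T : Tri D} (h : S.Le T) {d e : D} (h' : S.Hc T d e) : d ∈ S.X ↔ e ∈ S.X := by
  induction h' with
  | rel x y hh =>
    refine ⟨fun _ => ?_, fun _ => hh.1⟩
    rcases hh with ⟨hx, rfl | ⟨h1, rfl⟩ | ⟨h1, rfl⟩⟩
    · exact (X_a h x).2 hx
    · exact Or.inl fun h2 => h1 ((le_f_mem h x).1 h2)
    · exact Or.inr ((nx_mem S).2 h1)
  | refl x => rfl
  | symm x y _ ih => exact ih.symm
  | trans x y z _ _ ih1 ih2 => exact ih1.trans ih2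

theorem hc_a {S : Part D} {T : Tri D} {d : D} (hd : d ∈ S.X) : S.Hc T d (T.a d) := by
  exact Relation.EqvGen.rel _ _ ⟨hd, Or.inl rfl⟩

theorem hc_f {S : Part D} {T : Tri D} {d : D} (hd : d ∉ S.R) : S.Hc T d (T.f d) := by
  exact Relation.EqvGen.rel _ _ ⟨Or.inl hd, Or.inr (Or.inl ⟨hd, rfl⟩)⟩

theorem hc_hole {S : Part D} {T : Tri D} {d e : D} (hd : d ∈ S.B) (he : e ∈ S.hw d) : S.Hc T d e := by
  obtain ⟨i, _, rfl⟩ := List.mem_map.1 he
  have key : ∀ i : ℕ, (S.nx ^ i) d ∈ S.B ∧ S.Hc T d ((S.nx ^ i) d) := by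
    intro i
    induction i with
    | zero => exact ⟨hd, Relation.EqvGen.refl _⟩
    | succ i ih =>
      rw [pow_succ', Equiv.Perm.mul_apply]
      exact ⟨(nx_mem S).2 ih.1, Relation.EqvGen.trans _ _ _ ih.2
        (Relation.EqvGen.rel _ _ ⟨Or.inr ih.1, Or.inr (Or.inr ⟨ih.1, rfl⟩)⟩)⟩
  exact (key i).2

/-- Induction over the steps. -/
theorem hc_ind {S : Part D} {T : Tri D} (P : D → D → Prop) (hr : ∀ d, P d d) (hs : ∀ d e, P d e → P e d)
    (ht : ∀ d e k, P d e → P e k → P d k) (ha : ∀ d ∈ S.X, P d (T.a d)) (hf : ∀ d ∉ S.R, P d (T.f d))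
    (hn : ∀ d ∈ S.B, P d (S.nx d)) {d e : D} (h : S.Hc T d e) : P d e := by
  induction h with
  | rel x y hh =>
    rcases hh with ⟨hx, rfl | ⟨h1, rfl⟩ | ⟨h1, rfl⟩⟩
    · exact ha x hx
    · exact hf x h1
    · exact hn x h1
  | refl x => exact hr x
  | symm x y _ ih => exact hs _ _ ih
  | trans x y z _ _ ih1 ih2 => exact ht _ _ _ ih1 ih2

theorem hc_nx {S : Part D} {T : Tri D} {d : D} (hd : d ∈ S.B) : S.Hc T d (S.nx d) := by
  exact Relation.EqvGen.rel _ _ ⟨Or.inr hd, Or.inr (Or.inr ⟨hd, rfl⟩)⟩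

/-- Every hidden component of a connected triangulation meets the boundary. -/
theorem hc_meets {S : Part D} {T : Tri D} (h : S.Le T) (hT : T.Conn) (hR : S.R.Nonempty) {d : D} (hd : d ∈ S.X) :
    ∃ e ∈ S.B, S.Hc T d e := by
  by_contra hcon
  push Not at hcon
  have h1 : {e | e ∈ S.X ∧ S.Hc T d e} = Set.univ := by
    apply hT
    · exact ⟨d, hd, Relation.EqvGen.refl _⟩
    · rintro e ⟨he, hde⟩
      have heB : e ∉ S.B := fun h' => hcon e h' hde
      have heR : e ∉ S.R := he.resolve_right heB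
      refine ⟨⟨(X_a h e).2 he, hc_trans hde (hc_a he)⟩, Or.inl fun h' => heR ((le_f_mem h e).1 h'),
        hc_trans hde (hc_f heR)⟩
  obtain ⟨r, hr⟩ := hR
  have h2 : r ∈ {e | e ∈ S.X ∧ S.Hc T d e} := by rw [h1]; trivial
  exact h2.1.elim (fun h' => h' hr) fun h' => hcon r h' h2.2

/-- With only one hole the hidden part is connected. -/
theorem hconn_one {S : Part D} {T : Tri D} (h : S.Le T) (hT : T.Conn) {x : D} (hx : x ∈ S.B)
    (h1 : ∀ d ∈ S.B, d ∈ S.hw x) : S.HConn T := by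
  intro d hd e he
  obtain ⟨d', hd', h2⟩ := hc_meets h hT ⟨x, hx.1⟩ hd
  obtain ⟨e', he', h3⟩ := hc_meets h hT ⟨x, hx.1⟩ he
  exact hc_trans (hc_trans h2 (hc_symm (hc_hole hx (h1 d' hd')))) (hc_trans (hc_hole hx (h1 e' he')) (hc_symm h3))

end Part
end SYS
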