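import Pool.Agent.SYS.Defs
import Pool.Agent.SYS.Lib.Ret

/-!
# SYS-Lib-Part: elementary lemmas on partial triangulations (`Part`)

PLAN.  All statements are short computations with `Equiv.swap`, `Equiv.Perm.mul_apply`.
`cyc3 t0 t1 t2 = swap t0 t1 * swap t1 t2` is the cycle `t0 → t1 → t2 → t0` (check: `t0 ↦ t0 ↦ t1`, `t1 ↦ t2 ↦ t2`,
`t2 ↦ t1 ↦ t0`).
* `mem_R_f`: `f` permutes the fixed points of `f`.
* `mem_R_a`: if `d` is not a fixed point of `f` then neither is `a d`: otherwise `a (a d) = a d` by `af`, so `a d = d`.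
* `glue`: `a' = a * swap x y`; `x, y` are fixed by `a`; involution: `a` commutes with `swap x y`.
* `face`: `f' = f * cyc3 t0 t1 t2` (disjoint supports), `a' = a * swap x t0`.
* `peel`: if `S.Le T`, `x ∈ B` then `T.a x ∈ B` or `T.a x ∉ R`: if `T.a x ∈ R \ B` then `S.a (T.a x) ≠ T.a x`, hence
  `T.a (T.a x) = S.a (T.a x)`, so `S.a (T.a x) = x` and `S.a x = T.a x ≠ x`, contradiction.
-/

namespace SYS

open Classical SST

/-- The cycle `t0 → t1 → t2 → t0`. -/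
def cyc3 {D : Type} [DecidableEq D] (t0 t1 t2 : D) : Equiv.Perm D := Equiv.swap t0 t1 * Equiv.swap t1 t2

namespace Part

variable {D : Type}

theorem ext' {S S' : Part D} (h1 : S.a = S'.a) (h2 : S.f = S'.f) : S = S' := by
  cases S; cases S'; simp at h1 h2; subst h1; subst h2; rfl

instance [Finite D] : Finite (Part D) :=
  Finite.of_injective (fun S : Part D => (S.a, S.f)) (by
    intro S S' h
    simp only [Prod.mk.injEq] at h
    exact Part.ext' h.1 h.2)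

theorem s_apply (S : Part D) (d : D) : S.s d = S.f (S.a d) := rfl

theorem mem_R_f (S : Part D) (d : D) : S.f d ∈ S.R ↔ d ∈ S.R := by
  show (S.f (S.f d) ≠ S.f d) ↔ S.f d ≠ d
  exact S.f.injective.ne_iff

theorem mem_R_a (S : Part D) (d : D) : S.a d ∈ S.R ↔ d ∈ S.R := by
  show (S.f (S.a d) ≠ S.a d) ↔ S.f d ≠ d
  constructor
  · intro h h1
    have h2 := S.af d h1
    rw [h2] at h
    exact h h1
  · intro h h1
    have h2 := S.af _ h1
    rw [S.aa] at h2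
    rw [← h2] at h1
    exact h h1

theorem mem_R_s (S : Part D) (d : D) : S.s d ∈ S.R ↔ d ∈ S.R := by
  rw [s_apply, mem_R_f, mem_R_a]

theorem s_not_mem (S : Part D) {d : D} (h : d ∉ S.R) : S.s d = d := by
  have h1 : S.f d = d := not_not.1 h
  rw [s_apply, S.af d h1, h1]

theorem B_sub_R (S : Part D) : S.B ⊆ S.R := by
  exact fun d h => h.1

/-- A triangulation as a partial triangulation. -/
def ofTri (T : Tri D) : Part D where
  a := T.a
  f := T.f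
  aa := T.aa
  fff := T.fff
  af := fun d h => absurd h (T.fne d)

theorem le_iff_sub (S : Part D) (T : Tri D) : S.Le T ↔ S.Sub (ofTri T) := Iff.rfl

theorem sub_refl (S : Part D) : S.Sub S := ⟨fun _ _ => rfl, fun _ _ => rfl⟩

theorem sub_trans {S S' S'' : Part D} (h : S.Sub S') (h' : S'.Sub S'') : S.Sub S'' := by
  refine ⟨fun d hd => ?_, fun d hd => ?_⟩
  · have h1 := h.1 d hd
    rw [h'.1 d (by rw [h1]; exact hd), h1]
  · have h1 := h.2 d hd
    rw [h'.2 d (by rw [h1]; exact hd), h1]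

theorem sub_le {S S' : Part D} {T : Tri D} (h : S.Sub S') (h' : S'.Le T) : S.Le T := by
  refine ⟨fun d hd => ?_, fun d hd => ?_⟩
  · have h1 := h.1 d hd
    rw [h'.1 d (by rw [h1]; exact hd), h1]
  · have h1 := h.2 d hd
    rw [h'.2 d (by rw [h1]; exact hd), h1]

theorem Sub.R_sub {S S' : Part D} (h : S.Sub S') : S.R ⊆ S'.R := by
  intro d hd
  show S'.f d ≠ d
  rw [h.1 d hd]
  exact hd

/-- The empty partial triangulation. -/
def emp : Part D where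
  a := 1
  f := 1
  aa := fun _ => rfl
  fff := fun _ => rfl
  af := fun _ _ => rfl

theorem emp_le (T : Tri D) : (emp : Part D).Le T := by
  exact ⟨fun d hd => absurd rfl hd, fun d hd => absurd rfl hd⟩

private theorem gl_x (a : Equiv.Perm D) {x y : D} (hy : a y = y) : (a * Equiv.swap x y) x = y := by
  rw [Equiv.Perm.mul_apply, Equiv.swap_apply_left, hy]

private theorem gl_y (a : Equiv.Perm D) {x y : D} (hx : a x = x) : (a * Equiv.swap x y) y = x := by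
  rw [Equiv.Perm.mul_apply, Equiv.swap_apply_right, hx]

private theorem gl_n (a : Equiv.Perm D) {x y d : D} (h1 : d ≠ x) (h2 : d ≠ y) :
    (a * Equiv.swap x y) d = a d := by
  rw [Equiv.Perm.mul_apply, Equiv.swap_apply_of_ne_of_ne h1 h2]

private theorem gl_aa (a : Equiv.Perm D) (haa : ∀ d, a (a d) = d) {x y : D} (hx : a x = x) (hy : a y = y)
    (d : D) : (a * Equiv.swap x y) ((a * Equiv.swap x y) d) = d := by
  by_cases h1 : d = x
  · rw [h1, gl_x a hy, gl_y a hx]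
  · by_cases h2 : d = y
    · rw [h2, gl_y a hx, gl_x a hy]
    · have h3 : a d ≠ x := by
        intro h
        apply h1
        rw [← haa d, h, hx]
      have h4 : a d ≠ y := by
        intro h
        apply h2
        rw [← haa d, h, hy]
      rw [gl_n a h1 h2, gl_n a h3 h4, haa]

private theorem cy0 {t0 t1 t2 : D} (h01 : t0 ≠ t1) (h20 : t2 ≠ t0) : cyc3 t0 t1 t2 t0 = t1 := by
  unfold cyc3
  rw [Equiv.Perm.mul_apply, Equiv.swap_apply_of_ne_of_ne h01 h20.symm, Equiv.swap_apply_left]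

private theorem cy1 {t0 t1 t2 : D} (h12 : t1 ≠ t2) (h20 : t2 ≠ t0) : cyc3 t0 t1 t2 t1 = t2 := by
  unfold cyc3
  rw [Equiv.Perm.mul_apply, Equiv.swap_apply_left, Equiv.swap_apply_of_ne_of_ne h20 h12.symm]

private theorem cy2 {t0 t1 t2 : D} : cyc3 t0 t1 t2 t2 = t0 := by
  unfold cyc3
  rw [Equiv.Perm.mul_apply, Equiv.swap_apply_right, Equiv.swap_apply_right]

private theorem cyn {t0 t1 t2 d : D} (h0 : d ≠ t0) (h1 : d ≠ t1) (h2 : d ≠ t2) : cyc3 t0 t1 t2 d = d := by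
  unfold cyc3
  rw [Equiv.Perm.mul_apply, Equiv.swap_apply_of_ne_of_ne h1 h2, Equiv.swap_apply_of_ne_of_ne h0 h1]

private theorem f0 (f : Equiv.Perm D) {t0 t1 t2 : D} (h1 : f t1 = t1) (h01 : t0 ≠ t1) (h20 : t2 ≠ t0) :
    (f * cyc3 t0 t1 t2) t0 = t1 := by
  rw [Equiv.Perm.mul_apply, cy0 h01 h20, h1]

private theorem f1 (f : Equiv.Perm D) {t0 t1 t2 : D} (h2 : f t2 = t2) (h12 : t1 ≠ t2) (h20 : t2 ≠ t0) :
    (f * cyc3 t0 t1 t2) t1 = t2 := by
  rw [Equiv.Perm.mul_apply, cy1 h12 h20, h2]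

private theorem f2 (f : Equiv.Perm D) {t0 t1 t2 : D} (h0 : f t0 = t0) :
    (f * cyc3 t0 t1 t2) t2 = t0 := by
  rw [Equiv.Perm.mul_apply, cy2, h0]

private theorem fn (f : Equiv.Perm D) {t0 t1 t2 d : D} (h0 : d ≠ t0) (h1 : d ≠ t1) (h2 : d ≠ t2) :
    (f * cyc3 t0 t1 t2) d = f d := by
  rw [Equiv.Perm.mul_apply, cyn h0 h1 h2]

private theorem ne_fix (f : Equiv.Perm D) {t d : D} (ht : f t = t) (h : d ≠ t) : f d ≠ t := by
  intro h1
  apply h
  rw [← ht] at h1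
  exact f.injective h1

private theorem f_fff (f : Equiv.Perm D) (hf : ∀ d, f (f (f d)) = d) {t0 t1 t2 : D} (h0 : f t0 = t0)
    (h1 : f t1 = t1) (h2 : f t2 = t2) (h01 : t0 ≠ t1) (h12 : t1 ≠ t2) (h20 : t2 ≠ t0) (d : D) :
    (f * cyc3 t0 t1 t2) ((f * cyc3 t0 t1 t2) ((f * cyc3 t0 t1 t2) d)) = d := by
  by_cases e0 : d = t0
  · rw [e0, f0 f h1 h01 h20, f1 f h2 h12 h20, f2 f h0]
  · by_cases e1 : d = t1
    · rw [e1, f1 f h2 h12 h20, f2 f h0, f0 f h1 h01 h20]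
    · by_cases e2 : d = t2
      · rw [e2, f2 f h0, f0 f h1 h01 h20, f1 f h2 h12 h20]
      · have a0 := ne_fix f h0 e0
        have a1 := ne_fix f h1 e1
        have a2 := ne_fix f h2 e2
        rw [fn f e0 e1 e2, fn f a0 a1 a2, fn f (ne_fix f h0 a0) (ne_fix f h1 a1) (ne_fix f h2 a2), hf]

private theorem f_fix (f : Equiv.Perm D) {t0 t1 t2 : D} (h0 : f t0 = t0)
    (h1 : f t1 = t1) (h2 : f t2 = t2) (h01 : t0 ≠ t1) (h12 : t1 ≠ t2) (h20 : t2 ≠ t0) {d : D}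
    (hd : (f * cyc3 t0 t1 t2) d = d) : d ≠ t0 ∧ d ≠ t1 ∧ d ≠ t2 ∧ f d = d := by
  have e0 : d ≠ t0 := by
    rintro rfl
    rw [f0 f h1 h01 h20] at hd
    exact h01 hd.symm
  have e1 : d ≠ t1 := by
    rintro rfl
    rw [f1 f h2 h12 h20] at hd
    exact h12 hd.symm
  have e2 : d ≠ t2 := by
    rintro rfl
    rw [f2 f h0] at hd
    exact h20 hd.symm
  rw [fn f e0 e1 e2] at hd
  exact ⟨e0, e1, e2, hd⟩

private theorem fix_f {S : Part D} {t : D} (h : t ∉ S.R) : S.f t = t := not_not.1 h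

private theorem fix_a {S : Part D} {t : D} (h : t ∉ S.R) : S.a t = t := S.af t (fix_f h)

private theorem ne_of_R {S : Part D} {d t : D} (hd : d ∈ S.R) (h : t ∉ S.R) : d ≠ t := by
  rintro rfl
  exact h hd

/-- Reveal that the boundary darts `x` and `y` are glued. -/
noncomputable def glue (S : Part D) (x y : D) (hx : x ∈ S.B) (hy : y ∈ S.B) : Part D where
  a := S.a * Equiv.swap x y
  f := S.f
  aa := by
    exact gl_aa S.a S.aa hx.2 hy.2
  fff := S.fff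
  af := by
    intro d hd
    have h1 : d ≠ x := by
      rintro rfl
      exact hx.1 hd
    have h2 : d ≠ y := by
      rintro rfl
      exact hy.1 hd
    rw [gl_n S.a h1 h2, S.af d hd]

/-- Reveal the face `t0 → t1 → t2` behind the boundary dart `x`, `t0` is glued to `x`. -/
noncomputable def face (S : Part D) (x t0 t1 t2 : D) (hx : x ∈ S.B) (h0 : t0 ∉ S.R) (h1 : t1 ∉ S.R) (h2 : t2 ∉ S.R)
    (h01 : t0 ≠ t1) (h12 : t1 ≠ t2) (h20 : t2 ≠ t0) : Part D where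
  a := S.a * Equiv.swap x t0
  f := S.f * cyc3 t0 t1 t2
  aa := by
    exact gl_aa S.a S.aa hx.2 (fix_a h0)
  fff := by
    exact f_fff S.f S.fff (fix_f h0) (fix_f h1) (fix_f h2) h01 h12 h20
  af := by
    intro d hd
    obtain ⟨e0, _, _, e3⟩ := f_fix S.f (fix_f h0) (fix_f h1) (fix_f h2) h01 h12 h20 hd
    have h1 : d ≠ x := by
      rintro rfl
      exact hx.1 e3
    rw [gl_n S.a h1 e0, S.af d e3]

/-- Reveal a new face, not glued to anything. -/
noncomputable def newTri (S : Part D) (t0 t1 t2 : D) (h0 : t0 ∉ S.R) (h1 : t1 ∉ S.R) (h2 : t2 ∉ S.R)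
    (h01 : t0 ≠ t1) (h12 : t1 ≠ t2) (h20 : t2 ≠ t0) : Part D where
  a := S.a
  f := S.f * cyc3 t0 t1 t2
  aa := S.aa
  fff := by
    exact f_fff S.f S.fff (fix_f h0) (fix_f h1) (fix_f h2) h01 h12 h20
  af := by
    intro d hd
    obtain ⟨_, _, _, e3⟩ := f_fix S.f (fix_f h0) (fix_f h1) (fix_f h2) h01 h12 h20 hd
    exact S.af d e3

section
variable (S : Part D) {x y : D} (hx : x ∈ S.B) (hy : y ∈ S.B)

theorem glue_s : (S.glue x y hx hy).s = S.s * Equiv.swap x y := by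
  show S.f * (S.a * Equiv.swap x y) = S.f * S.a * Equiv.swap x y
  rw [mul_assoc]

theorem glue_R : (S.glue x y hx hy).R = S.R := by
  rfl

theorem glue_B (hxy : x ≠ y) : (S.glue x y hx hy).B = S.B \ {x, y} := by
  ext d
  show (S.f d ≠ d ∧ (S.a * Equiv.swap x y) d = d) ↔ (S.f d ≠ d ∧ S.a d = d) ∧ d ∉ ({x, y} : Set D)
  rw [Set.mem_insert_iff, Set.mem_singleton_iff]
  by_cases h1 : d = x
  · rw [h1, gl_x S.a hy.2]
    exact ⟨fun h => absurd h.2.symm hxy, fun h => absurd (Or.inl rfl) h.2⟩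
  · by_cases h2 : d = y
    · rw [h2, gl_y S.a hx.2]
      exact ⟨fun h => absurd h.2 hxy, fun h => absurd (Or.inr rfl) h.2⟩
    · rw [gl_n S.a h1 h2]
      exact ⟨fun h => ⟨h, fun h' => h'.elim h1 h2⟩, fun h => h.1⟩

theorem glue_sub : S.Sub (S.glue x y hx hy) := by
  refine ⟨fun _ _ => rfl, fun d hd => ?_⟩
  have h1 : d ≠ x := by
    rintro rfl
    exact hd hx.2
  have h2 : d ≠ y := by
    rintro rfl
    exact hd hy.2
  exact gl_n S.a h1 h2

theorem glue_le {T : Tri D} (h : S.Le T) (hT : T.a x = y) : (S.glue x y hx hy).Le T := by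
  refine ⟨h.1, fun d hd => ?_⟩
  change (S.a * Equiv.swap x y) d ≠ d at hd
  show T.a d = (S.a * Equiv.swap x y) d
  by_cases h1 : d = x
  · rw [h1, gl_x S.a hy.2, hT]
  · by_cases h2 : d = y
    · rw [h2, gl_y S.a hx.2, ← hT, T.aa]
    · rw [gl_n S.a h1 h2] at hd ⊢
      exact h.2 d hd

end

section
variable (S : Part D) {x t0 t1 t2 : D} (hx : x ∈ S.B) (h0 : t0 ∉ S.R) (h1 : t1 ∉ S.R) (h2 : t2 ∉ S.R)
    (h01 : t0 ≠ t1) (h12 : t1 ≠ t2) (h20 : t2 ≠ t0)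

theorem newTri_R : (S.newTri t0 t1 t2 h0 h1 h2 h01 h12 h20).R = S.R ∪ {t0, t1, t2} := by
  ext d
  show ((S.f * cyc3 t0 t1 t2) d ≠ d) ↔ (S.f d ≠ d) ∨ d ∈ ({t0, t1, t2} : Set D)
  rw [Set.mem_insert_iff, Set.mem_insert_iff, Set.mem_singleton_iff]
  constructor
  · intro h
    by_contra hc
    rw [not_or, not_or, not_or, not_not] at hc
    rw [fn S.f hc.2.1 hc.2.2.1 hc.2.2.2] at h
    exact h hc.1
  · intro h hd
    obtain ⟨e0, e1, e2, e3⟩ := f_fix S.f (fix_f h0) (fix_f h1) (fix_f h2) h01 h12 h20 hd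
    rcases h with h | h | h | h
    · exact h e3
    · exact e0 h
    · exact e1 h
    · exact e2 h

theorem newTri_B : (S.newTri t0 t1 t2 h0 h1 h2 h01 h12 h20).B = S.B ∪ {t0, t1, t2} := by
  ext d
  have hR := congrArg (fun A : Set D => d ∈ A) (newTri_R S h0 h1 h2 h01 h12 h20)
  change (d ∈ (S.newTri t0 t1 t2 h0 h1 h2 h01 h12 h20).R) = (d ∈ S.R ∪ {t0, t1, t2}) at hR
  show (d ∈ (S.newTri t0 t1 t2 h0 h1 h2 h01 h12 h20).R ∧ S.a d = d) ↔
    (d ∈ S.R ∧ S.a d = d) ∨ d ∈ ({t0, t1, t2} : Set D)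
  rw [hR, Set.mem_union, Set.mem_insert_iff, Set.mem_insert_iff, Set.mem_singleton_iff]
  constructor
  · rintro ⟨h | h, h'⟩
    · exact Or.inl ⟨h, h'⟩
    · exact Or.inr h
  · rintro (⟨h, h'⟩ | h)
    · exact ⟨Or.inl h, h'⟩
    · refine ⟨Or.inr h, ?_⟩
      rcases h with rfl | rfl | rfl
      · exact fix_a h0
      · exact fix_a h1
      · exact fix_a h2

theorem newTri_sub : S.Sub (S.newTri t0 t1 t2 h0 h1 h2 h01 h12 h20) := by
  refine ⟨fun d hd => ?_, fun _ _ => rfl⟩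
  exact fn S.f (ne_of_R hd h0) (ne_of_R hd h1) (ne_of_R hd h2)

theorem newTri_le {T : Tri D} (h : S.Le T) (hT1 : T.f t0 = t1) (hT2 : T.f t1 = t2) :
    (S.newTri t0 t1 t2 h0 h1 h2 h01 h12 h20).Le T := by
  refine ⟨fun d hd => ?_, h.2⟩
  change (S.f * cyc3 t0 t1 t2) d ≠ d at hd
  show T.f d = (S.f * cyc3 t0 t1 t2) d
  by_cases e0 : d = t0
  · rw [e0, f0 S.f (fix_f h1) h01 h20, hT1]
  · by_cases e1 : d = t1
    · rw [e1, f1 S.f (fix_f h2) h12 h20, hT2]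
    · by_cases e2 : d = t2
      · rw [e2, f2 S.f (fix_f h0), ← hT2, ← hT1, T.fff]
      · rw [fn S.f e0 e1 e2] at hd ⊢
        exact h.1 d hd

/-- `face` is `newTri` followed by `glue`. -/
theorem face_eq : S.face x t0 t1 t2 hx h0 h1 h2 h01 h12 h20 =
    (S.newTri t0 t1 t2 h0 h1 h2 h01 h12 h20).glue x t0
      (by rw [newTri_B]; exact Or.inl hx) (by rw [newTri_B]; exact Or.inr (Or.inl rfl)) := by
  exact ext' rfl rfl

theorem face_s_x : (S.face x t0 t1 t2 hx h0 h1 h2 h01 h12 h20).s x = t1 := by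
  show (S.f * cyc3 t0 t1 t2) ((S.a * Equiv.swap x t0) x) = t1
  rw [gl_x S.a (fix_a h0), f0 S.f (fix_f h1) h01 h20]

theorem face_s_t1 : (S.face x t0 t1 t2 hx h0 h1 h2 h01 h12 h20).s t1 = t2 := by
  show (S.f * cyc3 t0 t1 t2) ((S.a * Equiv.swap x t0) t1) = t2
  rw [gl_n S.a (ne_of_R hx.1 h1).symm h01.symm, fix_a h1, f1 S.f (fix_f h2) h12 h20]

theorem face_s_t2 : (S.face x t0 t1 t2 hx h0 h1 h2 h01 h12 h20).s t2 = t0 := by
  show (S.f * cyc3 t0 t1 t2) ((S.a * Equiv.swap x t0) t2) = t0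
  rw [gl_n S.a (ne_of_R hx.1 h2).symm h20, fix_a h2, f2 S.f (fix_f h0)]

theorem face_s_t0 : (S.face x t0 t1 t2 hx h0 h1 h2 h01 h12 h20).s t0 = S.s x := by
  show (S.f * cyc3 t0 t1 t2) ((S.a * Equiv.swap x t0) t0) = S.f (S.a x)
  rw [gl_y S.a hx.2, fn S.f (ne_of_R hx.1 h0) (ne_of_R hx.1 h1) (ne_of_R hx.1 h2), hx.2]

theorem face_s_ne {d : D} (hd : d ≠ x) (hd0 : d ≠ t0) (hd1 : d ≠ t1) (hd2 : d ≠ t2) :
    (S.face x t0 t1 t2 hx h0 h1 h2 h01 h12 h20).s d = S.s d := by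
  show (S.f * cyc3 t0 t1 t2) ((S.a * Equiv.swap x t0) d) = S.f (S.a d)
  rw [gl_n S.a hd hd0, fn S.f (ne_fix S.a (fix_a h0) hd0) (ne_fix S.a (fix_a h1) hd1)
    (ne_fix S.a (fix_a h2) hd2)]

theorem face_R : (S.face x t0 t1 t2 hx h0 h1 h2 h01 h12 h20).R = S.R ∪ {t0, t1, t2} := by
  rw [face_eq, glue_R, newTri_R]

theorem face_B : (S.face x t0 t1 t2 hx h0 h1 h2 h01 h12 h20).B = (S.B \ {x}) ∪ {t1, t2} := by
  rw [face_eq, glue_B _ _ _ (ne_of_R hx.1 h0), newTri_B]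
  ext d
  simp only [Set.mem_sdiff, Set.mem_union, Set.mem_insert_iff, Set.mem_singleton_iff]
  constructor
  · rintro ⟨h | h | h | h, h'⟩
    · exact Or.inl ⟨h, fun e => h' (Or.inl e)⟩
    · exact absurd (Or.inr h) h'
    · exact Or.inr (Or.inl h)
    · exact Or.inr (Or.inr h)
  · rintro (⟨h, h'⟩ | h | h)
    · exact ⟨Or.inl h, fun e => e.elim h' (ne_of_R h.1 h0)⟩
    · refine ⟨Or.inr (Or.inr (Or.inl h)), ?_⟩
      rintro (e | e)
      · exact ne_of_R hx.1 h1 (e.symm.trans h)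
      · exact h01 (e.symm.trans h)
    · refine ⟨Or.inr (Or.inr (Or.inr h)), ?_⟩
      rintro (e | e)
      · exact ne_of_R hx.1 h2 (e.symm.trans h)
      · exact h20 (h.symm.trans e)

theorem face_sub : S.Sub (S.face x t0 t1 t2 hx h0 h1 h2 h01 h12 h20) := by
  rw [face_eq]
  exact sub_trans (newTri_sub S h0 h1 h2 h01 h12 h20) (glue_sub _ _ _)

end

theorem face_le (S : Part D) {T : Tri D} (h : S.Le T) {x : D} (hx : x ∈ S.B) (h' : T.a x ∉ S.R)
    (h1 : T.f (T.a x) ∉ S.R) (h2 : T.f (T.f (T.a x)) ∉ S.R) (h01 : T.a x ≠ T.f (T.a x))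
    (h12 : T.f (T.a x) ≠ T.f (T.f (T.a x))) (h20 : T.f (T.f (T.a x)) ≠ T.a x) :
    (S.face x (T.a x) (T.f (T.a x)) (T.f (T.f (T.a x))) hx h' h1 h2 h01 h12 h20).Le T := by
  rw [face_eq]
  exact glue_le _ _ _ (newTri_le S h' h1 h2 h01 h12 h20 h rfl rfl) rfl

/-- The faces of `T` are revealed completely. -/
theorem le_f_mem {S : Part D} {T : Tri D} (h : S.Le T) (d : D) : T.f d ∈ S.R ↔ d ∈ S.R := by
  have key : ∀ e, e ∈ S.R → T.f e ∈ S.R := by
    intro e he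
    rw [h.1 e he, mem_R_f]
    exact he
  constructor
  · intro hd
    have h1 := key _ (key _ hd)
    rw [T.fff] at h1
    exact h1
  · exact key d

theorem tri_ne (T : Tri D) (d : D) : d ≠ T.f d ∧ T.f d ≠ T.f (T.f d) ∧ T.f (T.f d) ≠ d := by
  refine ⟨(T.fne d).symm, fun h => T.fne (T.f d) h.symm, fun h => T.fne d ?_⟩
  have h1 := T.fff d
  rw [h] at h1
  exact h1

/-- One peeling step. -/
theorem peel {S : Part D} {T : Tri D} (h : S.Le T) {x : D} (hx : x ∈ S.B) :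
    (T.a x ∈ S.B ∧ T.a x ≠ x) ∨ T.a x ∉ S.R := by
  by_cases hR : T.a x ∈ S.R
  · refine Or.inl ⟨⟨hR, ?_⟩, T.ane x⟩
    by_contra hne
    have h1 := h.2 _ hne
    rw [T.aa] at h1
    have h2 := S.aa (T.a x)
    rw [← h1, hx.2] at h2
    exact T.ane x h2.symm
  · exact Or.inr hR

/-- The triangulation agrees with `S` on the revealed darts which are not on the boundary. -/
theorem le_s {S : Part D} {T : Tri D} (h : S.Le T) {d : D} (hd : d ∈ S.R) (hb : d ∉ S.B) : T.s d = S.s d := by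
  have h1 : S.a d ≠ d := fun h' => hb ⟨hd, h'⟩
  show T.f (T.a d) = S.f (S.a d)
  rw [h.2 d h1]
  exact h.1 _ ((mem_R_a S d).2 hd)

theorem le_antisymm_R {S : Part D} {T T' : Tri D} (h : S.Le T) (h' : S.Le T')
    (hf : ∀ d, d ∉ S.R → T.f d = T'.f d) (ha : ∀ d, d ∉ S.R ∨ d ∈ S.B → T.a d = T'.a d) : T = T' := by
  refine Tri.ext' (Equiv.ext fun d => ?_) (Equiv.ext fun d => ?_)
  · by_cases h1 : d ∉ S.R ∨ d ∈ S.B
    · exact ha d h1
    · rw [not_or, not_not] at h1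
      have h2 : S.a d ≠ d := fun e => h1.2 ⟨h1.1, e⟩
      rw [h.2 d h2, h'.2 d h2]
  · by_cases h1 : d ∈ S.R
    · rw [h.1 d h1, h'.1 d h1]
    · exact hf d h1

end Part

end SYS
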