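import Pool.Agent.SYS.Lib.WordA

/-!
# SYS-Lib-WordB: hole words after a gluing or a new face

Hole words are closed chains of `s`-paths with intermediate darts off the boundary; a gluing exchanges the
paths that start at the two glued darts; `face` is `newTri` followed by `glue`.
-/

namespace SYS
namespace Part

open Classical SST

/-- path of `σ` with intermediate elements not in `X` -/
private inductive Pth {D : Type} (σ : Equiv.Perm D) (X : Set D) : D → D → Prop
  | step (d : D) : Pth σ X d (σ d)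
  | cons {d e : D} : Pth σ X d e → e ∉ X → Pth σ X d (σ e)

private theorem Pth.trans {D : Type} {σ : Equiv.Perm D} {X : Set D} {d e f : D} (h : Pth σ X d e)
    (he : e ∉ X) (h' : Pth σ X e f) : Pth σ X d f := by
  induction h' with
  | step => exact Pth.cons h he
  | cons _ h2 ih => exact Pth.cons ih h2

private theorem Pth.exists {D : Type} {σ : Equiv.Perm D} {X : Set D} {d e : D} (h : Pth σ X d e) :
    ∃ j : ℕ, e = (σ ^ (j + 1)) d ∧ ∀ i < j, (σ ^ (i + 1)) d ∉ X := by
  induction h with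
  | step => exact ⟨0, by rw [zero_add, pow_one], fun i hi => absurd hi (Nat.not_lt_zero i)⟩
  | cons _ he ih =>
    obtain ⟨j, h1, h2⟩ := ih
    refine ⟨j + 1, ?_, ?_⟩
    · rw [h1, pow_succ' σ (j + 1), Equiv.Perm.mul_apply]
    · intro i hi
      rcases Nat.lt_succ_iff_lt_or_eq.mp hi with h3 | h3
      · exact h2 i h3
      · rw [h3, ← h1]
        exact he

private theorem pth_of {D : Type} {σ : Equiv.Perm D} {X : Set D} {d : D} (j : ℕ)
    (h : ∀ i < j, (σ ^ (i + 1)) d ∉ X) : Pth σ X d ((σ ^ (j + 1)) d) := by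
  induction j with
  | zero =>
    rw [zero_add, pow_one]
    exact Pth.step d
  | succ j ih =>
    have h1 := Pth.cons (ih fun i hi => h i (by omega)) (h j (by omega))
    rw [pow_succ' σ (j + 1), Equiv.Perm.mul_apply]
    exact h1

variable {D : Type} [Finite D]

private theorem nx_of_pth (S : Part D) {d e : D} (hd : d ∈ S.B) (he : e ∈ S.B) (h : Pth S.s S.B d e) :
    S.nx d = e := by
  obtain ⟨j, h1, h2⟩ := h.exists
  rw [h1]
  exact ret_eq S.s hd (by rw [← h1]; exact he) h2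

private theorem pth_nx (S : Part D) {d : D} (hd : d ∈ S.B) : Pth S.s S.B d (S.nx d) := by
  obtain ⟨j, h1, _, h3⟩ := ret_spec S.s hd
  have h4 : S.nx d = (S.s ^ (j + 1)) d := h1
  rw [h4]
  exact pth_of j h3

private theorem chain_map {R R' : D → D → Prop} {c : D} {l : List D}
    (h : ∀ d ∈ l, ∀ e, R d e → R' d e) (hc : List.IsChain R (l ++ [c])) : List.IsChain R' (l ++ [c]) := by
  induction l with
  | nil => exact List.isChain_singleton c
  | cons a l ih =>
    rcases l with _ | ⟨b, l⟩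
    · have h1 := (List.isChain_cons_cons.mp hc).1
      exact List.isChain_cons_cons.mpr ⟨h a List.mem_cons_self _ h1, List.isChain_singleton c⟩
    · have h1 := List.isChain_cons_cons.mp hc
      exact List.isChain_cons_cons.mpr ⟨h a List.mem_cons_self _ h1.1,
        ih (fun d hd e => h d (List.mem_cons_of_mem _ hd) e) h1.2⟩

private theorem chain_tr {R R' : D → D → Prop} {a a' c : D} {l : List D}
    (hc : List.IsChain R (a :: (l ++ [c]))) (ha : ∀ b, R a b → R' a' b)
    (h : ∀ d ∈ l, ∀ e, R d e → R' d e) : List.IsChain R' (a' :: (l ++ [c])) := by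
  rcases l with _ | ⟨b, l⟩
  · have h1 := (List.isChain_cons_cons.mp hc).1
    exact List.isChain_cons_cons.mpr ⟨ha _ h1, List.isChain_singleton c⟩
  · have h1 := List.isChain_cons_cons.mp hc
    exact List.isChain_cons_cons.mpr ⟨ha _ h1.1, chain_map h h1.2⟩

private theorem chain_remove {R : D → D → Prop} {e : D} (he : ∀ a b, R a e → R e b → R a b)
    {l1 l2 : List D} (h1 : l1 ≠ []) (h2 : l2 ≠ []) (h : List.IsChain R (l1 ++ e :: l2)) :
    List.IsChain R (l1 ++ l2) := by
  induction l1 with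
  | nil => exact absurd rfl h1
  | cons a l ih =>
    rcases l with _ | ⟨b, l⟩
    · rcases l2 with _ | ⟨b, l2⟩
      · exact absurd rfl h2
      · have h3 := List.isChain_cons_cons.mp h
        have h4 := List.isChain_cons_cons.mp h3.2
        exact List.isChain_cons_cons.mpr ⟨he _ _ h3.1 h4.1, h4.2⟩
    · have h3 := List.isChain_cons_cons.mp h
      exact List.isChain_cons_cons.mpr ⟨h3.1, ih (List.cons_ne_nil _ _) h3.2⟩

private theorem hw_cyc (S : Part D) {x : D} (hx : x ∈ S.B) {u : List D} (h : S.hw x = x :: u) :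
    List.IsChain (Pth S.s S.B) (x :: (u ++ [x])) := by
  have hB : ∀ d ∈ x :: u, d ∈ S.B := by
    intro d hd
    rw [← h] at hd
    exact ((S.mem_hw hx).mp hd).1
  have hch := S.hw_chain hx
  rw [h] at hch
  -- the last step
  have hch' : List.IsChain (fun d e => S.nx d = e) (x :: (u ++ [x])) := by
    rcases List.eq_nil_or_concat u with hu | ⟨u', l, hu⟩
    · subst hu
      have h1 : S.nx x ∈ S.hw x := by
        rw [S.mem_hw hx]
        refine ⟨(S.nx_mem).mpr hx, ?_⟩
        obtain ⟨j, h1, _⟩ := (pth_nx S hx).exists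
        exact ⟨((j + 1 : ℕ) : ℤ), by rw [h1, zpow_natCast]⟩
      rw [h, List.mem_singleton] at h1
      exact List.isChain_cons_cons.mpr ⟨h1, List.isChain_singleton x⟩
    · rw [List.concat_eq_append] at hu
      subst hu
      have hl : l ∈ S.B := hB l (by simp)
      have h1 : S.hw x = (x :: u') ++ l :: [] := h
      have h2 := S.hw_rot hx h1
      have h3 := S.hw_chain hl
      rw [h2, List.nil_append] at h3
      have h4 := (List.isChain_cons_cons.mp h3).1
      have h5 : List.IsChain (fun d e => S.nx d = e) ((x :: u') ++ [l]) := hch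
      have h6 : List.IsChain (fun d e => S.nx d = e) ((x :: u') ++ l :: [x]) :=
        List.isChain_split.mpr ⟨h5, List.isChain_cons_cons.mpr ⟨h4, List.isChain_singleton x⟩⟩
      have h7 : x :: (u' ++ [l] ++ [x]) = (x :: u') ++ l :: [x] := by simp
      rw [h7]
      exact h6
  have h8 : List.IsChain (fun d e => S.nx d = e) ((x :: u) ++ [x]) := hch'
  have h9 := chain_map (R := fun d e => S.nx d = e) (R' := Pth S.s S.B) (l := x :: u) (c := x)
    (fun d hd e hde => by
      have h10 := pth_nx S (hB d hd)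
      rw [hde] at h10
      exact h10) h8
  exact h9

private theorem hw_of_cyc (S : Part D) {z : D} {w : List D} (hB : ∀ d ∈ z :: w, d ∈ S.B)
    (hn : (z :: w).Nodup) (h3 : List.IsChain (Pth S.s S.B) ((z :: w) ++ [z])) :
    S.hw z = z :: w := by
  -- from paths to successors
  have h4 : ∀ (l : List D) (c : D), (∀ d ∈ l, d ∈ S.B) → c ∈ S.B →
      List.IsChain (Pth S.s S.B) (l ++ [c]) → List.IsChain (fun d e => S.nx d = e) (l ++ [c]) := by
    intro l c hl hcB hch
    induction l with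
    | nil => exact List.isChain_singleton c
    | cons a l ih =>
      rcases l with _ | ⟨b, l⟩
      · have h5 := (List.isChain_cons_cons.mp hch).1
        exact List.isChain_cons_cons.mpr ⟨nx_of_pth S (hl a List.mem_cons_self) hcB h5,
          List.isChain_singleton c⟩
      · have h5 := List.isChain_cons_cons.mp hch
        exact List.isChain_cons_cons.mpr ⟨nx_of_pth S (hl a List.mem_cons_self)
          (hl b (by simp)) h5.1, ih (fun d hd => hl d (List.mem_cons_of_mem _ hd)) h5.2⟩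
  have h5 := h4 (z :: w) z hB (hB z List.mem_cons_self) h3
  have h6 := List.isChain_append.mp h5
  refine S.hw_eq_of hB hn h6.1 ?_
  refine h6.2.2 _ ?_ z (by simp)
  rw [List.getLast?_eq_some_getLast (List.cons_ne_nil z w)]
  exact Option.mem_some_self _

private theorem hw_close (S : Part D) {p z : D} {w : List D} (hp : p ∉ S.B) (hB : ∀ d ∈ z :: w, d ∈ S.B)
    (hn : (z :: w).Nodup) (hc : List.IsChain (Pth S.s S.B) (p :: (z :: w ++ [p]))) :
    S.hw z = z :: w := by
  have h1 := List.isChain_cons_cons.mp hc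
  have h2 : List.IsChain (Pth S.s S.B) ((z :: w) ++ p :: [z]) :=
    List.isChain_split.mpr ⟨h1.2, List.isChain_cons_cons.mpr ⟨h1.1, List.isChain_singleton z⟩⟩
  have h3 := chain_remove (fun a b ha hb => ha.trans hp hb) (List.cons_ne_nil _ _)
    (List.cons_ne_nil _ _) h2
  exact hw_of_cyc S hB hn h3

section
variable (S : Part D) {x y : D} (hx : x ∈ S.B) (hy : y ∈ S.B)

private theorem glue_pth (hxy : x ≠ y) {d e : D} (h : Pth S.s S.B d e) :
    Pth (S.glue x y hx hy).s (S.glue x y hx hy).B (Equiv.swap x y d) e := by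
  have hs : ∀ d, (S.glue x y hx hy).s (Equiv.swap x y d) = S.s d := by
    intro d
    rw [glue_s, Equiv.Perm.mul_apply, Equiv.swap_apply_self]
  induction h with
  | step =>
    have h1 := Pth.step (σ := (S.glue x y hx hy).s) (X := (S.glue x y hx hy).B) (Equiv.swap x y d)
    rw [hs] at h1
    exact h1
  | cons h2 he ih =>
    rename_i e
    have hex : e ≠ x := fun h => he (h ▸ hx)
    have hey : e ≠ y := fun h => he (h ▸ hy)
    have h3 : e ∉ (S.glue x y hx hy).B := by
      rw [glue_B S hx hy hxy]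
      exact fun h => he h.1
    have h4 := Pth.cons ih h3
    have h5 : (S.glue x y hx hy).s e = S.s e := by
      have h6 := hs e
      rw [Equiv.swap_apply_of_ne_of_ne hex hey] at h6
      exact h6
    rw [h5] at h4
    exact h4

private theorem glue_pth_ne (hxy : x ≠ y) {d : D} (hdx : d ≠ x) (hdy : d ≠ y) (e : D)
    (h : Pth S.s S.B d e) : Pth (S.glue x y hx hy).s (S.glue x y hx hy).B d e := by
  have h1 := glue_pth S hx hy hxy h
  rw [Equiv.swap_apply_of_ne_of_ne hdx hdy] at h1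
  exact h1

private theorem glue_pth_l (hxy : x ≠ y) (e : D)
    (h : Pth S.s S.B x e) : Pth (S.glue x y hx hy).s (S.glue x y hx hy).B y e := by
  have h1 := glue_pth S hx hy hxy h
  rw [Equiv.swap_apply_left] at h1
  exact h1

private theorem glue_pth_r (hxy : x ≠ y) (e : D)
    (h : Pth S.s S.B y e) : Pth (S.glue x y hx hy).s (S.glue x y hx hy).B x e := by
  have h1 := glue_pth S hx hy hxy h
  rw [Equiv.swap_apply_right] at h1
  exact h1

private theorem glue_x (hxy : x ≠ y) : x ∉ (S.glue x y hx hy).B := by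
  rw [glue_B S hx hy hxy]
  exact fun h => h.2 (Or.inl rfl)

private theorem glue_y (hxy : x ≠ y) : y ∉ (S.glue x y hx hy).B := by
  rw [glue_B S hx hy hxy]
  exact fun h => h.2 (Or.inr rfl)

private theorem glue_mem (hxy : x ≠ y) {d : D} (hd : d ∈ S.B) (hdx : d ≠ x) (hdy : d ≠ y) :
    d ∈ (S.glue x y hx hy).B := by
  rw [glue_B S hx hy hxy]
  refine ⟨hd, ?_⟩
  rintro (h | h)
  · exact hdx h
  · exact hdy h

theorem hw_glue_split_left {u v : List D} (h : S.hw x = x :: (u ++ y :: v)) {z : D} {w : List D} (hu : u = z :: w) :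
    (S.glue x y hx hy).hw z = u := by
  have hn := S.hw_nodup hx
  rw [h] at hn
  have hB : ∀ d ∈ x :: (u ++ y :: v), d ∈ S.B := by
    intro d hd
    rw [← h] at hd
    exact ((S.mem_hw hx).mp hd).1
  have hn1 := List.nodup_cons.mp hn
  have hxy : x ≠ y := fun h => hn1.1 (by rw [h]; simp)
  have hn2 := List.nodup_append.mp hn1.2
  have hux : ∀ d ∈ u, d ≠ x := fun d hd h => hn1.1 (by rw [← h]; simp [hd])
  have huy : ∀ d ∈ u, d ≠ y := fun d hd h => hn2.2.2 d hd y (by simp) h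
  have hc := hw_cyc S hx h
  have e1 : x :: (u ++ y :: v ++ [x]) = (x :: u) ++ y :: (v ++ [x]) := by simp
  rw [e1] at hc
  have h1 : List.IsChain (Pth S.s S.B) (x :: (u ++ [y])) := (List.isChain_split.mp hc).1
  have h2 := chain_tr (a' := y) h1 (glue_pth_l S hx hy hxy)
    (fun d hd e => glue_pth_ne S hx hy hxy (hux d hd) (huy d hd) e)
  subst hu
  exact hw_close _ (glue_y S hx hy hxy)
    (fun d hd => glue_mem S hx hy hxy
      (hB d (List.mem_cons_of_mem _ (List.mem_append_left _ hd))) (hux d hd) (huy d hd))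
    hn2.1 h2

theorem hw_glue_split_right {u v : List D} (h : S.hw x = x :: (u ++ y :: v)) {z : D} {w : List D} (hv : v = z :: w) :
    (S.glue x y hx hy).hw z = v := by
  have hn := S.hw_nodup hx
  rw [h] at hn
  have hB : ∀ d ∈ x :: (u ++ y :: v), d ∈ S.B := by
    intro d hd
    rw [← h] at hd
    exact ((S.mem_hw hx).mp hd).1
  have hn1 := List.nodup_cons.mp hn
  have hxy : x ≠ y := fun h => hn1.1 (by rw [h]; simp)
  have hn2 := List.nodup_append.mp hn1.2
  have hn3 := List.nodup_cons.mp hn2.2.1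
  have hvx : ∀ d ∈ v, d ≠ x := fun d hd h => hn1.1 (by rw [← h]; simp [hd])
  have hvy : ∀ d ∈ v, d ≠ y := fun d hd h => hn3.1 (by rw [← h]; exact hd)
  have hc := hw_cyc S hx h
  have e1 : x :: (u ++ y :: v ++ [x]) = (x :: u) ++ y :: (v ++ [x]) := by simp
  rw [e1] at hc
  have h1 : List.IsChain (Pth S.s S.B) (y :: (v ++ [x])) := (List.isChain_split.mp hc).2
  have h2 := chain_tr (a' := x) h1 (glue_pth_r S hx hy hxy)
    (fun d hd e => glue_pth_ne S hx hy hxy (hvx d hd) (hvy d hd) e)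
  subst hv
  exact hw_close _ (glue_x S hx hy hxy)
    (fun d hd => glue_mem S hx hy hxy
      (hB d (List.mem_cons_of_mem _ (List.mem_append_right _ (List.mem_cons_of_mem _ hd))))
      (hvx d hd) (hvy d hd))
    hn3.2 h2

theorem hw_glue_merge {u v : List D} (h : S.hw x = x :: u) (h' : S.hw y = y :: v) (hne : ¬ S.s.SameCycle x y)
    {z : D} {w : List D} (hu : u ++ v = z :: w) : (S.glue x y hx hy).hw z = u ++ v := by
  have hxy : x ≠ y := fun h => hne (by rw [h])
  have hn := S.hw_nodup hx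
  have hn' := S.hw_nodup hy
  rw [h] at hn
  rw [h'] at hn'
  have hm : ∀ d ∈ x :: u, d ∈ S.B ∧ S.s.SameCycle x d := by
    intro d hd
    rw [← h] at hd
    exact (S.mem_hw hx).mp hd
  have hm' : ∀ d ∈ y :: v, d ∈ S.B ∧ S.s.SameCycle y d := by
    intro d hd
    rw [← h'] at hd
    exact (S.mem_hw hy).mp hd
  have hn1 := List.nodup_cons.mp hn
  have hn1' := List.nodup_cons.mp hn'
  have hux : ∀ d ∈ u, d ≠ x := fun d hd h => hn1.1 (by rw [← h]; exact hd)
  have hvy : ∀ d ∈ v, d ≠ y := fun d hd h => hn1'.1 (by rw [← h]; exact hd)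
  have huy : ∀ d ∈ u, d ≠ y := fun d hd h =>
    hne (h ▸ (hm d (List.mem_cons_of_mem _ hd)).2)
  have hvx : ∀ d ∈ v, d ≠ x := fun d hd h =>
    hne ((h ▸ (hm' d (List.mem_cons_of_mem _ hd)).2 : S.s.SameCycle y x).symm)
  have hc := chain_tr (a' := y) (hw_cyc S hx h) (glue_pth_l S hx hy hxy)
    (fun d hd e => glue_pth_ne S hx hy hxy (hux d hd) (huy d hd) e)
  have hc' := chain_tr (a' := x) (hw_cyc S hy h') (glue_pth_r S hx hy hxy)
    (fun d hd e => glue_pth_ne S hx hy hxy (hvx d hd) (hvy d hd) e)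
  have h1 : List.IsChain (Pth (S.glue x y hx hy).s (S.glue x y hx hy).B)
      ((y :: u) ++ x :: (v ++ [y])) := List.isChain_split.mpr ⟨hc, hc'⟩
  have h2 := chain_remove (fun a b ha hb => ha.trans (glue_x S hx hy hxy) hb)
    (List.cons_ne_nil _ _) (by simp) h1
  have e1 : (y :: u) ++ (v ++ [y]) = y :: (u ++ v ++ [y]) := by simp
  rw [e1, hu] at h2
  have hmem : ∀ d ∈ u ++ v, d ∈ (S.glue x y hx hy).B := by
    intro d hd
    rcases List.mem_append.mp hd with h3 | h3
    · exact glue_mem S hx hy hxy (hm d (List.mem_cons_of_mem _ h3)).1 (hux d h3) (huy d h3)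
    · exact glue_mem S hx hy hxy (hm' d (List.mem_cons_of_mem _ h3)).1 (hvx d h3) (hvy d h3)
  have hnd : (u ++ v).Nodup := by
    rw [List.nodup_append]
    refine ⟨hn1.2, hn1'.2, ?_⟩
    intro a ha b hb hab
    apply hne
    have h3 := (hm a (List.mem_cons_of_mem _ ha)).2
    have h4 := (hm' b (List.mem_cons_of_mem _ hb)).2
    rw [← hab] at h4
    exact h3.trans h4.symm
  rw [hu] at hmem hnd ⊢
  exact hw_close _ (glue_y S hx hy hxy) hmem hnd h2

theorem hw_glue_other {z : D} (hz : z ∈ S.B) (h : ¬ S.s.SameCycle x z) (h' : ¬ S.s.SameCycle y z) :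
    (S.glue x y hx hy).hw z = S.hw z := by
  by_cases hxy : x = y
  · have : S.glue x y hx hy = S := by
      refine Part.ext' ?_ rfl
      show S.a * Equiv.swap x y = S.a
      rw [hxy, Equiv.swap_self]
      rfl
    rw [this]
  obtain ⟨u, hu⟩ := S.hw_cons hz
  have hm : ∀ d ∈ z :: u, d ∈ S.B ∧ S.s.SameCycle z d := by
    intro d hd
    rw [← hu] at hd
    exact (S.mem_hw hz).mp hd
  have hdx : ∀ d ∈ z :: u, d ≠ x := fun d hd he => h ((he ▸ (hm d hd).2 : S.s.SameCycle z x).symm)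
  have hdy : ∀ d ∈ z :: u, d ≠ y := fun d hd he => h' ((he ▸ (hm d hd).2 : S.s.SameCycle z y).symm)
  have hn := S.hw_nodup hz
  rw [hu] at hn
  have hc : List.IsChain (Pth S.s S.B) ((z :: u) ++ [z]) := hw_cyc S hz hu
  have hc2 := chain_map (fun d hd e => glue_pth_ne S hx hy hxy (hdx d hd) (hdy d hd) e) hc
  have hmem : ∀ d ∈ z :: u, d ∈ (S.glue x y hx hy).B := fun d hd =>
    glue_mem S hx hy hxy (hm d hd).1 (hdx d hd) (hdy d hd)
  rw [hu]
  exact hw_of_cyc _ hmem hn hc2

end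

section
variable (S : Part D) {x t0 t1 t2 : D} (hx : x ∈ S.B) (h0 : t0 ∉ S.R) (h1 : t1 ∉ S.R) (h2 : t2 ∉ S.R)
    (h01 : t0 ≠ t1) (h12 : t1 ≠ t2) (h20 : t2 ≠ t0)

private theorem nT_s_R {d : D} (hd : d ∈ S.R) :
    (S.newTri t0 t1 t2 h0 h1 h2 h01 h12 h20).s d = S.s d := by
  have ha : S.a d ∈ S.R := (S.mem_R_a d).mpr hd
  show S.f (cyc3 t0 t1 t2 (S.a d)) = S.f (S.a d)
  have e0 : S.a d ≠ t0 := fun h => h0 (h ▸ ha)
  have e1 : S.a d ≠ t1 := fun h => h1 (h ▸ ha)
  have e2 : S.a d ≠ t2 := fun h => h2 (h ▸ ha)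
  unfold cyc3
  rw [Equiv.Perm.mul_apply, Equiv.swap_apply_of_ne_of_ne e1 e2,
    Equiv.swap_apply_of_ne_of_ne e0 e1]

omit [Finite D] in
private theorem fix_of {d : D} (hd : d ∉ S.R) : S.f d = d ∧ S.a d = d := by
  have h : S.f d = d := by
    by_contra hne
    exact hd hne
  exact ⟨h, S.af d h⟩

omit [Finite D] in
private theorem nT_s_t0 : (S.newTri t0 t1 t2 h0 h1 h2 h01 h12 h20).s t0 = t1 := by
  show S.f (cyc3 t0 t1 t2 (S.a t0)) = t1
  rw [(fix_of S h0).2]
  unfold cyc3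
  rw [Equiv.Perm.mul_apply, Equiv.swap_apply_of_ne_of_ne h01 (Ne.symm h20),
    Equiv.swap_apply_left, (fix_of S h1).1]

omit [Finite D] in
private theorem nT_s_t1 : (S.newTri t0 t1 t2 h0 h1 h2 h01 h12 h20).s t1 = t2 := by
  show S.f (cyc3 t0 t1 t2 (S.a t1)) = t2
  rw [(fix_of S h1).2]
  unfold cyc3
  rw [Equiv.Perm.mul_apply, Equiv.swap_apply_left,
    Equiv.swap_apply_of_ne_of_ne h20 (Ne.symm h12), (fix_of S h2).1]

omit [Finite D] in
private theorem nT_s_t2 : (S.newTri t0 t1 t2 h0 h1 h2 h01 h12 h20).s t2 = t0 := by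
  show S.f (cyc3 t0 t1 t2 (S.a t2)) = t0
  rw [(fix_of S h2).2]
  unfold cyc3
  rw [Equiv.Perm.mul_apply, Equiv.swap_apply_right, Equiv.swap_apply_right, (fix_of S h0).1]

private theorem nT_pth {d e : D} (hd : d ∈ S.R) (h : Pth S.s S.B d e) :
    Pth (S.newTri t0 t1 t2 h0 h1 h2 h01 h12 h20).s (S.newTri t0 t1 t2 h0 h1 h2 h01 h12 h20).B d e ∧
      e ∈ S.R := by
  induction h with
  | step =>
    refine ⟨?_, (S.mem_R_s d).mpr hd⟩
    have h3 := Pth.step (σ := (S.newTri t0 t1 t2 h0 h1 h2 h01 h12 h20).s)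
      (X := (S.newTri t0 t1 t2 h0 h1 h2 h01 h12 h20).B) d
    rw [nT_s_R S h0 h1 h2 h01 h12 h20 hd] at h3
    exact h3
  | cons hp he ih =>
    rename_i e
    refine ⟨?_, (S.mem_R_s e).mpr ih.2⟩
    have h3 : e ∉ (S.newTri t0 t1 t2 h0 h1 h2 h01 h12 h20).B := by
      rw [newTri_B]
      rintro (h4 | h4 | h4 | h4)
      · exact he h4
      · exact h0 (h4 ▸ ih.2)
      · exact h1 (h4 ▸ ih.2)
      · exact h2 (h4 ▸ ih.2)
    have h4 := Pth.cons ih.1 h3
    rw [nT_s_R S h0 h1 h2 h01 h12 h20 ih.2] at h4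
    exact h4

private theorem hw_nT_other {z : D} (hz : z ∈ S.B) :
    (S.newTri t0 t1 t2 h0 h1 h2 h01 h12 h20).hw z = S.hw z := by
  obtain ⟨u, hu⟩ := S.hw_cons hz
  have hm : ∀ d ∈ z :: u, d ∈ S.B := by
    intro d hd
    rw [← hu] at hd
    exact ((S.mem_hw hz).mp hd).1
  have hn := S.hw_nodup hz
  rw [hu] at hn
  have hc : List.IsChain (Pth S.s S.B) ((z :: u) ++ [z]) := hw_cyc S hz hu
  have hc2 := chain_map (fun d hd e h => (nT_pth S h0 h1 h2 h01 h12 h20
    (S.B_sub_R (hm d hd)) h).1) hc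
  rw [hu]
  refine hw_of_cyc _ ?_ hn hc2
  intro d hd
  rw [newTri_B]
  exact Or.inl (hm d hd)

theorem hw_newTri : (S.newTri t0 t1 t2 h0 h1 h2 h01 h12 h20).hw t0 = [t0, t1, t2] := by
  have s0 := nT_s_t0 S h0 h1 h2 h01 h12 h20
  have s1 := nT_s_t1 S h0 h1 h2 h01 h12 h20
  have s2 := nT_s_t2 S h0 h1 h2 h01 h12 h20
  refine hw_of_cyc _ ?_ ?_ ?_
  · intro d hd
    rw [newTri_B]
    right
    simp only [List.mem_cons, List.not_mem_nil, or_false] at hd
    exact hd
  · simp [h01, h12, Ne.symm h20]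
  · have p0 := Pth.step (σ := (S.newTri t0 t1 t2 h0 h1 h2 h01 h12 h20).s)
      (X := (S.newTri t0 t1 t2 h0 h1 h2 h01 h12 h20).B) t0
    have p1 := Pth.step (σ := (S.newTri t0 t1 t2 h0 h1 h2 h01 h12 h20).s)
      (X := (S.newTri t0 t1 t2 h0 h1 h2 h01 h12 h20).B) t1
    have p2 := Pth.step (σ := (S.newTri t0 t1 t2 h0 h1 h2 h01 h12 h20).s)
      (X := (S.newTri t0 t1 t2 h0 h1 h2 h01 h12 h20).B) t2
    rw [s0] at p0
    rw [s1] at p1
    rw [s2] at p2
    exact List.isChain_cons_cons.mpr ⟨p0, List.isChain_cons_cons.mpr ⟨p1,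
      List.isChain_cons_cons.mpr ⟨p2, List.isChain_singleton t0⟩⟩⟩

private theorem nT_cyc_t0 {d : D} (h : (S.newTri t0 t1 t2 h0 h1 h2 h01 h12 h20).s.SameCycle t0 d) :
    d ∉ S.R := by
  obtain ⟨n, hn⟩ := h.exists_nat_pow_eq
  have key : ∀ n : ℕ, (((S.newTri t0 t1 t2 h0 h1 h2 h01 h12 h20).s ^ n) t0 = t0 ∨
      ((S.newTri t0 t1 t2 h0 h1 h2 h01 h12 h20).s ^ n) t0 = t1 ∨
      ((S.newTri t0 t1 t2 h0 h1 h2 h01 h12 h20).s ^ n) t0 = t2) := by
    intro n
    induction n with
    | zero => left; rfl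
    | succ n ih =>
      rw [pow_succ', Equiv.Perm.mul_apply]
      rcases ih with h | h | h
      · rw [h, nT_s_t0]; exact Or.inr (Or.inl rfl)
      · rw [h, nT_s_t1]; exact Or.inr (Or.inr rfl)
      · rw [h, nT_s_t2]; exact Or.inl rfl
  rw [← hn]
  rcases key n with h | h | h
  · rw [h]; exact h0
  · rw [h]; exact h1
  · rw [h]; exact h2

private theorem nT_cyc {d e : D} (hd : d ∈ S.R)
    (h : (S.newTri t0 t1 t2 h0 h1 h2 h01 h12 h20).s.SameCycle d e) : S.s.SameCycle d e := by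
  obtain ⟨n, hn⟩ := h.exists_nat_pow_eq
  have key : ∀ n : ℕ, ((S.newTri t0 t1 t2 h0 h1 h2 h01 h12 h20).s ^ n) d = (S.s ^ n) d ∧
      (S.s ^ n) d ∈ S.R := by
    intro n
    induction n with
    | zero => exact ⟨rfl, hd⟩
    | succ n ih =>
      rw [pow_succ', Equiv.Perm.mul_apply, pow_succ', Equiv.Perm.mul_apply, ih.1,
        nT_s_R S h0 h1 h2 h01 h12 h20 ih.2]
      exact ⟨rfl, (S.mem_R_s _).mpr ih.2⟩
  exact ⟨(n : ℤ), by rw [zpow_natCast, ← (key n).1, hn]⟩

theorem hw_face {u : List D} (h : S.hw x = x :: u) :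
    (S.face x t0 t1 t2 hx h0 h1 h2 h01 h12 h20).hw t1 = t1 :: t2 :: u := by
  rw [face_eq]
  have hx' : x ∈ (S.newTri t0 t1 t2 h0 h1 h2 h01 h12 h20).B := by rw [newTri_B]; exact Or.inl hx
  have ht' : t0 ∈ (S.newTri t0 t1 t2 h0 h1 h2 h01 h12 h20).B := by
    rw [newTri_B]; exact Or.inr (Or.inl rfl)
  have e1 : (S.newTri t0 t1 t2 h0 h1 h2 h01 h12 h20).hw x = x :: u := by
    rw [hw_nT_other S h0 h1 h2 h01 h12 h20 hx, h]
  have e2 := hw_newTri S h0 h1 h2 h01 h12 h20
  have hne : ¬ (S.newTri t0 t1 t2 h0 h1 h2 h01 h12 h20).s.SameCycle x t0 := fun hc =>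
    nT_cyc_t0 S h0 h1 h2 h01 h12 h20 hc.symm (S.B_sub_R hx)
  have hxt : x ≠ t0 := fun hc => h0 (hc ▸ S.B_sub_R hx)
  rcases u with _ | ⟨z, u⟩
  · exact hw_glue_merge _ hx' ht' e1 e2 hne (z := t1) (w := [t2]) rfl
  · have e3 := hw_glue_merge _ hx' ht' e1 e2 hne (z := z) (w := u ++ [t1, t2]) rfl
    have e4 : (z :: u) ++ [t1, t2] = (z :: u) ++ t1 :: [t2] := rfl
    rw [e4] at e3
    have hz : z ∈ ((S.newTri t0 t1 t2 h0 h1 h2 h01 h12 h20).glue x t0 hx' ht').B := by
      have hz1 : z ∈ S.B := by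
        have : z ∈ S.hw x := by rw [h]; simp
        exact ((S.mem_hw hx).mp this).1
      have hn := S.hw_nodup hx
      rw [h] at hn
      have hzx : z ≠ x := fun hc => (List.nodup_cons.mp hn).1 (by rw [← hc]; simp)
      refine glue_mem _ hx' ht' hxt ?_ hzx (fun hc => h0 (hc ▸ S.B_sub_R hz1))
      rw [newTri_B]
      exact Or.inl hz1
    have e5 := hw_rot _ hz e3
    exact e5

theorem hw_face_other {z : D} (hz : z ∈ S.B) (h : ¬ S.s.SameCycle x z) :
    (S.face x t0 t1 t2 hx h0 h1 h2 h01 h12 h20).hw z = S.hw z := by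
  rw [face_eq]
  have hz' : z ∈ (S.newTri t0 t1 t2 h0 h1 h2 h01 h12 h20).B := by rw [newTri_B]; exact Or.inl hz
  rw [hw_glue_other _ _ _ hz' (fun hc => h (nT_cyc S h0 h1 h2 h01 h12 h20 (S.B_sub_R hx) hc))
    (fun hc => nT_cyc_t0 S h0 h1 h2 h01 h12 h20 hc (S.B_sub_R hz)),
    hw_nT_other S h0 h1 h2 h01 h12 h20 hz]

end

end Part
end SYS
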