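import Pool.Agent.SYS.Lib.DW
import Pool.Agent.SYS.Lib.GenB
import Pool.Agent.SYS.Lib.WordB

/-!
# SYS-Lib-Pla: closing holes by planar pieces

`planar_word`: `S` connected, `S'` extends `S` without new boundary darts and without increasing the genus: every hole of
`S` which disappears in `S'` is a `DW` word.

Induction on `3 * (S'.R \ S.R).ncard + (S.B \ S'.B).ncard`, by peeling the edge of `x`.
-/

namespace SYS
namespace Part

open Classical SST

variable {D : Type} [Finite D]

omit [Finite D] in
private theorem pl_sub {S1 S' : Part D} {T : Tri D} (h1 : S1.Le T) (hT : S'.Le T) (hR : S1.R ⊆ S'.R)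
    (ha : ∀ d, S1.a d ≠ d → S'.a d ≠ d) : S1.Sub S' := by
  refine ⟨fun d hd => ?_, fun d hd => ?_⟩
  · have hd' : S'.f d ≠ d := hR hd
    rw [← hT.1 d hd', h1.1 d hd]
  · rw [← hT.2 d (ha d hd), h1.2 d hd]

private theorem pl_aux {S' : Part D} {T : Tri D} (hT : S'.Le T) : ∀ (m : ℕ) {S : Part D} {x : D},
    3 * (S'.R \ S.R).ncard + (S.B \ S'.B).ncard < m → S.Con → S.Sub S' → S'.B ⊆ S.B →
    S'.gen12 = S.gen12 → x ∈ S.B → (∀ d ∈ S.hw x, d ∉ S'.B) → DW T (S.hw x) := by
  intro m
  induction m with
  | zero => intro S x hm; omega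
  | succ m ih =>
    intro S x hm hS h hB hg hx hd
    have hle : S.Le T := sub_le h hT
    obtain ⟨u0, hu0⟩ := S.hw_cons hx
    have hxw : x ∈ S.hw x := by rw [hu0]; exact List.mem_cons_self
    have hxB' : x ∉ S'.B := hd x hxw
    have hRR := h.R_sub
    have hxR : x ∈ S.R := S.B_sub_R hx
    have hxR' : x ∈ S'.R := hRR hxR
    have hax : S'.a x ≠ x := fun h0 => hxB' ⟨hxR', h0⟩
    have hTx : T.a x = S'.a x := hT.2 x hax
    have hyR' : T.a x ∈ S'.R := by
      rw [hTx]
      exact (S'.mem_R_a x).mpr hxR'
    have hay : S'.a (T.a x) ≠ T.a x := by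
      rw [hTx, S'.aa]
      exact hax.symm
    have hbase : ∀ d, d ∈ S.R → d ∉ S.B → S'.a d ≠ d := by
      intro d hdR hdB
      have h1 : S.a d ≠ d := fun h0 => hdB ⟨hdR, h0⟩
      rw [h.2 d h1]
      exact h1
    rcases peel hle hx with ⟨hyB, hyx⟩ | hyR
    · -- gluing of two boundary darts
      have hle1 : (S.glue x (T.a x) hx hyB).Le T := S.glue_le hx hyB hle rfl
      have hB1 : (S.glue x (T.a x) hx hyB).B = S.B \ {x, T.a x} := S.glue_B hx hyB hyx.symm
      have hR1 : (S.glue x (T.a x) hx hyB).R = S.R := S.glue_R hx hyB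
      have hsub1 : (S.glue x (T.a x) hx hyB).Sub S' := by
        refine pl_sub hle1 hT (by rw [hR1]; exact hRR) fun d hd1 => ?_
        have hdR : d ∈ (S.glue x (T.a x) hx hyB).R := fun h0 => hd1 ((S.glue x (T.a x) hx hyB).af d h0)
        have hdB : d ∉ (S.glue x (T.a x) hx hyB).B := fun h0 => hd1 h0.2
        rw [hR1] at hdR
        rw [hB1] at hdB
        by_cases h2 : d = x
        · rw [h2]; exact hax
        · by_cases h3 : d = T.a x
          · rw [h3]; exact hay
          · refine hbase d hdR fun h4 => hdB ⟨h4, ?_⟩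
            rintro (h5 | h5)
            · exact h2 h5
            · exact h3 h5
      have hmono := gen12_mono hsub1
      have hcn : S.Cn x (T.a x) := hS x hxR (T.a x) (S.B_sub_R hyB)
      have hsame : S.s.SameCycle x (T.a x) := by
        by_contra hns
        have := S.gen12_glue_handle hx hyB hcn hns
        omega
      have hg1 : (S.glue x (T.a x) hx hyB).gen12 = S.gen12 := S.gen12_glue_split hx hyB hyx.symm hsame
      have hyw : T.a x ∈ S.hw x := (S.mem_hw hx).mpr ⟨hyB, hsame⟩
      have hyu : T.a x ∈ u0 := by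
        rw [hu0, List.mem_cons] at hyw
        exact hyw.resolve_left hyx
      obtain ⟨u, v, huv⟩ := List.append_of_mem hyu
      rw [huv] at hu0
      have hyB' : T.a x ∉ S'.B := hd _ hyw
      have hBB : S'.B ⊆ (S.glue x (T.a x) hx hyB).B := by
        rw [hB1]
        intro d hd1
        refine ⟨hB hd1, ?_⟩
        rintro (h5 | h5)
        · exact hxB' (h5 ▸ hd1)
        · exact hyB' (h5 ▸ hd1)
      have hcon1 := S.con_glue hx hyB hS
      have hmeas : 3 * (S'.R \ (S.glue x (T.a x) hx hyB).R).ncard +
          ((S.glue x (T.a x) hx hyB).B \ S'.B).ncard < m := by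
        rw [hR1, hB1]
        have h1 : ((S.B \ {x, T.a x}) \ S'.B).ncard < (S.B \ S'.B).ncard := by
          refine Set.ncard_lt_ncard ⟨fun d hd1 => ⟨hd1.1.1, hd1.2⟩, fun h0 => ?_⟩ (Set.toFinite _)
          exact (h0 ⟨hx, hxB'⟩).1.2 (Or.inl rfl)
        omega
      have hnd := S.hw_nodup hx
      rw [hu0] at hnd
      have hpiece : ∀ z : D, z ∈ u ∨ z ∈ v → z ∈ (S.glue x (T.a x) hx hyB).B := by
        intro z hz
        have hzw : z ∈ S.hw x := by
          rw [hu0, List.mem_cons, List.mem_append, List.mem_cons]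
          rcases hz with hz | hz
          · exact Or.inr (Or.inl hz)
          · exact Or.inr (Or.inr (Or.inr hz))
        rw [hB1]
        refine ⟨((S.mem_hw hx).mp hzw).1, ?_⟩
        rw [List.nodup_cons, List.mem_append, List.mem_cons, List.nodup_append, List.nodup_cons] at hnd
        obtain ⟨hn1, hn2, ⟨hn3, hn4⟩, hn5⟩ := hnd
        rintro (h5 | h5)
        · rcases hz with hz | hz
          · exact hn1 (Or.inl (h5 ▸ hz))
          · exact hn1 (Or.inr (Or.inr (h5 ▸ hz)))
        · have h6 : z = T.a x := h5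
          rcases hz with hz | hz
          · exact hn5 z hz (T.a x) List.mem_cons_self h6
          · exact hn3 (h6 ▸ hz)
      have hmemw : ∀ d, d ∈ u ∨ d ∈ v → d ∉ S'.B := by
        intro d hz
        refine hd d ?_
        rw [hu0, List.mem_cons, List.mem_append, List.mem_cons]
        rcases hz with hz | hz
        · exact Or.inr (Or.inl hz)
        · exact Or.inr (Or.inr (Or.inr hz))
      have hDu : DW T u := by
        cases hu : u with
        | nil => exact DW.nil
        | cons z w =>
          have h7 := S.hw_glue_split_left hx hyB hu0 hu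
          have h8 := ih (S := S.glue x (T.a x) hx hyB) (x := z) hmeas hcon1 hsub1 hBB (hg.trans hg1.symm)
            (hpiece z (Or.inl (by rw [hu]; exact List.mem_cons_self))) (by
              intro d hd1
              rw [h7] at hd1
              exact hmemw d (Or.inl hd1))
          rw [h7, hu] at h8
          exact h8
      have hDv : DW T v := by
        cases hv : v with
        | nil => exact DW.nil
        | cons z w =>
          have h7 := S.hw_glue_split_right hx hyB hu0 hv
          have h8 := ih (S := S.glue x (T.a x) hx hyB) (x := z) hmeas hcon1 hsub1 hBB (hg.trans hg1.symm)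
            (hpiece z (Or.inr (by rw [hv]; exact List.mem_cons_self))) (by
              intro d hd1
              rw [h7] at hd1
              exact hmemw d (Or.inr hd1))
          rw [h7, hv] at h8
          exact h8
      rw [hu0]
      exact DW.glue x u v hDu hDv
    · -- a new face
      have h1R : T.f (T.a x) ∉ S.R := fun h0 => hyR ((le_f_mem hle _).mp h0)
      have h2R : T.f (T.f (T.a x)) ∉ S.R := fun h0 => h1R ((le_f_mem hle _).mp h0)
      obtain ⟨h01, h12, h20⟩ := tri_ne T (T.a x)
      obtain ⟨S1, hS1⟩ : ∃ S1 : Part D, S1 =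
        S.face x (T.a x) (T.f (T.a x)) (T.f (T.f (T.a x))) hx hyR h1R h2R h01 h12 h20 := ⟨_, rfl⟩
      have hle1 : S1.Le T := by
        rw [hS1]
        exact face_le S hle hx hyR h1R h2R h01 h12 h20
      have hB1 : S1.B = (S.B \ {x}) ∪ {T.f (T.a x), T.f (T.f (T.a x))} := by
        rw [hS1]
        exact S.face_B hx hyR h1R h2R h01 h12 h20
      have hR1 : S1.R = S.R ∪ {T.a x, T.f (T.a x), T.f (T.f (T.a x))} := by
        rw [hS1]
        exact S.face_R hx hyR h1R h2R h01 h12 h20
      have h1R' : T.f (T.a x) ∈ S'.R := (le_f_mem hT _).mpr hyR'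
      have h2R' : T.f (T.f (T.a x)) ∈ S'.R := (le_f_mem hT _).mpr h1R'
      have hsub1 : S1.Sub S' := by
        refine pl_sub hle1 hT ?_ fun d hd1 => ?_
        · rw [hR1]
          rintro d (hd1 | hd1 | hd1 | hd1)
          · exact hRR hd1
          · rw [hd1]; exact hyR'
          · rw [hd1]; exact h1R'
          · have h6 : d = T.f (T.f (T.a x)) := hd1
            rw [h6]; exact h2R'
        · have hdR : d ∈ S1.R := fun h0 => hd1 (S1.af d h0)
          have hdB : d ∉ S1.B := fun h0 => hd1 h0.2
          rw [hR1] at hdR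
          rw [hB1] at hdB
          rcases hdR with hd2 | hd2 | hd2 | hd2
          · by_cases h2 : d = x
            · rw [h2]; exact hax
            · exact hbase d hd2 fun h4 => hdB (Or.inl ⟨h4, h2⟩)
          · rw [hd2]; exact hay
          · exact absurd (Or.inr (Or.inl hd2)) hdB
          · exact absurd (Or.inr (Or.inr hd2)) hdB
      have hBB : S'.B ⊆ S1.B := by
        rw [hB1]
        intro d hd1
        refine Or.inl ⟨hB hd1, ?_⟩
        intro h5
        have h6 : d = x := h5
        exact hxB' (h6 ▸ hd1)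
      have hcon1 : S1.Con := by
        rw [hS1]
        exact S.con_face hx hyR h1R h2R h01 h12 h20 hS
      have hg1 : S1.gen12 = S.gen12 := by
        rw [hS1]
        exact S.gen12_face hx hyR h1R h2R h01 h12 h20
      have hw1 : S1.hw (T.f (T.a x)) = T.f (T.a x) :: T.f (T.f (T.a x)) :: u0 := by
        rw [hS1]
        exact S.hw_face hx hyR h1R h2R h01 h12 h20 hu0
      have hmeas : 3 * (S'.R \ S1.R).ncard + (S1.B \ S'.B).ncard < m := by
        have h1 : (S'.R \ S1.R).ncard < (S'.R \ S.R).ncard := by
          rw [hR1]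
          refine Set.ncard_lt_ncard ⟨fun d hd1 => ⟨hd1.1, fun h0 => hd1.2 (Or.inl h0)⟩, fun h0 => ?_⟩
            (Set.toFinite _)
          exact (h0 ⟨hyR', hyR⟩).2 (Or.inr (Or.inl rfl))
        have h2 : (S1.B \ S'.B).ncard ≤ (S.B \ S'.B).ncard + 2 := by
          have h3 : S1.B \ S'.B ⊆ insert (T.f (T.a x)) (insert (T.f (T.f (T.a x))) (S.B \ S'.B)) := by
            rw [hB1]
            rintro d ⟨hd1 | hd1 | hd1, hd2⟩
            · exact Or.inr (Or.inr ⟨hd1.1, hd2⟩)
            · exact Or.inl hd1
            · exact Or.inr (Or.inl hd1)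
          have h4 := Set.ncard_le_ncard h3 (Set.toFinite _)
          have h5 := Set.ncard_insert_le (T.f (T.a x)) (insert (T.f (T.f (T.a x))) (S.B \ S'.B))
          have h6 := Set.ncard_insert_le (T.f (T.f (T.a x))) (S.B \ S'.B)
          omega
        omega
      have h8 := ih (S := S1) (x := T.f (T.a x)) hmeas hcon1 hsub1 hBB (hg.trans hg1.symm)
        (by rw [hB1]; exact Or.inr (Or.inl rfl)) (by
          intro d hd1
          rw [hw1, List.mem_cons, List.mem_cons] at hd1
          rcases hd1 with hd1 | hd1 | hd1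
          · rw [hd1]
            exact fun h0 => h1R (S.B_sub_R (hB h0))
          · rw [hd1]
            exact fun h0 => h2R (S.B_sub_R (hB h0))
          · refine hd d ?_
            rw [hu0, List.mem_cons]
            exact Or.inr hd1)
      rw [hw1] at h8
      rw [hu0]
      exact DW.face x u0 h8

theorem planar_word {S S' : Part D} {T : Tri D} (hS : S.Con) (h : S.Sub S') (hT : S'.Le T) (hB : S'.B ⊆ S.B)
    (hg : S'.gen12 = S.gen12) {x : D} (hx : x ∈ S.B) (hd : ∀ d ∈ S.hw x, d ∉ S'.B) : DW T (S.hw x) :=
  pl_aux hT _ (Nat.lt_succ_self _) hS h hB hg hx hd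

end Part
end SYS
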