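import Pool.Agent.SYS.Lib.Typ

/-!
# SYS-Lib-St: one peeling step (independent of any triangulation)

`St S x s S' z`: the gate `x` of the region `S` is revealed with result `s`; `S'` is the new region, `z` the first dart of the outer
hole word: `t1` for `T` (word `t1, t2, u`), the first of `v` for `R k a` (`hw x = x :: (u ++ y :: v)`, `u` is swallowed, `|u| = k`), the first of `u` for `L k a`
(`v` is swallowed, `|v| = k`).
-/

namespace SYS
namespace Part

open Classical SST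

variable {D : Type} [Finite D]

/-- `S'` is `S` with the holes `u` (the boundary darts of one hole) filled by a disc of perimeter `k` with `a` triangles. -/
def DiscFill (S S' : Part D) (u : List D) (a : ℕ) : Prop :=
  (u = [] ∧ a = 0 ∧ S' = S) ∨ (u ≠ [] ∧ ∃ V : ℕ, 2 * V = 2 + a + u.length ∧ S.FillBy S' {d | d ∈ u} a V)

/-- One peeling step. -/
def St (S : Part D) (x : D) : Stp → Part D → D → Prop
  | .T, S', z => ∃ (t0 t1 t2 : D) (hx : x ∈ S.B) (h0 : t0 ∉ S.R) (h1 : t1 ∉ S.R) (h2 : t2 ∉ S.R) (h01 : t0 ≠ t1)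
      (h12 : t1 ≠ t2) (h20 : t2 ≠ t0), S' = S.face x t0 t1 t2 hx h0 h1 h2 h01 h12 h20 ∧ z = t1
  | .L k a, S', z => ∃ (y : D) (u v w : List D) (hx : x ∈ S.B) (hy : y ∈ S.B), S.hw x = x :: (u ++ y :: v) ∧
      v.length = k ∧ u = z :: w ∧ (S.glue x y hx hy).DiscFill S' v a
  | .R k a, S', z => ∃ (y : D) (u v w : List D) (hx : x ∈ S.B) (hy : y ∈ S.B), S.hw x = x :: (u ++ y :: v) ∧
      u.length = k ∧ v = z :: w ∧ (S.glue x y hx hy).DiscFill S' u a

variable {S S' : Part D} {x z : D} {s : Stp} {l : List D} {p : ℕ} {P : List ℕ} {F κ : ℕ}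

private theorem st_hB {S : Part D} {x y : D} {u v : List D} (hx : x ∈ S.B) (hw : S.hw x = x :: (u ++ y :: v))
    {d : D} (hd : d ∈ u ∨ d ∈ v) : d ∈ S.B ∧ S.s.SameCycle x d ∧ d ≠ x ∧ d ≠ y := by
  have h1 : d ∈ S.hw x := by
    rw [hw, List.mem_cons, List.mem_append, List.mem_cons]
    tauto
  have hn := S.hw_nodup hx
  rw [hw, List.nodup_cons, List.nodup_append, List.nodup_cons] at hn
  obtain ⟨n1, n2, ⟨n3, n4⟩, n5⟩ := hn
  refine ⟨((mem_hw S hx).1 h1).1, ((mem_hw S hx).1 h1).2, ?_, ?_⟩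
  · rintro rfl
    apply n1
    rw [List.mem_append, List.mem_cons]
    tauto
  · rintro rfl
    rcases hd with hd | hd
    · exact n5 d hd d List.mem_cons_self rfl
    · exact n3 hd

private theorem st_y {S : Part D} {x y : D} {u v : List D} (hx : x ∈ S.B) (hw : S.hw x = x :: (u ++ y :: v)) :
    S.s.SameCycle x y ∧ x ≠ y := by
  have h1 : y ∈ S.hw x := by
    rw [hw, List.mem_cons, List.mem_append, List.mem_cons]
    tauto
  have hn := S.hw_nodup hx
  rw [hw, List.nodup_cons] at hn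
  refine ⟨((mem_hw S hx).1 h1).2, ?_⟩
  rintro rfl
  apply hn.1
  rw [List.mem_append, List.mem_cons]
  tauto

private theorem st_mem {S : Part D} {x y : D} {u v : List D} (hx : x ∈ S.B) (hy : y ∈ S.B)
    (hw : S.hw x = x :: (u ++ y :: v)) {d : D} (hd : d ∈ u ∨ d ∈ v) : d ∈ (S.glue x y hx hy).B := by
  obtain ⟨h1, _, h2, h3⟩ := st_hB hx hw hd
  rw [glue_B _ _ _ (st_y hx hw).2]
  refine ⟨h1, ?_⟩
  rw [Set.mem_insert_iff, Set.mem_singleton_iff]
  tauto

/-- the list `m` is a hole of `S` (or empty) -/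
private def IsH (S : Part D) (m : List D) : Prop := m = [] ∨ ∃ z1 m', m = z1 :: m' ∧ z1 ∈ S.B ∧ S.hw z1 = m

private theorem ish_hun {S : Part D} {m : List D} (h : IsH S m) : S.HUn {d | d ∈ m} := by
  rcases h with rfl | ⟨z1, m', _, h2, h3⟩
  · refine ⟨fun d hd => ?_, fun d hd => ?_⟩ <;> exact absurd hd List.not_mem_nil
  · refine ⟨fun d hd => ?_, fun d hd e he hde => ?_⟩
    · rw [Set.mem_ofPred_eq, ← h3] at hd
      exact ((mem_hw S h2).1 hd).1
    · rw [Set.mem_ofPred_eq, ← h3] at hd ⊢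
      exact (mem_hw S h2).2 ⟨he, ((mem_hw S h2).1 hd).2.trans hde⟩

private theorem df_aux {S1 S' : Part D} {m : List D} {a : ℕ} (hm : IsH S1 m) (hf : S1.DiscFill S' m a) :
    S1.Sub S' ∧ ∀ d ∈ S1.B, d ∉ m → d ∈ S'.B ∧ S'.hw d = S1.hw d ∧
      ∀ e, S'.s.SameCycle d e → S1.s.SameCycle d e := by
  rcases hf with ⟨_, _, rfl⟩ | ⟨_, V, _, hf⟩
  · exact ⟨sub_refl _, fun d hd _ => ⟨hd, rfl, fun e he => he⟩⟩
  · refine ⟨hf.sub, fun d hd hdm => ⟨?_, fil_hw (ish_hun hm) hf hd hdm, fun e he => ?_⟩⟩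
    · rw [hf.B]
      exact ⟨hd, hdm⟩
    · refine (fil_same (ish_hun hm) hf (S1.B_sub_R hd) ?_).1 he
      intro z hz hdz
      exact hdm ((ish_hun hm).2 z hz d hd hdz.symm)

private theorem st_R_aux {k a : ℕ} (h : S.St x (.R k a) S' z) : ∃ (y : D) (u w : List D) (hx : x ∈ S.B) (hy : y ∈ S.B),
    S.hw x = x :: (u ++ y :: z :: w) ∧ u.length = k ∧ (S.glue x y hx hy).DiscFill S' u a ∧
    IsH (S.glue x y hx hy) u ∧ (S.glue x y hx hy).hw z = z :: w ∧ z ∈ (S.glue x y hx hy).B ∧ z ∉ u := by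
  obtain ⟨y, u, v, w, hx, hy, hw, hk, hv, hf⟩ := h
  subst hv
  refine ⟨y, u, w, hx, hy, hw, hk, hf, ?_, ?_, ?_, ?_⟩
  · rcases u with _ | ⟨z1, u'⟩
    · exact Or.inl rfl
    · exact Or.inr ⟨z1, u', rfl, st_mem hx hy hw (Or.inl List.mem_cons_self),
        hw_glue_split_left S hx hy hw rfl⟩
  · exact hw_glue_split_right S hx hy hw rfl
  · exact st_mem hx hy hw (Or.inr List.mem_cons_self)
  · have hn := S.hw_nodup hx
    rw [hw, List.nodup_cons, List.nodup_append] at hn
    intro hz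
    exact hn.2.2.2 z hz z (List.mem_cons_of_mem _ List.mem_cons_self) rfl

private theorem st_L_aux {k a : ℕ} (h : S.St x (.L k a) S' z) : ∃ (y : D) (v w : List D) (hx : x ∈ S.B) (hy : y ∈ S.B),
    S.hw x = x :: (z :: w ++ y :: v) ∧ v.length = k ∧ (S.glue x y hx hy).DiscFill S' v a ∧
    IsH (S.glue x y hx hy) v ∧ (S.glue x y hx hy).hw z = z :: w ∧ z ∈ (S.glue x y hx hy).B ∧ z ∉ v := by
  obtain ⟨y, u, v, w, hx, hy, hw, hk, hu, hf⟩ := h
  subst hu
  refine ⟨y, v, w, hx, hy, hw, hk, hf, ?_, ?_, ?_, ?_⟩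
  · rcases v with _ | ⟨z1, v'⟩
    · exact Or.inl rfl
    · exact Or.inr ⟨z1, v', rfl, st_mem hx hy hw (Or.inr List.mem_cons_self),
        hw_glue_split_right S hx hy hw rfl⟩
  · exact hw_glue_split_left S hx hy hw rfl
  · exact st_mem hx hy hw (Or.inl List.mem_cons_self)
  · have hn := S.hw_nodup hx
    rw [hw, List.nodup_cons, List.nodup_append] at hn
    intro hz
    exact hn.2.2.2 z List.mem_cons_self z (List.mem_cons_of_mem _ hz) rfl

private theorem df_le {S1 S' : Part D} {m : List D} {a F : ℕ} (hf : S1.DiscFill S' m a)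
    (hv : S1.R.ncard + 3 * F = Nat.card D) : a ≤ F := by
  rcases hf with ⟨_, h, _⟩ | ⟨_, V, _, hf⟩
  · omega
  · have h1 := hf.R
    have h2 : S'.R.ncard ≤ Nat.card D := by
      rw [← Set.ncard_univ]
      exact Set.ncard_le_ncard (Set.subset_univ _)
    omega

private theorem st_setH {S1 : Part D} {z1 : D} {m : List D} (hz1 : z1 ∈ S1.B) (hw : S1.hw z1 = m) :
    {d | d ∈ m} = {d | d ∈ S1.B ∧ ∃ e ∈ [z1], S1.s.SameCycle e d} := by
  ext d
  rw [Set.mem_ofPred_eq, Set.mem_ofPred_eq, ← hw, mem_hw S1 hz1]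
  simp

theorem st_typ (hS : S.Typ (x :: l) (p :: P) F κ) (h : S.St x s S' z) : s.Ok p ∧
    ∃ F', F' + s.vol = F ∧ S'.Typ (z :: l) (s.nx p :: P) F' κ := by
  have hp : S.per x = p := by
    have := hS.per
    rw [List.map_cons, List.cons.injEq] at this
    exact this.1
  cases s with
  | T =>
    obtain ⟨t0, t1, t2, hx, h0, h1, h2, h01, h12, h20, rfl, rfl⟩ := h
    have hF : 1 ≤ F := by
      by_contra hF
      have hv := hS.vol
      have h3 : S.R.ncard = Nat.card D := by omega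
      have h4 : S.R = Set.univ :=
        Set.eq_of_subset_of_ncard_le (Set.subset_univ _) (by rw [Set.ncard_univ, h3])
      exact h0 (h4 ▸ Set.mem_univ _)
    obtain ⟨F', rfl⟩ : ∃ F', F = F' + 1 := ⟨F - 1, by omega⟩
    exact ⟨trivial, F', rfl, typ_face hS hx h0 h1 h2 h01 h12 h20⟩
  | R k a =>
    obtain ⟨y, u, w, hx, hy, hw, hk, hf, hm, hwz, hz, hzu⟩ := st_R_aux h
    have hlen : p = u.length + w.length + 3 := by
      rw [← hp, ← hw_length S hx, hw]
      simp only [List.length_cons, List.length_append]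
      omega
    have hvol := hS.vol
    have haF : a ≤ F := df_le hf (by rw [glue_R]; exact hvol)
    have hok : (Stp.R k a).Ok p := by
      show k + 3 ≤ p
      omega
    have hnx : (Stp.R k a).nx p = w.length + 1 := by
      show p - (k + 2) = _
      omega
    refine ⟨hok, F - a, ?_, ?_⟩
    · show F - a + a = F
      omega
    rw [hnx]
    rcases hf with ⟨rfl, rfl, rfl⟩ | ⟨hu, V, hV, hf⟩
    · rw [Nat.sub_zero]
      exact typ_r0 hS hx hy hw
    · rcases u with _ | ⟨z1, u'⟩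
      · exact absurd rfl hu
      · have h1 := typ_ns hS hx hy hw
        obtain ⟨F', rfl⟩ : ∃ F', F = a + F' := ⟨F - a, by omega⟩
        have hz1 : z1 ∈ (S.glue x y hx hy).B := st_mem hx hy hw (Or.inl List.mem_cons_self)
        have hwz1 := hw_glue_split_left S hx hy hw rfl
        rw [st_setH hz1 hwz1] at hf
        have h2 := typ_fill (S := S.glue x y hx hy) (l1 := [z1]) (l2 := z :: l) (P1 := [u'.length + 1])
          (P2 := (w.length + 1) :: P) (h := 0) (κ := κ) h1 rfl (by simp) (by simp) hf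
          (by simp only [List.length_cons, List.length_nil, List.sum_cons, List.sum_nil] at hV ⊢; omega)
          (by
            intro d hd
            rw [List.mem_singleton] at hd
            subst hd
            refine ⟨z, List.mem_cons_self, (cn_glue S hx hy d z).2 (Or.inl ?_)⟩
            exact cn_of_same ((st_hB hx hw (Or.inl List.mem_cons_self)).2.1.symm.trans
              (st_hB hx hw (Or.inr List.mem_cons_self)).2.1)) (by omega)
        rw [Nat.add_sub_cancel_left]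
        exact h2
  | L k a =>
    obtain ⟨y, v, w, hx, hy, hw, hk, hf, hm, hwz, hz, hzv⟩ := st_L_aux h
    have hlen : p = v.length + w.length + 3 := by
      rw [← hp, ← hw_length S hx, hw]
      simp only [List.length_cons, List.length_append]
      omega
    have hvol := hS.vol
    have haF : a ≤ F := df_le hf (by rw [glue_R]; exact hvol)
    have hok : (Stp.L k a).Ok p := by
      show k + 3 ≤ p
      omega
    have hnx : (Stp.L k a).nx p = w.length + 1 := by
      show p - (k + 2) = _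
      omega
    refine ⟨hok, F - a, ?_, ?_⟩
    · show F - a + a = F
      omega
    rw [hnx]
    rcases hf with ⟨rfl, rfl, rfl⟩ | ⟨hv, V, hV, hf⟩
    · rw [Nat.sub_zero]
      exact typ_l0 hS hx hy hw
    · rcases v with _ | ⟨z1, v'⟩
      · exact absurd rfl hv
      · have h1 := typ_ns hS hx hy hw
        obtain ⟨F', rfl⟩ : ∃ F', F = a + F' := ⟨F - a, by omega⟩
        have hz1 : z1 ∈ (S.glue x y hx hy).B := st_mem hx hy hw (Or.inr List.mem_cons_self)
        have hwz1 := hw_glue_split_right S hx hy hw rfl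
        rw [st_setH hz1 hwz1] at hf
        have h3 := h1.per
        rw [List.map_cons, List.map_cons, List.cons.injEq, List.cons.injEq] at h3
        obtain ⟨e1, e2, e3⟩ := h3
        have h4 := typ_perm h1 (List.Perm.swap z1 z l)
        rw [List.map_cons, List.map_cons, e1, e2, e3] at h4
        have h2 := typ_fill (S := S.glue x y hx hy) (l1 := [z1]) (l2 := z :: l) (P1 := [v'.length + 1])
          (P2 := (w.length + 1) :: P) (h := 0) (κ := κ) h4 rfl (by simp) (by simp) hf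
          (by simp only [List.length_cons, List.length_nil, List.sum_cons, List.sum_nil] at hV ⊢; omega)
          (by
            intro d hd
            rw [List.mem_singleton] at hd
            subst hd
            refine ⟨z, List.mem_cons_self, (cn_glue S hx hy d z).2 (Or.inl ?_)⟩
            exact cn_of_same ((st_hB hx hw (Or.inr List.mem_cons_self)).2.1.symm.trans
              (st_hB hx hw (Or.inl List.mem_cons_self)).2.1)) (by omega)
        rw [Nat.add_sub_cancel_left]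
        exact h2

/-- The new hole word after a triangle. -/
theorem st_word_T (h : S.St x .T S' z) : ∃ u t2, S.hw x = x :: u ∧ S'.hw z = z :: t2 :: u := by
  obtain ⟨t0, t1, t2, hx, h0, h1, h2, h01, h12, h20, rfl, rfl⟩ := h
  obtain ⟨u, hu⟩ := S.hw_cons hx
  exact ⟨u, t2, hu, hw_face S hx h0 h1 h2 h01 h12 h20 hu⟩

theorem st_sub (h : S.St x s S' z) : S.Sub S' ∧ x ∈ S.B ∧ z ∈ S'.B := by
  cases s with
  | T =>
    obtain ⟨t0, t1, t2, hx, h0, h1, h2, h01, h12, h20, rfl, rfl⟩ := h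
    refine ⟨face_sub S hx h0 h1 h2 h01 h12 h20, hx, ?_⟩
    rw [face_B]
    exact Or.inr (Or.inl rfl)
  | R k a =>
    obtain ⟨y, u, w, hx, hy, hw, hk, hf, hm, hwz, hz, hzu⟩ := st_R_aux h
    obtain ⟨g1, g2⟩ := df_aux hm hf
    exact ⟨sub_trans (glue_sub S hx hy) g1, hx, (g2 z hz hzu).1⟩
  | L k a =>
    obtain ⟨y, u, w, hx, hy, hw, hk, hf, hm, hwz, hz, hzu⟩ := st_L_aux h
    obtain ⟨g1, g2⟩ := df_aux hm hf
    exact ⟨sub_trans (glue_sub S hx hy) g1, hx, (g2 z hz hzu).1⟩

theorem st_other (h : S.St x s S' z) {d : D} (hd : d ∈ S.B) (hx : ¬ S.s.SameCycle x d) :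
    d ∈ S'.B ∧ S'.hw d = S.hw d ∧ ¬ S'.s.SameCycle z d := by
  have hdx : d ≠ x := by
    rintro rfl
    exact hx (Equiv.Perm.SameCycle.refl _ _)
  cases s with
  | T =>
    have hsub := st_sub h
    obtain ⟨t0, t1, t2, hxB, h0, h1, h2, h01, h12, h20, rfl, rfl⟩ := h
    have hdB : d ∈ (S.face x t0 z t2 hxB h0 h1 h2 h01 h12 h20).B := by
      rw [face_B]
      exact Or.inl ⟨hd, hdx⟩
    refine ⟨hdB, hw_face_other S hxB h0 h1 h2 h01 h12 h20 hd hx, fun hc => ?_⟩
    obtain ⟨u, hu⟩ := S.hw_cons hxB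
    have h3 : d ∈ (S.face x t0 z t2 hxB h0 h1 h2 h01 h12 h20).hw z := (mem_hw _ hsub.2.2).2 ⟨hdB, hc⟩
    rw [hw_face S hxB h0 h1 h2 h01 h12 h20 hu, List.mem_cons, List.mem_cons] at h3
    rcases h3 with rfl | rfl | h3
    · exact h1 (S.B_sub_R hd)
    · exact h2 (S.B_sub_R hd)
    · apply hx
      refine ((mem_hw S hxB).1 ?_).2
      rw [hu]
      exact List.mem_cons_of_mem _ h3
  | R k a =>
    obtain ⟨y, u, w, hxB, hy, hw, hk, hf, hm, hwz, hz, hzu⟩ := st_R_aux h
    obtain ⟨g1, g2⟩ := df_aux hm hf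
    have hxy := st_y hxB hw
    have hdy : ¬ S.s.SameCycle y d := fun hc => hx (hxy.1.trans hc)
    have hdy' : d ≠ y := by
      rintro rfl
      exact hdy (Equiv.Perm.SameCycle.refl _ _)
    have hdB : d ∈ (S.glue x y hxB hy).B := by
      rw [glue_B _ _ _ hxy.2]
      refine ⟨hd, ?_⟩
      rw [Set.mem_insert_iff, Set.mem_singleton_iff]
      tauto
    have hdu : d ∉ u := fun hc => hx (st_hB hxB hw (Or.inl hc)).2.1
    obtain ⟨k1, k2, k3⟩ := g2 d hdB hdu
    refine ⟨k1, by rw [k2, hw_glue_other S hxB hy hd hx hdy], fun hc => ?_⟩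
    have k4 := (g2 z hz hzu).2.2 d hc
    have k5 : d ∈ (S.glue x y hxB hy).hw z := (mem_hw _ hz).2 ⟨hdB, k4⟩
    rw [hwz] at k5
    exact hx (st_hB hxB hw (Or.inr k5)).2.1
  | L k a =>
    obtain ⟨y, u, w, hxB, hy, hw, hk, hf, hm, hwz, hz, hzu⟩ := st_L_aux h
    obtain ⟨g1, g2⟩ := df_aux hm hf
    have hxy := st_y hxB hw
    have hdy : ¬ S.s.SameCycle y d := fun hc => hx (hxy.1.trans hc)
    have hdy' : d ≠ y := by
      rintro rfl
      exact hdy (Equiv.Perm.SameCycle.refl _ _)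
    have hdB : d ∈ (S.glue x y hxB hy).B := by
      rw [glue_B _ _ _ hxy.2]
      refine ⟨hd, ?_⟩
      rw [Set.mem_insert_iff, Set.mem_singleton_iff]
      tauto
    have hdu : d ∉ u := fun hc => hx (st_hB hxB hw (Or.inr hc)).2.1
    obtain ⟨k1, k2, k3⟩ := g2 d hdB hdu
    refine ⟨k1, by rw [k2, hw_glue_other S hxB hy hd hx hdy], fun hc => ?_⟩
    have k4 := (g2 z hz hzu).2.2 d hc
    have k5 : d ∈ (S.glue x y hxB hy).hw z := (mem_hw _ hz).2 ⟨hdB, k4⟩
    rw [hwz] at k5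
    exact hx (st_hB hxB hw (Or.inl k5)).2.1

/-- The outer hole word after the step. -/
theorem st_word_R {k a : ℕ} (h : S.St x (.R k a) S' z) : ∃ y u v, S.hw x = x :: (u ++ y :: v) ∧ u.length = k ∧ S'.hw z = v := by
  obtain ⟨y, u, w, hxB, hy, hw, hk, hf, hm, hwz, hz, hzu⟩ := st_R_aux h
  obtain ⟨g1, g2⟩ := df_aux hm hf
  exact ⟨y, u, z :: w, hw, hk, by rw [(g2 z hz hzu).2.1, hwz]⟩

theorem st_word_L {k a : ℕ} (h : S.St x (.L k a) S' z) : ∃ y u v, S.hw x = x :: (u ++ y :: v) ∧ v.length = k ∧ S'.hw z = u := by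
  obtain ⟨y, v, w, hxB, hy, hw, hk, hf, hm, hwz, hz, hzu⟩ := st_L_aux h
  obtain ⟨g1, g2⟩ := df_aux hm hf
  exact ⟨y, z :: w, v, hw, hk, by rw [(g2 z hz hzu).2.1, hwz]⟩

end Part
end SYS
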