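import Pool.Agent.SYS.Lib.Part

/-!
# SYS-Lib-WordA: holes as words

`nx` = boundary successor (first return of `s` to `B`), `hw S x` = word of the hole of `x`, starting with `x`.
-/

namespace SYS
namespace Part

open Classical SST

variable {D : Type} [Finite D]

/-- Boundary successor. -/
noncomputable def nx (S : Part D) : Equiv.Perm D := ret S.s S.B

/-- Word of the hole of the boundary dart `x`. -/
noncomputable def hw (S : Part D) (x : D) : List D := (List.range (S.per x)).map fun i => (S.nx ^ i) x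

theorem nxt_iff (S : Part D) {d e : D} (hd : d ∈ S.B) : S.Nxt d e ↔ S.nx d = e := by
  constructor
  · rintro ⟨j, h1, h2, h3⟩
    rw [h1]
    rw [h1] at h2
    exact ret_eq S.s hd h2 h3
  · intro h
    obtain ⟨j, h1, h2, h3⟩ := ret_spec S.s hd
    refine ⟨j, ?_, ?_, h3⟩
    · rw [← h]
      exact h1
    · rw [← h]
      exact h2

theorem nx_mem (S : Part D) {d : D} : S.nx d ∈ S.B ↔ d ∈ S.B := by
  by_cases hd : d ∈ S.B
  · obtain ⟨j, h1, h2, h3⟩ := ret_spec S.s hd
    exact ⟨fun _ => hd, fun _ => h2⟩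
  · have h : S.nx d = d := ret_not_mem S.s hd
    rw [h]

/-- If `s d` is on the boundary it is the successor. -/
theorem nx_step (S : Part D) {d : D} (hd : d ∈ S.B) (h : S.s d ∈ S.B) : S.nx d = S.s d := by
  have h1 : (S.s ^ (0 + 1)) d = S.s d := by rw [zero_add, pow_one]
  have h2 := ret_eq S.s hd (j := 0) (by rw [h1]; exact h) (fun i hi => absurd hi (Nat.not_lt_zero i))
  rw [← h1]
  exact h2

private theorem pow_mem (S : Part D) {d : D} (hd : d ∈ S.B) (i : ℕ) : (S.nx ^ i) d ∈ S.B := by
  induction i with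
  | zero => exact hd
  | succ i ih =>
    rw [pow_succ', Equiv.Perm.mul_apply, nx_mem]
    exact ih

/-- the period -/
private noncomputable def pd (σ : Equiv.Perm D) (x : D) : ℕ := Function.minimalPeriod σ x

private theorem pd_pos (σ : Equiv.Perm D) (x : D) : 0 < pd σ x := by
  refine Function.IsPeriodicPt.minimalPeriod_pos (n := orderOf σ) (orderOf_pos σ) ?_
  unfold Function.IsPeriodicPt Function.IsFixedPt
  rw [Equiv.Perm.iterate_eq_pow, pow_orderOf_eq_one]
  rfl

omit [Finite D] in
private theorem pd_mod (σ : Equiv.Perm D) (x : D) (i : ℕ) : (σ ^ (i % pd σ x)) x = (σ ^ i) x := by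
  rw [← Equiv.Perm.iterate_eq_pow, ← Equiv.Perm.iterate_eq_pow]
  exact Function.iterate_mod_minimalPeriod_eq

omit [Finite D] in
private theorem pd_self (σ : Equiv.Perm D) (x : D) : (σ ^ pd σ x) x = x := by
  rw [← Equiv.Perm.iterate_eq_pow]
  exact Function.iterate_minimalPeriod

omit [Finite D] in
private theorem pd_inj (σ : Equiv.Perm D) (x : D) {i j : ℕ} (hi : i < pd σ x) (hj : j < pd σ x)
    (h : (σ ^ i) x = (σ ^ j) x) : i = j := by
  rw [← Equiv.Perm.iterate_eq_pow, ← Equiv.Perm.iterate_eq_pow] at h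
  exact Function.iterate_injOn_Iio_minimalPeriod (f := σ) (x := x) hi hj h

private theorem same_iff' (σ : Equiv.Perm D) (x e : D) :
    σ.SameCycle x e ↔ ∃ i < pd σ x, (σ ^ i) x = e := by
  constructor
  · intro h
    obtain ⟨i, hi⟩ := h.exists_nat_pow_eq
    exact ⟨i % pd σ x, Nat.mod_lt _ (pd_pos σ x), by rw [pd_mod, hi]⟩
  · rintro ⟨i, -, h⟩
    exact ⟨i, by rw [zpow_natCast]; exact h⟩

private theorem mem_hole (S : Part D) {x e : D} (hx : x ∈ S.B) :
    e ∈ S.hole x ↔ ∃ i < pd S.nx x, (S.nx ^ i) x = e := by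
  constructor
  · rintro ⟨h1, h2⟩
    exact (same_iff' S.nx x e).1 ((ret_same S.s hx h1).2 h2)
  · intro h
    obtain ⟨i, hi, rfl⟩ := h
    refine ⟨pow_mem S hx i, ?_⟩
    exact (ret_same S.s hx (pow_mem S hx i)).1 ((same_iff' S.nx x _).2 ⟨i, hi, rfl⟩)

private theorem per_eq (S : Part D) {x : D} (hx : x ∈ S.B) : S.per x = pd S.nx x := by
  have h : S.hole x = (fun i => (S.nx ^ i) x) '' (Finset.range (pd S.nx x) : Set ℕ) := by
    ext e
    rw [mem_hole S hx]
    constructor
    · rintro ⟨i, hi, h⟩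
      exact ⟨i, Finset.mem_coe.2 (Finset.mem_range.2 hi), h⟩
    · rintro ⟨i, hi, h⟩
      exact ⟨i, Finset.mem_range.1 (Finset.mem_coe.1 hi), h⟩
  unfold per
  rw [h, Set.InjOn.ncard_image, Set.ncard_coe_finset, Finset.card_range]
  intro i hi j hj hij
  exact pd_inj S.nx x (Finset.mem_range.1 (Finset.mem_coe.1 hi))
    (Finset.mem_range.1 (Finset.mem_coe.1 hj)) hij

theorem per_pos (S : Part D) {x : D} (hx : x ∈ S.B) : 0 < S.per x := by
  rw [per_eq S hx]
  exact pd_pos _ _

theorem hw_length (S : Part D) {x : D} (hx : x ∈ S.B) : (S.hw x).length = S.per x := by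
  unfold hw
  rw [List.length_map, List.length_range]

private theorem hw_get (S : Part D) (x : D) (i : ℕ) (hi : i < (S.hw x).length) :
    (S.hw x)[i] = (S.nx ^ i) x := by
  simp only [hw, List.getElem_map, List.getElem_range]

theorem hw_nodup (S : Part D) {x : D} (hx : x ∈ S.B) : (S.hw x).Nodup := by
  unfold hw
  refine List.Nodup.map_on ?_ List.nodup_range
  intro i hi j hj hij
  rw [List.mem_range, per_eq S hx] at hi hj
  exact pd_inj S.nx x hi hj hij

theorem mem_hw (S : Part D) {x d : D} (hx : x ∈ S.B) : d ∈ S.hw x ↔ d ∈ S.B ∧ S.s.SameCycle x d := by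
  have h : d ∈ S.hw x ↔ d ∈ S.hole x := by
    unfold hw
    rw [mem_hole S hx, List.mem_map, per_eq S hx]
    constructor
    · rintro ⟨i, hi, h⟩
      exact ⟨i, List.mem_range.1 hi, h⟩
    · rintro ⟨i, hi, h⟩
      exact ⟨i, List.mem_range.2 hi, h⟩
  rw [h]
  rfl

theorem hw_cons (S : Part D) {x : D} (hx : x ∈ S.B) : ∃ u, S.hw x = x :: u := by
  obtain ⟨k, hk⟩ : ∃ k, S.per x = k + 1 := ⟨S.per x - 1, by have := S.per_pos hx; omega⟩
  unfold hw
  rw [hk, List.range_succ_eq_map, List.map_cons, pow_zero, Equiv.Perm.one_apply]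
  exact ⟨_, rfl⟩

/-- Characterisation of the hole word. -/
theorem hw_eq_of (S : Part D) {x : D} {u : List D} (hB : ∀ d ∈ x :: u, d ∈ S.B) (hn : (x :: u).Nodup)
    (hc : List.IsChain (fun d e => S.nx d = e) (x :: u)) (hl : S.nx ((x :: u).getLast (by simp)) = x) :
    S.hw x = x :: u := by
  have hx : x ∈ S.B := hB x List.mem_cons_self
  have hget : ∀ i (hi : i < (x :: u).length), (x :: u)[i] = (S.nx ^ i) x := by
    intro i
    induction i with
    | zero =>
      intro hi
      rfl
    | succ i ih =>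
      intro hi
      have h1 := (List.isChain_iff_getElem.1 hc) i hi
      rw [pow_succ', Equiv.Perm.mul_apply, ← ih (by omega)]
      exact h1.symm
  have hper : (S.nx ^ (x :: u).length) x = x := by
    have h1 : (x :: u).length = u.length + 1 := rfl
    rw [h1, pow_succ', Equiv.Perm.mul_apply, ← hget u.length (by rw [h1]; omega)]
    rw [List.getLast_eq_getElem] at hl
    exact hl
  have hle : pd S.nx x ≤ (x :: u).length := by
    refine Function.IsPeriodicPt.minimalPeriod_le (Nat.succ_pos _) ?_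
    unfold Function.IsPeriodicPt Function.IsFixedPt
    rw [Equiv.Perm.iterate_eq_pow]
    exact hper
  have heq : pd S.nx x = (x :: u).length := by
    by_contra hne
    have hlt : pd S.nx x < (x :: u).length := lt_of_le_of_ne hle hne
    have h1 := hget (pd S.nx x) hlt
    rw [pd_self] at h1
    have h2 : (x :: u)[pd S.nx x] = (x :: u)[0] := h1
    have h3 := (List.Nodup.getElem_inj_iff hn).1 h2
    have := pd_pos S.nx x
    omega
  refine List.ext_getElem ?_ ?_
  · rw [hw_length S hx, per_eq S hx, heq]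
  · intro i h1 h2
    rw [hw_get, hget i h2]

theorem hw_chain (S : Part D) {x : D} (hx : x ∈ S.B) : List.IsChain (fun d e => S.nx d = e) (S.hw x) := by
  rw [List.isChain_iff_getElem]
  intro i hi
  rw [hw_get, hw_get, pow_succ', Equiv.Perm.mul_apply]

/-- Rotation of the hole word. -/
theorem hw_rot (S : Part D) {x y : D} (hx : x ∈ S.B) {u v : List D} (h : S.hw x = u ++ y :: v) :
    S.hw y = y :: (v ++ u) := by
  have hy : y ∈ S.B := by
    have h1 : y ∈ S.hw x := by
      rw [h]
      exact List.mem_append.2 (Or.inr List.mem_cons_self)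
    exact ((mem_hw S hx).1 h1).1
  have hlen : u.length < (S.hw x).length := by
    rw [h, List.length_append, List.length_cons]
    omega
  have hk : (S.nx ^ u.length) x = y := by
    rw [← hw_get S x u.length hlen]
    simp only [h]
    simp
  have hper : S.per y = S.per x := by
    have h1 : S.hole y = S.hole x := by
      have h2 : S.s.SameCycle x y := ((mem_hw S hx).1 (by
        rw [h]
        exact List.mem_append.2 (Or.inr List.mem_cons_self))).2
      ext e
      constructor
      · rintro ⟨h3, h4⟩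
        exact ⟨h3, h2.trans h4⟩
      · rintro ⟨h3, h4⟩
        exact ⟨h3, h2.symm.trans h4⟩
    unfold per
    rw [h1]
  have hrot : y :: (v ++ u) = (S.hw x).rotate u.length := by
    rw [h, List.rotate_append_length_eq]
    rfl
  rw [hrot]
  refine List.ext_getElem ?_ ?_
  · rw [hw_length S hy, List.length_rotate, hw_length S hx, hper]
  · intro i h1 h2
    rw [hw_get, List.getElem_rotate, hw_get, hw_length S hx, per_eq S hx, pd_mod, pow_add,
      Equiv.Perm.mul_apply, hk]

private theorem hd_nx {S : Part D} {T : Tri D} (h : S.Le T) {d : D} (hd : d ∈ S.B) :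
    T.hd d = T.tl (S.nx d) := by
  obtain ⟨j, h1, h2, h3⟩ := ret_spec S.s hd
  have h0 : S.s d = T.f d := by
    rw [s_apply, hd.2]
    exact (h.1 d hd.1).symm
  have key : ∀ i ≤ j, (S.s ^ (i + 1)) d ∈ S.R ∧ T.tl ((S.s ^ (i + 1)) d) = T.hd d := by
    intro i
    induction i with
    | zero =>
      intro _
      rw [zero_add, pow_one]
      refine ⟨(mem_R_s S d).2 hd.1, ?_⟩
      rw [h0, SST.Tri.tl_f]
    | succ i ih =>
      intro hi
      obtain ⟨h4, h5⟩ := ih (by omega)
      have h6 : (S.s ^ (i + 1 + 1)) d = S.s ((S.s ^ (i + 1)) d) := by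
        rw [pow_succ', Equiv.Perm.mul_apply]
      rw [h6]
      refine ⟨(mem_R_s S _).2 h4, ?_⟩
      rw [← le_s h h4 (h3 i (by omega)), SST.Tri.tl_s, h5]
  have h4 := (key j le_rfl).2
  rw [← h1] at h4
  exact h4.symm

private theorem walk_aux {S : Part D} {T : Tri D} (h : S.Le T) : ∀ (u : List D) (x : D),
    (∀ d ∈ x :: u, d ∈ S.B) → List.IsChain (fun d e => S.nx d = e) (x :: u) →
    T.IsWalk (T.tl x) (x :: u) (T.tl (S.nx ((x :: u).getLast (by simp))))
  | [], x, hB, _ => ⟨rfl, hd_nx h (hB x List.mem_cons_self)⟩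
  | y :: u, x, hB, hc => by
    rw [List.isChain_cons_cons] at hc
    refine ⟨rfl, ?_⟩
    rw [hd_nx h (hB x List.mem_cons_self), hc.1, List.getLast_cons (by simp)]
    exact walk_aux h u y (fun d hd => hB d (List.mem_cons_of_mem _ hd)) hc.2

/-- The hole word is a closed walk in every triangulation which extends `S`. -/
theorem hw_walk {S : Part D} {T : Tri D} (h : S.Le T) {x : D} (hx : x ∈ S.B) :
    T.IsWalk (T.tl x) (S.hw x) (T.tl x) := by
  obtain ⟨u, hu⟩ := S.hw_cons hx
  have hB : ∀ d ∈ x :: u, d ∈ S.B := by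
    intro d hd
    rw [← hu] at hd
    exact ((mem_hw S hx).1 hd).1
  have hc := S.hw_chain hx
  rw [hu] at hc
  have h1 := walk_aux h u x hB hc
  have hlast : S.nx ((x :: u).getLast (by simp)) = x := by
    have h2 : (x :: u).length = u.length + 1 := rfl
    have h3 : u.length < (S.hw x).length := by rw [hu, h2]; omega
    have h4 : (x :: u).getLast (by simp) = (S.nx ^ u.length) x := by
      rw [← hw_get S x u.length h3, List.getLast_eq_getElem]
      simp only [hu]
      rfl
    have h5 : pd S.nx x = u.length + 1 := by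
      rw [← per_eq S hx, ← hw_length S hx, hu, h2]
    rw [h4, ← Equiv.Perm.mul_apply, ← pow_succ', ← h5, pd_self]
  rw [hlast] at h1
  rw [hu]
  exact h1

end Part
end SYS
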